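import Mathlib

/-!
# MP_fc0680_nt : common definitions

Hypersurfaces of multidegree `d` in a product of projective spaces, given by integer coefficient
vectors `c : Exps n d → ℤ` (one coefficient for every multihomogeneous monomial).
-/

set_option autoImplicit false

open Finset Filter

namespace Pool.Agent.HP

/-- Exponent vectors of degree `D` in `N` variables. -/
abbrev Mon (N D : ℕ) : Type := {s : Fin N → Fin (D + 1) // ∑ j, (s j : ℕ) = D}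

/-- The monomial with exponent vector `s` at the point `x`. -/
def bm {N D : ℕ} {R : Type} [CommRing R] (s : Mon N D) (x : Fin N → R) : R :=
  ∏ j, x j ^ (s.1 j : ℕ)

/-- Exponents of multihomogeneous monomials: one exponent vector for every block. -/
abbrev Exps {k : ℕ} (n d : Fin k → ℕ) : Type := (i : Fin k) → Mon (n i + 1) (d i)

/-- Points: one vector for every block. -/
abbrev Pt {k : ℕ} (n : Fin k → ℕ) (R : Type) : Type := (i : Fin k) → Fin (n i + 1) → R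

/-- Multihomogeneous monomial at a point. -/
def mono {k : ℕ} {n d : Fin k → ℕ} {R : Type} [CommRing R] (s : Exps n d) (P : Pt n R) : R :=
  ∏ i, bm (s i) (P i)

/-- The form with coefficients `c` at the point `P`. -/
def ev {k : ℕ} {n d : Fin k → ℕ} {R : Type} [CommRing R] (c : Exps n d → R) (P : Pt n R) : R :=
  ∑ s, c s * mono s P

/-- The form with integer coefficients `c` at a point over the ring `R`. -/
def evZ {k : ℕ} {n d : Fin k → ℕ} {R : Type} [CommRing R] (c : Exps n d → ℤ) (P : Pt n R) : R :=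
  ev (fun s => (c s : R)) P

/-- The form `c` as a polynomial in the variable `(i, j)`, the others being frozen at `P`. -/
noncomputable def line {k : ℕ} {n d : Fin k → ℕ} {R : Type} [CommRing R] (c : Exps n d → R)
    (P : Pt n R) (i : Fin k) (j : Fin (n i + 1)) : Polynomial R :=
  ∑ s : Exps n d, Polynomial.C (c s * (∏ l ∈ univ.erase j, P i l ^ ((s i).1 l : ℕ)) *
    ∏ i' ∈ univ.erase i, bm (s i') (P i')) * Polynomial.X ^ ((s i).1 j : ℕ)

/-- Partial derivative of the form `c` with respect to the variable `(i, j)` at `P`. -/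
noncomputable def dev {k : ℕ} {n d : Fin k → ℕ} {R : Type} [CommRing R] (c : Exps n d → R)
    (P : Pt n R) (i : Fin k) (j : Fin (n i + 1)) : R :=
  (Polynomial.derivative (line c P i j)).eval (P i j)

/-- Unimodular vectors (over `ℤ`: primitive vectors). -/
def Umod {N : ℕ} {R : Type} [CommRing R] (x : Fin N → R) : Prop :=
  ∃ e : Fin N → R, ∑ j, e j * x j = 1

/-- Sup norm of an integer vector. -/
def nrm {N : ℕ} (x : Fin N → ℤ) : ℕ := univ.sup fun j => (x j).natAbs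

/-- Largest `2 × 2` minor of `(x, y)`; it is `0` iff `x, y` are proportional. -/
def wd {N : ℕ} (x y : Fin N → ℤ) : ℕ :=
  univ.sup fun p : Fin N × Fin N => (x p.1 * y p.2 - x p.2 * y p.1).natAbs

/-- Greatest common divisor of the `2 × 2` minors of `(x, y)`. -/
def gd {N : ℕ} (x y : Fin N → ℤ) : ℕ :=
  univ.gcd fun p : Fin N × Fin N => (x p.1 * y p.2 - x p.2 * y p.1).natAbs

/-- `x` is separated from all other integer vectors. -/
def Sep {N : ℕ} (Δ : ℕ) (x : Fin N → ℤ) : Prop := ∀ y : Fin N → ℤ, wd x y ≠ 0 → Δ ≤ wd x y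

/-- The integer vectors of size at most `μ` orthogonal to `x` span `x^⊥` (dual formulation). -/
def GoodSpan {N : ℕ} (μ : ℕ) (x : Fin N → ℤ) : Prop :=
  ∀ w : Fin N → ℝ, (∀ l : Fin N → ℤ, (∀ j, (l j).natAbs ≤ μ) → ∑ j, l j * x j = 0 →
    ∑ j, w j * (l j : ℝ) = 0) → ∃ t : ℝ, ∀ j, w j = t * (x j : ℝ)

/-- Box of integer vectors. -/
noncomputable def box (ι : Type) [Fintype ι] [DecidableEq ι] (H : ℕ) : Finset (ι → ℤ) :=
  Fintype.piFinset fun _ => Finset.Icc (-(H : ℤ)) (H : ℤ)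

/-- Dual form of `the kernel of ⟨·, m⟩ is spanned by integer vectors of size at most ρ`. -/
def Dual1 {ι : Type} [Fintype ι] (ρ : ℕ) (m : ι → ℤ) : Prop :=
  ∀ φ : ι → ℝ, (∀ b : ι → ℤ, (∀ i, (b i).natAbs ≤ ρ) → ∑ i, b i * m i = 0 →
    ∑ i, φ i * (b i : ℝ) = 0) → ∃ α : ℝ, ∀ i, φ i = α * (m i : ℝ)

/-- Dual form of `the kernel of (⟨·, m⟩, ⟨·, m'⟩) is spanned by integer vectors of size ≤ ρ`. -/
def Dual2 {ι : Type} [Fintype ι] (ρ : ℕ) (m m' : ι → ℤ) : Prop :=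
  ∀ φ : ι → ℝ, (∀ b : ι → ℤ, (∀ i, (b i).natAbs ≤ ρ) → ∑ i, b i * m i = 0 →
    ∑ i, b i * m' i = 0 → ∑ i, φ i * (b i : ℝ) = 0) →
    ∃ α β : ℝ, ∀ i, φ i = α * (m i : ℝ) + β * (m' i : ℝ)

/-- Every real vector of the hyperplane `⟨·, m⟩ = 0` is within `ρ` of an integer one. -/
def Cov1 {ι : Type} [Fintype ι] (ρ : ℕ) (m : ι → ℤ) : Prop :=
  ∀ v : ι → ℝ, ∑ i, v i * (m i : ℝ) = 0 →
    ∃ b : ι → ℤ, ∑ i, b i * m i = 0 ∧ ∀ i, |v i - (b i : ℝ)| ≤ ρ

/-- Every real vector with `⟨·, m⟩ = ⟨·, m'⟩ = 0` is within `ρ` of an integer one. -/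
def Cov2 {ι : Type} [Fintype ι] (ρ : ℕ) (m m' : ι → ℤ) : Prop :=
  ∀ v : ι → ℝ, ∑ i, v i * (m i : ℝ) = 0 → ∑ i, v i * (m' i : ℝ) = 0 →
    ∃ b : ι → ℤ, ∑ i, b i * m i = 0 ∧ ∑ i, b i * m' i = 0 ∧ ∀ i, |v i - (b i : ℝ)| ≤ ρ

/-- Shell of integer points: every block has norm in `(X i / 2, X i]`. -/
def Shell {k : ℕ} {n : Fin k → ℕ} (X : Fin k → ℕ) (P : Pt n ℤ) : Prop :=
  ∀ i, X i < 2 * nrm (P i) ∧ nrm (P i) ≤ X i

open Classical in
/-- The finite set of integer points in the shell. -/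
noncomputable def shell {k : ℕ} (n : Fin k → ℕ) (X : Fin k → ℕ) : Finset (Pt n ℤ) :=
  (Fintype.piFinset fun i => box (Fin (n i + 1)) (X i)).filter (fun P => Shell X P)

/-- Size of the values: `∏ X_i ^ d_i`. -/
def Sz {k : ℕ} (d : Fin k → ℕ) (X : Fin k → ℕ) : ℝ := ∏ i, (X i : ℝ) ^ (d i)

/-- Number of points of the box: `∏ X_i ^ (n_i + 1)`. -/
def Vol {k : ℕ} (n : Fin k → ℕ) (X : Fin k → ℕ) : ℝ := ∏ i, (X i : ℝ) ^ (n i + 1)

/-- Expected order of the number of points. -/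
noncomputable def EE {k : ℕ} (n d : Fin k → ℕ) (X : Fin k → ℕ) (H : ℕ) : ℝ :=
  Vol n X / (H * Sz d X)

open Classical in
/-- Number of points of `Ps` on the hypersurface `c`. -/
noncomputable def Nn {k : ℕ} {n d : Fin k → ℕ} (Ps : Finset (Pt n ℤ)) (c : Exps n d → ℤ) : ℝ :=
  ((Ps.filter fun P => evZ c P = (0 : ℤ)).card : ℝ)

open Classical in
/-- Local model for the number of points. -/
noncomputable def Nl {k : ℕ} {n d : Fin k → ℕ} (Ps : Finset (Pt n ℤ)) (W : ℕ) (V : ℝ)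
    (c : Exps n d → ℤ) : ℝ :=
  (W : ℝ) / (2 * V) * ((Ps.filter fun P => (W : ℤ) ∣ (evZ c P : ℤ) ∧
    |((evZ c P : ℤ) : ℝ)| ≤ V).card : ℝ)

/-- Real solubility. -/
def RealSol {k : ℕ} {n d : Fin k → ℕ} (c : Exps n d → ℤ) : Prop :=
  ∃ P : Pt n ℝ, (∀ i, ∃ j, P i j ≠ 0) ∧ evZ c P = 0

/-- Solubility over `ℚ_p` for all `p`. -/
def PadicSol {k : ℕ} {n d : Fin k → ℕ} (c : Exps n d → ℤ) (p : ℕ) [Fact p.Prime] : Prop :=
  ∃ P : Pt n ℚ_[p], (∀ i, ∃ j, P i j ≠ 0) ∧ evZ c P = 0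

/-- Everywhere local solubility. -/
def ELS {k : ℕ} {n d : Fin k → ℕ} (c : Exps n d → ℤ) : Prop :=
  RealSol c ∧ ∀ (p : ℕ) (_ : Fact p.Prime), PadicSol c p

/-- Global solubility. -/
def RatSol {k : ℕ} {n d : Fin k → ℕ} (c : Exps n d → ℤ) : Prop :=
  ∃ P : Pt n ℚ, (∀ i, ∃ j, P i j ≠ 0) ∧ evZ c P = 0

/-- Robust real solubility: a pivot-normalised real zero with a large non-pivot derivative. -/
def RobustReal {k : ℕ} {n d : Fin k → ℕ} (γ : ℝ) (H : ℕ) (c : Exps n d → ℤ) : Prop :=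
  ∃ (P : Pt n ℝ) (piv : (i : Fin k) → Fin (n i + 1)) (i : Fin k) (j : Fin (n i + 1)),
    (∀ i j, |P i j| ≤ 1) ∧ (∀ i, P i (piv i) = 1) ∧ evZ c P = 0 ∧ j ≠ piv i ∧
    γ * H ≤ |dev (fun s => (c s : ℝ)) P i j|

open Classical in
/-- Unimodular zeros modulo `N`. -/
noncomputable def Zs {k : ℕ} {n d : Fin k → ℕ} (N : ℕ) [NeZero N] (c : Exps n d → ZMod N) :
    Finset (Pt n (ZMod N)) :=
  univ.filter fun z => (∀ i, Umod (z i)) ∧ ev c z = 0

/-- Singular forms modulo `N`. -/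
def SingMod {k : ℕ} {n d : Fin k → ℕ} (N : ℕ) (c : Exps n d → ZMod N) : Prop :=
  ∃ z : Pt n (ZMod N), (∀ i, ∃ j, z i j = 1) ∧ ev c z = 0 ∧ ∀ i j, dev c z i j = 0

/-- Number of forms of the box vanishing at both vectors. -/
noncomputable def pairE1 {ι : Type} [Fintype ι] [DecidableEq ι] (H : ℕ) (m m' : ι → ℤ) : ℝ :=
  (((box ι H).filter fun c => ∑ i, c i * m i = 0 ∧ ∑ i, c i * m' i = 0).card : ℝ)

/-- Number of forms vanishing at the first vector, in the window at the second. -/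
noncomputable def pairE2 {ι : Type} [Fintype ι] [DecidableEq ι] (H W : ℕ) (V : ℝ)
    (m m' : ι → ℤ) : ℝ :=
  (((box ι H).filter fun c => ∑ i, c i * m i = 0 ∧ (W : ℤ) ∣ ∑ i, c i * m' i ∧
    |((∑ i, c i * m' i : ℤ) : ℝ)| ≤ V).card : ℝ)

/-- Number of forms in the window at both vectors. -/
noncomputable def pairE3 {ι : Type} [Fintype ι] [DecidableEq ι] (H W : ℕ) (V : ℝ)
    (m m' : ι → ℤ) : ℝ :=
  (((box ι H).filter fun c => ((W : ℤ) ∣ ∑ i, c i * m i ∧ |((∑ i, c i * m i : ℤ) : ℝ)| ≤ V) ∧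
    ((W : ℤ) ∣ ∑ i, c i * m' i ∧ |((∑ i, c i * m' i : ℤ) : ℝ)| ≤ V)).card : ℝ)

/-- The variance estimate with its set of points. -/
def VarProp {k : ℕ} (n d : Fin k → ℕ) : Prop :=
  ∃ (X : ℕ → Fin k → ℕ) (Ps : ℕ → Finset (Pt n ℤ)),
    (∀ i, Tendsto (fun H => X H i) atTop atTop) ∧
    (∀ H, ∀ P ∈ Ps H, Shell (X H) P ∧ ∀ i, Umod (P i)) ∧
    (∀ ε : ℝ, 0 < ε → ∀ᶠ H : ℕ in atTop, ∀ F : Finset (Pt n ℤ),
      (∀ P ∈ F, Shell (X H) P ∧ (∀ i, Umod (P i)) ∧ P ∉ Ps H) →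
      (F.card : ℝ) ≤ ε * Vol n (X H)) ∧
    ∀ ε : ℝ, 0 < ε → ∃ w : ℕ, ∃ δ₀ : ℝ, 0 < δ₀ ∧ ∀ W : ℕ, 0 < W →
      (∀ m, 1 ≤ m → m ≤ w → m ∣ W) → ∀ δ : ℝ, 0 < δ → δ ≤ δ₀ → ∀ᶠ H : ℕ in atTop,
      ∑ c ∈ box (Exps n d) H, (Nn (Ps H) c - Nl (Ps H) W (δ * H * Sz d (X H)) c) ^ 2 ≤
        ε * EE n d (X H) H ^ 2 * (2 * (H : ℝ) + 1) ^ Fintype.card (Exps n d)

end Pool.Agent.HP
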