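import Mathlib
import Pool.Agent.Lib.MP_fc0680_nt.Defs

/-!
# MP_fc0680_nt module CONIC: Hasse-Minkowski for ternary quadratic forms over the rationals
-/

set_option autoImplicit false

open Finset

namespace Pool.Agent.HP

namespace Conic

/-- `z² = a x² + b y²` has a nonzero solution. -/
def Iso (k : Type) [Field k] (a b : ℤ) : Prop :=
  ∃ x y z : k, (x ≠ 0 ∨ y ≠ 0 ∨ z ≠ 0) ∧ z ^ 2 = (a : k) * x ^ 2 + (b : k) * y ^ 2

theorem Iso.symm {k : Type} [Field k] {a b : ℤ} (h : Iso k a b) : Iso k b a := by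
  obtain ⟨x, y, z, h0, h1⟩ := h
  refine ⟨y, x, z, ?_, ?_⟩
  · tauto
  · rw [h1]; ring

theorem Iso.norm {k : Type} [Field k] [CharZero k] {a b b' t : ℤ} (hb : b ≠ 0)
    (ht : t ^ 2 = a + b * b') (h : Iso k a b) : Iso k a b' := by
  obtain ⟨x, y, z, h0, h1⟩ := h
  have ht' : (t : k) ^ 2 = a + b * b' := by exact_mod_cast congrArg (Int.cast : ℤ → k) ht
  by_cases hy : y = 0
  · refine ⟨x, y, z, h0, ?_⟩
    rw [h1, hy]; ring
  · refine ⟨t * x + z, b * y, t * z + a * x, Or.inr (Or.inl ?_), ?_⟩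
    · exact mul_ne_zero (by exact_mod_cast hb) hy
    · linear_combination ((t : k) ^ 2 - a) * h1 + (b : k) * y ^ 2 * ht'

theorem Iso.sq {k : Type} [Field k] [CharZero k] {a b c u : ℤ} (hu : u ≠ 0)
    (hc : u ^ 2 * b = c) : Iso k a c ↔ Iso k a b := by
  have hu' : (u : k) ≠ 0 := by exact_mod_cast hu
  have hc' : (u : k) ^ 2 * b = c := by exact_mod_cast congrArg (Int.cast : ℤ → k) hc
  constructor
  · rintro ⟨x, y, z, h0, h1⟩
    refine ⟨x, u * y, z, ?_, ?_⟩
    · rcases h0 with h0 | h0 | h0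
      · exact Or.inl h0
      · exact Or.inr (Or.inl (mul_ne_zero hu' h0))
      · exact Or.inr (Or.inr h0)
    · rw [h1, ← hc']; ring
  · rintro ⟨x, y, z, h0, h1⟩
    refine ⟨x, y / u, z, ?_, ?_⟩
    · rcases h0 with h0 | h0 | h0
      · exact Or.inl h0
      · exact Or.inr (Or.inl (div_ne_zero h0 hu'))
      · exact Or.inr (Or.inr h0)
    · rw [h1, ← hc']; field_simp

theorem max_norm {p : ℕ} [hp : Fact p.Prime] (x y z : ℚ_[p]) (h : x ≠ 0 ∨ y ≠ 0 ∨ z ≠ 0) :
    ∃ w : ℚ_[p], w ≠ 0 ∧ (w = x ∨ w = y ∨ w = z) ∧ ‖x‖ ≤ ‖w‖ ∧ ‖y‖ ≤ ‖w‖ ∧ ‖z‖ ≤ ‖w‖ := by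
  have key : ∃ w : ℚ_[p], (w = x ∨ w = y ∨ w = z) ∧ ‖x‖ ≤ ‖w‖ ∧ ‖y‖ ≤ ‖w‖ ∧ ‖z‖ ≤ ‖w‖ := by
    rcases le_total ‖x‖ ‖y‖ with h1 | h1
    · rcases le_total ‖y‖ ‖z‖ with h2 | h2
      · exact ⟨z, by simp, h1.trans h2, h2, le_rfl⟩
      · exact ⟨y, by simp, h1, le_rfl, h2⟩
    · rcases le_total ‖x‖ ‖z‖ with h2 | h2
      · exact ⟨z, by simp, h2, h1.trans h2, le_rfl⟩
      · exact ⟨x, by simp, le_rfl, h1, h2⟩
  obtain ⟨w, h1, h2, h3, h4⟩ := key
  refine ⟨w, ?_, h1, h2, h3, h4⟩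
  rintro rfl
  rw [norm_zero] at h2 h3 h4
  rcases h with h | h | h
  · exact h (norm_le_zero_iff.1 h2)
  · exact h (norm_le_zero_iff.1 h3)
  · exact h (norm_le_zero_iff.1 h4)

theorem local_int {p : ℕ} [hp : Fact p.Prime] {a b : ℤ} (h : Iso ℚ_[p] a b) :
    ∃ x y z : ℤ_[p], (x = 1 ∨ y = 1 ∨ z = 1) ∧ z ^ 2 = (a : ℤ_[p]) * x ^ 2 + (b : ℤ_[p]) * y ^ 2 := by
  obtain ⟨x, y, z, h0, h1⟩ := h
  obtain ⟨w, hw, hc, hx, hy, hz⟩ := max_norm x y z h0
  have hw' : 0 < ‖w‖ := norm_pos_iff.2 hw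
  have hle : ∀ v : ℚ_[p], ‖v‖ ≤ ‖w‖ → ‖v / w‖ ≤ 1 := by
    intro v hv
    rw [norm_div]
    exact (div_le_one hw').2 hv
  refine ⟨⟨x / w, hle x hx⟩, ⟨y / w, hle y hy⟩, ⟨z / w, hle z hz⟩, ?_, ?_⟩
  · rcases hc with hc | hc | hc
    · left; apply PadicInt.ext; simp only [PadicInt.coe_one]; rw [← hc]; exact div_self hw
    · right; left; apply PadicInt.ext; simp only [PadicInt.coe_one]; rw [← hc]; exact div_self hw
    · right; right; apply PadicInt.ext; simp only [PadicInt.coe_one]; rw [← hc]; exact div_self hw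
  · apply PadicInt.ext
    push_cast
    rw [div_pow, div_pow, div_pow, h1]
    ring

theorem toZMod_zero {p : ℕ} [hp : Fact p.Prime] {x : ℤ_[p]} (h : PadicInt.toZMod x = 0) :
    ∃ x' : ℤ_[p], x = p * x' := by
  have h1 : x ∈ RingHom.ker (PadicInt.toZMod (p := p)) := h
  rw [PadicInt.ker_toZMod, PadicInt.maximalIdeal_eq_span_p, Ideal.mem_span_singleton] at h1
  exact h1

theorem local_sq {p : ℕ} [hp : Fact p.Prime] {a b : ℤ} (hb : (p : ℤ) ∣ b)
    (hb2 : ¬ ((p : ℤ) ^ 2 ∣ b)) (h : Iso ℚ_[p] a b) : ∃ t : ℤ, (p : ℤ) ∣ t ^ 2 - a := by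
  by_cases ha : (p : ℤ) ∣ a
  · exact ⟨0, by simpa using ha⟩
  obtain ⟨x, y, z, h0, h1⟩ := local_int h
  have hpp : (p : ℤ_[p]) ≠ 0 := by exact_mod_cast hp.out.ne_zero
  have ha' : (a : ZMod p) ≠ 0 := by
    intro h; exact ha ((ZMod.intCast_zmod_eq_zero_iff_dvd a p).1 h)
  obtain ⟨b1, rfl⟩ := hb
  have hb1 : ¬ (p : ℤ) ∣ b1 := by
    rintro ⟨c, rfl⟩; exact hb2 ⟨c, by ring⟩
  have hb1' : (b1 : ZMod p) ≠ 0 := by
    intro h; exact hb1 ((ZMod.intCast_zmod_eq_zero_iff_dvd b1 p).1 h)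
  have h2 : (PadicInt.toZMod z) ^ 2 = (a : ZMod p) * (PadicInt.toZMod x) ^ 2 := by
    have := congrArg (PadicInt.toZMod (p := p)) h1
    simpa using this
  by_cases hx : PadicInt.toZMod x = 0
  · exfalso
    have hz : PadicInt.toZMod z = 0 := by
      rw [hx] at h2; simpa using h2
    obtain ⟨x', rfl⟩ := toZMod_zero hx
    obtain ⟨z', rfl⟩ := toZMod_zero hz
    have h3 : (b1 : ℤ_[p]) * y ^ 2 = p * (z' ^ 2 - a * x' ^ 2) := by
      have : (p : ℤ_[p]) * ((b1 : ℤ_[p]) * y ^ 2) = p * (p * (z' ^ 2 - a * x' ^ 2)) := by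
        push_cast at h1
        linear_combination -h1
      exact mul_left_cancel₀ hpp this
    have h4 : (b1 : ZMod p) * (PadicInt.toZMod y) ^ 2 = 0 := by
      have := congrArg (PadicInt.toZMod (p := p)) h3
      simpa using this
    have hy : PadicInt.toZMod y = 0 := by
      rcases mul_eq_zero.1 h4 with h | h
      · exact absurd h hb1'
      · simpa using h
    rcases h0 with h | h | h
    · rw [h] at hx; simp at hx
    · rw [h] at hy; simp at hy
    · rw [h] at hz; simp at hz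
  · obtain ⟨t, ht⟩ := ZMod.intCast_surjective (PadicInt.toZMod z / PadicInt.toZMod x)
    refine ⟨t, (ZMod.intCast_zmod_eq_zero_iff_dvd _ p).1 ?_⟩
    push_cast
    rw [ht, div_pow, h2]
    field_simp
    ring

theorem crt_sq (a : ℤ) (n : ℕ) : Squarefree n →
    (∀ p : ℕ, p.Prime → p ∣ n → ∃ t : ℤ, (p : ℤ) ∣ t ^ 2 - a) → ∃ t : ℤ, (n : ℤ) ∣ t ^ 2 - a := by
  induction n using induction_on_primes with
  | zero => intro h; exact absurd h not_squarefree_zero
  | one => intro _ _; exact ⟨0, by simp⟩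
  | prime_mul p m hp ih =>
    intro hsq hall
    obtain ⟨t2, ht2⟩ := hall p hp (dvd_mul_right _ _)
    obtain ⟨t1, ht1⟩ := ih (hsq.squarefree_of_dvd (dvd_mul_left _ _))
      (fun q hq hd => hall q hq (hd.mul_left _))
    have hcop : Nat.Coprime p m := Nat.coprime_of_squarefree_mul hsq
    have hcop' : IsCoprime (p : ℤ) (m : ℤ) := Nat.isCoprime_iff_coprime.2 hcop
    obtain ⟨u, v, huv⟩ := hcop'
    refine ⟨t1 * (u * p) + t2 * (v * m), ?_⟩
    push_cast
    apply IsCoprime.mul_dvd (Nat.isCoprime_iff_coprime.2 hcop)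
    · have : (t1 * (u * p) + t2 * (v * m)) ^ 2 - a =
          (t2 ^ 2 - a) + p * ((t1 - t2) * u * (2 * t2 + (t1 - t2) * (u * p))) := by
        have hv : v * (m : ℤ) = 1 - u * p := by linarith
        rw [hv]; ring
      rw [this]
      exact dvd_add ht2 (dvd_mul_right _ _)
    · have : (t1 * (u * p) + t2 * (v * m)) ^ 2 - a =
          (t1 ^ 2 - a) + m * ((t2 - t1) * v * (2 * t1 + (t2 - t1) * (v * m))) := by
        have hv : u * (p : ℤ) = 1 - v * m := by linarith
        rw [hv]; ring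
      rw [this]
      exact dvd_add ht1 (dvd_mul_right _ _)

theorem small_rep (n t : ℤ) (hn : 0 < n) : ∃ s : ℤ, n ∣ t - s ∧ 2 * |s| ≤ n := by
  have h1 : 0 ≤ t % n := Int.emod_nonneg _ hn.ne'
  have h2 : t % n < n := Int.emod_lt_of_pos _ hn
  have h3 : n ∣ t - t % n := Int.dvd_self_sub_emod
  by_cases h : 2 * (t % n) ≤ n
  · exact ⟨t % n, h3, by rw [abs_of_nonneg h1]; exact h⟩
  · refine ⟨t % n - n, ?_, ?_⟩
    · have : t - (t % n - n) = (t - t % n) + n := by ring
      rw [this]; exact dvd_add h3 (dvd_refl _)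
    · rw [abs_of_nonpos (by linarith)]; linarith

theorem int_sqfree (c : ℤ) (hc : c ≠ 0) : ∃ u b : ℤ, u ≠ 0 ∧ b ≠ 0 ∧ Squarefree b ∧ |b| ≤ |c| ∧
    u ^ 2 * b = c := by
  obtain ⟨b, u, hbu, hb⟩ := Nat.sq_mul_squarefree c.natAbs
  have hcn : c.natAbs ≠ 0 := Int.natAbs_ne_zero.2 hc
  have hu : u ≠ 0 := by rintro rfl; apply hcn; rw [← hbu]; simp
  have hb0 : b ≠ 0 := by rintro rfl; apply hcn; rw [← hbu]; simp
  have hle : b ≤ c.natAbs := by
    rw [← hbu]; exact Nat.le_mul_of_pos_left _ (by positivity)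
  have hc2 : ((u : ℤ) ^ 2 * b) = |c| := by
    rw [← Int.natCast_natAbs, ← hbu]; push_cast; ring
  have hsq : Squarefree (b : ℤ) := by
    rw [← Int.squarefree_natAbs]; simpa using hb
  have hle' : ((b : ℤ)) ≤ |c| := by
    rw [← Int.natCast_natAbs]; exact_mod_cast hle
  rcases le_total 0 c with h | h
  · refine ⟨u, b, by exact_mod_cast hu, by exact_mod_cast hb0, hsq, ?_, ?_⟩
    · rw [abs_of_nonneg (by positivity : (0:ℤ) ≤ b)]; exact hle'
    · rw [hc2, abs_of_nonneg h]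
  · refine ⟨u, -b, by exact_mod_cast hu, by simpa using hb0, ?_, ?_, ?_⟩
    · rw [← Int.squarefree_natAbs, Int.natAbs_neg]; simpa using hb
    · rw [abs_neg, abs_of_nonneg (by positivity : (0:ℤ) ≤ b)]; exact hle'
    · have : (u : ℤ) ^ 2 * (-b) = -((u : ℤ) ^ 2 * b) := by ring
      rw [this, hc2, abs_of_nonpos h]; ring

theorem main_aux (N : ℕ) : ∀ a b : ℤ, a ≠ 0 → b ≠ 0 → Squarefree a → Squarefree b →
    |a| + |b| ≤ N → Iso ℝ a b → (∀ (p : ℕ) (_ : Fact p.Prime), Iso ℚ_[p] a b) → Iso ℚ a b := by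
  induction N using Nat.strong_induction_on with
  | _ N IH =>
  -- the case |a| ≤ |b|
  have key : ∀ a b : ℤ, a ≠ 0 → b ≠ 0 → Squarefree a → Squarefree b → |a| ≤ |b| →
      |a| + |b| ≤ N → Iso ℝ a b → (∀ (p : ℕ) (_ : Fact p.Prime), Iso ℚ_[p] a b) →
      Iso ℚ a b := by
    intro a b ha hb hsa hsb hab hN hR hP
    have hapos : 1 ≤ |a| := Int.one_le_abs ha
    have hbpos : 1 ≤ |b| := Int.one_le_abs hb
    rcases eq_or_lt_of_le hbpos with h1 | h2
    · -- |b| = 1, |a| = 1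
      have ha1 : |a| = 1 := by omega
      have hb1 : |b| = 1 := h1.symm
      rcases (abs_eq (by norm_num : (0:ℤ) ≤ 1)).1 ha1 with rfl | rfl
      · exact ⟨1, 0, 1, Or.inl one_ne_zero, by simp⟩
      · rcases (abs_eq (by norm_num : (0:ℤ) ≤ 1)).1 hb1 with rfl | rfl
        · exact ⟨0, 1, 1, Or.inr (Or.inl one_ne_zero), by simp⟩
        · exfalso
          obtain ⟨x, y, z, h0, h1⟩ := hR
          push_cast at h1
          have hx : x = 0 := by nlinarith [sq_nonneg x, sq_nonneg y, sq_nonneg z]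
          have hy : y = 0 := by nlinarith [sq_nonneg x, sq_nonneg y, sq_nonneg z]
          have hz : z = 0 := by nlinarith [sq_nonneg x, sq_nonneg y, sq_nonneg z]
          tauto
    · -- |b| ≥ 2
      have hn : 0 < |b| := by omega
      obtain ⟨t0, ht0⟩ := crt_sq a b.natAbs (Int.squarefree_natAbs.2 hsb) (by
        intro p hp hd
        have : Fact p.Prime := ⟨hp⟩
        have hd' : (p : ℤ) ∣ b := Int.natCast_dvd.2 hd
        refine local_sq hd' ?_ (hP p ⟨hp⟩)
        intro hd2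
        have := hsb (p : ℤ) (by rw [← sq]; exact hd2)
        have h3 := Int.isUnit_iff_natAbs_eq.1 this
        simp at h3
        exact hp.one_lt.ne' h3)
      rw [Int.natCast_natAbs, abs_dvd] at ht0
      obtain ⟨t, htd, hts⟩ := small_rep |b| t0 hn
      rw [abs_dvd] at htd
      have hbt : b ∣ t ^ 2 - a := by
        have : t ^ 2 - a = (t0 ^ 2 - a) - (t0 - t) * (t0 + t) := by ring
        rw [this]
        exact dvd_sub ht0 (htd.mul_right _)
      obtain ⟨b', hb'⟩ := hbt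
      have htb : t ^ 2 = a + b * b' := by linarith
      by_cases hb0 : b' = 0
      · -- a is a square
        subst hb0
        refine ⟨1, 0, t, Or.inl one_ne_zero, ?_⟩
        have : (t : ℚ) ^ 2 = a + b * 0 := by exact_mod_cast congrArg (Int.cast : ℤ → ℚ) htb
        rw [this]; ring
      · -- size of b'
        have hsz : |b'| < |b| := by
          have h3 : |b| * |b'| ≤ |t| ^ 2 + |a| := by
            rw [← abs_mul]
            have : b * b' = t ^ 2 - a := by linarith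
            rw [this, ← abs_pow]
            exact abs_sub _ _
          have h4 : 4 * |t| ^ 2 ≤ |b| ^ 2 := by nlinarith [abs_nonneg t, abs_nonneg b]
          by_contra hcon
          push Not at hcon
          nlinarith [abs_nonneg b, abs_nonneg b']
        obtain ⟨u, b'', hu, hb'', hsb'', hle, hub⟩ := int_sqfree b' hb0
        have hfin : Iso ℚ a b'' := by
          refine IH (|a| + |b''|).toNat ?_ a b'' ha hb'' hsa hsb'' ?_ ?_ ?_
          · have := abs_nonneg a
            have := abs_nonneg b''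
            omega
          · have := abs_nonneg a
            have := abs_nonneg b''
            omega
          · exact (Iso.sq hu hub).1 (hR.norm hb htb)
          · intro p hp
            exact (Iso.sq hu hub).1 ((hP p hp).norm hb htb)
        have h5 : Iso ℚ a b' := (Iso.sq hu hub).2 hfin
        exact h5.norm hb0 (by rw [htb]; ring)
  intro a b ha hb hsa hsb hN hR hP
  rcases le_total |a| |b| with h | h
  · exact key a b ha hb hsa hsb h hN hR hP
  · exact (key b a hb ha hsb hsa h (by rw [add_comm]; exact hN) hR.symm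
      (fun p hp => (hP p hp).symm)).symm

theorem main (a b : ℤ) (ha : a ≠ 0) (hb : b ≠ 0) (hR : Iso ℝ a b)
    (hP : ∀ (p : ℕ) (_ : Fact p.Prime), Iso ℚ_[p] a b) : Iso ℚ a b := by
  obtain ⟨u, a', hu, ha', hsa, -, hua⟩ := int_sqfree a ha
  obtain ⟨v, b', hv, hb', hsb, -, hvb⟩ := int_sqfree b hb
  have tr : ∀ (k : Type) [Field k] [CharZero k], Iso k a b ↔ Iso k a' b' := by
    intro k _ _
    rw [Iso.sq hv hvb]
    constructor
    · intro h; exact ((Iso.sq hu hua).1 h.symm).symm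
    · intro h; exact ((Iso.sq hu hua).2 h.symm).symm
  rw [tr]
  exact main_aux _ a' b' ha' hb' hsa hsb (le_of_eq (Int.toNat_of_nonneg (by positivity)).symm)
    ((tr _).1 hR) (fun p hp => (tr _).1 (hP p hp))

/-- Diagonal version. -/
theorem diag (d : Fin 3 → ℚ)
    (hR : ∃ x : Fin 3 → ℝ, x ≠ 0 ∧ ∑ i, (d i : ℝ) * x i ^ 2 = 0)
    (hP : ∀ (p : ℕ) (_ : Fact p.Prime), ∃ x : Fin 3 → ℚ_[p], x ≠ 0 ∧
      ∑ i, (d i : ℚ_[p]) * x i ^ 2 = 0) :
    ∃ x : Fin 3 → ℚ, x ≠ 0 ∧ ∑ i, d i * x i ^ 2 = 0 := by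
  by_cases h0 : ∃ i, d i = 0
  · obtain ⟨i, hi⟩ := h0
    refine ⟨Pi.single i 1, by simp, ?_⟩
    apply Finset.sum_eq_zero
    intro j _
    by_cases hj : j = i
    · subst hj; rw [hi]; ring
    · simp [hj]
  push Not at h0
  -- integer coefficients
  obtain ⟨D, hD, e, he⟩ : ∃ D : ℤ, D ≠ 0 ∧ ∃ e : Fin 3 → ℤ, ∀ i, d i * D = e i := by
    refine ⟨∏ i, ((d i).den : ℤ), ?_, fun i => (d i).num * ∏ j ∈ univ.erase i, ((d j).den : ℤ), ?_⟩
    · exact Finset.prod_ne_zero_iff.2 fun i _ => by exact_mod_cast (d i).den_nz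
    · intro i
      push_cast
      rw [← Finset.mul_prod_erase univ (fun j => ((d j).den : ℚ)) (mem_univ i), ← mul_assoc,
        Rat.mul_den_eq_num]
  have he0 : ∀ i, e i ≠ 0 := by
    intro i h
    have := he i
    rw [h] at this
    have h1 : d i * D ≠ 0 := mul_ne_zero (h0 i) (by exact_mod_cast hD)
    exact h1 (by rw [this]; simp)
  -- transfer
  have tr : ∀ (k : Type) [Field k] [CharZero k],
      (∃ x : Fin 3 → k, x ≠ 0 ∧ ∑ i, ((d i : ℚ) : k) * x i ^ 2 = 0) ↔
        Iso k (- (e 0 * e 2)) (- (e 1 * e 2)) := by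
    intro k _ _
    have hD' : (D : k) ≠ 0 := by exact_mod_cast hD
    have he' : ∀ i, ((d i : ℚ) : k) * (D : k) = (e i : k) := by
      intro i
      have := congrArg (Rat.cast : ℚ → k) (he i)
      push_cast at this
      exact this
    have hek : ∀ i, (e i : k) ≠ 0 := fun i => by exact_mod_cast he0 i
    constructor
    · rintro ⟨x, hx, hs⟩
      rw [Fin.sum_univ_three] at hs
      refine ⟨x 0, x 1, e 2 * x 2, ?_, ?_⟩
      · by_contra hcon
        push Not at hcon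
        obtain ⟨h1, h2, h3⟩ := hcon
        apply hx
        have h4 : x 2 = 0 := by
          rcases mul_eq_zero.1 h3 with h | h
          · exact absurd h (hek 2)
          · exact h
        funext i
        fin_cases i
        · exact h1
        · exact h2
        · exact h4
      · push_cast
        have h5 : (e 0 : k) * x 0 ^ 2 + e 1 * x 1 ^ 2 + e 2 * x 2 ^ 2 = 0 := by
          rw [← he' 0, ← he' 1, ← he' 2]
          linear_combination (D : k) * hs
        linear_combination (e 2 : k) * h5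
    · rintro ⟨x, y, z, hne, h1⟩
      refine ⟨![x, y, z / e 2], ?_, ?_⟩
      · intro hcon
        have hx : x = 0 := congrFun hcon 0
        have hy : y = 0 := congrFun hcon 1
        have hz : z / e 2 = 0 := congrFun hcon 2
        rcases div_eq_zero_iff.1 hz with hz | hz
        · tauto
        · exact hek 2 hz
      · rw [Fin.sum_univ_three]
        simp only [Matrix.cons_val_zero, Matrix.cons_val_one, Matrix.cons_val]
        push_cast at h1
        have h6 : (D : k) * (((d 0 : ℚ) : k) * x ^ 2 + ((d 1 : ℚ) : k) * y ^ 2 +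
            ((d 2 : ℚ) : k) * (z / e 2) ^ 2) = 0 := by
          have : (D : k) * (((d 0 : ℚ) : k) * x ^ 2 + ((d 1 : ℚ) : k) * y ^ 2 +
            ((d 2 : ℚ) : k) * (z / e 2) ^ 2) = (e 0 : k) * x ^ 2 + e 1 * y ^ 2 +
              e 2 * (z / e 2) ^ 2 := by
            rw [← he' 0, ← he' 1]
            have h7 : ((d 2 : ℚ) : k) * (D : k) * (z / e 2) ^ 2 = e 2 * (z / e 2) ^ 2 := by
              rw [he' 2]
            linear_combination h7
          rw [this, div_pow, h1]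
          field_simp [hek 2]
          ring
        rcases mul_eq_zero.1 h6 with h | h
        · exact absurd h hD'
        · exact h
  have hQ := main (- (e 0 * e 2)) (- (e 1 * e 2)) (neg_ne_zero.2 (mul_ne_zero (he0 _) (he0 _)))
    (neg_ne_zero.2 (mul_ne_zero (he0 _) (he0 _))) ((tr ℝ).1 hR)
    (fun p hp => (tr ℚ_[p]).1 (hP p hp))
  have := (tr ℚ).2 hQ
  simpa using this

end Conic

theorem Conic.quad_eq {k : Type} [Field k] (M : Matrix (Fin 3) (Fin 3) k) (x : Fin 3 → k) :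
    ∑ i, ∑ j, M i j * x i * x j = x ⬝ᵥ (M.mulVec x) := by
  simp only [dotProduct, Matrix.mulVec, Finset.mul_sum]
  refine Finset.sum_congr rfl fun i _ => Finset.sum_congr rfl fun j _ => ?_
  ring

theorem ternary_hm (A : Matrix (Fin 3) (Fin 3) ℚ) (hA : A.IsSymm)
    (hR : ∃ x : Fin 3 → ℝ, x ≠ 0 ∧ ∑ i, ∑ j, (A i j : ℝ) * x i * x j = 0)
    (hp : ∀ (p : ℕ) (_ : Fact p.Prime), ∃ x : Fin 3 → ℚ_[p], x ≠ 0 ∧
      ∑ i, ∑ j, (A i j : ℚ_[p]) * x i * x j = 0) :
    ∃ x : Fin 3 → ℚ, x ≠ 0 ∧ ∑ i, ∑ j, A i j * x i * x j = 0 := by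
  -- diagonalise
  obtain ⟨P, Q, hPQ, hQP, d, hd⟩ : ∃ P Q : Matrix (Fin 3) (Fin 3) ℚ, P * Q = 1 ∧ Q * P = 1 ∧
      ∃ d : Fin 3 → ℚ, P.transpose * A * P = Matrix.diagonal d := by
    have hB : (Matrix.toBilin' A).IsSymm := Matrix.isSymm_toBilin'_iff_isSymm.2 hA
    let _ : Invertible (2 : ℚ) := invertibleOfNonzero two_ne_zero
    obtain ⟨v, hv⟩ := LinearMap.BilinForm.exists_orthogonal_basis (B := Matrix.toBilin' A)
      ⟨fun x y => by simpa using hB.eq x y⟩
    have hf : Module.finrank ℚ (Fin 3 → ℚ) = 3 := by simp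
    let w : Module.Basis (Fin 3) ℚ (Fin 3 → ℚ) := v.reindex (finCongr hf)
    refine ⟨(Pi.basisFun ℚ (Fin 3)).toMatrix w, w.toMatrix (Pi.basisFun ℚ (Fin 3)),
      Module.Basis.toMatrix_mul_toMatrix_flip _ _, Module.Basis.toMatrix_mul_toMatrix_flip _ _,
      fun i => Matrix.toBilin' A (w i) (w i), ?_⟩
    have key : ∀ a b, (((Pi.basisFun ℚ (Fin 3)).toMatrix w).transpose * A *
        (Pi.basisFun ℚ (Fin 3)).toMatrix w) a b = Matrix.toBilin' A (w a) (w b) := by
      intro a b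
      rw [Matrix.toBilin'_apply]
      simp only [Matrix.mul_apply, Matrix.transpose_apply, Module.Basis.toMatrix_apply,
        Pi.basisFun_repr, Finset.sum_mul]
      rw [Finset.sum_comm]
    ext a b
    rw [key]
    by_cases hab : a = b
    · subst hab; rw [Matrix.diagonal_apply_eq]
    · rw [Matrix.diagonal_apply_ne _ hab]
      have h1 : w a = v ((finCongr hf).symm a) := by simp [w]
      have h2 : w b = v ((finCongr hf).symm b) := by simp [w]
      rw [h1, h2]
      apply hv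
      intro h
      exact hab ((finCongr hf).symm.injective h)
  -- transfer
  have tr : ∀ (k : Type) [Field k] [CharZero k],
      (∃ x : Fin 3 → k, x ≠ 0 ∧ ∑ i, ∑ j, ((A i j : ℚ) : k) * x i * x j = 0) ↔
        (∃ x : Fin 3 → k, x ≠ 0 ∧ ∑ i, ((d i : ℚ) : k) * x i ^ 2 = 0) := by
    intro k _ _
    let φ : ℚ →+* k := algebraMap ℚ k
    have hφ : ∀ q : ℚ, φ q = (q : k) := fun q => by simp [φ]
    let A' := A.map φ
    let P' := P.map φ
    let Q' := Q.map φ
    have hPQ' : P' * Q' = 1 := by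
      show P.map φ * Q.map φ = 1
      rw [← Matrix.map_mul, hPQ]; simp
    have hQP' : Q' * P' = 1 := by
      show Q.map φ * P.map φ = 1
      rw [← Matrix.map_mul, hQP]; simp
    have hd' : P'.transpose * A' * P' = Matrix.diagonal (fun i => φ (d i)) := by
      show (P.map φ).transpose * A.map φ * P.map φ = _
      rw [← Matrix.transpose_map, ← Matrix.map_mul, ← Matrix.map_mul, hd,
        Matrix.diagonal_map (map_zero φ)]
    have hAA : ∀ x : Fin 3 → k, ∑ i, ∑ j, ((A i j : ℚ) : k) * x i * x j =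
        x ⬝ᵥ (A'.mulVec x) := by
      intro x
      rw [← Conic.quad_eq]
      simp only [A', Matrix.map_apply, hφ]
    have hmain : ∀ y : Fin 3 → k, (P'.mulVec y) ⬝ᵥ (A'.mulVec (P'.mulVec y)) =
        ∑ i, ((d i : ℚ) : k) * y i ^ 2 := by
      intro y
      have h1 : (P'.mulVec y) ⬝ᵥ (A'.mulVec (P'.mulVec y)) =
          y ⬝ᵥ ((P'.transpose * A' * P').mulVec y) := by
        rw [← Matrix.mulVec_mulVec, ← Matrix.mulVec_mulVec, Matrix.dotProduct_mulVec y,
          Matrix.vecMul_transpose]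
      rw [h1, hd']
      simp only [dotProduct, Matrix.mulVec_diagonal, hφ]
      refine Finset.sum_congr rfl fun i _ => ?_
      ring
    constructor
    · rintro ⟨x, hx, hs⟩
      have hxx : P'.mulVec (Q'.mulVec x) = x := by
        rw [Matrix.mulVec_mulVec, hPQ', Matrix.one_mulVec]
      refine ⟨Q'.mulVec x, ?_, ?_⟩
      · intro h
        rw [h] at hxx
        apply hx
        rw [← hxx]; simp
      · rw [← hmain, hxx, ← hAA, hs]
    · rintro ⟨y, hy, hs⟩
      have hyy : Q'.mulVec (P'.mulVec y) = y := by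
        rw [Matrix.mulVec_mulVec, hQP', Matrix.one_mulVec]
      refine ⟨P'.mulVec y, ?_, ?_⟩
      · intro h
        rw [h] at hyy
        apply hy
        rw [← hyy]; simp
      · rw [hAA, hmain, hs]
  have := (tr ℚ).2 (by
    have := Conic.diag d ((tr ℝ).1 hR) (fun p hp' => (tr ℚ_[p]).1 (hp p hp'))
    simpa using this)
  simpa using this

end Pool.Agent.HP
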