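import Pool.Agent.Lib.MP_fc0680_nt.Defs

/-!
# MP_fc0680_nt, module BEZ

gcd of the `2 × 2` minors of a pair of integer vectors, decompositions, Bezout identities for forms.
-/

set_option autoImplicit false

open Finset Filter

namespace Pool.Agent.HP

theorem gd_dvd {N : ℕ} (x y : Fin N → ℤ) (i j : Fin N) :
    (gd x y : ℤ) ∣ x i * y j - x j * y i := by
  rw [Int.natCast_dvd]
  exact Finset.gcd_dvd (f := fun p : Fin N × Fin N => (x p.1 * y p.2 - x p.2 * y p.1).natAbs)
    (Finset.mem_univ (i, j))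

theorem dvd_gd {N : ℕ} (x y : Fin N → ℤ) (g : ℕ) (h : ∀ i j, (g : ℤ) ∣ x i * y j - x j * y i) :
    g ∣ gd x y := by
  refine Finset.dvd_gcd fun p _ => ?_
  have := h p.1 p.2
  rwa [Int.natCast_dvd] at this

theorem gd_pos_iff {N : ℕ} (x y : Fin N → ℤ) : 0 < gd x y ↔ wd x y ≠ 0 := by
  rw [Nat.pos_iff_ne_zero, not_iff_not]
  unfold gd wd
  rw [Finset.gcd_eq_zero_iff, ← Nat.le_zero, Finset.sup_le_iff]
  constructor
  · intro h p hp
    exact (h p hp).le
  · intro h p hp
    exact Nat.le_zero.1 (h p hp)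

theorem gd_le_wd {N : ℕ} (x y : Fin N → ℤ) : gd x y ≤ wd x y := by
  by_cases h : wd x y = 0
  · have h0 : gd x y = 0 := by
      by_contra hne
      exact (gd_pos_iff x y).1 (Nat.pos_of_ne_zero hne) h
    omega
  · have hex : ∃ p : Fin N × Fin N, (x p.1 * y p.2 - x p.2 * y p.1).natAbs ≠ 0 := by
      by_contra hcon
      push Not at hcon
      apply h
      unfold wd
      rw [← Nat.le_zero, Finset.sup_le_iff]
      intro p _
      exact (hcon p).le
    obtain ⟨p, hp⟩ := hex
    have h1 : gd x y ∣ (x p.1 * y p.2 - x p.2 * y p.1).natAbs := by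
      have := gd_dvd x y p.1 p.2
      rwa [Int.natCast_dvd] at this
    have h2 : (x p.1 * y p.2 - x p.2 * y p.1).natAbs ≤ wd x y :=
      Finset.le_sup (f := fun p : Fin N × Fin N => (x p.1 * y p.2 - x p.2 * y p.1).natAbs)
        (Finset.mem_univ p)
    exact (Nat.le_of_dvd (Nat.pos_of_ne_zero hp) h1).trans h2

/-- The gcd of finitely many integers is an integer combination. -/
theorem exists_gcd_comb {ι : Type} [DecidableEq ι] (f : ι → ℤ) (s : Finset ι) :
    ∃ e : ι → ℤ, ∑ p ∈ s, e p * f p = ((s.gcd fun p => (f p).natAbs : ℕ) : ℤ) := by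
  induction s using Finset.induction_on with
  | empty => exact ⟨fun _ => 0, by simp⟩
  | insert a s ha ih =>
    obtain ⟨e, he⟩ := ih
    set g : ℕ := s.gcd fun p => (f p).natAbs with hg
    refine ⟨fun p => if p = a then Int.gcdA (f a) (g : ℤ) else e p * Int.gcdB (f a) (g : ℤ), ?_⟩
    rw [Finset.sum_insert ha, Finset.gcd_insert]
    have h0 : (fun p => if p = a then Int.gcdA (f a) (g : ℤ) else e p * Int.gcdB (f a) (g : ℤ)) a =
        Int.gcdA (f a) (g : ℤ) := if_pos rfl
    rw [h0]
    have h1 : ∑ p ∈ s, (if p = a then Int.gcdA (f a) (g : ℤ) else e p * Int.gcdB (f a) (g : ℤ)) *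
        f p = Int.gcdB (f a) (g : ℤ) * (g : ℤ) := by
      rw [← he, Finset.mul_sum]
      refine Finset.sum_congr rfl fun p hp => ?_
      have hpa : p ≠ a := fun h => ha (h ▸ hp)
      rw [if_neg hpa]
      ring
    rw [h1, ← hg]
    have h2 := Int.gcd_eq_gcd_ab (f a) (g : ℤ)
    have h3 : GCDMonoid.gcd (f a).natAbs g = Int.gcd (f a) (g : ℤ) := by
      rw [Int.gcd_def, Int.natAbs_natCast]
      rfl
    rw [h3, h2]
    ring

theorem exists_lin {N : ℕ} (x y : Fin N → ℤ) :
    ∃ l : Fin N → ℤ, ∑ j, l j * x j = 0 ∧ ∑ j, l j * y j = gd x y := by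
  obtain ⟨e, he⟩ := exists_gcd_comb
    (fun p : Fin N × Fin N => x p.1 * y p.2 - x p.2 * y p.1) Finset.univ
  have key : ∀ v : Fin N → ℤ, ∑ j, (∑ p : Fin N × Fin N, e p *
      (x p.1 * (if j = p.2 then 1 else 0) - x p.2 * (if j = p.1 then 1 else 0))) * v j =
      ∑ p : Fin N × Fin N, e p * (x p.1 * v p.2 - x p.2 * v p.1) := by
    intro v
    simp_rw [Finset.sum_mul]
    rw [Finset.sum_comm]
    refine Finset.sum_congr rfl fun p _ => ?_
    have h1 : ∀ j : Fin N, e p * (x p.1 * (if j = p.2 then 1 else 0) -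
        x p.2 * (if j = p.1 then 1 else 0)) * v j =
        (if j = p.2 then e p * x p.1 * v j else 0) - (if j = p.1 then e p * x p.2 * v j else 0) := by
      intro j
      split_ifs <;> ring
    simp_rw [h1]
    rw [Finset.sum_sub_distrib, Finset.sum_ite_eq' Finset.univ p.2, Finset.sum_ite_eq' Finset.univ p.1]
    simp only [Finset.mem_univ, if_true]
    ring
  refine ⟨fun j => ∑ p : Fin N × Fin N, e p *
    (x p.1 * (if j = p.2 then 1 else 0) - x p.2 * (if j = p.1 then 1 else 0)), ?_, ?_⟩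
  · rw [key x]
    refine Finset.sum_eq_zero fun p _ => ?_
    ring
  · rw [key y, he]
    rfl

theorem exists_decomp {N : ℕ} (x y : Fin N → ℤ) (hx : Umod x) (g : ℕ) (hg : g ∣ gd x y) :
    ∃ (t : ℤ) (z : Fin N → ℤ), ∀ j, y j = t * x j + g * z j := by
  obtain ⟨e, he⟩ := hx
  have hd : ∀ j, (g : ℤ) ∣ ∑ l, e l * (x l * y j - x j * y l) := by
    intro j
    refine Finset.dvd_sum fun l _ => ?_
    exact Dvd.dvd.mul_left ((Int.natCast_dvd_natCast.2 hg).trans (gd_dvd x y l j)) _
  choose z hz using hd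
  refine ⟨∑ l, e l * y l, z, fun j => ?_⟩
  rw [← hz j, Finset.sum_mul, ← Finset.sum_add_distrib]
  have : ∀ l, e l * y l * x j + e l * (x l * y j - x j * y l) = (e l * x l) * y j := by
    intro l; ring
  simp_rw [this]
  rw [← Finset.sum_mul, he, one_mul]

theorem wd_eq_zero_of_prim {N : ℕ} (x y : Fin N → ℤ) (hx : Umod x) (hy : Umod y)
    (h : wd x y = 0) : y = x ∨ y = -x := by
  have h0 : gd x y = 0 := by
    have := gd_le_wd x y
    omega
  obtain ⟨t, z, hz⟩ := exists_decomp x y hx 0 (by rw [h0])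
  have hz' : ∀ j, y j = t * x j := by
    intro j
    rw [hz j]
    simp
  obtain ⟨e, he⟩ := hy
  have h1 : t * ∑ j, e j * x j = 1 := by
    rw [← he, Finset.mul_sum]
    refine Finset.sum_congr rfl fun j _ => ?_
    rw [hz' j]
    ring
  rcases Int.isUnit_iff.1 (IsUnit.of_mul_eq_one _ h1) with h2 | h2
  · left
    funext j
    rw [hz' j, h2, one_mul]
  · right
    funext j
    rw [hz' j, h2, Pi.neg_apply]
    ring

/-- The exponent vector of the monomial `∏ r, x (φ r)`. -/
def monOf {N D : ℕ} (φ : Fin D → Fin N) : Mon N D :=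
  ⟨fun j => ⟨(univ.filter fun r => φ r = j).card, by
    have := Finset.card_filter_le (univ : Finset (Fin D)) (fun r => φ r = j)
    rw [Finset.card_univ, Fintype.card_fin] at this
    omega⟩, by
    have h := Finset.card_eq_sum_card_fiberwise (s := (univ : Finset (Fin D)))
      (t := (univ : Finset (Fin N))) (f := φ) (fun r _ => Finset.mem_coe.2 (Finset.mem_univ _))
    rw [Finset.card_univ, Fintype.card_fin] at h
    exact h.symm⟩

theorem bm_monOf {N D : ℕ} {R : Type} [CommRing R] (φ : Fin D → Fin N) (x : Fin N → R) :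
    bm (monOf φ) x = ∏ r, x (φ r) := by
  unfold bm monOf
  simp only
  rw [← Finset.prod_fiberwise (univ : Finset (Fin D)) φ (fun r => x (φ r))]
  refine Finset.prod_congr rfl fun j _ => ?_
  rw [Finset.prod_congr rfl (g := fun _ => x j), Finset.prod_const]
  intro r hr
  rw [(Finset.mem_filter.1 hr).2]

/-- A product of `D` linear forms is a form of degree `D`. -/
theorem exists_prod_lin {N D : ℕ} {R : Type} [CommRing R] (l : Fin D → Fin N → R) :
    ∃ b : Mon N D → R, ∀ x : Fin N → R, ∑ s, b s * bm s x = ∏ r, ∑ j, l r j * x j := by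
  classical
  refine ⟨fun s => ∑ φ ∈ (univ : Finset (Fin D → Fin N)).filter (fun φ => monOf φ = s),
    ∏ r, l r (φ r), fun x => ?_⟩
  rw [Finset.prod_univ_sum, Fintype.piFinset_univ,
    ← Finset.sum_fiberwise (univ : Finset (Fin D → Fin N)) (fun φ => monOf φ)]
  refine Finset.sum_congr rfl fun s _ => ?_
  rw [Finset.sum_mul]
  refine Finset.sum_congr rfl fun φ hφ => ?_
  rw [← (Finset.mem_filter.1 hφ).2, bm_monOf, ← Finset.prod_mul_distrib]

/-- A product of linear forms, `d i` of them in the variables of block `i`, is a form. -/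
theorem exists_prod_lin_blocks {k : ℕ} {n d : Fin k → ℕ} {R : Type} [CommRing R]
    (l : (i : Fin k) → Fin (d i) → Fin (n i + 1) → R) :
    ∃ b : Exps n d → R, ∀ P : Pt n R, ev b P = ∏ i, ∏ r, ∑ j, l i r j * P i j := by
  choose b hb using fun i => exists_prod_lin (l i)
  refine ⟨fun s => ∏ i, b i (s i), fun P => ?_⟩
  unfold ev mono
  simp_rw [← hb, ← Finset.prod_mul_distrib]
  rw [Finset.prod_univ_sum, Fintype.piFinset_univ]

theorem bez_one {k : ℕ} {n d : Fin k → ℕ} {R : Type} [CommRing R] (P : Pt n R)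
    (hP : ∀ i, Umod (P i)) : ∃ b : Exps n d → R, ev b P = 1 := by
  choose e he using hP
  obtain ⟨b, hb⟩ := exists_prod_lin_blocks (n := n) (d := d) (fun i _ => e i)
  refine ⟨b, ?_⟩
  rw [hb]
  simp only [he, Finset.prod_const_one]

theorem bez_lin {k : ℕ} {n d : Fin k → ℕ} {R : Type} [CommRing R] (P P' : Pt n R)
    (hP' : ∀ i, Umod (P' i)) (i : Fin k) (hd : 1 ≤ d i) (l : Fin (n i + 1) → R)
    (hl : ∑ j, l j * P i j = 0) :
    ∃ b : Exps n d → R, ev b P = 0 ∧ ev b P' = ∑ j, l j * P' i j := by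
  choose e he using hP'
  set L : (i : Fin k) → Fin (d i) → Fin (n i + 1) → R :=
    Function.update (fun i _ => e i) i (Function.update (fun _ => e i) ⟨0, hd⟩ l) with hL
  have hLi : L i = Function.update (fun _ => e i) ⟨0, hd⟩ l := by
    rw [hL, Function.update_self]
  have hLi' : ∀ i', i' ≠ i → L i' = fun _ => e i' := by
    intro i' hi'
    rw [hL, Function.update_of_ne hi']
  obtain ⟨b, hb⟩ := exists_prod_lin_blocks (n := n) (d := d) L
  refine ⟨b, ?_, ?_⟩
  · rw [hb]
    refine Finset.prod_eq_zero (Finset.mem_univ i) ?_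
    refine Finset.prod_eq_zero (Finset.mem_univ (⟨0, hd⟩ : Fin (d i))) ?_
    rw [hLi, Function.update_self, hl]
  · rw [hb, Finset.prod_eq_single i]
    · rw [hLi, Finset.prod_eq_single (⟨0, hd⟩ : Fin (d i))]
      · rw [Function.update_self]
      · intro r _ hr
        rw [Function.update_of_ne hr, he]
      · intro h
        exact absurd (Finset.mem_univ _) h
    · intro i' _ hi'
      rw [hLi' i' hi']
      simp only [he, Finset.prod_const_one]
    · intro h
      exact absurd (Finset.mem_univ _) h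

end Pool.Agent.HP
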