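import Mathlib
import Pool.Agent.Lib.MP_fc0680_nt.Defs
import Pool.Agent.Lib.MP_fc0680_nt.Conic

/-!
# MP_fc0680_nt module CONICB: conic_block and triv_block
-/

set_option autoImplicit false

open Finset

namespace Pool.Agent.HP

namespace ConicB

theorem factor {N : ℕ} (s : Fin N → ℕ) (m : ℕ) (h : ∑ j, s j = m + 1) :
    ∃ (a : Fin N) (s' : Fin N → ℕ), ∑ j, s' j = m ∧
      ∀ (R : Type) [CommRing R] (x : Fin N → R), ∏ j, x j ^ s j = x a * ∏ j, x j ^ s' j := by
  obtain ⟨a, ha⟩ : ∃ a, s a ≠ 0 := by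
    by_contra hcon
    push Not at hcon
    rw [Finset.sum_eq_zero (fun j _ => hcon j)] at h
    omega
  refine ⟨a, Function.update s a (s a - 1), ?_, ?_⟩
  · rw [← Finset.add_sum_erase univ _ (mem_univ a)] at h
    rw [← Finset.add_sum_erase univ _ (mem_univ a), Function.update_self]
    have : ∑ j ∈ univ.erase a, Function.update s a (s a - 1) j = ∑ j ∈ univ.erase a, s j := by
      refine Finset.sum_congr rfl fun j hj => ?_
      rw [Function.update_of_ne (Finset.ne_of_mem_erase hj)]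
    rw [this]
    omega
  · intro R _ x
    rw [← Finset.mul_prod_erase univ _ (mem_univ a),
      ← Finset.mul_prod_erase univ (fun j => x j ^ Function.update s a (s a - 1) j) (mem_univ a)]
    have : ∏ j ∈ univ.erase a, x j ^ Function.update s a (s a - 1) j =
        ∏ j ∈ univ.erase a, x j ^ s j := by
      refine Finset.prod_congr rfl fun j hj => ?_
      rw [Function.update_of_ne (Finset.ne_of_mem_erase hj)]
    rw [this, Function.update_self, ← mul_assoc, ← pow_succ']
    congr 3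
    omega

theorem one_factor {N : ℕ} (s : Fin N → ℕ) (h : ∑ j, s j = 1) :
    ∃ a : Fin N, ∀ (R : Type) [CommRing R] (x : Fin N → R), ∏ j, x j ^ s j = x a := by
  obtain ⟨a, s', h1, h2⟩ := factor s 0 h
  refine ⟨a, fun R _ x => ?_⟩
  rw [h2 R x, Finset.prod_eq_one, mul_one]
  intro j _
  rw [(Finset.sum_eq_zero_iff.1 h1) j (mem_univ j), pow_zero]

theorem two_factors {N : ℕ} (s : Fin N → ℕ) (h : ∑ j, s j = 2) :
    ∃ a b : Fin N, ∀ (R : Type) [CommRing R] (x : Fin N → R), ∏ j, x j ^ s j = x a * x b := by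
  obtain ⟨a, s', h1, h2⟩ := factor s 1 h
  obtain ⟨b, hb⟩ := one_factor s' h1
  exact ⟨a, b, fun R _ x => by rw [h2 R x, hb R x]⟩

theorem quad_form {k : ℕ} (n d : Fin k → ℕ) (i₀ : Fin k) (hk : ∀ j, j = i₀)
    (hd : d i₀ = 2) (c : Exps n d → ℤ) :
    ∃ M : Matrix (Fin (n i₀ + 1)) (Fin (n i₀ + 1)) ℤ, ∀ (R : Type) [Field R] (P : Pt n R),
      (evZ c P : R) = ∑ i, ∑ j, (M i j : R) * P i₀ i * P i₀ j := by
  have hs : ∀ s : Exps n d, ∃ a b : Fin (n i₀ + 1), ∀ (R : Type) [CommRing R]
      (x : Fin (n i₀ + 1) → R), bm (s i₀) x = x a * x b := by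
    intro s
    have := two_factors (fun j => ((s i₀).1 j : ℕ)) (by rw [(s i₀).2, hd])
    exact this
  choose a b hab using hs
  refine ⟨fun i j => ∑ s ∈ univ.filter (fun s : Exps n d => a s = i ∧ b s = j), c s, ?_⟩
  intro R _ P
  unfold evZ ev
  have h1 : ∀ s : Exps n d, mono s P = P i₀ (a s) * P i₀ (b s) := by
    intro s
    unfold mono
    rw [Fintype.prod_eq_single i₀ (fun j hj => absurd (hk j) hj), hab]
  simp only [h1]
  push_cast
  simp only [Finset.sum_mul, Finset.sum_filter]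
  have h2 : ∀ i : Fin (n i₀ + 1), ∑ j : Fin (n i₀ + 1), ∑ s : Exps n d,
      (if a s = i ∧ b s = j then (c s : R) else 0) * P i₀ i * P i₀ j =
      ∑ s : Exps n d, if a s = i then (c s : R) * P i₀ i * P i₀ (b s) else 0 := by
    intro i
    rw [Finset.sum_comm]
    refine Finset.sum_congr rfl fun s _ => ?_
    by_cases h : a s = i
    · simp only [h, true_and, if_true]
      rw [Finset.sum_eq_single (b s)]
      · simp
      · intro j _ hj
        rw [if_neg (fun h => hj h.symm)]; ring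
      · intro h; exact absurd (mem_univ _) h
    · simp [h]
  simp only [ite_mul, zero_mul] at h2 ⊢
  simp only [h2]
  rw [Finset.sum_comm]
  refine Finset.sum_congr rfl fun s _ => ?_
  rw [Finset.sum_eq_single (a s)]
  · simp; ring
  · intro j _ hj
    rw [if_neg (fun h => hj h.symm)]
  · intro h; exact absurd (mem_univ _) h

end ConicB

theorem conic_block {k : ℕ} (n d : Fin k → ℕ) (i₀ : Fin k) (hk : ∀ j, j = i₀) (hn : n i₀ = 2)
    (hd : d i₀ = 2) (c : Exps n d → ℤ) (hc : ELS c) : RatSol c := by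
  obtain ⟨M, hM⟩ := ConicB.quad_form n d i₀ hk hd c
  have hN : n i₀ + 1 = 3 := by rw [hn]
  let e : Fin 3 ≃ Fin (n i₀ + 1) := finCongr hN.symm
  let A : Matrix (Fin 3) (Fin 3) ℚ := fun i j => (M (e i) (e j) : ℚ) + (M (e j) (e i) : ℚ)
  have hA : A.IsSymm := by
    ext i j
    simp only [A, Matrix.transpose_apply]
    ring
  have tr : ∀ (R : Type) [Field R] [CharZero R] (P : Pt n R),
      ∑ i, ∑ j, ((A i j : ℚ) : R) * (P i₀ (e i)) * (P i₀ (e j)) = 2 * (evZ c P : R) := by
    intro R _ _ P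
    rw [hM R P]
    simp only [A]
    push_cast
    have h1 : ∑ i : Fin 3, ∑ j : Fin 3, (M (e i) (e j) : R) * P i₀ (e i) * P i₀ (e j) =
        ∑ i, ∑ j, (M i j : R) * P i₀ i * P i₀ j := by
      rw [← Equiv.sum_comp e (fun i => ∑ j, (M i j : R) * P i₀ i * P i₀ j)]
      refine Finset.sum_congr rfl fun i _ => ?_
      rw [← Equiv.sum_comp e]
    have h2 : ∑ i : Fin 3, ∑ j : Fin 3, (M (e j) (e i) : R) * P i₀ (e i) * P i₀ (e j) =
        ∑ i, ∑ j, (M i j : R) * P i₀ i * P i₀ j := by
      rw [← h1, Finset.sum_comm]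
      refine Finset.sum_congr rfl fun i _ => Finset.sum_congr rfl fun j _ => ?_
      ring
    rw [two_mul]
    nth_rewrite 1 [← h1]
    rw [← h2, ← Finset.sum_add_distrib]
    refine Finset.sum_congr rfl fun i _ => ?_
    rw [← Finset.sum_add_distrib]
    refine Finset.sum_congr rfl fun j _ => ?_
    ring
  have loc : ∀ (R : Type) [Field R] [CharZero R],
      (∃ P : Pt n R, (∀ i, ∃ j, P i j ≠ 0) ∧ (evZ c P : R) = 0) →
      ∃ x : Fin 3 → R, x ≠ 0 ∧ ∑ i, ∑ j, ((A i j : ℚ) : R) * x i * x j = 0 := by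
    rintro R _ _ ⟨P, h0, h1⟩
    refine ⟨fun i => P i₀ (e i), ?_, ?_⟩
    · obtain ⟨j, hj⟩ := h0 i₀
      intro h
      apply hj
      have := congrFun h (e.symm j)
      simpa using this
    · rw [tr, h1, mul_zero]
  obtain ⟨x, hx, hs⟩ := ternary_hm A hA (loc ℝ hc.1) (fun p hp => loc ℚ_[p] (hc.2 p hp))
  have hn' : ∀ i, n i + 1 = 3 := fun i => by rw [hk i, hn]
  refine ⟨fun i j => x (finCongr (hn' i) j), ?_, ?_⟩
  · intro i
    obtain ⟨j, hj⟩ := Function.ne_iff.1 hx
    exact ⟨(finCongr (hn' i)).symm j, by simpa using hj⟩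
  · have := tr ℚ (fun i j => x (finCongr (hn' i) j))
    have h3 : ∀ i : Fin 3, (finCongr (hn' i₀)) (e i) = i := by
      intro i; simp [e]
    simp only [h3] at this
    simp only [Rat.cast_id] at this
    rw [hs] at this
    linarith

theorem triv_block {k : ℕ} (n d : Fin k → ℕ) (i : Fin k) (hn : 1 ≤ n i) (hd : d i = 1)
    (c : Exps n d → ℤ) : RatSol c := by
  classical
  have hs : ∀ s : Exps n d, ∃ a : Fin (n i + 1), ∀ (R : Type) [CommRing R]
      (x : Fin (n i + 1) → R), bm (s i) x = x a := by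
    intro s
    have := ConicB.one_factor (fun j => ((s i).1 j : ℕ)) (by rw [(s i).2, hd])
    exact this
  choose a ha using hs
  let P0 : Pt n ℚ := fun i' => Pi.single 0 1
  let q : Exps n d → ℚ := fun s => (c s : ℚ) * ∏ i' ∈ univ.erase i, bm (s i') (P0 i')
  let f : (Fin (n i + 1) → ℚ) →ₗ[ℚ] ℚ := ∑ s : Exps n d, q s • LinearMap.proj (a s)
  have hf : ∀ x, f x = ∑ s : Exps n d, q s * x (a s) := by
    intro x; simp [f]
  have hker : LinearMap.ker f ≠ ⊥ := by
    apply LinearMap.ker_ne_bot_of_finrank_lt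
    simp; omega
  obtain ⟨x, hx, hx0⟩ := (Submodule.ne_bot_iff _).1 hker
  rw [LinearMap.mem_ker, hf] at hx
  refine ⟨Function.update P0 i x, ?_, ?_⟩
  · intro i'
    by_cases h : i' = i
    · subst h
      rw [Function.update_self]
      exact Function.ne_iff.1 hx0
    · rw [Function.update_of_ne h]
      exact ⟨0, by simp [P0]⟩
  · unfold evZ ev
    rw [← hx]
    refine Finset.sum_congr rfl fun s _ => ?_
    unfold mono
    rw [← Finset.mul_prod_erase univ _ (mem_univ i), Function.update_self, ha]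
    have : ∏ i' ∈ univ.erase i, bm (s i') (Function.update P0 i x i') =
        ∏ i' ∈ univ.erase i, bm (s i') (P0 i') := by
      refine Finset.prod_congr rfl fun j hj => ?_
      rw [Function.update_of_ne (Finset.ne_of_mem_erase hj)]
    rw [this]
    simp only [q]
    ring

end Pool.Agent.HP
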