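import Pool.Agent.Lib.MP_fc0680_nt.Defs

/-!
# MP_fc0680_nt : COVDUAL

If the functionals killing the small integer vectors of the kernel are the trivial ones, every
real vector of the kernel is close to an integer one.
-/

set_option autoImplicit false
open Finset Filter

namespace Pool.Agent.HP

namespace CovDual

theorem mem_span_of_dual {ι : Type} [Fintype ι] (S : Set (ι → ℝ)) (v : ι → ℝ)
    (hv : ∀ φ : ι → ℝ, (∀ b ∈ S, ∑ i, φ i * b i = 0) → ∑ i, φ i * v i = 0) :
    v ∈ Submodule.span ℝ S := by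
  classical
  by_contra hcon
  obtain ⟨f, hf, hf0⟩ := Submodule.exists_dual_map_eq_bot_of_notMem hcon inferInstance
  have hrep : ∀ w : ι → ℝ, f w = ∑ i, f (Pi.single i 1) * w i := by
    intro w
    have h1 := LinearMap.pi_apply_eq_sum_univ f w
    rw [h1]
    refine Finset.sum_congr rfl fun i _ => ?_
    rw [smul_eq_mul, mul_comm]
    congr 2
    funext j
    simp only [Pi.single_apply]
    by_cases h : i = j
    · simp [h]
    · rw [if_neg h, if_neg (fun e => h e.symm)]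
  apply hf
  rw [hrep]
  apply hv
  intro b hb
  rw [← hrep]
  have h1 : f b ∈ (Submodule.span ℝ S).map f := ⟨b, Submodule.subset_span hb, rfl⟩
  rw [hf0] at h1
  simpa using h1

theorem cover {ι : Type} [Fintype ι] (S : Set (ι → ℤ)) (ρ : ℕ)
    (hS : ∀ b ∈ S, ∀ i, (b i).natAbs ≤ ρ) (v : ι → ℝ)
    (hv : ∀ φ : ι → ℝ, (∀ b ∈ S, ∑ i, φ i * (b i : ℝ) = 0) → ∑ i, φ i * v i = 0) :
    ∃ b' ∈ AddSubgroup.closure S, ∀ i, |v i - (b' i : ℝ)| ≤ ((Fintype.card ι * ρ : ℕ) : ℝ) := by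
  classical
  set S' : Set (ι → ℝ) := (fun b : ι → ℤ => fun i => (b i : ℝ)) '' S with hS'
  have hmem : v ∈ Submodule.span ℝ S' := by
    apply mem_span_of_dual
    intro φ hφ
    apply hv
    intro b hb
    exact hφ _ ⟨b, hb, rfl⟩
  obtain ⟨B, hBS, hBspan, hBli⟩ := exists_linearIndependent ℝ S'
  have hBfin : B.Finite := hBli.setFinite
  have hcard : hBfin.toFinset.card ≤ Fintype.card ι := by
    have : Fintype B := hBfin.fintype
    have h1 := hBli.fintype_card_le_finrank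
    rw [Module.finrank_pi] at h1
    have h2 : hBfin.toFinset.card = Fintype.card B := by
      rw [← Set.toFinset_card]
      congr 1
      ext x
      simp
    rw [h2]
    exact h1
  rw [← hBspan] at hmem
  have h3 : B = ((hBfin.toFinset : Finset (ι → ℝ)) : Set (ι → ℝ)) := by simp
  rw [h3, Submodule.mem_span_finset] at hmem
  obtain ⟨r, _, hr⟩ := hmem
  have hlift : ∀ b : ι → ℝ, ∃ z : ι → ℤ, b ∈ hBfin.toFinset → z ∈ S ∧ ∀ i, (z i : ℝ) = b i := by
    intro b
    by_cases hb : b ∈ hBfin.toFinset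
    · obtain ⟨z, hz, rfl⟩ := hBS (hBfin.mem_toFinset.1 hb)
      exact ⟨z, fun _ => ⟨hz, fun i => rfl⟩⟩
    · exact ⟨0, fun h => absurd h hb⟩
  choose z hz using hlift
  refine ⟨∑ b ∈ hBfin.toFinset, ⌊r b⌋ • z b, ?_, ?_⟩
  · refine AddSubgroup.sum_mem _ fun b hb => ?_
    exact AddSubgroup.zsmul_mem _ (AddSubgroup.subset_closure (hz b hb).1) _
  · intro i
    have h4 : v i = ∑ b ∈ hBfin.toFinset, r b * b i := by
      rw [← hr]
      simp [Finset.sum_apply]
    have h5 : (((∑ b ∈ hBfin.toFinset, ⌊r b⌋ • z b) i : ℤ) : ℝ) =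
        ∑ b ∈ hBfin.toFinset, (⌊r b⌋ : ℝ) * b i := by
      rw [Finset.sum_apply]
      push_cast
      refine Finset.sum_congr rfl fun b hb => ?_
      rw [← (hz b hb).2 i]
      simp
    rw [h4, h5, ← Finset.sum_sub_distrib]
    refine (Finset.abs_sum_le_sum_abs _ _).trans ?_
    have h6 : ∀ b ∈ hBfin.toFinset, |r b * b i - (⌊r b⌋ : ℝ) * b i| ≤ (ρ : ℝ) := by
      intro b hb
      rw [← sub_mul, abs_mul]
      have h7 : |r b - (⌊r b⌋ : ℝ)| ≤ 1 := by
        rw [abs_of_nonneg (sub_nonneg.2 (Int.floor_le _))]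
        linarith [Int.lt_floor_add_one (r b)]
      have h8 : |b i| ≤ (ρ : ℝ) := by
        rw [← (hz b hb).2 i, ← Int.cast_abs, Int.abs_eq_natAbs]
        exact_mod_cast hS _ (hz b hb).1 i
      calc |r b - (⌊r b⌋ : ℝ)| * |b i| ≤ 1 * (ρ : ℝ) :=
            mul_le_mul h7 h8 (abs_nonneg _) zero_le_one
        _ = ρ := one_mul _
    refine (Finset.sum_le_card_nsmul _ _ _ h6).trans ?_
    rw [nsmul_eq_mul]
    push_cast
    exact mul_le_mul_of_nonneg_right (by exact_mod_cast hcard) (Nat.cast_nonneg _)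

end CovDual

open CovDual

theorem cov1_of_dual1 {ι : Type} [Fintype ι] (m : ι → ℤ) (ρ : ℕ) (h : Dual1 ρ m) :
    Cov1 (Fintype.card ι * ρ) m := by
  intro v hv
  obtain ⟨b', hb', hb'2⟩ := cover {b : ι → ℤ | (∀ i, (b i).natAbs ≤ ρ) ∧ ∑ i, b i * m i = 0} ρ
    (fun b hb => hb.1) v (by
      intro φ hφ
      obtain ⟨α, hα⟩ := h φ (fun b h1 h2 => hφ b ⟨h1, h2⟩)
      simp only [hα]
      calc ∑ i, α * (m i : ℝ) * v i = α * ∑ i, v i * (m i : ℝ) := by
            rw [Finset.mul_sum]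
            exact Finset.sum_congr rfl fun i _ => by ring
        _ = 0 := by rw [hv, mul_zero])
  refine ⟨b', ?_, hb'2⟩
  refine AddSubgroup.closure_induction (p := fun b _ => ∑ i, b i * m i = 0) ?_ ?_ ?_ ?_ hb'
  · intro b hb
    exact hb.2
  · simp
  · intro b c _ _ h1 h2
    simp only [Pi.add_apply, add_mul, Finset.sum_add_distrib, h1, h2, add_zero]
  · intro b _ h1
    simp only [Pi.neg_apply, neg_mul, Finset.sum_neg_distrib, h1, neg_zero]

theorem cov2_of_dual2 {ι : Type} [Fintype ι] (m m' : ι → ℤ) (ρ : ℕ) (h : Dual2 ρ m m') :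
    Cov2 (Fintype.card ι * ρ) m m' := by
  intro v hv hv'
  obtain ⟨b', hb', hb'2⟩ := cover {b : ι → ℤ | (∀ i, (b i).natAbs ≤ ρ) ∧ ∑ i, b i * m i = 0 ∧
    ∑ i, b i * m' i = 0} ρ (fun b hb => hb.1) v (by
      intro φ hφ
      obtain ⟨α, β, hα⟩ := h φ (fun b h1 h2 h3 => hφ b ⟨h1, h2, h3⟩)
      simp only [hα]
      calc ∑ i, (α * (m i : ℝ) + β * (m' i : ℝ)) * v i =
          α * ∑ i, v i * (m i : ℝ) + β * ∑ i, v i * (m' i : ℝ) := by
            rw [Finset.mul_sum, Finset.mul_sum, ← Finset.sum_add_distrib]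
            exact Finset.sum_congr rfl fun i _ => by ring
        _ = 0 := by rw [hv, hv', mul_zero, mul_zero, add_zero])
  have key : ∑ i, b' i * m i = 0 ∧ ∑ i, b' i * m' i = 0 := by
    refine AddSubgroup.closure_induction
      (p := fun b _ => ∑ i, b i * m i = 0 ∧ ∑ i, b i * m' i = 0) ?_ ?_ ?_ ?_ hb'
    · intro b hb
      exact hb.2
    · simp
    · intro b c _ _ h1 h2
      simp only [Pi.add_apply, add_mul, Finset.sum_add_distrib, h1.1, h2.1, h1.2, h2.2, add_zero]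
      exact ⟨trivial, trivial⟩
    · intro b _ h1
      simp only [Pi.neg_apply, neg_mul, Finset.sum_neg_distrib, h1.1, h1.2, neg_zero]
      exact ⟨trivial, trivial⟩
  exact ⟨b', key.1, key.2, hb'2⟩

end Pool.Agent.HP
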