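import Pool.Agent.Lib.MP_fc0680_nt.Defs

/-!
# MP_fc0680_nt : SPANPROD

Tensor version of the spanning property.
-/

set_option autoImplicit false
open Finset Filter

namespace Pool.Agent.HP

namespace SpanProd

/-- The vector `p e_a + q e_b + r e_e`. -/
def w3 {A : Type} [DecidableEq A] (a b e : A) (p q r : ℤ) (i : A) : ℤ :=
  (if i = a then p else 0) + (if i = b then q else 0) + (if i = e then r else 0)

theorem sum_w3 {A : Type} [Fintype A] [DecidableEq A] (a b e : A) (p q r : ℤ) (f : A → ℤ) :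
    ∑ i, w3 a b e p q r i * f i = p * f a + q * f b + r * f e := by
  simp only [w3, add_mul, Finset.sum_add_distrib, ite_mul, zero_mul, Finset.sum_ite_eq',
    Finset.mem_univ, if_true]

theorem sum_w3R {A : Type} [Fintype A] [DecidableEq A] (a b e : A) (p q r : ℤ) (f : A → ℝ) :
    ∑ i, f i * (w3 a b e p q r i : ℝ) = f a * p + f b * q + f e * r := by
  simp only [w3, Int.cast_add, Int.cast_ite, Int.cast_zero, mul_add, Finset.sum_add_distrib,
    mul_ite, mul_zero, Finset.sum_ite_eq', Finset.mem_univ, if_true]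

theorem w3_le {A : Type} [DecidableEq A] (a b e : A) (p q r : ℤ) (i : A) (M : ℕ) (hab : a ≠ b)
    (hea : e ≠ a ∨ r = 0) (heb : e ≠ b ∨ r = 0) (hp : p.natAbs ≤ M) (hq : q.natAbs ≤ M)
    (hr : r.natAbs ≤ M) : (w3 a b e p q r i).natAbs ≤ M := by
  unfold w3
  by_cases h1 : i = a
  · subst h1
    rw [if_pos rfl, if_neg hab]
    rcases hea with h | h
    · rw [if_neg (fun e' => h e'.symm)]
      simpa using hp
    · subst h
      simpa using hp
  · rw [if_neg h1]
    by_cases h2 : i = b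
    · subst h2
      rw [if_pos rfl]
      rcases heb with h | h
      · rw [if_neg (fun e' => h e'.symm)]
        simpa using hq
      · subst h
        simpa using hq
    · rw [if_neg h2]
      by_cases h3 : i = e
      · rw [if_pos h3]
        simpa using hr
      · rw [if_neg h3]
        simp

theorem sum_prod {A B : Type} [Fintype A] [Fintype B] (u τ : A → ℤ) (g ν : B → ℤ) :
    ∑ p : A × B, (u p.1 * g p.2) * (τ p.1 * ν p.2) = (∑ a, u a * τ a) * ∑ s, g s * ν s := by
  rw [Fintype.sum_prod_type, Finset.sum_mul_sum]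
  refine Finset.sum_congr rfl fun a _ => Finset.sum_congr rfl fun s _ => ?_
  ring

end SpanProd

open SpanProd

theorem dual1_unimod {A : Type} [Fintype A] [DecidableEq A] (τ : A → ℤ) (T : ℕ)
    (hτ : ∀ a, (τ a).natAbs ≤ T) (h0 : ∃ a, τ a ≠ 0) : Dual1 T τ := by
  obtain ⟨a, ha⟩ := h0
  intro φ hφ
  have ha' : (τ a : ℝ) ≠ 0 := by exact_mod_cast ha
  refine ⟨φ a / τ a, fun b => ?_⟩
  by_cases hab : a = b
  · subst hab
    field_simp
  · have h1 := hφ (w3 a b a (τ b) (-τ a) 0) (fun i => w3_le a b a _ _ _ i T hab (Or.inr rfl)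
      (Or.inr rfl) (hτ b) (by rw [Int.natAbs_neg]; exact hτ a) (by simp)) (by
        rw [sum_w3]
        ring)
    rw [sum_w3R] at h1
    push_cast at h1
    field_simp
    linarith

theorem dual2_prod {A B : Type} [Fintype A] [Fintype B] [DecidableEq A] [DecidableEq B]
    (τ τ' : A → ℤ) (ν ν' : B → ℤ) (T ρ : ℕ) (hT : 1 ≤ T) (hρ : 1 ≤ ρ)
    (hτ : ∀ a, (τ a).natAbs ≤ T) (hτ' : ∀ a, (τ' a).natAbs ≤ T)
    (a b : A) (hab : τ a * τ' b - τ b * τ' a ≠ 0) (h : Dual1 ρ ν) (h' : Dual1 ρ ν') :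
    Dual2 (2 * T ^ 2 * ρ) (fun p : A × B => τ p.1 * ν p.2) (fun p => τ' p.1 * ν' p.2) := by
  have hne : a ≠ b := by
    rintro rfl
    apply hab
    ring
  intro φ hφ
  -- product test vectors
  have key : ∀ (u : A → ℤ) (g : B → ℤ), (∀ i s, (u i * g s).natAbs ≤ 2 * T ^ 2 * ρ) →
      (∑ i, u i * τ i) * (∑ s, g s * ν s) = 0 → (∑ i, u i * τ' i) * (∑ s, g s * ν' s) = 0 →
      ∑ s, (∑ i, φ (i, s) * (u i : ℝ)) * (g s : ℝ) = 0 := by
    intro u g h1 h2 h3
    have h4 := hφ (fun p => u p.1 * g p.2) (fun p => h1 p.1 p.2)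
      ((sum_prod u τ g ν).trans h2) ((sum_prod u τ' g ν').trans h3)
    rw [Fintype.sum_prod_type, Finset.sum_comm] at h4
    rw [← h4]
    refine Finset.sum_congr rfl fun s _ => ?_
    rw [Finset.sum_mul]
    refine Finset.sum_congr rfl fun i _ => ?_
    push_cast
    ring
  set Δ : ℤ := τ a * τ' b - τ b * τ' a with hΔ
  have hΔ0 : (Δ : ℝ) ≠ 0 := by exact_mod_cast hab
  have hmul : ∀ x y : ℤ, x.natAbs ≤ T → y.natAbs ≤ T → (x * y).natAbs ≤ T ^ 2 := by
    intro x y hx hy
    rw [Int.natAbs_mul, pow_two]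
    exact Nat.mul_le_mul hx hy
  have hsub : ∀ x y x' y' : ℤ, x.natAbs ≤ T → y.natAbs ≤ T → x'.natAbs ≤ T → y'.natAbs ≤ T →
      (x * y - x' * y').natAbs ≤ 2 * T ^ 2 := by
    intro x y x' y' hx hy hx' hy'
    have h1 := hmul x y hx hy
    have h2 := hmul x' y' hx' hy'
    omega
  have hTT : T ≤ T ^ 2 := by nlinarith
  -- first contraction
  obtain ⟨al, hal⟩ := h (fun s => ∑ i, φ (i, s) * (w3 a b a (τ' b) (-τ' a) 0 i : ℝ)) (by
    intro g hg hgν
    apply key
    · intro i s
      rw [Int.natAbs_mul]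
      calc (w3 a b a (τ' b) (-τ' a) 0 i).natAbs * (g s).natAbs ≤ T * ρ :=
            Nat.mul_le_mul (w3_le a b a _ _ _ i T hne (Or.inr rfl) (Or.inr rfl) (hτ' b)
              (by rw [Int.natAbs_neg]; exact hτ' a) (by simp)) (hg s)
        _ ≤ 2 * T ^ 2 * ρ := Nat.mul_le_mul_right _ (by omega)
    · rw [hgν, mul_zero]
    · rw [sum_w3]
      ring)
  obtain ⟨be, hbe⟩ := h' (fun s => ∑ i, φ (i, s) * (w3 a b a (-τ b) (τ a) 0 i : ℝ)) (by
    intro g hg hgν
    apply key
    · intro i s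
      rw [Int.natAbs_mul]
      calc (w3 a b a (-τ b) (τ a) 0 i).natAbs * (g s).natAbs ≤ T * ρ :=
            Nat.mul_le_mul (w3_le a b a _ _ _ i T hne (Or.inr rfl) (Or.inr rfl)
              (by rw [Int.natAbs_neg]; exact hτ b) (hτ a) (by simp)) (hg s)
        _ ≤ 2 * T ^ 2 * ρ := Nat.mul_le_mul_right _ (by omega)
    · rw [sum_w3]
      ring
    · rw [hgν, mul_zero])
  simp only [sum_w3R] at hal hbe
  push_cast at hal hbe
  have hA : ∀ s, φ (a, s) * Δ = al * (τ a) * (ν s) + be * (τ' a) * (ν' s) := by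
    intro s
    rw [hΔ]
    push_cast
    linear_combination (τ a : ℝ) * hal s + (τ' a : ℝ) * hbe s
  have hB : ∀ s, φ (b, s) * Δ = al * (τ b) * (ν s) + be * (τ' b) * (ν' s) := by
    intro s
    rw [hΔ]
    push_cast
    linear_combination (τ b : ℝ) * hal s + (τ' b : ℝ) * hbe s
  have hE : ∀ e s, φ (e, s) * Δ = al * (τ e) * (ν s) + be * (τ' e) * (ν' s) := by
    intro e s
    by_cases hea : e = a
    · subst hea
      exact hA s
    by_cases heb : e = b
    · subst heb
      exact hB s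
    have h1 := key (w3 a b e (τ b * τ' e - τ e * τ' b) (-(τ a * τ' e - τ e * τ' a)) Δ)
      (fun s' => if s' = s then 1 else 0) (by
        intro i s'
        have h2 : (w3 a b e (τ b * τ' e - τ e * τ' b) (-(τ a * τ' e - τ e * τ' a)) Δ i).natAbs ≤
            2 * T ^ 2 := by
          apply w3_le a b e _ _ _ i _ hne (Or.inl hea) (Or.inl heb)
          · exact hsub _ _ _ _ (hτ b) (hτ' e) (hτ e) (hτ' b)
          · rw [Int.natAbs_neg]
            exact hsub _ _ _ _ (hτ a) (hτ' e) (hτ e) (hτ' a)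
          · exact hsub _ _ _ _ (hτ a) (hτ' b) (hτ b) (hτ' a)
        rw [Int.natAbs_mul]
        refine Nat.mul_le_mul h2 ?_
        split_ifs
        · simpa using hρ
        · simp) (by
        rw [sum_w3, hΔ]
        ring) (by
        rw [sum_w3, hΔ]
        ring)
    simp only [sum_w3R, Int.cast_ite, Int.cast_one, Int.cast_zero, mul_ite, mul_one, mul_zero,
      Finset.sum_ite_eq', Finset.mem_univ, if_true] at h1
    push_cast at h1
    have hA' := hA s
    have hB' := hB s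
    apply mul_right_cancel₀ hΔ0
    have hΔR : (Δ : ℝ) = τ a * τ' b - τ b * τ' a := by
      rw [hΔ]
      push_cast
      ring
    have h3 : φ (e, s) * Δ = -(φ (a, s) * (τ b * τ' e - τ e * τ' b)) +
        φ (b, s) * (τ a * τ' e - τ e * τ' a) := by linarith
    calc φ (e, s) * Δ * Δ = -((φ (a, s) * Δ) * (τ b * τ' e - τ e * τ' b)) +
        (φ (b, s) * Δ) * (τ a * τ' e - τ e * τ' a) := by
          rw [h3]
          ring
      _ = (al * (τ e) * (ν s) + be * (τ' e) * (ν' s)) * Δ := by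
          rw [hA', hB', hΔR]
          ring
  refine ⟨al / Δ, be / Δ, fun p => ?_⟩
  have h1 := hE p.1 p.2
  push_cast
  field_simp
  linarith

end Pool.Agent.HP
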