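import Pool.Agent.Lib.MP_fc0680_nt.SpanBm
import Pool.Agent.Lib.MP_fc0680_nt.SpanProd
import Pool.Agent.Lib.MP_fc0680_nt.CovDual

/-!
# MP_fc0680_nt : covering property for the monomial vectors of two points
-/

set_option autoImplicit false

open Finset Filter

namespace Pool.Agent.HP

namespace CovM

open SpanBm

theorem cov2_mono {ι : Type} [Fintype ι] {ρ ρ' : ℕ} (h : ρ ≤ ρ') {m m' : ι → ℤ}
    (hc : Cov2 ρ m m') : Cov2 ρ' m m' := by
  intro v h1 h2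
  obtain ⟨b, hb1, hb2, hb3⟩ := hc v h1 h2
  refine ⟨b, hb1, hb2, fun i => (hb3 i).trans ?_⟩
  exact_mod_cast h

theorem cov2_equiv {ι κ : Type} [Fintype ι] [Fintype κ] (e : ι ≃ κ) (ρ : ℕ) (m m' : κ → ℤ)
    (h : Cov2 ρ m m') : Cov2 ρ (fun i => m (e i)) (fun i => m' (e i)) := by
  intro v h1 h2
  have key : ∀ f : κ → ℤ, ∑ i, v i * (f (e i) : ℝ) = 0 →
      ∑ j, v (e.symm j) * (f j : ℝ) = 0 := by
    intro f hf
    rw [← hf, ← e.sum_comp]
    refine Finset.sum_congr rfl fun i _ => ?_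
    rw [e.symm_apply_apply]
  obtain ⟨b, hb1, hb2, hb3⟩ := h (fun j => v (e.symm j)) (key m h1) (key m' h2)
  refine ⟨fun i => b (e i), ?_, ?_, fun i => ?_⟩
  · rw [← hb1]
    exact e.sum_comp (fun j => b j * m j)
  · rw [← hb2]
    exact e.sum_comp (fun j => b j * m' j)
  · have := hb3 (e i)
    rwa [e.symm_apply_apply] at this

theorem exists_pow {N : ℕ} (u : Fin N) (D : ℕ) :
    ∃ t : Mon N D, ∀ x : Fin N → ℤ, bm t x = x u ^ D := by
  induction D with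
  | zero => exact ⟨mon0 N, fun x => by rw [bm_zero, pow_zero]⟩
  | succ D ih =>
    obtain ⟨t, ht⟩ := ih
    exact ⟨addM t u, fun x => by rw [bm_addM, ht, pow_succ, mul_comm]⟩

theorem exists_pow_mul {N D : ℕ} (hD : 1 ≤ D) (u l : Fin N) :
    ∃ t : Mon N D, ∀ x : Fin N → ℤ, bm t x = x u ^ (D - 1) * x l := by
  obtain ⟨D', rfl⟩ : ∃ D', D = D' + 1 := ⟨D - 1, by omega⟩
  obtain ⟨t, ht⟩ := exists_pow u D'
  exact ⟨addM t l, fun x => by rw [bm_addM, ht, mul_comm, Nat.add_sub_cancel]⟩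

theorem natAbs_le_nrm {N : ℕ} (x : Fin N → ℤ) (j : Fin N) : (x j).natAbs ≤ nrm x :=
  Finset.le_sup (f := fun j => (x j).natAbs) (Finset.mem_univ j)

theorem wd_eq_zero {N : ℕ} (x y : Fin N → ℤ) (h : ∀ i j, x i * y j = x j * y i) :
    wd x y = 0 := by
  unfold wd
  rw [← Nat.bot_eq_zero, Finset.sup_eq_bot_iff]
  intro p _
  rw [h, sub_self]
  rfl

theorem bm_natAbs_le {N D : ℕ} (s : Mon N D) (x : Fin N → ℤ) (T : ℕ) (h : nrm x ≤ T) :
    (bm s x).natAbs ≤ T ^ D := by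
  unfold bm
  have h1 : (∏ j, x j ^ (s.1 j : ℕ)).natAbs = ∏ j, (x j).natAbs ^ (s.1 j : ℕ) := by
    rw [← Int.natAbsHom_apply, map_prod]
    simp only [map_pow, Int.natAbsHom_apply]
  have h2 : T ^ D = ∏ j, T ^ (s.1 j : ℕ) := by
    rw [Finset.prod_pow_eq_pow_sum, s.2]
  rw [h1, h2]
  exact Finset.prod_le_prod' fun j _ =>
    Nat.pow_le_pow_left ((natAbs_le_nrm x j).trans h) _

/-- Products over the blocks of the monomials at two points which are not proportional in some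
block: some minor does not vanish. -/
theorem exists_minor_prod {J : Type} [Fintype J] [DecidableEq J] (N D : J → ℕ)
    (hD : ∀ j, 1 ≤ D j) (x x' : (j : J) → Fin (N j) → ℤ) (hx : ∀ j, ∃ u, x j u ≠ 0)
    (hx' : ∀ j, ∃ u, x' j u ≠ 0) (j₀ : J) (hw : wd (x j₀) (x' j₀) ≠ 0) :
    ∃ a b : (j : J) → Mon (N j) (D j),
      (∏ j, bm (a j) (x j)) * (∏ j, bm (b j) (x' j)) -
        (∏ j, bm (b j) (x j)) * (∏ j, bm (a j) (x' j)) ≠ 0 := by
  by_contra hcon
  push Not at hcon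
  have key : ∀ a b : (j : J) → Mon (N j) (D j),
      (∏ j, bm (a j) (x j)) * (∏ j, bm (b j) (x' j)) =
        (∏ j, bm (b j) (x j)) * (∏ j, bm (a j) (x' j)) := fun a b => sub_eq_zero.mp (hcon a b)
  choose u hu using hx
  choose u' hu' using hx'
  have hp : ∀ (j : J) (v l : Fin (N j)), ∃ t : Mon (N j) (D j), ∀ y : Fin (N j) → ℤ,
      bm t y = y v ^ (D j - 1) * y l := fun j v l => exists_pow_mul (hD j) v l
  choose p hp using hp
  set a : (j : J) → Mon (N j) (D j) := fun j => p j (u j) (u j) with ha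
  set b : (j : J) → Mon (N j) (D j) := fun j => p j (u' j) (u' j) with hb
  have h1 : ∏ j, bm (a j) (x j) ≠ 0 := by
    rw [Finset.prod_ne_zero_iff]
    intro j _
    rw [ha]
    simp only []
    rw [hp]
    exact mul_ne_zero (pow_ne_zero _ (hu j)) (hu j)
  have h2 : ∏ j, bm (b j) (x' j) ≠ 0 := by
    rw [Finset.prod_ne_zero_iff]
    intro j _
    rw [hb]
    simp only []
    rw [hp]
    exact mul_ne_zero (pow_ne_zero _ (hu' j)) (hu' j)
  have h3 : ∏ j, bm (a j) (x' j) ≠ 0 := by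
    intro h0
    have := key a b
    rw [h0, mul_zero] at this
    exact mul_ne_zero h1 h2 this
  have h4 : ∀ j, x' j (u j) ≠ 0 := by
    intro j h0
    rw [Finset.prod_ne_zero_iff] at h3
    apply h3 j (Finset.mem_univ j)
    rw [ha]
    simp only []
    rw [hp, h0, mul_zero]
  have hup : ∀ (l : Fin (N j₀)) (y : (j : J) → Fin (N j) → ℤ),
      ∏ j, bm (Function.update a j₀ (p j₀ (u j₀) l) j) (y j) =
        y j₀ (u j₀) ^ (D j₀ - 1) * y j₀ l * ∏ j ∈ univ.erase j₀, bm (a j) (y j) := by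
    intro l y
    rw [← Finset.mul_prod_erase univ _ (Finset.mem_univ j₀), Function.update_self, hp]
    congr 1
    refine Finset.prod_congr rfl fun j hj => ?_
    rw [Function.update_of_ne (Finset.ne_of_mem_erase hj)]
  have hua : ∀ (y : (j : J) → Fin (N j) → ℤ),
      ∏ j, bm (a j) (y j) =
        y j₀ (u j₀) ^ (D j₀ - 1) * y j₀ (u j₀) * ∏ j ∈ univ.erase j₀, bm (a j) (y j) := by
    intro y
    rw [← Finset.mul_prod_erase univ _ (Finset.mem_univ j₀)]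
    congr 1
    rw [ha]
    simp only []
    rw [hp]
  have h5 : ∀ l, x j₀ l * x' j₀ (u j₀) = x j₀ (u j₀) * x' j₀ l := by
    intro l
    have h6 := key (Function.update a j₀ (p j₀ (u j₀) l)) a
    rw [hup, hup, hua x, hua x'] at h6
    have h7 : x j₀ (u j₀) ^ (D j₀ - 1) * (∏ j ∈ univ.erase j₀, bm (a j) (x j)) ≠ 0 := by
      intro h0
      apply h1
      rw [hua x]
      have : x j₀ (u j₀) ^ (D j₀ - 1) * x j₀ (u j₀) * ∏ j ∈ univ.erase j₀, bm (a j) (x j) =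
        x j₀ (u j₀) * (x j₀ (u j₀) ^ (D j₀ - 1) * ∏ j ∈ univ.erase j₀, bm (a j) (x j)) := by ring
      rw [this, h0, mul_zero]
    have h8 : x' j₀ (u j₀) ^ (D j₀ - 1) * (∏ j ∈ univ.erase j₀, bm (a j) (x' j)) ≠ 0 := by
      intro h0
      apply h3
      rw [hua x']
      have : x' j₀ (u j₀) ^ (D j₀ - 1) * x' j₀ (u j₀) * ∏ j ∈ univ.erase j₀, bm (a j) (x' j) =
        x' j₀ (u j₀) * (x' j₀ (u j₀) ^ (D j₀ - 1) * ∏ j ∈ univ.erase j₀, bm (a j) (x' j)) := by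
        ring
      rw [this, h0, mul_zero]
    apply mul_left_cancel₀ (mul_ne_zero h7 h8)
    linear_combination h6
  apply hw
  apply wd_eq_zero
  intro l m
  apply mul_left_cancel₀ (mul_ne_zero (hu j₀) (h4 j₀))
  have e1 := h5 l
  have e2 := h5 m
  linear_combination (x j₀ (u j₀) * x' j₀ m) * e1 - (x j₀ (u j₀) * x' j₀ l) * e2

end CovM

open CovM SpanBm

theorem cov2_single {k : ℕ} (n d : Fin k → ℕ) (i₀ : Fin k) (hk : ∀ j, j = i₀)
    (hd : 2 ≤ d i₀) : ∃ C : ℕ, 0 < C ∧ ∀ (μ : ℕ) (P P' : Pt n ℤ), 1 ≤ μ → GoodSpan μ (P i₀) →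
    GoodSpan μ (P' i₀) → wd (P i₀) (P' i₀) ≠ 0 →
    Cov2 (C * μ ^ 2) (fun s : Exps n d => mono s P) (fun s => mono s P') := by
  refine ⟨2 * Fintype.card (Mon (n i₀ + 1) (d i₀)) + 1, by omega, ?_⟩
  intro μ P P' hμ h h' hw
  have h1 := dual2_bm (D := d i₀) μ hμ hd (P i₀) (P' i₀) hw h h'
  have h2 := cov2_of_dual2 _ _ _ h1
  have hb : Function.Bijective (fun s : Exps n d => s i₀) := by
    constructor
    · intro s s' hs
      funext j
      have hj := hk j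
      subst hj
      exact hs
    · intro t
      exact ⟨fun j => (hk j).symm ▸ t, rfl⟩
  have h3 := cov2_equiv (Equiv.ofBijective _ hb) _ _ _ h2
  have hm : ∀ (Q : Pt n ℤ) (s : Exps n d), bm (s i₀) (Q i₀) = mono s Q := by
    intro Q s
    unfold mono
    exact (Fintype.prod_eq_single (f := fun i => bm (s i) (Q i)) i₀
      (fun j hj => absurd (hk j) hj)).symm
  simp only [Equiv.ofBijective_apply, hm] at h3
  refine cov2_mono ?_ h3
  calc Fintype.card (Mon (n i₀ + 1) (d i₀)) * (2 * μ ^ 2)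
      = (2 * Fintype.card (Mon (n i₀ + 1) (d i₀))) * μ ^ 2 := by ring
    _ ≤ (2 * Fintype.card (Mon (n i₀ + 1) (d i₀)) + 1) * μ ^ 2 :=
        Nat.mul_le_mul_right _ (Nat.le_succ _)

theorem cov2_blocks {k : ℕ} (n d : Fin k → ℕ) (i₀ : Fin k) (hd : ∀ i, 1 ≤ d i) :
    ∃ C : ℕ, 0 < C ∧ ∀ (μ T : ℕ) (P P' : Pt n ℤ), 1 ≤ μ → 1 ≤ T →
    (∀ i, i ≠ i₀ → nrm (P i) ≤ T ∧ nrm (P' i) ≤ T) → (∀ i, Umod (P i)) → (∀ i, Umod (P' i)) →
    GoodSpan μ (P i₀) → GoodSpan μ (P' i₀) → (∃ j, j ≠ i₀ ∧ wd (P j) (P' j) ≠ 0) →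
    Cov2 (C * T ^ C * μ) (fun s : Exps n d => mono s P) (fun s => mono s P') := by
  classical
  set A : Type := (j : {j : Fin k // j ≠ i₀}) → Mon (n j.1 + 1) (d j.1) with hA
  set B : Type := Mon (n i₀ + 1) (d i₀) with hB
  set E : ℕ := ∑ j : {j : Fin k // j ≠ i₀}, d j.1 with hE
  refine ⟨2 * Fintype.card (A × B) + 2 * E + 1, by omega, ?_⟩
  intro μ T P P' hμ hT hN hP hP' h h' hj
  obtain ⟨j₀, hj₀, hw⟩ := hj
  have hne : ∀ (Q : Pt n ℤ), (∀ i, Umod (Q i)) → ∀ i, ∃ v, Q i v ≠ 0 := by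
    intro Q hQ i
    by_contra hcon
    push Not at hcon
    obtain ⟨e, he⟩ := hQ i
    rw [Finset.sum_eq_zero (fun j _ => by rw [hcon, mul_zero])] at he
    exact zero_ne_one he
  have hne' : ∀ (Q : Pt n ℤ), (∀ i, Umod (Q i)) → Q i₀ ≠ 0 := by
    intro Q hQ h0
    obtain ⟨v, hv⟩ := hne Q hQ i₀
    exact hv (by rw [h0]; rfl)
  obtain ⟨a, b, hab⟩ := exists_minor_prod (J := {j : Fin k // j ≠ i₀}) (fun j => n j.1 + 1)
    (fun j => d j.1) (fun j => hd j.1) (fun j => P j.1) (fun j => P' j.1)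
    (fun j => hne P hP j.1) (fun j => hne P' hP' j.1) ⟨j₀, hj₀⟩ hw
  have hτ : ∀ (Q : Pt n ℤ), (∀ i, i ≠ i₀ → nrm (Q i) ≤ T) →
      ∀ a : A, (∏ j : {j : Fin k // j ≠ i₀}, bm (a j) (Q j.1)).natAbs ≤ T ^ E := by
    intro Q hQ a
    rw [← Int.natAbsHom_apply, map_prod, hE, ← Finset.prod_pow_eq_pow_sum]
    refine Finset.prod_le_prod' fun j _ => ?_
    rw [Int.natAbsHom_apply]
    exact bm_natAbs_le _ _ _ (hQ j.1 j.2)
  have h1 := dual2_prod (A := A) (B := B)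
    (fun a => ∏ j : {j : Fin k // j ≠ i₀}, bm (a j) (P j.1))
    (fun a => ∏ j : {j : Fin k // j ≠ i₀}, bm (a j) (P' j.1))
    (fun s => bm s (P i₀)) (fun s => bm s (P' i₀)) (T ^ E) μ (Nat.one_le_pow _ _ hT) hμ
    (hτ P (fun i hi => (hN i hi).1)) (hτ P' (fun i hi => (hN i hi).2)) a b hab
    (dual1_bm μ hμ (hd i₀) _ (hne' P hP) h) (dual1_bm μ hμ (hd i₀) _ (hne' P' hP') h')
  have h2 := cov2_of_dual2 _ _ _ h1
  have h3 := cov2_equiv ((Equiv.piSplitAt i₀ (fun i => Mon (n i + 1) (d i))).trans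
    (Equiv.prodComm _ _)) _ _ _ h2
  have hm : ∀ (Q : Pt n ℤ) (s : Exps n d),
      (∏ j : {j : Fin k // j ≠ i₀}, bm (s j.1) (Q j.1)) * bm (s i₀) (Q i₀) = mono s Q := by
    intro Q s
    unfold mono
    rw [Fintype.prod_eq_mul_prod_subtype_ne (fun i => bm (s i) (Q i)) i₀, mul_comm]
  have h4 : Cov2 (Fintype.card (A × B) * (2 * (T ^ E) ^ 2 * μ))
      (fun s : Exps n d => (∏ j : {j : Fin k // j ≠ i₀}, bm (s j.1) (P j.1)) * bm (s i₀) (P i₀))
      (fun s : Exps n d =>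
        (∏ j : {j : Fin k // j ≠ i₀}, bm (s j.1) (P' j.1)) * bm (s i₀) (P' i₀)) := h3
  simp only [hm] at h4
  refine cov2_mono ?_ h4
  set c := Fintype.card (A × B)
  calc c * (2 * (T ^ E) ^ 2 * μ) = 2 * c * T ^ (2 * E) * μ := by
        rw [← pow_mul, mul_comm E 2]; ring
    _ ≤ (2 * c + 2 * E + 1) * T ^ (2 * c + 2 * E + 1) * μ := by
        refine Nat.mul_le_mul_right _ (Nat.mul_le_mul (by omega) ?_)
        exact Nat.pow_le_pow_right hT (by omega)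

end Pool.Agent.HP
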