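import Pool.Agent.Lib.MP_fc0680_nt.Deriv

set_option autoImplicit false
open Finset Filter

namespace Pool.Agent.HP

theorem Umod.map {N : ℕ} {R S : Type} [CommRing R] [CommRing S] (f : R →+* S) {x : Fin N → R}
    (h : Umod x) : Umod fun j => f (x j) := by
  obtain ⟨e, he⟩ := h
  refine ⟨fun j => f (e j), ?_⟩
  rw [← map_one f, ← he, map_sum]
  exact Finset.sum_congr rfl fun j _ => (map_mul f _ _).symm

theorem umod_of_prod {N : ℕ} {R S T : Type} [CommRing R] [CommRing S] [CommRing T]
    (e : R ≃+* S × T) {x : Fin N → R} (h1 : Umod fun j => (e (x j)).1)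
    (h2 : Umod fun j => (e (x j)).2) : Umod x := by
  obtain ⟨e1, he1⟩ := h1
  obtain ⟨e2, he2⟩ := h2
  refine ⟨fun j => e.symm (e1 j, e2 j), e.injective ?_⟩
  rw [map_sum, map_one]
  have : ∀ j, e (e.symm (e1 j, e2 j) * x j) = (e1 j * (e (x j)).1, e2 j * (e (x j)).2) := by
    intro j
    rw [map_mul, RingEquiv.apply_symm_apply]
    rfl
  rw [Finset.sum_congr rfl fun j _ => this j]
  apply Prod.ext
  · rw [Prod.fst_sum]
    exact he1
  · rw [Prod.snd_sum]
    exact he2

theorem zs_mul {k : ℕ} (n d : Fin k → ℕ) (a b : ℕ) [NeZero a] [NeZero b] [NeZero (a * b)]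
    (hab : Nat.Coprime a b) (c : Exps n d → ℤ) :
    (Zs (a * b) (fun s => (c s : ZMod (a * b)))).card =
      (Zs a (fun s => (c s : ZMod a))).card * (Zs b (fun s => (c s : ZMod b))).card := by
  classical
  set e := ZMod.chineseRemainder hab with he
  set f1 : ZMod (a * b) →+* ZMod a := (RingHom.fst _ _).comp e.toRingHom with hf1
  set f2 : ZMod (a * b) →+* ZMod b := (RingHom.snd _ _).comp e.toRingHom with hf2
  have hf1e : ∀ x, f1 x = (e x).1 := fun x => rfl
  have hf2e : ∀ x, f2 x = (e x).2 := fun x => rfl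
  have hev1 : ∀ z : Pt n (ZMod (a * b)), ev (fun s => (c s : ZMod a)) (fun i j => f1 (z i j)) =
      f1 (ev (fun s => (c s : ZMod (a * b))) z) := by
    intro z
    rw [map_ev]
    congr 1
    funext s
    exact (map_intCast f1 _).symm
  have hev2 : ∀ z : Pt n (ZMod (a * b)), ev (fun s => (c s : ZMod b)) (fun i j => f2 (z i j)) =
      f2 (ev (fun s => (c s : ZMod (a * b))) z) := by
    intro z
    rw [map_ev]
    congr 1
    funext s
    exact (map_intCast f2 _).symm
  rw [← Finset.card_product]
  refine Finset.card_bij' (fun z _ => ((fun i j => f1 (z i j)), (fun i j => f2 (z i j))))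
    (fun w _ => fun i j => e.symm (w.1 i j, w.2 i j)) ?_ ?_ ?_ ?_
  · intro z hz
    unfold Zs at hz ⊢
    rw [Finset.mem_filter] at hz
    rw [Finset.mem_product, Finset.mem_filter, Finset.mem_filter]
    refine ⟨⟨Finset.mem_univ _, fun i => (hz.2.1 i).map f1, ?_⟩,
      ⟨Finset.mem_univ _, fun i => (hz.2.1 i).map f2, ?_⟩⟩
    · show ev (fun s => (c s : ZMod a)) (fun i j => f1 (z i j)) = 0
      rw [hev1, hz.2.2, map_zero]
    · show ev (fun s => (c s : ZMod b)) (fun i j => f2 (z i j)) = 0
      rw [hev2, hz.2.2, map_zero]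
  · intro w hw
    unfold Zs at hw ⊢
    rw [Finset.mem_product, Finset.mem_filter, Finset.mem_filter] at hw
    rw [Finset.mem_filter]
    obtain ⟨⟨-, hw1, hw2⟩, ⟨-, hw3, hw4⟩⟩ := hw
    set z : Pt n (ZMod (a * b)) := fun i j => e.symm (w.1 i j, w.2 i j) with hz
    have h1 : (fun i j => f1 (z i j)) = w.1 := by
      funext i j
      rw [hf1e, hz]
      simp only [RingEquiv.apply_symm_apply]
    have h2 : (fun i j => f2 (z i j)) = w.2 := by
      funext i j
      rw [hf2e, hz]
      simp only [RingEquiv.apply_symm_apply]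
    refine ⟨Finset.mem_univ _, fun i => umod_of_prod e ?_ ?_, e.injective ?_⟩
    · have := congrFun h1 i
      show Umod (fun j => f1 (z i j))
      rw [this]
      exact hw1 i
    · have := congrFun h2 i
      show Umod (fun j => f2 (z i j))
      rw [this]
      exact hw3 i
    · rw [map_zero]
      apply Prod.ext
      · show f1 _ = 0
        rw [← hev1, h1]
        exact hw2
      · show f2 _ = 0
        rw [← hev2, h2]
        exact hw4
  · intro z _
    funext i j
    show e.symm (f1 (z i j), f2 (z i j)) = z i j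
    rw [hf1e, hf2e, Prod.mk.eta, RingEquiv.symm_apply_apply]
  · intro w _
    apply Prod.ext
    · funext i j
      show f1 (e.symm (w.1 i j, w.2 i j)) = w.1 i j
      rw [hf1e, RingEquiv.apply_symm_apply]
    · funext i j
      show f2 (e.symm (w.1 i j, w.2 i j)) = w.2 i j
      rw [hf2e, RingEquiv.apply_symm_apply]

end Pool.Agent.HP
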