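import Pool.Agent.Lib.MP_fc0680_nt.Defs

set_option autoImplicit false
open Finset Filter

namespace Pool.Agent.HP

theorem bm_update {N D : ℕ} {R : Type} [CommRing R] (s : Mon N D) (x : Fin N → R) (j : Fin N)
    (y : R) : bm s (Function.update x j y) =
      (∏ l ∈ univ.erase j, x l ^ (s.1 l : ℕ)) * y ^ (s.1 j : ℕ) := by
  unfold bm
  rw [← Finset.prod_erase_mul univ _ (Finset.mem_univ j), Function.update_self]
  congr 1
  apply Finset.prod_congr rfl
  intro l hl
  rw [Function.update_of_ne (Finset.ne_of_mem_erase hl)]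

theorem mono_update {k : ℕ} {n d : Fin k → ℕ} {R : Type} [CommRing R] (s : Exps n d)
    (P : Pt n R) (i : Fin k) (x : Fin (n i + 1) → R) :
    mono s (Function.update P i x) = bm (s i) x * ∏ i' ∈ univ.erase i, bm (s i') (P i') := by
  unfold mono
  rw [← Finset.mul_prod_erase univ _ (Finset.mem_univ i), Function.update_self]
  congr 1
  apply Finset.prod_congr rfl
  intro l hl
  rw [Function.update_of_ne (Finset.ne_of_mem_erase hl)]

theorem eval_line {k : ℕ} {n d : Fin k → ℕ} {R : Type} [CommRing R] (c : Exps n d → R)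
    (P : Pt n R) (i : Fin k) (j : Fin (n i + 1)) (y : R) :
    (line c P i j).eval y = ev c (Function.update P i (Function.update (P i) j y)) := by
  unfold line ev
  rw [Polynomial.eval_finsetSum]
  apply Finset.sum_congr rfl
  intro s _
  rw [mono_update, bm_update, Polynomial.eval_mul, Polynomial.eval_C, Polynomial.eval_pow,
    Polynomial.eval_X]
  ring

theorem line_update {k : ℕ} {n d : Fin k → ℕ} {R : Type} [CommRing R] (c : Exps n d → R)
    (P : Pt n R) (i : Fin k) (j : Fin (n i + 1)) (y : R) :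
    line c (Function.update P i (Function.update (P i) j y)) i j = line c P i j := by
  unfold line
  apply Finset.sum_congr rfl
  intro s _
  have h1 : ∏ l ∈ univ.erase j, (Function.update P i (Function.update (P i) j y)) i l ^
      ((s i).1 l : ℕ) = ∏ l ∈ univ.erase j, P i l ^ ((s i).1 l : ℕ) := by
    apply Finset.prod_congr rfl
    intro l hl
    rw [Function.update_self, Function.update_of_ne (Finset.ne_of_mem_erase hl)]
  have h2 : ∏ i' ∈ univ.erase i, bm (s i')
      ((Function.update P i (Function.update (P i) j y)) i') =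
      ∏ i' ∈ univ.erase i, bm (s i') (P i') := by
    apply Finset.prod_congr rfl
    intro l hl
    rw [Function.update_of_ne (Finset.ne_of_mem_erase hl)]
  rw [h1, h2]

theorem map_bm {N D : ℕ} {R S : Type} [CommRing R] [CommRing S] (f : R →+* S) (s : Mon N D)
    (x : Fin N → R) : f (bm s x) = bm s (fun j => f (x j)) := by
  unfold bm
  rw [map_prod]
  exact Finset.prod_congr rfl fun j _ => map_pow f _ _

theorem map_mono {k : ℕ} {n d : Fin k → ℕ} {R S : Type} [CommRing R] [CommRing S] (f : R →+* S)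
    (s : Exps n d) (P : Pt n R) : f (mono s P) = mono s (fun i j => f (P i j)) := by
  unfold mono
  rw [map_prod]
  exact Finset.prod_congr rfl fun i _ => map_bm f _ _

theorem map_line {k : ℕ} {n d : Fin k → ℕ} {R S : Type} [CommRing R] [CommRing S] (f : R →+* S)
    (c : Exps n d → R) (P : Pt n R) (i : Fin k) (j : Fin (n i + 1)) :
    (line c P i j).map f = line (fun s => f (c s)) (fun i j => f (P i j)) i j := by
  unfold line
  rw [Polynomial.map_sum]
  apply Finset.sum_congr rfl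
  intro s _
  rw [Polynomial.map_mul, Polynomial.map_C, Polynomial.map_pow, Polynomial.map_X]
  have h1 : ∏ l ∈ univ.erase j, f (P i l ^ ((s i).1 l : ℕ)) =
      ∏ l ∈ univ.erase j, f (P i l) ^ ((s i).1 l : ℕ) :=
    Finset.prod_congr rfl fun l _ => map_pow f _ _
  have h2 : ∏ i' ∈ univ.erase i, f (bm (s i') (P i')) =
      ∏ i' ∈ univ.erase i, bm (s i') (fun j => f (P i' j)) :=
    Finset.prod_congr rfl fun i' _ => map_bm f _ _
  rw [map_mul f, map_mul f, map_prod f, map_prod f, h1, h2]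

theorem map_ev {k : ℕ} {n d : Fin k → ℕ} {R S : Type} [CommRing R] [CommRing S] (f : R →+* S)
    (c : Exps n d → R) (P : Pt n R) : f (ev c P) = ev (fun s => f (c s)) (fun i j => f (P i j)) := by
  unfold ev
  rw [map_sum]
  exact Finset.sum_congr rfl fun s _ => by rw [map_mul, map_mono]

theorem map_dev {k : ℕ} {n d : Fin k → ℕ} {R S : Type} [CommRing R] [CommRing S] (f : R →+* S)
    (c : Exps n d → R) (P : Pt n R) (i : Fin k) (j : Fin (n i + 1)) :
    f (dev c P i j) = dev (fun s => f (c s)) (fun i j => f (P i j)) i j := by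
  unfold dev
  rw [← map_line, Polynomial.derivative_map, Polynomial.eval_map]
  exact (Polynomial.eval₂_at_apply f (P i j)).symm

theorem bm_smul {N D : ℕ} {R : Type} [CommRing R] (s : Mon N D) (a : R) (x : Fin N → R) :
    bm s (fun j => a * x j) = a ^ D * bm s x := by
  unfold bm
  have h : ∏ j, (a * x j) ^ (s.1 j : ℕ) = (∏ j, a ^ (s.1 j : ℕ)) * ∏ j, x j ^ (s.1 j : ℕ) := by
    rw [← Finset.prod_mul_distrib]
    exact Finset.prod_congr rfl fun j _ => mul_pow _ _ _
  rw [h, Finset.prod_pow_eq_pow_sum, s.2]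

theorem mono_smul {k : ℕ} {n d : Fin k → ℕ} {R : Type} [CommRing R] (s : Exps n d)
    (P : Pt n R) (a : Fin k → R) :
    mono s (fun i j => a i * P i j) = (∏ i, a i ^ d i) * mono s P := by
  unfold mono
  rw [← Finset.prod_mul_distrib]
  exact Finset.prod_congr rfl fun i _ => bm_smul _ _ _

theorem ev_smul {k : ℕ} {n d : Fin k → ℕ} {R : Type} [CommRing R] (c : Exps n d → R)
    (P : Pt n R) (a : Fin k → R) :
    ev c (fun i j => a i * P i j) = (∏ i, a i ^ d i) * ev c P := by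
  unfold ev
  rw [Finset.mul_sum]
  exact Finset.sum_congr rfl fun s _ => by rw [mono_smul]; ring

theorem line_smul {k : ℕ} {n d : Fin k → ℕ} {R : Type} [CommRing R] (c : Exps n d → R)
    (P : Pt n R) (a : Fin k → R) (i : Fin k) (j : Fin (n i + 1)) :
    (line c (fun i j => a i * P i j) i j).comp (Polynomial.C (a i) * Polynomial.X) =
      Polynomial.C (∏ i, a i ^ d i) * line c P i j := by
  unfold line
  rw [Polynomial.sum_comp, Finset.mul_sum]
  apply Finset.sum_congr rfl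
  intro s _
  rw [Polynomial.mul_comp, Polynomial.C_comp, Polynomial.pow_comp, Polynomial.X_comp, mul_pow]
  have h1 : ∏ l ∈ univ.erase j, (a i * P i l) ^ ((s i).1 l : ℕ) =
      (∏ l ∈ univ.erase j, a i ^ ((s i).1 l : ℕ)) *
        ∏ l ∈ univ.erase j, P i l ^ ((s i).1 l : ℕ) := by
    rw [← Finset.prod_mul_distrib]
    exact Finset.prod_congr rfl fun l _ => mul_pow _ _ _
  have h2 : ∏ i' ∈ univ.erase i, bm (s i') (fun j => a i' * P i' j) =
      (∏ i' ∈ univ.erase i, a i' ^ d i') * ∏ i' ∈ univ.erase i, bm (s i') (P i') := by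
    rw [← Finset.prod_mul_distrib]
    exact Finset.prod_congr rfl fun i' _ => bm_smul _ _ _
  have h3 : (∏ l ∈ univ.erase j, a i ^ ((s i).1 l : ℕ)) * a i ^ ((s i).1 j : ℕ) = a i ^ d i := by
    rw [Finset.prod_erase_mul univ _ (Finset.mem_univ j), Finset.prod_pow_eq_pow_sum, (s i).2]
  have h4 : (∏ i' ∈ univ.erase i, a i' ^ d i') * a i ^ d i = ∏ i, a i ^ d i :=
    Finset.prod_erase_mul univ _ (Finset.mem_univ i)
  rw [h1, h2, ← h4, ← h3]
  simp only [map_mul, map_pow]
  ring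

theorem dev_smul {k : ℕ} {n d : Fin k → ℕ} {R : Type} [CommRing R] (c : Exps n d → R)
    (P : Pt n R) (a : Fin k → R) (i : Fin k) (j : Fin (n i + 1)) :
    a i * dev c (fun i j => a i * P i j) i j = (∏ i, a i ^ d i) * dev c P i j := by
  have h := congrArg (fun q => (Polynomial.derivative q).eval (P i j)) (line_smul c P a i j)
  simp only [Polynomial.derivative_comp, Polynomial.derivative_mul, Polynomial.derivative_C,
    Polynomial.derivative_X, zero_mul, zero_add, mul_one, Polynomial.eval_mul,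
    Polynomial.eval_comp, Polynomial.eval_C, Polynomial.eval_X] at h
  exact h

/-- explicit formula for the partial derivative -/
theorem dev_eq {k : ℕ} {n d : Fin k → ℕ} {R : Type} [CommRing R] (c : Exps n d → R)
    (P : Pt n R) (i : Fin k) (j : Fin (n i + 1)) :
    dev c P i j = ∑ s : Exps n d, c s * ((∏ l ∈ univ.erase j, P i l ^ ((s i).1 l : ℕ)) *
      (∏ i' ∈ univ.erase i, bm (s i') (P i')) *
      ((((s i).1 j : ℕ) : R) * P i j ^ (((s i).1 j : ℕ) - 1))) := by
  unfold dev line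
  rw [Polynomial.derivative_sum, Polynomial.eval_finsetSum]
  apply Finset.sum_congr rfl
  intro s _
  rw [Polynomial.derivative_C_mul_X_pow, Polynomial.eval_mul, Polynomial.eval_C,
    Polynomial.eval_pow, Polynomial.eval_X]
  ring

namespace DerivAux

theorem abs_prod_le_one {α : Type} (s : Finset α) (a : α → ℝ) (ha : ∀ i ∈ s, |a i| ≤ 1) :
    |∏ i ∈ s, a i| ≤ 1 := by
  rw [Finset.abs_prod]
  exact Finset.prod_le_one (fun i _ => abs_nonneg _) ha

theorem abs_prod_sub_prod_le {α : Type} [DecidableEq α] (s : Finset α) (a b : α → ℝ)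
    (ha : ∀ i ∈ s, |a i| ≤ 1) (hb : ∀ i ∈ s, |b i| ≤ 1) :
    |∏ i ∈ s, a i - ∏ i ∈ s, b i| ≤ ∑ i ∈ s, |a i - b i| := by
  induction s using Finset.induction_on with
  | empty => simp
  | insert x s hx ih =>
    rw [Finset.prod_insert hx, Finset.prod_insert hx, Finset.sum_insert hx]
    have h1 := ih (fun i hi => ha i (Finset.mem_insert_of_mem hi))
      (fun i hi => hb i (Finset.mem_insert_of_mem hi))
    have h2 := abs_prod_le_one s a (fun i hi => ha i (Finset.mem_insert_of_mem hi))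
    have h3 := hb x (Finset.mem_insert_self x s)
    have h4 : a x * ∏ i ∈ s, a i - b x * ∏ i ∈ s, b i =
        (a x - b x) * ∏ i ∈ s, a i + b x * (∏ i ∈ s, a i - ∏ i ∈ s, b i) := by ring
    rw [h4]
    refine le_trans (abs_add_le _ _) (add_le_add ?_ ?_)
    · rw [abs_mul]
      exact mul_le_of_le_one_right (abs_nonneg _) h2
    · rw [abs_mul]
      exact le_trans (mul_le_of_le_one_left (abs_nonneg _) h3) h1

theorem abs_pow_le_one (x : ℝ) (n : ℕ) (hx : |x| ≤ 1) : |x ^ n| ≤ 1 := by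
  rw [abs_pow]
  exact pow_le_one₀ (abs_nonneg _) hx

theorem abs_pow_sub_pow_le (x y : ℝ) (n : ℕ) (hx : |x| ≤ 1) (hy : |y| ≤ 1) :
    |x ^ n - y ^ n| ≤ n * |x - y| := by
  have h := abs_prod_sub_prod_le (Finset.range n) (fun _ => x) (fun _ => y) (fun _ _ => hx)
    (fun _ _ => hy)
  simpa using h

theorem abs_pprod_sub_le {N D : ℕ} (s : Mon N D) (F : Finset (Fin N)) (x y : Fin N → ℝ) (r : ℝ)
    (hr : 0 ≤ r) (hx : ∀ j, |x j| ≤ 1) (hy : ∀ j, |y j| ≤ 1) (hxy : ∀ j, |x j - y j| ≤ r) :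
    |∏ j ∈ F, x j ^ (s.1 j : ℕ) - ∏ j ∈ F, y j ^ (s.1 j : ℕ)| ≤ D * r := by
  refine le_trans (abs_prod_sub_prod_le F _ _ (fun j _ => abs_pow_le_one _ _ (hx j))
    (fun j _ => abs_pow_le_one _ _ (hy j))) ?_
  have h1 : ∑ j ∈ F, |x j ^ (s.1 j : ℕ) - y j ^ (s.1 j : ℕ)| ≤ ∑ j ∈ F, ((s.1 j : ℕ) : ℝ) * r := by
    apply Finset.sum_le_sum
    intro j _
    exact le_trans (abs_pow_sub_pow_le _ _ _ (hx j) (hy j))
      (mul_le_mul_of_nonneg_left (hxy j) (Nat.cast_nonneg _))
  refine le_trans h1 ?_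
  rw [← Finset.sum_mul]
  apply mul_le_mul_of_nonneg_right _ hr
  calc ∑ j ∈ F, ((s.1 j : ℕ) : ℝ) ≤ ∑ j, ((s.1 j : ℕ) : ℝ) :=
        Finset.sum_le_univ_sum_of_nonneg fun j => Nat.cast_nonneg _
    _ = D := by
        have := s.2
        exact_mod_cast this

theorem abs_bm_le_one {N D : ℕ} (s : Mon N D) (x : Fin N → ℝ) (hx : ∀ j, |x j| ≤ 1) :
    |bm s x| ≤ 1 := abs_prod_le_one _ _ fun j _ => abs_pow_le_one _ _ (hx j)

theorem abs_bm_sub_le {N D : ℕ} (s : Mon N D) (x y : Fin N → ℝ) (r : ℝ)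
    (hr : 0 ≤ r) (hx : ∀ j, |x j| ≤ 1) (hy : ∀ j, |y j| ≤ 1) (hxy : ∀ j, |x j - y j| ≤ r) :
    |bm s x - bm s y| ≤ D * r := abs_pprod_sub_le s univ x y r hr hx hy hxy

theorem abs_bprod_sub_le {k : ℕ} {n d : Fin k → ℕ} (s : Exps n d) (F : Finset (Fin k))
    (P Q : Pt n ℝ) (r : ℝ) (hr : 0 ≤ r) (hP : ∀ i j, |P i j| ≤ 1) (hQ : ∀ i j, |Q i j| ≤ 1)
    (hPQ : ∀ i j, |P i j - Q i j| ≤ r) :
    |∏ i ∈ F, bm (s i) (P i) - ∏ i ∈ F, bm (s i) (Q i)| ≤ (∑ i, (d i : ℝ)) * r := by
  refine le_trans (abs_prod_sub_prod_le F _ _ (fun i _ => abs_bm_le_one _ _ (hP i))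
    (fun i _ => abs_bm_le_one _ _ (hQ i))) ?_
  have h1 : ∑ i ∈ F, |bm (s i) (P i) - bm (s i) (Q i)| ≤ ∑ i ∈ F, (d i : ℝ) * r :=
    Finset.sum_le_sum fun i _ => abs_bm_sub_le _ _ _ r hr (hP i) (hQ i) (hPQ i)
  refine le_trans h1 ?_
  rw [← Finset.sum_mul]
  apply mul_le_mul_of_nonneg_right _ hr
  exact Finset.sum_le_univ_sum_of_nonneg fun j => Nat.cast_nonneg _

end DerivAux

open DerivAux in
theorem ev_lip {k : ℕ} (n d : Fin k → ℕ) : ∃ C : ℝ, 0 < C ∧ ∀ (H : ℝ) (c : Exps n d → ℝ)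
    (P Q : Pt n ℝ) (r : ℝ), 0 ≤ H → 0 ≤ r → (∀ s, |c s| ≤ H) → (∀ i j, |P i j| ≤ 1) →
    (∀ i j, |Q i j| ≤ 1) → (∀ i j, |P i j - Q i j| ≤ r) →
    |ev c P - ev c Q| ≤ C * H * r ∧ |ev c P| ≤ C * H ∧
    ∀ i j, |dev c P i j - dev c Q i j| ≤ C * H * r ∧ |dev c P i j| ≤ C * H := by
  set K : ℝ := 1 + ∑ i, (d i : ℝ) with hK
  have hsum : 0 ≤ ∑ i, (d i : ℝ) := Finset.sum_nonneg fun i _ => Nat.cast_nonneg _
  have hK1 : 1 ≤ K := by linarith
  have hdK : ∀ i, (d i : ℝ) ≤ K := by
    intro i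
    have : (d i : ℝ) ≤ ∑ i, (d i : ℝ) :=
      Finset.single_le_sum (f := fun i => (d i : ℝ)) (fun i _ => Nat.cast_nonneg _)
        (Finset.mem_univ i)
    linarith
  set Ec : ℝ := (Fintype.card (Exps n d) : ℝ) with hEc
  have hEc0 : 0 ≤ Ec := Nat.cast_nonneg _
  -- sums of bounded terms
  have key : ∀ (H : ℝ) (c : Exps n d → ℝ) (t : Exps n d → ℝ) (b : ℝ), 0 ≤ H → 0 ≤ b →
      (∀ s, |c s| ≤ H) → (∀ s, |t s| ≤ b) → |∑ s, c s * t s| ≤ Ec * (H * b) := by
    intro H c t b hH _ hc ht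
    refine le_trans (Finset.abs_sum_le_sum_abs _ _) ?_
    have h1 : ∑ s, |c s * t s| ≤ ∑ _s : Exps n d, H * b := by
      apply Finset.sum_le_sum
      intro s _
      rw [abs_mul]
      exact mul_le_mul (hc s) (ht s) (abs_nonneg _) hH
    refine le_trans h1 ?_
    rw [Finset.sum_const, nsmul_eq_mul, Finset.card_univ]
  refine ⟨Ec * (3 * K ^ 2) + 1, by positivity, ?_⟩
  intro H c P Q r hH hr hc hP hQ hPQ
  have hbound : ∀ b : ℝ, 0 ≤ b → b ≤ 3 * K ^ 2 → Ec * (H * b) ≤ (Ec * (3 * K ^ 2) + 1) * H := by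
    intro b hb0 hb
    have h1 : Ec * (H * b) ≤ Ec * (H * (3 * K ^ 2)) := by gcongr
    linarith
  have hboundr : ∀ b : ℝ, 0 ≤ b → b ≤ 3 * K ^ 2 * r →
      Ec * (H * b) ≤ (Ec * (3 * K ^ 2) + 1) * H * r := by
    intro b hb0 hb
    have h1 : Ec * (H * b) ≤ Ec * (H * (3 * K ^ 2 * r)) := by gcongr
    have h2 : 0 ≤ H * r := mul_nonneg hH hr
    nlinarith
  have hKr : 0 ≤ K * r := by positivity
  have hmonoP : ∀ (s : Exps n d) (R : Pt n ℝ), (∀ i j, |R i j| ≤ 1) → |mono s R| ≤ 1 :=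
    fun s R hR => abs_prod_le_one _ _ fun i _ => abs_bm_le_one _ _ (hR i)
  refine ⟨?_, ?_, fun i j => ?_⟩
  · have h1 : ev c P - ev c Q = ∑ s, c s * (mono s P - mono s Q) := by
      unfold ev
      rw [← Finset.sum_sub_distrib]
      exact Finset.sum_congr rfl fun s _ => by ring
    rw [h1]
    refine le_trans (key H c _ (K * r) hH hKr hc fun s => ?_) (hboundr _ hKr ?_)
    · refine le_trans (abs_bprod_sub_le s univ P Q r hr hP hQ hPQ) ?_
      exact mul_le_mul_of_nonneg_right (by linarith) hr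
    · apply mul_le_mul_of_nonneg_right _ hr
      nlinarith
  · refine le_trans (key H c _ 1 hH zero_le_one hc fun s => hmonoP s P hP)
      (hbound _ zero_le_one ?_)
    nlinarith
  · -- derivatives
    set A : Exps n d → Pt n ℝ → ℝ := fun s R => ∏ l ∈ univ.erase j, R i l ^ ((s i).1 l : ℕ)
      with hA
    set B : Exps n d → Pt n ℝ → ℝ := fun s R => ∏ i' ∈ univ.erase i, bm (s i') (R i') with hB
    set D : Exps n d → Pt n ℝ → ℝ := fun s R => (((s i).1 j : ℕ) : ℝ) *
      R i j ^ (((s i).1 j : ℕ) - 1) with hD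
    have hA1 : ∀ s R, (∀ i j, |R i j| ≤ 1) → |A s R| ≤ 1 := fun s R hR =>
      abs_prod_le_one _ _ fun l _ => abs_pow_le_one _ _ (hR i l)
    have hB1 : ∀ s R, (∀ i j, |R i j| ≤ 1) → |B s R| ≤ 1 := fun s R hR =>
      abs_prod_le_one _ _ fun i' _ => abs_bm_le_one _ _ (hR i')
    have hsj : ∀ s : Exps n d, (((s i).1 j : ℕ) : ℝ) ≤ K := by
      intro s
      refine le_trans ?_ (hdK i)
      exact_mod_cast Nat.lt_succ_iff.mp ((s i).1 j).2
    have hD1 : ∀ s R, (∀ i j, |R i j| ≤ 1) → |D s R| ≤ K := by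
      intro s R hR
      simp only [hD]
      rw [abs_mul, Nat.abs_cast]
      calc (((s i).1 j : ℕ) : ℝ) * |R i j ^ (((s i).1 j : ℕ) - 1)|
          ≤ (((s i).1 j : ℕ) : ℝ) * 1 :=
            mul_le_mul_of_nonneg_left (abs_pow_le_one _ _ (hR i j)) (Nat.cast_nonneg _)
        _ ≤ K := by rw [mul_one]; exact hsj s
    have hdev : ∀ R : Pt n ℝ, dev c R i j = ∑ s, c s * (A s R * B s R * D s R) := fun R =>
      dev_eq c R i j
    constructor
    · have h1 : dev c P i j - dev c Q i j =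
          ∑ s, c s * (A s P * B s P * D s P - A s Q * B s Q * D s Q) := by
        rw [hdev, hdev, ← Finset.sum_sub_distrib]
        exact Finset.sum_congr rfl fun s _ => by ring
      rw [h1]
      have hb : 0 ≤ 3 * K ^ 2 * r := by positivity
      refine le_trans (key H c _ (3 * K ^ 2 * r) hH hb hc fun s => ?_) (hboundr _ hb le_rfl)
      have hA2 : |A s P - A s Q| ≤ K * r := by
        refine le_trans (abs_pprod_sub_le (s i) (univ.erase j) (P i) (Q i) r hr (hP i) (hQ i)
          (hPQ i)) ?_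
        exact mul_le_mul_of_nonneg_right (hdK i) hr
      have hB2 : |B s P - B s Q| ≤ K * r := by
        refine le_trans (abs_bprod_sub_le s (univ.erase i) P Q r hr hP hQ hPQ) ?_
        exact mul_le_mul_of_nonneg_right (by linarith) hr
      have hD2 : |D s P - D s Q| ≤ K * (K * r) := by
        have h2 : D s P - D s Q = (((s i).1 j : ℕ) : ℝ) *
            (P i j ^ (((s i).1 j : ℕ) - 1) - Q i j ^ (((s i).1 j : ℕ) - 1)) := by
          simp only [hD]
          ring
        rw [h2, abs_mul, Nat.abs_cast]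
        apply mul_le_mul (hsj s) _ (abs_nonneg _) (by linarith)
        refine le_trans (abs_pow_sub_pow_le _ _ _ (hP i j) (hQ i j)) ?_
        apply mul_le_mul _ (hPQ i j) (abs_nonneg _) (by linarith)
        refine le_trans ?_ (hsj s)
        exact_mod_cast Nat.sub_le _ _
      have h3 : A s P * B s P * D s P - A s Q * B s Q * D s Q =
          (A s P - A s Q) * (B s P * D s P) + A s Q * ((B s P - B s Q) * D s P) +
            A s Q * (B s Q * (D s P - D s Q)) := by ring
      rw [h3]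
      have hK0 : 0 ≤ K := by linarith
      have t1 : |(A s P - A s Q) * (B s P * D s P)| ≤ (K * r) * (1 * K) := by
        rw [abs_mul, abs_mul]
        exact mul_le_mul hA2 (mul_le_mul (hB1 s P hP) (hD1 s P hP) (abs_nonneg _) zero_le_one)
          (by positivity) hKr
      have t2 : |A s Q * ((B s P - B s Q) * D s P)| ≤ 1 * ((K * r) * K) := by
        rw [abs_mul, abs_mul]
        exact mul_le_mul (hA1 s Q hQ) (mul_le_mul hB2 (hD1 s P hP) (abs_nonneg _) hKr)
          (by positivity) zero_le_one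
      have t3 : |A s Q * (B s Q * (D s P - D s Q))| ≤ 1 * (1 * (K * (K * r))) := by
        rw [abs_mul, abs_mul]
        exact mul_le_mul (hA1 s Q hQ) (mul_le_mul (hB1 s Q hQ) hD2 (abs_nonneg _) zero_le_one)
          (by positivity) zero_le_one
      refine le_trans (abs_add_le _ _) ?_
      have t4 := abs_add_le ((A s P - A s Q) * (B s P * D s P))
        (A s Q * ((B s P - B s Q) * D s P))
      nlinarith
    · rw [hdev]
      have hK0 : 0 ≤ K := by linarith
      refine le_trans (key H c _ K hH hK0 hc fun s => ?_) (hbound _ hK0 (by nlinarith))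
      rw [abs_mul, abs_mul]
      calc |A s P| * |B s P| * |D s P| ≤ 1 * 1 * K :=
            mul_le_mul (mul_le_mul (hA1 s P hP) (hB1 s P hP) (abs_nonneg _) zero_le_one)
              (hD1 s P hP) (abs_nonneg _) (by norm_num)
        _ = K := by ring

end Pool.Agent.HP
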