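import Pool.Agent.Lib.MP_fc0680_nt.Defs

/-!
# MP_fc0680_nt : SPANBM

The kernel of the evaluation at one or two points is spanned by products of small linear forms
and monomials.
-/

set_option autoImplicit false
open Finset Filter

namespace Pool.Agent.HP

namespace SpanBm

/-- Multiply the monomial by the variable `j`. -/
def addM {N D : ℕ} (t : Mon N D) (j : Fin N) : Mon N (D + 1) :=
  ⟨fun i => ⟨(t.1 i : ℕ) + if i = j then 1 else 0, by
    have := (t.1 i).2
    split_ifs <;> omega⟩, by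
    simp only [Finset.sum_add_distrib, t.2, Finset.sum_ite_eq', Finset.mem_univ, if_true]⟩

theorem addM_val {N D : ℕ} (t : Mon N D) (j i : Fin N) :
    ((addM t j).1 i : ℕ) = (t.1 i : ℕ) + if i = j then 1 else 0 := rfl

theorem mon_ext {N D : ℕ} {s t : Mon N D} (h : ∀ i, (s.1 i : ℕ) = (t.1 i : ℕ)) : s = t := by
  apply Subtype.ext
  funext i
  exact Fin.ext (h i)

theorem bm_addM {N D : ℕ} {R : Type} [CommRing R] (t : Mon N D) (j : Fin N) (x : Fin N → R) :
    bm (addM t j) x = x j * bm t x := by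
  unfold bm
  simp only [addM_val, pow_add, Finset.prod_mul_distrib]
  rw [mul_comm]
  congr 1
  rw [Finset.prod_eq_single j]
  · simp
  · intro b _ hb
    simp [hb]
  · intro h
    exact absurd (Finset.mem_univ j) h

theorem addM_inj {N D : ℕ} {t : Mon N D} {j j' : Fin N} (h : addM t j = addM t j') : j = j' := by
  by_contra hne
  have h1 := congrArg (fun s : Mon N (D + 1) => (s.1 j : ℕ)) h
  simp only [addM_val, if_true, if_neg hne] at h1
  omega

theorem addM_comm {N D : ℕ} (t : Mon N D) (i j : Fin N) :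
    addM (addM t i) j = addM (addM t j) i := by
  apply mon_ext
  intro l
  simp only [addM_val]
  omega

theorem exists_addM {N D : ℕ} (s : Mon N (D + 1)) : ∃ (t : Mon N D) (j : Fin N), s = addM t j := by
  have h : ∃ j, 0 < (s.1 j : ℕ) := by
    by_contra hcon
    push Not at hcon
    have h1 : ∑ j, (s.1 j : ℕ) = 0 := Finset.sum_eq_zero fun j _ => by
      have := hcon j
      omega
    have h2 := s.2
    omega
  obtain ⟨j, hj⟩ := h
  have hsum : ∑ i, ((s.1 i : ℕ) - if i = j then 1 else 0) = D := by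
    have h1 : ∑ i, (((s.1 i : ℕ) - if i = j then 1 else 0) + if i = j then 1 else 0) = D + 1 := by
      refine Eq.trans ?_ s.2
      refine Finset.sum_congr rfl fun i _ => ?_
      split_ifs with hi
      · subst hi
        omega
      · omega
    rw [Finset.sum_add_distrib] at h1
    simp only [Finset.sum_ite_eq', Finset.mem_univ, if_true] at h1
    omega
  refine ⟨⟨fun i => ⟨(s.1 i : ℕ) - if i = j then 1 else 0, ?_⟩, hsum⟩, j, ?_⟩
  · have h1 : ((s.1 i : ℕ) - if i = j then 1 else 0) ≤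
        ∑ i, ((s.1 i : ℕ) - if i = j then 1 else 0) :=
      Finset.single_le_sum (f := fun i => ((s.1 i : ℕ) - if i = j then 1 else 0))
        (fun _ _ => Nat.zero_le _) (Finset.mem_univ i)
    omega
  · apply mon_ext
    intro i
    rw [addM_val]
    simp only
    split_ifs with hi
    · subst hi
      omega
    · omega

theorem bm_zero {N : ℕ} {R : Type} [CommRing R] (t : Mon N 0) (x : Fin N → R) : bm t x = 1 := by
  unfold bm
  refine Finset.prod_eq_one fun j _ => ?_
  have h : (t.1 j : ℕ) = 0 := by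
    have := (t.1 j).2
    omega
  rw [h, pow_zero]

instance instSubMon0 {N : ℕ} : Subsingleton (Mon N 0) :=
  ⟨fun s t => mon_ext fun i => by
    have h1 := (s.1 i).2
    have h2 := (t.1 i).2
    omega⟩

/-- The zero monomial. -/
def mon0 (N : ℕ) : Mon N 0 := ⟨fun _ => ⟨0, Nat.one_pos⟩, by simp⟩

theorem exists_bm_ne {N : ℕ} (x : Fin N → ℝ) (j₀ : Fin N) (hx : x j₀ ≠ 0) :
    ∀ D : ℕ, ∃ t : Mon N D, bm t x ≠ 0 := by
  intro D
  induction D with
  | zero => exact ⟨mon0 N, by rw [bm_zero]; exact one_ne_zero⟩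
  | succ D ih =>
    obtain ⟨t, ht⟩ := ih
    exact ⟨addM t j₀, by rw [bm_addM]; exact mul_ne_zero hx ht⟩

/-- A function on the monomials of degree `D + 1` whose slices are all proportional to `x` is
proportional to the vector of the monomials at `x`. -/
theorem lemA {N : ℕ} (x : Fin N → ℝ) (j₀ : Fin N) (hx : x j₀ ≠ 0) :
    ∀ (D : ℕ) (L : Mon N (D + 1) → ℝ), (∀ t : Mon N D, ∃ β : ℝ, ∀ j, L (addM t j) = β * x j) →
      ∃ α : ℝ, ∀ s, L s = α * bm s x := by
  intro D
  induction D with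
  | zero =>
    intro L hL
    obtain ⟨β, hβ⟩ := hL (mon0 N)
    refine ⟨β, fun s => ?_⟩
    obtain ⟨t, j, rfl⟩ := exists_addM s
    have ht : t = mon0 N := Subsingleton.elim _ _
    rw [ht, hβ, bm_addM, bm_zero, mul_one]
  | succ D ih =>
    intro L hL
    choose β hβ using hL
    obtain ⟨α, hα⟩ := ih β (by
      intro u
      refine ⟨β (addM u j₀) / x j₀, fun i => ?_⟩
      have h1 := hβ (addM u i) j₀
      have h2 := hβ (addM u j₀) i
      rw [addM_comm] at h1
      rw [h1] at h2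
      field_simp
      exact h2)
    refine ⟨α, fun s => ?_⟩
    obtain ⟨t, j, rfl⟩ := exists_addM s
    rw [hβ, hα, bm_addM]
    ring

/-- Test vector: a linear form times a monomial. -/
def tv1 {N D : ℕ} (t : Mon N D) (l : Fin N → ℤ) (s : Mon N (D + 1)) : ℤ :=
  ∑ j, if s = addM t j then l j else 0

theorem sum_tv1 {N D : ℕ} {R : Type} [CommRing R] (t : Mon N D) (l : Fin N → ℤ)
    (f : Mon N (D + 1) → R) :
    ∑ s, ((tv1 t l s : ℤ) : R) * f s = ∑ j, (l j : R) * f (addM t j) := by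
  simp only [tv1, Int.cast_sum, Finset.sum_mul]
  rw [Finset.sum_comm]
  refine Finset.sum_congr rfl fun j _ => ?_
  rw [Finset.sum_eq_single (addM t j)]
  · simp
  · intro b _ hb
    simp [hb]
  · intro h
    exact absurd (Finset.mem_univ _) h

theorem tv1_le {N D : ℕ} (t : Mon N D) (l : Fin N → ℤ) (μ : ℕ) (hl : ∀ j, (l j).natAbs ≤ μ)
    (s : Mon N (D + 1)) : (tv1 t l s).natAbs ≤ μ := by
  unfold tv1
  by_cases h : ∃ j, s = addM t j
  · obtain ⟨j, rfl⟩ := h
    rw [Finset.sum_eq_single j]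
    · simpa using hl j
    · intro b _ hb
      rw [if_neg]
      intro h
      exact hb (addM_inj h).symm
    · intro h
      exact absurd (Finset.mem_univ _) h
  · push Not at h
    rw [Finset.sum_eq_zero]
    · simp
    · intro j _
      rw [if_neg (h j)]

/-- Test vector: a product of two linear forms times a monomial. -/
def tv2 {N D : ℕ} (t : Mon N D) (l l' : Fin N → ℤ) (s : Mon N (D + 2)) : ℤ :=
  ∑ p : Fin N × Fin N, if s = addM (addM t p.1) p.2 then l p.1 * l' p.2 else 0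

theorem sum_tv2 {N D : ℕ} {R : Type} [CommRing R] (t : Mon N D) (l l' : Fin N → ℤ)
    (f : Mon N (D + 2) → R) :
    ∑ s, ((tv2 t l l' s : ℤ) : R) * f s =
      ∑ j, ∑ i, (l j : R) * (l' i : R) * f (addM (addM t j) i) := by
  simp only [tv2, Int.cast_sum, Finset.sum_mul]
  rw [Finset.sum_comm, Fintype.sum_prod_type]
  refine Finset.sum_congr rfl fun j _ => Finset.sum_congr rfl fun i _ => ?_
  rw [Finset.sum_eq_single (addM (addM t j) i)]
  · simp
  · intro b _ hb
    simp [hb]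
  · intro h
    exact absurd (Finset.mem_univ _) h

theorem addM2_eq {N D : ℕ} {t : Mon N D} {j i j' i' : Fin N}
    (h : addM (addM t j) i = addM (addM t j') i') : (j = j' ∧ i = i') ∨ (j = i' ∧ i = j') := by
  have hv : ∀ l : Fin N, ((if l = j then 1 else 0) + (if l = i then 1 else 0) : ℕ) =
      (if l = j' then 1 else 0) + (if l = i' then 1 else 0) := by
    intro l
    have h1 := congrArg (fun s : Mon N (D + 2) => (s.1 l : ℕ)) h
    simp only [addM_val] at h1
    omega
  have h1 := hv j'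
  have h2 := hv i'
  have h3 := hv j
  have h4 := hv i
  by_cases hj : j = j'
  · subst hj
    left
    refine ⟨rfl, ?_⟩
    by_contra hne
    simp only [if_true, if_neg hne] at h4
    omega
  · right
    have hij : i = j' := by
      by_contra hne
      rw [if_neg (fun e => hj e.symm), if_neg (fun e => hne e.symm), if_pos rfl] at h1
      omega
    refine ⟨?_, hij⟩
    by_contra hne
    rw [if_neg hj, if_neg hne] at h3
    simp at h3

theorem tv2_le {N D : ℕ} (t : Mon N D) (l l' : Fin N → ℤ) (μ : ℕ) (hl : ∀ j, (l j).natAbs ≤ μ)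
    (hl' : ∀ j, (l' j).natAbs ≤ μ) (s : Mon N (D + 2)) : (tv2 t l l' s).natAbs ≤ 2 * μ ^ 2 := by
  classical
  unfold tv2
  rw [← Finset.sum_filter]
  refine (Int.natAbs_sum_le _ _).trans ?_
  have hb : ∀ p ∈ (univ.filter fun p : Fin N × Fin N => s = addM (addM t p.1) p.2),
      (l p.1 * l' p.2).natAbs ≤ μ ^ 2 := by
    intro p _
    rw [Int.natAbs_mul, pow_two]
    exact Nat.mul_le_mul (hl _) (hl' _)
  refine (Finset.sum_le_card_nsmul _ _ _ hb).trans ?_
  rw [smul_eq_mul]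
  refine Nat.mul_le_mul_right _ ?_
  by_cases h : ∃ p : Fin N × Fin N, s = addM (addM t p.1) p.2
  · obtain ⟨p₀, hp₀⟩ := h
    have hsub : (univ.filter fun p : Fin N × Fin N => s = addM (addM t p.1) p.2) ⊆
        {p₀, (p₀.2, p₀.1)} := by
      intro p hp
      rw [Finset.mem_filter] at hp
      have h1 := hp.2.symm.trans hp₀
      rw [Finset.mem_insert, Finset.mem_singleton]
      rcases addM2_eq h1 with ⟨h2, h3⟩ | ⟨h2, h3⟩
      · left
        exact Prod.ext h2 h3
      · right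
        exact Prod.ext h2 h3
    exact (Finset.card_le_card hsub).trans Finset.card_le_two
  · push Not at h
    rw [Finset.filter_false_of_mem (fun p _ => h p)]
    simp

theorem bm_cast {N D : ℕ} (s : Mon N D) (x : Fin N → ℤ) :
    ((bm s x : ℤ) : ℝ) = bm s (fun j => (x j : ℝ)) := by
  unfold bm
  push_cast
  rfl

/-- From slices orthogonal to the small vectors of `x^⊥` to proportionality. -/
theorem core1 {N D : ℕ} (μ : ℕ) (x : Fin N → ℤ) (hx : x ≠ 0) (h : GoodSpan μ x)
    (φ : Mon N (D + 1) → ℝ)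
    (hφ : ∀ l : Fin N → ℤ, (∀ j, (l j).natAbs ≤ μ) → ∑ j, l j * x j = 0 → ∀ t : Mon N D,
      ∑ j, (l j : ℝ) * φ (addM t j) = 0) :
    ∃ α : ℝ, ∀ s, φ s = α * bm s (fun j => (x j : ℝ)) := by
  obtain ⟨j₀, hj₀⟩ : ∃ j, x j ≠ 0 := by
    by_contra hcon
    push Not at hcon
    exact hx (funext hcon)
  refine lemA (fun j => (x j : ℝ)) j₀ (by exact_mod_cast hj₀) D φ fun t => ?_
  obtain ⟨β, hβ⟩ := h (fun j => φ (addM t j)) (by
    intro l hl hlx
    rw [← hφ l hl hlx t]
    exact Finset.sum_congr rfl fun j _ => mul_comm _ _)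
  exact ⟨β, hβ⟩

end SpanBm

open SpanBm

theorem dual1_bm {N D : ℕ} (μ : ℕ) (hμ : 1 ≤ μ) (hD : 1 ≤ D) (x : Fin N → ℤ) (hx : x ≠ 0)
    (h : GoodSpan μ x) : Dual1 μ (fun s : Mon N D => bm s x) := by
  obtain ⟨D, rfl⟩ : ∃ D', D = D' + 1 := ⟨D - 1, by omega⟩
  intro φ hφ
  obtain ⟨α, hα⟩ := core1 (D := D) μ x hx h φ (by
    intro l hl hlx t
    have h1 := hφ (tv1 t l) (tv1_le t l μ hl) (by
      have h2 := sum_tv1 t l (fun s => bm s x)
      simp only [Int.cast_id] at h2
      rw [h2]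
      simp only [bm_addM]
      have h3 : ∀ j, l j * (x j * bm t x) = (l j * x j) * bm t x := fun j => by ring
      simp only [h3]
      rw [← Finset.sum_mul, hlx, zero_mul])
    have h2 := sum_tv1 (R := ℝ) t l φ
    rw [← h2, ← h1]
    exact Finset.sum_congr rfl fun s _ => mul_comm _ _)
  refine ⟨α, fun s => ?_⟩
  rw [hα, bm_cast]

theorem dual2_bm {N D : ℕ} (μ : ℕ) (hμ : 1 ≤ μ) (hD : 2 ≤ D) (x x' : Fin N → ℤ)
    (hxx' : wd x x' ≠ 0) (h : GoodSpan μ x) (h' : GoodSpan μ x') :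
    Dual2 (2 * μ ^ 2) (fun s : Mon N D => bm s x) (fun s => bm s x') := by
  obtain ⟨D, rfl⟩ : ∃ D', D = D' + 2 := ⟨D - 2, by omega⟩
  obtain ⟨p, q, hpq⟩ : ∃ p q, x p * x' q - x q * x' p ≠ 0 := by
    by_contra hcon
    push Not at hcon
    apply hxx'
    unfold wd
    apply Nat.eq_zero_of_le_zero
    apply Finset.sup_le
    intro p _
    rw [hcon p.1 p.2]
    simp
  have hx : x ≠ 0 := by
    rintro rfl
    apply hpq
    simp
  have hx' : x' ≠ 0 := by
    rintro rfl
    apply hpq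
    simp
  intro φ hφ
  set X : Fin N → ℝ := fun j => (x j : ℝ) with hXdef
  set X' : Fin N → ℝ := fun j => (x' j : ℝ) with hX'def
  -- the basic relations
  have hstar : ∀ l l' : Fin N → ℤ, (∀ j, (l j).natAbs ≤ μ) → (∀ j, (l' j).natAbs ≤ μ) →
      ∑ j, l j * x j = 0 → ∑ j, l' j * x' j = 0 → ∀ t : Mon N D,
      ∑ j, ∑ i, (l j : ℝ) * (l' i : ℝ) * φ (addM (addM t j) i) = 0 := by
    intro l l' hl hl' hlx hlx' t
    have h1 := hφ (tv2 t l l') (tv2_le t l l' μ hl hl') (by
      have h2 := sum_tv2 t l l' (fun s => bm s x)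
      simp only [Int.cast_id] at h2
      rw [h2]
      simp only [bm_addM]
      have h3 : ∀ j i, l j * l' i * (x i * (x j * bm t x)) =
        (l j * x j) * ((l' i * x i) * bm t x) := fun j i => by ring
      simp only [h3]
      simp only [← Finset.mul_sum]
      rw [← Finset.sum_mul, hlx, zero_mul]) (by
      have h2 := sum_tv2 t l l' (fun s => bm s x')
      simp only [Int.cast_id] at h2
      rw [h2]
      simp only [bm_addM]
      have h3 : ∀ j i, l j * l' i * (x' i * (x' j * bm t x')) =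
        (l' i * x' i) * ((l j * x' j) * bm t x') := fun j i => by ring
      simp only [h3]
      simp only [← Finset.sum_mul]
      rw [← Finset.mul_sum]
      simp only [hlx', zero_mul])
    have h2 := sum_tv2 (R := ℝ) t l l' φ
    rw [← h2, ← h1]
    exact Finset.sum_congr rfl fun s _ => mul_comm _ _
  -- the contraction with a small vector of x^⊥ is a multiple of the monomials at x'
  have hkap : ∀ l : Fin N → ℤ, (∀ j, (l j).natAbs ≤ μ) → ∑ j, l j * x j = 0 →
      ∃ κ : ℝ, ∀ r : Mon N (D + 1), ∑ j, (l j : ℝ) * φ (addM r j) = κ * bm r X' := by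
    intro l hl hlx
    refine core1 (D := D) μ x' hx' h' (fun r => ∑ j, (l j : ℝ) * φ (addM r j)) ?_
    intro l' hl' hlx' t
    rw [← hstar l l' hl hl' hlx hlx' t, Finset.sum_comm]
    refine Finset.sum_congr rfl fun i _ => ?_
    rw [Finset.mul_sum]
    refine Finset.sum_congr rfl fun j _ => ?_
    rw [addM_comm]
    ring
  have hkap' : ∀ l : Fin N → ℤ, ∃ κ : ℝ, (∀ j, (l j).natAbs ≤ μ) → ∑ j, l j * x j = 0 →
      ∀ r : Mon N (D + 1), ∑ j, (l j : ℝ) * φ (addM r j) = κ * bm r X' := by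
    intro l
    by_cases hl : (∀ j, (l j).natAbs ≤ μ) ∧ ∑ j, l j * x j = 0
    · obtain ⟨κ, hκ⟩ := hkap l hl.1 hl.2
      exact ⟨κ, fun _ _ => hκ⟩
    · refine ⟨0, fun h1 h2 => absurd ⟨h1, h2⟩ hl⟩
  choose κ hκ using hkap'
  obtain ⟨j₀, hj₀⟩ : ∃ j, x' j ≠ 0 := by
    by_contra hcon
    push Not at hcon
    exact hx' (funext hcon)
  have hj₀' : X' j₀ ≠ 0 := by
    change (x' j₀ : ℝ) ≠ 0
    exact_mod_cast hj₀
  obtain ⟨t₀, ht₀⟩ := exists_bm_ne X' j₀ hj₀' D
  -- symmetry
  have hsym : ∀ l₁ l₂ : Fin N → ℤ, (∀ j, (l₁ j).natAbs ≤ μ) → ∑ j, l₁ j * x j = 0 →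
      (∀ j, (l₂ j).natAbs ≤ μ) → ∑ j, l₂ j * x j = 0 →
      κ l₁ * ∑ j, (l₂ j : ℝ) * X' j = κ l₂ * ∑ j, (l₁ j : ℝ) * X' j := by
    intro l₁ l₂ h1 h2 h3 h4
    have e1 : ∑ i, (l₂ i : ℝ) * ∑ j, (l₁ j : ℝ) * φ (addM (addM t₀ i) j) =
        ∑ i, (l₁ i : ℝ) * ∑ j, (l₂ j : ℝ) * φ (addM (addM t₀ i) j) := by
      simp only [Finset.mul_sum]
      rw [Finset.sum_comm]
      refine Finset.sum_congr rfl fun i _ => Finset.sum_congr rfl fun j _ => ?_
      rw [addM_comm]
      ring
    simp only [hκ l₁ h1 h2, hκ l₂ h3 h4, bm_addM] at e1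
    have e2 : (κ l₁ * ∑ j, (l₂ j : ℝ) * X' j) * bm t₀ X' =
        (κ l₂ * ∑ j, (l₁ j : ℝ) * X' j) * bm t₀ X' := by
      rw [Finset.mul_sum, Finset.mul_sum, Finset.sum_mul, Finset.sum_mul]
      calc ∑ i, κ l₁ * ((l₂ i : ℝ) * X' i) * bm t₀ X'
          = ∑ i, (l₂ i : ℝ) * (κ l₁ * (X' i * bm t₀ X')) :=
            Finset.sum_congr rfl fun i _ => by ring
        _ = ∑ i, (l₁ i : ℝ) * (κ l₂ * (X' i * bm t₀ X')) := e1
        _ = ∑ i, κ l₂ * ((l₁ i : ℝ) * X' i) * bm t₀ X' :=
            Finset.sum_congr rfl fun i _ => by ring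
    exact mul_right_cancel₀ ht₀ e2
  -- a small vector of x^⊥ not orthogonal to x'
  obtain ⟨l₁, hl₁, hl₁x, hl₁x'⟩ : ∃ l : Fin N → ℤ, (∀ j, (l j).natAbs ≤ μ) ∧
      ∑ j, l j * x j = 0 ∧ ∑ j, (l j : ℝ) * X' j ≠ 0 := by
    by_contra hcon
    push Not at hcon
    obtain ⟨t, ht⟩ := h X' (by
      intro l hl hlx
      rw [← hcon l hl hlx]
      exact Finset.sum_congr rfl fun j _ => mul_comm _ _)
    apply hpq
    have h1 : ((x p * x' q - x q * x' p : ℤ) : ℝ) = 0 := by
      push_cast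
      have hq : (x' q : ℝ) = t * (x q : ℝ) := ht q
      have hp : (x' p : ℝ) = t * (x p : ℝ) := ht p
      rw [hq, hp]
      ring
    exact_mod_cast h1
  set α : ℝ := κ l₁ / ∑ j, (l₁ j : ℝ) * X' j with hαdef
  have hκα : ∀ l : Fin N → ℤ, (∀ j, (l j).natAbs ≤ μ) → ∑ j, l j * x j = 0 →
      κ l = α * ∑ j, (l j : ℝ) * X' j := by
    intro l hl hlx
    have h1 := hsym l₁ l hl₁ hl₁x hl hlx
    rw [hαdef]
    field_simp
    linarith
  obtain ⟨β, hβ⟩ := core1 (D := D + 1) μ x hx h (fun s => φ s - α * bm s X') (by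
    intro l hl hlx r
    have h1 := hκ l hl hlx r
    rw [hκα l hl hlx] at h1
    have h2 : ∑ j, (l j : ℝ) * (φ (addM r j) - α * bm (addM r j) X') =
        ∑ j, (l j : ℝ) * φ (addM r j) - α * (∑ j, (l j : ℝ) * X' j) * bm r X' := by
      simp only [bm_addM, mul_sub, Finset.sum_sub_distrib]
      congr 1
      rw [Finset.mul_sum, Finset.sum_mul]
      exact Finset.sum_congr rfl fun i _ => by ring
    rw [h2, h1]
    ring)
  refine ⟨β, α, fun s => ?_⟩
  have h1 : φ s - α * bm s X' = β * bm s X := hβ s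
  rw [bm_cast, bm_cast]
  linarith

end Pool.Agent.HP
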