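import Pool.Agent.Lib.MP_fc0680_nt.Defs

/-!
# MP_fc0680_nt, module UPPER

Upper bounds for lattice point counts (coset argument).
-/

set_option autoImplicit false

open Finset

namespace Pool.Agent.HP

/-- General counting lemma: coordinates in `T` are determined by the others and the class. -/
theorem upper_gen {ι K A : Type} [Fintype ι] [DecidableEq ι] [Fintype K] [AddCommGroup A]
    [DecidableEq A] (Φ : (ι → ℤ) →+ A) (T : Finset ι) (z : K → ι → ℤ) (ρ H : ℕ) (w : A)
    (hzρ : ∀ κ j, (z κ j).natAbs ≤ ρ)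
    (hinj : ∀ y : ι → ℤ, (∀ j, j ∉ T → y j = 0) → Φ y = 0 → y = 0)
    (hcl : ∀ κ κ' y, (∀ j, j ∉ T → y j = 0) → Φ y = Φ (z κ) - Φ (z κ') → κ = κ') :
    ((box ι H).filter fun c => Φ c = w).card * Fintype.card K ≤
      (2 * (H + ρ) + 1) ^ (Fintype.card ι - T.card) := by
  classical
  have hcard : (box {j : ι // j ∉ T} (H + ρ)).card =
      (2 * (H + ρ) + 1) ^ (Fintype.card ι - T.card) := by
    unfold box
    rw [Fintype.card_piFinset]
    simp only [Int.card_Icc, Finset.prod_const, Finset.card_univ]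
    congr 1
    · push_cast
      omega
    · rw [Fintype.card_subtype_compl]
      simp
  rw [← hcard, ← Finset.card_univ, ← Finset.card_product]
  refine Finset.card_le_card_of_injOn
    (fun p => fun j : {j : ι // j ∉ T} => p.1 j.1 + z p.2 j.1) ?_ ?_
  · rintro ⟨c, κ⟩ hc
    simp only [Finset.coe_product, Set.mem_prod, Finset.mem_coe, Finset.mem_filter] at hc
    obtain ⟨⟨hc1, _⟩, _⟩ := hc
    simp only [box, Fintype.mem_piFinset, Finset.mem_Icc] at hc1
    simp only [box, Finset.mem_coe, Fintype.mem_piFinset, Finset.mem_Icc]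
    intro j
    have h1 := hc1 j.1
    have h2 := hzρ κ j.1
    push_cast
    constructor <;> omega
  · rintro ⟨c, κ⟩ hc ⟨c', κ'⟩ hc' h
    simp only [Finset.coe_product, Set.mem_prod, Finset.mem_coe, Finset.mem_filter] at hc hc'
    obtain ⟨⟨_, hw⟩, _⟩ := hc
    obtain ⟨⟨_, hw'⟩, _⟩ := hc'
    have hy0 : ∀ j, j ∉ T → (c + z κ - (c' + z κ')) j = 0 := by
      intro j hj
      have := congrFun h ⟨j, hj⟩
      simp only at this
      simp only [Pi.sub_apply, Pi.add_apply]
      omega
    have hκ : κ' = κ := by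
      refine hcl κ' κ (-(c + z κ - (c' + z κ'))) (fun j hj => ?_) ?_
      · rw [Pi.neg_apply, hy0 j hj, neg_zero]
      · rw [map_neg, map_sub, map_add, map_add, hw, hw']
        abel
    subst hκ
    have h0 : c + z κ' - (c' + z κ') = 0 := by
      refine hinj _ hy0 ?_
      rw [map_sub, map_add, map_add, hw, hw']
      abel
    have : c = c' := by
      have h1 : c - c' = 0 := by
        rw [← h0]
        abel
      exact sub_eq_zero.mp h1
    rw [this]

/-- Representatives of classes with small entries, and the count. -/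
theorem upper_gen' {ι K A : Type} [Fintype ι] [DecidableEq ι] [Fintype K] [AddCommGroup A]
    [DecidableEq A] (Φ : (ι → ℤ) →+ A) (T : Finset ι) (c0 : K → ι → ℤ) (ρ H : ℕ) (w : A)
    (hcov : ∀ c : ι → ℤ, ∃ v : ι → ℝ, (∀ j, j ∉ T → v j = c j) ∧
      ∃ b : ι → ℤ, Φ b = 0 ∧ ∀ i, |v i - (b i : ℝ)| ≤ ρ)
    (hinj : ∀ y : ι → ℤ, (∀ j, j ∉ T → y j = 0) → Φ y = 0 → y = 0)
    (hcl : ∀ κ κ' y, (∀ j, j ∉ T → y j = 0) → Φ y = Φ (c0 κ) - Φ (c0 κ') → κ = κ') :
    ((box ι H).filter fun c => Φ c = w).card * Fintype.card K ≤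
      (2 * (H + ρ) + 1) ^ (Fintype.card ι - T.card) := by
  have key : ∀ c : ι → ℤ, ∃ z y : ι → ℤ, (∀ j, (z j).natAbs ≤ ρ) ∧
      (∀ j, j ∉ T → y j = 0) ∧ Φ z = Φ c + Φ y := by
    intro c
    obtain ⟨v, hv, b, hb0, hb⟩ := hcov c
    refine ⟨fun j => if j ∈ T then 0 else c j - b j, fun j => if j ∈ T then -(c j - b j) else 0,
      ?_, ?_, ?_⟩
    · intro j
      by_cases hj : j ∈ T
      · simp [hj]
      · simp only [hj, if_false]
        have h1 := hb j
        rw [hv j hj] at h1
        have h2 : |((c j - b j : ℤ) : ℝ)| ≤ ρ := by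
          push_cast
          exact h1
        rw [← Int.cast_abs] at h2
        have h3 : |c j - b j| ≤ (ρ : ℤ) := by exact_mod_cast h2
        have h4 := abs_le.mp h3
        omega
    · intro j hj
      simp [hj]
    · have : (fun j => if j ∈ T then 0 else c j - b j) =
          c - b + (fun j => if j ∈ T then -(c j - b j) else 0) := by
        funext j
        by_cases hj : j ∈ T <;> simp [hj]
      rw [this, map_add, map_sub, hb0, sub_zero]
  choose z y hzρ hy0 hzy using key
  refine upper_gen Φ T (fun κ => z (c0 κ)) ρ H w (fun κ => hzρ _) hinj ?_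
  intro κ κ' x hx hΦ
  refine hcl κ κ' (x - y (c0 κ) + y (c0 κ')) (fun j hj => ?_) ?_
  · simp [hx j hj, hy0 _ j hj]
  · rw [map_add, map_sub, hΦ, hzy, hzy]
    abel

theorem upper1 {ι : Type} [Fintype ι] [DecidableEq ι] (m : ι → ℤ) (s : ι) (ρ : ℕ) (hc : Cov1 ρ m)
    (h1 : ∃ b : ι → ℤ, ∑ i, b i * m i = 1) (H : ℕ) (w : ℤ) :
    ((box ι H).filter fun c => ∑ i, c i * m i = w).card * (m s).natAbs ≤
      (2 * (H + ρ) + 1) ^ (Fintype.card ι - 1) := by
  by_cases hs : m s = 0
  · simp [hs]
  obtain ⟨b, hb⟩ := h1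
  let Φ : (ι → ℤ) →+ ℤ :=
    { toFun := fun c => ∑ i, c i * m i
      map_zero' := by simp
      map_add' := fun x y => by simp [add_mul, Finset.sum_add_distrib] }
  have hΦ : ∀ c, Φ c = ∑ i, c i * m i := fun c => rfl
  have hsup : ∀ y : ι → ℤ, (∀ j, j ∉ ({s} : Finset ι) → y j = 0) → Φ y = y s * m s := by
    intro y hy
    rw [hΦ]
    refine Finset.sum_eq_single s (fun j _ hj => ?_) (fun h => absurd (Finset.mem_univ s) h)
    rw [hy j (by simpa using hj), zero_mul]
  have hsms : (m s : ℝ) ≠ 0 := by exact_mod_cast hs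
  have := upper_gen' Φ {s} (fun κ : Fin (m s).natAbs => fun i => (κ : ℤ) * b i) ρ H w ?_ ?_ ?_
  · simpa [hΦ] using this
  · intro c
    let v : ι → ℝ := fun j => if j = s then -(∑ i ∈ univ.erase s, (c i : ℝ) * m i) / m s else c j
    have hv0 : ∑ i, v i * (m i : ℝ) = 0 := by
      rw [← Finset.add_sum_erase _ _ (Finset.mem_univ s)]
      have h1 : ∑ i ∈ univ.erase s, v i * (m i : ℝ) = ∑ i ∈ univ.erase s, (c i : ℝ) * m i := by
        refine Finset.sum_congr rfl fun i hi => ?_
        have : i ≠ s := (Finset.mem_erase.mp hi).1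
        simp [v, this]
      rw [h1]
      simp only [v, if_true]
      field_simp
      ring
    obtain ⟨b', hb', hb''⟩ := hc v hv0
    exact ⟨v, fun j hj => by simp only [v]; rw [if_neg (by simpa using hj)], b', hb', hb''⟩
  · intro y hy h0
    rw [hsup y hy] at h0
    have hys : y s = 0 := by
      rcases mul_eq_zero.mp h0 with h | h
      · exact h
      · exact absurd h hs
    funext j
    by_cases hj : j = s
    · rw [hj, hys]; rfl
    · exact hy j (by simpa using hj)
  · intro κ κ' y hy h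
    rw [hsup y hy] at h
    have e : ∀ κ : Fin (m s).natAbs, Φ (fun i => (κ : ℤ) * b i) = κ := by
      intro κ
      rw [hΦ]
      have : ∀ i, (κ : ℤ) * b i * m i = (κ : ℤ) * (b i * m i) := fun i => by ring
      simp_rw [this]
      rw [← Finset.mul_sum, hb, mul_one]
    rw [e, e] at h
    have h2 : (m s) ∣ ((κ : ℤ) - κ') := ⟨y s, by rw [← h]; ring⟩
    have h3 : ((κ : ℤ) - κ') = 0 := by
      refine Int.eq_zero_of_abs_lt_dvd (Int.natAbs_dvd.mpr h2) ?_
      have := κ.2
      have := κ'.2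
      rw [abs_lt]
      constructor <;> omega
    apply Fin.ext
    omega

/-- The index of the lattice generated by the columns of a matrix. -/
theorem card_quot_toLin (M : Matrix (Fin 2) (Fin 2) ℤ) (hM : M.det ≠ 0) :
    (LinearMap.range (Matrix.toLin' M)).toAddSubgroup.index = M.det.natAbs := by
  have hinj : Function.Injective (Matrix.toLin' M) := by
    rw [← LinearMap.ker_eq_bot]
    rw [Matrix.ker_toLin'_eq_bot_iff]
    intro v hv
    by_contra hne
    exact hM (Matrix.exists_mulVec_eq_zero_iff.mp ⟨v, hne, hv⟩)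
  have h := Submodule.natAbs_det_equiv (LinearMap.range (Matrix.toLin' M))
    (LinearEquiv.ofInjective (Matrix.toLin' M) hinj)
  have h2 : (LinearMap.range (Matrix.toLin' M)).subtype ∘ₗ
      AddMonoidHom.toIntLinearMap
        (((LinearEquiv.ofInjective (Matrix.toLin' M) hinj) : (Fin 2 → ℤ) ≃ₗ[ℤ] _) :
          (Fin 2 → ℤ) →+ _) = Matrix.toLin' M := by
    ext x
    rfl
  rw [h2, LinearMap.det_toLin'] at h
  rw [h]
  rfl

theorem upper2 {ι : Type} [Fintype ι] [DecidableEq ι] (m m' : ι → ℤ) (s s' : ι) (ρ G : ℕ)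
    (hc : Cov2 ρ m m') (hG : 0 < G)
    (h1 : ∃ b : ι → ℤ, ∑ i, b i * m i = 1)
    (h2 : ∃ b : ι → ℤ, ∑ i, b i * m i = 0 ∧ ∑ i, b i * m' i = G) (H : ℕ) (w w' : ℤ) :
    ((box ι H).filter fun c => ∑ i, c i * m i = w ∧ ∑ i, c i * m' i = w').card *
      (m s * m' s' - m s' * m' s).natAbs ≤ G * (2 * (H + ρ) + 1) ^ (Fintype.card ι - 2) := by
  classical
  by_cases hD : m s * m' s' - m s' * m' s = 0
  · simp [hD]
  have hss : s ≠ s' := by
    rintro rfl
    apply hD
    ring
  let Φ : (ι → ℤ) →+ (Fin 2 → ℤ) :=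
    { toFun := fun c => ![∑ i, c i * m i, ∑ i, c i * m' i]
      map_zero' := by
        funext i
        fin_cases i <;> simp
      map_add' := fun x y => by
        funext i
        fin_cases i <;> simp [add_mul, Finset.sum_add_distrib] }
  have hΦ : ∀ c, Φ c = ![∑ i, c i * m i, ∑ i, c i * m' i] := fun c => rfl
  let M : Matrix (Fin 2) (Fin 2) ℤ := !![m s, m s'; m' s, m' s']
  have hMdet : M.det = m s * m' s' - m s' * m' s := by
    simp [M, Matrix.det_fin_two]
  have hM : M.det ≠ 0 := by rw [hMdet]; exact hD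
  have hsup : ∀ y : ι → ℤ, (∀ j, j ∉ ({s, s'} : Finset ι) → y j = 0) →
      Φ y = Matrix.toLin' M ![y s, y s'] := by
    intro y hy
    have hsum : ∀ f : ι → ℤ, ∑ i, y i * f i = y s * f s + y s' * f s' := by
      intro f
      rw [← Finset.sum_pair (f := fun i => y i * f i) hss]
      refine (Finset.sum_subset (Finset.subset_univ _) fun j _ hj => ?_).symm
      rw [hy j hj, zero_mul]
    rw [hΦ, hsum, hsum]
    funext i
    fin_cases i
    · simp [M, Matrix.mulVec, dotProduct, Fin.sum_univ_two]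
      ring
    · simp [M, Matrix.mulVec, dotProduct, Fin.sum_univ_two]
      ring
  let D : AddSubgroup (Fin 2 → ℤ) := (LinearMap.range (Matrix.toLin' M)).toAddSubgroup
  have hDidx : D.index = (m s * m' s' - m s' * m' s).natAbs := by
    rw [← hMdet]
    exact card_quot_toLin M hM
  let L : AddSubgroup (Fin 2 → ℤ) := Φ.range
  have hDL : D ≤ L := by
    rintro x ⟨v, rfl⟩
    refine ⟨fun j => if j = s then v 0 else if j = s' then v 1 else 0, ?_⟩
    rw [hsup]
    · congr 1
      funext i
      fin_cases i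
      · simp
      · simp [hss.symm]
    · intro j hj
      simp only [Finset.mem_insert, Finset.mem_singleton, not_or] at hj
      simp [hj.1, hj.2]
  have hLidx : L.index ≤ G := by
    obtain ⟨b, hb⟩ := h1
    obtain ⟨b2, hb2, hb2'⟩ := h2
    let M' : Matrix (Fin 2) (Fin 2) ℤ := !![1, 0; ∑ i, b i * m' i, (G : ℤ)]
    have hM'det : M'.det = G := by simp [M', Matrix.det_fin_two]
    have hM' : M'.det ≠ 0 := by rw [hM'det]; exact_mod_cast hG.ne'
    have hle : (LinearMap.range (Matrix.toLin' M')).toAddSubgroup ≤ L := by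
      rintro x ⟨v, rfl⟩
      refine ⟨v 0 • b + v 1 • b2, ?_⟩
      rw [map_add, map_zsmul, map_zsmul, hΦ, hΦ, hb, hb2, hb2']
      funext i
      fin_cases i
      · simp [M', Matrix.mulVec, dotProduct, Fin.sum_univ_two]
      · simp [M', Matrix.mulVec, dotProduct, Fin.sum_univ_two]
        ring
    have hidx := card_quot_toLin M' hM'
    rw [hM'det, Int.natAbs_natCast] at hidx
    have hdvd := AddSubgroup.index_dvd_of_le hle
    rw [hidx] at hdvd
    exact Nat.le_of_dvd hG hdvd
  have hrel : D.relIndex L * L.index = D.index := AddSubgroup.relIndex_mul_index hDL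
  have hDpos : D.index ≠ 0 := by
    rw [hDidx]
    exact Int.natAbs_ne_zero.mpr hD
  have hrelpos : D.relIndex L ≠ 0 := fun h => hDpos (by rw [← hrel, h, zero_mul])
  let K : Type := L ⧸ D.addSubgroupOf L
  have : Finite K := by
    apply Nat.finite_of_card_ne_zero
    exact hrelpos
  have : Fintype K := Fintype.ofFinite K
  have hK : Fintype.card K = D.relIndex L := by
    rw [← Nat.card_eq_fintype_card]
    rfl
  have hrep : ∀ κ : K, ∃ c : ι → ℤ, ∃ l : L, (l : Fin 2 → ℤ) = Φ c ∧
      (QuotientAddGroup.mk l : L ⧸ D.addSubgroupOf L) = κ := by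
    intro κ
    obtain ⟨l, hl⟩ := QuotientAddGroup.mk_surjective κ
    obtain ⟨c, hc⟩ := l.2
    exact ⟨c, l, hc.symm, hl⟩
  choose c0 l hl hlκ using hrep
  have hmain := upper_gen' Φ {s, s'} c0 ρ H ![w, w'] ?_ ?_ ?_
  · rw [hK, Finset.card_pair hss] at hmain
    have hfil : ((box ι H).filter fun c => Φ c = ![w, w']) =
        ((box ι H).filter fun c => ∑ i, c i * m i = w ∧ ∑ i, c i * m' i = w') := by
      refine Finset.filter_congr fun c _ => ?_
      rw [hΦ]
      constructor
      · intro h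
        exact ⟨by simpa using congrFun h 0, by simpa using congrFun h 1⟩
      · rintro ⟨h1, h2⟩
        rw [h1, h2]
    rw [hfil] at hmain
    rw [← hDidx, ← hrel]
    calc _ = _ * D.relIndex L * L.index := by ring
      _ ≤ (2 * (H + ρ) + 1) ^ (Fintype.card ι - 2) * G := Nat.mul_le_mul hmain hLidx
      _ = _ := by ring
  · intro c
    have hΔ : ((m s : ℝ) * m' s' - m s' * m' s) ≠ 0 := by exact_mod_cast hD
    let p : ℝ := ∑ i ∈ (univ.erase s).erase s', (c i : ℝ) * m i
    let q : ℝ := ∑ i ∈ (univ.erase s).erase s', (c i : ℝ) * m' i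
    let vs : ℝ := (-p * m' s' + q * m s') / ((m s : ℝ) * m' s' - m s' * m' s)
    let vs' : ℝ := (-q * m s + p * m' s) / ((m s : ℝ) * m' s' - m s' * m' s)
    let v : ι → ℝ := fun j => if j = s then vs else if j = s' then vs' else c j
    have hsplit : ∀ f : ι → ℤ, ∑ i, v i * (f i : ℝ) =
        vs * f s + (vs' * f s' + ∑ i ∈ (univ.erase s).erase s', (c i : ℝ) * f i) := by
      intro f
      rw [← Finset.add_sum_erase _ _ (Finset.mem_univ s),
        ← Finset.add_sum_erase (univ.erase s) _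
          (Finset.mem_erase.mpr ⟨hss.symm, Finset.mem_univ s'⟩)]
      have e1 : v s = vs := by simp [v]
      have e2 : v s' = vs' := by simp [v, hss.symm]
      rw [e1, e2]
      congr 2
      refine Finset.sum_congr rfl fun i hi => ?_
      have hi2 := (Finset.mem_erase.mp hi).1
      have hi1 := (Finset.mem_erase.mp (Finset.mem_erase.mp hi).2).1
      simp [v, hi1, hi2]
    have e1 : vs * ((m s : ℝ) * m' s' - m s' * m' s) = -p * m' s' + q * m s' :=
      div_mul_cancel₀ _ hΔ
    have e2 : vs' * ((m s : ℝ) * m' s' - m s' * m' s) = -q * m s + p * m' s :=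
      div_mul_cancel₀ _ hΔ
    have hv0 : ∑ i, v i * (m i : ℝ) = 0 := by
      rw [hsplit]
      change vs * m s + (vs' * m s' + p) = 0
      refine (mul_eq_zero.mp ?_).resolve_left hΔ
      linear_combination (m s : ℝ) * e1 + (m s' : ℝ) * e2
    have hv1 : ∑ i, v i * (m' i : ℝ) = 0 := by
      rw [hsplit]
      change vs * m' s + (vs' * m' s' + q) = 0
      refine (mul_eq_zero.mp ?_).resolve_left hΔ
      linear_combination (m' s : ℝ) * e1 + (m' s' : ℝ) * e2
    obtain ⟨b', hb', hb'', hb3⟩ := hc v hv0 hv1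
    refine ⟨v, fun j hj => ?_, b', ?_, hb3⟩
    · simp only [Finset.mem_insert, Finset.mem_singleton, not_or] at hj
      simp [v, hj.1, hj.2]
    · rw [hΦ, hb', hb'']
      funext i
      fin_cases i <;> simp
  · intro y hy h0
    rw [hsup y hy] at h0
    have hv : (![y s, y s'] : Fin 2 → ℤ) = 0 := by
      by_contra hne
      exact hM (Matrix.exists_mulVec_eq_zero_iff.mp ⟨_, hne, by simpa using h0⟩)
    have hys : y s = 0 := by simpa using congrFun hv 0
    have hys' : y s' = 0 := by simpa using congrFun hv 1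
    funext j
    by_cases hj : j = s
    · rw [hj, hys]; rfl
    by_cases hj' : j = s'
    · rw [hj', hys']; rfl
    · exact hy j (by simp [hj, hj'])
  · intro κ κ' y hy h
    rw [hsup y hy, ← hl, ← hl] at h
    rw [← hlκ κ, ← hlκ κ']
    symm
    rw [QuotientAddGroup.eq]
    rw [AddSubgroup.mem_addSubgroupOf]
    refine ⟨![y s, y s'], ?_⟩
    rw [h]
    push_cast
    abel

end Pool.Agent.HP
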