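import Pool.Agent.Lib.MP_fc0680_nt.Defs
import Pool.Agent.Lib.MP_fc0680_nt.Upper
import Pool.Agent.Lib.MP_fc0680_nt.CovDual
import Pool.Agent.Lib.MP_fc0680_nt.SpanBm
import Pool.Agent.Lib.MP_fc0680_nt.SpanProd
import Pool.Agent.Lib.MP_fc0680_nt.Bez

/-!
# MP_fc0680_nt : number of forms with a prescribed value at one point
-/

set_option autoImplicit false
open Finset Filter

namespace Pool.Agent.HP

theorem fib_mem_box {ι : Type} [Fintype ι] [DecidableEq ι] (H : ℕ) (c : ι → ℤ) :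
    c ∈ box ι H ↔ ∀ i, (c i).natAbs ≤ H := by
  unfold box
  rw [Fintype.mem_piFinset]
  refine forall_congr' fun i => ?_
  rw [Finset.mem_Icc]
  omega

theorem fib_abs_sum_le {ι : Type} [Fintype ι] (f : ι → ℤ) (M : ℕ)
    (h : ∀ i, (f i).natAbs ≤ M) : (∑ i, f i).natAbs ≤ Fintype.card ι * M := by
  have h1 : |∑ i, f i| ≤ ∑ i, |f i| := Finset.abs_sum_le_sum_abs _ _
  have h2 : ∑ i, |f i| ≤ ∑ _i : ι, (M : ℤ) := by
    refine Finset.sum_le_sum fun i _ => ?_
    have := h i
    rw [← Int.natCast_natAbs]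
    exact_mod_cast this
  rw [Finset.sum_const, Finset.card_univ, nsmul_eq_mul] at h2
  have h3 := h1.trans h2
  have h4 : ((∑ i, f i).natAbs : ℤ) ≤ ((Fintype.card ι * M : ℕ) : ℤ) := by
    rw [Int.natCast_natAbs]
    push_cast
    exact h3
  exact_mod_cast h4

theorem fib {A B : Type} [Fintype A] [Fintype B] [DecidableEq A] [DecidableEq B] (τ : A → ℤ)
    (T : ℕ) (hτ : ∀ a, (τ a).natAbs ≤ T) (h1 : ∃ b : A → ℤ, ∑ a, b a * τ a = 1) (a : A)
    (H : ℕ) (Q : (B → ℤ) → Prop) [DecidablePred Q] :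
    ((box (A × B) H).filter fun c => Q (fun s => ∑ a, c (a, s) * τ a)).card *
      (τ a).natAbs ^ Fintype.card B ≤
      ((box B (Fintype.card A * T * H)).filter fun g => Q g).card *
      ((2 * (H + Fintype.card A * T) + 1) ^ (Fintype.card A - 1)) ^ Fintype.card B := by
  have hcov : Cov1 (Fintype.card A * T) τ := by
    apply cov1_of_dual1
    apply dual1_unimod τ T hτ
    obtain ⟨b, hb⟩ := h1
    by_contra hcon
    push Not at hcon
    simp [hcon] at hb
  have hmaps : ∀ c ∈ (box (A × B) H).filter (fun c => Q (fun s => ∑ a, c (a, s) * τ a)),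
      (fun s => ∑ a, c (a, s) * τ a) ∈
        (box B (Fintype.card A * T * H)).filter (fun g => Q g) := by
    intro c hc
    rw [Finset.mem_filter] at hc ⊢
    refine ⟨?_, hc.2⟩
    rw [fib_mem_box]
    intro s
    have h2 := fib_abs_sum_le (fun a => c (a, s) * τ a) (T * H) (by
      intro a
      rw [Int.natAbs_mul, mul_comm]
      exact Nat.mul_le_mul (hτ a) ((fib_mem_box H c).1 hc.1 (a, s)))
    rw [← mul_assoc] at h2
    exact h2
  rw [Finset.card_eq_sum_card_fiberwise hmaps, Finset.sum_mul]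
  have hfib : ∀ g : B → ℤ, ((((box (A × B) H).filter
      (fun c => Q (fun s => ∑ a, c (a, s) * τ a))).filter
        (fun c => (fun s => ∑ a, c (a, s) * τ a) = g)).card) * (τ a).natAbs ^ Fintype.card B ≤
      ((2 * (H + Fintype.card A * T) + 1) ^ (Fintype.card A - 1)) ^ Fintype.card B := by
    intro g
    have h2 : ((((box (A × B) H).filter
        (fun c => Q (fun s => ∑ a, c (a, s) * τ a))).filter
        (fun c => (fun s => ∑ a, c (a, s) * τ a) = g)).card) ≤
        ∏ s, ((box A H).filter fun u => ∑ a, u a * τ a = g s).card := by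
      rw [← Fintype.card_piFinset]
      refine Finset.card_le_card_of_injOn (fun c s a => c (a, s)) ?_ ?_
      · intro c hc
        rw [Finset.mem_coe, Finset.mem_filter, Finset.mem_filter] at hc
        rw [Finset.mem_coe, Fintype.mem_piFinset]
        intro s
        rw [Finset.mem_filter]
        refine ⟨?_, congrFun hc.2 s⟩
        rw [fib_mem_box]
        intro a
        exact (fib_mem_box H c).1 hc.1.1 (a, s)
      · intro c _ c' _ h
        funext x
        exact congrFun (congrFun h x.2) x.1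
    calc _ ≤ (∏ s, ((box A H).filter fun u => ∑ a, u a * τ a = g s).card) *
          (τ a).natAbs ^ Fintype.card B := Nat.mul_le_mul_right _ h2
      _ = ∏ s, (((box A H).filter fun u => ∑ a, u a * τ a = g s).card * (τ a).natAbs) := by
        rw [Finset.prod_mul_distrib, Finset.prod_const, Finset.card_univ]
      _ ≤ ∏ _s : B, (2 * (H + Fintype.card A * T) + 1) ^ (Fintype.card A - 1) :=
        Finset.prod_le_prod' fun s _ => upper1 τ a _ hcov h1 H (g s)
      _ = _ := by rw [Finset.prod_const, Finset.card_univ]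
  refine (Finset.sum_le_sum fun g _ => hfib g).trans ?_
  rw [Finset.sum_const, smul_eq_mul]

/-- The abstract form of `pb_diag`. -/
theorem fib_diag_core {A B : Type} [Fintype A] [Fintype B] [DecidableEq A] [DecidableEq B]
    (τ : A → ℤ) (ν : B → ℤ) (T μ : ℕ) (hT : 1 ≤ T) (hτ : ∀ a, (τ a).natAbs ≤ T)
    (h1 : ∃ b : A → ℤ, ∑ a, b a * τ a = 1) (h2 : ∃ b : B → ℤ, ∑ s, b s * ν s = 1)
    (hν : Dual1 μ ν) (a : A) (s : B) (p q Y : ℕ) (hp : T ≤ 2 ^ p * (τ a).natAbs)
    (hq : Y ≤ 2 ^ q * (ν s).natAbs) (H : ℕ)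
    (hAT : Fintype.card A * T ≤ H) (hBμ : Fintype.card B * μ ≤ H * T) (w : ℤ) :
    ((box (A × B) H).filter fun c => ∑ x, c x * (τ x.1 * ν x.2) = w).card * (H * (T * Y)) ≤
      (2 ^ (p * Fintype.card B + q) * (Fintype.card A + 1) ^ (Fintype.card B - 1) *
        (2 ^ (Fintype.card A - 1)) ^ Fintype.card B) *
      (2 * H + 1) ^ (Fintype.card A * Fintype.card B) := by
  have hcov : Cov1 (Fintype.card B * μ) ν := cov1_of_dual1 ν μ hν
  have hf := fib τ T hτ h1 a H (fun g : B → ℤ => ∑ s, g s * ν s = w)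
  have hg := upper1 ν s _ hcov h2 (Fintype.card A * T * H) w
  have heq : ((box (A × B) H).filter fun c => ∑ x, c x * (τ x.1 * ν x.2) = w) =
      ((box (A × B) H).filter fun c => ∑ s, (∑ a, c (a, s) * τ a) * ν s = w) := by
    apply Finset.filter_congr
    intro c _
    have : ∑ x : A × B, c x * (τ x.1 * ν x.2) = ∑ s, (∑ a, c (a, s) * τ a) * ν s := by
      rw [Fintype.sum_prod_type_right]
      refine Finset.sum_congr rfl fun s _ => ?_
      rw [Finset.sum_mul]
      exact Finset.sum_congr rfl fun a _ => by ring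
    rw [this]
  rw [heq]
  obtain ⟨α, hα⟩ : ∃ α, Fintype.card A = α + 1 := by
    have : 0 < Fintype.card A := Fintype.card_pos_iff.2 ⟨a⟩
    exact ⟨Fintype.card A - 1, by omega⟩
  obtain ⟨β, hβ⟩ : ∃ β, Fintype.card B = β + 1 := by
    have : 0 < Fintype.card B := Fintype.card_pos_iff.2 ⟨s⟩
    exact ⟨Fintype.card B - 1, by omega⟩
  rw [hα] at hf hg hAT ⊢
  rw [hβ] at hf hg hBμ ⊢
  simp only [Nat.add_sub_cancel] at hf hg ⊢
  set N := ((box (A × B) H).filter fun c => ∑ s, (∑ a, c (a, s) * τ a) * ν s = w).card with hN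
  set G := ((box B ((α + 1) * T * H)).filter fun g => ∑ s, g s * ν s = w).card with hG
  -- first factor
  have e1 : 2 * (H + (α + 1) * T) + 1 ≤ 2 * (2 * H + 1) := by omega
  have e2 : 2 * ((α + 1) * T * H + (β + 1) * μ) + 1 ≤ (α + 1 + 1) * T * (2 * H + 1) := by
    have : (α + 1) * T * H + (β + 1) * μ ≤ (α + 1 + 1) * T * H := by
      calc (α + 1) * T * H + (β + 1) * μ ≤ (α + 1) * T * H + H * T := by omega
        _ = (α + 1 + 1) * T * H := by ring
    have h3 : 1 ≤ (α + 1 + 1) * T := Nat.one_le_iff_ne_zero.2 (by positivity)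
    nlinarith
  have hf2 : N * (τ a).natAbs ^ (β + 1) ≤ G * ((2 * (2 * H + 1)) ^ α) ^ (β + 1) :=
    hf.trans (Nat.mul_le_mul_left _ (Nat.pow_le_pow_left (Nat.pow_le_pow_left e1 _) _))
  have hg2 : G * (ν s).natAbs ≤ ((α + 1 + 1) * T * (2 * H + 1)) ^ β :=
    hg.trans (Nat.pow_le_pow_left e2 _)
  have key : N * (T * Y) * T ^ β ≤
      (2 ^ (p * (β + 1) + q) * (α + 1 + 1) ^ β * (2 ^ α) ^ (β + 1) *
        (2 * H + 1) ^ (β + α * (β + 1))) * T ^ β := by
    calc N * (T * Y) * T ^ β = N * T ^ (β + 1) * Y := by ring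
      _ ≤ N * (2 ^ p * (τ a).natAbs) ^ (β + 1) * (2 ^ q * (ν s).natAbs) :=
        Nat.mul_le_mul (Nat.mul_le_mul_left _ (Nat.pow_le_pow_left hp _)) hq
      _ = 2 ^ (p * (β + 1) + q) * ((N * (τ a).natAbs ^ (β + 1)) * (ν s).natAbs) := by
        rw [mul_pow, ← pow_mul, pow_add]; ring
      _ ≤ 2 ^ (p * (β + 1) + q) * ((G * ((2 * (2 * H + 1)) ^ α) ^ (β + 1)) * (ν s).natAbs) :=
        Nat.mul_le_mul_left _ (Nat.mul_le_mul_right _ hf2)
      _ = 2 ^ (p * (β + 1) + q) * ((G * (ν s).natAbs) * ((2 * (2 * H + 1)) ^ α) ^ (β + 1)) := by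
        ring
      _ ≤ 2 ^ (p * (β + 1) + q) * (((α + 1 + 1) * T * (2 * H + 1)) ^ β *
          ((2 * (2 * H + 1)) ^ α) ^ (β + 1)) :=
        Nat.mul_le_mul_left _ (Nat.mul_le_mul_right _ hg2)
      _ = _ := by
        simp only [mul_pow, pow_add, ← pow_mul]
        ring
  have hTβ : 0 < T ^ β := Nat.pos_of_ne_zero (by positivity)
  have key2 := Nat.le_of_mul_le_mul_right key hTβ
  calc N * (H * (T * Y)) = (N * (T * Y)) * H := by ring
    _ ≤ (2 ^ (p * (β + 1) + q) * (α + 1 + 1) ^ β * (2 ^ α) ^ (β + 1) *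
        (2 * H + 1) ^ (β + α * (β + 1))) * (2 * H + 1) :=
      Nat.mul_le_mul key2 (by omega)
    _ = _ := by
      have : (α + 1) * (β + 1) = (β + α * (β + 1)) + 1 := by ring
      rw [this, pow_succ (2 * H + 1)]
      ring

theorem fib_le_nrm {N : ℕ} (x : Fin N → ℤ) (j : Fin N) : (x j).natAbs ≤ nrm x :=
  Finset.le_sup (f := fun j => (x j).natAbs) (Finset.mem_univ j)

theorem fib_exists_nrm {N : ℕ} (x : Fin (N + 1) → ℤ) : ∃ j, (x j).natAbs = nrm x := by
  obtain ⟨j, _, hj⟩ := Finset.exists_mem_eq_sup (univ : Finset (Fin (N + 1)))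
    ⟨0, Finset.mem_univ _⟩ (fun j => (x j).natAbs)
  exact ⟨j, hj.symm⟩

theorem fib_bm_le {N D : ℕ} (s : Mon N D) (x : Fin N → ℤ) : (bm s x).natAbs ≤ nrm x ^ D := by
  unfold bm
  rw [← Int.natAbsHom_apply, map_prod]
  calc ∏ j, Int.natAbsHom (x j ^ (s.1 j : ℕ)) ≤ ∏ j, nrm x ^ (s.1 j : ℕ) := by
        refine Finset.prod_le_prod' fun j _ => ?_
        rw [Int.natAbsHom_apply, Int.natAbs_pow]
        exact Nat.pow_le_pow_left (fib_le_nrm x j) _
    _ = nrm x ^ D := by
        rw [Finset.prod_pow_eq_pow_sum, s.2]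

theorem fib_exists_pivot {N D X : ℕ} (x : Fin (N + 1) → ℤ) (h : X ≤ 2 * nrm x) :
    ∃ s : Mon (N + 1) D, X ^ D ≤ 2 ^ D * (bm s x).natAbs := by
  obtain ⟨j, hj⟩ := fib_exists_nrm x
  refine ⟨⟨fun l => if l = j then ⟨D, by omega⟩ else ⟨0, by omega⟩, ?_⟩, ?_⟩
  · rw [Finset.sum_eq_single j]
    · simp
    · intro l _ hl
      simp [hl]
    · simp
  · have : bm (⟨fun l => if l = j then ⟨D, by omega⟩ else ⟨0, by omega⟩, by
        rw [Finset.sum_eq_single j]
        · simp
        · intro l _ hl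
          simp [hl]
        · simp⟩ : Mon (N + 1) D) x = x j ^ D := by
      unfold bm
      rw [Finset.prod_eq_single j]
      · simp
      · intro l _ hl
        simp [hl]
      · simp
    rw [this, Int.natAbs_pow, hj, ← mul_pow]
    exact Nat.pow_le_pow_left h _

theorem fib_mono_split {k : ℕ} {n d : Fin k → ℕ} (i₀ : Fin k) (s : Exps n d) (P : Pt n ℤ) :
    mono s P = (∏ j : {j // j ≠ i₀}, bm (s j) (P j)) * bm (s i₀) (P i₀) := by
  unfold mono
  rw [Fintype.prod_eq_mul_prod_compl i₀, mul_comm]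
  congr 1
  refine (Finset.prod_subtype _ (fun x => ?_) _)
  simp

theorem pb_diag {k : ℕ} (n d : Fin k → ℕ) (i₀ : Fin k) (hn : ∀ i, 1 ≤ n i) (hd : ∀ i, 1 ≤ d i) :
    ∃ C : ℕ, 0 < C ∧ ∀ (X : Fin k → ℕ) (H μ : ℕ) (P : Pt n ℤ) (w : ℤ), 1 ≤ H → 1 ≤ μ →
    Shell X P → (∀ i, Umod (P i)) → GoodSpan μ (P i₀) →
    C * ∏ j ∈ univ.erase i₀, X j ^ d j ≤ H →
    C * μ ≤ H * ∏ j ∈ univ.erase i₀, X j ^ d j →
    (((box (Exps n d) H).filter fun c => evZ c P = w).card : ℝ) * (H * Sz d X) ≤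
      C * (2 * (H : ℝ) + 1) ^ Fintype.card (Exps n d) := by
  classical
  let A : Type := (j : {j // j ≠ i₀}) → Mon (n j + 1) (d j)
  let B : Type := Mon (n i₀ + 1) (d i₀)
  let p : ℕ := ∑ j : {j // j ≠ i₀}, d j
  let C0 : ℕ := 2 ^ (p * Fintype.card B + d i₀) * (Fintype.card A + 1) ^ (Fintype.card B - 1) *
        (2 ^ (Fintype.card A - 1)) ^ Fintype.card B
  let e : Exps n d ≃ A × B :=
    (Equiv.piSplitAt i₀ (fun i => Mon (n i + 1) (d i))).trans (Equiv.prodComm _ _)
  have hcard : Fintype.card (Exps n d) = Fintype.card A * Fintype.card B := by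
    rw [Fintype.card_congr e, Fintype.card_prod]
  refine ⟨C0 + Fintype.card A + Fintype.card B, ?_, ?_⟩
  · have : 0 < C0 := by positivity
    omega
  intro X H μ P w hH hμ hS hU hgs hCT hCμ
  set T : ℕ := ∏ j ∈ univ.erase i₀, X j ^ d j with hTdef
  have hTsub : T = ∏ j : {j // j ≠ i₀}, X j ^ d j := by
    rw [hTdef]
    refine Finset.prod_subtype _ (fun x => ?_) _
    simp
  have hX : ∀ i, 1 ≤ X i := by
    intro i
    have := hS i
    omega
  have hT : 1 ≤ T := Nat.one_le_iff_ne_zero.2 (by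
    rw [hTdef]
    refine Finset.prod_ne_zero_iff.2 fun j _ => ?_
    have := hX j
    positivity)
  let τ : A → ℤ := fun a => ∏ j : {j // j ≠ i₀}, bm (a j) (P j)
  let ν : B → ℤ := fun s => bm s (P i₀)
  have hmono : ∀ s : Exps n d, mono s P = τ (e s).1 * ν (e s).2 :=
    fun s => fib_mono_split i₀ s P
  have hτ : ∀ a, (τ a).natAbs ≤ T := by
    intro a
    rw [hTsub]
    change (∏ j : {j // j ≠ i₀}, bm (a j) (P j)).natAbs ≤ _
    rw [← Int.natAbsHom_apply, map_prod]
    refine Finset.prod_le_prod' fun j _ => ?_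
    rw [Int.natAbsHom_apply]
    exact (fib_bm_le _ _).trans (Nat.pow_le_pow_left (hS j).2 _)
  obtain ⟨b, hb⟩ := bez_one (d := d) P hU
  have hb' : ∑ x : A × B, b (e.symm x) * (τ x.1 * ν x.2) = 1 := by
    rw [← hb]
    unfold ev
    rw [← e.sum_comp]
    refine Finset.sum_congr rfl fun s _ => ?_
    rw [Equiv.symm_apply_apply, hmono]
  have h1 : ∃ b : A → ℤ, ∑ a, b a * τ a = 1 := by
    refine ⟨fun a => ∑ s, b (e.symm (a, s)) * ν s, ?_⟩
    rw [← hb', Fintype.sum_prod_type]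
    refine Finset.sum_congr rfl fun a _ => ?_
    rw [Finset.sum_mul]
    exact Finset.sum_congr rfl fun s _ => by ring
  have h2 : ∃ b : B → ℤ, ∑ s, b s * ν s = 1 := by
    refine ⟨fun s => ∑ a, b (e.symm (a, s)) * τ a, ?_⟩
    rw [← hb', Fintype.sum_prod_type_right]
    refine Finset.sum_congr rfl fun s _ => ?_
    rw [Finset.sum_mul]
    exact Finset.sum_congr rfl fun a _ => by ring
  have hP0 : P i₀ ≠ 0 := by
    intro h0
    obtain ⟨u, hu⟩ := hU i₀
    rw [h0] at hu
    simp at hu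
  have hν : Dual1 μ ν := dual1_bm μ hμ (hd i₀) (P i₀) hP0 hgs
  choose piv hpiv using fun i => fib_exists_pivot (D := d i) (X := X i) (P i) (hS i).1.le
  have hp : T ≤ 2 ^ p * (τ (fun j => piv j)).natAbs := by
    rw [hTsub]
    change _ ≤ 2 ^ (∑ j : {j // j ≠ i₀}, d j) *
      (∏ j : {j // j ≠ i₀}, bm (piv j) (P j)).natAbs
    rw [← Int.natAbsHom_apply, map_prod, ← Finset.prod_pow_eq_pow_sum, ← Finset.prod_mul_distrib]
    exact Finset.prod_le_prod' fun j _ => hpiv j
  have hq : X i₀ ^ d i₀ ≤ 2 ^ d i₀ * (ν (piv i₀)).natAbs := hpiv i₀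
  have hAT : Fintype.card A * T ≤ H := by
    refine le_trans (Nat.mul_le_mul_right _ ?_) hCT
    omega
  have hBμ : Fintype.card B * μ ≤ H * T := by
    refine le_trans (Nat.mul_le_mul_right _ ?_) hCμ
    omega
  have hmain := fib_diag_core τ ν T μ hT hτ h1 h2 hν (fun j => piv j) (piv i₀) p (d i₀)
    (X i₀ ^ d i₀) hp hq H hAT hBμ w
  have hle : ((box (Exps n d) H).filter fun c => evZ c P = w).card ≤
      ((box (A × B) H).filter fun c => ∑ x, c x * (τ x.1 * ν x.2) = w).card := by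
    refine Finset.card_le_card_of_injOn (fun c x => c (e.symm x)) ?_ ?_
    · intro c hc
      rw [Finset.mem_coe, Finset.mem_filter] at hc
      rw [Finset.mem_coe, Finset.mem_filter]
      refine ⟨?_, ?_⟩
      · rw [fib_mem_box]
        intro x
        exact (fib_mem_box H c).1 hc.1 _
      · rw [← hc.2]
        unfold evZ ev
        rw [← e.sum_comp]
        refine Finset.sum_congr rfl fun s _ => ?_
        change c (e.symm (e s)) * _ = c s * _
        rw [Equiv.symm_apply_apply, hmono]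
    · intro c _ c' _ h
      funext s
      have := congrFun h (e s)
      simpa using this
  have hSz : Sz d X = ((T * X i₀ ^ d i₀ : ℕ) : ℝ) := by
    unfold Sz
    rw [hTdef]
    push_cast
    rw [mul_comm, Finset.mul_prod_erase univ (fun i => (X i : ℝ) ^ d i) (Finset.mem_univ i₀)]
  rw [hSz, hcard]
  have hfin : ((box (Exps n d) H).filter fun c => evZ c P = w).card * (H * (T * X i₀ ^ d i₀)) ≤
      (C0 + Fintype.card A + Fintype.card B) *
        (2 * H + 1) ^ (Fintype.card A * Fintype.card B) := by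
    refine (Nat.mul_le_mul_right _ hle).trans (hmain.trans (Nat.mul_le_mul_right _ ?_))
    change C0 ≤ _
    omega
  exact_mod_cast hfin

end Pool.Agent.HP
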