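import Pool.Agent.Lib.MP_fc0680_nt.LocD

set_option autoImplicit false
open Finset Filter

namespace Pool.Agent.HP

namespace LocPos

/-- lower end of the region -/
def lo {ι : Type} [DecidableEq ι] (u1 : ι) (H T : ℕ) (s : ι) : ℤ :=
  if s = u1 then (((H + 1) / 2 : ℕ) : ℤ) else -(T : ℤ)

/-- upper end of the region -/
def hi {ι : Type} [DecidableEq ι] (u1 : ι) (H T : ℕ) (s : ι) : ℤ :=
  if s = u1 then (H : ℤ) else (T : ℤ)

theorem lo_self {ι : Type} [DecidableEq ι] (u1 : ι) (H T : ℕ) :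
    lo u1 H T u1 = (((H + 1) / 2 : ℕ) : ℤ) := by
  unfold lo; rw [if_pos rfl]

theorem lo_ne {ι : Type} [DecidableEq ι] (u1 : ι) (H T : ℕ) (s : ι) (h : s ≠ u1) :
    lo u1 H T s = -(T : ℤ) := by
  unfold lo; rw [if_neg h]

theorem hi_self {ι : Type} [DecidableEq ι] (u1 : ι) (H T : ℕ) :
    hi u1 H T u1 = (H : ℤ) := by
  unfold hi; rw [if_pos rfl]

theorem hi_ne {ι : Type} [DecidableEq ι] (u1 : ι) (H T : ℕ) (s : ι) (h : s ≠ u1) :
    hi u1 H T s = (T : ℤ) := by
  unfold hi; rw [if_neg h]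

theorem lo_le {ι : Type} [DecidableEq ι] (u1 : ι) (H T : ℕ) (s : ι) :
    lo u1 H T s ≤ hi u1 H T s + 1 := by
  by_cases h : s = u1
  · rw [h, lo_self, hi_self]; omega
  · rw [lo_ne u1 H T s h, hi_ne u1 H T s h]; omega

theorem len_le {ι : Type} [DecidableEq ι] (u1 : ι) (H T K0 N : ℕ) (s : ι) (hN : 0 < N)
    (hK : 8 ≤ K0) (hT : H < (T + 1) * K0) (hH : K0 * (N + 2) ≤ H) :
    (2 * (H : ℝ) + 1) / (2 * K0 * N) ≤ ((hi u1 H T s : ℝ) - lo u1 H T s + 1) / N - 1 := by
  have hHK' : (K0 : ℝ) * ((N : ℝ) + 2) ≤ H := by exact_mod_cast hH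
  have hTge' : (H : ℝ) < (T + 1) * K0 := by exact_mod_cast hT
  have hK1 : (8 : ℝ) ≤ K0 := by exact_mod_cast hK
  have hN' : (0 : ℝ) < N := by exact_mod_cast hN
  have hK0' : (0 : ℝ) < K0 := by linarith
  have hH0 : (0 : ℝ) ≤ H := Nat.cast_nonneg H
  have hlen : 2 * (H : ℝ) / K0 - 1 ≤ (hi u1 H T s : ℝ) - lo u1 H T s + 1 := by
    by_cases h : s = u1
    · rw [h, lo_self, hi_self]
      have h3 : (((H + 1) / 2 : ℕ) : ℝ) ≤ ((H : ℝ) + 1) / 2 := by
        have := Nat.div_mul_le_self (H + 1) 2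
        have h4 : (((H + 1) / 2 : ℕ) : ℝ) * 2 ≤ (H : ℝ) + 1 := by exact_mod_cast this
        linarith
      have h5 : 2 * (H : ℝ) / K0 ≤ H / 4 := by
        rw [div_le_div_iff₀ hK0' (by norm_num)]
        nlinarith
      have h6 : (((((H + 1) / 2 : ℕ) : ℤ)) : ℝ) = (((H + 1) / 2 : ℕ) : ℝ) := Int.cast_natCast _
      rw [h6, Int.cast_natCast]
      linarith
    · rw [lo_ne u1 H T s h, hi_ne u1 H T s h]
      push_cast
      have h5 : (H : ℝ) / K0 ≤ T + 1 := by
        rw [div_le_iff₀ hK0']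
        linarith
      have h6 : 2 * (H : ℝ) / K0 = 2 * ((H : ℝ) / K0) := by ring
      rw [h6]
      linarith
  rw [le_sub_iff_add_le, le_div_iff₀ hN']
  refine le_trans ?_ hlen
  have h7 : ((2 * (H : ℝ) + 1) / (2 * K0 * N) + 1) * (N : ℝ) =
    (H : ℝ) / K0 + 1 / (2 * K0) + N := by
    field_simp
  rw [h7]
  have h8 : 2 * (H : ℝ) / K0 = (H : ℝ) / K0 + (H : ℝ) / K0 := by ring
  rw [h8]
  have h9 : (N : ℝ) + 2 ≤ (H : ℝ) / K0 := by
    rw [le_div_iff₀ hK0']
    linarith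
  have h10 : 1 / (2 * (K0 : ℝ)) ≤ 1 := by
    rw [div_le_one (by positivity)]
    linarith
  linarith

end LocPos

open Classical in
theorem local_pos {k : ℕ} (n d : Fin k → ℕ) (i₀ : Fin k) (hn : ∀ i, 1 ≤ n i)
    (hd : ∀ i, 1 ≤ d i) (hk : 3 ≤ n i₀ ∨ (2 ≤ n i₀ ∧ ∃ j, j ≠ i₀))
    (X : ℕ → Fin k → ℕ) (Ps : ℕ → Finset (Pt n ℤ))
    (hX : ∀ i, Tendsto (fun H => X H i) atTop atTop)
    (hP : ∀ H, ∀ P ∈ Ps H, Shell (X H) P ∧ ∀ i, Umod (P i))
    (hs : ∀ ε : ℝ, 0 < ε → ∀ᶠ H : ℕ in atTop, ∀ F : Finset (Pt n ℤ),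
      (∀ P ∈ F, Shell (X H) P ∧ (∀ i, Umod (P i)) ∧ P ∉ Ps H) →
      (F.card : ℝ) ≤ ε * Vol n (X H)) :
    ∃ c₃ : ℝ, 0 < c₃ ∧ ∃ κ : ℝ, 0 < κ ∧ ∃ w₁ : ℕ, ∀ w : ℕ, w₁ ≤ w → ∃ W : ℕ, 0 < W ∧
      (∀ m, 1 ≤ m → m ≤ w → m ∣ W) ∧ ∃ δ₁ : ℝ, 0 < δ₁ ∧ ∀ δ : ℝ, 0 < δ → δ ≤ δ₁ →
      ∀ᶠ H : ℕ in atTop, ∃ F : Finset (Exps n d → ℤ), F ⊆ box (Exps n d) H ∧
      (∀ c ∈ F, κ * EE n d (X H) H ≤ Nl (Ps H) W (δ * H * Sz d (X H)) c) ∧
      c₃ * (2 * (H : ℝ) + 1) ^ Fintype.card (Exps n d) ≤ (F.card : ℝ) := by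
  -- the distinguished exponent
  have hn0 := hn i₀
  set j1 : Fin (n i₀ + 1) := ⟨1, by omega⟩ with hj1
  have hj : j1 ≠ 0 := by
    intro h
    have := congrArg Fin.val h
    simp [hj1] at this
  set u1 : Exps n d := Tri.u hd (fun _ => 0) (some ⟨i₀, ⟨j1, hj⟩⟩) with hu1
  set M := Fintype.card (Exps n d) with hM
  have hM1 : 1 ≤ M := exps_nonempty n d
  obtain ⟨κr, hκr, δr, hδr, hnall⟩ := nall_lower n d hd (1 / 4) (by norm_num)
  obtain ⟨Ct, hCt, htail⟩ := tail n d i₀ hn hd hk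
  obtain ⟨w0, hw0⟩ := exists_nat_ge (2 * Ct + 1)
  have hw0' : (1 : ℝ) ≤ w0 := by linarith
  have hw0n : 1 ≤ w0 := by exact_mod_cast hw0'
  have hw0p : (0 : ℝ) < w0 := by linarith
  have hCt2 : Ct / w0 ≤ 1 / 2 := by
    rw [div_le_iff₀ hw0p]
    linarith
  set κ : ℝ := κr * kap0 n w0 0 / 2 with hκ
  have hκpos : 0 < κ := by
    have := kap0_pos n w0 0
    positivity
  set Q := w0.factorial with hQ
  have hQpos : 0 < Q := Nat.factorial_pos _
  set K0 : ℕ := 8 * M * d i₀ with hK0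
  have hK0pos : 0 < K0 := by
    have := hd i₀
    positivity
  have hK0' : (0 : ℝ) < K0 := by exact_mod_cast hK0pos
  have hQ' : (0 : ℝ) < Q := by exact_mod_cast hQpos
  set c₄ : ℝ := 1 / 2 * (1 / (2 * K0 * Q)) ^ M with hc₄
  have hc₄pos : 0 < c₄ := by positivity
  obtain ⟨Cl, hCl, hloss⟩ := loss_sum n d hn hd
  obtain ⟨w2, hw2⟩ := exists_nat_ge (2 * Cl / (κ * c₄) + 1)
  refine ⟨c₄ / 2, by positivity, κ, hκpos, max w0 w2, fun w hw => ?_⟩
  have hww0 : w0 ≤ w := (le_max_left _ _).trans hw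
  have hww2 : w2 ≤ w := (le_max_right _ _).trans hw
  have hw1 : 1 ≤ w := hw0n.trans hww0
  have hwp : (0 : ℝ) < w := by exact_mod_cast hw1
  set W := w.factorial ^ (2 * 0 + 1) with hWdef
  have hWpos : 0 < W := pow_pos (Nat.factorial_pos _) _
  have hWne : NeZero W := ⟨hWpos.ne'⟩
  have hWd : ∀ m, 1 ≤ m → m ≤ w → m ∣ W := fun m hm hm' =>
    (Nat.dvd_factorial hm hm').trans (dvd_pow_self _ (by omega))
  refine ⟨W, hWpos, hWd, δr, hδr, fun δ hδ hδ' => ?_⟩
  obtain ⟨X₀, hX₀⟩ := hnall δ hδ hδ' W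
  obtain ⟨W1, hW1ne, hW1p, hWW1⟩ := split_W W w0 hWpos.ne'
  have hW1N : NeZero W1 := ⟨hW1ne⟩
  have hW1pos : 0 < W1 := Nat.pos_of_ne_zero hW1ne
  have hW1' : (0 : ℝ) < W1 := by exact_mod_cast hW1pos
  -- coprimality
  have hcop : Nat.Coprime Q W1 := by
    rw [Nat.coprime_iff_gcd_eq_one]
    by_contra hne
    obtain ⟨p, hp, hpd⟩ := Nat.exists_prime_and_dvd hne
    have h1 := (hp.dvd_factorial).1 (hpd.trans (Nat.gcd_dvd_left _ _))
    have h2 := hW1p p hp (hpd.trans (Nat.gcd_dvd_right _ _))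
    omega
  -- good classes modulo W1
  set G : Finset (Exps n d → ZMod W1) := Finset.univ.filter fun c =>
    ¬ (2 * W1 * (Zs W1 c).card < W1 ^ (∑ i, (n i + 1))) with hG
  have hGcard : 1 / 2 * (W1 : ℝ) ^ M ≤ G.card := by
    set Gb : Finset (Exps n d → ZMod W1) := Finset.univ.filter fun c =>
      (2 * W1 * (Zs W1 c).card < W1 ^ (∑ i, (n i + 1))) with hGb
    have h1 := htail w0 W1 hw0n hW1p Gb (fun c hc => (Finset.mem_filter.1 hc).2)
    have h2 : Gb.card + G.card = (Finset.univ : Finset (Exps n d → ZMod W1)).card :=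
      Finset.card_filter_add_card_filter_not _
    have h3 : (Finset.univ : Finset (Exps n d → ZMod W1)).card = W1 ^ M := by
      rw [Finset.card_univ, Fintype.card_fun, ZMod.card]
    rw [h3] at h2
    have h4 : (Gb.card : ℝ) + G.card = (W1 : ℝ) ^ M := by exact_mod_cast h2
    have h5 : Ct / w0 * (W1 : ℝ) ^ M ≤ 1 / 2 * (W1 : ℝ) ^ M :=
      mul_le_mul_of_nonneg_right hCt2 (by positivity)
    linarith
  -- classes modulo Q * W1
  have hQW : 0 < Q * W1 := Nat.mul_pos hQpos hW1pos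
  set e := ZMod.chineseRemainder hcop with he
  set zb : (Exps n d → ZMod W1) → (Exps n d → ZMod (Q * W1)) := fun b s =>
    e.symm ((if s = u1 then 1 else 0), b s) with hzb
  have hzbinj : Function.Injective zb := by
    intro b b' hbb
    funext s
    have h1 := congrFun hbb s
    rw [hzb] at h1
    have h2 := e.symm.injective h1
    exact (Prod.mk.inj h2).2
  set G' := G.image zb with hG'
  have hG'card : G'.card = G.card := Finset.card_image_of_injective _ hzbinj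
  have hX1 : ∀ᶠ H : ℕ in atTop, ∀ i, max X₀ 1 ≤ X H i := by
    rw [Filter.eventually_all]
    exact fun i => (hX i).eventually_ge_atTop _
  filter_upwards [hX1, eventually_ge_atTop (max 1 (K0 * (Q * W1 + 2))),
    hloss X Ps hX hP hs w W δ hw1 hWpos hWd hδ] with H hXH hH hlossH
  have hH11 : 1 ≤ H := (le_max_left _ _).trans hH
  have hHK : K0 * (Q * W1 + 2) ≤ H := (le_max_right _ _).trans hH
  have hHpos : (0 : ℝ) < H := by exact_mod_cast hH11
  have hXX0 : ∀ i, X₀ ≤ X H i := fun i => (le_max_left _ _).trans (hXH i)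
  have hX11 : ∀ i, 1 ≤ X H i := fun i => (le_max_right _ _).trans (hXH i)
  set t : ℝ := (2 * (H : ℝ) + 1) ^ M with ht
  have htp : 0 < t := by positivity
  have hSz := Sz_pos d (X H) hX11
  set V := δ * H * Sz d (X H) with hV
  have hVpos : 0 < V := by positivity
  have hEpos : 0 < EE n d (X H) H := by
    unfold EE Vol
    have : ∀ i, (0 : ℝ) < (X H i : ℝ) := fun i => by exact_mod_cast hX11 i
    have h2 : (0 : ℝ) < ∏ i, (X H i : ℝ) ^ (n i + 1) := Finset.prod_pos fun i _ => pow_pos (this i) _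
    positivity
  -- the region
  set T := H / K0 with hT
  have hTle : T * K0 ≤ H := Nat.div_mul_le_self H K0
  have hTge : H < (T + 1) * K0 := by
    have := Nat.lt_div_mul_add (a := H) (b := K0) hK0pos
    rw [← hT] at this
    linarith [this, Nat.succ_mul T K0]
  have hTH : T ≤ H := Nat.div_le_self H K0
  set F := (Fintype.piFinset fun s => Finset.Icc (LocPos.lo u1 H T s) (LocPos.hi u1 H T s)).filter
    (fun c : Exps n d → ℤ => (fun i => (c i : ZMod (Q * W1))) ∈ G') with hF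
  have hN : (0 : ℝ) < ((Q * W1 : ℕ) : ℝ) := by exact_mod_cast hQW
  have hK8 : 8 ≤ K0 := by
    have h1 : 1 ≤ M * d i₀ := Nat.mul_pos hM1 (hd i₀)
    calc 8 = 8 * 1 := rfl
      _ ≤ 8 * (M * d i₀) := Nat.mul_le_mul_left _ h1
      _ = K0 := by rw [hK0, mul_assoc]
  have hFcard : c₄ * t ≤ F.card := by
    have h1 := LocPos.pi_mod_lower (LocPos.lo u1 H T) (LocPos.hi u1 H T) (Q * W1) hQW G'
      ((2 * (H : ℝ) + 1) / (2 * K0 * (Q * W1 : ℕ)))
      (by positivity) (LocPos.lo_le u1 H T) (fun s => LocPos.len_le u1 H T K0 (Q * W1) s hQW hK8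
        hTge hHK)
    refine le_trans ?_ h1
    rw [hG'card]
    calc c₄ * t = 1 / 2 * (W1 : ℝ) ^ M * ((2 * (H : ℝ) + 1) / (2 * K0 * (Q * W1 : ℕ))) ^ M := by
          rw [hc₄, ht]
          push_cast
          rw [div_pow, div_pow, mul_pow, mul_pow, mul_pow, mul_pow, mul_pow, one_pow]
          field_simp
      _ ≤ (G.card : ℝ) * ((2 * (H : ℝ) + 1) / (2 * K0 * (Q * W1 : ℕ))) ^ M :=
          mul_le_mul_of_nonneg_right hGcard (by positivity)
  have hFbox : F ⊆ box (Exps n d) H := by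
    intro c hc
    rw [hF, Finset.mem_filter, Fintype.mem_piFinset] at hc
    unfold box
    rw [Fintype.mem_piFinset]
    intro s
    have h1 := hc.1 s
    rw [Finset.mem_Icc] at h1 ⊢
    by_cases h : s = u1
    · rw [h] at h1 ⊢
      rw [LocPos.lo_self, LocPos.hi_self] at h1
      omega
    · rw [LocPos.lo_ne u1 H T s h, LocPos.hi_ne u1 H T s h] at h1
      omega
  -- lower bound for Nall on F
  have hFN : ∀ c ∈ F, 2 * (κ * EE n d (X H) H) ≤ Nall (X H) W V c := by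
    intro c hcF
    have hc := hcF
    rw [hF, Finset.mem_filter, Fintype.mem_piFinset, hG', Finset.mem_image] at hc
    obtain ⟨hcI, b, hbG, hbc⟩ := hc
    have hcls : ∀ s, ((c s : ℤ) : ZMod Q) = (if s = u1 then 1 else 0) ∧
        ((c s : ℤ) : ZMod W1) = b s := by
      intro s
      have h1 := congrFun hbc s
      rw [hzb] at h1
      have h2 := congrArg e h1
      rw [RingEquiv.apply_symm_apply, map_intCast] at h2
      have h3 := Prod.ext_iff.1 h2
      exact ⟨h3.1.symm, h3.2.symm⟩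
    have hrob : RobustReal (1 / 4) H c := by
      refine LocPos.robust hd i₀ j1 hj H hH11 c ?_ ?_
      · have h1 := (Finset.mem_Icc.1 (hcI u1)).1
        rw [LocPos.lo_self] at h1
        have h2 : (H : ℤ) ≤ 2 * c u1 := by omega
        have h3 : (H : ℝ) ≤ 2 * (c u1 : ℝ) := by exact_mod_cast h2
        linarith
      · intro s hs
        have h1 := Finset.mem_Icc.1 (hcI s)
        rw [LocPos.lo_ne u1 H T s hs, LocPos.hi_ne u1 H T s hs] at h1
        have h2 : |(c s : ℝ)| ≤ T := by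
          rw [abs_le]
          constructor
          · exact_mod_cast h1.1
          · exact_mod_cast h1.2
        refine h2.trans ?_
        have h3 : (8 * (Fintype.card (Exps n d) : ℝ) * d i₀) = K0 := by
          rw [hK0, hM]
          push_cast
          ring
        rw [h3, le_div_iff₀ hK0']
        exact_mod_cast hTle
    have hsg : kap0 n w0 0 ≤ sg W c := by
      refine sg_W_lower n d i₀ w0 0 W W1 (fun p hp hpw => fact_pow_le w (2 * 0 + 1) p hp
        (hpw.trans hww0)) hW1p hWW1 c (fun p hp hpw hne => ?_) ?_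
      · have hpQ : p ∣ Q := (hp.dvd_factorial).2 hpw
        refine LocPos.padic hd i₀ j1 hj p hp (W.factorization p)
          (fact_pow_le w (2 * 0 + 1) p hp (hpw.trans hww0)) hne c ?_ ?_
        · have h1 := (hcls u1).1
          rw [if_pos rfl] at h1
          have h2 : (((c u1 - 1 : ℤ)) : ZMod Q) = 0 := by
            push_cast
            rw [h1, sub_self]
          rw [ZMod.intCast_zmod_eq_zero_iff_dvd] at h2
          exact (Int.natCast_dvd_natCast.2 hpQ).trans h2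
        · intro s hs
          have h1 := (hcls s).1
          rw [if_neg hs] at h1
          rw [ZMod.intCast_zmod_eq_zero_iff_dvd] at h1
          exact (Int.natCast_dvd_natCast.2 hpQ).trans h1
      · have h1 : (fun s => (c s : ZMod W1)) = b := funext fun s => (hcls s).2
        rw [h1]
        exact (Finset.mem_filter.1 hbG).2
    have h1 := hX₀ (X H) H c hXX0 hH11 (hFbox hcF) hrob
    refine le_trans ?_ h1
    have h2 : κr * kap0 n w0 0 * EE n d (X H) H ≤ κr * sg W c * EE n d (X H) H := by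
      refine mul_le_mul_of_nonneg_right ?_ hEpos.le
      exact mul_le_mul_of_nonneg_left hsg hκr.le
    refine le_trans (le_of_eq ?_) h2
    rw [hκ]
    ring
  refine ⟨F.filter fun c => κ * EE n d (X H) H ≤ Nl (Ps H) W V c,
    (Finset.filter_subset _ _).trans hFbox, fun c hc => (Finset.mem_filter.1 hc).2, ?_⟩
  set Fb := F.filter fun c => ¬ (κ * EE n d (X H) H ≤ Nl (Ps H) W V c) with hFb
  have h1 := markov_loss (X H) (Ps H) (hP H) W H V _ (κ * EE n d (X H) H) hVpos hlossH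
    (by positivity) Fb ((Finset.filter_subset _ _).trans hFbox) (fun c hc => by
      rw [hFb, Finset.mem_filter] at hc
      exact ⟨hFN c hc.1, not_le.1 hc.2⟩)
  have h2 : (Fb.card : ℝ) ≤ c₄ / 2 * t := by
    have h2 : (Fb.card : ℝ) * (κ * EE n d (X H) H) ≤ (c₄ / 2 * t) * (κ * EE n d (X H) H) := by
      refine h1.trans ?_
      have h3 : Cl / w ≤ c₄ / 2 * κ := by
        rw [div_le_iff₀ hwp]
        have h4 : 2 * Cl / (κ * c₄) ≤ w := by
          have : (w2 : ℝ) ≤ w := by exact_mod_cast hww2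
          linarith
        rw [div_le_iff₀ (by positivity)] at h4
        linarith
      have h5 : Cl / w * EE n d (X H) H * t ≤ c₄ / 2 * κ * EE n d (X H) H * t := by
        refine mul_le_mul_of_nonneg_right ?_ htp.le
        exact mul_le_mul_of_nonneg_right h3 hEpos.le
      refine h5.trans (le_of_eq ?_)
      ring
    exact le_of_mul_le_mul_right h2 (by positivity)
  have h3 : (F.filter fun c => κ * EE n d (X H) H ≤ Nl (Ps H) W V c).card + Fb.card = F.card :=
    Finset.card_filter_add_card_filter_not _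
  have h4 : ((F.filter fun c => κ * EE n d (X H) H ≤ Nl (Ps H) W V c).card : ℝ) + Fb.card =
      F.card := by exact_mod_cast h3
  linarith

end Pool.Agent.HP
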