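import Mathlib
import Pool.Agent.Lib.MP_fc0680_nt.Defs

/-!
# MP_fc0680_nt module TRANSL: polynomials and coefficient vectors
-/

set_option autoImplicit false

open Finset

namespace Pool.Agent.HP

namespace Transl

variable {k : ℕ} {n d : Fin k → ℕ}

/-- Exponent of a multihomogeneous monomial. -/
noncomputable def ex (s : Exps n d) : (Σ i : Fin k, Fin (n i + 1)) →₀ ℕ :=
  Finsupp.equivFunOnFinite.symm fun ij => ((s ij.1).1 ij.2 : ℕ)

theorem ex_apply (s : Exps n d) (i : Fin k) (j : Fin (n i + 1)) :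
    ex s ⟨i, j⟩ = ((s i).1 j : ℕ) := rfl

theorem ex_injective : Function.Injective (ex (n := n) (d := d)) := by
  intro s t h
  funext i
  apply Subtype.ext
  funext j
  apply Fin.ext
  rw [← ex_apply, ← ex_apply, h]

theorem ex_surj (m : (Σ i : Fin k, Fin (n i + 1)) →₀ ℕ)
    (h : ∀ i : Fin k, ∑ j : Fin (n i + 1), m ⟨i, j⟩ = d i) : ∃ s : Exps n d, ex s = m := by
  have hle : ∀ i j, m ⟨i, j⟩ < d i + 1 := by
    intro i j
    have := Finset.single_le_sum (f := fun j => m ⟨i, j⟩) (fun _ _ => Nat.zero_le _) (mem_univ j)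
    rw [h i] at this
    exact Nat.lt_succ_of_le this
  refine ⟨fun i => ⟨fun j => ⟨m ⟨i, j⟩, hle i j⟩, h i⟩, ?_⟩
  ext ⟨i, j⟩
  rfl

theorem ex_sum (s : Exps n d) (i : Fin k) : ∑ j : Fin (n i + 1), ex s ⟨i, j⟩ = d i := (s i).2

/-- The polynomial with the given coefficients. -/
noncomputable def toPoly (c : Exps n d → ℤ) : MvPolynomial (Σ i : Fin k, Fin (n i + 1)) ℤ :=
  ∑ s, MvPolynomial.monomial (ex s) (c s)

theorem coeff_ex (c : Exps n d → ℤ) (s : Exps n d) : (toPoly c).coeff (ex s) = c s := by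
  classical
  unfold toPoly
  rw [MvPolynomial.coeff_sum, Finset.sum_eq_single s]
  · simp
  · intro t _ ht
    rw [MvPolynomial.coeff_monomial, if_neg (fun h => ht (ex_injective h))]
  · intro h; exact absurd (mem_univ _) h

theorem coeff_other (c : Exps n d → ℤ) (m : (Σ i : Fin k, Fin (n i + 1)) →₀ ℕ)
    (h : ∀ s : Exps n d, ex s ≠ m) : (toPoly c).coeff m = 0 := by
  classical
  unfold toPoly
  rw [MvPolynomial.coeff_sum]
  refine Finset.sum_eq_zero fun s _ => ?_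
  rw [MvPolynomial.coeff_monomial, if_neg (h s)]

theorem toPoly_injective : Function.Injective (toPoly (n := n) (d := d)) := by
  intro c c' h
  funext s
  rw [← coeff_ex c s, ← coeff_ex c' s, h]

theorem toPoly_hom (c : Exps n d → ℤ) : ∀ s ∈ (toPoly c).support, ∀ i : Fin k,
    ∑ j : Fin (n i + 1), s ⟨i, j⟩ = d i := by
  intro m hm i
  by_cases h : ∃ s : Exps n d, ex s = m
  · obtain ⟨s, rfl⟩ := h
    exact ex_sum s i
  · push Not at h
    rw [MvPolynomial.mem_support_iff] at hm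
    exact absurd (coeff_other c m h) hm

theorem toPoly_surj (f : MvPolynomial (Σ i : Fin k, Fin (n i + 1)) ℤ)
    (hf : ∀ s ∈ f.support, ∀ i : Fin k, ∑ j : Fin (n i + 1), s ⟨i, j⟩ = d i) :
    toPoly (fun s : Exps n d => f.coeff (ex s)) = f := by
  ext m
  by_cases h : ∃ s : Exps n d, ex s = m
  · obtain ⟨s, rfl⟩ := h
    rw [coeff_ex]
  · push Not at h
    rw [coeff_other _ m h]
    by_contra hne
    obtain ⟨s, hs⟩ := ex_surj m (hf m (MvPolynomial.mem_support_iff.2 (Ne.symm hne)))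
    exact h s hs

theorem toPoly_height (c : Exps n d → ℤ) (H : ℕ) :
    (∀ s, |(toPoly c).coeff s| ≤ (H : ℤ)) ↔ c ∈ box (Exps n d) H := by
  unfold box
  rw [Fintype.mem_piFinset]
  constructor
  · intro h s
    rw [Finset.mem_Icc, ← abs_le, ← coeff_ex c s]
    exact h _
  · intro h m
    by_cases hm : ∃ s : Exps n d, ex s = m
    · obtain ⟨s, rfl⟩ := hm
      rw [coeff_ex, abs_le]
      exact Finset.mem_Icc.1 (h s)
    · push Not at hm
      rw [coeff_other _ m hm]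
      simp

theorem aeval_toPoly {R : Type} [CommRing R] (c : Exps n d → ℤ)
    (x : (Σ i : Fin k, Fin (n i + 1)) → R) :
    MvPolynomial.aeval x (toPoly c) = evZ c (fun i j => x ⟨i, j⟩) := by
  unfold toPoly evZ ev
  rw [map_sum]
  refine Finset.sum_congr rfl fun s _ => ?_
  rw [MvPolynomial.aeval_monomial, Finsupp.prod_fintype _ _ (fun _ => pow_zero _),
    Fintype.prod_sigma]
  simp only [eq_intCast]
  rfl

theorem sol_iff {R : Type} [CommRing R] (c : Exps n d → ℤ) :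
    (∃ x : (Σ i : Fin k, Fin (n i + 1)) → R,
      (∀ i : Fin k, ∃ j : Fin (n i + 1), x ⟨i, j⟩ ≠ 0) ∧ MvPolynomial.aeval x (toPoly c) = 0) ↔
    ∃ P : Pt n R, (∀ i, ∃ j, P i j ≠ 0) ∧ evZ c P = 0 := by
  constructor
  · rintro ⟨x, h0, h1⟩
    refine ⟨fun i j => x ⟨i, j⟩, h0, ?_⟩
    rw [← aeval_toPoly, h1]
  · rintro ⟨P, h0, h1⟩
    refine ⟨fun ij => P ij.1 ij.2, h0, ?_⟩
    rw [aeval_toPoly]
    exact h1

theorem count (H : ℕ) (Q : MvPolynomial (Σ i : Fin k, Fin (n i + 1)) ℤ → Prop)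
    (Pr : (Exps n d → ℤ) → Prop) [DecidablePred Pr] (hQ : ∀ c, Q (toPoly c) ↔ Pr c) :
    Set.ncard {f : MvPolynomial (Σ i : Fin k, Fin (n i + 1)) ℤ |
        (∀ s ∈ f.support, ∀ i : Fin k, ∑ j : Fin (n i + 1), s ⟨i, j⟩ = d i) ∧
        (∀ s, |f.coeff s| ≤ (H : ℤ)) ∧ Q f} =
      ((box (Exps n d) H).filter fun c => Pr c).card := by
  have : {f : MvPolynomial (Σ i : Fin k, Fin (n i + 1)) ℤ |
        (∀ s ∈ f.support, ∀ i : Fin k, ∑ j : Fin (n i + 1), s ⟨i, j⟩ = d i) ∧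
        (∀ s, |f.coeff s| ≤ (H : ℤ)) ∧ Q f} =
      toPoly '' (((box (Exps n d) H).filter fun c => Pr c : Finset (Exps n d → ℤ)) :
        Set (Exps n d → ℤ)) := by
    ext f
    simp only [Set.mem_ofPred_eq, Set.mem_image, Finset.coe_filter]
    constructor
    · rintro ⟨h1, h2, h3⟩
      have h4 := toPoly_surj f h1
      refine ⟨fun s : Exps n d => f.coeff (ex s), ⟨?_, ?_⟩, h4⟩
      · rw [← toPoly_height, h4]; exact h2
      · rw [← hQ, h4]; exact h3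
    · rintro ⟨c, ⟨h1, h2⟩, rfl⟩
      exact ⟨toPoly_hom c, (toPoly_height c H).2 h1, (hQ c).2 h2⟩
  rw [this, Set.ncard_image_of_injective _ toPoly_injective, Set.ncard_coe_finset]

end Transl

open Classical in
theorem ncard_loc {k : ℕ} (n d : Fin k → ℕ) (H : ℕ) :
    Set.ncard {f : MvPolynomial (Σ i : Fin k, Fin (n i + 1)) ℤ |
        (∀ s ∈ f.support, ∀ i : Fin k, ∑ j : Fin (n i + 1), s ⟨i, j⟩ = d i) ∧
        (∀ s, |f.coeff s| ≤ (H : ℤ)) ∧
        (∃ x : (Σ i : Fin k, Fin (n i + 1)) → ℝ,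
          (∀ i : Fin k, ∃ j : Fin (n i + 1), x ⟨i, j⟩ ≠ 0) ∧ MvPolynomial.aeval x f = 0) ∧
        (∀ p : ℕ, ∀ _ : Fact p.Prime, ∃ x : (Σ i : Fin k, Fin (n i + 1)) → Padic p,
          (∀ i : Fin k, ∃ j : Fin (n i + 1), x ⟨i, j⟩ ≠ 0) ∧ MvPolynomial.aeval x f = 0)} =
      ((box (Exps n d) H).filter fun c => ELS c).card := by
  refine Transl.count (n := n) (d := d) H (fun f =>
        (∃ x : (Σ i : Fin k, Fin (n i + 1)) → ℝ,
          (∀ i : Fin k, ∃ j : Fin (n i + 1), x ⟨i, j⟩ ≠ 0) ∧ MvPolynomial.aeval x f = 0) ∧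
        (∀ p : ℕ, ∀ _ : Fact p.Prime, ∃ x : (Σ i : Fin k, Fin (n i + 1)) → Padic p,
          (∀ i : Fin k, ∃ j : Fin (n i + 1), x ⟨i, j⟩ ≠ 0) ∧ MvPolynomial.aeval x f = 0))
    (fun c => ELS c) ?_
  intro c
  unfold ELS RealSol PadicSol
  refine and_congr (Transl.sol_iff c) (forall_congr' fun p => forall_congr' fun hp => ?_)
  exact Transl.sol_iff c

open Classical in
theorem ncard_glob {k : ℕ} (n d : Fin k → ℕ) (H : ℕ) :
    Set.ncard {f : MvPolynomial (Σ i : Fin k, Fin (n i + 1)) ℤ |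
        (∀ s ∈ f.support, ∀ i : Fin k, ∑ j : Fin (n i + 1), s ⟨i, j⟩ = d i) ∧
        (∀ s, |f.coeff s| ≤ (H : ℤ)) ∧
        (∃ x : (Σ i : Fin k, Fin (n i + 1)) → ℝ,
          (∀ i : Fin k, ∃ j : Fin (n i + 1), x ⟨i, j⟩ ≠ 0) ∧ MvPolynomial.aeval x f = 0) ∧
        (∀ p : ℕ, ∀ _ : Fact p.Prime, ∃ x : (Σ i : Fin k, Fin (n i + 1)) → Padic p,
          (∀ i : Fin k, ∃ j : Fin (n i + 1), x ⟨i, j⟩ ≠ 0) ∧ MvPolynomial.aeval x f = 0) ∧
        (∃ x : (Σ i : Fin k, Fin (n i + 1)) → ℚ,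
          (∀ i : Fin k, ∃ j : Fin (n i + 1), x ⟨i, j⟩ ≠ 0) ∧ MvPolynomial.aeval x f = 0)} =
      ((box (Exps n d) H).filter fun c => ELS c ∧ RatSol c).card := by
  refine Transl.count (n := n) (d := d) H (fun f =>
        (∃ x : (Σ i : Fin k, Fin (n i + 1)) → ℝ,
          (∀ i : Fin k, ∃ j : Fin (n i + 1), x ⟨i, j⟩ ≠ 0) ∧ MvPolynomial.aeval x f = 0) ∧
        (∀ p : ℕ, ∀ _ : Fact p.Prime, ∃ x : (Σ i : Fin k, Fin (n i + 1)) → Padic p,
          (∀ i : Fin k, ∃ j : Fin (n i + 1), x ⟨i, j⟩ ≠ 0) ∧ MvPolynomial.aeval x f = 0) ∧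
        (∃ x : (Σ i : Fin k, Fin (n i + 1)) → ℚ,
          (∀ i : Fin k, ∃ j : Fin (n i + 1), x ⟨i, j⟩ ≠ 0) ∧ MvPolynomial.aeval x f = 0))
    (fun c => ELS c ∧ RatSol c) ?_
  intro c
  unfold ELS RealSol PadicSol RatSol
  rw [and_assoc]
  refine and_congr (Transl.sol_iff c) (and_congr (forall_congr' fun p => forall_congr' fun hp => ?_)
    (Transl.sol_iff c))
  exact Transl.sol_iff c

end Pool.Agent.HP
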