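import Pool.Agent.Lib.MP_fc0680_nt.Defs

/-!
# MP_fc0680_nt : the module FOURIER

A primitive integer vector `x` which is separated from all other integer vectors has an orthogonal
complement spanned by small integer vectors (finite Fourier analysis modulo the pivot of `x`).
-/

set_option autoImplicit false
open Finset Filter

namespace Pool.Agent.HP

namespace Fou

theorem exists_pivot {n : ℕ} (x : Fin (n + 1) → ℤ) :
    ∃ i, (x i).natAbs = nrm x ∧ ∀ j, (x j).natAbs ≤ (x i).natAbs := by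
  obtain ⟨i, _, hi⟩ := Finset.exists_mem_eq_sup (univ : Finset (Fin (n + 1))) univ_nonempty
    (fun j => (x j).natAbs)
  refine ⟨i, hi.symm, fun j => ?_⟩
  calc (x j).natAbs ≤ univ.sup (fun j => (x j).natAbs) :=
        Finset.le_sup (f := fun j => (x j).natAbs) (mem_univ j)
    _ = (x i).natAbs := hi

/-- Step (a): some `x l * j / x i` is far from all integers. -/
theorem sep_step {N : ℕ} (x : Fin N → ℤ) (hx : Umod x) (i : Fin N)
    (hi : ∀ j, (x j).natAbs ≤ (x i).natAbs) (hi0 : x i ≠ 0) (Δ : ℕ) (hΔ : 1 ≤ Δ) (hs : Sep Δ x)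
    (j : ℤ) (hj : ¬ x i ∣ j) : ∃ l, ∀ y : ℤ, (Δ : ℤ) ≤ 2 * |x i * y - x l * j| := by
  by_contra hcon
  push Not at hcon
  choose y₀ hy₀ using hcon
  classical
  let y : Fin N → ℤ := fun l => if l = i then j else y₀ l
  have hyi : y i = j := by simp [y]
  let r : Fin N → ℤ := fun l => x i * y l - x l * j
  have hr : ∀ l, 2 * |r l| < Δ := by
    intro l
    by_cases hl : l = i
    · subst hl
      have : r l = 0 := by simp only [r, hyi]; ring
      rw [this]
      simp
      omega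
    · have : y l = y₀ l := by simp [y, hl]
      simp only [r, this]
      exact hy₀ l
  have habs : ∀ l, |x l| ≤ |x i| := by
    intro l
    have := hi l
    rw [Int.abs_eq_natAbs, Int.abs_eq_natAbs]
    exact_mod_cast this
  have hxi : 0 < |x i| := abs_pos.2 hi0
  have hminor : ∀ a b : Fin N, |x a * y b - x b * y a| < Δ := by
    intro a b
    have e : x i * (x a * y b - x b * y a) = x a * r b - x b * r a := by
      simp only [r]; ring
    have h1 : |x i| * |x a * y b - x b * y a| ≤ |x i| * (|r b| + |r a|) := by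
      rw [← abs_mul, e]
      calc |x a * r b - x b * r a| ≤ |x a * r b| + |x b * r a| := abs_sub _ _
        _ = |x a| * |r b| + |x b| * |r a| := by rw [abs_mul, abs_mul]
        _ ≤ |x i| * |r b| + |x i| * |r a| :=
            add_le_add (mul_le_mul_of_nonneg_right (habs a) (abs_nonneg _))
              (mul_le_mul_of_nonneg_right (habs b) (abs_nonneg _))
        _ = _ := by ring
    have h2 : |x a * y b - x b * y a| ≤ |r b| + |r a| := le_of_mul_le_mul_left h1 hxi
    have h3 := hr a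
    have h4 := hr b
    omega
  have hwd : wd x y < Δ := by
    unfold wd
    rw [Finset.sup_lt_iff (Nat.lt_of_lt_of_le Nat.zero_lt_one hΔ)]
    rintro ⟨a, b⟩ _
    have h1 := hminor a b
    rw [Int.abs_eq_natAbs] at h1
    exact_mod_cast h1
  have hwd0 : wd x y = 0 := by
    by_contra h0
    have := hs y h0
    omega
  have hmin0 : ∀ l, x l * j = x i * y l := by
    intro l
    have h1 : (x l * y i - x i * y l).natAbs ≤ wd x y :=
      Finset.le_sup (f := fun p : Fin N × Fin N => (x p.1 * y p.2 - x p.2 * y p.1).natAbs)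
        (mem_univ (l, i))
    rw [hwd0, hyi] at h1
    omega
  apply hj
  obtain ⟨e, he⟩ := hx
  have : j = ∑ l, e l * (x l * j) := by
    calc j = (∑ l, e l * x l) * j := by rw [he, one_mul]
      _ = ∑ l, e l * (x l * j) := by rw [Finset.sum_mul]; exact sum_congr rfl fun l _ => by ring
  rw [this]
  exact Finset.dvd_sum fun l _ => by
    rw [hmin0 l]
    exact Dvd.dvd.mul_left (Dvd.intro _ rfl) _

/-- The distance from `1` of a point on the unit circle. -/
theorem norm_sub_one (θ δ : ℝ) (h : ∀ y : ℤ, δ ≤ |θ - y|) :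
    4 * δ ≤ ‖Complex.exp (2 * Real.pi * Complex.I * θ) - 1‖ := by
  have h1 := h (round θ)
  have h2 := abs_sub_round θ
  set φ : ℝ := θ - round θ with hφ
  have e : Complex.exp (2 * Real.pi * Complex.I * θ) =
      Complex.exp (Complex.I * ((2 * Real.pi * φ : ℝ) : ℂ)) := by
    have : (2 * Real.pi * Complex.I * θ : ℂ) = Complex.I * ((2 * Real.pi * φ : ℝ) : ℂ) +
        (round θ : ℤ) * (2 * Real.pi * Complex.I) := by
      rw [hφ]; push_cast; ring
    rw [this, Complex.exp_add, Complex.exp_int_mul_two_pi_mul_I, mul_one]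
  rw [e, Complex.norm_exp_I_mul_ofReal_sub_one]
  have e2 : 2 * Real.pi * φ / 2 = Real.pi * φ := by ring
  rw [e2, Real.norm_eq_abs, abs_mul, abs_two]
  have hpi := Real.pi_pos
  have h3 : |Real.pi * φ| ≤ Real.pi / 2 := by
    rw [abs_mul, abs_of_pos hpi]
    nlinarith
  have h4 := Real.mul_abs_le_abs_sin h3
  rw [abs_mul, abs_of_pos hpi] at h4
  have h5 : 2 / Real.pi * (Real.pi * |φ|) = 2 * |φ| := by field_simp
  rw [h5] at h4
  linarith

/-- Geometric sums of a number on the unit circle. -/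
theorem geom_le (z : ℂ) (hz : ‖z‖ = 1) (m : ℕ) (c : ℝ) (hc : 0 < c) (h : c ≤ ‖z - 1‖) :
    ‖∑ a ∈ range m, z ^ a‖ ≤ 2 / c := by
  have hz1 : z ≠ 1 := by
    rintro rfl
    simp at h
    linarith
  rw [geom_sum_eq hz1, norm_div, div_le_div_iff₀ (lt_of_lt_of_le hc h) hc]
  have h1 : ‖z ^ m - 1‖ ≤ 2 := by
    calc ‖z ^ m - 1‖ ≤ ‖z ^ m‖ + ‖(1 : ℂ)‖ := norm_sub_le _ _
      _ = 2 := by rw [norm_pow, hz]; norm_num
  nlinarith [norm_nonneg (z ^ m - 1)]

/-- An additive character turns sums into products. -/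
theorem map_sum_prod {A ι : Type*} [AddCommMonoid A] (ψ : AddChar A ℂ) (s : Finset ι) (g : ι → A) :
    ψ (∑ p ∈ s, g p) = ∏ p ∈ s, ψ (g p) := by
  classical
  induction s using Finset.induction_on with
  | empty => simp
  | insert a s ha ih => rw [sum_insert ha, prod_insert ha, AddChar.map_add_eq_mul, ih]

/-- Step (b): the sums of `K` vectors of `[0, m)^N` give all residues. -/
theorem surj {n K m Δ : ℕ} (Q : ℕ) [NeZero Q] (x : Fin (n + 1) → ℤ) (hΔ : 1 ≤ Δ) (hm : 1 ≤ m)
    (hsep : ∀ j : ℤ, ¬ (Q : ℤ) ∣ j → ∃ l, ∀ y : ℤ, (Δ : ℤ) ≤ 2 * |(Q : ℤ) * y - x l * j|)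
    (h : (Q : ℝ) * ((Q : ℝ) / Δ) ^ K < (m : ℝ) ^ K) (s : ZMod Q) :
    ∃ a : Fin K × Fin (n + 1) → Fin m, ∑ p, (((a p : ℕ) : ZMod Q) * (x p.2 : ZMod Q)) = s := by
  classical
  by_contra hcon
  push Not at hcon
  set ψ : AddChar (ZMod Q) ℂ := ZMod.stdAddChar with hψ
  have hprim : ψ.IsPrimitive := ZMod.isPrimitive_stdAddChar Q
  have hnorm : ∀ j : ZMod Q, ‖ψ j‖ = 1 := fun j => by
    rw [hψ, ZMod.stdAddChar_apply]; exact Circle.norm_coe _
  let f : (Fin K × Fin (n + 1) → Fin m) → ZMod Q :=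
    fun a => ∑ p, (((a p : ℕ) : ZMod Q) * (x p.2 : ZMod Q))
  -- the partial sums
  let S : ZMod Q → Fin (n + 1) → ℂ := fun j l => ∑ b : Fin m, ψ (j * ((b : ℕ) * (x l : ZMod Q)))
  have hS : ∀ j, ∑ a, ψ (j * f a) = (∏ l, S j l) ^ K := by
    intro j
    have e1 : ∀ a, ψ (j * f a) = ∏ p : Fin K × Fin (n + 1),
        ψ (j * (((a p : ℕ) : ZMod Q) * (x p.2 : ZMod Q))) := by
      intro a
      simp only [f, mul_sum]
      exact map_sum_prod ψ _ _
    simp_rw [e1]
    rw [← Fintype.prod_sum (fun (p : Fin K × Fin (n + 1)) (b : Fin m) =>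
      ψ (j * (((b : ℕ) : ZMod Q) * (x p.2 : ZMod Q))))]
    rw [Fintype.prod_prod_type]
    simp only [S, prod_const, card_univ, Fintype.card_fin]
  have hzero : ∑ j : ZMod Q, ψ (-(j * s)) * (∏ l, S j l) ^ K = 0 := by
    have e : ∀ j : ZMod Q, ψ (-(j * s)) * (∏ l, S j l) ^ K = ∑ a, ψ (j * (f a - s)) := by
      intro j
      rw [← hS, mul_sum]
      refine sum_congr rfl fun a _ => ?_
      rw [← AddChar.map_add_eq_mul]
      congr 1
      ring
    simp_rw [e]
    rw [sum_comm]
    refine sum_eq_zero fun a _ => ?_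
    rw [AddChar.sum_mulShift _ hprim, if_neg (sub_ne_zero.2 (hcon a))]
    simp
  have hSle : ∀ j l, ‖S j l‖ ≤ m := by
    intro j l
    calc ‖S j l‖ ≤ ∑ b : Fin m, ‖ψ (j * ((b : ℕ) * (x l : ZMod Q)))‖ := norm_sum_le _ _
      _ = m := by simp [hnorm]
  have hQ0 : (0 : ℝ) < Q := by exact_mod_cast Nat.pos_of_ne_zero (NeZero.ne Q)
  have hΔ0 : (0 : ℝ) < Δ := by exact_mod_cast hΔ
  have hm0 : (0 : ℝ) < m := by exact_mod_cast hm
  have hSsmall : ∀ j : ZMod Q, j ≠ 0 → ∃ l, ‖S j l‖ ≤ Q / Δ := by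
    intro j hj
    obtain ⟨j', rfl⟩ := ZMod.intCast_surjective j
    have hj' : ¬ (Q : ℤ) ∣ j' := by
      rwa [← ZMod.intCast_zmod_eq_zero_iff_dvd]
    obtain ⟨l, hl⟩ := hsep j' hj'
    refine ⟨l, ?_⟩
    have e : S (j' : ZMod Q) l = ∑ b ∈ range m, (ψ ((j' * x l : ℤ) : ZMod Q)) ^ b := by
      rw [Finset.sum_range]
      refine sum_congr rfl fun b _ => ?_
      rw [← AddChar.map_nsmul_eq_pow]
      congr 1
      push_cast
      rw [nsmul_eq_mul]
      ring
    rw [e]
    have hdist : ∀ y : ℤ, (Δ : ℝ) / (2 * Q) ≤ |((j' * x l : ℤ) : ℝ) / Q - y| := by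
      intro y
      have h1 := hl y
      have h2 : ((Δ : ℤ) : ℝ) ≤ ((2 * |(Q : ℤ) * y - x l * j'| : ℤ) : ℝ) := by exact_mod_cast h1
      push_cast at h2
      have h3 : |((j' * x l : ℤ) : ℝ) / Q - y| = |(Q : ℝ) * y - x l * j'| / Q := by
        rw [← abs_of_pos hQ0, ← abs_div, abs_of_pos hQ0, ← abs_neg]
        congr 1
        push_cast
        field_simp
        ring
      rw [h3, div_le_div_iff₀ (by positivity) hQ0]
      nlinarith
    have h4 := norm_sub_one (((j' * x l : ℤ) : ℝ) / Q) ((Δ : ℝ) / (2 * Q)) hdist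
    have h5 : ψ ((j' * x l : ℤ) : ZMod Q) =
        Complex.exp (2 * Real.pi * Complex.I * (((j' * x l : ℤ) : ℝ) / Q : ℝ)) := by
      rw [hψ, ZMod.stdAddChar_coe]
      congr 1
      push_cast
      ring
    rw [← h5] at h4
    have h6 := geom_le (ψ ((j' * x l : ℤ) : ZMod Q)) (hnorm _) m (4 * ((Δ : ℝ) / (2 * Q)))
      (by positivity) h4
    refine h6.trans (le_of_eq ?_)
    field_simp
    ring
  -- the estimate
  have hterm0 : ψ (-((0 : ZMod Q) * s)) * (∏ l, S 0 l) ^ K = ((m : ℂ) ^ (n + 1)) ^ K := by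
    simp [S]
  have hsum : ∑ j : ZMod Q, ψ (-(j * s)) * (∏ l, S j l) ^ K =
      ((m : ℂ) ^ (n + 1)) ^ K + ∑ j ∈ univ.erase (0 : ZMod Q), ψ (-(j * s)) * (∏ l, S j l) ^ K := by
    rw [← hterm0]
    exact (Finset.add_sum_erase univ (fun j : ZMod Q => ψ (-(j * s)) * (∏ l, S j l) ^ K)
      (mem_univ (0 : ZMod Q))).symm
  rw [hsum] at hzero
  have hle : ‖((m : ℂ) ^ (n + 1)) ^ K‖ ≤ ∑ j ∈ univ.erase (0 : ZMod Q),
      ((m : ℝ) ^ n * (Q / Δ)) ^ K := by
    have : ((m : ℂ) ^ (n + 1)) ^ K =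
        -∑ j ∈ univ.erase (0 : ZMod Q), ψ (-(j * s)) * (∏ l, S j l) ^ K :=
      eq_neg_of_add_eq_zero_left hzero
    rw [this, norm_neg]
    refine (norm_sum_le _ _).trans (sum_le_sum fun j hj => ?_)
    rw [norm_mul, hnorm, one_mul, norm_pow]
    refine pow_le_pow_left₀ (norm_nonneg _) ?_ K
    obtain ⟨l, hl⟩ := hSsmall j (Finset.ne_of_mem_erase hj)
    rw [norm_prod, ← Finset.mul_prod_erase _ _ (mem_univ l), mul_comm]
    refine mul_le_mul ?_ hl (norm_nonneg _) (by positivity)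
    calc ∏ l' ∈ univ.erase l, ‖S j l'‖ ≤ ∏ l' ∈ univ.erase l, (m : ℝ) :=
          prod_le_prod (fun _ _ => norm_nonneg _) fun l' _ => hSle j l'
      _ = (m : ℝ) ^ n := by
          rw [prod_const, card_erase_of_mem (mem_univ l), card_univ, Fintype.card_fin]
          simp
  rw [sum_const, card_erase_of_mem (mem_univ _), card_univ, ZMod.card, nsmul_eq_mul] at hle
  rw [norm_pow, norm_pow, Complex.norm_natCast, ← pow_mul] at hle
  have h7 : (((Q - 1 : ℕ) : ℝ)) ≤ Q := by exact_mod_cast Nat.sub_le Q 1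
  have h8 : (m : ℝ) ^ ((n + 1) * K) ≤ Q * ((m : ℝ) ^ n * (Q / Δ)) ^ K :=
    hle.trans (mul_le_mul_of_nonneg_right h7 (by positivity))
  have h9 : (m : ℝ) ^ ((n + 1) * K) = (m : ℝ) ^ (n * K) * (m : ℝ) ^ K := by
    rw [← pow_add]; congr 1; ring
  have h10 : (Q : ℝ) * ((m : ℝ) ^ n * (Q / Δ)) ^ K =
      (m : ℝ) ^ (n * K) * ((Q : ℝ) * (Q / Δ) ^ K) := by
    rw [mul_pow, ← pow_mul]; ring
  rw [h9, h10] at h8
  have h11 : (0 : ℝ) < (m : ℝ) ^ (n * K) := by positivity
  exact absurd (le_of_mul_le_mul_left h8 h11) (not_le.2 h)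

end Fou

theorem goodspan_of_sep (n K m Δ B : ℕ) (hn : 1 ≤ n) (x : Fin (n + 1) → ℤ) (hx : Umod x) (hΔ : 1 ≤ Δ)
    (hs : Sep Δ x) (hB : nrm x ≤ B) (hm : 1 ≤ m)
    (h : (B : ℝ) * ((B : ℝ) / Δ) ^ K < (m : ℝ) ^ K) :
    GoodSpan ((n + 1) * (2 * K * m + 1)) x := by
  classical
  obtain ⟨i, hi1, hi2⟩ := Fou.exists_pivot x
  have hi0 : x i ≠ 0 := by
    intro h0
    obtain ⟨e, he⟩ := hx
    have : ∀ j, x j = 0 := fun j => by
      have := hi2 j
      rw [h0] at this
      omega
    simp [this] at he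
  set Q : ℕ := (x i).natAbs with hQdef
  have hQ0 : Q ≠ 0 := by rw [hQdef]; omega
  have : NeZero Q := ⟨hQ0⟩
  have hQB : Q ≤ B := by rw [hi1]; exact hB
  have hdvd : ∀ j : ℤ, (Q : ℤ) ∣ j ↔ x i ∣ j := fun j => by
    rw [hQdef, Int.natAbs_dvd]
  have hsep : ∀ j : ℤ, ¬ (Q : ℤ) ∣ j → ∃ l, ∀ y : ℤ, (Δ : ℤ) ≤ 2 * |(Q : ℤ) * y - x l * j| := by
    intro j hj
    rw [hdvd] at hj
    obtain ⟨l, hl⟩ := Fou.sep_step x hx i hi2 hi0 Δ hΔ hs j hj
    refine ⟨l, fun y => ?_⟩
    rcases Int.natAbs_eq (x i) with he | he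
    · have := hl y
      rw [he, ← hQdef] at this
      exact this
    · have := hl (-y)
      rw [he, ← hQdef] at this
      have e : -(Q : ℤ) * -y - x l * j = (Q : ℤ) * y - x l * j := by ring
      rwa [e] at this
  have hΔ0 : (0 : ℝ) < Δ := by exact_mod_cast hΔ
  have h' : (Q : ℝ) * ((Q : ℝ) / Δ) ^ K < (m : ℝ) ^ K := by
    refine lt_of_le_of_lt ?_ h
    have : (Q : ℝ) ≤ B := by exact_mod_cast hQB
    gcongr
  have hsurj := Fou.surj (n := n) (K := K) (m := m) (Δ := Δ) Q x hΔ hm hsep h'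
  -- small representatives of the residues
  have hrep : ∀ s : ZMod Q, ∃ a : Fin (n + 1) → ℤ, (∀ l, 0 ≤ a l ∧ a l ≤ K * m) ∧
      ((∑ l, a l * x l : ℤ) : ZMod Q) = s := by
    intro s
    obtain ⟨a, ha⟩ := hsurj s
    refine ⟨fun l => ∑ k : Fin K, ((a (k, l) : ℕ) : ℤ), fun l => ⟨?_, ?_⟩, ?_⟩
    · exact sum_nonneg fun k _ => by positivity
    · calc ∑ k : Fin K, ((a (k, l) : ℕ) : ℤ) ≤ ∑ k : Fin K, (m : ℤ) :=
            sum_le_sum fun k _ => by exact_mod_cast (a (k, l)).2.le
        _ = K * m := by simp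
    · rw [← ha, Fintype.sum_prod_type, sum_comm]
      push_cast
      refine sum_congr rfl fun l _ => ?_
      rw [Finset.sum_mul]
  choose A hA1 hA2 using hrep
  intro w hw
  set t : ℝ := w i / x i with ht
  have hxiR : (x i : ℝ) ≠ 0 := by exact_mod_cast hi0
  -- vectors of the congruence lattice are orthogonal to `w - t x`
  have habs : ∀ l, |x l| ≤ |x i| := by
    intro l
    have := hi2 l
    rw [Int.abs_eq_natAbs, Int.abs_eq_natAbs]
    exact_mod_cast this
  have hlat : ∀ a : Fin (n + 1) → ℤ, (∀ l, |a l| ≤ 2 * K * m + 1) → (Q : ℤ) ∣ ∑ l, a l * x l →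
      ∑ l, (w l - t * x l) * (a l : ℝ) = 0 := by
    intro a ha hd
    rw [hdvd] at hd
    obtain ⟨q, hq⟩ := hd
    let b : Fin (n + 1) → ℤ := fun l => if l = i then a i - q else a l
    have hbi : b i = a i - q := by simp [b]
    have hbl : ∀ l ∈ univ.erase i, b l = a l := fun l hl => by
      simp [b, Finset.ne_of_mem_erase hl]
    have hsplit : x i * (a i - q) = -∑ l ∈ univ.erase i, a l * x l := by
      have := Finset.add_sum_erase univ (fun l => a l * x l) (mem_univ i)
      rw [hq] at this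
      linarith
    have hbx : ∑ l, b l * x l = 0 := by
      rw [← Finset.add_sum_erase univ _ (mem_univ i), hbi,
        sum_congr rfl fun l hl => by rw [hbl l hl]]
      linarith
    have hcard : (univ.erase i : Finset (Fin (n + 1))).card = n := by
      rw [card_erase_of_mem (mem_univ i), card_univ, Fintype.card_fin]; simp
    have hbi' : |a i - q| ≤ n * (2 * K * m + 1) := by
      refine le_of_mul_le_mul_left ?_ (abs_pos.2 hi0)
      rw [← abs_mul, hsplit, abs_neg]
      calc |∑ l ∈ univ.erase i, a l * x l| ≤ ∑ l ∈ univ.erase i, |a l * x l| :=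
            abs_sum_le_sum_abs _ _
        _ ≤ ∑ l ∈ univ.erase i, (2 * K * m + 1) * |x i| := by
            refine sum_le_sum fun l _ => ?_
            rw [abs_mul]
            exact mul_le_mul (ha l) (habs l) (abs_nonneg _) (by positivity)
        _ = |x i| * (n * (2 * K * m + 1)) := by
            rw [sum_const, hcard, nsmul_eq_mul]; ring
    have hbs : ∀ l, (b l).natAbs ≤ (n + 1) * (2 * K * m + 1) := by
      intro l
      have h1 : |b l| ≤ (n + 1) * (2 * K * m + 1) := by
        by_cases hl : l = i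
        · rw [hl, hbi]
          refine hbi'.trans ?_
          have : (0 : ℤ) ≤ 2 * K * m + 1 := by positivity
          nlinarith
        · have e : b l = a l := by simp [b, hl]
          rw [e]
          refine (ha l).trans ?_
          have : (0 : ℤ) ≤ 2 * K * m + 1 := by positivity
          have : (0 : ℤ) ≤ (n : ℤ) := by positivity
          nlinarith
      rw [Int.abs_eq_natAbs] at h1
      exact_mod_cast h1
    have h1 := hw b hbs hbx
    have h2 : ∑ l, w l * (b l : ℝ) = ∑ l, w l * (a l : ℝ) - w i * q := by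
      rw [← Finset.add_sum_erase univ _ (mem_univ i), ← Finset.add_sum_erase univ _ (mem_univ i),
        hbi, sum_congr rfl fun l hl => by rw [hbl l hl]]
      push_cast
      ring
    have h3 : ∑ l, (w l - t * x l) * (a l : ℝ) =
        ∑ l, w l * (a l : ℝ) - t * ((∑ l, a l * x l : ℤ) : ℝ) := by
      push_cast
      rw [mul_sum, ← sum_sub_distrib]
      exact sum_congr rfl fun l _ => by ring
    rw [h3, hq]
    push_cast
    have h4 : t * (x i * q) = w i * q := by
      rw [ht]; field_simp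
    rw [h4, ← h2, h1]
  -- the resulting homomorphism from the residues to the reals vanishes
  let G : ZMod Q → ℝ := fun s => ∑ l, (w l - t * x l) * (A s l : ℝ)
  have hG : ∀ s s', G (s + s') = G s + G s' := by
    intro s s'
    have h1 := hlat (fun l => A s l + A s' l - A (s + s') l) (fun l => by
      have h1 := hA1 s l
      have h2 := hA1 s' l
      have h3 := hA1 (s + s') l
      rw [abs_le]
      constructor <;> nlinarith [h1.1, h1.2, h2.1, h2.2, h3.1, h3.2]) (by
      rw [← ZMod.intCast_zmod_eq_zero_iff_dvd]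
      have e : ∑ l, (A s l + A s' l - A (s + s') l) * x l =
          ∑ l, A s l * x l + ∑ l, A s' l * x l - ∑ l, A (s + s') l * x l := by
        rw [← sum_add_distrib, ← sum_sub_distrib]
        exact sum_congr rfl fun l _ => by ring
      rw [e, Int.cast_sub, Int.cast_add, hA2, hA2, hA2]
      ring)
    have e : ∑ l, (w l - t * x l) * ((A s l + A s' l - A (s + s') l : ℤ) : ℝ) =
        G s + G s' - G (s + s') := by
      simp only [G]
      rw [← sum_add_distrib, ← sum_sub_distrib]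
      refine sum_congr rfl fun l _ => ?_
      push_cast
      ring
    rw [e] at h1
    linarith
  have hG0 : G 0 = 0 := by
    have := hG 0 0
    rw [add_zero] at this
    linarith
  have hGn : ∀ (k : ℕ) (s : ZMod Q), G (k * s) = k * G s := by
    intro k s
    induction k with
    | zero => simp [hG0]
    | succ k ih =>
      have : ((k + 1 : ℕ) : ZMod Q) * s = k * s + s := by push_cast; ring
      rw [this, hG, ih]
      push_cast
      ring
  have hGz : ∀ s, G s = 0 := by
    intro s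
    have h1 := hGn Q s
    rw [ZMod.natCast_self, zero_mul, hG0] at h1
    have hQR : (Q : ℝ) ≠ 0 := by exact_mod_cast hQ0
    exact (mul_eq_zero.1 h1.symm).resolve_left hQR
  refine ⟨t, fun j => ?_⟩
  have h1 := hlat (fun l => A (x j : ZMod Q) l - if l = j then 1 else 0) (fun l => by
      have h1 := hA1 (x j : ZMod Q) l
      rw [abs_le]
      split_ifs <;> constructor <;> nlinarith [h1.1, h1.2]) (by
      rw [← ZMod.intCast_zmod_eq_zero_iff_dvd]
      have e : ∑ l, (A (x j : ZMod Q) l - if l = j then 1 else 0) * x l =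
          ∑ l, A (x j : ZMod Q) l * x l - x j := by
        simp [sub_mul, sum_sub_distrib]
      rw [e, Int.cast_sub, hA2]
      ring)
  have e : ∑ l, (w l - t * x l) * ((A (x j : ZMod Q) l - if l = j then 1 else 0 : ℤ) : ℝ) =
      G (x j : ZMod Q) - (w j - t * x j) := by
    simp only [G]
    have : ∀ l, (w l - t * x l) * ((A (x j : ZMod Q) l - if l = j then 1 else 0 : ℤ) : ℝ) =
        (w l - t * x l) * (A (x j : ZMod Q) l : ℝ) - if l = j then (w l - t * x l) else 0 := by
      intro l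
      split_ifs <;> push_cast <;> ring
    simp only [this, sum_sub_distrib, sum_ite_eq', mem_univ, if_true]
  rw [e, hGz] at h1
  linarith

end Pool.Agent.HP
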