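import Pool.Agent.Lib.MP_fc0680_nt.Defs

/-!
# MP_fc0680_nt : the number of non-separated vectors
-/

set_option autoImplicit false
open Finset Filter

namespace Pool.Agent.HP

namespace GoodCount

theorem le_nrm {N : ℕ} (x : Fin N → ℤ) (j : Fin N) : (x j).natAbs ≤ nrm x :=
  Finset.le_sup (f := fun j => (x j).natAbs) (mem_univ j)

theorem exists_nrm {n : ℕ} (x : Fin (n + 1) → ℤ) : ∃ i, (x i).natAbs = nrm x := by
  obtain ⟨i, _, hi⟩ := Finset.exists_mem_eq_sup univ ⟨(0 : Fin (n + 1)), mem_univ _⟩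
    (fun j => (x j).natAbs)
  exact ⟨i, hi.symm⟩

theorem le_wd {N : ℕ} (x y : Fin N → ℤ) (i j : Fin N) :
    (x i * y j - x j * y i).natAbs ≤ wd x y :=
  Finset.le_sup (f := fun p : Fin N × Fin N => (x p.1 * y p.2 - x p.2 * y p.1).natAbs)
    (mem_univ (i, j))

theorem wd_eq_zero {N : ℕ} (x y : Fin N → ℤ) (h : ∀ i j, x i * y j - x j * y i = 0) :
    wd x y = 0 := by
  unfold wd
  rw [← Nat.bot_eq_zero, Finset.sup_eq_bot_iff]
  intro p _
  rw [h p.1 p.2]
  rfl

theorem wd_sub {N : ℕ} (x y : Fin N → ℤ) (t : ℤ) :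
    wd x (fun l => y l - t * x l) = wd x y := by
  unfold wd
  congr 1
  funext p
  congr 1
  ring

open Classical in
/-- The possible values of a coordinate. -/
noncomputable def T (Δ : ℕ) (a j : ℤ) : Finset ℤ :=
  (Icc (-|a|) |a|).filter fun u => a ≠ 0 ∧ Int.gcd a j ≤ Δ ∧ ∃ r : ℤ, |r| < Δ ∧ a ∣ u * j + r

theorem class_card (g : ℕ) (a' j' r' : ℤ) (ha : a' ≠ 0) (hc : Int.gcd a' j' = 1) :
    ((Icc (-|a' * g|) |a' * g|).filter fun u => a' ∣ u * j' + r').card ≤ 4 * g + 1 := by
  classical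
  rcases Finset.eq_empty_or_nonempty ((Icc (-|a' * g|) |a' * g|).filter
    fun u => a' ∣ u * j' + r') with h | ⟨u₀, hu₀⟩
  · rw [h]; simp
  · have hcard : (Icc (-(2 * g : ℤ)) (2 * g)).card = 4 * g + 1 := by
      rw [Int.card_Icc]; omega
    rw [← hcard]
    refine Finset.card_le_card_of_injOn (fun u => (u - u₀) / a') ?_ ?_
    · intro u hu
      simp only [coe_filter, mem_Icc, Set.mem_ofPred_eq] at hu
      simp only [mem_filter, mem_Icc] at hu₀
      have hdvd : a' ∣ u - u₀ := by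
        have h1 : a' ∣ (u - u₀) * j' := by
          have := Int.dvd_sub hu.2 hu₀.2
          rwa [show u * j' + r' - (u₀ * j' + r') = (u - u₀) * j' by ring] at this
        exact Int.dvd_of_dvd_mul_left_of_gcd_one h1 hc
      obtain ⟨t, ht⟩ := hdvd
      simp only [coe_Icc, Set.mem_Icc]
      rw [ht, Int.mul_ediv_cancel_left _ ha]
      have habs : |a'| * |t| ≤ |a'| * (2 * g) := by
        rw [← abs_mul, ← ht]
        have h2 : |a' * g| = |a'| * g := by rw [abs_mul, Nat.abs_cast]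
        rw [h2] at hu hu₀
        rw [abs_le]
        constructor <;> linarith [hu.1.1, hu.1.2, hu₀.1.1, hu₀.1.2]
      have := le_of_mul_le_mul_left habs (abs_pos.mpr ha)
      exact abs_le.mp this
    · intro u hu v hv huv
      simp only [coe_filter, mem_Icc, Set.mem_ofPred_eq] at hu hv
      simp only [mem_filter, mem_Icc] at hu₀
      have hdvd : ∀ w : ℤ, a' ∣ w * j' + r' → a' ∣ w - u₀ := by
        intro w hw
        have h1 : a' ∣ (w - u₀) * j' := by
          have := Int.dvd_sub hw hu₀.2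
          rwa [show w * j' + r' - (u₀ * j' + r') = (w - u₀) * j' by ring] at this
        exact Int.dvd_of_dvd_mul_left_of_gcd_one h1 hc
      obtain ⟨s, hs⟩ := hdvd u hu.2
      obtain ⟨t, ht⟩ := hdvd v hv.2
      simp only at huv
      rw [hs, ht, Int.mul_ediv_cancel_left _ ha, Int.mul_ediv_cancel_left _ ha] at huv
      rw [huv] at hs
      omega

theorem T_card (Δ : ℕ) (hΔ : 1 ≤ Δ) (a j : ℤ) : (T Δ a j).card ≤ 15 * Δ := by
  classical
  by_cases h : a ≠ 0 ∧ Int.gcd a j ≤ Δ
  · obtain ⟨ha, hg⟩ := h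
    have hgpos : 0 < Int.gcd a j := Int.gcd_pos_of_ne_zero_left _ ha
    obtain ⟨a', j', hc, ha', hj'⟩ := Int.exists_gcd_one hgpos
    set g := Int.gcd a j with hgdef
    have ha'0 : a' ≠ 0 := by
      rintro rfl
      rw [zero_mul] at ha'
      exact ha ha'
    set q := (Δ - 1) / g with hq
    have hsub : T Δ a j ⊆ (Icc (-(q : ℤ)) q).biUnion fun r' =>
        (Icc (-|a' * g|) |a' * g|).filter fun u => a' ∣ u * j' + r' := by
      intro u hu
      simp only [T, mem_filter] at hu
      obtain ⟨hu1, _, _, r, hr, hdvd⟩ := hu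
      have hgr : (g : ℤ) ∣ r := by
        have h1 : (g : ℤ) ∣ u * j + r := dvd_trans (Int.gcd_dvd_left _ _) hdvd
        have h2 : (g : ℤ) ∣ u * j := dvd_mul_of_dvd_right (Int.gcd_dvd_right _ _) _
        exact (Int.dvd_add_right h2).mp h1
      obtain ⟨r', hr'⟩ := hgr
      simp only [mem_biUnion, mem_filter]
      refine ⟨r', ?_, ?_, ?_⟩
      · rw [mem_Icc, ← abs_le]
        have h1 : (g : ℤ) * |r'| ≤ Δ - 1 := by
          have : |r| = g * |r'| := by rw [hr', abs_mul, Nat.abs_cast]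
          rw [← this]
          omega
        have h2 : (r'.natAbs : ℤ) = |r'| := Int.natCast_natAbs r'
        rw [← h2] at h1 ⊢
        have h3 : r'.natAbs * g ≤ Δ - 1 := by
          have h4 : ((g * r'.natAbs : ℕ) : ℤ) ≤ ((Δ - 1 : ℕ) : ℤ) := by
            rw [Nat.cast_mul, Nat.cast_sub hΔ, Nat.cast_one]
            exact h1
          have h5 : g * r'.natAbs ≤ Δ - 1 := by exact_mod_cast h4
          rwa [mul_comm] at h5
        have := (Nat.le_div_iff_mul_le hgpos).mpr h3
        exact_mod_cast this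
      · rw [← ha']; exact hu1
      · have h4 : (g : ℤ) * a' ∣ (g : ℤ) * (u * j' + r') := by
          have h5 : (g : ℤ) * (u * j' + r') = u * j + r := by
            have h6 : u * j = u * (j' * g) := congrArg (fun z => u * z) hj'
            rw [h6, hr']; ring
          rw [h5, mul_comm, ← ha']
          exact hdvd
        exact (mul_dvd_mul_iff_left (by exact_mod_cast hgpos.ne')).mp h4
    refine (Finset.card_le_card hsub).trans ?_
    refine (Finset.card_biUnion_le_card_mul _ _ (4 * g + 1) fun r' _ =>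
      class_card g a' j' r' ha'0 hc).trans ?_
    have hcq : (Icc (-(q : ℤ)) q).card = 2 * q + 1 := by rw [Int.card_Icc]; omega
    rw [hcq]
    have hqg : q * g ≤ Δ - 1 := Nat.div_mul_le_self _ _
    calc (2 * q + 1) * (4 * g + 1) ≤ (2 * q + 1) * (5 * g) := by
          apply Nat.mul_le_mul_left; omega
      _ = 10 * (q * g) + 5 * g := by ring
      _ ≤ 15 * Δ := by omega
  · have hT : T Δ a j = ∅ := by
      unfold T
      rw [Finset.filter_eq_empty_iff]
      intro u _ hu
      exact h ⟨hu.1, hu.2.1⟩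
    rw [hT]; simp

open Classical in
theorem core (n B Δ : ℕ) (hB : 2 * Δ ≤ B) (x : Fin (n + 1) → ℤ)
    (h1 : B < 2 * nrm x) (h2 : nrm x ≤ B) (h3 : ¬ Sep Δ x) :
    ∃ i : Fin (n + 1), ∃ a ∈ Icc (-(B : ℤ)) B, ∃ j ∈ Icc (1 : ℤ) B,
      x ∈ Fintype.piFinset fun l => if l = i then {a} else T Δ a j := by
  obtain ⟨i, hi⟩ := exists_nrm x
  unfold Sep at h3
  push Not at h3
  obtain ⟨y₀, hy0, hyΔ⟩ := h3
  have hxi : x i ≠ 0 := by
    intro h
    rw [h] at hi
    simp at hi
    omega
  -- reduction of `y₀`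
  set y : Fin (n + 1) → ℤ := fun l => y₀ l - (y₀ i / x i) * x l with hy
  have hwd : wd x y = wd x y₀ := wd_sub x y₀ _
  rw [← hwd] at hy0 hyΔ
  have hyi : y i = y₀ i % x i := by
    simp only [hy]
    have := Int.emod_add_mul_ediv (y₀ i) (x i)
    linarith [mul_comm (x i) (y₀ i / x i)]
  have hyi0 : 0 ≤ y i := by rw [hyi]; exact Int.emod_nonneg _ hxi
  have hyi1 : y i < |x i| := by rw [hyi]; exact Int.emod_lt_abs _ hxi
  have hbound : ∀ l, (x i * y l - x l * y i).natAbs < Δ := fun l =>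
    lt_of_le_of_lt (le_wd x y i l) hyΔ
  have habs : ((x i).natAbs : ℤ) = |x i| := Int.natCast_natAbs _
  have hyi2 : y i ≠ 0 := by
    intro h0
    apply hy0
    have hall : ∀ l, y l = 0 := by
      intro l
      by_contra hl
      have h4 := hbound l
      rw [h0, mul_zero, sub_zero, Int.natAbs_mul] at h4
      have h5 : 1 ≤ (y l).natAbs := by
        have := Int.natAbs_pos.mpr hl
        omega
      have h6 : (x i).natAbs * 1 ≤ (x i).natAbs * (y l).natAbs := Nat.mul_le_mul_left _ h5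
      omega
    apply wd_eq_zero
    intro a b
    rw [hall a, hall b]
    ring
  refine ⟨i, x i, ?_, y i, ?_, ?_⟩
  · rw [mem_Icc]
    have := le_nrm x i
    omega
  · rw [mem_Icc]
    have := le_nrm x i
    omega
  · rw [Fintype.mem_piFinset]
    intro l
    by_cases hl : l = i
    · rw [if_pos hl, hl]; exact mem_singleton_self _
    · rw [if_neg hl]
      unfold T
      rw [mem_filter]
      refine ⟨?_, hxi, ?_, x i * y l - x l * y i, ?_, ?_⟩
      · rw [mem_Icc]
        have := le_nrm x l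
        omega
      · -- the gcd is small
        have hex : ∃ l, x i * y l - x l * y i ≠ 0 := by
          by_contra hcon
          push Not at hcon
          apply hy0
          apply wd_eq_zero
          intro a b
          have h7 : x i * (x a * y b - x b * y a) = 0 := by
            have e1 := hcon a
            have e2 := hcon b
            linear_combination x a * e2 - x b * e1
          exact (mul_eq_zero.mp h7).resolve_left hxi
        obtain ⟨m, hm⟩ := hex
        have hd : ((Int.gcd (x i) (y i) : ℕ) : ℤ) ∣ x i * y m - x m * y i :=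
          Int.dvd_sub (dvd_mul_of_dvd_left (Int.gcd_dvd_left _ _) _)
            (dvd_mul_of_dvd_right (Int.gcd_dvd_right _ _) _)
        have h8 : Int.gcd (x i) (y i) ∣ (x i * y m - x m * y i).natAbs :=
          Int.natCast_dvd.mp hd
        have h9 := Nat.le_of_dvd (Int.natAbs_pos.mpr hm) h8
        exact h9.trans (hbound m).le
      · have h10 := hbound l
        rw [← Int.natCast_natAbs]
        exact_mod_cast h10
      · exact ⟨y l, by ring⟩

end GoodCount

open GoodCount in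
theorem goodcount (n : ℕ) (hn : 1 ≤ n) : ∃ C : ℝ, 0 < C ∧ ∀ (B Δ : ℕ), 1 ≤ Δ → 2 * Δ ≤ B →
    ∀ F : Finset (Fin (n + 1) → ℤ), (∀ x ∈ F, B < 2 * nrm x ∧ nrm x ≤ B ∧ Umod x ∧ ¬ Sep Δ x) →
    (F.card : ℝ) ≤ C * (B : ℝ) ^ 2 * (Δ : ℝ) ^ n := by
  classical
  refine ⟨3 * (n + 1) * 15 ^ n, by positivity, ?_⟩
  intro B Δ hΔ hB F hF
  set I : Finset (Fin (n + 1) × ℤ × ℤ) :=
    univ ×ˢ (Icc (-(B : ℤ)) B ×ˢ Icc (1 : ℤ) B) with hI
  have hsub : F ⊆ I.biUnion fun p =>
      Fintype.piFinset fun l => if l = p.1 then {p.2.1} else T Δ p.2.1 p.2.2 := by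
    intro x hx
    obtain ⟨h1, h2, _, h3⟩ := hF x hx
    obtain ⟨i, a, ha, j, hj, hmem⟩ := core n B Δ hB x h1 h2 h3
    rw [mem_biUnion]
    refine ⟨(i, a, j), ?_, hmem⟩
    simp only [hI, mem_product, mem_univ, true_and]
    exact ⟨ha, hj⟩
  have hcard : ∀ p ∈ I, (Fintype.piFinset fun l : Fin (n + 1) =>
      if l = p.1 then {p.2.1} else T Δ p.2.1 p.2.2).card ≤ (15 * Δ) ^ n := by
    intro p _
    rw [Fintype.card_piFinset, ← Finset.mul_prod_erase univ _ (mem_univ p.1)]
    rw [if_pos rfl, card_singleton, one_mul]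
    have h1 : ∏ l ∈ univ.erase p.1, (if l = p.1 then ({p.2.1} : Finset ℤ)
        else T Δ p.2.1 p.2.2).card ≤ (15 * Δ) ^ (univ.erase p.1).card := by
      refine Finset.prod_le_pow_card _ _ _ fun l hl => ?_
      rw [if_neg (Finset.ne_of_mem_erase hl)]
      exact T_card Δ hΔ _ _
    rwa [Finset.card_erase_of_mem (mem_univ _), Finset.card_univ, Fintype.card_fin,
      Nat.add_sub_cancel] at h1
  have hIcard : I.card = (n + 1) * ((2 * B + 1) * B) := by
    rw [hI, card_product, card_product, card_univ, Fintype.card_fin, Int.card_Icc, Int.card_Icc]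
    congr 2
    · omega
    · omega
  have hmain : F.card ≤ (n + 1) * ((2 * B + 1) * B) * (15 * Δ) ^ n := by
    refine (Finset.card_le_card hsub).trans ?_
    rw [← hIcard]
    exact Finset.card_biUnion_le_card_mul _ _ _ hcard
  have hmain' : (F.card : ℝ) ≤ (n + 1) * ((2 * B + 1) * B) * (15 * Δ) ^ n := by
    exact_mod_cast hmain
  refine hmain'.trans ?_
  have hB1 : (1 : ℝ) ≤ B := by
    have : 1 ≤ B := by omega
    exact_mod_cast this
  rw [mul_pow]
  have h1 : ((n : ℝ) + 1) * ((2 * B + 1) * B) ≤ 3 * (n + 1) * (B : ℝ) ^ 2 := by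
    have h2 : (2 * (B : ℝ) + 1) * B ≤ 3 * (B : ℝ) ^ 2 := by nlinarith
    calc ((n : ℝ) + 1) * ((2 * B + 1) * B) ≤ (n + 1) * (3 * (B : ℝ) ^ 2) := by
          apply mul_le_mul_of_nonneg_left h2; positivity
      _ = 3 * (n + 1) * (B : ℝ) ^ 2 := by ring
  calc ((n : ℝ) + 1) * ((2 * B + 1) * B) * (15 ^ n * (Δ : ℝ) ^ n)
      ≤ 3 * (n + 1) * (B : ℝ) ^ 2 * (15 ^ n * (Δ : ℝ) ^ n) := by
        apply mul_le_mul_of_nonneg_right h1; positivity
    _ = 3 * (n + 1) * 15 ^ n * (B : ℝ) ^ 2 * (Δ : ℝ) ^ n := by ring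

end Pool.Agent.HP
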