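import Pool.Agent.Lib.MP_fc0680_nt.Defs

/-!
# MP_fc0680_nt : lower bounds for minors of monomial vectors
-/

set_option autoImplicit false

open Finset Filter

namespace Pool.Agent.HP

namespace Minor

/-- Exponent vector from a function with values in `ℕ`. -/
def mk {N D : ℕ} (f : Fin N → ℕ) (h : ∑ j, f j = D) : Mon N D :=
  ⟨fun j => ⟨f j, by
    have := Finset.single_le_sum (f := f) (fun i _ => Nat.zero_le (f i)) (Finset.mem_univ j)
    omega⟩, h⟩

theorem bm_mk {N D : ℕ} {R : Type} [CommRing R] (f : Fin N → ℕ) (h : ∑ j, f j = D)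
    (x : Fin N → R) : bm (mk f h) x = ∏ j, x j ^ f j := rfl

/-- The exponent vector `D e_i`. -/
def pw {N : ℕ} (D : ℕ) (i : Fin N) : Mon N D :=
  mk (fun j => if j = i then D else 0) (by simp)

theorem bm_pw {N D : ℕ} {R : Type} [CommRing R] (i : Fin N) (x : Fin N → R) :
    bm (pw D i) x = x i ^ D := by
  rw [pw, bm_mk, Finset.prod_eq_single i]
  · simp
  · intro j _ hj
    simp [hj]
  · simp

/-- The exponent vector `(D - 1) e_i + e_j`. -/
def pw2 {N : ℕ} (D : ℕ) (hD : 1 ≤ D) (i j : Fin N) (hij : i ≠ j) : Mon N D :=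
  mk (fun m => if m = i then D - 1 else if m = j then 1 else 0) (by
    rw [Finset.sum_eq_add i j hij]
    · simp [hij.symm]
      omega
    · rintro m _ ⟨h1, h2⟩
      simp [h1, h2]
    · simp
    · simp)

theorem bm_pw2 {N D : ℕ} {R : Type} [CommRing R] (hD : 1 ≤ D) (i j : Fin N) (hij : i ≠ j)
    (x : Fin N → R) : bm (pw2 D hD i j hij) x = x i ^ (D - 1) * x j := by
  rw [pw2, bm_mk, Finset.prod_eq_mul i j hij]
  · simp [hij.symm]
  · rintro m _ ⟨h1, h2⟩
    simp [h1, h2]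
  · simp
  · simp

/-- Coordinates are bounded by the norm. -/
theorem abs_le_nrm {N : ℕ} (x : Fin N → ℤ) (j : Fin N) : |(x j : ℝ)| ≤ nrm x := by
  have h : (x j).natAbs ≤ nrm x := Finset.le_sup (f := fun j => (x j).natAbs) (Finset.mem_univ j)
  have h2 : |(x j : ℝ)| = ((x j).natAbs : ℝ) := by
    rw [Nat.cast_natAbs, Int.cast_abs]
  rw [h2]
  exact_mod_cast h

/-- A coordinate realising the norm. -/
theorem exists_nrm {N : ℕ} (x : Fin N → ℤ) (hx : 0 < nrm x) : ∃ i, |(x i : ℝ)| = nrm x := by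
  have hN : (Finset.univ : Finset (Fin N)).Nonempty := by
    by_contra h
    rw [Finset.not_nonempty_iff_eq_empty] at h
    rw [nrm, h] at hx
    simp at hx
  obtain ⟨i, -, hi⟩ := Finset.exists_mem_eq_sup Finset.univ hN (fun j => (x j).natAbs)
  refine ⟨i, ?_⟩
  rw [nrm, hi, Nat.cast_natAbs, Int.cast_abs]

/-- A pair realising the largest minor. -/
theorem exists_wd {N : ℕ} (x y : Fin N → ℤ) (h : wd x y ≠ 0) :
    ∃ p : Fin N × Fin N, (wd x y : ℝ) = |((x p.1 * y p.2 - x p.2 * y p.1 : ℤ) : ℝ)| := by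
  have hN : (Finset.univ : Finset (Fin N × Fin N)).Nonempty := by
    by_contra h'
    rw [Finset.not_nonempty_iff_eq_empty] at h'
    rw [wd, h'] at h
    simp at h
  obtain ⟨i, -, hi⟩ := Finset.exists_mem_eq_sup Finset.univ hN
    (fun p : Fin N × Fin N => (x p.1 * y p.2 - x p.2 * y p.1).natAbs)
  refine ⟨i, ?_⟩
  rw [wd, hi, Nat.cast_natAbs, Int.cast_abs]

/-- Explicit form of `minor_block`. -/
theorem block (N D : ℕ) (hD : 1 ≤ D) (B : ℕ) (x x' : Fin N → ℤ)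
    (h1 : B < 2 * nrm x) (h2 : nrm x ≤ B) (h3 : B < 2 * nrm x') (h4 : nrm x' ≤ B) :
    ∃ s s' : Mon N D, (1 / 16 : ℝ) ^ D * (B : ℝ) ^ (2 * D) * wd x x' ≤
      (B : ℝ) ^ 2 * |((bm s x * bm s' x' - bm s' x * bm s x' : ℤ) : ℝ)| := by
  obtain ⟨i, hi⟩ := exists_nrm x (by omega)
  obtain ⟨l, hl⟩ := exists_nrm x' (by omega)
  have h1' : (B : ℝ) < 2 * nrm x := by exact_mod_cast h1
  have h2' : (nrm x : ℝ) ≤ B := by exact_mod_cast h2
  have h3' : (B : ℝ) < 2 * nrm x' := by exact_mod_cast h3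
  have h4' : (nrm x' : ℝ) ≤ B := by exact_mod_cast h4
  have hB0 : (0 : ℝ) ≤ B := by positivity
  by_cases hw : wd x x' = 0
  · refine ⟨pw D i, pw D i, ?_⟩
    rw [hw]
    simp
  obtain ⟨⟨a, b⟩, hab⟩ := exists_wd x x' hw
  simp only at hab
  have hxi : 0 < |(x i : ℝ)| := by rw [hi]; linarith
  -- a minor with row `i`
  have hrow : ∃ j, (wd x x' : ℝ) ≤ 2 * |(x i : ℝ) * x' j - x j * x' i| := by
    by_contra hcon
    push Not at hcon
    have ha := hcon a
    have hb := hcon b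
    have e : (x i : ℝ) * ((x a * x' b - x b * x' a : ℤ) : ℝ) =
        x a * ((x i : ℝ) * x' b - x b * x' i) - x b * ((x i : ℝ) * x' a - x a * x' i) := by
      push_cast
      ring
    have e2 : |(x i : ℝ)| * wd x x' ≤ |(x a : ℝ)| * |(x i : ℝ) * x' b - x b * x' i| +
        |(x b : ℝ)| * |(x i : ℝ) * x' a - x a * x' i| := by
      rw [hab, ← abs_mul, e]
      refine (abs_sub _ _).trans ?_
      rw [abs_mul, abs_mul]
    have hxa : |(x a : ℝ)| ≤ |(x i : ℝ)| := by rw [hi]; exact abs_le_nrm x a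
    have hxb : |(x b : ℝ)| ≤ |(x i : ℝ)| := by rw [hi]; exact abs_le_nrm x b
    have e3 : |(x a : ℝ)| * |(x i : ℝ) * x' b - x b * x' i| ≤
        |(x i : ℝ)| * |(x i : ℝ) * x' b - x b * x' i| :=
      mul_le_mul_of_nonneg_right hxa (abs_nonneg _)
    have e4 : |(x b : ℝ)| * |(x i : ℝ) * x' a - x a * x' i| ≤
        |(x i : ℝ)| * |(x i : ℝ) * x' a - x a * x' i| :=
      mul_le_mul_of_nonneg_right hxb (abs_nonneg _)
    nlinarith
  by_cases hc : (B : ℝ) / 8 ≤ |(x' i : ℝ)|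
  · obtain ⟨j, hj⟩ := hrow
    have hij : i ≠ j := by
      rintro rfl
      have : (x i : ℝ) * x' i - x i * x' i = 0 := by ring
      rw [this, abs_zero, mul_zero] at hj
      have h0 : (0 : ℝ) < wd x x' := by exact_mod_cast Nat.pos_of_ne_zero hw
      linarith
    refine ⟨pw D i, pw2 D hD i j hij, ?_⟩
    rw [bm_pw, bm_pw, bm_pw2, bm_pw2]
    obtain ⟨E, rfl⟩ : ∃ E, D = E + 1 := ⟨D - 1, by omega⟩
    simp only [Nat.add_sub_cancel]
    have e : ((x i ^ (E + 1) * (x' i ^ E * x' j) - x i ^ E * x j * x' i ^ (E + 1) : ℤ) : ℝ) =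
        (x i : ℝ) ^ E * (x' i : ℝ) ^ E * ((x i : ℝ) * x' j - x j * x' i) := by
      push_cast
      ring
    rw [e, abs_mul, abs_mul, abs_pow, abs_pow]
    have hxi2 : (B : ℝ) / 2 ≤ |(x i : ℝ)| := by rw [hi]; linarith
    have p1 : ((B : ℝ) / 2) ^ E ≤ |(x i : ℝ)| ^ E := pow_le_pow_left₀ (by positivity) hxi2 E
    have p2 : ((B : ℝ) / 8) ^ E ≤ |(x' i : ℝ)| ^ E := pow_le_pow_left₀ (by positivity) hc E
    have p3 : ((B : ℝ) / 2) ^ E * ((B : ℝ) / 8) ^ E ≤ |(x i : ℝ)| ^ E * |(x' i : ℝ)| ^ E :=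
      mul_le_mul p1 p2 (by positivity) (by positivity)
    have p4 : ((B : ℝ) / 2) ^ E * ((B : ℝ) / 8) ^ E = (1 / 16) ^ E * (B : ℝ) ^ (2 * E) := by
      rw [← mul_pow, pow_mul, ← mul_pow]
      congr 1
      ring
    rw [p4] at p3
    have hw0 : (0 : ℝ) ≤ wd x x' := by positivity
    calc (1 / 16 : ℝ) ^ (E + 1) * (B : ℝ) ^ (2 * (E + 1)) * wd x x'
        = (B : ℝ) ^ 2 * ((1 / 16) ^ E * (B : ℝ) ^ (2 * E) * (1 / 16 * wd x x')) := by ring
      _ ≤ (B : ℝ) ^ 2 * ((|(x i : ℝ)| ^ E * |(x' i : ℝ)| ^ E) *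
          |(x i : ℝ) * x' j - x j * x' i|) := by
          refine mul_le_mul_of_nonneg_left ?_ (by positivity)
          refine mul_le_mul p3 ?_ (by positivity) (by positivity)
          linarith
  · push Not at hc
    refine ⟨pw D i, pw D l, ?_⟩
    rw [bm_pw, bm_pw, bm_pw, bm_pw]
    have hxi2 : (B : ℝ) / 2 ≤ |(x i : ℝ)| := by rw [hi]; linarith
    have hxl2 : (B : ℝ) / 2 ≤ |(x' l : ℝ)| := by rw [hl]; linarith
    have hxil : |(x' i : ℝ)| ≤ 1 / 4 * |(x' l : ℝ)| := by linarith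
    have hxli : |(x l : ℝ)| ≤ |(x i : ℝ)| := by rw [hi]; exact abs_le_nrm x l
    have q1 : |(x' i : ℝ)| ^ D ≤ (1 / 4) ^ D * |(x' l : ℝ)| ^ D := by
      rw [← mul_pow]
      exact pow_le_pow_left₀ (abs_nonneg _) hxil D
    have q2 : |(x l : ℝ)| ^ D ≤ |(x i : ℝ)| ^ D := pow_le_pow_left₀ (abs_nonneg _) hxli D
    have q3 : (1 / 4 : ℝ) ^ D ≤ 1 / 4 := by
      calc (1 / 4 : ℝ) ^ D ≤ (1 / 4) ^ 1 :=
            pow_le_pow_of_le_one (by norm_num) (by norm_num) hD
        _ = 1 / 4 := pow_one _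
    have q4 : ((B : ℝ) / 2) ^ D ≤ |(x i : ℝ)| ^ D := pow_le_pow_left₀ (by positivity) hxi2 D
    have q5 : ((B : ℝ) / 2) ^ D ≤ |(x' l : ℝ)| ^ D := pow_le_pow_left₀ (by positivity) hxl2 D
    have q6 : ((B : ℝ) / 2) ^ D * ((B : ℝ) / 2) ^ D ≤ |(x i : ℝ)| ^ D * |(x' l : ℝ)| ^ D :=
      mul_le_mul q4 q5 (by positivity) (by positivity)
    have q7 : ((B : ℝ) / 2) ^ D * ((B : ℝ) / 2) ^ D = (1 / 4) ^ D * (B : ℝ) ^ (2 * D) := by
      rw [← mul_pow, pow_mul, ← mul_pow]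
      congr 1
      ring
    rw [q7] at q6
    have q8 : |(x l : ℝ)| ^ D * |(x' i : ℝ)| ^ D ≤ 1 / 4 * (|(x i : ℝ)| ^ D * |(x' l : ℝ)| ^ D) := by
      have hp : 0 ≤ |(x' l : ℝ)| ^ D := by positivity
      have hp2 : 0 ≤ |(x i : ℝ)| ^ D := by positivity
      calc |(x l : ℝ)| ^ D * |(x' i : ℝ)| ^ D
          ≤ |(x i : ℝ)| ^ D * ((1 / 4) ^ D * |(x' l : ℝ)| ^ D) :=
            mul_le_mul q2 q1 (by positivity) hp2
        _ ≤ |(x i : ℝ)| ^ D * (1 / 4 * |(x' l : ℝ)| ^ D) :=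
            mul_le_mul_of_nonneg_left (mul_le_mul_of_nonneg_right q3 hp) hp2
        _ = _ := by ring
    have q9 : 3 / 4 * ((1 / 4) ^ D * (B : ℝ) ^ (2 * D)) ≤
        |((x i ^ D * x' l ^ D - x l ^ D * x' i ^ D : ℤ) : ℝ)| := by
      push_cast
      have := abs_sub_abs_le_abs_sub ((x i : ℝ) ^ D * (x' l : ℝ) ^ D)
        ((x l : ℝ) ^ D * (x' i : ℝ) ^ D)
      rw [abs_mul, abs_mul, abs_pow, abs_pow, abs_pow, abs_pow] at this
      linarith
    have hwd : (wd x x' : ℝ) ≤ 2 * (B : ℝ) ^ 2 := by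
      rw [hab]
      push_cast
      have r1 := (abs_le_nrm x a).trans h2'
      have r2 := (abs_le_nrm x b).trans h2'
      have r3 := (abs_le_nrm x' a).trans h4'
      have r4 := (abs_le_nrm x' b).trans h4'
      calc |(x a : ℝ) * x' b - x b * x' a| ≤ |(x a : ℝ) * x' b| + |(x b : ℝ) * x' a| := abs_sub _ _
        _ = |(x a : ℝ)| * |(x' b : ℝ)| + |(x b : ℝ)| * |(x' a : ℝ)| := by rw [abs_mul, abs_mul]
        _ ≤ B * B + B * B := by
            refine add_le_add (mul_le_mul r1 r4 (abs_nonneg _) hB0)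
              (mul_le_mul r2 r3 (abs_nonneg _) hB0)
        _ = 2 * (B : ℝ) ^ 2 := by ring
    have q10 : (1 / 16 : ℝ) ^ D = (1 / 4) ^ D * (1 / 4) ^ D := by
      rw [← mul_pow]
      norm_num
    have hBD : (0 : ℝ) ≤ (1 / 4) ^ D * (B : ℝ) ^ (2 * D) := by positivity
    calc (1 / 16 : ℝ) ^ D * (B : ℝ) ^ (2 * D) * wd x x'
        = (1 / 4) ^ D * ((1 / 4) ^ D * (B : ℝ) ^ (2 * D)) * wd x x' := by rw [q10]; ring
      _ ≤ 1 / 4 * ((1 / 4) ^ D * (B : ℝ) ^ (2 * D)) * (2 * (B : ℝ) ^ 2) := by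
          refine mul_le_mul (mul_le_mul_of_nonneg_right q3 hBD) hwd (by positivity) (by positivity)
      _ ≤ (B : ℝ) ^ 2 * (3 / 4 * ((1 / 4) ^ D * (B : ℝ) ^ (2 * D))) := by
          have : (0 : ℝ) ≤ (B : ℝ) ^ 2 * ((1 / 4) ^ D * (B : ℝ) ^ (2 * D)) := by positivity
          linarith
      _ ≤ _ := mul_le_mul_of_nonneg_left q9 (by positivity)

end Minor

theorem minor_block (N D : ℕ) (hD : 1 ≤ D) : ∃ c : ℝ, 0 < c ∧ ∀ (B : ℕ) (x x' : Fin N → ℤ),
    B < 2 * nrm x → nrm x ≤ B → B < 2 * nrm x' → nrm x' ≤ B →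
    ∃ s s' : Mon N D, c * (B : ℝ) ^ (2 * D) * wd x x' ≤
      (B : ℝ) ^ 2 * |((bm s x * bm s' x' - bm s' x * bm s x' : ℤ) : ℝ)| :=
  ⟨(1 / 16) ^ D, by positivity, fun B x x' h1 h2 h3 h4 => Minor.block N D hD B x x' h1 h2 h3 h4⟩

namespace Minor

/-- Elementary inequality for the choice among four minors. -/
theorem four (p q U U' V V' : ℝ) :
    |p - q| * (|U| * |V'|) ≤ 4 * |p * U * V' - q * V * U'| ∨
    |p - q| * (|U| * |V'|) ≤ 4 * |q * U * V' - p * V * U'| ∨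
    |p - q| * (|U| * |V'|) ≤ 4 * |(p - q) * (U * U')| ∨
    |p - q| * (|U| * |V'|) ≤ 4 * |(p - q) * (V * V')| := by
  by_cases hc : |U| * |V'| ≤ 16 * (|V| * |U'|)
  · -- the exponents of one of the points
    have h1 : (|U| * |V'|) * (|U| * |V'|) ≤ 16 * ((|U| * |U'|) * (|V| * |V'|)) := by
      have h0 : 0 ≤ |U| * |V'| := by positivity
      nlinarith
    by_cases h2 : |U| * |V'| ≤ 4 * (|U| * |U'|)
    · right; right; left
      rw [abs_mul, abs_mul U U']
      have := abs_nonneg (p - q)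
      nlinarith
    · right; right; right
      push Not at h2
      have h3 : |U| * |V'| ≤ 4 * (|V| * |V'|) := by
        by_contra h4
        push Not at h4
        have a1 : 0 ≤ |U| * |U'| := by positivity
        have a2 : 0 ≤ |V| * |V'| := by positivity
        nlinarith
      rw [abs_mul, abs_mul V V']
      have := abs_nonneg (p - q)
      nlinarith
  · push Not at hc
    have h1 : |p * U * V'| - |q * V * U'| ≤ |p * U * V' - q * V * U'| := abs_sub_abs_le_abs_sub _ _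
    have h2 : |q * U * V'| - |p * V * U'| ≤ |q * U * V' - p * V * U'| := abs_sub_abs_le_abs_sub _ _
    simp only [abs_mul] at h1 h2
    have h3 : |p - q| ≤ |p| + |q| := abs_sub _ _
    have hp := abs_nonneg p
    have hq := abs_nonneg q
    have hα : 0 ≤ |U| * |V'| := by positivity
    have hβ : 0 ≤ |V| * |U'| := by positivity
    by_contra hcon
    push Not at hcon
    obtain ⟨c1, c2, -, -⟩ := hcon
    have k1 : |p - q| * (|U| * |V'|) ≤ (|p| + |q|) * (|U| * |V'|) :=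
      mul_le_mul_of_nonneg_right h3 hα
    have k2 : (|p| + |q|) * (|V| * |U'|) ≤ (|p| + |q|) * (1 / 16 * (|U| * |V'|)) :=
      mul_le_mul_of_nonneg_left (by linarith) (by positivity)
    nlinarith

theorem mono_update {k : ℕ} {n d : Fin k → ℕ} {R : Type} [CommRing R] (u : Exps n d)
    (i : Fin k) (t : Mon (n i + 1) (d i)) (P : Pt n R) :
    mono (Function.update u i t) P = bm t (P i) * ∏ l ∈ univ.erase i, bm (u l) (P l) := by
  unfold mono
  rw [← Finset.mul_prod_erase univ _ (Finset.mem_univ i), Function.update_self]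
  congr 1
  refine Finset.prod_congr rfl fun l hl => ?_
  rw [Function.update_of_ne (Finset.ne_of_mem_erase hl)]

/-- Lower bound for the product of the other blocks. -/
theorem prod_lower {k : ℕ} {n d : Fin k → ℕ} (X : Fin k → ℕ) (P : Pt n ℤ) (hP : Shell X P)
    (i : Fin k) (a : (l : Fin k) → Fin (n l + 1)) (ha : ∀ l, |(P l (a l) : ℝ)| = nrm (P l)) :
    ∏ l ∈ univ.erase i, ((1 / 2 : ℝ) ^ d l * (X l : ℝ) ^ d l) ≤
      |((∏ l ∈ univ.erase i, bm (pw (d l) (a l)) (P l) : ℤ) : ℝ)| := by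
  rw [Int.cast_prod, Finset.abs_prod]
  refine Finset.prod_le_prod (fun l _ => by positivity) fun l _ => ?_
  rw [bm_pw]
  push_cast
  rw [abs_pow, ha, ← mul_pow]
  have h : (X l : ℝ) < 2 * nrm (P l) := by exact_mod_cast (hP l).1
  exact pow_le_pow_left₀ (by positivity) (by linarith) _

end Minor

theorem minor_multi {k : ℕ} (n d : Fin k → ℕ) (hd : ∀ i, 1 ≤ d i) : ∃ c : ℝ, 0 < c ∧
    ∀ (X : Fin k → ℕ) (P P' : Pt n ℤ), Shell X P → Shell X P' → ∀ i,
    ∃ s s' : Exps n d, c * Sz d X ^ 2 * wd (P i) (P' i) ≤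
      (X i : ℝ) ^ 2 * |((mono s P * mono s' P' - mono s' P * mono s P' : ℤ) : ℝ)| := by
  refine ⟨1 / 4 * ∏ l, (1 / 16 : ℝ) ^ d l, by positivity, fun X P P' hP hP' i => ?_⟩
  obtain ⟨t, t', htt⟩ := Minor.block (n i + 1) (d i) (hd i) (X i) (P i) (P' i) (hP i).1 (hP i).2
    (hP' i).1 (hP' i).2
  have hpos : ∀ l, 0 < nrm (P l) := fun l => by have := (hP l).1; omega
  have hpos' : ∀ l, 0 < nrm (P' l) := fun l => by have := (hP' l).1; omega
  choose a ha using fun l => Minor.exists_nrm (P l) (hpos l)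
  choose b hb using fun l => Minor.exists_nrm (P' l) (hpos' l)
  set u : Exps n d := fun l => Minor.pw (d l) (a l) with hu
  set v : Exps n d := fun l => Minor.pw (d l) (b l) with hv
  set U : ℤ := ∏ l ∈ univ.erase i, bm (u l) (P l) with hU
  set U' : ℤ := ∏ l ∈ univ.erase i, bm (u l) (P' l) with hU'
  set V : ℤ := ∏ l ∈ univ.erase i, bm (v l) (P l) with hV
  set V' : ℤ := ∏ l ∈ univ.erase i, bm (v l) (P' l) with hV'
  have l1 : ∏ l ∈ univ.erase i, ((1 / 2 : ℝ) ^ d l * (X l : ℝ) ^ d l) ≤ |(U : ℝ)| :=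
    Minor.prod_lower X P hP i a ha
  have l2 : ∏ l ∈ univ.erase i, ((1 / 2 : ℝ) ^ d l * (X l : ℝ) ^ d l) ≤ |(V' : ℝ)| :=
    Minor.prod_lower X P' hP' i b hb
  set A : ℝ := ∏ l ∈ univ.erase i, ((1 / 2 : ℝ) ^ d l * (X l : ℝ) ^ d l) with hA
  have hA0 : 0 ≤ A := Finset.prod_nonneg fun l _ => by positivity
  have hAA : A * A ≤ |(U : ℝ)| * |(V' : ℝ)| := mul_le_mul l1 l2 hA0 (hA0.trans l1)
  -- the constant
  have hconst : (1 / 4 * ∏ l, (1 / 16 : ℝ) ^ d l) * Sz d X ^ 2 * wd (P i) (P' i) ≤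
      1 / 4 * ((1 / 16 : ℝ) ^ d i * (X i : ℝ) ^ (2 * d i) * wd (P i) (P' i)) * (A * A) := by
    have e1 : ∏ l, (1 / 16 : ℝ) ^ d l =
        (1 / 16 : ℝ) ^ d i * ∏ l ∈ univ.erase i, (1 / 16 : ℝ) ^ d l :=
      (Finset.mul_prod_erase univ _ (Finset.mem_univ i)).symm
    have e2 : Sz d X = (X i : ℝ) ^ d i * ∏ l ∈ univ.erase i, (X l : ℝ) ^ d l :=
      (Finset.mul_prod_erase univ _ (Finset.mem_univ i)).symm
    have e3 : (∏ l ∈ univ.erase i, (1 / 16 : ℝ) ^ d l) *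
        (∏ l ∈ univ.erase i, (X l : ℝ) ^ d l) ^ 2 ≤ A * A := by
      rw [hA, ← Finset.prod_pow, ← Finset.prod_mul_distrib, ← Finset.prod_mul_distrib]
      refine Finset.prod_le_prod (fun l _ => by positivity) fun l _ => ?_
      have h1 : (1 / 16 : ℝ) ^ d l ≤ (1 / 2) ^ d l * (1 / 2) ^ d l := by
        rw [← mul_pow]
        exact pow_le_pow_left₀ (by norm_num) (by norm_num) _
      calc (1 / 16 : ℝ) ^ d l * ((X l : ℝ) ^ d l) ^ 2
          ≤ (1 / 2) ^ d l * (1 / 2) ^ d l * ((X l : ℝ) ^ d l) ^ 2 :=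
            mul_le_mul_of_nonneg_right h1 (by positivity)
        _ = _ := by ring
    rw [e1, e2]
    have hw0 : (0 : ℝ) ≤ 1 / 4 * ((1 / 16 : ℝ) ^ d i * (X i : ℝ) ^ (2 * d i) * wd (P i) (P' i)) := by
      positivity
    have := mul_le_mul_of_nonneg_left e3 hw0
    refine le_trans (le_of_eq ?_) this
    ring
  have hmain : ∀ M : ℝ, |((bm t (P i) * bm t' (P' i) : ℤ) : ℝ) -
      ((bm t' (P i) * bm t (P' i) : ℤ) : ℝ)| * (|(U : ℝ)| * |(V' : ℝ)|) ≤ 4 * M →
      (1 / 4 * ∏ l, (1 / 16 : ℝ) ^ d l) * Sz d X ^ 2 * wd (P i) (P' i) ≤ (X i : ℝ) ^ 2 * M := by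
    intro M hM
    refine hconst.trans ?_
    rw [← Int.cast_sub] at hM
    have hX : (0 : ℝ) ≤ (X i : ℝ) ^ 2 := by positivity
    have hAA0 : 0 ≤ A * A := mul_nonneg hA0 hA0
    have h1 := mul_le_mul_of_nonneg_right htt hAA0
    have h2 := mul_le_mul_of_nonneg_left hAA (mul_nonneg hX
      (abs_nonneg (((bm t (P i) * bm t' (P' i) - bm t' (P i) * bm t (P' i) : ℤ) : ℝ))))
    have h3 := mul_le_mul_of_nonneg_left hM hX
    linarith
  have m1 : mono (Function.update u i t) P = bm t (P i) * U := Minor.mono_update u i t P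
  have m2 : mono (Function.update u i t') P = bm t' (P i) * U := Minor.mono_update u i t' P
  have m3 : mono (Function.update v i t) P = bm t (P i) * V := Minor.mono_update v i t P
  have m4 : mono (Function.update v i t') P = bm t' (P i) * V := Minor.mono_update v i t' P
  have m1' : mono (Function.update u i t) P' = bm t (P' i) * U' := Minor.mono_update u i t P'
  have m2' : mono (Function.update u i t') P' = bm t' (P' i) * U' := Minor.mono_update u i t' P'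
  have m3' : mono (Function.update v i t) P' = bm t (P' i) * V' := Minor.mono_update v i t P'
  have m4' : mono (Function.update v i t') P' = bm t' (P' i) * V' := Minor.mono_update v i t' P'
  rcases Minor.four ((bm t (P i) * bm t' (P' i) : ℤ) : ℝ) ((bm t' (P i) * bm t (P' i) : ℤ) : ℝ)
    (U : ℝ) (U' : ℝ) (V : ℝ) (V' : ℝ) with h | h | h | h
  · refine ⟨Function.update u i t, Function.update v i t', ?_⟩
    rw [m1, m4', m4, m1']
    refine (hmain _ h).trans (le_of_eq ?_)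
    congr 2
    push_cast
    ring
  · refine ⟨Function.update u i t', Function.update v i t, ?_⟩
    rw [m2, m3', m3, m2']
    refine (hmain _ h).trans (le_of_eq ?_)
    congr 2
    push_cast
    ring
  · refine ⟨Function.update u i t, Function.update u i t', ?_⟩
    rw [m1, m2', m2, m1']
    refine (hmain _ h).trans (le_of_eq ?_)
    congr 2
    push_cast
    ring
  · refine ⟨Function.update v i t, Function.update v i t', ?_⟩
    rw [m3, m4', m4, m3']
    refine (hmain _ h).trans (le_of_eq ?_)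
    congr 2
    push_cast
    ring

end Pool.Agent.HP
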