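import Pool.Agent.Lib.MP_fc0680_nt.Upper
import Pool.Agent.Lib.MP_fc0680_nt.Minor
import Pool.Agent.Lib.MP_fc0680_nt.Bez

/-!
# MP_fc0680_nt, module PBDIFF: number of forms with prescribed values at two points
-/

set_option autoImplicit false
open Finset Filter

namespace Pool.Agent.HP

theorem pb_diff {k : ℕ} (n d : Fin k → ℕ) (hn : ∀ i, 1 ≤ n i) (hd : ∀ i, 1 ≤ d i) :
    ∃ C : ℕ, 0 < C ∧ ∀ (X : Fin k → ℕ) (H ρ G : ℕ) (P P' : Pt n ℤ) (w w' : ℤ), 1 ≤ H → ρ ≤ H →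
    0 < G → Shell X P → Shell X P' → (∀ i, Umod (P i)) →
    Cov2 ρ (fun s : Exps n d => mono s P) (fun s => mono s P') →
    (∃ b : Exps n d → ℤ, ∑ s, b s * mono s P = 0 ∧ ∑ s, b s * mono s P' = G) →
    ∀ i, (((box (Exps n d) H).filter fun c => evZ c P = w ∧ evZ c P' = w').card : ℝ) *
      ((H : ℝ) ^ 2 * Sz d X ^ 2) * wd (P i) (P' i) ≤
      C * (2 * (H : ℝ) + 1) ^ Fintype.card (Exps n d) * G * (X i : ℝ) ^ 2 := by
  obtain ⟨c, hc, hmin⟩ := minor_multi n d hd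
  set M := Fintype.card (Exps n d) with hM
  refine ⟨⌈(2 : ℝ) ^ M / c⌉₊ + 1, Nat.succ_pos _, ?_⟩
  intro X H ρ G P P' w w' hH hρ hG hP hP' hu hcov hb i
  obtain ⟨s, s', hss⟩ := hmin X P P' hP hP' i
  set N : ℕ := ((box (Exps n d) H).filter fun c => evZ c P = w ∧ evZ c P' = w').card with hN
  obtain ⟨b₁, hb₁⟩ := bez_one (n := n) (d := d) P hu
  have hup := upper2 (fun s : Exps n d => mono s P) (fun s => mono s P') s s' ρ G hcov hG
    ⟨b₁, hb₁⟩ hb H w w'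
  have hNeq : ((box (Exps n d) H).filter fun c => ∑ i, c i * mono i P = w ∧
      ∑ i, c i * mono i P' = w').card = N := by
    rw [hN]
    congr 1
  rw [hNeq] at hup
  set D : ℤ := mono s P * mono s' P' - mono s' P * mono s P' with hD
  have hH1 : (1 : ℝ) ≤ H := by exact_mod_cast hH
  have hRnn : (0 : ℝ) ≤ (⌈(2 : ℝ) ^ M / c⌉₊ + 1 : ℕ) * (2 * (H : ℝ) + 1) ^ M * G * (X i : ℝ) ^ 2 := by
    positivity
  by_cases hM2 : M < 2
  · -- fewer than two monomials: the minor vanishes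
    have hsub : s = s' := by
      have : Fintype.card (Exps n d) ≤ 1 := by omega
      exact (Fintype.card_le_one_iff.1 this) s s'
    have hD0 : D = 0 := by rw [hD, hsub]; ring
    rw [hD0] at hss
    simp only [Int.cast_zero, abs_zero, mul_zero] at hss
    have h2 : Sz d X ^ 2 * (wd (P i) (P' i) : ℝ) ≤ 0 := by
      by_contra hcon
      push Not at hcon
      have := mul_pos hc hcon
      nlinarith
    have h3 : (N : ℝ) * ((H : ℝ) ^ 2 * Sz d X ^ 2) * wd (P i) (P' i) =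
      ((N : ℝ) * (H : ℝ) ^ 2) * (Sz d X ^ 2 * (wd (P i) (P' i) : ℝ)) := by ring
    rw [h3]
    exact (mul_nonpos_of_nonneg_of_nonpos (by positivity) h2).trans hRnn
  · push Not at hM2
    have hup' : (N : ℝ) * |(D : ℝ)| ≤ (G : ℝ) * (2 * ((H : ℝ) + ρ) + 1) ^ (M - 2) := by
      have h := hup
      have h2 : ((N * D.natAbs : ℕ) : ℝ) ≤ ((G * (2 * (H + ρ) + 1) ^ (M - 2) : ℕ) : ℝ) := by
        exact_mod_cast h
      push_cast at h2
      rw [Nat.cast_natAbs, Int.cast_abs] at h2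
      exact h2
    have hρ' : (ρ : ℝ) ≤ H := by exact_mod_cast hρ
    have h4 : (2 * ((H : ℝ) + ρ) + 1) ^ (M - 2) ≤ (2 * (2 * (H : ℝ) + 1)) ^ (M - 2) := by
      apply pow_le_pow_left₀ (by positivity)
      nlinarith
    have h5 : (H : ℝ) ^ 2 * (2 * (2 * (H : ℝ) + 1)) ^ (M - 2) ≤ 2 ^ M * (2 * (H : ℝ) + 1) ^ M := by
      obtain ⟨r, hr⟩ := Nat.exists_eq_add_of_le hM2
      have hr2 : M - 2 = r := by omega
      rw [hr2, hr, mul_pow, pow_add (2 : ℝ) 2 r, pow_add (2 * (H : ℝ) + 1) 2 r]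
      have h6 : (H : ℝ) ^ 2 ≤ 2 ^ 2 * (2 * (H : ℝ) + 1) ^ 2 := by nlinarith
      have h7 : (0 : ℝ) ≤ 2 ^ r * (2 * (H : ℝ) + 1) ^ r := by positivity
      nlinarith [mul_le_mul_of_nonneg_right h6 h7]
    have hX : (0 : ℝ) ≤ (X i : ℝ) ^ 2 := by positivity
    -- combine
    have h8 : c * ((N : ℝ) * ((H : ℝ) ^ 2 * Sz d X ^ 2) * wd (P i) (P' i)) ≤
        2 ^ M * (2 * (H : ℝ) + 1) ^ M * G * (X i : ℝ) ^ 2 := by
      calc c * ((N : ℝ) * ((H : ℝ) ^ 2 * Sz d X ^ 2) * wd (P i) (P' i))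
          = ((N : ℝ) * (H : ℝ) ^ 2) * (c * Sz d X ^ 2 * wd (P i) (P' i)) := by ring
        _ ≤ ((N : ℝ) * (H : ℝ) ^ 2) * ((X i : ℝ) ^ 2 * |(D : ℝ)|) :=
            mul_le_mul_of_nonneg_left hss (by positivity)
        _ = ((H : ℝ) ^ 2 * (X i : ℝ) ^ 2) * ((N : ℝ) * |(D : ℝ)|) := by ring
        _ ≤ ((H : ℝ) ^ 2 * (X i : ℝ) ^ 2) * ((G : ℝ) * (2 * ((H : ℝ) + ρ) + 1) ^ (M - 2)) :=
            mul_le_mul_of_nonneg_left hup' (by positivity)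
        _ ≤ ((H : ℝ) ^ 2 * (X i : ℝ) ^ 2) * ((G : ℝ) * (2 * (2 * (H : ℝ) + 1)) ^ (M - 2)) := by
            apply mul_le_mul_of_nonneg_left _ (by positivity)
            exact mul_le_mul_of_nonneg_left h4 (by positivity)
        _ = ((X i : ℝ) ^ 2 * G) * ((H : ℝ) ^ 2 * (2 * (2 * (H : ℝ) + 1)) ^ (M - 2)) := by ring
        _ ≤ ((X i : ℝ) ^ 2 * G) * (2 ^ M * (2 * (H : ℝ) + 1) ^ M) :=
            mul_le_mul_of_nonneg_left h5 (by positivity)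
        _ = _ := by ring
    have h9 : (N : ℝ) * ((H : ℝ) ^ 2 * Sz d X ^ 2) * wd (P i) (P' i) ≤
        (2 : ℝ) ^ M / c * ((2 * (H : ℝ) + 1) ^ M * G * (X i : ℝ) ^ 2) := by
      rw [div_mul_eq_mul_div, le_div_iff₀ hc]
      nlinarith
    have h10 : (2 : ℝ) ^ M / c ≤ ((⌈(2 : ℝ) ^ M / c⌉₊ + 1 : ℕ) : ℝ) := by
      push_cast
      linarith [Nat.le_ceil ((2 : ℝ) ^ M / c)]
    calc _ ≤ _ := h9
      _ ≤ ((⌈(2 : ℝ) ^ M / c⌉₊ + 1 : ℕ) : ℝ) * ((2 * (H : ℝ) + 1) ^ M * G * (X i : ℝ) ^ 2) :=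
          mul_le_mul_of_nonneg_right h10 (by positivity)
      _ = _ := by ring

end Pool.Agent.HP
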