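import Pool.Agent.Lib.MP_fc0680_nt.Fib
import Pool.Agent.Lib.MP_fc0680_nt.Upper
import Pool.Agent.Lib.MP_fc0680_nt.CovDual
import Pool.Agent.Lib.MP_fc0680_nt.SpanBm
import Pool.Agent.Lib.MP_fc0680_nt.Bez
import Pool.Agent.Lib.MP_fc0680_nt.Minor
import Pool.Agent.Lib.MP_fc0680_nt.Deriv

/-!
# MP_fc0680_nt, module PBSAME

Number of forms with prescribed values at two points that agree up to sign outside one block.
-/

set_option autoImplicit false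

open Finset

namespace Pool.Agent.HP

namespace PbSame

/-- Exponents of the blocks different from `i₀`. -/
abbrev Ex' {k : ℕ} (n d : Fin k → ℕ) (i₀ : Fin k) : Type :=
  (j : {j : Fin k // j ≠ i₀}) → Mon (n j.1 + 1) (d j.1)

/-- Product of the monomials of the blocks different from `i₀`. -/
def tau {k : ℕ} {n d : Fin k → ℕ} {i₀ : Fin k} (P : Pt n ℤ) (a : Ex' n d i₀) : ℤ :=
  ∏ j : {j : Fin k // j ≠ i₀}, bm (a j) (P j.1)

/-- Splitting of the exponents. -/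
def sp {k : ℕ} (n d : Fin k → ℕ) (i₀ : Fin k) :
    Ex' n d i₀ × Mon (n i₀ + 1) (d i₀) ≃ Exps n d :=
  (Equiv.prodComm _ _).trans (Equiv.piSplitAt i₀ (fun i => Mon (n i + 1) (d i))).symm

theorem mono_sp {k : ℕ} {n d : Fin k → ℕ} {i₀ : Fin k} (P : Pt n ℤ)
    (p : Ex' n d i₀ × Mon (n i₀ + 1) (d i₀)) :
    mono (sp n d i₀ p) P = tau P p.1 * bm p.2 (P i₀) := by
  have h : (Equiv.piSplitAt i₀ (fun i => Mon (n i + 1) (d i))) (sp n d i₀ p) = (p.2, p.1) := by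
    unfold sp
    simp only [Equiv.trans_apply, Equiv.prodComm_apply, Prod.swap]
    exact Equiv.apply_symm_apply _ _
  have h1 : (sp n d i₀ p) i₀ = p.2 := congrArg Prod.fst h
  have h2 : ∀ j : {j : Fin k // j ≠ i₀}, (sp n d i₀ p) j.1 = p.1 j := fun j =>
    congrFun (congrArg Prod.snd h) j
  unfold mono tau
  rw [Fintype.prod_eq_mul_prod_subtype_ne _ i₀, h1, mul_comm]
  congr 1
  exact Finset.prod_congr rfl fun j _ => by rw [h2]

theorem ev_sp {k : ℕ} {n d : Fin k → ℕ} (i₀ : Fin k) (P : Pt n ℤ) (c : Exps n d → ℤ) :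
    (∑ s, c s * mono s P) = ∑ b : Mon (n i₀ + 1) (d i₀),
      (∑ a : Ex' n d i₀, c (sp n d i₀ (a, b)) * tau P a) * bm b (P i₀) := by
  rw [← Equiv.sum_comp (sp n d i₀), Fintype.sum_prod_type_right]
  refine Finset.sum_congr rfl fun b _ => ?_
  rw [Finset.sum_mul]
  refine Finset.sum_congr rfl fun a _ => ?_
  rw [mono_sp]
  ring

theorem ev_sp' {k : ℕ} {n d : Fin k → ℕ} (i₀ : Fin k) (P : Pt n ℤ) (c : Exps n d → ℤ) :
    (∑ s, c s * mono s P) = ∑ a : Ex' n d i₀,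
      (∑ b : Mon (n i₀ + 1) (d i₀), c (sp n d i₀ (a, b)) * bm b (P i₀)) * tau P a := by
  rw [← Equiv.sum_comp (sp n d i₀), Fintype.sum_prod_type]
  refine Finset.sum_congr rfl fun a _ => ?_
  rw [Finset.sum_mul]
  refine Finset.sum_congr rfl fun b _ => ?_
  rw [mono_sp]
  ring

theorem evZ_int {k : ℕ} {n d : Fin k → ℕ} (P : Pt n ℤ) (c : Exps n d → ℤ) :
    evZ c P = ∑ s, c s * mono s P := by
  simp [evZ, ev]

theorem natAbs_prod {ι : Type} (s : Finset ι) (f : ι → ℤ) :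
    (∏ i ∈ s, f i).natAbs = ∏ i ∈ s, (f i).natAbs :=
  map_prod Int.natAbsHom f s

theorem bm_natAbs {N D : ℕ} (s : Mon N D) (x : Fin N → ℤ) :
    (bm s x).natAbs = ∏ j, (x j).natAbs ^ (s.1 j : ℕ) := by
  unfold bm
  rw [natAbs_prod]
  exact Finset.prod_congr rfl fun j _ => Int.natAbs_pow _ _

theorem bm_le {N D : ℕ} (s : Mon N D) (x : Fin N → ℤ) : (bm s x).natAbs ≤ nrm x ^ D := by
  rw [bm_natAbs]
  calc ∏ j, (x j).natAbs ^ (s.1 j : ℕ) ≤ ∏ j, nrm x ^ (s.1 j : ℕ) :=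
        Finset.prod_le_prod' fun j _ =>
          Nat.pow_le_pow_left (Finset.le_sup (f := fun j => (x j).natAbs) (Finset.mem_univ j)) _
    _ = nrm x ^ D := by rw [Finset.prod_pow_eq_pow_sum, s.2]

/-- The monomial `X_j ^ D`. -/
def pw {N : ℕ} (D : ℕ) (j : Fin N) : Mon N D :=
  ⟨fun i => if i = j then Fin.last D else 0, by
    rw [Finset.sum_eq_single j]
    · simp
    · intro i _ hi
      simp [hi]
    · intro h
      exact absurd (Finset.mem_univ j) h⟩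

theorem bm_pw {N D : ℕ} (j : Fin N) (x : Fin N → ℤ) : bm (pw D j) x = x j ^ D := by
  unfold bm pw
  rw [Finset.prod_eq_single j]
  · simp
  · intro i _ hi
    simp [hi]
  · intro h
    exact absurd (Finset.mem_univ j) h

theorem exists_pivot {N : ℕ} (x : Fin (N + 1) → ℤ) : ∃ j, (x j).natAbs = nrm x := by
  obtain ⟨j, _, hj⟩ := Finset.exists_mem_eq_sup (univ : Finset (Fin (N + 1)))
    Finset.univ_nonempty (fun j => (x j).natAbs)
  exact ⟨j, hj.symm⟩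

theorem tau_le {k : ℕ} {n d : Fin k → ℕ} {i₀ : Fin k} (X : Fin k → ℕ) (P : Pt n ℤ)
    (hP : ∀ i, nrm (P i) ≤ X i) (a : Ex' n d i₀) :
    (tau P a).natAbs ≤ ∏ j ∈ univ.erase i₀, X j ^ d j := by
  unfold tau
  rw [natAbs_prod, Finset.prod_subtype (univ.erase i₀) (p := fun j => j ≠ i₀) (by simp)]
  exact Finset.prod_le_prod' fun j _ =>
    (bm_le _ _).trans (Nat.pow_le_pow_left (hP j.1) _)

theorem tau_ge {k : ℕ} {n d : Fin k → ℕ} {i₀ : Fin k} (X : Fin k → ℕ) (P : Pt n ℤ)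
    (hP : ∀ i, X i < 2 * nrm (P i)) : ∃ a : Ex' n d i₀,
    ∏ j ∈ univ.erase i₀, X j ^ d j ≤ 2 ^ (∑ j ∈ univ.erase i₀, d j) * (tau P a).natAbs := by
  choose pv hpv using fun j : {j : Fin k // j ≠ i₀} => exists_pivot (P j.1)
  refine ⟨fun j => pw (d j.1) (pv j), ?_⟩
  unfold tau
  rw [natAbs_prod, Finset.prod_subtype (univ.erase i₀) (p := fun j => j ≠ i₀) (by simp),
    Finset.sum_subtype (univ.erase i₀) (p := fun j => j ≠ i₀) (by simp),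
    ← Finset.prod_pow_eq_pow_sum, ← Finset.prod_mul_distrib]
  refine Finset.prod_le_prod' fun j _ => ?_
  rw [bm_pw, Int.natAbs_pow, hpv, ← mul_pow]
  exact Nat.pow_le_pow_left (hP j.1).le _

theorem exists_sign {k : ℕ} {n d : Fin k → ℕ} {i₀ : Fin k} (P P' : Pt n ℤ)
    (hP : ∀ i, Umod (P i)) (hP' : ∀ i, Umod (P' i))
    (h : ∀ j, j ≠ i₀ → wd (P j) (P' j) = 0) :
    ∃ ε : ℤ, ε * ε = 1 ∧ ∀ a : Ex' n d i₀, tau P' a = ε * tau P a := by
  have key : ∀ j : {j : Fin k // j ≠ i₀}, ∃ ε : ℤ, ε * ε = 1 ∧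
      ∀ s : Mon (n j.1 + 1) (d j.1), bm s (P' j.1) = ε * bm s (P j.1) := by
    intro j
    rcases wd_eq_zero_of_prim _ _ (hP j.1) (hP' j.1) (h j.1 j.2) with e | e
    · exact ⟨1, by norm_num, fun s => by rw [e, one_mul]⟩
    · refine ⟨(-1) ^ (d j.1), ?_, fun s => ?_⟩
      · rw [← mul_pow]
        norm_num
      · rw [e, ← bm_smul]
        congr 1
        funext i
        simp
  choose ε hε hε' using key
  refine ⟨∏ j, ε j, ?_, fun a => ?_⟩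
  · rw [← Finset.prod_mul_distrib]
    exact Finset.prod_eq_one fun j _ => hε j
  · unfold tau
    rw [← Finset.prod_mul_distrib]
    exact Finset.prod_congr rfl fun j _ => hε' j _

theorem card_mon_ge {N D : ℕ} (hN : 1 ≤ N) (hD : 1 ≤ D) : 2 ≤ Fintype.card (Mon (N + 1) D) := by
  have h : (pw D (0 : Fin (N + 1))) ≠ pw D (Fin.last N) := by
    intro h
    have h2 := congrArg (fun s : Mon (N + 1) D => (s.1 0 : ℕ)) h
    have h3 : (0 : Fin (N + 1)) ≠ Fin.last N := by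
      intro h
      have := congrArg Fin.val h
      simp at this
      omega
    simp only [pw, if_true] at h2
    rw [if_neg h3] at h2
    simp at h2
    omega
  exact Fintype.one_lt_card_iff.mpr ⟨_, _, h⟩

theorem arith (a b σ D : ℕ) (Nc Ng τ Δ T H G X wd c₀ : ℝ) (hNc : 0 ≤ Nc)
    (hΔ : 0 ≤ Δ) (hT : 1 ≤ T) (hH : 1 ≤ H) (hG : 0 ≤ G)
    (hc₀ : 0 < c₀)
    (h1 : Nc * τ ^ (b + 2) ≤ Ng * ((2 * (2 * H + 1)) ^ a) ^ (b + 2))
    (h2 : Ng * Δ ≤ G * ((a + 2) * T * (2 * H + 1)) ^ b)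
    (h3 : T ≤ 2 ^ σ * τ) (h4 : c₀ * X ^ (2 * D) * wd ≤ X ^ 2 * Δ) :
    Nc * (H ^ 2 * (T * X ^ D) ^ 2) * wd ≤
      ((2 : ℝ) ^ (σ * (b + 2)) * 2 ^ (a * (b + 2)) * (a + 2) ^ b / c₀) *
        (2 * H + 1) ^ ((a + 1) * (b + 2)) * G * X ^ 2 := by
  have hT0 : 0 < T := by linarith
  have hH1 : 0 < 2 * H + 1 := by linarith
  set K0 : ℝ := (2 : ℝ) ^ (σ * (b + 2)) * 2 ^ (a * (b + 2)) * (a + 2) ^ b with hK0
  have s1 : Nc * T ^ 2 * Δ * T ^ b ≤ K0 * (2 * H + 1) ^ (a * (b + 2) + b) * G * T ^ b := by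
    calc Nc * T ^ 2 * Δ * T ^ b = Nc * T ^ (b + 2) * Δ := by ring
      _ ≤ Nc * (2 ^ σ * τ) ^ (b + 2) * Δ := by
          gcongr
      _ = 2 ^ (σ * (b + 2)) * (Nc * τ ^ (b + 2)) * Δ := by
          rw [mul_pow, ← pow_mul]; ring
      _ ≤ 2 ^ (σ * (b + 2)) * (Ng * ((2 * (2 * H + 1)) ^ a) ^ (b + 2)) * Δ := by
          gcongr
      _ = 2 ^ (σ * (b + 2)) * ((2 * (2 * H + 1)) ^ a) ^ (b + 2) * (Ng * Δ) := by ring
      _ ≤ 2 ^ (σ * (b + 2)) * ((2 * (2 * H + 1)) ^ a) ^ (b + 2) *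
            (G * ((a + 2) * T * (2 * H + 1)) ^ b) := by
          gcongr
      _ = K0 * (2 * H + 1) ^ (a * (b + 2) + b) * G * T ^ b := by
          rw [hK0, ← pow_mul, mul_pow, mul_pow, mul_pow, pow_add]; ring
  have s2 : Nc * T ^ 2 * Δ ≤ K0 * (2 * H + 1) ^ (a * (b + 2) + b) * G :=
    le_of_mul_le_mul_right s1 (pow_pos hT0 b)
  have hK0' : 0 ≤ K0 := by positivity
  have s3 : Nc * (H ^ 2 * (T * X ^ D) ^ 2) * wd * c₀ ≤
      K0 * (2 * H + 1) ^ ((a + 1) * (b + 2)) * G * X ^ 2 := by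
    calc Nc * (H ^ 2 * (T * X ^ D) ^ 2) * wd * c₀
        = Nc * H ^ 2 * T ^ 2 * (c₀ * X ^ (2 * D) * wd) := by
          rw [mul_pow, ← pow_mul, mul_comm D 2]; ring
      _ ≤ Nc * H ^ 2 * T ^ 2 * (X ^ 2 * Δ) := by
          gcongr
      _ = (Nc * T ^ 2 * Δ) * X ^ 2 * H ^ 2 := by ring
      _ ≤ (K0 * (2 * H + 1) ^ (a * (b + 2) + b) * G) * X ^ 2 * H ^ 2 := by
          gcongr
      _ ≤ (K0 * (2 * H + 1) ^ (a * (b + 2) + b) * G) * X ^ 2 * (2 * H + 1) ^ 2 := by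
          gcongr
          linarith
      _ = K0 * (2 * H + 1) ^ ((a + 1) * (b + 2)) * G * X ^ 2 := by
          have : (a + 1) * (b + 2) = (a * (b + 2) + b) + 2 := by ring
          rw [this, pow_add _ (a * (b + 2) + b) 2]; ring
  calc Nc * (H ^ 2 * (T * X ^ D) ^ 2) * wd
      = (Nc * (H ^ 2 * (T * X ^ D) ^ 2) * wd * c₀) / c₀ := by field_simp
    _ ≤ (K0 * (2 * H + 1) ^ ((a + 1) * (b + 2)) * G * X ^ 2) / c₀ := by gcongr
    _ = _ := by ring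

theorem main {k : ℕ} (n d : Fin k → ℕ) (i₀ : Fin k) (hn : ∀ i, 1 ≤ n i) (hd : ∀ i, 1 ≤ d i)
    (hd2 : 2 ≤ d i₀) :
    ∃ C : ℕ, 0 < C ∧ ∀ (X : Fin k → ℕ) (H μ : ℕ) (P P' : Pt n ℤ) (w w' : ℤ), 1 ≤ H → 1 ≤ μ →
    Shell X P → Shell X P' → (∀ i, Umod (P i)) → (∀ i, Umod (P' i)) → GoodSpan μ (P i₀) →
    GoodSpan μ (P' i₀) → (∀ j, j ≠ i₀ → wd (P j) (P' j) = 0) → wd (P i₀) (P' i₀) ≠ 0 →
    C * ∏ j ∈ univ.erase i₀, X j ^ d j ≤ H →
    C * μ ^ 2 ≤ H * ∏ j ∈ univ.erase i₀, X j ^ d j →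
    (((box (Exps n d) H).filter fun c => evZ c P = w ∧ evZ c P' = w').card : ℝ) *
      ((H : ℝ) ^ 2 * Sz d X ^ 2) * wd (P i₀) (P' i₀) ≤
      C * (2 * (H : ℝ) + 1) ^ Fintype.card (Exps n d) * gd (P i₀) (P' i₀) * (X i₀ : ℝ) ^ 2 := by
  classical
  obtain ⟨c₀, hc₀, hminor⟩ := minor_block (n i₀ + 1) (d i₀) (hd i₀)
  -- the two cardinalities
  obtain ⟨a, ha⟩ : ∃ a, Fintype.card (Ex' n d i₀) = a + 1 := by
    have : 0 < Fintype.card (Ex' n d i₀) :=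
      Fintype.card_pos_iff.mpr ⟨fun j => pw (d j.1) 0⟩
    exact ⟨Fintype.card (Ex' n d i₀) - 1, by omega⟩
  obtain ⟨b, hb⟩ : ∃ b, Fintype.card (Mon (n i₀ + 1) (d i₀)) = b + 2 := by
    have := card_mon_ge (N := n i₀) (D := d i₀) (hn i₀) (hd i₀)
    exact ⟨Fintype.card (Mon (n i₀ + 1) (d i₀)) - 2, by omega⟩
  have hM : Fintype.card (Exps n d) = (a + 1) * (b + 2) := by
    rw [← Fintype.card_congr (sp n d i₀), Fintype.card_prod, ha, hb]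
  set σ := ∑ j ∈ univ.erase i₀, d j with hσ
  set K0 : ℝ := (2 : ℝ) ^ (σ * (b + 2)) * 2 ^ (a * (b + 2)) * (a + 2) ^ b / c₀ with hK0
  refine ⟨(a + 1) + 2 * (b + 2) + ⌈K0⌉₊, by omega, ?_⟩
  intro X H μ P P' w w' hH hμ hS hS' hU hU' hg hg' hwd0 hwd hC1 hC2
  set T := ∏ j ∈ univ.erase i₀, X j ^ d j with hTdef
  set C := (a + 1) + 2 * (b + 2) + ⌈K0⌉₊ with hCdef
  have hX1 : ∀ i, 1 ≤ X i := by
    intro i
    have h1 := (hS i).1
    have h2 := (hS i).2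
    omega
  have hT1 : 1 ≤ T := Finset.one_le_prod' fun j _ => Nat.one_le_pow _ _ (hX1 j)
  obtain ⟨ε, hε, hετ⟩ := exists_sign (d := d) (i₀ := i₀) P P' hU hU' hwd0
  obtain ⟨as, has⟩ := tau_ge (d := d) (i₀ := i₀) X P (fun i => (hS i).1)
  have htau := tau_le (d := d) (i₀ := i₀) X P (fun i => (hS i).2)
  have hG : 0 < gd (P i₀) (P' i₀) := (gd_pos_iff _ _).mpr hwd
  -- Bezout data
  obtain ⟨be, hbe⟩ := bez_one (d := d) P hU
  have hbe' : ∑ s, be s * mono s P = 1 := hbe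
  have hb1A : ∃ b' : Ex' n d i₀ → ℤ, ∑ a, b' a * tau P a = 1 :=
    ⟨fun a => ∑ b : Mon (n i₀ + 1) (d i₀), be (sp n d i₀ (a, b)) * bm b (P i₀), by
      rw [← ev_sp', hbe']⟩
  have hb1B : ∃ b' : Mon (n i₀ + 1) (d i₀) → ℤ, ∑ s, b' s * bm s (P i₀) = 1 :=
    ⟨fun b => ∑ a : Ex' n d i₀, be (sp n d i₀ (a, b)) * tau P a, by
      rw [← ev_sp, hbe']⟩
  obtain ⟨l, hl0, hl1⟩ := exists_lin (P i₀) (P' i₀)
  obtain ⟨bl, hbl0, hbl1⟩ := bez_lin (d := d) P P' hU' i₀ (hd i₀) l hl0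
  have hbl0' : ∑ s, bl s * mono s P = 0 := hbl0
  have hbl1' : ∑ s, bl s * mono s P' = gd (P i₀) (P' i₀) := by
    rw [← hl1]
    exact hbl1
  have hev' : ∀ c : Exps n d → ℤ, (∑ s, c s * mono s P') =
      ε * ∑ b : Mon (n i₀ + 1) (d i₀),
        (∑ a : Ex' n d i₀, c (sp n d i₀ (a, b)) * tau P a) * bm b (P' i₀) := by
    intro c
    rw [ev_sp i₀ P' c, Finset.mul_sum]
    refine Finset.sum_congr rfl fun b _ => ?_
    rw [← mul_assoc, Finset.mul_sum]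
    congr 1
    refine Finset.sum_congr rfl fun a _ => ?_
    rw [hετ]
    ring
  have hb2B : ∃ b' : Mon (n i₀ + 1) (d i₀) → ℤ, ∑ s, b' s * bm s (P i₀) = 0 ∧
      ∑ s, b' s * bm s (P' i₀) = (gd (P i₀) (P' i₀) : ℕ) := by
    refine ⟨fun b => ε * ∑ a : Ex' n d i₀, bl (sp n d i₀ (a, b)) * tau P a, ?_, ?_⟩
    · have : ∀ s : Mon (n i₀ + 1) (d i₀),
          (ε * ∑ a : Ex' n d i₀, bl (sp n d i₀ (a, s)) * tau P a) * bm s (P i₀) =
          ε * ((∑ a : Ex' n d i₀, bl (sp n d i₀ (a, s)) * tau P a) * bm s (P i₀)) :=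
        fun s => by ring
      simp_rw [this]
      rw [← Finset.mul_sum, ← ev_sp, hbl0', mul_zero]
    · have : ∀ s : Mon (n i₀ + 1) (d i₀),
          (ε * ∑ a : Ex' n d i₀, bl (sp n d i₀ (a, s)) * tau P a) * bm s (P' i₀) =
          ε * ((∑ a : Ex' n d i₀, bl (sp n d i₀ (a, s)) * tau P a) * bm s (P' i₀)) :=
        fun s => by ring
      simp_rw [this]
      rw [← Finset.mul_sum, ← hev', hbl1']
  -- the count over the product
  have hcardE : ((box (Exps n d) H).filter fun c => evZ c P = w ∧ evZ c P' = w').card =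
      ((box (Ex' n d i₀ × Mon (n i₀ + 1) (d i₀)) H).filter fun c =>
        (fun g : Mon (n i₀ + 1) (d i₀) → ℤ => ∑ s, g s * bm s (P i₀) = w ∧
          ∑ s, g s * bm s (P' i₀) = ε * w')
        (fun s => ∑ a : Ex' n d i₀, c (a, s) * tau P a)).card := by
    refine Finset.card_equiv ((sp n d i₀).symm.arrowCongr (Equiv.refl ℤ)) fun c => ?_
    have hco : ∀ p, ((sp n d i₀).symm.arrowCongr (Equiv.refl ℤ)) c p = c (sp n d i₀ p) :=
      fun p => rfl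
    simp only [Finset.mem_filter, hco]
    refine and_congr ?_ ?_
    · simp only [box, Fintype.mem_piFinset, hco]
      constructor
      · intro h p
        exact h _
      · intro h s
        have := h ((sp n d i₀).symm s)
        rwa [Equiv.apply_symm_apply] at this
    · rw [evZ_int, evZ_int, ev_sp i₀ P c, hev' c]
      refine and_congr Iff.rfl ?_
      constructor
      · intro h
        rw [← h, ← mul_assoc, hε, one_mul]
      · intro h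
        rw [h, ← mul_assoc, hε, one_mul]
  have hfib := fib (A := Ex' n d i₀) (B := Mon (n i₀ + 1) (d i₀)) (tau P) T htau hb1A as H
    (fun g : Mon (n i₀ + 1) (d i₀) → ℤ => ∑ s, g s * bm s (P i₀) = w ∧
          ∑ s, g s * bm s (P' i₀) = ε * w')
  rw [← hcardE] at hfib
  -- the count over the block
  have hcov : Cov2 (Fintype.card (Mon (n i₀ + 1) (d i₀)) * (2 * μ ^ 2))
      (fun s : Mon (n i₀ + 1) (d i₀) => bm s (P i₀)) (fun s => bm s (P' i₀)) :=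
    cov2_of_dual2 _ _ _ (dual2_bm μ hμ hd2 (P i₀) (P' i₀) hwd hg hg')
  obtain ⟨s, s', hss⟩ := hminor (X i₀) (P i₀) (P' i₀) (hS i₀).1 (hS i₀).2 (hS' i₀).1 (hS' i₀).2
  have hup := upper2 (fun s : Mon (n i₀ + 1) (d i₀) => bm s (P i₀)) (fun s => bm s (P' i₀)) s s'
    _ (gd (P i₀) (P' i₀)) hcov hG hb1B hb2B (Fintype.card (Ex' n d i₀) * T * H) w (ε * w')
  set Nc := ((box (Exps n d) H).filter fun c => evZ c P = w ∧ evZ c P' = w').card with hNc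
  set Ng := ((box (Mon (n i₀ + 1) (d i₀)) (Fintype.card (Ex' n d i₀) * T * H)).filter
    fun g => ∑ s, g s * bm s (P i₀) = w ∧ ∑ s, g s * bm s (P' i₀) = ε * w').card with hNg
  rw [ha, hb] at hfib
  rw [ha, hb] at hup
  have hab1 : a + 1 - 1 = a := by omega
  have hab2 : b + 2 - 2 = b := by omega
  rw [hab1] at hfib
  rw [hab2] at hup
  have hCa : (a + 1) * T ≤ H := le_trans (Nat.mul_le_mul_right T (by omega)) hC1
  have hCb : (b + 2) * (2 * μ ^ 2) ≤ H * T := by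
    calc (b + 2) * (2 * μ ^ 2) = (2 * (b + 2)) * μ ^ 2 := by ring
      _ ≤ C * μ ^ 2 := Nat.mul_le_mul_right _ (by omega)
      _ ≤ H * T := hC2
  have h1 : Nc * (tau P as).natAbs ^ (b + 2) ≤ Ng * ((2 * (2 * H + 1)) ^ a) ^ (b + 2) := by
    refine hfib.trans (Nat.mul_le_mul_left _ ?_)
    exact Nat.pow_le_pow_left (Nat.pow_le_pow_left (by omega) _) _
  have h2 : Ng * (bm s (P i₀) * bm s' (P' i₀) - bm s' (P i₀) * bm s (P' i₀)).natAbs ≤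
      gd (P i₀) (P' i₀) * ((a + 2) * T * (2 * H + 1)) ^ b := by
    refine hup.trans (Nat.mul_le_mul_left _ (Nat.pow_le_pow_left ?_ _))
    have : (a + 2) * T * (2 * H + 1) = 2 * ((a + 1) * T * H) + 2 * (H * T) + (a + 2) * T := by
      ring
    rw [this]
    have h5 : 1 ≤ (a + 2) * T := Nat.one_le_iff_ne_zero.mpr (by positivity)
    omega
  have hS2 : Sz d X = (T : ℝ) * (X i₀ : ℝ) ^ (d i₀) := by
    unfold Sz
    rw [← Finset.mul_prod_erase univ _ (Finset.mem_univ i₀), hTdef, mul_comm]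
    push_cast
    rfl
  rw [hS2, hM]
  have h1' : (Nc : ℝ) * ((tau P as).natAbs : ℝ) ^ (b + 2) ≤
      Ng * ((2 * (2 * (H : ℝ) + 1)) ^ a) ^ (b + 2) := by exact_mod_cast h1
  have h2' : (Ng : ℝ) *
      |((bm s (P i₀) * bm s' (P' i₀) - bm s' (P i₀) * bm s (P' i₀) : ℤ) : ℝ)| ≤
      gd (P i₀) (P' i₀) * (((a : ℝ) + 2) * T * (2 * (H : ℝ) + 1)) ^ b := by
    rw [← Int.cast_abs, ← Nat.cast_natAbs]
    exact_mod_cast h2
  have h3' : (T : ℝ) ≤ 2 ^ σ * ((tau P as).natAbs : ℝ) := by exact_mod_cast has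
  have hmain := arith a b σ (d i₀) Nc Ng _ _ T H (gd (P i₀) (P' i₀)) (X i₀) (wd (P i₀) (P' i₀))
    c₀ (Nat.cast_nonneg _) (abs_nonneg _) (by exact_mod_cast hT1)
    (by exact_mod_cast hH) (Nat.cast_nonneg _) hc₀ h1' h2' h3' hss
  refine hmain.trans ?_
  have hCK : K0 ≤ (C : ℝ) := by
    have h6 : K0 ≤ (⌈K0⌉₊ : ℝ) := Nat.le_ceil _
    have h7 : ((⌈K0⌉₊ : ℕ) : ℝ) ≤ (C : ℝ) := by exact_mod_cast (by omega : ⌈K0⌉₊ ≤ C)
    linarith
  gcongr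

end PbSame

theorem pb_same {k : ℕ} (n d : Fin k → ℕ) (i₀ : Fin k) (hn : ∀ i, 1 ≤ n i) (hd : ∀ i, 1 ≤ d i)
    (hd2 : 2 ≤ d i₀) :
    ∃ C : ℕ, 0 < C ∧ ∀ (X : Fin k → ℕ) (H μ : ℕ) (P P' : Pt n ℤ) (w w' : ℤ), 1 ≤ H → 1 ≤ μ →
    Shell X P → Shell X P' → (∀ i, Umod (P i)) → (∀ i, Umod (P' i)) → GoodSpan μ (P i₀) →
    GoodSpan μ (P' i₀) → (∀ j, j ≠ i₀ → wd (P j) (P' j) = 0) → wd (P i₀) (P' i₀) ≠ 0 →
    C * ∏ j ∈ univ.erase i₀, X j ^ d j ≤ H →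
    C * μ ^ 2 ≤ H * ∏ j ∈ univ.erase i₀, X j ^ d j →
    (((box (Exps n d) H).filter fun c => evZ c P = w ∧ evZ c P' = w').card : ℝ) *
      ((H : ℝ) ^ 2 * Sz d X ^ 2) * wd (P i₀) (P' i₀) ≤
      C * (2 * (H : ℝ) + 1) ^ Fintype.card (Exps n d) * gd (P i₀) (P' i₀) * (X i₀ : ℝ) ^ 2 :=
  PbSame.main n d i₀ hn hd hd2

end Pool.Agent.HP
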