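import Pool.Agent.Lib.MP_fc0680_nt.Bez

/-!
# MP_fc0680_nt, module SUMT

Number of integer vectors `t'` of size at most `T` such that `g` divides all minors of `(t, t')`.
-/

set_option autoImplicit false

open Finset Filter

namespace Pool.Agent.HP

namespace SumT

/-- Integers of size at most `T` in one class modulo `q`. -/
theorem card_class_le (T q : ℕ) (hq : 1 ≤ q) (A : Finset ℤ) (hA : ∀ u ∈ A, u ∈ Finset.Icc (-(T : ℤ)) T)
    (hd : ∀ u ∈ A, ∀ v ∈ A, (q : ℤ) ∣ u - v) : A.card ≤ 2 * T / q + 1 := by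
  have hq' : (0 : ℤ) < q := by exact_mod_cast hq
  have h : A.card ≤ (Finset.range (2 * T / q + 1)).card := by
    refine Finset.card_le_card_of_injOn (fun u => ((u + T) / (q : ℤ)).toNat) ?_ ?_
    · intro u hu
      have hu' := Finset.mem_Icc.1 (hA u hu)
      have h1 : (u + T) / (q : ℤ) ≤ ((2 * T / q : ℕ) : ℤ) := by
        rw [Int.natCast_div]
        exact Int.ediv_le_ediv hq' (by push_cast; linarith)
      have h0 : 0 ≤ (u + T) / (q : ℤ) := Int.ediv_nonneg (by linarith) hq'.le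
      simp only [Finset.coe_range, Set.mem_Iio]
      omega
    · intro u hu v hv huv
      have hu' := Finset.mem_Icc.1 (hA u hu)
      have hv' := Finset.mem_Icc.1 (hA v hv)
      have h0 : 0 ≤ (u + T) / (q : ℤ) := Int.ediv_nonneg (by linarith) hq'.le
      have h0' : 0 ≤ (v + T) / (q : ℤ) := Int.ediv_nonneg (by linarith) hq'.le
      have h1 : (u + T) / (q : ℤ) = (v + T) / (q : ℤ) := by
        have : ((u + T) / (q : ℤ)).toNat = ((v + T) / (q : ℤ)).toNat := huv
        omega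
      have h2 : (u + T) % (q : ℤ) = (v + T) % (q : ℤ) := by
        have h3 : v + T - (u + T) = v - u := by ring
        exact Int.modEq_iff_dvd.2 (h3 ▸ hd v hv u hu)
      have h3 := Int.mul_ediv_add_emod (u + T) q
      have h4 := Int.mul_ediv_add_emod (v + T) q
      rw [h1, h2] at h3
      linarith
  rwa [Finset.card_range] at h

theorem nrm_le_iff {N : ℕ} (x : Fin N → ℤ) (B : ℕ) : nrm x ≤ B ↔ ∀ j, (x j).natAbs ≤ B := by
  unfold nrm
  rw [Finset.sup_le_iff]
  exact ⟨fun h j => h j (Finset.mem_univ j), fun h j _ => h j⟩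

theorem le_nrm {N : ℕ} (x : Fin N → ℤ) (j : Fin N) : (x j).natAbs ≤ nrm x :=
  (nrm_le_iff x _).1 le_rfl j

theorem exists_pivot {N : ℕ} (x : Fin N → ℤ) (h : 0 < nrm x) : ∃ i, (x i).natAbs = nrm x := by
  have hne : (Finset.univ : Finset (Fin N)).Nonempty := by
    by_contra hcon
    rw [Finset.not_nonempty_iff_eq_empty] at hcon
    unfold nrm at h
    rw [hcon] at h
    simp at h
  obtain ⟨i, _, hi⟩ := Finset.exists_mem_eq_sup _ hne (fun j => (x j).natAbs)
  exact ⟨i, hi.symm⟩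

theorem mem_box_fin {N : ℕ} (B : ℕ) (x : Fin N → ℤ) :
    x ∈ box (Fin N) B ↔ ∀ j, x j ∈ Finset.Icc (-(B : ℤ)) B := by
  unfold box
  rw [Fintype.mem_piFinset]

/-- Natural number version of the count. -/
theorem sumt_nat (N : ℕ) (T g : ℕ) (t : Fin N → ℤ) (hg : 1 ≤ g) (ht : Umod t) (i : Fin N)
    (h : ℕ) (hh : h = Int.gcd (t i) g) :
    ((box (Fin N) T).filter fun t' => g ∣ gd t t').card ≤
      (2 * T / (g / h) + 1) ^ (N - 1) * (2 * T / h + 1) := by
  classical
  have hgz : (g : ℤ) ≠ 0 := by exact_mod_cast (by omega : g ≠ 0)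
  have hhpos : 0 < h := by
    rw [hh]
    exact Int.gcd_pos_of_ne_zero_right _ hgz
  have hhg : h ∣ g := by
    have : (h : ℤ) ∣ (g : ℤ) := by rw [hh]; exact Int.gcd_dvd_right _ _
    exact Int.natCast_dvd_natCast.1 this
  have hht : (h : ℤ) ∣ t i := by rw [hh]; exact Int.gcd_dvd_left _ _
  set q : ℕ := g / h with hq
  have hgq : g = h * q := by rw [hq, Nat.mul_div_cancel' hhg]
  have hqpos : 1 ≤ q := by
    rcases Nat.eq_zero_or_pos q with h0 | h0
    · rw [h0] at hgq; omega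
    · exact h0
  set S := (box (Fin N) T).filter fun t' => g ∣ gd t t' with hS
  have hmem : ∀ t' ∈ S, (∀ j, t' j ∈ Finset.Icc (-(T : ℤ)) T) ∧
      ∀ l, (g : ℤ) ∣ t i * t' l - t l * t' i := by
    intro t' ht'
    rw [hS, Finset.mem_filter, mem_box_fin] at ht'
    exact ⟨ht'.1, fun l => (Int.natCast_dvd_natCast.2 ht'.2).trans (gd_dvd t t' i l)⟩
  -- divisibility of the pivot entry
  have hpiv : ∀ t' ∈ S, (h : ℤ) ∣ t' i := by
    intro t' ht'
    obtain ⟨e, he⟩ := ht
    have h1 : ∀ l, (h : ℤ) ∣ t l * t' i := by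
      intro l
      have h2 : (h : ℤ) ∣ t i * t' l - t l * t' i :=
        (Int.natCast_dvd_natCast.2 hhg).trans ((hmem t' ht').2 l)
      have h3 : t l * t' i = t i * t' l - (t i * t' l - t l * t' i) := by ring
      rw [h3]
      exact dvd_sub (Dvd.dvd.mul_right hht _) h2
    have h4 : t' i = ∑ l, e l * (t l * t' i) := by
      simp_rw [← mul_assoc]
      rw [← Finset.sum_mul, he, one_mul]
    rw [h4]
    exact Finset.dvd_sum fun l _ => Dvd.dvd.mul_left (h1 l) _
  -- fibres of the pivot entry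
  have hfib : ∀ a ∈ S.image (fun t' => t' i),
      (S.filter fun t' => t' i = a).card ≤ (2 * T / q + 1) ^ (N - 1) := by
    intro a _
    set A : Fin N → Finset ℤ := fun l => if l = i then {a} else
      (Finset.Icc (-(T : ℤ)) T).filter fun u => (g : ℤ) ∣ t i * u - t l * a with hA
    have hsub : S.filter (fun t' => t' i = a) ⊆ Fintype.piFinset A := by
      intro t' ht'
      rw [Finset.mem_filter] at ht'
      rw [Fintype.mem_piFinset]
      intro l
      by_cases hl : l = i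
      · rw [hA]
        simp only [hl, if_true, Finset.mem_singleton]
        exact ht'.2
      · rw [hA]
        simp only [hl, if_false, Finset.mem_filter]
        refine ⟨(hmem t' ht'.1).1 l, ?_⟩
        have := (hmem t' ht'.1).2 l
        rwa [ht'.2] at this
    refine (Finset.card_le_card hsub).trans ?_
    rw [Fintype.card_piFinset, ← Finset.mul_prod_erase _ _ (Finset.mem_univ i)]
    have hAi : (A i).card = 1 := by
      rw [hA]; simp
    rw [hAi, one_mul]
    have hcard : (univ.erase i : Finset (Fin N)).card = N - 1 := by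
      rw [Finset.card_erase_of_mem (Finset.mem_univ i), Finset.card_univ, Fintype.card_fin]
    rw [← hcard]
    refine Finset.prod_le_pow_card _ _ _ fun l hl => ?_
    have hl' : l ≠ i := (Finset.mem_erase.1 hl).1
    have hAl : A l = (Finset.Icc (-(T : ℤ)) T).filter fun u => (g : ℤ) ∣ t i * u - t l * a := by
      rw [hA]; simp [hl']
    rw [hAl]
    refine card_class_le T q hqpos _ (fun u hu => (Finset.mem_filter.1 hu).1) ?_
    intro u hu v hv
    have hu' := (Finset.mem_filter.1 hu).2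
    have hv' := (Finset.mem_filter.1 hv).2
    have h1 : (g : ℤ) ∣ t i * (u - v) := by
      have := dvd_sub hu' hv'
      have h2 : t i * u - t l * a - (t i * v - t l * a) = t i * (u - v) := by ring
      rwa [h2] at this
    obtain ⟨t₁, ht₁⟩ := hht
    have h2 : (q : ℤ) ∣ t₁ * (u - v) := by
      rw [hgq, ht₁, Nat.cast_mul, mul_assoc] at h1
      exact (mul_dvd_mul_iff_left (by exact_mod_cast hhpos.ne')).1 h1
    have hcop : IsCoprime (q : ℤ) t₁ := by
      rw [Int.isCoprime_iff_gcd_eq_one]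
      have h3 : Int.gcd (t i) g = h * Int.gcd t₁ q := by
        rw [ht₁, hgq, Nat.cast_mul, Int.gcd_mul_left, Int.natAbs_natCast]
      rw [← hh] at h3
      have h4 : Int.gcd t₁ q = 1 := by
        have : h * 1 = h * Int.gcd t₁ q := by rw [mul_one]; exact h3
        exact (Nat.eq_of_mul_eq_mul_left hhpos this).symm
      rw [Int.gcd_comm]
      exact h4
    exact hcop.dvd_of_dvd_mul_left h2
  refine (Finset.card_le_mul_card_image S _ hfib).trans ?_
  refine Nat.mul_le_mul_left _ ?_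
  refine card_class_le T h hhpos _ ?_ ?_
  · intro a ha
    obtain ⟨t', ht', rfl⟩ := Finset.mem_image.1 ha
    exact (hmem t' ht').1 i
  · intro a ha b hb
    obtain ⟨t', ht', rfl⟩ := Finset.mem_image.1 ha
    obtain ⟨t'', ht'', rfl⟩ := Finset.mem_image.1 hb
    exact dvd_sub (hpiv t' ht') (hpiv t'' ht'')

end SumT

open SumT in
theorem sumt (N : ℕ) (hN : 2 ≤ N) : ∃ C : ℝ, 0 < C ∧ ∀ (T g : ℕ) (t : Fin N → ℤ), 1 ≤ g →
    T < 2 * nrm t → nrm t ≤ T → Umod t →
    (((box (Fin N) T).filter fun t' => g ∣ gd t t').card : ℝ) ≤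
      C * ((T : ℝ) ^ N / g + (T : ℝ) ^ (N - 1)) := by
  obtain ⟨m, rfl⟩ : ∃ m, N = m + 2 := ⟨N - 2, by omega⟩
  refine ⟨3 * 4 ^ (m + 1), by positivity, ?_⟩
  intro T g t hg hT1 hT2 ht
  have hnpos : 0 < nrm t := by omega
  obtain ⟨i, hi⟩ := exists_pivot t hnpos
  set h : ℕ := Int.gcd (t i) g with hh
  have hti : t i ≠ 0 := by
    intro h0
    rw [h0] at hi
    simp at hi
    omega
  have hhpos : 0 < h := Int.gcd_pos_of_ne_zero_left _ hti
  have hhT : h ≤ T := by
    have h1 : h ∣ (t i).natAbs := by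
      have : (h : ℤ) ∣ t i := Int.gcd_dvd_left _ _
      rwa [Int.natCast_dvd] at this
    have := Nat.le_of_dvd (by omega) h1
    omega
  have hhg : h ∣ g := by
    have : (h : ℤ) ∣ (g : ℤ) := Int.gcd_dvd_right _ _
    exact Int.natCast_dvd_natCast.1 this
  have hhg' : h ≤ g := Nat.le_of_dvd hg hhg
  have hmain := sumt_nat (m + 2) T g t hg ht i h hh
  have hT : (1 : ℝ) ≤ T := by exact_mod_cast (by omega : 1 ≤ T)
  have hh0 : (0 : ℝ) < h := by exact_mod_cast hhpos
  have hg0 : (0 : ℝ) < g := by exact_mod_cast hg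
  have hhTr : (h : ℝ) ≤ T := by exact_mod_cast hhT
  have hhgr : (h : ℝ) ≤ g := by exact_mod_cast hhg'
  have h1 : ((2 * T / h + 1 : ℕ) : ℝ) ≤ 3 * T / h := by
    push_cast
    have h2 : ((2 * T / h : ℕ) : ℝ) ≤ ((2 * T : ℕ) : ℝ) / h := Nat.cast_div_le
    push_cast at h2
    have h3 : (1 : ℝ) ≤ T / h := by rw [le_div_iff₀ hh0]; linarith
    calc ((2 * T / h : ℕ) : ℝ) + 1 ≤ 2 * T / h + T / h := add_le_add h2 h3
      _ = 3 * T / h := by ring
  have h2 : ((2 * T / (g / h) + 1 : ℕ) : ℝ) ≤ 2 * T * h / g + 1 := by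
    push_cast
    have h3 : ((2 * T / (g / h) : ℕ) : ℝ) ≤ ((2 * T : ℕ) : ℝ) / ((g / h : ℕ) : ℝ) := Nat.cast_div_le
    rw [Nat.cast_div hhg hh0.ne'] at h3
    push_cast at h3
    have h4 : 2 * (T : ℝ) / ((g : ℝ) / h) = 2 * T * h / g := by
      field_simp
    rw [h4] at h3
    linarith
  have h3 : (((box (Fin (m + 2)) T).filter fun t' => g ∣ gd t t').card : ℝ) ≤
      (2 * T * h / g + 1) ^ (m + 1) * (3 * T / h) := by
    calc (((box (Fin (m + 2)) T).filter fun t' => g ∣ gd t t').card : ℝ)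
        ≤ (((2 * T / (g / h) + 1) ^ (m + 2 - 1) * (2 * T / h + 1) : ℕ) : ℝ) := by
          exact_mod_cast hmain
      _ = ((2 * T / (g / h) + 1 : ℕ) : ℝ) ^ (m + 1) * ((2 * T / h + 1 : ℕ) : ℝ) := by
          push_cast
          rfl
      _ ≤ (2 * T * h / g + 1) ^ (m + 1) * (3 * T / h) := by
          gcongr
  refine h3.trans ?_
  have h4 : (2 * (T : ℝ) * h / g + 1) ^ (m + 1) ≤
      2 ^ m * ((2 * T * h / g) ^ (m + 1) + 1) := by
    have := add_pow_le (by positivity : (0 : ℝ) ≤ 2 * T * h / g) (zero_le_one) (m + 1)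
    simpa using this
  have h5 : (2 * (T : ℝ) * h / g) ^ (m + 1) * (3 * T / h) ≤
      3 * 2 ^ (m + 1) * (T ^ (m + 2) / g) := by
    have h6 : (h : ℝ) ^ m ≤ g ^ m := pow_le_pow_left₀ hh0.le hhgr m
    calc (2 * (T : ℝ) * h / g) ^ (m + 1) * (3 * T / h)
        = 3 * 2 ^ (m + 1) * (T ^ (m + 2) / g) * (h ^ m / g ^ m) := by
          rw [div_pow, mul_pow, mul_pow]
          have e1 : (g : ℝ) ^ (m + 1) = g ^ m * g := pow_succ _ _
          have e2 : (h : ℝ) ^ (m + 1) = h ^ m * h := pow_succ _ _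
          have e3 : (T : ℝ) ^ (m + 2) = T ^ (m + 1) * T := pow_succ _ _
          rw [e1, e2, e3]
          field_simp
      _ ≤ 3 * 2 ^ (m + 1) * (T ^ (m + 2) / g) * 1 := by
          gcongr
          rw [div_le_one (by positivity)]
          exact h6
      _ = 3 * 2 ^ (m + 1) * (T ^ (m + 2) / g) := mul_one _
  have h6 : (3 * (T : ℝ) / h) ≤ 3 * T ^ (m + 1) := by
    have h7 : (3 * (T : ℝ) / h) ≤ 3 * T := by
      rw [div_le_iff₀ hh0]
      have : (1 : ℝ) ≤ h := by exact_mod_cast hhpos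
      nlinarith
    have h8 : (T : ℝ) ≤ T ^ (m + 1) := le_self_pow₀ hT (by omega)
    linarith
  calc (2 * (T : ℝ) * h / g + 1) ^ (m + 1) * (3 * T / h)
      ≤ (2 ^ m * ((2 * T * h / g) ^ (m + 1) + 1)) * (3 * T / h) := by gcongr
    _ = 2 ^ m * ((2 * (T : ℝ) * h / g) ^ (m + 1) * (3 * T / h) + 3 * T / h) := by ring
    _ ≤ 2 ^ m * (3 * 2 ^ (m + 1) * (T ^ (m + 2) / g) + 3 * T ^ (m + 1)) := by gcongr
    _ ≤ 3 * 4 ^ (m + 1) * ((T : ℝ) ^ (m + 2) / g + (T : ℝ) ^ (m + 2 - 1)) := by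
        have h9 : m + 2 - 1 = m + 1 := rfl
        rw [h9]
        have h10 : (4 : ℝ) ^ (m + 1) = 2 ^ m * 2 ^ (m + 1) * 2 := by
          rw [show (4 : ℝ) = 2 * 2 by norm_num, mul_pow]
          ring
        have h11 : (0 : ℝ) ≤ T ^ (m + 2) / g := by positivity
        have h12 : (0 : ℝ) ≤ (T : ℝ) ^ (m + 1) := by positivity
        have h13 : (1 : ℝ) ≤ 2 ^ (m + 1) := one_le_pow₀ (by norm_num)
        have h14 : (0 : ℝ) < 2 ^ m := by positivity
        rw [h10]
        nlinarith [mul_nonneg (mul_nonneg h14.le (by linarith : (0 : ℝ) ≤ 2 ^ (m + 1))) h11,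
          mul_nonneg (mul_nonneg h14.le (by linarith : (0 : ℝ) ≤ 2 ^ (m + 1) * 2 - 1)) h12]

end Pool.Agent.HP
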