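import Pool.Agent.Lib.MP_fc0680_nt.SumX
import Pool.Agent.Lib.MP_fc0680_nt.SumT

/-!
# MP_fc0680_nt, module SUMB: the double sum for two or more blocks
-/

set_option autoImplicit false
open Finset

namespace Pool.Agent.HP

namespace SumB

variable {N : ℕ}

theorem le_nrm (x : Fin N → ℤ) (j : Fin N) : (x j).natAbs ≤ nrm x :=
  Finset.le_sup (f := fun j => (x j).natAbs) (mem_univ j)

theorem minor_le (x y : Fin N → ℤ) (a b : Fin N) :
    (x a * y b - x b * y a).natAbs ≤ wd x y :=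
  Finset.le_sup (f := fun p : Fin N × Fin N => (x p.1 * y p.2 - x p.2 * y p.1).natAbs)
    (mem_univ (a, b))

theorem gd_dvd_minor (x y : Fin N → ℤ) (a b : Fin N) :
    gd x y ∣ (x a * y b - x b * y a).natAbs :=
  Finset.gcd_dvd (f := fun p : Fin N × Fin N => (x p.1 * y p.2 - x p.2 * y p.1).natAbs)
    (mem_univ (a, b))

theorem exists_minor {x y : Fin N → ℤ} (h : wd x y ≠ 0) :
    ∃ a b, (x a * y b - x b * y a).natAbs ≠ 0 := by
  by_contra hcon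
  push Not at hcon
  apply h
  refine Nat.le_zero.mp (Finset.sup_le fun p _ => ?_)
  rw [hcon p.1 p.2]

theorem gd_pos {x y : Fin N → ℤ} (h : wd x y ≠ 0) : 0 < gd x y := by
  obtain ⟨a, b, hab⟩ := exists_minor h
  rcases Nat.eq_zero_or_pos (gd x y) with h0 | h0
  · exact absurd (Nat.eq_zero_of_zero_dvd (h0 ▸ gd_dvd_minor x y a b)) hab
  · exact h0

theorem gd_le_wd' {x y : Fin N → ℤ} (h : wd x y ≠ 0) : gd x y ≤ wd x y := by
  obtain ⟨a, b, hab⟩ := exists_minor h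
  exact (Nat.le_of_dvd (Nat.pos_of_ne_zero hab) (gd_dvd_minor x y a b)).trans (minor_le x y a b)

theorem wd_le_sq {x y : Fin N → ℤ} {B : ℕ} (hx : nrm x ≤ B) (hy : nrm y ≤ B) :
    wd x y ≤ 2 * B ^ 2 := by
  refine Finset.sup_le fun p _ => ?_
  calc (x p.1 * y p.2 - x p.2 * y p.1).natAbs
      ≤ (x p.1 * y p.2).natAbs + (x p.2 * y p.1).natAbs := Int.natAbs_sub_le _ _
    _ = (x p.1).natAbs * (y p.2).natAbs + (x p.2).natAbs * (y p.1).natAbs := by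
        rw [Int.natAbs_mul, Int.natAbs_mul]
    _ ≤ B * B + B * B := add_le_add
        (Nat.mul_le_mul ((le_nrm x _).trans hx) ((le_nrm y _).trans hy))
        (Nat.mul_le_mul ((le_nrm x _).trans hx) ((le_nrm y _).trans hy))
    _ = 2 * B ^ 2 := by ring

theorem mem_box {ι : Type} [Fintype ι] [DecidableEq ι] {H : ℕ} {c : ι → ℤ} :
    c ∈ box ι H ↔ ∀ j, (c j).natAbs ≤ H := by
  unfold box
  rw [Fintype.mem_piFinset]
  refine forall_congr' fun j => ?_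
  rw [mem_Icc]
  omega

theorem card_box_le (N B : ℕ) (hB : 1 ≤ B) : ((box (Fin N) B).card : ℝ) ≤ (3 * (B : ℝ)) ^ N := by
  unfold box
  rw [Fintype.card_piFinset_const, Int.card_Icc]
  have e : ((B : ℤ) + 1 - -(B : ℤ)).toNat = 2 * B + 1 := by omega
  rw [e]
  push_cast
  have h : (1 : ℝ) ≤ B := by exact_mod_cast hB
  exact pow_le_pow_left₀ (by positivity) (by linarith) _

theorem card_F_le {N B : ℕ} (F : Finset (Fin N → ℤ)) (h : ∀ x ∈ F, B < 2 * nrm x ∧ nrm x ≤ B) :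
    (F.card : ℝ) ≤ (3 * (B : ℝ)) ^ N := by
  rcases F.eq_empty_or_nonempty with he | ⟨x, hx⟩
  · rw [he]; simp only [card_empty, Nat.cast_zero]; positivity
  · have hB : 1 ≤ B := by
      have := h x hx
      omega
    refine le_trans ?_ (card_box_le N B hB)
    exact_mod_cast card_le_card fun y hy => mem_box.mpr fun j => (le_nrm y j).trans (h y hy).2

/-- inner sum over `y` -/
theorem inner (n : ℕ) (hn : 2 ≤ n) : ∃ C : ℝ, 0 < C ∧ ∀ (B Δ : ℕ) (x : Fin (n + 1) → ℤ),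
    1 ≤ Δ → B < 2 * nrm x → nrm x ≤ B → Umod x → Sep Δ x →
    ∀ (G w₀ : ℕ) (κ : ℝ) (Y : Finset (Fin (n + 1) → ℤ)), 0 < G → 0 ≤ κ →
    (∀ y ∈ Y, nrm y ≤ B ∧ wd x y ≠ 0 ∧ (wd x y : ℝ) ≤ κ * (B : ℝ) ^ 2 ∧
      w₀ < Nat.gcd G (gd x y)) →
    ∑ y ∈ Y, ((Nat.gcd G (gd x y) : ℝ) / (wd x y : ℝ)) ≤
      C * (((B : ℝ) / Δ) * G + (κ * B) ^ (n - 1) *
        ∑ g ∈ G.divisors.filter (fun g => w₀ < g), (1 / (g : ℝ))) := by
  classical
  obtain ⟨C, hC, hsum⟩ := sumx n hn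
  refine ⟨C, hC, ?_⟩
  intro B Δ x hΔ hB1 hB2 hx hs G w₀ κ Y hG hκ hY
  have hB0 : 0 < B := by omega
  have hBpos : (0 : ℝ) < B := by exact_mod_cast hB0
  have hΔpos : (0 : ℝ) < Δ := by exact_mod_cast hΔ
  set D := G.divisors.filter (fun g => w₀ < g) with hD
  -- pointwise
  have h1 : ∀ y ∈ Y, ((Nat.gcd G (gd x y) : ℝ) / (wd x y : ℝ)) ≤
      ∑ g ∈ D, (if g ∣ gd x y then (g : ℝ) * (1 / (wd x y : ℝ)) else 0) := by
    intro y hy
    obtain ⟨-, -, -, h2⟩ := hY y hy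
    have hmem : Nat.gcd G (gd x y) ∈ D := by
      rw [hD, mem_filter, Nat.mem_divisors]
      exact ⟨⟨Nat.gcd_dvd_left _ _, hG.ne'⟩, h2⟩
    have h3 : ∀ g ∈ D, (0 : ℝ) ≤ (if g ∣ gd x y then (g : ℝ) * (1 / (wd x y : ℝ)) else 0) := by
      intro g _
      split_ifs <;> positivity
    refine le_trans ?_ (single_le_sum h3 hmem)
    rw [if_pos (Nat.gcd_dvd_right _ _)]
    rw [mul_one_div]
  calc ∑ y ∈ Y, ((Nat.gcd G (gd x y) : ℝ) / (wd x y : ℝ))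
      ≤ ∑ y ∈ Y, ∑ g ∈ D, (if g ∣ gd x y then (g : ℝ) * (1 / (wd x y : ℝ)) else 0) :=
        sum_le_sum h1
    _ = ∑ g ∈ D, (g : ℝ) * ∑ y ∈ Y.filter (fun y => g ∣ gd x y), (1 / (wd x y : ℝ)) := by
        rw [sum_comm]
        refine sum_congr rfl fun g _ => ?_
        rw [mul_sum, sum_filter]
    _ ≤ ∑ g ∈ D, (C * ((B : ℝ) / Δ) + C * ((κ * B) ^ (n - 1) * (1 / (g : ℝ)))) := by
        refine sum_le_sum fun g hg => ?_
        have hg1 : 1 ≤ g := Nat.pos_of_mem_divisors (mem_filter.mp hg).1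
        have hgr : (1 : ℝ) ≤ g := by exact_mod_cast hg1
        have hgpos : (0 : ℝ) < g := by linarith
        have h2 : ∑ y ∈ Y.filter (fun y => g ∣ gd x y), (1 / (wd x y : ℝ)) ≤
            C / g * ((B : ℝ) / Δ + (κ * (B : ℝ) ^ 2 / (g * B)) ^ (n - 1)) := by
          refine le_trans ?_ (hsum B Δ g (κ * (B : ℝ) ^ 2) x hΔ hg1 (by positivity) hB1 hB2 hx hs)
          refine sum_le_sum_of_subset_of_nonneg ?_ (fun _ _ _ => by positivity)
          intro y hy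
          obtain ⟨h3, h4⟩ := mem_filter.mp hy
          obtain ⟨h5, h6, h7, -⟩ := hY y h3
          rw [mem_filter]
          exact ⟨mem_box.mpr fun j => (le_nrm y j).trans h5, h6, h4, h7⟩
        have h3 : (κ * (B : ℝ) ^ 2 / (g * B)) ^ (n - 1) ≤ (κ * B) ^ (n - 1) * (1 / (g : ℝ)) := by
          have e : κ * (B : ℝ) ^ 2 / (g * B) = (κ * B) * (1 / g) := by
            field_simp
          rw [e, mul_pow]
          refine mul_le_mul_of_nonneg_left ?_ (by positivity)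
          have h4 : (1 / (g : ℝ)) ≤ 1 := by
            rw [div_le_one hgpos]; exact hgr
          calc (1 / (g : ℝ)) ^ (n - 1) ≤ (1 / (g : ℝ)) ^ 1 :=
                pow_le_pow_of_le_one (by positivity) h4 (by omega)
            _ = 1 / (g : ℝ) := pow_one _
        calc (g : ℝ) * ∑ y ∈ Y.filter (fun y => g ∣ gd x y), (1 / (wd x y : ℝ))
            ≤ (g : ℝ) * (C / g * ((B : ℝ) / Δ + (κ * (B : ℝ) ^ 2 / (g * B)) ^ (n - 1))) :=
              mul_le_mul_of_nonneg_left h2 hgpos.le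
          _ = C * ((B : ℝ) / Δ + (κ * (B : ℝ) ^ 2 / (g * B)) ^ (n - 1)) := by
              field_simp
          _ ≤ C * ((B : ℝ) / Δ + (κ * B) ^ (n - 1) * (1 / (g : ℝ))) :=
              mul_le_mul_of_nonneg_left (by linarith) hC.le
          _ = _ := by ring
    _ = C * (((B : ℝ) / Δ) * D.card + (κ * B) ^ (n - 1) * ∑ g ∈ D, (1 / (g : ℝ))) := by
        rw [sum_add_distrib, sum_const, nsmul_eq_mul, ← mul_sum, ← mul_sum]
        ring
    _ ≤ _ := by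
        have h2 : (D.card : ℝ) ≤ G := by
          have : D.card ≤ G := (card_le_card (filter_subset _ _)).trans (Nat.card_divisors_le_self G)
          exact_mod_cast this
        have h3 : (0 : ℝ) ≤ (B : ℝ) / Δ := by positivity
        refine mul_le_mul_of_nonneg_left ?_ hC.le
        linarith [mul_le_mul_of_nonneg_left h2 h3]

theorem sum_inv_le (M : ℕ) : ∑ g ∈ Icc 1 M, (1 / (g : ℝ)) ≤ 1 + Real.log M := by
  have h := harmonic_le_one_add_log M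
  rw [harmonic_eq_sum_Icc] at h
  push_cast at h
  simpa [one_div] using h

theorem sum_invsq_le (w M : ℕ) (hw : 1 ≤ w) :
    ∑ g ∈ (Icc 1 M).filter (fun g => w < g), (1 / (g : ℝ) ^ 2) ≤ 1 / (w : ℝ) := by
  have key : ∀ M : ℕ, ∑ g ∈ (Icc 1 M).filter (fun g => w < g), (1 / (g : ℝ) ^ 2) ≤
      1 / (w : ℝ) - 1 / ((max w M : ℕ) : ℝ) := by
    intro M
    induction M with
    | zero => simp
    | succ M ih =>
      by_cases h : w < M + 1
      · have hI : (Icc 1 (M + 1)).filter (fun g => w < g) =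
            insert (M + 1) ((Icc 1 M).filter (fun g => w < g)) := by
          ext g
          simp only [mem_filter, mem_Icc, mem_insert]
          omega
        rw [hI, sum_insert (by simp)]
        have h1 : max w M = M := by omega
        have h2 : max w (M + 1) = M + 1 := by omega
        rw [h1] at ih
        rw [h2]
        have hM : (0 : ℝ) < M := by
          have : 0 < M := by omega
          exact_mod_cast this
        have h3 : (1 : ℝ) / ((M + 1 : ℕ) : ℝ) ^ 2 ≤ 1 / M - 1 / ((M + 1 : ℕ) : ℝ) := by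
          push_cast
          rw [div_sub_div _ _ hM.ne' (by positivity), div_le_div_iff₀ (by positivity) (by positivity)]
          nlinarith
        linarith
      · have hI : (Icc 1 (M + 1)).filter (fun g => w < g) = (Icc 1 M).filter (fun g => w < g) := by
          ext g
          simp only [mem_filter, mem_Icc]
          omega
        have h1 : max w M = w := by omega
        have h2 : max w (M + 1) = w := by omega
        rw [hI, h2]
        rwa [h1] at ih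
  have h1 := key M
  have h2 : (0 : ℝ) ≤ 1 / ((max w M : ℕ) : ℝ) := by positivity
  linarith

theorem sum_invsq_le' (M : ℕ) :
    ∑ g ∈ (Icc 1 M).filter (fun g => 0 < g), (1 / (g : ℝ) ^ 2) ≤ 2 := by
  have h1 := sum_invsq_le 1 M le_rfl
  have h2 : (Icc 1 M).filter (fun g => 0 < g) ⊆ insert 1 ((Icc 1 M).filter (fun g => 1 < g)) := by
    intro g
    simp only [mem_filter, mem_Icc, mem_insert]
    omega
  calc ∑ g ∈ (Icc 1 M).filter (fun g => 0 < g), (1 / (g : ℝ) ^ 2)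
      ≤ ∑ g ∈ insert 1 ((Icc 1 M).filter (fun g => 1 < g)), (1 / (g : ℝ) ^ 2) :=
        sum_le_sum_of_subset_of_nonneg h2 (fun _ _ _ => by positivity)
    _ = 1 / ((1 : ℕ) : ℝ) ^ 2 + ∑ g ∈ (Icc 1 M).filter (fun g => 1 < g), (1 / (g : ℝ) ^ 2) :=
        sum_insert (by simp)
    _ ≤ 2 := by
        have : (1 : ℝ) / ((1 : ℕ) : ℝ) ^ 2 = 1 := by norm_num
        rw [this]
        have h3 : (1 : ℝ) / ((1 : ℕ) : ℝ) = 1 := by norm_num
        rw [h3] at h1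
        linarith

/-- the sum over `t, t'` -/
theorem outer (N : ℕ) (hN : 2 ≤ N) : ∃ C : ℝ, 0 < C ∧ ∀ (T w₀ : ℕ) (F' : Finset (Fin N → ℤ)),
    1 ≤ T → (∀ t ∈ F', T < 2 * nrm t ∧ nrm t ≤ T ∧ Umod t) →
    ∑ t ∈ F', ∑ t' ∈ F'.filter (fun t' => wd t t' ≠ 0),
      ∑ g ∈ (gd t t').divisors.filter (fun g => w₀ < g), (1 / (g : ℝ)) ≤
      C * (T : ℝ) ^ (2 * N) *
        (∑ g ∈ (Icc 1 (2 * T ^ 2)).filter (fun g => w₀ < g), (1 / (g : ℝ) ^ 2) +
          (1 + Real.log T) / T) := by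
  classical
  obtain ⟨C, hC, hsum⟩ := sumt N hN
  refine ⟨3 ^ N * C * 2, by positivity, ?_⟩
  intro T w₀ F' hT hF
  have hTr : (1 : ℝ) ≤ T := by exact_mod_cast hT
  have hTpos : (0 : ℝ) < T := by linarith
  set I := (Icc 1 (2 * T ^ 2)).filter (fun g => w₀ < g) with hI
  have h1 : ∀ t ∈ F', ∑ t' ∈ F'.filter (fun t' => wd t t' ≠ 0),
      ∑ g ∈ (gd t t').divisors.filter (fun g => w₀ < g), (1 / (g : ℝ)) ≤
      ∑ g ∈ I, (1 / (g : ℝ)) * (C * ((T : ℝ) ^ N / g + (T : ℝ) ^ (N - 1))) := by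
    intro t ht
    obtain ⟨ht1, ht2, ht3⟩ := hF t ht
    calc ∑ t' ∈ F'.filter (fun t' => wd t t' ≠ 0),
          ∑ g ∈ (gd t t').divisors.filter (fun g => w₀ < g), (1 / (g : ℝ))
        ≤ ∑ t' ∈ F'.filter (fun t' => wd t t' ≠ 0),
          ∑ g ∈ I, (if g ∣ gd t t' then (1 / (g : ℝ)) else 0) := by
          refine sum_le_sum fun t' ht' => ?_
          obtain ⟨h2, h3⟩ := mem_filter.mp ht'
          rw [← sum_filter]
          refine sum_le_sum_of_subset_of_nonneg ?_ (fun _ _ _ => by positivity)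
          intro g hg
          obtain ⟨h4, h5⟩ := mem_filter.mp hg
          have h6 := Nat.dvd_of_mem_divisors h4
          rw [mem_filter, hI, mem_filter, mem_Icc]
          refine ⟨⟨⟨Nat.pos_of_mem_divisors h4, ?_⟩, h5⟩, h6⟩
          calc g ≤ gd t t' := Nat.le_of_dvd (gd_pos h3) h6
            _ ≤ wd t t' := gd_le_wd' h3
            _ ≤ 2 * T ^ 2 := wd_le_sq ht2 (hF t' h2).2.1
      _ = ∑ g ∈ I, (1 / (g : ℝ)) *
          (((F'.filter (fun t' => wd t t' ≠ 0)).filter (fun t' => g ∣ gd t t')).card : ℝ) := by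
          rw [sum_comm]
          refine sum_congr rfl fun g _ => ?_
          rw [← sum_filter, sum_const, nsmul_eq_mul, mul_comm]
      _ ≤ _ := by
          refine sum_le_sum fun g hg => ?_
          have hg1 : 1 ≤ g := (mem_Icc.mp (mem_filter.mp hg).1).1
          refine mul_le_mul_of_nonneg_left ?_ (by positivity)
          refine le_trans ?_ (hsum T g t hg1 ht1 ht2 ht3)
          refine Nat.cast_le.mpr (card_le_card ?_)
          intro t' ht'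
          obtain ⟨h2, h3⟩ := mem_filter.mp ht'
          obtain ⟨h4, -⟩ := mem_filter.mp h2
          rw [mem_filter]
          exact ⟨mem_box.mpr fun j => (le_nrm t' j).trans (hF t' h4).2.1, h3⟩
  have hcard : (F'.card : ℝ) ≤ (3 * (T : ℝ)) ^ N :=
    card_F_le F' fun t ht => ⟨(hF t ht).1, (hF t ht).2.1⟩
  have hlog : ∑ g ∈ I, (1 / (g : ℝ)) ≤ 2 * (1 + Real.log T) := by
    calc ∑ g ∈ I, (1 / (g : ℝ)) ≤ ∑ g ∈ (Icc 1 (2 * T ^ 2) : Finset ℕ), (1 / (g : ℝ)) :=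
          sum_le_sum_of_subset_of_nonneg (filter_subset _ _) (fun _ _ _ => by positivity)
      _ ≤ 1 + Real.log ((2 * T ^ 2 : ℕ) : ℝ) := sum_inv_le _
      _ = 1 + (Real.log 2 + 2 * Real.log T) := by
          push_cast
          rw [Real.log_mul (by norm_num) (by positivity), Real.log_pow]
          push_cast
          ring
      _ ≤ 2 * (1 + Real.log T) := by
          have : Real.log 2 < 0.6931471808 := Real.log_two_lt_d9
          linarith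
  have hlog0 : 0 ≤ 1 + Real.log T := by
    have := Real.log_nonneg hTr
    linarith
  obtain ⟨M, rfl⟩ : ∃ M, N = M + 1 := ⟨N - 1, by omega⟩
  have hM : M + 1 - 1 = M := by omega
  rw [hM] at h1
  have hS0 : 0 ≤ ∑ g ∈ I, (1 / (g : ℝ) ^ 2) := sum_nonneg fun _ _ => by positivity
  calc ∑ t ∈ F', ∑ t' ∈ F'.filter (fun t' => wd t t' ≠ 0),
        ∑ g ∈ (gd t t').divisors.filter (fun g => w₀ < g), (1 / (g : ℝ))
      ≤ ∑ _t ∈ F', ∑ g ∈ I, (1 / (g : ℝ)) * (C * ((T : ℝ) ^ (M + 1) / g + (T : ℝ) ^ M)) :=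
        sum_le_sum h1
    _ = (F'.card : ℝ) * (C * ((T : ℝ) ^ (M + 1) * ∑ g ∈ I, (1 / (g : ℝ) ^ 2) +
        (T : ℝ) ^ M * ∑ g ∈ I, (1 / (g : ℝ)))) := by
        rw [sum_const, nsmul_eq_mul]
        congr 1
        rw [mul_sum, mul_sum, ← sum_add_distrib, mul_sum]
        refine sum_congr rfl fun g _ => ?_
        ring
    _ ≤ (3 * (T : ℝ)) ^ (M + 1) * (C * ((T : ℝ) ^ (M + 1) * ∑ g ∈ I, (1 / (g : ℝ) ^ 2) +
        (T : ℝ) ^ M * (2 * (1 + Real.log T)))) := by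
        have h2 : (T : ℝ) ^ M * ∑ g ∈ I, (1 / (g : ℝ)) ≤ (T : ℝ) ^ M * (2 * (1 + Real.log T)) :=
          mul_le_mul_of_nonneg_left hlog (by positivity)
        refine mul_le_mul hcard (mul_le_mul_of_nonneg_left (by linarith) hC.le) ?_ (by positivity)
        refine mul_nonneg hC.le (add_nonneg (mul_nonneg (by positivity) hS0) (mul_nonneg
          (by positivity) (sum_nonneg fun _ _ => by positivity)))
    _ = 3 ^ (M + 1) * C * (T : ℝ) ^ (2 * (M + 1)) *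
        (∑ g ∈ I, (1 / (g : ℝ) ^ 2) + 2 * ((1 + Real.log T) / T)) := by
        rw [mul_pow]
        field_simp
        ring
    _ ≤ 3 ^ (M + 1) * C * 2 * (T : ℝ) ^ (2 * (M + 1)) *
        (∑ g ∈ I, (1 / (g : ℝ) ^ 2) + (1 + Real.log T) / T) := by
        have h2 : ∑ g ∈ I, (1 / (g : ℝ) ^ 2) + 2 * ((1 + Real.log T) / T) ≤
            2 * (∑ g ∈ I, (1 / (g : ℝ) ^ 2) + (1 + Real.log T) / T) := by linarith
        calc 3 ^ (M + 1) * C * (T : ℝ) ^ (2 * (M + 1)) *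
              (∑ g ∈ I, (1 / (g : ℝ) ^ 2) + 2 * ((1 + Real.log T) / T))
            ≤ 3 ^ (M + 1) * C * (T : ℝ) ^ (2 * (M + 1)) *
              (2 * (∑ g ∈ I, (1 / (g : ℝ) ^ 2) + (1 + Real.log T) / T)) :=
              mul_le_mul_of_nonneg_left h2 (by positivity)
          _ = _ := by ring

/-- combination of the two -/
theorem comb (n N : ℕ) (hn : 2 ≤ n) (hN : 2 ≤ N) : ∃ C : ℝ, 0 < C ∧
    ∀ (B T Δ w₀ : ℕ) (κ : ℝ) (F : Finset (Fin (n + 1) → ℤ)) (F' : Finset (Fin N → ℤ))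
      (Y : (Fin N → ℤ) → (Fin N → ℤ) → (Fin (n + 1) → ℤ) → Finset (Fin (n + 1) → ℤ)),
    1 ≤ Δ → 1 ≤ T → 0 ≤ κ →
    (∀ x ∈ F, B < 2 * nrm x ∧ nrm x ≤ B ∧ Umod x ∧ Sep Δ x) →
    (∀ t ∈ F', T < 2 * nrm t ∧ nrm t ≤ T ∧ Umod t) →
    (∀ t t' x, ∀ y ∈ Y t t' x, nrm y ≤ B ∧ wd x y ≠ 0 ∧ (wd x y : ℝ) ≤ κ * (B : ℝ) ^ 2 ∧
      w₀ < Nat.gcd (gd t t') (gd x y)) →
    ∑ t ∈ F', ∑ t' ∈ F'.filter (fun t' => wd t t' ≠ 0),
      ∑ x ∈ F, ∑ y ∈ Y t t' x, ((Nat.gcd (gd t t') (gd x y) : ℝ) / (wd x y : ℝ)) ≤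
      C * (T : ℝ) ^ (2 * N) * ((B : ℝ) ^ (2 * n) * κ ^ (n - 1) *
        (∑ g ∈ (Icc 1 (2 * T ^ 2)).filter (fun g => w₀ < g), (1 / (g : ℝ) ^ 2) +
          (1 + Real.log T) / T) + (T : ℝ) ^ 2 * (B : ℝ) ^ (n + 2) / Δ) := by
  classical
  obtain ⟨C1, hC1, h1⟩ := inner n hn
  obtain ⟨C2, hC2, h2⟩ := outer N hN
  refine ⟨3 ^ (n + 1) * C1 * (C2 + 2 * 9 ^ N), by positivity, ?_⟩
  intro B T Δ w₀ κ F F' Y hΔ hT hκ hF hF' hY
  have hTr : (1 : ℝ) ≤ T := by exact_mod_cast hT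
  have hTpos : (0 : ℝ) < T := by linarith
  have hΔpos : (0 : ℝ) < Δ := by exact_mod_cast hΔ
  set E : ℝ := ∑ g ∈ (Icc 1 (2 * T ^ 2)).filter (fun g => w₀ < g), (1 / (g : ℝ) ^ 2) +
          (1 + Real.log T) / T with hE
  have hE0 : 0 ≤ E := by
    have := Real.log_nonneg hTr
    have h3 : 0 ≤ ∑ g ∈ (Icc 1 (2 * T ^ 2)).filter (fun g => w₀ < g), (1 / (g : ℝ) ^ 2) :=
      sum_nonneg fun _ _ => by positivity
    have h4 : 0 ≤ (1 + Real.log T) / T := by positivity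
    linarith
  have hcF : (F.card : ℝ) ≤ (3 * (B : ℝ)) ^ (n + 1) :=
    card_F_le F fun x hx => ⟨(hF x hx).1, (hF x hx).2.1⟩
  have hcF' : (F'.card : ℝ) ≤ (3 * (T : ℝ)) ^ N :=
    card_F_le F' fun t ht => ⟨(hF' t ht).1, (hF' t ht).2.1⟩
  have hR : ∀ t ∈ F', ∀ t' ∈ F'.filter (fun t' => wd t t' ≠ 0),
      ∑ x ∈ F, ∑ y ∈ Y t t' x, ((Nat.gcd (gd t t') (gd x y) : ℝ) / (wd x y : ℝ)) ≤
      (3 * (B : ℝ)) ^ (n + 1) * (C1 * (((B : ℝ) / Δ) * (2 * (T : ℝ) ^ 2) + (κ * B) ^ (n - 1) *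
        ∑ g ∈ (gd t t').divisors.filter (fun g => w₀ < g), (1 / (g : ℝ)))) := by
    intro t ht t' ht'
    obtain ⟨a1, a2⟩ := mem_filter.mp ht'
    have hG : (gd t t' : ℝ) ≤ 2 * (T : ℝ) ^ 2 := by
      have : gd t t' ≤ 2 * T ^ 2 := (gd_le_wd' a2).trans (wd_le_sq (hF' t ht).2.1 (hF' t' a1).2.1)
      exact_mod_cast this
    have hS0 : 0 ≤ ∑ g ∈ (gd t t').divisors.filter (fun g => w₀ < g), (1 / (g : ℝ)) :=
      sum_nonneg fun _ _ => by positivity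
    have h3 : ∀ x ∈ F, ∑ y ∈ Y t t' x, ((Nat.gcd (gd t t') (gd x y) : ℝ) / (wd x y : ℝ)) ≤
        C1 * (((B : ℝ) / Δ) * (2 * (T : ℝ) ^ 2) + (κ * B) ^ (n - 1) *
        ∑ g ∈ (gd t t').divisors.filter (fun g => w₀ < g), (1 / (g : ℝ))) := by
      intro x hx
      obtain ⟨b1, b2, b3, b4⟩ := hF x hx
      refine (h1 B Δ x hΔ b1 b2 b3 b4 (gd t t') w₀ κ (Y t t' x) (gd_pos a2) hκ (hY t t' x)).trans ?_
      refine mul_le_mul_of_nonneg_left ?_ hC1.le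
      have : ((B : ℝ) / Δ) * (gd t t' : ℝ) ≤ ((B : ℝ) / Δ) * (2 * (T : ℝ) ^ 2) :=
        mul_le_mul_of_nonneg_left hG (by positivity)
      linarith
    calc _ ≤ ∑ _x ∈ F, C1 * (((B : ℝ) / Δ) * (2 * (T : ℝ) ^ 2) + (κ * B) ^ (n - 1) *
        ∑ g ∈ (gd t t').divisors.filter (fun g => w₀ < g), (1 / (g : ℝ))) := sum_le_sum h3
      _ = (F.card : ℝ) * _ := by rw [sum_const, nsmul_eq_mul]
      _ ≤ _ := by
          refine mul_le_mul_of_nonneg_right hcF ?_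
          positivity
  have h3 := h2 T w₀ F' hT hF'
  rw [← hE] at h3
  have hcard2 : ∑ t ∈ F', (((F'.filter (fun t' => wd t t' ≠ 0)).card : ℕ) : ℝ) ≤
      9 ^ N * (T : ℝ) ^ (2 * N) := by
    calc ∑ t ∈ F', (((F'.filter (fun t' => wd t t' ≠ 0)).card : ℕ) : ℝ)
        ≤ ∑ _t ∈ F', (F'.card : ℝ) :=
          sum_le_sum fun t _ => Nat.cast_le.mpr (card_le_card (filter_subset _ _))
      _ = (F'.card : ℝ) * F'.card := by rw [sum_const, nsmul_eq_mul]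
      _ ≤ (3 * (T : ℝ)) ^ N * (3 * (T : ℝ)) ^ N :=
          mul_le_mul hcF' hcF' (Nat.cast_nonneg _) (by positivity)
      _ = 9 ^ N * (T : ℝ) ^ (2 * N) := by
          rw [← mul_pow, show (3 * (T : ℝ)) * (3 * T) = 9 * T ^ 2 by ring, mul_pow, ← pow_mul]
  calc ∑ t ∈ F', ∑ t' ∈ F'.filter (fun t' => wd t t' ≠ 0),
        ∑ x ∈ F, ∑ y ∈ Y t t' x, ((Nat.gcd (gd t t') (gd x y) : ℝ) / (wd x y : ℝ))
      ≤ ∑ t ∈ F', ∑ t' ∈ F'.filter (fun t' => wd t t' ≠ 0),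
        (3 * (B : ℝ)) ^ (n + 1) * (C1 * (((B : ℝ) / Δ) * (2 * (T : ℝ) ^ 2) + (κ * B) ^ (n - 1) *
        ∑ g ∈ (gd t t').divisors.filter (fun g => w₀ < g), (1 / (g : ℝ)))) :=
        sum_le_sum fun t ht => sum_le_sum fun t' ht' => hR t ht t' ht'
    _ = (3 * (B : ℝ)) ^ (n + 1) * (C1 * (((B : ℝ) / Δ) * (2 * (T : ℝ) ^ 2) *
        (∑ t ∈ F', (((F'.filter (fun t' => wd t t' ≠ 0)).card : ℕ) : ℝ)) + (κ * B) ^ (n - 1) *
        ∑ t ∈ F', ∑ t' ∈ F'.filter (fun t' => wd t t' ≠ 0),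
          ∑ g ∈ (gd t t').divisors.filter (fun g => w₀ < g), (1 / (g : ℝ)))) := by
        simp only [← mul_sum, sum_add_distrib, sum_const, nsmul_eq_mul]
        congr 3
        rw [← sum_mul]
        ring
    _ ≤ (3 * (B : ℝ)) ^ (n + 1) * (C1 * (((B : ℝ) / Δ) * (2 * (T : ℝ) ^ 2) *
        (9 ^ N * (T : ℝ) ^ (2 * N)) + (κ * B) ^ (n - 1) *
        (C2 * (T : ℝ) ^ (2 * N) * E))) := by
        refine mul_le_mul_of_nonneg_left (mul_le_mul_of_nonneg_left (add_le_add ?_ ?_) hC1.le)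
          (by positivity)
        · exact mul_le_mul_of_nonneg_left hcard2 (by positivity)
        · exact mul_le_mul_of_nonneg_left h3 (by positivity)
    _ = 3 ^ (n + 1) * C1 * (T : ℝ) ^ (2 * N) * (C2 * ((B : ℝ) ^ (2 * n) * κ ^ (n - 1) * E) +
        2 * 9 ^ N * ((T : ℝ) ^ 2 * (B : ℝ) ^ (n + 2) / Δ)) := by
        obtain ⟨m, rfl⟩ : ∃ m, n = m + 1 := ⟨n - 1, by omega⟩
        have hm : m + 1 - 1 = m := by omega
        rw [hm, mul_pow, mul_pow]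
        field_simp
        ring
    _ ≤ 3 ^ (n + 1) * C1 * (T : ℝ) ^ (2 * N) * ((C2 + 2 * 9 ^ N) *
        ((B : ℝ) ^ (2 * n) * κ ^ (n - 1) * E + (T : ℝ) ^ 2 * (B : ℝ) ^ (n + 2) / Δ)) := by
        refine mul_le_mul_of_nonneg_left ?_ (by positivity)
        have a1 : 0 ≤ (B : ℝ) ^ (2 * n) * κ ^ (n - 1) * E := by positivity
        have a2 : 0 ≤ (T : ℝ) ^ 2 * (B : ℝ) ^ (n + 2) / Δ := by positivity
        have a3 : (0 : ℝ) ≤ 2 * 9 ^ N := by positivity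
        nlinarith [mul_nonneg a3 a1, mul_nonneg hC2.le a2]
    _ = _ := by ring

theorem fin1 {C TT B2 P S L D : ℝ} (hC : 0 ≤ C) (hT : 0 ≤ TT) (hB : 0 ≤ B2) (hP : 1 ≤ P)
    (hS : S ≤ 2) (hL : L ≤ 1) (hD : 0 ≤ D) :
    C * TT * (B2 * P * (S + L) + D) ≤ C * (4 * P) * TT * (B2 + D) := by
  have h1 : B2 * P * (S + L) ≤ B2 * P * 3 :=
    mul_le_mul_of_nonneg_left (by linarith) (by positivity)
  have h2 : B2 * P * 3 + D ≤ (4 * P) * (B2 + D) := by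
    nlinarith [mul_nonneg hB (by linarith : (0 : ℝ) ≤ P),
      mul_nonneg hD (by linarith : (0 : ℝ) ≤ P - 1)]
  calc C * TT * (B2 * P * (S + L) + D) ≤ C * TT * ((4 * P) * (B2 + D)) :=
        mul_le_mul_of_nonneg_left (by linarith) (by positivity)
    _ = _ := by ring

theorem fin2 {C TT B2 P θ θn v Sw S0 L D : ℝ} (hC : 0 ≤ C) (hT : 0 ≤ TT) (hB : 0 ≤ B2)
    (hP : 1 ≤ P) (hθ : 0 ≤ θ) (hθn : θn ≤ θ) (hv : 0 ≤ v) (hSw : Sw ≤ v)
    (hS : S0 ≤ 2) (hS0 : 0 ≤ S0) (hL0 : 0 ≤ L) (hL : L ≤ 1) (hD : 0 ≤ D) :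
    C * TT * (B2 * P * (Sw + L) + D) + C * TT * (B2 * θn * (S0 + L) + D) ≤
      C * (4 * P) * TT * (B2 * (v + θ + L) + D) := by
  have h1 : B2 * P * (Sw + L) ≤ B2 * P * (v + L) :=
    mul_le_mul_of_nonneg_left (by linarith) (by positivity)
  have h2 : B2 * θn * (S0 + L) ≤ B2 * θ * 3 :=
    mul_le_mul (mul_le_mul_of_nonneg_left hθn hB) (by linarith) (by linarith) (by positivity)
  have h3 : P * (v + L) + θ * 3 ≤ (4 * P) * (v + θ + L) := by
    nlinarith [mul_nonneg (by linarith : (0 : ℝ) ≤ P - 1) hθ,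
      mul_nonneg (by linarith : (0 : ℝ) ≤ P) (add_nonneg hv hL0)]
  have h4 := mul_le_mul_of_nonneg_left h3 hB
  have h5 : B2 * P * (Sw + L) + D + (B2 * θn * (S0 + L) + D) ≤
      (4 * P) * (B2 * (v + θ + L) + D) := by
    nlinarith [mul_nonneg (by linarith : (0 : ℝ) ≤ P - 1) hD]
  calc C * TT * (B2 * P * (Sw + L) + D) + C * TT * (B2 * θn * (S0 + L) + D)
      = C * TT * (B2 * P * (Sw + L) + D + (B2 * θn * (S0 + L) + D)) := by ring
    _ ≤ C * TT * ((4 * P) * (B2 * (v + θ + L) + D)) :=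
        mul_le_mul_of_nonneg_left h5 (by positivity)
    _ = _ := by ring

end SumB

open SumB

theorem sumb (n N : ℕ) (hn : 2 ≤ n) (hN : 2 ≤ N) : ∃ C : ℝ, 0 < C ∧
    ∀ (B T Δ w : ℕ) (θ : ℝ) (F : Finset (Fin (n + 1) → ℤ)) (F' : Finset (Fin N → ℤ)),
    1 ≤ Δ → 1 ≤ T → 1 ≤ w → 0 ≤ θ → θ ≤ 1 →
    (∀ x ∈ F, B < 2 * nrm x ∧ nrm x ≤ B ∧ Umod x ∧ Sep Δ x) →
    (∀ t ∈ F', T < 2 * nrm t ∧ nrm t ≤ T ∧ Umod t) →
    (∑ t ∈ F', ∑ t' ∈ F'.filter (fun t' => wd t t' ≠ 0),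
      ∑ x ∈ F, ∑ y ∈ F.filter (fun y => wd x y ≠ 0),
        ((Nat.gcd (gd t t') (gd x y) : ℝ) / (wd x y : ℝ)) ≤
      C * (T : ℝ) ^ (2 * N) * ((B : ℝ) ^ (2 * n) + (T : ℝ) ^ 2 * (B : ℝ) ^ (n + 2) / Δ)) ∧
    (∑ t ∈ F', ∑ t' ∈ F'.filter (fun t' => wd t t' ≠ 0),
      ∑ x ∈ F, ∑ y ∈ F.filter (fun y => wd x y ≠ 0 ∧
        (w < Nat.gcd (gd t t') (gd x y) ∨ (wd x y : ℝ) < θ * (B : ℝ) ^ 2)),
        ((Nat.gcd (gd t t') (gd x y) : ℝ) / (wd x y : ℝ)) ≤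
      C * (T : ℝ) ^ (2 * N) * ((B : ℝ) ^ (2 * n) * (1 / w + θ + (1 + Real.log T) / T) +
        (T : ℝ) ^ 2 * (B : ℝ) ^ (n + 2) / Δ)) := by
  classical
  obtain ⟨C, hC, h⟩ := comb n N hn hN
  refine ⟨C * (4 * 2 ^ (n - 1)), by positivity, ?_⟩
  intro B T Δ w θ F F' hΔ hT hw hθ hθ1 hF hF'
  have hTr : (1 : ℝ) ≤ T := by exact_mod_cast hT
  have hTpos : (0 : ℝ) < T := by linarith
  have hΔpos : (0 : ℝ) < Δ := by exact_mod_cast hΔ
  have hwpos : (0 : ℝ) < w := by exact_mod_cast hw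
  have hL0 : 0 ≤ (1 + Real.log T) / T := by
    have := Real.log_nonneg hTr
    positivity
  have hL1 : (1 + Real.log T) / T ≤ 1 := by
    rw [div_le_one hTpos]
    have := Real.log_le_sub_one_of_pos hTpos
    linarith
  have h2n : (1 : ℝ) ≤ 2 ^ (n - 1) := one_le_pow₀ (by norm_num)
  set D : ℝ := (T : ℝ) ^ 2 * (B : ℝ) ^ (n + 2) / Δ with hD
  have hD0 : 0 ≤ D := by positivity
  set L : ℝ := (1 + Real.log T) / T with hL
  have hfil0 : ∀ (t t' : Fin N → ℤ), wd t t' ≠ 0 → ∀ (x y : Fin (n + 1) → ℤ), wd x y ≠ 0 →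
      0 < Nat.gcd (gd t t') (gd x y) := fun t t' ht x y hy => Nat.gcd_pos_of_pos_left _ (gd_pos ht)
  -- three applications
  have key : ∀ (w₀ : ℕ) (κ : ℝ) (hκ : 0 ≤ κ)
      (R : (Fin N → ℤ) → (Fin N → ℤ) → (Fin (n + 1) → ℤ) → (Fin (n + 1) → ℤ) → Prop),
      (∀ t t' x y, wd t t' ≠ 0 → x ∈ F → y ∈ F → wd x y ≠ 0 → R t t' x y →
        (wd x y : ℝ) ≤ κ * (B : ℝ) ^ 2 ∧ w₀ < Nat.gcd (gd t t') (gd x y)) →
      ∑ t ∈ F', ∑ t' ∈ F'.filter (fun t' => wd t t' ≠ 0),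
      ∑ x ∈ F, ∑ y ∈ F.filter (fun y => wd x y ≠ 0 ∧ R t t' x y),
        ((Nat.gcd (gd t t') (gd x y) : ℝ) / (wd x y : ℝ)) ≤
      C * (T : ℝ) ^ (2 * N) * ((B : ℝ) ^ (2 * n) * κ ^ (n - 1) *
        (∑ g ∈ (Icc 1 (2 * T ^ 2)).filter (fun g => w₀ < g), (1 / (g : ℝ) ^ 2) + L) + D) := by
    intro w₀ κ hκ R hR
    have h1 := h B T Δ w₀ κ F F' (fun t t' x => if wd t t' ≠ 0 ∧ x ∈ F then
      F.filter (fun y => wd x y ≠ 0 ∧ R t t' x y) else ∅) hΔ hT hκ hF hF' (by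
        intro t t' x y hy
        split_ifs at hy with hc
        · obtain ⟨a1, a2, a3⟩ := mem_filter.mp hy
          obtain ⟨a4, a5⟩ := hR t t' x y hc.1 hc.2 a1 a2 a3
          exact ⟨(hF y a1).2.1, a2, a4, a5⟩
        · simp at hy)
    refine le_trans (le_of_eq ?_) h1
    refine sum_congr rfl fun t _ => sum_congr rfl fun t' ht' => sum_congr rfl fun x hx => ?_
    rw [if_pos ⟨(mem_filter.mp ht').2, hx⟩]
  have hwdB : ∀ x ∈ F, ∀ y ∈ F, (wd x y : ℝ) ≤ 2 * (B : ℝ) ^ 2 := by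
    intro x hx y hy
    have := wd_le_sq (hF x hx).2.1 (hF y hy).2.1
    exact_mod_cast this
  have hB2n : (0 : ℝ) ≤ (B : ℝ) ^ (2 * n) := by positivity
  have hS2 := sum_invsq_le' (2 * T ^ 2)
  have hSw := sum_invsq_le w (2 * T ^ 2) hw
  have hT0 : (0 : ℝ) ≤ (T : ℝ) ^ (2 * N) := by positivity
  constructor
  · have h1 := key 0 2 (by norm_num) (fun _ _ _ _ => True)
      (fun t t' x y ht hx hy hxy _ => ⟨hwdB x hx y hy, hfil0 t t' ht x y hxy⟩)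
    simp only [and_true] at h1
    exact h1.trans (fin1 hC.le hT0 hB2n h2n hS2 hL1 hD0)
  · have h1 := key w 2 (by norm_num) (fun t t' x y => w < Nat.gcd (gd t t') (gd x y))
      (fun t t' x y _ hx hy _ hr => ⟨hwdB x hx y hy, hr⟩)
    have h2 := key 0 θ hθ (fun _ _ x y => (wd x y : ℝ) < θ * (B : ℝ) ^ 2)
      (fun t t' x y ht _ _ hxy hr => ⟨hr.le, hfil0 t t' ht x y hxy⟩)
    have hθn : θ ^ (n - 1) ≤ θ := by
      calc θ ^ (n - 1) ≤ θ ^ 1 := pow_le_pow_of_le_one hθ hθ1 (by omega)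
        _ = θ := pow_one θ
    have hsplit : ∑ t ∈ F', ∑ t' ∈ F'.filter (fun t' => wd t t' ≠ 0),
        ∑ x ∈ F, ∑ y ∈ F.filter (fun y => wd x y ≠ 0 ∧
          (w < Nat.gcd (gd t t') (gd x y) ∨ (wd x y : ℝ) < θ * (B : ℝ) ^ 2)),
          ((Nat.gcd (gd t t') (gd x y) : ℝ) / (wd x y : ℝ))
        ≤ ∑ t ∈ F', ∑ t' ∈ F'.filter (fun t' => wd t t' ≠ 0), ∑ x ∈ F,
          (∑ y ∈ F.filter (fun y => wd x y ≠ 0 ∧ w < Nat.gcd (gd t t') (gd x y)),
            ((Nat.gcd (gd t t') (gd x y) : ℝ) / (wd x y : ℝ)) +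
          ∑ y ∈ F.filter (fun y => wd x y ≠ 0 ∧ (wd x y : ℝ) < θ * (B : ℝ) ^ 2),
            ((Nat.gcd (gd t t') (gd x y) : ℝ) / (wd x y : ℝ))) := by
      refine sum_le_sum fun t _ => sum_le_sum fun t' _ => sum_le_sum fun x _ => ?_
      have hsub : F.filter (fun y => wd x y ≠ 0 ∧
          (w < Nat.gcd (gd t t') (gd x y) ∨ (wd x y : ℝ) < θ * (B : ℝ) ^ 2)) ⊆
          F.filter (fun y => wd x y ≠ 0 ∧ w < Nat.gcd (gd t t') (gd x y)) ∪
          F.filter (fun y => wd x y ≠ 0 ∧ (wd x y : ℝ) < θ * (B : ℝ) ^ 2) := by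
        intro y hy
        rw [mem_filter] at hy
        rw [mem_union, mem_filter, mem_filter]
        tauto
      refine (sum_le_sum_of_subset_of_nonneg hsub (fun _ _ _ => by positivity)).trans ?_
      rw [← sum_union_inter]
      exact le_add_of_nonneg_right (sum_nonneg fun _ _ => by positivity)
    refine hsplit.trans ?_
    simp only [sum_add_distrib]
    refine le_trans (add_le_add (le_trans (le_of_eq ?_) h1) (le_trans (le_of_eq ?_) h2))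
      (fin2 hC.le hT0 hB2n h2n hθ hθn (by positivity) hSw hS2
      (sum_nonneg fun _ _ => by positivity) hL0 hL1 hD0)
    · exact sum_congr rfl fun t _ => sum_congr rfl fun t' _ => sum_congr rfl fun x _ => by congr
    · exact sum_congr rfl fun t _ => sum_congr rfl fun t' _ => sum_congr rfl fun x _ => by congr

end Pool.Agent.HP
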