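import Pool.Agent.Lib.MP_fc0680_nt.Defs

/-!
# MP_fc0680_nt, module SUMSF: the sum of `gcd(x ∧ y) / |x ∧ y|` over all `y` of a box

Dyadic decomposition: write `y = t x + g z`, `g = gcd(x ∧ y)`, `0 ≤ z_i < Q = |x_i| = |x|`; the
vectors `z` with `|x ∧ z|` of size `T` are counted by residue classes (`count1`) and by packing
(`count2`).
-/

set_option autoImplicit false
open Finset

namespace Pool.Agent.HP

namespace SumSf

variable {N : ℕ}

/-- the minors containing the pivot column -/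
def rr (x : Fin N → ℤ) (i : Fin N) (z : Fin N → ℤ) : Fin N → ℤ := fun l => x i * z l - x l * z i

theorem le_nrm (x : Fin N → ℤ) (j : Fin N) : (x j).natAbs ≤ nrm x :=
  Finset.le_sup (f := fun j => (x j).natAbs) (mem_univ j)

theorem nrm_le {x : Fin N → ℤ} {T : ℕ} (h : ∀ j, (x j).natAbs ≤ T) : nrm x ≤ T :=
  Finset.sup_le fun j _ => h j

theorem minor_le (x y : Fin N → ℤ) (a b : Fin N) :
    (x a * y b - x b * y a).natAbs ≤ wd x y :=
  Finset.le_sup (f := fun p : Fin N × Fin N => (x p.1 * y p.2 - x p.2 * y p.1).natAbs)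
    (mem_univ (a, b))

theorem wd_le {x y : Fin N → ℤ} {T : ℕ} (h : ∀ a b, (x a * y b - x b * y a).natAbs ≤ T) :
    wd x y ≤ T :=
  Finset.sup_le fun p _ => h p.1 p.2

theorem nrm_rr_le (x : Fin N → ℤ) (i : Fin N) (z : Fin N → ℤ) : nrm (rr x i z) ≤ wd x z :=
  nrm_le fun j => minor_le x z i j

theorem wd_le_rr (x : Fin N → ℤ) (i : Fin N) (z : Fin N → ℤ) (hi : x i ≠ 0)
    (hm : ∀ j, (x j).natAbs ≤ (x i).natAbs) : wd x z ≤ 2 * nrm (rr x i z) := by
  refine wd_le fun a b => ?_
  have h1 : x i * (x a * z b - x b * z a) = x a * rr x i z b - x b * rr x i z a := by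
    unfold rr; ring
  have h2 : (x i).natAbs * (x a * z b - x b * z a).natAbs ≤
      (x i).natAbs * (2 * nrm (rr x i z)) := by
    rw [← Int.natAbs_mul, h1]
    calc (x a * rr x i z b - x b * rr x i z a).natAbs
        ≤ (x a * rr x i z b).natAbs + (x b * rr x i z a).natAbs := Int.natAbs_sub_le _ _
      _ = (x a).natAbs * (rr x i z b).natAbs + (x b).natAbs * (rr x i z a).natAbs := by
          rw [Int.natAbs_mul, Int.natAbs_mul]
      _ ≤ (x i).natAbs * nrm (rr x i z) + (x i).natAbs * nrm (rr x i z) :=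
          add_le_add (Nat.mul_le_mul (hm a) (le_nrm _ _)) (Nat.mul_le_mul (hm b) (le_nrm _ _))
      _ = (x i).natAbs * (2 * nrm (rr x i z)) := by ring
  exact Nat.le_of_mul_le_mul_left h2 (Int.natAbs_pos.mpr hi)

/-- decomposition with respect to a primitive vector -/
theorem decomp (x y : Fin N → ℤ) (hx : Umod x) (g : ℤ)
    (hg : ∀ a b, g ∣ x a * y b - x b * y a) :
    ∃ (t : ℤ) (z : Fin N → ℤ), ∀ j, y j = t * x j + g * z j := by
  obtain ⟨e, he⟩ := hx
  choose q hq using hg
  refine ⟨∑ l, e l * y l, fun j => ∑ l, e l * q l j, fun j => ?_⟩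
  have h1 : g * ∑ l, e l * q l j = ∑ l, e l * (x l * y j - x j * y l) := by
    rw [mul_sum]
    refine sum_congr rfl fun l _ => ?_
    rw [hq l j]; ring
  rw [h1, sum_mul, ← sum_add_distrib]
  calc y j = (∑ l, e l * x l) * y j := by rw [he, one_mul]
    _ = ∑ l, (e l * y l * x j + e l * (x l * y j - x j * y l)) := by
        rw [sum_mul]
        refine sum_congr rfl fun l _ => ?_
        ring

/-- `wd x w = 0` implies that `w` is an integer multiple of the primitive vector `x` -/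
theorem prop_of_wd (x w : Fin N → ℤ) (hx : Umod x) (h : wd x w = 0) :
    ∃ s : ℤ, ∀ j, w j = s * x j := by
  obtain ⟨t, z, h1⟩ := decomp x w hx 0 (fun a b => by
    have := minor_le x w a b
    rw [h, Nat.le_zero, Int.natAbs_eq_zero] at this
    rw [this])
  exact ⟨t, fun j => by rw [h1 j]; ring⟩

theorem decomp_red (x y : Fin N → ℤ) (hx : Umod x) (i : Fin N) (hi : x i ≠ 0) :
    ∃ (t : ℤ) (z : Fin N → ℤ), 0 ≤ z i ∧ z i < (x i).natAbs ∧
      ∀ j, y j = t * x j + (gd x y : ℤ) * z j := by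
  obtain ⟨t, z, h⟩ := decomp x y hx (gd x y : ℤ) (fun a b => by
    rw [Int.natCast_dvd]
    exact Finset.gcd_dvd (f := fun p : Fin N × Fin N => (x p.1 * y p.2 - x p.2 * y p.1).natAbs)
      (mem_univ (a, b)))
  refine ⟨t + gd x y * (z i / x i), fun j => z j - (z i / x i) * x j, ?_, ?_, fun j => ?_⟩
  · have : z i - (z i / x i) * x i = z i % x i := by
      have := Int.emod_add_mul_ediv (z i) (x i)
      linarith [mul_comm (x i) (z i / x i)]
    simp only
    rw [this]
    exact Int.emod_nonneg _ hi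
  · have : z i - (z i / x i) * x i = z i % x i := by
      have := Int.emod_add_mul_ediv (z i) (x i)
      linarith [mul_comm (x i) (z i / x i)]
    simp only
    rw [this, Int.natCast_natAbs]
    exact Int.emod_lt_abs _ hi
  · rw [h j]; ring

theorem wd_comb (x z y : Fin N → ℤ) (t g : ℤ) (h : ∀ j, y j = t * x j + g * z j) :
    wd x y = g.natAbs * wd x z := by
  have key : ∀ a b, (x a * y b - x b * y a).natAbs = g.natAbs * (x a * z b - x b * z a).natAbs := by
    intro a b
    rw [← Int.natAbs_mul, h a, h b]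
    congr 1
    ring
  apply le_antisymm
  · refine wd_le fun a b => ?_
    rw [key]
    exact Nat.mul_le_mul_left _ (minor_le x z a b)
  · rcases (univ : Finset (Fin N × Fin N)).eq_empty_or_nonempty with he | he
    · have : wd x z = 0 := by unfold wd; rw [he]; rfl
      rw [this]; simp
    · obtain ⟨p, -, hp⟩ := Finset.exists_mem_eq_sup _ he
        (fun p : Fin N × Fin N => (x p.1 * z p.2 - x p.2 * z p.1).natAbs)
      have : wd x z = (x p.1 * z p.2 - x p.2 * z p.1).natAbs := hp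
      rw [this, ← key]
      exact minor_le x y _ _

theorem rr_sub (x : Fin N → ℤ) (i : Fin N) (z z' : Fin N → ℤ) (l : Fin N) :
    rr x i (fun j => z j - z' j) l = rr x i z l - rr x i z' l := by
  unfold rr; ring

theorem card_Icc_nat (m : ℕ) : (Finset.Icc (0 : ℤ) (m : ℤ)).card = m + 1 := by
  rw [Int.card_Icc]; omega

/-- count by residue classes -/
theorem count1 {n : ℕ} (x : Fin (n + 1) → ℤ) (i : Fin (n + 1)) (Q T : ℕ)
    (hQ : (x i).natAbs = Q) (hQ0 : 0 < Q) (F : Finset (Fin (n + 1) → ℤ))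
    (hF : ∀ z ∈ F, 0 ≤ z i ∧ z i < Q ∧ nrm (rr x i z) ≤ T) :
    F.card ≤ Q * (2 * T / Q + 1) ^ n := by
  classical
  have hxi : x i ≠ 0 := by
    intro h
    rw [h] at hQ
    simp at hQ
    omega
  have hQi : (0 : ℤ) < Q := by exact_mod_cast hQ0
  let φ : (Fin (n + 1) → ℤ) → ℤ × (Fin n → ℤ) := fun z =>
    (z i, fun l => (rr x i z (i.succAbove l) + T) / Q)
  have hmaps : ∀ z ∈ F, φ z ∈ (Finset.Ico (0 : ℤ) Q) ×ˢ
      (Fintype.piFinset fun _ : Fin n => Finset.Icc (0 : ℤ) ((2 * T / Q : ℕ) : ℤ)) := by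
    intro z hz
    obtain ⟨h1, h2, h3⟩ := hF z hz
    rw [mem_product, Fintype.mem_piFinset]
    refine ⟨mem_Ico.mpr ⟨h1, h2⟩, fun l => ?_⟩
    have h4 := (le_nrm (rr x i z) (i.succAbove l)).trans h3
    have h5 : |rr x i z (i.succAbove l)| ≤ T := by
      rw [Int.abs_eq_natAbs]; exact_mod_cast h4
    obtain ⟨h6, h7⟩ := abs_le.mp h5
    rw [mem_Icc]
    constructor
    · exact Int.ediv_nonneg (by linarith) hQi.le
    · have : (rr x i z (i.succAbove l) + T) / Q ≤ (2 * T : ℤ) / Q :=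
        Int.ediv_le_ediv hQi (by linarith)
      push_cast
      exact this
  have hinj : Set.InjOn φ F := by
    intro z hz z' hz' he
    simp only [φ, Prod.mk.injEq] at he
    obtain ⟨h1, h2⟩ := he
    funext j
    by_cases hj : j = i
    · rw [hj]; exact h1
    · obtain ⟨l, rfl⟩ := Fin.exists_succAbove_eq hj
      have h3 : (rr x i z (i.succAbove l) + T) / Q = (rr x i z' (i.succAbove l) + T) / Q :=
        congrFun h2 l
      -- same residue
      have h4 : (Q : ℤ) ∣ (rr x i z (i.succAbove l) + T) - (rr x i z' (i.succAbove l) + T) := by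
        have : (rr x i z (i.succAbove l) + T) - (rr x i z' (i.succAbove l) + T) =
            x i * (z (i.succAbove l) - z' (i.succAbove l)) := by
          unfold rr
          rw [h1]; ring
        rw [this, ← hQ, Int.natCast_natAbs]
        exact Dvd.dvd.mul_right ((abs_dvd _ _).mpr dvd_rfl) _
      have h5 : (rr x i z (i.succAbove l) + T) % Q = (rr x i z' (i.succAbove l) + T) % Q :=
        Int.emod_eq_emod_iff_emod_sub_eq_zero.mpr (Int.emod_eq_zero_of_dvd h4)
      have h6 : rr x i z (i.succAbove l) + T = rr x i z' (i.succAbove l) + T := by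
        rw [← Int.emod_add_mul_ediv (rr x i z (i.succAbove l) + T) Q,
          ← Int.emod_add_mul_ediv (rr x i z' (i.succAbove l) + T) Q, h5, h3]
      have h7 : x i * z (i.succAbove l) = x i * z' (i.succAbove l) := by
        unfold rr at h6
        rw [h1] at h6
        linarith
      exact mul_left_cancel₀ hxi h7
  have hcard := Finset.card_le_card_of_injOn φ hmaps hinj
  rw [card_product, Int.card_Ico, Fintype.card_piFinset_const, card_Icc_nat] at hcard
  simpa using hcard

theorem lt_of_ediv_eq {a b D : ℤ} (hD : 0 < D) (h : a / D = b / D) : a - b < D := by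
  have h1 := Int.emod_add_mul_ediv a D
  have h2 := Int.emod_add_mul_ediv b D
  have h3 := Int.emod_lt_of_pos a hD
  have h4 := Int.emod_nonneg b hD.ne'
  rw [h] at h1
  linarith

/-- count by packing -/
theorem count2 {n : ℕ} (x : Fin (n + 1) → ℤ) (i : Fin (n + 1)) (Q T Δ : ℕ)
    (hQ : (x i).natAbs = Q) (hQ0 : 0 < Q) (hm : ∀ j, (x j).natAbs ≤ Q) (hΔ : 1 ≤ Δ)
    (hx : Umod x) (hs : Sep Δ x) (F : Finset (Fin (n + 1) → ℤ))
    (hF : ∀ z ∈ F, 0 ≤ z i ∧ z i < Q ∧ nrm (rr x i z) ≤ T) :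
    F.card ≤ (4 * T / Δ + 1) ^ n := by
  classical
  have hxi : x i ≠ 0 := by
    intro h
    rw [h] at hQ
    simp at hQ
    omega
  have hΔi : (0 : ℤ) < Δ := by exact_mod_cast hΔ
  let φ : (Fin (n + 1) → ℤ) → (Fin n → ℤ) := fun z l =>
    (2 * (rr x i z (i.succAbove l) + T)) / Δ
  have hmaps : ∀ z ∈ F, φ z ∈
      (Fintype.piFinset fun _ : Fin n => Finset.Icc (0 : ℤ) ((4 * T / Δ : ℕ) : ℤ)) := by
    intro z hz
    obtain ⟨h1, h2, h3⟩ := hF z hz
    rw [Fintype.mem_piFinset]
    intro l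
    have h4 := (le_nrm (rr x i z) (i.succAbove l)).trans h3
    have h5 : |rr x i z (i.succAbove l)| ≤ T := by
      rw [Int.abs_eq_natAbs]; exact_mod_cast h4
    obtain ⟨h6, h7⟩ := abs_le.mp h5
    rw [mem_Icc]
    constructor
    · exact Int.ediv_nonneg (by linarith) hΔi.le
    · have : (2 * (rr x i z (i.succAbove l) + T)) / Δ ≤ (4 * T : ℤ) / Δ :=
        Int.ediv_le_ediv hΔi (by linarith)
      push_cast
      exact this
  have hinj : Set.InjOn φ F := by
    intro z hz z' hz' he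
    obtain ⟨a1, a2, -⟩ := hF z hz
    obtain ⟨b1, b2, -⟩ := hF z' hz'
    have h1 : ∀ l, 2 * ((rr x i (fun j => z j - z' j)) l).natAbs < Δ := by
      intro j
      by_cases hj : j = i
      · subst hj
        have : rr x j (fun j => z j - z' j) j = 0 := by unfold rr; ring
        rw [this]
        simp only [Int.natAbs_zero, mul_zero]
        omega
      · obtain ⟨l, rfl⟩ := Fin.exists_succAbove_eq hj
        have h3 := congrFun he l
        simp only [φ] at h3
        have u1 := lt_of_ediv_eq hΔi h3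
        have u2 := lt_of_ediv_eq hΔi h3.symm
        rw [rr_sub]
        have u3 : 2 * |rr x i z (i.succAbove l) - rr x i z' (i.succAbove l)| < Δ := by
          rcases abs_cases (rr x i z (i.succAbove l) - rr x i z' (i.succAbove l)) with h | h <;>
            linarith [h.1]
        rw [Int.abs_eq_natAbs] at u3
        exact_mod_cast u3
    have h2 : 2 * nrm (rr x i (fun j => z j - z' j)) < Δ := by
      obtain ⟨j, -, hj⟩ := Finset.exists_mem_eq_sup (univ : Finset (Fin (n + 1))) ⟨i, mem_univ i⟩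
        (fun j => (rr x i (fun j => z j - z' j) j).natAbs)
      have : nrm (rr x i (fun j => z j - z' j)) = (rr x i (fun j => z j - z' j) j).natAbs := hj
      rw [this]
      exact h1 j
    have h3 : wd x (fun j => z j - z' j) < Δ :=
      lt_of_le_of_lt (wd_le_rr x i _ hxi (fun j => by rw [hQ]; exact hm j)) h2
    have h4 : wd x (fun j => z j - z' j) = 0 := by
      by_contra hne
      exact absurd (hs _ hne) (not_le.mpr h3)
    obtain ⟨s, hs'⟩ := prop_of_wd x _ hx h4
    have h5 : s = 0 := by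
      by_contra hs0
      have h6 : z i - z' i = s * x i := hs' i
      have h7 : |z i - z' i| < Q := by
        rw [abs_lt]; constructor <;> linarith
      rw [h6, abs_mul] at h7
      have h8 : |x i| = Q := by rw [Int.abs_eq_natAbs, hQ]
      rw [h8] at h7
      have h9 : 1 ≤ |s| := Int.one_le_abs hs0
      have h10 : (0 : ℤ) < Q := by exact_mod_cast hQ0
      nlinarith
    funext j
    have h6 : z j - z' j = s * x j := hs' j
    rw [h5] at h6
    linarith
  have hcard := Finset.card_le_card_of_injOn φ hmaps hinj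
  rw [Fintype.card_piFinset_const, card_Icc_nat] at hcard
  simpa using hcard

theorem arith1 (Z B : ℝ) (k : ℕ) :
    (Z * ((2 * B ^ 2 / 2 ^ k) * 4)) * (1 / 2 ^ k) =
      Z * (32 * B ^ 2 / ((2 ^ (k + 1) : ℕ) : ℝ) ^ 2) := by
  push_cast
  field_simp
  ring

theorem mem_box {ι : Type} [Fintype ι] [DecidableEq ι] {H : ℕ} {c : ι → ℤ} :
    c ∈ box ι H ↔ ∀ j, (c j).natAbs ≤ H := by
  unfold box
  rw [Fintype.mem_piFinset]
  refine forall_congr' fun j => ?_
  rw [mem_Icc]
  omega

end SumSf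

open SumSf

theorem sumsf (n : ℕ) (hn : 2 ≤ n) : ∃ C : ℝ, 0 < C ∧ ∀ (B Δ : ℕ)
    (x : Fin (n + 1) → ℤ), 1 ≤ Δ → B < 2 * nrm x → nrm x ≤ B → Umod x → Sep Δ x →
    ∑ y ∈ (box (Fin (n + 1)) B).filter (fun y => wd x y ≠ 0), ((gd x y : ℝ) / (wd x y : ℝ)) ≤
      C * (1 + Real.log B) * ((B : ℝ) ^ (n - 1) + ((B : ℝ) / Δ) ^ n) := by
  classical
  refine ⟨3 * (32 * 6 ^ n + 32 * 3 ^ n * 4 ^ (n - 2) * 2 ^ (n - 1)), by positivity, ?_⟩
  intro B Δ x hΔ hB1 hB2 hx hs
  -- the pivot
  obtain ⟨i, -, hi⟩ := Finset.exists_mem_eq_sup (univ : Finset (Fin (n + 1))) ⟨0, mem_univ 0⟩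
    (fun j => (x j).natAbs)
  set Q := nrm x with hQdef
  have hQ : (x i).natAbs = Q := hi.symm
  have hm : ∀ j, (x j).natAbs ≤ Q := fun j => le_nrm x j
  have hQ0 : 0 < Q := by
    omega
  have hxi : x i ≠ 0 := by
    intro h
    rw [h] at hQ
    simp at hQ
    omega
  have hB0 : 0 < B := by omega
  have hBr : (1 : ℝ) ≤ B := by exact_mod_cast hB0
  have hBpos : (0 : ℝ) < B := by linarith
  have hQr : (0 : ℝ) < Q := by exact_mod_cast hQ0
  have hQB : (B : ℝ) / 2 < Q := by
    have : (B : ℝ) < 2 * Q := by exact_mod_cast hB1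
    linarith
  have hQB' : (Q : ℝ) ≤ B := by exact_mod_cast hB2
  have hΔr : (1 : ℝ) ≤ Δ := by exact_mod_cast hΔ
  have hΔpos : (0 : ℝ) < Δ := by linarith
  set S := (box (Fin (n + 1)) B).filter (fun y => wd x y ≠ 0) with hS
  -- decomposition
  have hdec : ∀ y, ∃ (t : ℤ) (z : Fin (n + 1) → ℤ), 0 ≤ z i ∧ z i < (x i).natAbs ∧
      ∀ j, y j = t * x j + (gd x y : ℤ) * z j := fun y => decomp_red x y hx i hxi
  choose tf zf hz0 hz1 hz using hdec
  have hwd : ∀ y, wd x y = gd x y * wd x (zf y) := by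
    intro y
    have := wd_comb x (zf y) y (tf y) (gd x y : ℤ) (hz y)
    simpa using this
  have hgpos : ∀ y, wd x y ≠ 0 → 0 < gd x y := by
    intro y hy
    rw [hwd y] at hy
    exact Nat.pos_of_ne_zero (left_ne_zero_of_mul hy)
  have hzne : ∀ y, wd x y ≠ 0 → wd x (zf y) ≠ 0 := by
    intro y hy
    rw [hwd y] at hy
    exact right_ne_zero_of_mul hy
  -- the size of `x ∧ z`
  set Mz : (Fin (n + 1) → ℤ) → ℕ := fun y => nrm (rr x i (zf y)) with hMz
  have hM1 : ∀ y, Mz y ≤ wd x (zf y) := fun y => nrm_rr_le x i (zf y)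
  have hM2 : ∀ y, wd x (zf y) ≤ 2 * Mz y := fun y =>
    wd_le_rr x i (zf y) hxi (fun j => by rw [hQ]; exact hm j)
  have hwdB : ∀ y ∈ box (Fin (n + 1)) B, wd x y ≤ 2 * B ^ 2 := by
    intro y hy
    rw [mem_box] at hy
    refine wd_le fun a b => ?_
    calc (x a * y b - x b * y a).natAbs ≤ (x a * y b).natAbs + (x b * y a).natAbs :=
          Int.natAbs_sub_le _ _
      _ = (x a).natAbs * (y b).natAbs + (x b).natAbs * (y a).natAbs := by
          rw [Int.natAbs_mul, Int.natAbs_mul]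
      _ ≤ B * B + B * B := add_le_add (Nat.mul_le_mul ((hm a).trans hB2) (hy b))
          (Nat.mul_le_mul ((hm b).trans hB2) (hy a))
      _ = 2 * B ^ 2 := by ring
  set K : (Fin (n + 1) → ℤ) → ℕ := fun y => Nat.log 2 (Mz y) with hK
  set K0 := Nat.log 2 (2 * B ^ 2) with hK0
  have hMpos : ∀ y ∈ S, 0 < Mz y := by
    intro y hy
    have h1 := hzne y (mem_filter.mp hy).2
    have h2 := hM2 y
    omega
  have hMB : ∀ y ∈ S, gd x y * Mz y ≤ 2 * B ^ 2 := by
    intro y hy
    calc gd x y * Mz y ≤ gd x y * wd x (zf y) := Nat.mul_le_mul_left _ (hM1 y)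
      _ = wd x y := (hwd y).symm
      _ ≤ 2 * B ^ 2 := hwdB y (mem_filter.mp hy).1
  have hMB' : ∀ y ∈ S, Mz y ≤ 2 * B ^ 2 := by
    intro y hy
    calc Mz y = 1 * Mz y := (one_mul _).symm
      _ ≤ gd x y * Mz y := Nat.mul_le_mul_right _ (hgpos y (mem_filter.mp hy).2)
      _ ≤ _ := hMB y hy
  have hKmaps : ∀ y ∈ S, K y ∈ range (K0 + 1) := by
    intro y hy
    rw [mem_range, Nat.lt_succ_iff]
    exact Nat.log_mono_right (hMB' y hy)
  -- the bound for one dyadic piece
  have hpiece : ∀ k ∈ range (K0 + 1), ∑ y ∈ S.filter (fun y => K y = k),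
      ((gd x y : ℝ) / (wd x y : ℝ)) ≤
      (32 * 6 ^ n + 32 * 3 ^ n * 4 ^ (n - 2) * 2 ^ (n - 1)) *
        ((B : ℝ) ^ (n - 1) + ((B : ℝ) / Δ) ^ n) := by
    intro k hk
    set Sk := S.filter (fun y => K y = k) with hSk
    rcases Sk.eq_empty_or_nonempty with hemp | hne
    · rw [hemp, sum_empty]; positivity
    set T := 2 ^ (k + 1) with hT
    have hlow : ∀ y ∈ Sk, 2 ^ k ≤ Mz y := by
      intro y hy
      obtain ⟨h1, h2⟩ := mem_filter.mp hy
      rw [← h2]
      exact Nat.pow_log_le_self 2 (hMpos y h1).ne'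
    have hup : ∀ y ∈ Sk, Mz y ≤ T := by
      intro y hy
      obtain ⟨h1, h2⟩ := mem_filter.mp hy
      rw [hT, ← h2]
      exact (Nat.lt_pow_succ_log_self (by norm_num) _).le
    have hterm : ∀ y ∈ Sk, ((gd x y : ℝ) / (wd x y : ℝ)) ≤ 1 / 2 ^ k := by
      intro y hy
      obtain ⟨h1, h2⟩ := mem_filter.mp hy
      have h3 : (0 : ℝ) < gd x y := by exact_mod_cast hgpos y (mem_filter.mp h1).2
      have h4 : (2 : ℝ) ^ k ≤ wd x (zf y) := by exact_mod_cast (hlow y hy).trans (hM1 y)
      have h5 : (0 : ℝ) < 2 ^ k := by positivity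
      rw [hwd y]
      push_cast
      rw [div_mul_eq_div_div, div_self h3.ne']
      exact one_div_le_one_div_of_le h5 h4
    -- the injection
    set Zk := Sk.image zf with hZk
    have hZF : ∀ z ∈ Zk, 0 ≤ z i ∧ z i < Q ∧ nrm (rr x i z) ≤ T := by
      intro z hz'
      obtain ⟨y, hy, rfl⟩ := mem_image.mp hz'
      refine ⟨hz0 y, ?_, hup y hy⟩
      have := hz1 y
      rwa [hQ] at this
    have hcardS : Sk.card ≤ Zk.card * ((2 * B ^ 2 / 2 ^ k) * 4) := by
      let φ : (Fin (n + 1) → ℤ) → (Fin (n + 1) → ℤ) × (ℕ × ℕ) := fun y =>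
        (zf y, (gd x y, ((y i + B) / Q).toNat))
      have hQi : (0 : ℤ) < Q := by exact_mod_cast hQ0
      have hyB : ∀ y ∈ Sk, 0 ≤ (y i + B) / Q ∧ (y i + B) / Q < 4 := by
        intro y hy
        have h1 := mem_box.mp (mem_filter.mp (mem_filter.mp hy).1).1 i
        have h2 : |y i| ≤ B := by rw [Int.abs_eq_natAbs]; exact_mod_cast h1
        obtain ⟨h3, h4⟩ := abs_le.mp h2
        refine ⟨Int.ediv_nonneg (by linarith) hQi.le, ?_⟩
        rw [Int.ediv_lt_iff_lt_mul hQi]
        have : (B : ℤ) < 2 * Q := by exact_mod_cast hB1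
        linarith
      have hmaps : ∀ y ∈ Sk, φ y ∈ Zk ×ˢ (Finset.Icc 1 (2 * B ^ 2 / 2 ^ k) ×ˢ range 4) := by
        intro y hy
        have hyS := (mem_filter.mp hy).1
        simp only [φ, mem_product]
        refine ⟨mem_image_of_mem _ hy, mem_Icc.mpr ⟨hgpos y (mem_filter.mp hyS).2, ?_⟩, ?_⟩
        · rw [Nat.le_div_iff_mul_le (by positivity)]
          exact (Nat.mul_le_mul_left _ (hlow y hy)).trans (hMB y hyS)
        · rw [mem_range]
          have := hyB y hy
          omega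
      have hinj : Set.InjOn φ Sk := by
        intro y hy y' hy' he
        simp only [φ, Prod.mk.injEq] at he
        obtain ⟨e1, e2, e3⟩ := he
        have u1 := hyB y hy
        have u2 := hyB y' hy'
        have e4 : (y i + B) / Q = (y' i + B) / Q := by omega
        have e5 : y i - y' i = (tf y - tf y') * x i := by
          rw [hz y i, hz y' i, e1, e2]; ring
        have e6 : (Q : ℤ) ∣ (y i + B) - (y' i + B) := by
          have : (y i + B) - (y' i + B) = (tf y - tf y') * x i := by rw [← e5]; ring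
          rw [this, ← hQ, Int.natCast_natAbs]
          exact Dvd.dvd.mul_left ((abs_dvd _ _).mpr dvd_rfl) _
        have e7 : (y i + B) % Q = (y' i + B) % Q :=
          Int.emod_eq_emod_iff_emod_sub_eq_zero.mpr (Int.emod_eq_zero_of_dvd e6)
        have e8 : y i + B = y' i + B := by
          rw [← Int.emod_add_mul_ediv (y i + B) Q, ← Int.emod_add_mul_ediv (y' i + B) Q, e7, e4]
        have e9 : tf y = tf y' := by
          have h1 : (tf y - tf y') * x i = 0 := by rw [← e5]; linarith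
          rcases mul_eq_zero.mp h1 with h | h
          · linarith
          · exact absurd h hxi
        funext j
        rw [hz y j, hz y' j, e9, e1, e2]
      have := Finset.card_le_card_of_injOn φ hmaps hinj
      rwa [card_product, card_product, Nat.card_Icc, card_range, Nat.add_sub_cancel] at this
    have hsum : ∑ y ∈ Sk, ((gd x y : ℝ) / (wd x y : ℝ)) ≤
        (Zk.card : ℝ) * (32 * (B : ℝ) ^ 2 / (T : ℝ) ^ 2) := by
      calc ∑ y ∈ Sk, ((gd x y : ℝ) / (wd x y : ℝ)) ≤ ∑ _y ∈ Sk, (1 / 2 ^ k : ℝ) :=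
            sum_le_sum hterm
        _ = (Sk.card : ℝ) * (1 / 2 ^ k) := by rw [sum_const, nsmul_eq_mul]
        _ ≤ ((Zk.card : ℝ) * ((2 * (B : ℝ) ^ 2 / 2 ^ k) * 4)) * (1 / 2 ^ k) := by
            refine mul_le_mul_of_nonneg_right ?_ (by positivity)
            calc (Sk.card : ℝ) ≤ ((Zk.card * ((2 * B ^ 2 / 2 ^ k) * 4) : ℕ) : ℝ) := by
                  exact_mod_cast hcardS
              _ = (Zk.card : ℝ) * (((2 * B ^ 2 / 2 ^ k : ℕ) : ℝ) * 4) := by push_cast; ring
              _ ≤ (Zk.card : ℝ) * ((2 * (B : ℝ) ^ 2 / 2 ^ k) * 4) := by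
                  have : ((2 * B ^ 2 / 2 ^ k : ℕ) : ℝ) ≤ 2 * (B : ℝ) ^ 2 / 2 ^ k := by
                    have := Nat.cast_div_le (α := ℝ) (m := 2 * B ^ 2) (n := 2 ^ k)
                    push_cast at this
                    exact this
                  exact mul_le_mul_of_nonneg_left
                    (mul_le_mul_of_nonneg_right this (by norm_num)) (Nat.cast_nonneg _)
        _ = (Zk.card : ℝ) * (32 * (B : ℝ) ^ 2 / (T : ℝ) ^ 2) := arith1 _ _ _
    have hTpos : (0 : ℝ) < T := by rw [hT]; positivity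
    have hΔT : Δ ≤ 2 * T := by
      obtain ⟨y, hy⟩ := hne
      have hyS := (mem_filter.mp hy).1
      calc Δ ≤ wd x (zf y) := hs _ (hzne y (mem_filter.mp hyS).2)
        _ ≤ 2 * Mz y := hM2 y
        _ ≤ 2 * T := Nat.mul_le_mul_left _ (hup y hy)
    have hTB : T ≤ 4 * B ^ 2 := by
      obtain ⟨y, hy⟩ := hne
      have hyS := (mem_filter.mp hy).1
      have h1 := hlow y hy
      have h2 := hMB' y hyS
      have h3 : T = 2 * 2 ^ k := by rw [hT, pow_succ]; ring
      omega
    clear_value T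
    obtain ⟨m, rfl⟩ : ∃ m, n = m + 2 := ⟨n - 2, by omega⟩
    have hm1 : m + 2 - 1 = m + 1 := by omega
    have hm2 : m + 2 - 2 = m := by omega
    rw [hm1, hm2]
    by_cases hTQ : T ≤ Q
    · -- packing
      have h1 := count2 x i Q T Δ hQ hQ0 hm hΔ hx hs Zk hZF
      have h2 : (Zk.card : ℝ) ≤ (6 * T / Δ) ^ (m + 2) := by
        calc (Zk.card : ℝ) ≤ (((4 * T / Δ + 1) ^ (m + 2) : ℕ) : ℝ) := Nat.cast_le.mpr h1
          _ = (((4 * T / Δ : ℕ) : ℝ) + 1) ^ (m + 2) := by
              rw [Nat.cast_pow, Nat.cast_add, Nat.cast_one]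
          _ ≤ (6 * T / Δ) ^ (m + 2) := by
              have h3 : ((4 * T / Δ : ℕ) : ℝ) ≤ 4 * T / Δ := by
                have := Nat.cast_div_le (α := ℝ) (m := 4 * T) (n := Δ)
                rw [Nat.cast_mul] at this
                exact_mod_cast this
              have h4 : (1 : ℝ) ≤ 2 * T / Δ := by
                rw [le_div_iff₀ hΔpos, one_mul]
                exact_mod_cast hΔT
              refine pow_le_pow_left₀ (by positivity) ?_ _
              have h5 : (6 * T / Δ : ℝ) = 4 * T / Δ + 2 * T / Δ := by ring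
              rw [h5]
              linarith
      have h3 : (T : ℝ) ≤ B := by
        have : (T : ℝ) ≤ Q := by exact_mod_cast hTQ
        linarith
      calc ∑ y ∈ Sk, ((gd x y : ℝ) / (wd x y : ℝ)) ≤ _ := hsum
        _ ≤ (6 * T / Δ) ^ (m + 2) * (32 * (B : ℝ) ^ 2 / (T : ℝ) ^ 2) := by gcongr
        _ = 32 * 6 ^ (m + 2) * ((T : ℝ) ^ m * (B : ℝ) ^ 2 / (Δ : ℝ) ^ (m + 2)) := by
            rw [div_pow, mul_pow]
            field_simp
            ring
        _ ≤ 32 * 6 ^ (m + 2) * ((B : ℝ) ^ m * (B : ℝ) ^ 2 / (Δ : ℝ) ^ (m + 2)) := by gcongr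
        _ = 32 * 6 ^ (m + 2) * ((B : ℝ) / Δ) ^ (m + 2) := by
            rw [div_pow, ← pow_add]
        _ ≤ (32 * 6 ^ (m + 2) + 32 * 3 ^ (m + 2) * 4 ^ m * 2 ^ (m + 1)) *
            ((B : ℝ) ^ (m + 1) + ((B : ℝ) / Δ) ^ (m + 2)) := by
            apply mul_le_mul
            · have : (0 : ℝ) ≤ 32 * 3 ^ (m + 2) * 4 ^ m * 2 ^ (m + 1) := by positivity
              linarith
            · have : (0 : ℝ) ≤ (B : ℝ) ^ (m + 1) := by positivity
              linarith
            · positivity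
            · positivity
    · -- residue classes
      push Not at hTQ
      have h1 := count1 x i Q T hQ hQ0 Zk hZF
      have hTQr : (Q : ℝ) ≤ T := by exact_mod_cast hTQ.le
      have h2 : (Zk.card : ℝ) ≤ Q * (3 * T / Q) ^ (m + 2) := by
        calc (Zk.card : ℝ) ≤ ((Q * (2 * T / Q + 1) ^ (m + 2) : ℕ) : ℝ) := Nat.cast_le.mpr h1
          _ = Q * (((2 * T / Q : ℕ) : ℝ) + 1) ^ (m + 2) := by
              rw [Nat.cast_mul, Nat.cast_pow, Nat.cast_add, Nat.cast_one]
          _ ≤ Q * (3 * T / Q) ^ (m + 2) := by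
              have h3 : ((2 * T / Q : ℕ) : ℝ) ≤ 2 * T / Q := by
                have := Nat.cast_div_le (α := ℝ) (m := 2 * T) (n := Q)
                rw [Nat.cast_mul] at this
                exact_mod_cast this
              have h4 : (1 : ℝ) ≤ T / Q := by
                rw [le_div_iff₀ hQr, one_mul]
                exact hTQr
              refine mul_le_mul_of_nonneg_left ?_ hQr.le
              refine pow_le_pow_left₀ (by positivity) ?_ _
              have h5 : (3 * T / Q : ℝ) = 2 * T / Q + T / Q := by ring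
              rw [h5]
              linarith
      have h3 : (T : ℝ) ≤ 4 * (B : ℝ) ^ 2 := by exact_mod_cast hTB
      calc ∑ y ∈ Sk, ((gd x y : ℝ) / (wd x y : ℝ)) ≤ _ := hsum
        _ ≤ (Q * (3 * T / Q) ^ (m + 2)) * (32 * (B : ℝ) ^ 2 / (T : ℝ) ^ 2) := by gcongr
        _ = 32 * 3 ^ (m + 2) * ((T : ℝ) ^ m * (B : ℝ) ^ 2 * (1 / (Q : ℝ)) ^ (m + 1)) := by
            rw [div_pow, mul_pow, one_div, inv_pow]
            field_simp
            ring
        _ ≤ 32 * 3 ^ (m + 2) * ((4 * (B : ℝ) ^ 2) ^ m * (B : ℝ) ^ 2 * (2 / (B : ℝ)) ^ (m + 1)) := by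
            have h5 : 1 / (Q : ℝ) ≤ 2 / (B : ℝ) := by
              rw [div_le_div_iff₀ hQr hBpos]
              linarith
            gcongr
        _ = 32 * 3 ^ (m + 2) * 4 ^ m * 2 ^ (m + 1) * (B : ℝ) ^ (m + 1) := by
            rw [mul_pow, div_pow, ← pow_mul]
            field_simp
            ring
        _ ≤ (32 * 6 ^ (m + 2) + 32 * 3 ^ (m + 2) * 4 ^ m * 2 ^ (m + 1)) *
            ((B : ℝ) ^ (m + 1) + ((B : ℝ) / Δ) ^ (m + 2)) := by
            apply mul_le_mul
            · have : (0 : ℝ) ≤ 32 * 6 ^ (m + 2) := by positivity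
              linarith
            · have : (0 : ℝ) ≤ ((B : ℝ) / Δ) ^ (m + 2) := by positivity
              linarith
            · positivity
            · positivity
  -- number of pieces
  have hlog : ((K0 : ℝ) + 1) ≤ 3 * (1 + Real.log B) := by
    have h1 : (K0 : ℝ) * Real.log 2 ≤ Real.log (2 * (B : ℝ) ^ 2) := by
      have h2 : (2 : ℝ) ^ K0 ≤ 2 * (B : ℝ) ^ 2 := by
        have := Nat.pow_log_le_self 2 (x := 2 * B ^ 2) (by positivity)
        exact_mod_cast this
      have h3 := Real.log_le_log (by positivity) h2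
      rwa [Real.log_pow] at h3
    have h4 : Real.log (2 * (B : ℝ) ^ 2) = Real.log 2 + 2 * Real.log B := by
      rw [Real.log_mul (by norm_num) (by positivity), Real.log_pow]
      push_cast
      ring
    rw [h4] at h1
    have h5 : 0.6931471803 < Real.log 2 := Real.log_two_gt_d9
    have h6 : 0 ≤ Real.log B := Real.log_nonneg hBr
    by_contra hcon
    push Not at hcon
    have h7 : (3 * (1 + Real.log B) - 1) * Real.log 2 < K0 * Real.log 2 := by
      apply mul_lt_mul_of_pos_right _ (by linarith)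
      linarith
    nlinarith
  rw [← sum_fiberwise_of_maps_to hKmaps]
  calc ∑ k ∈ range (K0 + 1), ∑ y ∈ S.filter (fun y => K y = k), ((gd x y : ℝ) / (wd x y : ℝ))
      ≤ ∑ _k ∈ range (K0 + 1), (32 * 6 ^ n + 32 * 3 ^ n * 4 ^ (n - 2) * 2 ^ (n - 1)) *
        ((B : ℝ) ^ (n - 1) + ((B : ℝ) / Δ) ^ n) := sum_le_sum hpiece
    _ = ((K0 : ℝ) + 1) * ((32 * 6 ^ n + 32 * 3 ^ n * 4 ^ (n - 2) * 2 ^ (n - 1)) *
        ((B : ℝ) ^ (n - 1) + ((B : ℝ) / Δ) ^ n)) := by
        rw [sum_const, card_range, nsmul_eq_mul]; push_cast; ring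
    _ ≤ (3 * (1 + Real.log B)) * ((32 * 6 ^ n + 32 * 3 ^ n * 4 ^ (n - 2) * 2 ^ (n - 1)) *
        ((B : ℝ) ^ (n - 1) + ((B : ℝ) / Δ) ^ n)) := by
        refine mul_le_mul_of_nonneg_right hlog (by positivity)
    _ = _ := by ring

end Pool.Agent.HP
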