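import Pool.Agent.Lib.MP_fc0680_nt.Defs

/-!
# MP_fc0680_nt : VARBOUND

Expansion of the variance over pairs of points.
-/

set_option autoImplicit false
open Finset Filter

namespace Pool.Agent.HP

namespace VarBound

theorem evZ_eq {k : ℕ} {n d : Fin k → ℕ} (c : Exps n d → ℤ) (P : Pt n ℤ) :
    (evZ c P : ℤ) = ∑ s, c s * mono s P := by
  unfold evZ ev
  simp

theorem win_card {ι : Type} [Fintype ι] [DecidableEq ι] (m m' : ι → ℤ) (H W : ℕ) (V ω : ℝ)
    (hW : 0 < W) (hV : (W : ℝ) ≤ V)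
    (hU : ∀ w w' : ℤ, (((box ι H).filter fun c => ∑ i, c i * m i = w ∧
      ∑ i, c i * m' i = w').card : ℝ) ≤ ω) :
    ((W : ℝ) / (2 * V)) ^ 2 * pairE3 H W V m m' ≤ 4 * ω := by
  classical
  have hWR : (0 : ℝ) < W := by exact_mod_cast hW
  have hVpos : 0 < V := lt_of_lt_of_le hWR hV
  have hω : 0 ≤ ω := le_trans (Nat.cast_nonneg _) (hU 0 0)
  set K : ℕ := ⌊V / W⌋₊ with hK
  have hKle : (K : ℝ) ≤ V / W := Nat.floor_le (by positivity)
  set I : Finset ℤ := Finset.Icc (-(K : ℤ)) (K : ℤ) with hI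
  have hIcard : (I.card : ℝ) ≤ 2 * (V / W) + 1 := by
    rw [hI, Int.card_Icc]
    have h1 : ((K : ℤ) + 1 - -(K : ℤ)).toNat = 2 * K + 1 := by omega
    rw [h1]
    push_cast
    linarith
  have hmemI : ∀ u : ℤ, (W : ℤ) ∣ u → |((u : ℤ) : ℝ)| ≤ V → u / W ∈ I := by
    intro u hu hu2
    obtain ⟨a, rfl⟩ := hu
    have hW0 : (W : ℤ) ≠ 0 := by exact_mod_cast hW.ne'
    rw [Int.mul_ediv_cancel_left _ hW0, hI, Finset.mem_Icc, ← abs_le]
    have h1 : ((|a| : ℤ) : ℝ) ≤ V / W := by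
      rw [le_div_iff₀ hWR]
      push_cast at hu2 ⊢
      rw [abs_mul, abs_of_pos hWR] at hu2
      linarith
    have h2 : (a.natAbs : ℝ) ≤ V / W := by
      have h3 : ((a.natAbs : ℤ) : ℝ) = ((|a| : ℤ) : ℝ) := by rw [Int.abs_eq_natAbs]
      have h4 : (a.natAbs : ℝ) = ((a.natAbs : ℤ) : ℝ) := by simp
      rw [h4, h3]
      exact h1
    have h5 : a.natAbs ≤ K := Nat.le_floor h2
    rw [Int.abs_eq_natAbs]
    exact_mod_cast h5
  have hE3 : pairE3 H W V m m' ≤ (I.card : ℝ) ^ 2 * ω := by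
    unfold pairE3
    set S := ((box ι H).filter fun c => ((W : ℤ) ∣ ∑ i, c i * m i ∧
      |((∑ i, c i * m i : ℤ) : ℝ)| ≤ V) ∧ ((W : ℤ) ∣ ∑ i, c i * m' i ∧
      |((∑ i, c i * m' i : ℤ) : ℝ)| ≤ V)) with hS
    have h1 : S.card = ∑ b ∈ I ×ˢ I, (S.filter fun c =>
        ((∑ i, c i * m i) / (W : ℤ), (∑ i, c i * m' i) / (W : ℤ)) = b).card := by
      apply Finset.card_eq_sum_card_fiberwise
      intro c hc
      have hc' := (Finset.mem_filter.1 hc).2
      exact Finset.mem_product.2 ⟨hmemI _ hc'.1.1 hc'.1.2, hmemI _ hc'.2.1 hc'.2.2⟩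
    rw [h1]
    push_cast
    have h2 : ∀ b ∈ I ×ˢ I, (((S.filter fun c =>
        ((∑ i, c i * m i) / (W : ℤ), (∑ i, c i * m' i) / (W : ℤ)) = b).card : ℕ) : ℝ) ≤ ω := by
      intro b _
      refine le_trans ?_ (hU (W * b.1) (W * b.2))
      have h3 : (S.filter fun c =>
        ((∑ i, c i * m i) / (W : ℤ), (∑ i, c i * m' i) / (W : ℤ)) = b) ⊆
        ((box ι H).filter fun c => ∑ i, c i * m i = W * b.1 ∧ ∑ i, c i * m' i = W * b.2) := by
        intro c hc
        rw [Finset.mem_filter] at hc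
        obtain ⟨hc1, hc2⟩ := hc
        rw [hS, Finset.mem_filter] at hc1
        rw [Finset.mem_filter]
        refine ⟨hc1.1, ?_, ?_⟩
        · rw [← hc2]
          exact (Int.mul_ediv_cancel' hc1.2.1.1).symm
        · rw [← hc2]
          exact (Int.mul_ediv_cancel' hc1.2.2.1).symm
      exact_mod_cast Finset.card_le_card h3
    refine (Finset.sum_le_card_nsmul _ _ _ h2).trans ?_
    rw [Finset.card_product, nsmul_eq_mul]
    push_cast
    rw [pow_two]
  have hx : (0 : ℝ) ≤ (W : ℝ) / (2 * V) := by positivity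
  have hlw : (W : ℝ) / (2 * V) * I.card ≤ 2 := by
    have h1 : (W : ℝ) / (2 * V) * I.card ≤ (W : ℝ) / (2 * V) * (2 * (V / W) + 1) :=
      mul_le_mul_of_nonneg_left hIcard hx
    have h2 : (W : ℝ) / (2 * V) * (2 * (V / W) + 1) = 1 + W / (2 * V) := by
      field_simp
    have h3 : (W : ℝ) / (2 * V) ≤ 1 := by
      rw [div_le_one (by positivity)]
      linarith
    linarith
  calc ((W : ℝ) / (2 * V)) ^ 2 * pairE3 H W V m m'
      ≤ ((W : ℝ) / (2 * V)) ^ 2 * ((I.card : ℝ) ^ 2 * ω) :=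
        mul_le_mul_of_nonneg_left hE3 (by positivity)
    _ = ((W : ℝ) / (2 * V) * I.card) ^ 2 * ω := by ring
    _ ≤ 2 ^ 2 * ω := by
        apply mul_le_mul_of_nonneg_right _ hω
        apply pow_le_pow_left₀ (by positivity) hlw
    _ = 4 * ω := by norm_num

end VarBound

open VarBound

theorem var_bound {k : ℕ} {n d : Fin k → ℕ} (Ps : Finset (Pt n ℤ)) (H W : ℕ) (V ε : ℝ)
    (hW : 0 < W) (hV : (W : ℝ) ≤ V) (hε : 0 ≤ ε) (ω : Pt n ℤ → Pt n ℤ → ℝ)
    (good : Pt n ℤ → Pt n ℤ → Prop) [∀ P P', Decidable (good P P')]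
    (hU : ∀ P ∈ Ps, ∀ P' ∈ Ps, ∀ w w' : ℤ,
      (((box (Exps n d) H).filter fun c => evZ c P = w ∧ evZ c P' = w').card : ℝ) ≤ ω P P')
    (hg : ∀ P ∈ Ps, ∀ P' ∈ Ps, good P P' →
      pairE1 H (fun s : Exps n d => mono s P) (fun s => mono s P') - (W : ℝ) / (2 * V) *
        (pairE2 H W V (fun s : Exps n d => mono s P) (fun s => mono s P') +
          pairE2 H W V (fun s : Exps n d => mono s P') (fun s => mono s P)) +
      ((W : ℝ) / (2 * V)) ^ 2 * pairE3 H W V (fun s : Exps n d => mono s P) (fun s => mono s P') ≤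
      ε * pairE1 H (fun s : Exps n d => mono s P) (fun s => mono s P')) :
    ∑ c ∈ box (Exps n d) H, (Nn Ps c - Nl Ps W V c) ^ 2 ≤
      ∑ P ∈ Ps, ∑ P' ∈ Ps, (if good P P' then ε * ω P P' else 5 * ω P P') := by
  classical
  have hWR : (0 : ℝ) < W := by exact_mod_cast hW
  have hVpos : 0 < V := lt_of_lt_of_le hWR hV
  set lw : ℝ := (W : ℝ) / (2 * V) with hlw
  have hlw0 : 0 ≤ lw := by positivity
  -- indicator functions
  set a : (Exps n d → ℤ) → Pt n ℤ → ℝ := fun c P => if (evZ c P : ℤ) = 0 then 1 else 0 with ha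
  set b : (Exps n d → ℤ) → Pt n ℤ → ℝ := fun c P => if (W : ℤ) ∣ (evZ c P : ℤ) ∧
    |((evZ c P : ℤ) : ℝ)| ≤ V then 1 else 0 with hb
  have hNn : ∀ c, Nn Ps c = ∑ P ∈ Ps, a c P := by
    intro c
    rw [Nn, ha, Finset.sum_boole]
  have hNl : ∀ c, Nl Ps W V c = lw * ∑ P ∈ Ps, b c P := by
    intro c
    rw [Nl, hb, Finset.sum_boole]
  have hexp : ∀ c, (Nn Ps c - Nl Ps W V c) ^ 2 = ∑ P ∈ Ps, ∑ P' ∈ Ps,
      (a c P * a c P' - lw * (a c P * b c P' + b c P * a c P') + lw ^ 2 * (b c P * b c P')) := by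
    intro c
    rw [hNn, hNl, Finset.mul_sum, ← Finset.sum_sub_distrib, pow_two, Finset.sum_mul_sum]
    refine Finset.sum_congr rfl fun P _ => Finset.sum_congr rfl fun P' _ => ?_
    ring
  simp only [hexp]
  rw [Finset.sum_comm]
  refine Finset.sum_le_sum fun P hP => ?_
  rw [Finset.sum_comm]
  refine Finset.sum_le_sum fun P' hP' => ?_
  -- the four counts
  have hE1 : ∑ c ∈ box (Exps n d) H, a c P * a c P' =
      pairE1 H (fun s : Exps n d => mono s P) (fun s => mono s P') := by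
    rw [pairE1, ← Finset.sum_boole]
    refine Finset.sum_congr rfl fun c _ => ?_
    simp only [ha, evZ_eq]
    by_cases h1 : ∑ s, c s * mono s P = 0 <;> by_cases h2 : ∑ s, c s * mono s P' = 0 <;>
      simp [h1, h2]
  have hE2 : ∑ c ∈ box (Exps n d) H, a c P * b c P' =
      pairE2 H W V (fun s : Exps n d => mono s P) (fun s => mono s P') := by
    rw [pairE2, ← Finset.sum_boole]
    refine Finset.sum_congr rfl fun c _ => ?_
    simp only [ha, hb, evZ_eq]
    by_cases h1 : ∑ s, c s * mono s P = 0 <;> by_cases h2 : ((W : ℤ) ∣ ∑ s, c s * mono s P' ∧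
      |((∑ s, c s * mono s P' : ℤ) : ℝ)| ≤ V)
    · rw [if_pos h1, if_pos h2, if_pos ⟨h1, h2.1, h2.2⟩, mul_one]
    · rw [if_pos h1, if_neg h2, if_neg (fun h => h2 ⟨h.2.1, h.2.2⟩), mul_zero]
    · rw [if_neg h1, zero_mul, if_neg (fun h => h1 h.1)]
    · rw [if_neg h1, zero_mul, if_neg (fun h => h1 h.1)]
  have hE2' : ∑ c ∈ box (Exps n d) H, b c P * a c P' =
      pairE2 H W V (fun s : Exps n d => mono s P') (fun s => mono s P) := by
    rw [pairE2, ← Finset.sum_boole]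
    refine Finset.sum_congr rfl fun c _ => ?_
    simp only [ha, hb, evZ_eq]
    by_cases h1 : ∑ s, c s * mono s P' = 0 <;> by_cases h2 : ((W : ℤ) ∣ ∑ s, c s * mono s P ∧
      |((∑ s, c s * mono s P : ℤ) : ℝ)| ≤ V)
    · rw [if_pos h1, if_pos h2, if_pos ⟨h1, h2.1, h2.2⟩, mul_one]
    · rw [if_pos h1, if_neg h2, if_neg (fun h => h2 ⟨h.2.1, h.2.2⟩), zero_mul]
    · rw [if_neg h1, mul_zero, if_neg (fun h => h1 h.1)]
    · rw [if_neg h1, mul_zero, if_neg (fun h => h1 h.1)]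
  have hE3 : ∑ c ∈ box (Exps n d) H, b c P * b c P' =
      pairE3 H W V (fun s : Exps n d => mono s P) (fun s => mono s P') := by
    rw [pairE3, ← Finset.sum_boole]
    refine Finset.sum_congr rfl fun c _ => ?_
    simp only [hb, evZ_eq]
    by_cases h1 : ((W : ℤ) ∣ ∑ s, c s * mono s P ∧
      |((∑ s, c s * mono s P : ℤ) : ℝ)| ≤ V) <;> by_cases h2 : ((W : ℤ) ∣ ∑ s, c s * mono s P' ∧
      |((∑ s, c s * mono s P' : ℤ) : ℝ)| ≤ V)
    · rw [if_pos h1, if_pos h2, if_pos ⟨h1, h2⟩, mul_one]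
    · rw [if_pos h1, if_neg h2, if_neg (fun h => h2 h.2), mul_zero]
    · rw [if_neg h1, zero_mul, if_neg (fun h => h1 h.1)]
    · rw [if_neg h1, zero_mul, if_neg (fun h => h1 h.1)]
  have hsum : ∑ c ∈ box (Exps n d) H, (a c P * a c P' - lw * (a c P * b c P' + b c P * a c P') +
      lw ^ 2 * (b c P * b c P')) =
      pairE1 H (fun s : Exps n d => mono s P) (fun s => mono s P') - lw *
        (pairE2 H W V (fun s : Exps n d => mono s P) (fun s => mono s P') +
          pairE2 H W V (fun s : Exps n d => mono s P') (fun s => mono s P)) +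
      lw ^ 2 * pairE3 H W V (fun s : Exps n d => mono s P) (fun s => mono s P') := by
    rw [← hE1, ← hE2, ← hE2', ← hE3, Finset.sum_add_distrib, Finset.sum_sub_distrib,
      ← Finset.mul_sum, ← Finset.mul_sum, Finset.sum_add_distrib]
  rw [hsum]
  have hE1le : pairE1 H (fun s : Exps n d => mono s P) (fun s => mono s P') ≤ ω P P' := by
    have h1 := hU P hP P' hP' 0 0
    simp only [evZ_eq] at h1
    exact h1
  split_ifs with hgood
  · exact (hg P hP P' hP' hgood).trans (mul_le_mul_of_nonneg_left hE1le hε)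
  · have h3 := win_card (fun s : Exps n d => mono s P) (fun s => mono s P') H W V (ω P P') hW hV
      (by
        intro w w'
        have h1 := hU P hP P' hP' w w'
        simp only [evZ_eq] at h1
        exact h1)
    have h4 : 0 ≤ pairE2 H W V (fun s : Exps n d => mono s P) (fun s => mono s P') :=
      Nat.cast_nonneg _
    have h5 : 0 ≤ pairE2 H W V (fun s : Exps n d => mono s P') (fun s => mono s P) :=
      Nat.cast_nonneg _
    have h6 : 0 ≤ lw * (pairE2 H W V (fun s : Exps n d => mono s P) (fun s => mono s P') +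
          pairE2 H W V (fun s : Exps n d => mono s P') (fun s => mono s P)) := by positivity
    linarith

end Pool.Agent.HP
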