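import Pool.Agent.Lib.MP_fc0680_nt.Defs
import Pool.Agent.Lib.MP_fc0680_nt.Bez
import Pool.Agent.Lib.MP_fc0680_nt.Minor
import Pool.Agent.Lib.MP_fc0680_nt.SumSf
import Pool.Agent.Lib.MP_fc0680_nt.SumB
import Pool.Agent.Lib.MP_fc0680_nt.CovM
import Pool.Agent.Lib.MP_fc0680_nt.Fib
import Pool.Agent.Lib.MP_fc0680_nt.PbSame
import Pool.Agent.Lib.MP_fc0680_nt.PbDiff
import Pool.Agent.Lib.MP_fc0680_nt.VarBound
import Pool.Agent.Lib.MP_fc0680_nt.GoodPair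
import Pool.Agent.Lib.MP_fc0680_nt.Fourier
import Pool.Agent.Lib.MP_fc0680_nt.GoodCount

/-!
# MP_fc0680_nt : the variance estimate for k at least 2 (module VARB)
-/

set_option autoImplicit false
open Finset Filter

namespace Pool.Agent.HP
namespace VB

/-- Sum over a product of finsets of a function of two coordinates. -/
theorem sum_pi_two {k : ℕ} {α : Fin k → Type} [∀ i, DecidableEq (α i)]
    (F : (i : Fin k) → Finset (α i)) (j i₀ : Fin k) (hj : j ≠ i₀) (g : α j → α i₀ → ℝ) :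
    ∑ P ∈ Fintype.piFinset F, g (P j) (P i₀) =
      (∏ l ∈ (univ.erase i₀).erase j, ((F l).card : ℝ)) * ∑ t ∈ F j, ∑ x ∈ F i₀, g t x := by
  classical
  have h1 : ∑ P ∈ Fintype.piFinset F, g (P j) (P i₀) =
      ∑ q ∈ F j ×ˢ F i₀, ∑ P ∈ (Fintype.piFinset F).filter (fun P => (P j, P i₀) = q),
        g (P j) (P i₀) := by
    symm
    apply Finset.sum_fiberwise_of_maps_to
    intro P hP
    rw [Fintype.mem_piFinset] at hP
    exact Finset.mem_product.2 ⟨hP j, hP i₀⟩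
  rw [h1, ← Finset.sum_product', Finset.mul_sum]
  apply Finset.sum_congr rfl
  rintro ⟨t, x⟩ hq
  rw [Finset.mem_product] at hq
  have h2 : (Fintype.piFinset F).filter (fun P => (P j, P i₀) = (t, x)) =
      Fintype.piFinset (Function.update (Function.update F j {t}) i₀ {x}) := by
    ext P
    rw [Finset.mem_filter, Fintype.mem_piFinset, Fintype.mem_piFinset]
    constructor
    · rintro ⟨hP, hq'⟩ l
      rw [Prod.mk.injEq] at hq'
      by_cases hl : l = i₀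
      · subst hl
        rw [Function.update_self, Finset.mem_singleton]
        exact hq'.2
      · rw [Function.update_of_ne hl]
        by_cases hl' : l = j
        · subst hl'
          rw [Function.update_self, Finset.mem_singleton]
          exact hq'.1
        · rw [Function.update_of_ne hl']
          exact hP l
    · intro hP
      have hi := hP i₀
      rw [Function.update_self, Finset.mem_singleton] at hi
      have hjj := hP j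
      rw [Function.update_of_ne hj, Function.update_self, Finset.mem_singleton] at hjj
      refine ⟨fun l => ?_, by rw [hi, hjj]⟩
      by_cases hl : l = i₀
      · subst hl
        rw [hi]; exact hq.2
      · by_cases hl' : l = j
        · subst hl'
          rw [hjj]; exact hq.1
        · have := hP l
          rwa [Function.update_of_ne hl, Function.update_of_ne hl'] at this
  have h3 : ∑ P ∈ (Fintype.piFinset F).filter (fun P => (P j, P i₀) = (t, x)), g (P j) (P i₀) =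
      ∑ P ∈ (Fintype.piFinset F).filter (fun P => (P j, P i₀) = (t, x)), g t x := by
    apply Finset.sum_congr rfl
    intro P hP
    rw [Finset.mem_filter, Prod.mk.injEq] at hP
    rw [hP.2.1, hP.2.2]
  rw [h3, Finset.sum_const, nsmul_eq_mul, h2, Fintype.card_piFinset]
  congr 1
  rw [Nat.cast_prod]
  rw [← Finset.mul_prod_erase univ _ (Finset.mem_univ i₀)]
  rw [← Finset.mul_prod_erase (univ.erase i₀) _ (Finset.mem_erase.2 ⟨hj, Finset.mem_univ j⟩)]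
  rw [Function.update_self, Function.update_of_ne hj, Function.update_self,
    Finset.card_singleton, Finset.card_singleton, Nat.cast_one, one_mul, one_mul]
  apply Finset.prod_congr rfl
  intro l hl
  rw [Finset.mem_erase, Finset.mem_erase] at hl
  rw [Function.update_of_ne hl.2.1, Function.update_of_ne hl.1]

/-- Double sum over pairs of points of a function of two coordinates. -/
theorem sum_pi_pairs {k : ℕ} {α : Fin k → Type} [∀ i, DecidableEq (α i)]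
    (F : (i : Fin k) → Finset (α i)) (j i₀ : Fin k) (hj : j ≠ i₀)
    (h : α j → α j → α i₀ → α i₀ → ℝ) :
    ∑ P ∈ Fintype.piFinset F, ∑ P' ∈ Fintype.piFinset F, h (P j) (P' j) (P i₀) (P' i₀) =
      (∏ l ∈ (univ.erase i₀).erase j, ((F l).card : ℝ)) ^ 2 *
        ∑ t ∈ F j, ∑ t' ∈ F j, ∑ x ∈ F i₀, ∑ x' ∈ F i₀, h t t' x x' := by
  classical
  have h1 : ∀ P : (i : Fin k) → α i, ∑ P' ∈ Fintype.piFinset F, h (P j) (P' j) (P i₀) (P' i₀) =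
      (∏ l ∈ (univ.erase i₀).erase j, ((F l).card : ℝ)) *
        ∑ t' ∈ F j, ∑ x' ∈ F i₀, h (P j) t' (P i₀) x' := fun P =>
    sum_pi_two F j i₀ hj (fun t' x' => h (P j) t' (P i₀) x')
  rw [Finset.sum_congr rfl (fun P _ => h1 P), ← Finset.mul_sum]
  rw [sum_pi_two F j i₀ hj (fun t x => ∑ t' ∈ F j, ∑ x' ∈ F i₀, h t t' x x'), pow_two, mul_assoc]
  congr 2
  apply Finset.sum_congr rfl
  intro t _
  rw [Finset.sum_comm]

/-- Sum over a product of finsets of a function of one coordinate. -/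
theorem sum_pi_one {k : ℕ} {α : Fin k → Type} [∀ i, DecidableEq (α i)]
    (F : (i : Fin k) → Finset (α i)) (i₀ : Fin k) (g : α i₀ → ℝ) :
    ∑ P ∈ Fintype.piFinset F, g (P i₀) =
      (∏ l ∈ univ.erase i₀, ((F l).card : ℝ)) * ∑ x ∈ F i₀, g x := by
  classical
  have h1 : ∑ P ∈ Fintype.piFinset F, g (P i₀) =
      ∑ q ∈ F i₀, ∑ P ∈ (Fintype.piFinset F).filter (fun P => P i₀ = q), g (P i₀) := by
    symm
    apply Finset.sum_fiberwise_of_maps_to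
    intro P hP
    rw [Fintype.mem_piFinset] at hP
    exact hP i₀
  rw [h1, Finset.mul_sum]
  apply Finset.sum_congr rfl
  intro x hq
  have h2 : (Fintype.piFinset F).filter (fun P => P i₀ = x) =
      Fintype.piFinset (Function.update F i₀ {x}) := by
    ext P
    rw [Finset.mem_filter, Fintype.mem_piFinset, Fintype.mem_piFinset]
    constructor
    · rintro ⟨hP, hq'⟩ l
      by_cases hl : l = i₀
      · subst hl
        rw [Function.update_self, Finset.mem_singleton]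
        exact hq'
      · rw [Function.update_of_ne hl]
        exact hP l
    · intro hP
      have hi := hP i₀
      rw [Function.update_self, Finset.mem_singleton] at hi
      refine ⟨fun l => ?_, hi⟩
      by_cases hl : l = i₀
      · subst hl
        rw [hi]; exact hq
      · have := hP l
        rwa [Function.update_of_ne hl] at this
  have h3 : ∑ P ∈ (Fintype.piFinset F).filter (fun P => P i₀ = x), g (P i₀) =
      ∑ P ∈ (Fintype.piFinset F).filter (fun P => P i₀ = x), g x := by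
    apply Finset.sum_congr rfl
    intro P hP
    rw [Finset.mem_filter] at hP
    rw [hP.2]
  rw [h3, Finset.sum_const, nsmul_eq_mul, h2, Fintype.card_piFinset]
  congr 1
  rw [Nat.cast_prod]
  rw [← Finset.mul_prod_erase univ _ (Finset.mem_univ i₀)]
  rw [Function.update_self, Finset.card_singleton, Nat.cast_one, one_mul]
  apply Finset.prod_congr rfl
  intro l hl
  rw [Finset.mem_erase] at hl
  rw [Function.update_of_ne hl.1]

theorem mem_box {ι : Type} [Fintype ι] [DecidableEq ι] (H : ℕ) (c : ι → ℤ) :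
    c ∈ box ι H ↔ ∀ i, (c i).natAbs ≤ H := by
  unfold box
  rw [Fintype.mem_piFinset]
  apply forall_congr'
  intro i
  rw [Finset.mem_Icc]
  omega

theorem card_box {ι : Type} [Fintype ι] [DecidableEq ι] (H : ℕ) :
    (box ι H).card = (2 * H + 1) ^ Fintype.card ι := by
  unfold box
  rw [Fintype.card_piFinset]
  simp only [Int.card_Icc]
  rw [Finset.prod_const, Finset.card_univ]
  congr 1
  omega

theorem nrm_le_iff {N : ℕ} (x : Fin N → ℤ) (B : ℕ) : nrm x ≤ B ↔ ∀ j, (x j).natAbs ≤ B := by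
  unfold nrm
  rw [Finset.sup_le_iff]
  simp

open Classical in
/-- The blocks of the points. -/
noncomputable def FF {k : ℕ} (n : Fin k → ℕ) (X : Fin k → ℕ) (i₀ : Fin k) (Δ : ℕ) (i : Fin k) :
    Finset (Fin (n i + 1) → ℤ) :=
  (box (Fin (n i + 1)) (X i)).filter fun x =>
    (X i < 2 * nrm x ∧ nrm x ≤ X i ∧ Umod x) ∧ (i = i₀ → Sep Δ x)

theorem mem_FF {k : ℕ} (n : Fin k → ℕ) (X : Fin k → ℕ) (i₀ : Fin k) (Δ : ℕ) (i : Fin k)
    (x : Fin (n i + 1) → ℤ) : x ∈ FF n X i₀ Δ i ↔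
      (X i < 2 * nrm x ∧ nrm x ≤ X i ∧ Umod x) ∧ (i = i₀ → Sep Δ x) := by
  classical
  unfold FF
  rw [Finset.mem_filter, mem_box]
  constructor
  · exact fun h => h.2
  · exact fun h => ⟨(nrm_le_iff x (X i)).1 h.1.2.1, h⟩

/-- Constant `∏ 3 ^ (n i + 1)`. -/
noncomputable def c3 {k : ℕ} (n : Fin k → ℕ) : ℝ := ((∏ i, 3 ^ (n i + 1) : ℕ) : ℝ)

theorem one_le_c3 {k : ℕ} (n : Fin k → ℕ) : 1 ≤ c3 n := by
  unfold c3
  have : 0 < ∏ i, 3 ^ (n i + 1) := Finset.prod_pos (fun i _ => by positivity)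
  exact_mod_cast this

theorem card_FF {k : ℕ} (n : Fin k → ℕ) (X : Fin k → ℕ) (i₀ : Fin k) (Δ : ℕ) (i : Fin k)
    (hX : 1 ≤ X i) : ((FF n X i₀ Δ i).card : ℝ) ≤ 3 ^ (n i + 1) * (X i : ℝ) ^ (n i + 1) := by
  classical
  have h1 : (FF n X i₀ Δ i).card ≤ (2 * X i + 1) ^ (n i + 1) := by
    unfold FF
    refine (Finset.card_filter_le _ _).trans ?_
    rw [card_box, Fintype.card_fin]
  have h2 : (2 * X i + 1) ^ (n i + 1) ≤ (3 * X i) ^ (n i + 1) :=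
    Nat.pow_le_pow_left (by omega) _
  have h3 : ((FF n X i₀ Δ i).card : ℝ) ≤ (((3 * X i) ^ (n i + 1) : ℕ) : ℝ) := by
    exact_mod_cast h1.trans h2
  refine h3.trans (le_of_eq ?_)
  push_cast
  rw [mul_pow]

/-- Volume of the blocks other than `i₀`. -/
noncomputable def VT {k : ℕ} (n : Fin k → ℕ) (X : Fin k → ℕ) (i₀ : Fin k) : ℝ :=
  ∏ l ∈ univ.erase i₀, (X l : ℝ) ^ (n l + 1)

theorem Vol_eq {k : ℕ} (n : Fin k → ℕ) (X : Fin k → ℕ) (i₀ : Fin k) :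
    Vol n X = (X i₀ : ℝ) ^ (n i₀ + 1) * VT n X i₀ := by
  unfold Vol VT
  rw [Finset.mul_prod_erase univ (fun l => (X l : ℝ) ^ (n l + 1)) (Finset.mem_univ i₀)]

theorem prod_card_FF_le {k : ℕ} (n : Fin k → ℕ) (X : Fin k → ℕ) (i₀ : Fin k) (Δ : ℕ)
    (hX : ∀ i, 1 ≤ X i) (s : Finset (Fin k)) :
    ∏ l ∈ s, ((FF n X i₀ Δ l).card : ℝ) ≤ c3 n * ∏ l ∈ s, (X l : ℝ) ^ (n l + 1) := by
  classical
  calc ∏ l ∈ s, ((FF n X i₀ Δ l).card : ℝ)
      ≤ ∏ l ∈ s, ((3 : ℝ) ^ (n l + 1) * (X l : ℝ) ^ (n l + 1)) := by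
        apply Finset.prod_le_prod
        · intro l _; positivity
        · intro l _; exact card_FF n X i₀ Δ l (hX l)
    _ = (∏ l ∈ s, (3 : ℝ) ^ (n l + 1)) * ∏ l ∈ s, (X l : ℝ) ^ (n l + 1) := by
        rw [Finset.prod_mul_distrib]
    _ ≤ c3 n * ∏ l ∈ s, (X l : ℝ) ^ (n l + 1) := by
        apply mul_le_mul_of_nonneg_right
        · unfold c3
          have h : ∏ l ∈ s, 3 ^ (n l + 1) ≤ ∏ l, 3 ^ (n l + 1) :=
            Finset.prod_le_prod_of_subset_of_one_le' (Finset.subset_univ s)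
              (fun i _ _ => Nat.one_le_pow _ _ (by norm_num))
          exact_mod_cast h
        · positivity

open Classical in
/-- Pairs different in both kinds of blocks. -/
noncomputable def f1 {k : ℕ} {n : Fin k → ℕ} (i₀ : Fin k) (P P' : Pt n ℤ) : ℝ :=
  ∑ j ∈ univ.erase i₀, if wd (P j) (P' j) ≠ 0 ∧ wd (P i₀) (P' i₀) ≠ 0 then
    ((Nat.gcd (gd (P j) (P' j)) (gd (P i₀) (P' i₀)) : ℝ) / (wd (P i₀) (P' i₀) : ℝ)) else 0

open Classical in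
/-- Restricted version of `f1`. -/
noncomputable def g1 {k : ℕ} {n : Fin k → ℕ} (i₀ : Fin k) (w : ℕ) (θ B : ℝ) (P P' : Pt n ℤ) : ℝ :=
  ∑ j ∈ univ.erase i₀, if wd (P j) (P' j) ≠ 0 ∧ (wd (P i₀) (P' i₀) ≠ 0 ∧
    (w < Nat.gcd (gd (P j) (P' j)) (gd (P i₀) (P' i₀)) ∨ (wd (P i₀) (P' i₀) : ℝ) < θ * B ^ 2)) then
    ((Nat.gcd (gd (P j) (P' j)) (gd (P i₀) (P' i₀)) : ℝ) / (wd (P i₀) (P' i₀) : ℝ)) else 0

open Classical in
/-- Pairs with proportional special blocks. -/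
noncomputable def f2 {k : ℕ} {n : Fin k → ℕ} (i₀ : Fin k) (P P' : Pt n ℤ) : ℝ :=
  if wd (P i₀) (P' i₀) = 0 then 1 else 0

open Classical in
/-- Pairs with all the other blocks proportional. -/
noncomputable def f3 {k : ℕ} {n : Fin k → ℕ} (i₀ : Fin k) (P P' : Pt n ℤ) : ℝ :=
  if (∀ j, j ≠ i₀ → wd (P j) (P' j) = 0) ∧ wd (P i₀) (P' i₀) ≠ 0 then
    (gd (P i₀) (P' i₀) : ℝ) / (wd (P i₀) (P' i₀) : ℝ) else 0

open Classical in
/-- Pairs with all blocks proportional. -/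
noncomputable def f4 {k : ℕ} {n : Fin k → ℕ} (P P' : Pt n ℤ) : ℝ :=
  if ∀ j, wd (P j) (P' j) = 0 then 1 else 0

/-- The set of points. -/
noncomputable def PP {k : ℕ} (n : Fin k → ℕ) (X : Fin k → ℕ) (i₀ : Fin k) (Δ : ℕ) :
    Finset (Pt n ℤ) := Fintype.piFinset (FF n X i₀ Δ)

theorem mem_PP {k : ℕ} (n : Fin k → ℕ) (X : Fin k → ℕ) (i₀ : Fin k) (Δ : ℕ) (P : Pt n ℤ) :
    P ∈ PP n X i₀ Δ ↔ Shell X P ∧ (∀ i, Umod (P i)) ∧ Sep Δ (P i₀) := by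
  unfold PP Shell
  rw [Fintype.mem_piFinset]
  constructor
  · intro h
    refine ⟨fun i => ?_, fun i => ?_, ?_⟩
    · have := (mem_FF n X i₀ Δ i (P i)).1 (h i)
      exact ⟨this.1.1, this.1.2.1⟩
    · have := (mem_FF n X i₀ Δ i (P i)).1 (h i)
      exact this.1.2.2
    · have := (mem_FF n X i₀ Δ i₀ (P i₀)).1 (h i₀)
      exact this.2 rfl
  · rintro ⟨h1, h2, h3⟩ i
    rw [mem_FF]
    refine ⟨⟨(h1 i).1, (h1 i).2, h2 i⟩, ?_⟩
    rintro rfl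
    exact h3

theorem card_PP {k : ℕ} (n : Fin k → ℕ) (X : Fin k → ℕ) (i₀ : Fin k) (Δ : ℕ)
    (hX : ∀ i, 1 ≤ X i) : ((PP n X i₀ Δ).card : ℝ) ≤ c3 n * Vol n X := by
  unfold PP
  rw [Fintype.card_piFinset, Nat.cast_prod]
  exact prod_card_FF_le n X i₀ Δ hX univ

theorem VT_nonneg {k : ℕ} (n : Fin k → ℕ) (X : Fin k → ℕ) (i₀ : Fin k) : 0 ≤ VT n X i₀ := by
  unfold VT
  exact Finset.prod_nonneg (fun i _ => by positivity)

theorem prod_sq_le {k : ℕ} (n : Fin k → ℕ) (X : Fin k → ℕ) (i₀ j : Fin k) (hj : j ≠ i₀) (Δ T : ℕ)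
    (hX : ∀ i, 1 ≤ X i) (hT : X j = T) :
    (∏ l ∈ (univ.erase i₀).erase j, ((FF n X i₀ Δ l).card : ℝ)) ^ 2 * (T : ℝ) ^ (2 * (n j + 1)) ≤
      c3 n ^ 2 * VT n X i₀ ^ 2 := by
  have h1 := prod_card_FF_le n X i₀ Δ hX ((univ.erase i₀).erase j)
  have h0 : 0 ≤ ∏ l ∈ (univ.erase i₀).erase j, ((FF n X i₀ Δ l).card : ℝ) :=
    Finset.prod_nonneg (fun i _ => by positivity)
  have h2 : VT n X i₀ = (T : ℝ) ^ (n j + 1) *
      ∏ l ∈ (univ.erase i₀).erase j, (X l : ℝ) ^ (n l + 1) := by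
    unfold VT
    rw [← Finset.mul_prod_erase (univ.erase i₀) (fun l => (X l : ℝ) ^ (n l + 1))
      (Finset.mem_erase.2 ⟨hj, Finset.mem_univ j⟩), hT]
  have h3 : (∏ l ∈ (univ.erase i₀).erase j, ((FF n X i₀ Δ l).card : ℝ)) ^ 2 ≤
      (c3 n * ∏ l ∈ (univ.erase i₀).erase j, (X l : ℝ) ^ (n l + 1)) ^ 2 :=
    pow_le_pow_left₀ h0 h1 2
  calc _ ≤ (c3 n * ∏ l ∈ (univ.erase i₀).erase j, (X l : ℝ) ^ (n l + 1)) ^ 2 *
        (T : ℝ) ^ (2 * (n j + 1)) := mul_le_mul_of_nonneg_right h3 (by positivity)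
    _ = c3 n ^ 2 * VT n X i₀ ^ 2 := by rw [h2]; ring

theorem sum_f1 {k : ℕ} (n : Fin k → ℕ) (i₀ : Fin k) (hn1 : ∀ i, 1 ≤ n i) (hn : 2 ≤ n i₀) :
    ∃ C : ℝ, 0 < C ∧ ∀ (X : Fin k → ℕ) (T Δ w : ℕ) (θ : ℝ), (∀ i, 1 ≤ X i) →
    (∀ j, j ≠ i₀ → X j = T) → 1 ≤ T → 1 ≤ Δ → 1 ≤ w → 0 ≤ θ → θ ≤ 1 →
    (∑ P ∈ PP n X i₀ Δ, ∑ P' ∈ PP n X i₀ Δ, f1 i₀ P P' ≤ C * VT n X i₀ ^ 2 *
      ((X i₀ : ℝ) ^ (2 * n i₀) + (T : ℝ) ^ 2 * (X i₀ : ℝ) ^ (n i₀ + 2) / Δ)) ∧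
    (∑ P ∈ PP n X i₀ Δ, ∑ P' ∈ PP n X i₀ Δ, g1 i₀ w θ (X i₀) P P' ≤ C * VT n X i₀ ^ 2 *
      ((X i₀ : ℝ) ^ (2 * n i₀) * (1 / w + θ + (1 + Real.log T) / T) +
        (T : ℝ) ^ 2 * (X i₀ : ℝ) ^ (n i₀ + 2) / Δ)) := by
  classical
  have hb : ∀ j : Fin k, 2 ≤ n j + 1 := fun j => by have := hn1 j; omega
  choose Cb hCb0 hCb using fun j : Fin k => sumb (n i₀) (n j + 1) hn (hb j)
  refine ⟨(∑ j, Cb j) * c3 n ^ 2 + 1, ?_, ?_⟩
  · have : 0 ≤ ∑ j, Cb j := Finset.sum_nonneg (fun j _ => (hCb0 j).le)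
    positivity
  intro X T Δ w θ hX hXT hT hΔ hw hθ hθ1
  have hF : ∀ x ∈ FF n X i₀ Δ i₀, X i₀ < 2 * nrm x ∧ nrm x ≤ X i₀ ∧ Umod x ∧ Sep Δ x := by
    intro x hx
    have := (mem_FF n X i₀ Δ i₀ x).1 hx
    exact ⟨this.1.1, this.1.2.1, this.1.2.2, this.2 rfl⟩
  have hF' : ∀ j, j ≠ i₀ → ∀ t ∈ FF n X i₀ Δ j, T < 2 * nrm t ∧ nrm t ≤ T ∧ Umod t := by
    intro j hj t ht
    have := (mem_FF n X i₀ Δ j t).1 ht
    rw [hXT j hj] at this
    exact ⟨this.1.1, this.1.2.1, this.1.2.2⟩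
  have hV : 0 ≤ VT n X i₀ := VT_nonneg n X i₀
  have key : ∀ (Q : ℝ) (hh : ∀ j : Fin k, (Fin (n j + 1) → ℤ) → (Fin (n j + 1) → ℤ) →
      (Fin (n i₀ + 1) → ℤ) → (Fin (n i₀ + 1) → ℤ) → ℝ), 0 ≤ Q →
      (∀ j, j ≠ i₀ → ∑ t ∈ FF n X i₀ Δ j, ∑ t' ∈ FF n X i₀ Δ j, ∑ x ∈ FF n X i₀ Δ i₀,
        ∑ x' ∈ FF n X i₀ Δ i₀, hh j t t' x x' ≤ Cb j * (T : ℝ) ^ (2 * (n j + 1)) * Q) →
      ∑ P ∈ PP n X i₀ Δ, ∑ P' ∈ PP n X i₀ Δ, ∑ j ∈ univ.erase i₀,
        hh j (P j) (P' j) (P i₀) (P' i₀) ≤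
      ((∑ j, Cb j) * c3 n ^ 2 + 1) * VT n X i₀ ^ 2 * Q := by
    intro Q hh hQ hj
    have e1 : ∑ P ∈ PP n X i₀ Δ, ∑ P' ∈ PP n X i₀ Δ, ∑ j ∈ univ.erase i₀,
        hh j (P j) (P' j) (P i₀) (P' i₀) = ∑ j ∈ univ.erase i₀, ∑ P ∈ PP n X i₀ Δ,
        ∑ P' ∈ PP n X i₀ Δ, hh j (P j) (P' j) (P i₀) (P' i₀) := by
      rw [Finset.sum_comm' (s := univ.erase i₀) (t := fun _ => PP n X i₀ Δ)
        (t' := PP n X i₀ Δ) (s' := fun _ => univ.erase i₀) (by intro x y; tauto)]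
      apply Finset.sum_congr rfl
      intro P _
      rw [Finset.sum_comm]
    rw [e1]
    have e2 : ∀ j ∈ univ.erase i₀, ∑ P ∈ PP n X i₀ Δ,
        ∑ P' ∈ PP n X i₀ Δ, hh j (P j) (P' j) (P i₀) (P' i₀) ≤
        Cb j * (c3 n ^ 2 * VT n X i₀ ^ 2 * Q) := by
      intro j hjm
      have hji : j ≠ i₀ := (Finset.mem_erase.1 hjm).1
      unfold PP
      rw [sum_pi_pairs (FF n X i₀ Δ) j i₀ hji (hh j)]
      have h0 : 0 ≤ (∏ l ∈ (univ.erase i₀).erase j, ((FF n X i₀ Δ l).card : ℝ)) ^ 2 :=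
        sq_nonneg _
      calc _ ≤ (∏ l ∈ (univ.erase i₀).erase j, ((FF n X i₀ Δ l).card : ℝ)) ^ 2 *
            (Cb j * (T : ℝ) ^ (2 * (n j + 1)) * Q) := mul_le_mul_of_nonneg_left (hj j hji) h0
        _ = Cb j * Q * ((∏ l ∈ (univ.erase i₀).erase j, ((FF n X i₀ Δ l).card : ℝ)) ^ 2 *
            (T : ℝ) ^ (2 * (n j + 1))) := by ring
        _ ≤ Cb j * Q * (c3 n ^ 2 * VT n X i₀ ^ 2) :=
            mul_le_mul_of_nonneg_left (prod_sq_le n X i₀ j hji Δ T hX (hXT j hji))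
              (mul_nonneg (hCb0 j).le hQ)
        _ = _ := by ring
    refine (Finset.sum_le_sum e2).trans ?_
    rw [← Finset.sum_mul]
    have e3 : ∑ j ∈ univ.erase i₀, Cb j ≤ ∑ j, Cb j :=
      Finset.sum_le_sum_of_subset_of_nonneg (Finset.erase_subset _ _)
        (fun j _ _ => (hCb0 j).le)
    calc (∑ j ∈ univ.erase i₀, Cb j) * (c3 n ^ 2 * VT n X i₀ ^ 2 * Q)
        ≤ (∑ j, Cb j) * (c3 n ^ 2 * VT n X i₀ ^ 2 * Q) :=
          mul_le_mul_of_nonneg_right e3 (by positivity)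
      _ ≤ (∑ j, Cb j) * (c3 n ^ 2 * VT n X i₀ ^ 2 * Q) + VT n X i₀ ^ 2 * Q :=
          le_add_of_nonneg_right (by positivity)
      _ = _ := by ring
  have hlog : 0 ≤ Real.log T := Real.log_natCast_nonneg T
  constructor
  · unfold f1
    apply key _ (fun j t t' x x' => if wd t t' ≠ 0 ∧ wd x x' ≠ 0 then
      ((Nat.gcd (gd t t') (gd x x') : ℝ) / (wd x x' : ℝ)) else 0) (by positivity)
    intro j hj
    have := (hCb j (X i₀) T Δ w θ (FF n X i₀ Δ i₀) (FF n X i₀ Δ j) hΔ hT hw hθ hθ1 hF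
      (hF' j hj)).1
    refine (le_of_eq ?_).trans this
    apply Finset.sum_congr rfl
    intro t _
    rw [Finset.sum_filter]
    apply Finset.sum_congr rfl
    intro t' _
    split_ifs with h
    · apply Finset.sum_congr rfl
      intro x _
      rw [Finset.sum_filter]
      apply Finset.sum_congr rfl
      intro x' _
      simp [h]
    · simp [h]
  · unfold g1
    apply key _ (fun j t t' x x' => if wd t t' ≠ 0 ∧ (wd x x' ≠ 0 ∧
      (w < Nat.gcd (gd t t') (gd x x') ∨ (wd x x' : ℝ) < θ * (X i₀ : ℝ) ^ 2)) then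
      ((Nat.gcd (gd t t') (gd x x') : ℝ) / (wd x x' : ℝ)) else 0) (by positivity)
    intro j hj
    have := (hCb j (X i₀) T Δ w θ (FF n X i₀ Δ i₀) (FF n X i₀ Δ j) hΔ hT hw hθ hθ1 hF
      (hF' j hj)).2
    refine (le_of_eq ?_).trans this
    apply Finset.sum_congr rfl
    intro t _
    rw [Finset.sum_filter]
    apply Finset.sum_congr rfl
    intro t' _
    split_ifs with h
    · apply Finset.sum_congr rfl
      intro x _
      rw [Finset.sum_filter]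
      apply Finset.sum_congr rfl
      intro x' _
      simp [h]
    · simp [h]

theorem card_pm_le {N : ℕ} (x : Fin N → ℤ) : (({x, -x} : Finset (Fin N → ℤ)).card : ℝ) ≤ 2 := by
  have := Finset.card_le_two (a := x) (b := -x)
  exact_mod_cast this

theorem sum_f4 {k : ℕ} (n : Fin k → ℕ) (i₀ : Fin k) (X : Fin k → ℕ) (Δ : ℕ) (hX : ∀ i, 1 ≤ X i) :
    ∑ P ∈ PP n X i₀ Δ, ∑ P' ∈ PP n X i₀ Δ, f4 P P' ≤ 2 ^ k * (c3 n * Vol n X) := by
  classical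
  have h1 : ∀ P ∈ PP n X i₀ Δ, ∑ P' ∈ PP n X i₀ Δ, f4 P P' ≤ (2 : ℝ) ^ k := by
    intro P hP
    obtain ⟨-, hPu, -⟩ := (mem_PP n X i₀ Δ P).1 hP
    unfold f4
    rw [← Finset.sum_filter, Finset.sum_const, nsmul_eq_mul, mul_one]
    have h2 : (PP n X i₀ Δ).filter (fun P' => ∀ j, wd (P j) (P' j) = 0) ⊆
        Fintype.piFinset (fun i => ({P i, -P i} : Finset (Fin (n i + 1) → ℤ))) := by
      intro P' hP'
      rw [Finset.mem_filter] at hP'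
      obtain ⟨-, hPu', -⟩ := (mem_PP n X i₀ Δ P').1 hP'.1
      rw [Fintype.mem_piFinset]
      intro i
      rw [Finset.mem_insert, Finset.mem_singleton]
      exact wd_eq_zero_of_prim (P i) (P' i) (hPu i) (hPu' i) (hP'.2 i)
    have h3 : (((PP n X i₀ Δ).filter (fun P' => ∀ j, wd (P j) (P' j) = 0)).card : ℝ) ≤
        ((Fintype.piFinset (fun i => ({P i, -P i} : Finset (Fin (n i + 1) → ℤ)))).card : ℝ) := by
      exact_mod_cast Finset.card_le_card h2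
    refine h3.trans ?_
    rw [Fintype.card_piFinset, Nat.cast_prod]
    calc ∏ i, (({P i, -P i} : Finset (Fin (n i + 1) → ℤ)).card : ℝ) ≤ ∏ _i : Fin k, (2 : ℝ) := by
          apply Finset.prod_le_prod
          · intro i _; positivity
          · intro i _; exact card_pm_le (P i)
      _ = 2 ^ k := by rw [Finset.prod_const, Finset.card_univ, Fintype.card_fin]
  refine (Finset.sum_le_sum h1).trans ?_
  rw [Finset.sum_const, nsmul_eq_mul, mul_comm]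
  exact mul_le_mul_of_nonneg_left (card_PP n X i₀ Δ hX) (by positivity)

theorem sum_f2 {k : ℕ} (n : Fin k → ℕ) (i₀ : Fin k) (X : Fin k → ℕ) (Δ : ℕ) (hX : ∀ i, 1 ≤ X i) :
    ∑ P ∈ PP n X i₀ Δ, ∑ P' ∈ PP n X i₀ Δ, f2 i₀ P P' ≤
      (2 * c3 n ^ 2) * (VT n X i₀ * Vol n X) := by
  classical
  have h1 : ∀ P ∈ PP n X i₀ Δ, ∑ P' ∈ PP n X i₀ Δ, f2 i₀ P P' ≤ 2 * (c3 n * VT n X i₀) := by
    intro P hP
    obtain ⟨-, hPu, -⟩ := (mem_PP n X i₀ Δ P).1 hP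
    have h2 : ∑ P' ∈ PP n X i₀ Δ, f2 i₀ P P' =
        (∏ l ∈ univ.erase i₀, ((FF n X i₀ Δ l).card : ℝ)) *
          ∑ x ∈ FF n X i₀ Δ i₀, (if wd (P i₀) x = 0 then (1 : ℝ) else 0) := by
      unfold PP f2
      exact sum_pi_one (FF n X i₀ Δ) i₀ (fun x => if wd (P i₀) x = 0 then (1 : ℝ) else 0)
    rw [h2, ← Finset.sum_filter, Finset.sum_const, nsmul_eq_mul, mul_one]
    have h3 : (FF n X i₀ Δ i₀).filter (fun x => wd (P i₀) x = 0) ⊆ {P i₀, -P i₀} := by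
      intro x hx
      rw [Finset.mem_filter, mem_FF] at hx
      rw [Finset.mem_insert, Finset.mem_singleton]
      exact wd_eq_zero_of_prim (P i₀) x (hPu i₀) hx.1.1.2.2 hx.2
    have h4 : (((FF n X i₀ Δ i₀).filter (fun x => wd (P i₀) x = 0)).card : ℝ) ≤ 2 := by
      refine le_trans ?_ (card_pm_le (P i₀))
      exact_mod_cast Finset.card_le_card h3
    have h5 := prod_card_FF_le n X i₀ Δ hX (univ.erase i₀)
    have h6 : 0 ≤ c3 n * VT n X i₀ := mul_nonneg ((zero_le_one).trans (one_le_c3 n))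
      (VT_nonneg n X i₀)
    calc _ ≤ (c3 n * VT n X i₀) * 2 := mul_le_mul h5 h4 (by positivity) h6
      _ = _ := by ring
  refine (Finset.sum_le_sum h1).trans ?_
  rw [Finset.sum_const, nsmul_eq_mul]
  have h6 : 0 ≤ 2 * (c3 n * VT n X i₀) := mul_nonneg (by norm_num)
    (mul_nonneg ((zero_le_one).trans (one_le_c3 n)) (VT_nonneg n X i₀))
  calc _ ≤ (c3 n * Vol n X) * (2 * (c3 n * VT n X i₀)) :=
        mul_le_mul_of_nonneg_right (card_PP n X i₀ Δ hX) h6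
    _ = _ := by ring

theorem sum_f3 {k : ℕ} (n : Fin k → ℕ) (i₀ : Fin k) (hn : 2 ≤ n i₀) :
    ∃ C : ℝ, 0 < C ∧ ∀ (X : Fin k → ℕ) (Δ : ℕ), (∀ i, 1 ≤ X i) → 1 ≤ Δ →
    ∑ P ∈ PP n X i₀ Δ, ∑ P' ∈ PP n X i₀ Δ, f3 i₀ P P' ≤
      C * Vol n X * ((1 + Real.log (X i₀)) * ((X i₀ : ℝ) ^ (n i₀ - 1) +
        ((X i₀ : ℝ) / Δ) ^ n i₀)) := by
  classical
  obtain ⟨C, hC0, hC⟩ := sumsf (n i₀) hn
  refine ⟨2 ^ k * C * c3 n, by have := one_le_c3 n; positivity, ?_⟩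
  intro X Δ hX hΔ
  set Q : ℝ := (1 + Real.log (X i₀)) * ((X i₀ : ℝ) ^ (n i₀ - 1) + ((X i₀ : ℝ) / Δ) ^ n i₀) with hQ
  have hlog : 0 ≤ Real.log (X i₀) := Real.log_natCast_nonneg _
  have hQ0 : 0 ≤ Q := by positivity
  have h1 : ∀ P ∈ PP n X i₀ Δ, ∑ P' ∈ PP n X i₀ Δ, f3 i₀ P P' ≤ 2 ^ k * (C * Q) := by
    intro P hP
    have hPF : P i₀ ∈ FF n X i₀ Δ i₀ := by
      unfold PP at hP
      rw [Fintype.mem_piFinset] at hP
      exact hP i₀
    obtain ⟨-, hPu, -⟩ := (mem_PP n X i₀ Δ P).1 hP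
    set h : (Fin (n i₀ + 1) → ℤ) → ℝ := fun x => if wd (P i₀) x ≠ 0 then
      (gd (P i₀) x : ℝ) / (wd (P i₀) x : ℝ) else 0 with hh
    have hh0 : ∀ x, 0 ≤ h x := by
      intro x; rw [hh]; beta_reduce; split_ifs <;> positivity
    let G : (i : Fin k) → Finset (Fin (n i + 1) → ℤ) := fun i =>
      if i = i₀ then FF n X i₀ Δ i else {P i, -P i}
    have h2 : ∑ P' ∈ PP n X i₀ Δ, f3 i₀ P P' ≤ ∑ P' ∈ Fintype.piFinset G, h (P' i₀) := by
      unfold f3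
      rw [← Finset.sum_filter]
      have h3 : (PP n X i₀ Δ).filter (fun P' => (∀ j, j ≠ i₀ → wd (P j) (P' j) = 0) ∧
          wd (P i₀) (P' i₀) ≠ 0) ⊆ Fintype.piFinset G := by
        intro P' hP'
        rw [Finset.mem_filter] at hP'
        obtain ⟨-, hPu', -⟩ := (mem_PP n X i₀ Δ P').1 hP'.1
        have hm := hP'.1
        unfold PP at hm
        rw [Fintype.mem_piFinset] at hm
        rw [Fintype.mem_piFinset]
        intro i
        by_cases hi : i = i₀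
        · simp only [G, if_pos hi]
          exact hm i
        · simp only [G, if_neg hi]
          rw [Finset.mem_insert, Finset.mem_singleton]
          exact wd_eq_zero_of_prim (P i) (P' i) (hPu i) (hPu' i) (hP'.2.1 i hi)
      calc _ = ∑ P' ∈ (PP n X i₀ Δ).filter (fun P' => (∀ j, j ≠ i₀ → wd (P j) (P' j) = 0) ∧
          wd (P i₀) (P' i₀) ≠ 0), h (P' i₀) := by
            apply Finset.sum_congr rfl
            intro P' hP'
            rw [Finset.mem_filter] at hP'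
            rw [hh]; beta_reduce
            rw [if_pos hP'.2.2]
        _ ≤ _ := Finset.sum_le_sum_of_subset_of_nonneg h3 (fun P' _ _ => hh0 _)
    refine h2.trans ?_
    rw [sum_pi_one G i₀ h]
    have h4 : ∏ l ∈ univ.erase i₀, ((G l).card : ℝ) ≤ 2 ^ k := by
      calc ∏ l ∈ univ.erase i₀, ((G l).card : ℝ) ≤ ∏ l ∈ univ.erase i₀, (2 : ℝ) := by
            apply Finset.prod_le_prod
            · intro i _; positivity
            · intro i hi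
              have : i ≠ i₀ := (Finset.mem_erase.1 hi).1
              simp only [G, if_neg this]
              exact card_pm_le (P i)
        _ = 2 ^ (k - 1) := by
            rw [Finset.prod_const, Finset.card_erase_of_mem (Finset.mem_univ i₀),
              Finset.card_univ, Fintype.card_fin]
        _ ≤ 2 ^ k := pow_le_pow_right₀ (by norm_num) (by omega)
    have h5 : ∑ x ∈ G i₀, h x ≤ C * Q := by
      have e : G i₀ = FF n X i₀ Δ i₀ := by simp only [G, if_true]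
      rw [e]
      have hF := (mem_FF n X i₀ Δ i₀ (P i₀)).1 hPF
      have h6 := hC (X i₀) Δ (P i₀) hΔ hF.1.1 hF.1.2.1 hF.1.2.2 (hF.2 rfl)
      calc ∑ x ∈ FF n X i₀ Δ i₀, h x ≤ ∑ x ∈ box (Fin (n i₀ + 1)) (X i₀), h x := by
            apply Finset.sum_le_sum_of_subset_of_nonneg
            · unfold FF; exact Finset.filter_subset _ _
            · intro x _ _; exact hh0 x
        _ = ∑ y ∈ (box (Fin (n i₀ + 1)) (X i₀)).filter (fun y => wd (P i₀) y ≠ 0),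
              ((gd (P i₀) y : ℝ) / (wd (P i₀) y : ℝ)) := by
            rw [Finset.sum_filter]
        _ ≤ C * Q := by
            rw [hQ, ← mul_assoc]; exact h6
    exact mul_le_mul h4 h5 (Finset.sum_nonneg (fun x _ => hh0 x)) (by positivity)
  refine (Finset.sum_le_sum h1).trans ?_
  rw [Finset.sum_const, nsmul_eq_mul]
  calc _ ≤ (c3 n * Vol n X) * (2 ^ k * (C * Q)) :=
        mul_le_mul_of_nonneg_right (card_PP n X i₀ Δ hX) (by positivity)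
    _ = _ := by ring

theorem f1_nonneg {k : ℕ} {n : Fin k → ℕ} (i₀ : Fin k) (P P' : Pt n ℤ) : 0 ≤ f1 i₀ P P' := by
  unfold f1
  apply Finset.sum_nonneg
  intro j _
  split_ifs <;> positivity

theorem g1_nonneg {k : ℕ} {n : Fin k → ℕ} (i₀ : Fin k) (w : ℕ) (θ B : ℝ) (P P' : Pt n ℤ) :
    0 ≤ g1 i₀ w θ B P P' := by
  unfold g1
  apply Finset.sum_nonneg
  intro j _
  split_ifs <;> positivity

theorem f2_nonneg {k : ℕ} {n : Fin k → ℕ} (i₀ : Fin k) (P P' : Pt n ℤ) : 0 ≤ f2 i₀ P P' := by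
  unfold f2; split_ifs <;> norm_num

theorem f3_nonneg {k : ℕ} {n : Fin k → ℕ} (i₀ : Fin k) (P P' : Pt n ℤ) : 0 ≤ f3 i₀ P P' := by
  unfold f3; split_ifs <;> positivity

theorem f4_nonneg {k : ℕ} {n : Fin k → ℕ} (P P' : Pt n ℤ) : 0 ≤ f4 P P' := by
  unfold f4; split_ifs <;> norm_num

theorem Sz_pos {k : ℕ} (d : Fin k → ℕ) (X : Fin k → ℕ) (hX : ∀ i, 1 ≤ X i) : 1 ≤ Sz d X := by
  unfold Sz
  have h : 1 ≤ ∏ i, X i ^ d i := Nat.one_le_iff_ne_zero.2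
    (Finset.prod_ne_zero_iff.2 (fun i _ => pow_ne_zero _ (by have := hX i; omega)))
  have h2 : ((∏ i, X i ^ d i : ℕ) : ℝ) = ∏ i, (X i : ℝ) ^ (d i) := by push_cast; rfl
  rw [← h2]
  exact_mod_cast h

theorem natAbs_bm_le {N D : ℕ} (s : Mon N D) (x : Fin N → ℤ) (B : ℕ) (h : nrm x ≤ B) :
    (bm s x : ℤ).natAbs ≤ B ^ D := by
  have h1 : (bm s x : ℤ).natAbs = ∏ j, (x j).natAbs ^ (s.1 j : ℕ) := by
    unfold bm
    rw [← Int.natAbsHom_apply, map_prod]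
    apply Finset.prod_congr rfl
    intro j _
    rw [Int.natAbsHom_apply, Int.natAbs_pow]
  rw [h1]
  calc ∏ j, (x j).natAbs ^ (s.1 j : ℕ) ≤ ∏ j, B ^ (s.1 j : ℕ) := by
        apply Finset.prod_le_prod
        · intro j _; exact Nat.zero_le _
        · intro j _; exact Nat.pow_le_pow_left ((nrm_le_iff x B).1 h j) _
    _ = B ^ D := by
        rw [Finset.prod_pow_eq_pow_sum]
        congr 1
        exact s.2

theorem abs_mono_le {k : ℕ} {n d : Fin k → ℕ} (X : Fin k → ℕ) (P : Pt n ℤ) (h : Shell X P)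
    (s : Exps n d) : |((mono s P : ℤ) : ℝ)| ≤ Sz d X := by
  have h1 : (mono s P : ℤ).natAbs ≤ ∏ i, X i ^ d i := by
    unfold mono
    rw [← Int.natAbsHom_apply, map_prod]
    apply Finset.prod_le_prod
    · intro i _; exact Nat.zero_le _
    · intro i _
      rw [Int.natAbsHom_apply]
      exact natAbs_bm_le (s i) (P i) (X i) (h i).2
  rw [← Int.cast_abs, Int.abs_eq_natAbs]
  unfold Sz
  have h2 : ((∏ i, X i ^ d i : ℕ) : ℝ) = ∏ i, (X i : ℝ) ^ (d i) := by push_cast; rfl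
  rw [← h2]
  exact_mod_cast h1

/-- The vector for one block. -/
theorem exists_b {k : ℕ} {n d : Fin k → ℕ} (hd1 : ∀ i, 1 ≤ d i) (P P' : Pt n ℤ)
    (hP' : ∀ i, Umod (P' i)) (i : Fin k) :
    ∃ b : Exps n d → ℤ, ∑ s, b s * mono s P = 0 ∧ ∑ s, b s * mono s P' = gd (P i) (P' i) := by
  obtain ⟨l, hl, hl'⟩ := exists_lin (P i) (P' i)
  obtain ⟨b, hb, hb'⟩ := bez_lin (d := d) P P' hP' i (hd1 i) l hl
  exact ⟨b, hb, by rw [← hl']; exact hb'⟩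

/-- The vector for two blocks. -/
theorem exists_b2 {k : ℕ} {n d : Fin k → ℕ} (hd1 : ∀ i, 1 ≤ d i) (P P' : Pt n ℤ)
    (hP' : ∀ i, Umod (P' i)) (i j : Fin k) :
    ∃ b : Exps n d → ℤ, ∑ s, b s * mono s P = 0 ∧
      ∑ s, b s * mono s P' = ((Nat.gcd (gd (P j) (P' j)) (gd (P i) (P' i)) : ℕ) : ℤ) := by
  obtain ⟨b, hb, hb'⟩ := exists_b (d := d) hd1 P P' hP' j
  obtain ⟨a, ha, ha'⟩ := exists_b (d := d) hd1 P P' hP' i
  refine ⟨fun s => Nat.gcdA (gd (P j) (P' j)) (gd (P i) (P' i)) * b s +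
    Nat.gcdB (gd (P j) (P' j)) (gd (P i) (P' i)) * a s, ?_, ?_⟩
  · have : ∑ s, (Nat.gcdA (gd (P j) (P' j)) (gd (P i) (P' i)) * b s +
        Nat.gcdB (gd (P j) (P' j)) (gd (P i) (P' i)) * a s) * (mono s P : ℤ) =
        Nat.gcdA (gd (P j) (P' j)) (gd (P i) (P' i)) * ∑ s, b s * mono s P +
        Nat.gcdB (gd (P j) (P' j)) (gd (P i) (P' i)) * ∑ s, a s * mono s P := by
      rw [Finset.mul_sum, Finset.mul_sum, ← Finset.sum_add_distrib]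
      apply Finset.sum_congr rfl
      intro s _; ring
    rw [this, hb, ha]; ring
  · have : ∑ s, (Nat.gcdA (gd (P j) (P' j)) (gd (P i) (P' i)) * b s +
        Nat.gcdB (gd (P j) (P' j)) (gd (P i) (P' i)) * a s) * (mono s P' : ℤ) =
        Nat.gcdA (gd (P j) (P' j)) (gd (P i) (P' i)) * ∑ s, b s * mono s P' +
        Nat.gcdB (gd (P j) (P' j)) (gd (P i) (P' i)) * ∑ s, a s * mono s P' := by
      rw [Finset.mul_sum, Finset.mul_sum, ← Finset.sum_add_distrib]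
      apply Finset.sum_congr rfl
      intro s _; ring
    rw [this, hb', ha', Nat.gcd_eq_gcd_ab]; ring

theorem pair_bound {k : ℕ} (n d : Fin k → ℕ) (i₀ : Fin k) (hn1 : ∀ i, 1 ≤ n i)
    (hd1 : ∀ i, 1 ≤ d i) (hd : 2 ≤ d i₀) :
    ∃ C : ℕ, 0 < C ∧ ∀ (X : Fin k → ℕ) (T H μ ρ : ℕ), (∀ i, 1 ≤ X i) →
    (∀ j, j ≠ i₀ → X j = T) → 1 ≤ H → 1 ≤ μ → ρ ≤ H →
    C * ∏ j ∈ univ.erase i₀, X j ^ d j ≤ H →
    C * μ ^ 2 ≤ H * ∏ j ∈ univ.erase i₀, X j ^ d j →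
    ∀ P P' : Pt n ℤ, Shell X P → Shell X P' → (∀ i, Umod (P i)) → (∀ i, Umod (P' i)) →
    GoodSpan μ (P i₀) → GoodSpan μ (P' i₀) →
    ((∃ j, j ≠ i₀ ∧ wd (P j) (P' j) ≠ 0) →
      Cov2 ρ (fun s : Exps n d => mono s P) (fun s => mono s P')) → ∀ w w' : ℤ,
    (((box (Exps n d) H).filter fun c => evZ c P = w ∧ evZ c P' = w').card : ℝ) ≤
      (C * (2 * (H : ℝ) + 1) ^ Fintype.card (Exps n d)) *
      ((X i₀ : ℝ) ^ 2 / (H * Sz d X) ^ 2 * f1 i₀ P P' + (T : ℝ) ^ 2 / (H * Sz d X) ^ 2 * f2 i₀ P P' +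
        (X i₀ : ℝ) ^ 2 / (H * Sz d X) ^ 2 * f3 i₀ P P' + 1 / (H * Sz d X) * f4 P P') := by
  classical
  obtain ⟨C₃, hC₃, h₃⟩ := pb_diag n d i₀ hn1 hd1
  obtain ⟨C₄, hC₄, h₄⟩ := pb_same n d i₀ hn1 hd1 hd
  obtain ⟨C₅, hC₅, h₅⟩ := pb_diff n d hn1 hd1
  refine ⟨C₃ + C₄ + C₅, by omega, ?_⟩
  intro X T H μ ρ hX hXT hH hμ hρ hc1 hc2 P P' hP hP' hu hu' hg hg' hcov w w'
  set A : ℝ := (2 * (H : ℝ) + 1) ^ Fintype.card (Exps n d) with hA
  set q : ℝ := H * Sz d X with hq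
  have hS := Sz_pos d X hX
  have hHr : (1 : ℝ) ≤ H := by exact_mod_cast hH
  have hq0 : 0 < q := by rw [hq]; positivity
  have hA0 : 0 < A := by rw [hA]; positivity
  have n1 := f1_nonneg i₀ P P'
  have n2 := f2_nonneg i₀ P P'
  have n3 := f3_nonneg i₀ P P'
  have n4 := f4_nonneg P P'
  set N : ℝ := (((box (Exps n d) H).filter fun c => evZ c P = w ∧ evZ c P' = w').card : ℝ) with hN
  have hN0 : 0 ≤ N := by rw [hN]; positivity
  have hd1' : C₃ * ∏ j ∈ univ.erase i₀, X j ^ d j ≤ H := le_trans (Nat.mul_le_mul_right _ (by omega)) hc1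
  have hd2' : C₄ * ∏ j ∈ univ.erase i₀, X j ^ d j ≤ H := le_trans (Nat.mul_le_mul_right _ (by omega)) hc1
  have hm1 : C₃ * μ ≤ H * ∏ j ∈ univ.erase i₀, X j ^ d j := by
    refine le_trans ?_ hc2
    have : μ ≤ μ ^ 2 := Nat.le_self_pow (by norm_num) μ
    exact Nat.mul_le_mul (by omega) this
  have hm2 : C₄ * μ ^ 2 ≤ H * ∏ j ∈ univ.erase i₀, X j ^ d j :=
    le_trans (Nat.mul_le_mul_right _ (by omega)) hc2
  push_cast
  by_cases ha : ∃ j, j ≠ i₀ ∧ wd (P j) (P' j) ≠ 0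
  · obtain ⟨j, hj, hwj⟩ := ha
    have hc := hcov ⟨j, hj, hwj⟩
    by_cases hb : wd (P i₀) (P' i₀) = 0
    · -- case (2)
      obtain ⟨b, hb1, hb2⟩ := exists_b (d := d) hd1 P P' hu' j
      have hG : 0 < gd (P j) (P' j) := (gd_pos_iff _ _).2 hwj
      have h6 := h₅ X H ρ (gd (P j) (P' j)) P P' w w' hH hρ hG hP hP' hu hc ⟨b, hb1, hb2⟩ j
      rw [hXT j hj, ← hN, ← hA] at h6
      have h7 : (gd (P j) (P' j) : ℝ) ≤ (wd (P j) (P' j) : ℝ) := by exact_mod_cast gd_le_wd _ _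
      have hw0 : (0 : ℝ) < (wd (P j) (P' j) : ℝ) := by
        exact_mod_cast Nat.pos_of_ne_zero hwj
      have e2 : f2 i₀ P P' = 1 := by unfold f2; rw [if_pos hb]
      have h8 : N * q ^ 2 ≤ C₅ * A * (T : ℝ) ^ 2 := by
        have h9 : (N * q ^ 2) * (wd (P j) (P' j) : ℝ) ≤
            (C₅ * A * (T : ℝ) ^ 2) * (wd (P j) (P' j) : ℝ) := by
          calc (N * q ^ 2) * (wd (P j) (P' j) : ℝ) =
                N * ((H : ℝ) ^ 2 * Sz d X ^ 2) * (wd (P j) (P' j) : ℝ) := by rw [hq]; ring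
            _ ≤ C₅ * A * (gd (P j) (P' j) : ℝ) * (T : ℝ) ^ 2 := h6
            _ ≤ C₅ * A * (wd (P j) (P' j) : ℝ) * (T : ℝ) ^ 2 := by gcongr
            _ = _ := by ring
        exact le_of_mul_le_mul_right h9 hw0
      have h10 : N ≤ C₅ * A * ((T : ℝ) ^ 2 / q ^ 2 * f2 i₀ P P') := by
        rw [e2, mul_one, ← mul_div_assoc, le_div_iff₀ (by positivity)]
        exact h8
      refine h10.trans ?_
      apply mul_le_mul
      · apply mul_le_mul_of_nonneg_right _ hA0.le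
        have : (0 : ℝ) ≤ C₃ := by positivity
        have : (0 : ℝ) ≤ C₄ := by positivity
        linarith
      · have : 0 ≤ (X i₀ : ℝ) ^ 2 / q ^ 2 * f1 i₀ P P' := by positivity
        have : 0 ≤ (X i₀ : ℝ) ^ 2 / q ^ 2 * f3 i₀ P P' := by positivity
        have : 0 ≤ 1 / q * f4 P P' := by positivity
        linarith
      · positivity
      · positivity
    · -- case (3)
      obtain ⟨b, hb1, hb2⟩ := exists_b2 (d := d) hd1 P P' hu' i₀ j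
      have hG : 0 < Nat.gcd (gd (P j) (P' j)) (gd (P i₀) (P' i₀)) :=
        Nat.gcd_pos_of_pos_left _ ((gd_pos_iff _ _).2 hwj)
      have h6 := h₅ X H ρ (Nat.gcd (gd (P j) (P' j)) (gd (P i₀) (P' i₀))) P P' w w' hH hρ hG hP hP'
        hu hc ⟨b, hb1, hb2⟩ i₀
      rw [← hN, ← hA] at h6
      have hw0 : (0 : ℝ) < (wd (P i₀) (P' i₀) : ℝ) := by
        exact_mod_cast Nat.pos_of_ne_zero hb
      have e1 : (Nat.gcd (gd (P j) (P' j)) (gd (P i₀) (P' i₀)) : ℝ) / (wd (P i₀) (P' i₀) : ℝ) ≤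
          f1 i₀ P P' := by
        unfold f1
        have hjm : j ∈ univ.erase i₀ := Finset.mem_erase.2 ⟨hj, Finset.mem_univ j⟩
        have := Finset.single_le_sum (f := fun j => if wd (P j) (P' j) ≠ 0 ∧ wd (P i₀) (P' i₀) ≠ 0
          then ((Nat.gcd (gd (P j) (P' j)) (gd (P i₀) (P' i₀)) : ℝ) / (wd (P i₀) (P' i₀) : ℝ))
          else 0) (fun j _ => by beta_reduce; split_ifs <;> positivity) hjm
        beta_reduce at this
        rw [if_pos ⟨hwj, hb⟩] at this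
        exact this
      have h10 : N ≤ C₅ * A * ((X i₀ : ℝ) ^ 2 / q ^ 2 *
          ((Nat.gcd (gd (P j) (P' j)) (gd (P i₀) (P' i₀)) : ℝ) / (wd (P i₀) (P' i₀) : ℝ))) := by
        have h11 : C₅ * A * ((X i₀ : ℝ) ^ 2 / q ^ 2 *
          ((Nat.gcd (gd (P j) (P' j)) (gd (P i₀) (P' i₀)) : ℝ) / (wd (P i₀) (P' i₀) : ℝ))) =
          (C₅ * A * (Nat.gcd (gd (P j) (P' j)) (gd (P i₀) (P' i₀)) : ℝ) * (X i₀ : ℝ) ^ 2) /
            (q ^ 2 * (wd (P i₀) (P' i₀) : ℝ)) := by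
          field_simp
        rw [h11, le_div_iff₀ (by positivity)]
        calc N * (q ^ 2 * (wd (P i₀) (P' i₀) : ℝ)) =
              N * ((H : ℝ) ^ 2 * Sz d X ^ 2) * (wd (P i₀) (P' i₀) : ℝ) := by rw [hq]; ring
          _ ≤ _ := h6
      refine h10.trans ?_
      apply mul_le_mul
      · apply mul_le_mul_of_nonneg_right _ hA0.le
        have : (0 : ℝ) ≤ C₃ := by positivity
        have : (0 : ℝ) ≤ C₄ := by positivity
        linarith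
      · have h12 : (X i₀ : ℝ) ^ 2 / q ^ 2 *
          ((Nat.gcd (gd (P j) (P' j)) (gd (P i₀) (P' i₀)) : ℝ) / (wd (P i₀) (P' i₀) : ℝ)) ≤
          (X i₀ : ℝ) ^ 2 / q ^ 2 * f1 i₀ P P' := mul_le_mul_of_nonneg_left e1 (by positivity)
        have : 0 ≤ (T : ℝ) ^ 2 / q ^ 2 * f2 i₀ P P' := by positivity
        have : 0 ≤ (X i₀ : ℝ) ^ 2 / q ^ 2 * f3 i₀ P P' := by positivity
        have : 0 ≤ 1 / q * f4 P P' := by positivity
        linarith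
      · positivity
      · positivity
  · push Not at ha
    by_cases hb : wd (P i₀) (P' i₀) = 0
    · -- case (0)
      have h6 := h₃ X H μ P w hH hμ hP hu hg hd1' hm1
      rw [← hA] at h6
      have e4 : f4 P P' = 1 := by
        unfold f4
        rw [if_pos]
        intro j
        by_cases hj : j = i₀
        · subst hj; exact hb
        · exact ha j hj
      have h7 : N ≤ (((box (Exps n d) H).filter fun c => evZ c P = w).card : ℝ) := by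
        rw [hN]
        have : ((box (Exps n d) H).filter fun c => evZ c P = w ∧ evZ c P' = w').card ≤
            ((box (Exps n d) H).filter fun c => evZ c P = w).card := by
          apply Finset.card_le_card
          intro c hc
          rw [Finset.mem_filter] at hc ⊢
          exact ⟨hc.1, hc.2.1⟩
        exact_mod_cast this
      have h8 : N * q ≤ C₃ * A := (mul_le_mul_of_nonneg_right h7 hq0.le).trans h6
      have h10 : N ≤ C₃ * A * (1 / q * f4 P P') := by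
        rw [e4, mul_one, mul_one_div, le_div_iff₀ hq0]
        exact h8
      refine h10.trans ?_
      apply mul_le_mul
      · apply mul_le_mul_of_nonneg_right _ hA0.le
        have : (0 : ℝ) ≤ C₅ := by positivity
        have : (0 : ℝ) ≤ C₄ := by positivity
        linarith
      · have : 0 ≤ (X i₀ : ℝ) ^ 2 / q ^ 2 * f1 i₀ P P' := by positivity
        have : 0 ≤ (X i₀ : ℝ) ^ 2 / q ^ 2 * f3 i₀ P P' := by positivity
        have : 0 ≤ (T : ℝ) ^ 2 / q ^ 2 * f2 i₀ P P' := by positivity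
        linarith
      · positivity
      · positivity
    · -- case (1)
      have h6 := h₄ X H μ P P' w w' hH hμ hP hP' hu hu' hg hg' ha hb hd2' hm2
      rw [← hN, ← hA] at h6
      have hw0 : (0 : ℝ) < (wd (P i₀) (P' i₀) : ℝ) := by
        exact_mod_cast Nat.pos_of_ne_zero hb
      have e3 : f3 i₀ P P' = (gd (P i₀) (P' i₀) : ℝ) / (wd (P i₀) (P' i₀) : ℝ) := by
        unfold f3
        rw [if_pos ⟨ha, hb⟩]
      have h10 : N ≤ C₄ * A * ((X i₀ : ℝ) ^ 2 / q ^ 2 * f3 i₀ P P') := by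
        have h11 : C₄ * A * ((X i₀ : ℝ) ^ 2 / q ^ 2 * f3 i₀ P P') =
          (C₄ * A * (gd (P i₀) (P' i₀) : ℝ) * (X i₀ : ℝ) ^ 2) /
            (q ^ 2 * (wd (P i₀) (P' i₀) : ℝ)) := by
          rw [e3]
          field_simp
        rw [h11, le_div_iff₀ (by positivity)]
        calc N * (q ^ 2 * (wd (P i₀) (P' i₀) : ℝ)) =
              N * ((H : ℝ) ^ 2 * Sz d X ^ 2) * (wd (P i₀) (P' i₀) : ℝ) := by rw [hq]; ring
          _ ≤ _ := h6
      refine h10.trans ?_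
      apply mul_le_mul
      · apply mul_le_mul_of_nonneg_right _ hA0.le
        have : (0 : ℝ) ≤ C₃ := by positivity
        have : (0 : ℝ) ≤ C₅ := by positivity
        linarith
      · have : 0 ≤ (X i₀ : ℝ) ^ 2 / q ^ 2 * f1 i₀ P P' := by positivity
        have : 0 ≤ (T : ℝ) ^ 2 / q ^ 2 * f2 i₀ P P' := by positivity
        have : 0 ≤ 1 / q * f4 P P' := by positivity
        linarith
      · positivity
      · positivity

theorem four_le (a b c d s x y z : ℝ) (ha : 0 ≤ a) (hb : 0 ≤ b) (hc : 0 ≤ c) (hd : 0 ≤ d)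
    (hs : 0 ≤ s) (hx : 0 ≤ x) (hy : 0 ≤ y) (hz : 0 ≤ z) :
    a * s + b * x + c * y + d * z ≤ (a + b + c + d) * (s + x + y + z) := by
  have e : (a + b + c + d) * (s + x + y + z) = (a * s + b * x + c * y + d * z) +
      (a * x + a * y + a * z + (b * s + b * y + b * z) + (c * s + c * x + c * z) +
        (d * s + d * x + d * y)) := by ring
  rw [e]
  apply le_add_of_nonneg_right
  positivity

theorem static {k : ℕ} (n d : Fin k → ℕ) (i₀ : Fin k) (hn1 : ∀ i, 1 ≤ n i)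
    (hd1 : ∀ i, 1 ≤ d i) (hn : 2 ≤ n i₀) (hd : 2 ≤ d i₀) :
    ∃ c₆ : ℝ, 0 < c₆ ∧ ∃ K : ℝ, 0 < K ∧ ∃ C : ℕ, 0 < C ∧
    ∀ (X : Fin k → ℕ) (T Δ H μ ρ W w : ℕ) (V θ ε : ℝ), (∀ i, 1 ≤ X i) →
    (∀ j, j ≠ i₀ → X j = T) → 1 ≤ T → 1 ≤ Δ → 1 ≤ H → 1 ≤ μ → ρ ≤ H → 0 < W → (W : ℝ) ≤ V →
    1 ≤ w → 0 ≤ θ → θ ≤ 1 → 0 ≤ ε → ε ≤ 1 →
    C * ∏ j ∈ univ.erase i₀, X j ^ d j ≤ H →
    C * μ ^ 2 ≤ H * ∏ j ∈ univ.erase i₀, X j ^ d j →
    (∀ x ∈ FF n X i₀ Δ i₀, GoodSpan μ x) →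
    (∀ P ∈ PP n X i₀ Δ, ∀ P' ∈ PP n X i₀ Δ, (∃ j, j ≠ i₀ ∧ wd (P j) (P' j) ≠ 0) →
      Cov2 ρ (fun s : Exps n d => mono s P) (fun s => mono s P')) →
    (∀ m, 1 ≤ m → m ≤ w → m ∣ W) →
    (∀ (m m' : Exps n d → ℤ) (s s' : Exps n d), (∀ i, |(m i : ℝ)| ≤ Sz d X) →
      (∀ i, |(m' i : ℝ)| ≤ Sz d X) →
      (c₆ * θ) * Sz d X ^ 2 ≤ |((m s * m' s' - m s' * m' s : ℤ) : ℝ)| → Cov2 ρ m m' →
      (∃ b : Exps n d → ℤ, ∑ i, b i * m i = W ∧ ∑ i, b i * m' i = 0) →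
      (∃ b : Exps n d → ℤ, ∑ i, b i * m i = 0 ∧ ∑ i, b i * m' i = W) →
      pairE1 H m m' - (W : ℝ) / (2 * V) * (pairE2 H W V m m' + pairE2 H W V m' m) +
        ((W : ℝ) / (2 * V)) ^ 2 * pairE3 H W V m m' ≤ ε * pairE1 H m m') →
    ∑ c ∈ box (Exps n d) H, (Nn (PP n X i₀ Δ) c - Nl (PP n X i₀ Δ) W V c) ^ 2 ≤
      K * (2 * (H : ℝ) + 1) ^ Fintype.card (Exps n d) * (Vol n X / (H * Sz d X)) ^ 2 *
      (ε + (1 / w + θ + (1 + Real.log T) / T) + (T : ℝ) ^ 2 / Δ + (T : ℝ) ^ 2 / X i₀ +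
        (X i₀ : ℝ) ^ 2 * ((1 + Real.log (X i₀)) * ((X i₀ : ℝ) ^ (n i₀ - 1) +
          ((X i₀ : ℝ) / Δ) ^ n i₀)) / Vol n X + (H * Sz d X) / Vol n X) := by
  classical
  obtain ⟨c₆, hc₆, h₆⟩ := minor_multi n d hd1
  obtain ⟨Cp, hCp, hp⟩ := pair_bound n d i₀ hn1 hd1 hd
  obtain ⟨Ca, hCa, ha⟩ := sum_f1 n i₀ hn1 hn
  obtain ⟨Cc, hCc, hcc⟩ := sum_f3 n i₀ hn
  have hc3 := one_le_c3 n
  have hCpr : (0 : ℝ) < Cp := by exact_mod_cast hCp
  refine ⟨c₆, hc₆, Cp * (6 * Ca + 10 * c3 n ^ 2 + 5 * Cc + 5 * (2 ^ k * c3 n)), by positivity,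
    Cp, hCp, ?_⟩
  intro X T Δ H μ ρ W w V θ ε hX hXT hT hΔ hH hμ hρ hW hV hw hθ hθ1 hε hε1 hc1 hc2 hsp hcov hWd hgp
  set A : ℝ := (2 * (H : ℝ) + 1) ^ Fintype.card (Exps n d) with hA
  set q : ℝ := H * Sz d X with hq
  set v : ℝ := Vol n X with hv
  have hS := Sz_pos d X hX
  have hHr : (1 : ℝ) ≤ H := by exact_mod_cast hH
  have hTr : (1 : ℝ) ≤ T := by exact_mod_cast hT
  have hΔr : (1 : ℝ) ≤ Δ := by exact_mod_cast hΔ
  have hwr : (1 : ℝ) ≤ w := by exact_mod_cast hw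
  have hXr : (1 : ℝ) ≤ X i₀ := by exact_mod_cast hX i₀
  have hq0 : 0 < q := by rw [hq]; positivity
  have hA0 : 0 < A := by rw [hA]; positivity
  have hVT0 : 0 < VT n X i₀ := by
    unfold VT
    apply Finset.prod_pos
    intro i _
    have : (0 : ℝ) < X i := by exact_mod_cast hX i
    positivity
  have hve : v = (X i₀ : ℝ) ^ (n i₀ + 1) * VT n X i₀ := Vol_eq n X i₀
  have hv0 : 0 < v := by rw [hve]; positivity
  have hlogT : 0 ≤ Real.log T := Real.log_natCast_nonneg T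
  have hlogX : 0 ≤ Real.log (X i₀) := Real.log_natCast_nonneg _
  set Z : ℝ := (1 + Real.log (X i₀)) * ((X i₀ : ℝ) ^ (n i₀ - 1) +
          ((X i₀ : ℝ) / Δ) ^ n i₀) with hZ
  have hZ0 : 0 ≤ Z := by rw [hZ]; positivity
  set Y : ℝ := 1 / w + θ + (1 + Real.log T) / T with hY
  have hY0 : 0 ≤ Y := by rw [hY]; positivity
  -- facts on points
  have hPP : ∀ P ∈ PP n X i₀ Δ, Shell X P ∧ (∀ i, Umod (P i)) ∧ GoodSpan μ (P i₀) := by
    intro P hP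
    have h1 := (mem_PP n X i₀ Δ P).1 hP
    refine ⟨h1.1, h1.2.1, hsp _ ?_⟩
    unfold PP at hP
    rw [Fintype.mem_piFinset] at hP
    exact hP i₀
  set ω : Pt n ℤ → Pt n ℤ → ℝ := fun P P' => (Cp * A) *
      ((X i₀ : ℝ) ^ 2 / q ^ 2 * f1 i₀ P P' + (T : ℝ) ^ 2 / q ^ 2 * f2 i₀ P P' +
        (X i₀ : ℝ) ^ 2 / q ^ 2 * f3 i₀ P P' + 1 / q * f4 P P') with hω
  set good : Pt n ℤ → Pt n ℤ → Prop := fun P P' => ∃ j, j ≠ i₀ ∧ wd (P j) (P' j) ≠ 0 ∧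
    wd (P i₀) (P' i₀) ≠ 0 ∧ Nat.gcd (gd (P j) (P' j)) (gd (P i₀) (P' i₀)) ≤ w ∧
    θ * (X i₀ : ℝ) ^ 2 ≤ (wd (P i₀) (P' i₀) : ℝ) with hgood
  have hvar := var_bound (n := n) (d := d) (PP n X i₀ Δ) H W V ε hW hV hε ω good
    (by
      intro P hP P' hP' u u'
      obtain ⟨a1, a2, a3⟩ := hPP P hP
      obtain ⟨b1, b2, b3⟩ := hPP P' hP'
      exact hp X T H μ ρ hX hXT hH hμ hρ hc1 hc2 P P' a1 b1 a2 b2 a3 b3 (hcov P hP P' hP') u u')
    (by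
      intro P hP P' hP' hg
      obtain ⟨a1, a2, a3⟩ := hPP P hP
      obtain ⟨b1, b2, b3⟩ := hPP P' hP'
      obtain ⟨j, hj, hwj, hw0, hgc, hwθ⟩ := hg
      obtain ⟨s, s', hs⟩ := h₆ X P P' a1 b1 i₀
      have hG : 0 < Nat.gcd (gd (P j) (P' j)) (gd (P i₀) (P' i₀)) :=
        Nat.gcd_pos_of_pos_left _ ((gd_pos_iff _ _).2 hwj)
      obtain ⟨g, hgW⟩ := hWd _ hG hgc
      obtain ⟨b, hb1, hb2⟩ := exists_b2 (d := d) hd1 P P' b2 i₀ j
      obtain ⟨a, ha1⟩ := bez_one (d := d) P a2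
      have hbW : ∃ b : Exps n d → ℤ, ∑ i, b i * (mono i P : ℤ) = 0 ∧
          ∑ i, b i * (mono i P' : ℤ) = W := by
        refine ⟨fun s => g * b s, ?_, ?_⟩
        · have : ∑ s, ((g : ℤ) * b s) * (mono s P : ℤ) = g * ∑ s, b s * mono s P := by
            rw [Finset.mul_sum]
            apply Finset.sum_congr rfl
            intro s _; ring
          rw [this, hb1, mul_zero]
        · have : ∑ s, ((g : ℤ) * b s) * (mono s P' : ℤ) = g * ∑ s, b s * mono s P' := by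
            rw [Finset.mul_sum]
            apply Finset.sum_congr rfl
            intro s _; ring
          rw [this, hb2, hgW]; push_cast; ring
      obtain ⟨b', hb1', hb2'⟩ := hbW
      refine hgp (fun s => mono s P) (fun s => mono s P') s s' (fun i => abs_mono_le X P a1 i)
        (fun i => abs_mono_le X P' b1 i) ?_ (hcov P hP P' hP' ⟨j, hj, hwj⟩) ?_ ⟨b', hb1', hb2'⟩
      · have hX2 : (0 : ℝ) < (X i₀ : ℝ) ^ 2 := by positivity
        have h7 : (X i₀ : ℝ) ^ 2 * ((c₆ * θ) * Sz d X ^ 2) ≤ (X i₀ : ℝ) ^ 2 *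
            |((mono s P * mono s' P' - mono s' P * mono s P' : ℤ) : ℝ)| := by
          refine le_trans ?_ hs
          calc (X i₀ : ℝ) ^ 2 * ((c₆ * θ) * Sz d X ^ 2) =
                c₆ * Sz d X ^ 2 * (θ * (X i₀ : ℝ) ^ 2) := by ring
            _ ≤ c₆ * Sz d X ^ 2 * (wd (P i₀) (P' i₀) : ℝ) :=
                mul_le_mul_of_nonneg_left hwθ (by positivity)
        exact le_of_mul_le_mul_left h7 hX2
      · refine ⟨fun s => W * a s - (∑ i, a i * mono i P') * b' s, ?_, ?_⟩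
        · have : ∑ s, ((W : ℤ) * a s - (∑ i, a i * mono i P') * b' s) * (mono s P : ℤ) =
              W * ∑ s, a s * mono s P - (∑ i, a i * mono i P') * ∑ s, b' s * mono s P := by
            rw [Finset.mul_sum, Finset.mul_sum, ← Finset.sum_sub_distrib]
            apply Finset.sum_congr rfl
            intro s _; ring
          rw [this, hb1', mul_zero, sub_zero]
          have ha1' : ∑ s, a s * (mono s P : ℤ) = 1 := ha1
          rw [ha1', mul_one]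
        · have : ∑ s, ((W : ℤ) * a s - (∑ i, a i * mono i P') * b' s) * (mono s P' : ℤ) =
              W * ∑ s, a s * mono s P' - (∑ i, a i * mono i P') * ∑ s, b' s * mono s P' := by
            rw [Finset.mul_sum, Finset.mul_sum, ← Finset.sum_sub_distrib]
            apply Finset.sum_congr rfl
            intro s _; ring
          rw [this, hb2']; ring)
  refine hvar.trans ?_
  -- pointwise comparison
  have hpt : ∀ P ∈ PP n X i₀ Δ, ∀ P' ∈ PP n X i₀ Δ,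
      (if good P P' then ε * ω P P' else 5 * ω P P') ≤
      (Cp * A) * ((X i₀ : ℝ) ^ 2 / q ^ 2 * (ε * f1 i₀ P P' + 5 * g1 i₀ w θ (X i₀) P P') +
        5 * ((T : ℝ) ^ 2 / q ^ 2 * f2 i₀ P P' + (X i₀ : ℝ) ^ 2 / q ^ 2 * f3 i₀ P P' +
          1 / q * f4 P P')) := by
    intro P _ P' _
    have n1 := f1_nonneg i₀ P P'
    have n1' := g1_nonneg i₀ w θ (X i₀) P P'
    have n2 := f2_nonneg i₀ P P'
    have n3 := f3_nonneg i₀ P P'
    have n4 := f4_nonneg P P'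
    have hCA : 0 ≤ (Cp : ℝ) * A := by positivity
    have m2 : 0 ≤ (T : ℝ) ^ 2 / q ^ 2 * f2 i₀ P P' := by positivity
    have m3 : 0 ≤ (X i₀ : ℝ) ^ 2 / q ^ 2 * f3 i₀ P P' := by positivity
    have m4 : 0 ≤ 1 / q * f4 P P' := by positivity
    have m1 : 0 ≤ (X i₀ : ℝ) ^ 2 / q ^ 2 := by positivity
    split_ifs with h
    · rw [hω]
      beta_reduce
      rw [mul_left_comm]
      apply mul_le_mul_of_nonneg_left _ hCA
      have e1 : (X i₀ : ℝ) ^ 2 / q ^ 2 * (ε * f1 i₀ P P') ≤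
          (X i₀ : ℝ) ^ 2 / q ^ 2 * (ε * f1 i₀ P P' + 5 * g1 i₀ w θ (X i₀) P P') :=
        mul_le_mul_of_nonneg_left (by linarith) m1
      have e2 : ε * ((T : ℝ) ^ 2 / q ^ 2 * f2 i₀ P P' + (X i₀ : ℝ) ^ 2 / q ^ 2 * f3 i₀ P P' +
          1 / q * f4 P P') ≤ 5 * ((T : ℝ) ^ 2 / q ^ 2 * f2 i₀ P P' +
          (X i₀ : ℝ) ^ 2 / q ^ 2 * f3 i₀ P P' + 1 / q * f4 P P') :=
        mul_le_mul_of_nonneg_right (by linarith) (by linarith)
      linarith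
    · rw [hω]
      beta_reduce
      rw [mul_left_comm]
      apply mul_le_mul_of_nonneg_left _ hCA
      have e0 : f1 i₀ P P' = g1 i₀ w θ (X i₀) P P' := by
        unfold f1 g1
        apply Finset.sum_congr rfl
        intro j hj
        have hji : j ≠ i₀ := (Finset.mem_erase.1 hj).1
        by_cases hc : wd (P j) (P' j) ≠ 0 ∧ wd (P i₀) (P' i₀) ≠ 0
        · rw [if_pos hc]
          rw [if_pos]
          refine ⟨hc.1, hc.2, ?_⟩
          by_contra hcon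
          push Not at hcon
          exact h ⟨j, hji, hc.1, hc.2, hcon.1, hcon.2⟩
        · rw [if_neg hc, if_neg]
          intro hc'
          exact hc ⟨hc'.1, hc'.2.1⟩
      have e1 : (X i₀ : ℝ) ^ 2 / q ^ 2 * (5 * f1 i₀ P P') ≤
          (X i₀ : ℝ) ^ 2 / q ^ 2 * (ε * f1 i₀ P P' + 5 * g1 i₀ w θ (X i₀) P P') := by
        apply mul_le_mul_of_nonneg_left _ m1
        rw [← e0]
        have : 0 ≤ ε * f1 i₀ P P' := by positivity
        linarith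
      linarith
  refine (Finset.sum_le_sum (fun P hP => Finset.sum_le_sum (fun P' hP' => hpt P hP P' hP'))).trans ?_
  -- the sums
  obtain ⟨s1, s1'⟩ := ha X T Δ w θ hX hXT hT hΔ hw hθ hθ1
  have s2 := sum_f2 n i₀ X Δ hX
  have s3 := hcc X Δ hX hΔ
  have s4 := sum_f4 n i₀ X Δ hX
  rw [← hv] at s2 s3 s4
  rw [← hZ] at s3
  rw [← hY] at s1'
  have hlin : ∑ P ∈ PP n X i₀ Δ, ∑ P' ∈ PP n X i₀ Δ,
      (Cp * A) * ((X i₀ : ℝ) ^ 2 / q ^ 2 * (ε * f1 i₀ P P' + 5 * g1 i₀ w θ (X i₀) P P') +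
        5 * ((T : ℝ) ^ 2 / q ^ 2 * f2 i₀ P P' + (X i₀ : ℝ) ^ 2 / q ^ 2 * f3 i₀ P P' +
          1 / q * f4 P P')) =
      (Cp * A) * ((X i₀ : ℝ) ^ 2 / q ^ 2 * (ε * (∑ P ∈ PP n X i₀ Δ, ∑ P' ∈ PP n X i₀ Δ,
        f1 i₀ P P') + 5 * (∑ P ∈ PP n X i₀ Δ, ∑ P' ∈ PP n X i₀ Δ, g1 i₀ w θ (X i₀) P P')) +
        5 * ((T : ℝ) ^ 2 / q ^ 2 * (∑ P ∈ PP n X i₀ Δ, ∑ P' ∈ PP n X i₀ Δ, f2 i₀ P P') +
          (X i₀ : ℝ) ^ 2 / q ^ 2 * (∑ P ∈ PP n X i₀ Δ, ∑ P' ∈ PP n X i₀ Δ, f3 i₀ P P') +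
          1 / q * (∑ P ∈ PP n X i₀ Δ, ∑ P' ∈ PP n X i₀ Δ, f4 P P'))) := by
    simp only [Finset.mul_sum, ← Finset.sum_add_distrib]
  rw [hlin]
  have hX2n : (X i₀ : ℝ) ^ (n i₀ + 2) ≤ (X i₀ : ℝ) ^ (2 * n i₀) :=
    pow_le_pow_right₀ hXr (by omega)
  have t1 : ∑ P ∈ PP n X i₀ Δ, ∑ P' ∈ PP n X i₀ Δ, f1 i₀ P P' ≤
      Ca * (VT n X i₀ ^ 2 * (X i₀ : ℝ) ^ (2 * n i₀)) * (1 + (T : ℝ) ^ 2 / Δ) := by
    refine s1.trans ?_
    calc Ca * VT n X i₀ ^ 2 * ((X i₀ : ℝ) ^ (2 * n i₀) + (T : ℝ) ^ 2 * (X i₀ : ℝ) ^ (n i₀ + 2) / Δ)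
        ≤ Ca * VT n X i₀ ^ 2 * ((X i₀ : ℝ) ^ (2 * n i₀) +
            (T : ℝ) ^ 2 * (X i₀ : ℝ) ^ (2 * n i₀) / Δ) := by gcongr
      _ = _ := by ring
  have t1' : ∑ P ∈ PP n X i₀ Δ, ∑ P' ∈ PP n X i₀ Δ, g1 i₀ w θ (X i₀) P P' ≤
      Ca * (VT n X i₀ ^ 2 * (X i₀ : ℝ) ^ (2 * n i₀)) * (Y + (T : ℝ) ^ 2 / Δ) := by
    refine s1'.trans ?_
    calc Ca * VT n X i₀ ^ 2 * ((X i₀ : ℝ) ^ (2 * n i₀) * Y +
            (T : ℝ) ^ 2 * (X i₀ : ℝ) ^ (n i₀ + 2) / Δ)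
        ≤ Ca * VT n X i₀ ^ 2 * ((X i₀ : ℝ) ^ (2 * n i₀) * Y +
            (T : ℝ) ^ 2 * (X i₀ : ℝ) ^ (2 * n i₀) / Δ) := by gcongr
      _ = _ := by ring
  have hkey : (X i₀ : ℝ) ^ 2 / q ^ 2 * (VT n X i₀ ^ 2 * (X i₀ : ℝ) ^ (2 * n i₀)) = (v / q) ^ 2 := by
    rw [hve]
    field_simp
    ring
  have hvq : 0 ≤ (v / q) ^ 2 := by positivity
  have u1 : (X i₀ : ℝ) ^ 2 / q ^ 2 * (ε * (∑ P ∈ PP n X i₀ Δ, ∑ P' ∈ PP n X i₀ Δ,
        f1 i₀ P P') + 5 * (∑ P ∈ PP n X i₀ Δ, ∑ P' ∈ PP n X i₀ Δ, g1 i₀ w θ (X i₀) P P')) ≤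
      (v / q) ^ 2 * (6 * Ca * (ε + Y + (T : ℝ) ^ 2 / Δ)) := by
    calc _ ≤ (X i₀ : ℝ) ^ 2 / q ^ 2 * (ε * (Ca * (VT n X i₀ ^ 2 * (X i₀ : ℝ) ^ (2 * n i₀)) *
          (1 + (T : ℝ) ^ 2 / Δ)) + 5 * (Ca * (VT n X i₀ ^ 2 * (X i₀ : ℝ) ^ (2 * n i₀)) *
          (Y + (T : ℝ) ^ 2 / Δ))) := by gcongr
      _ = ((X i₀ : ℝ) ^ 2 / q ^ 2 * (VT n X i₀ ^ 2 * (X i₀ : ℝ) ^ (2 * n i₀))) *
          (Ca * (ε * (1 + (T : ℝ) ^ 2 / Δ) + 5 * (Y + (T : ℝ) ^ 2 / Δ))) := by ring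
      _ = (v / q) ^ 2 * (Ca * (ε * (1 + (T : ℝ) ^ 2 / Δ) + 5 * (Y + (T : ℝ) ^ 2 / Δ))) := by
          rw [hkey]
      _ ≤ _ := by
          apply mul_le_mul_of_nonneg_left _ hvq
          rw [mul_comm 6 Ca, mul_assoc]
          apply mul_le_mul_of_nonneg_left _ hCa.le
          have h1 : 0 ≤ (T : ℝ) ^ 2 / Δ := by positivity
          have h2 : ε * ((T : ℝ) ^ 2 / Δ) ≤ (T : ℝ) ^ 2 / Δ := mul_le_of_le_one_left h1 hε1
          linarith
  have u2 : (T : ℝ) ^ 2 / q ^ 2 * (∑ P ∈ PP n X i₀ Δ, ∑ P' ∈ PP n X i₀ Δ, f2 i₀ P P') ≤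
      (v / q) ^ 2 * (2 * c3 n ^ 2 * ((T : ℝ) ^ 2 / X i₀)) := by
    calc _ ≤ (T : ℝ) ^ 2 / q ^ 2 * ((2 * c3 n ^ 2) * (VT n X i₀ * v)) := by gcongr
      _ = (v / q) ^ 2 * (2 * c3 n ^ 2 * ((T : ℝ) ^ 2 * (VT n X i₀ / v))) := by
          field_simp
      _ ≤ _ := by
          apply mul_le_mul_of_nonneg_left _ hvq
          apply mul_le_mul_of_nonneg_left _ (by positivity)
          rw [div_eq_mul_inv ((T : ℝ) ^ 2)]
          apply mul_le_mul_of_nonneg_left _ (by positivity)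
          rw [hve, div_le_iff₀ (by positivity)]
          have : (X i₀ : ℝ) ≤ (X i₀ : ℝ) ^ (n i₀ + 1) := le_self_pow₀ hXr (by omega)
          calc VT n X i₀ = (X i₀ : ℝ)⁻¹ * ((X i₀ : ℝ) * VT n X i₀) := by field_simp
            _ ≤ (X i₀ : ℝ)⁻¹ * ((X i₀ : ℝ) ^ (n i₀ + 1) * VT n X i₀) := by gcongr
  have u3 : (X i₀ : ℝ) ^ 2 / q ^ 2 * (∑ P ∈ PP n X i₀ Δ, ∑ P' ∈ PP n X i₀ Δ, f3 i₀ P P') ≤
      (v / q) ^ 2 * (Cc * ((X i₀ : ℝ) ^ 2 * Z / v)) := by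
    calc _ ≤ (X i₀ : ℝ) ^ 2 / q ^ 2 * (Cc * v * Z) := by gcongr
      _ = _ := by field_simp
  have u4 : 1 / q * (∑ P ∈ PP n X i₀ Δ, ∑ P' ∈ PP n X i₀ Δ, f4 P P') ≤
      (v / q) ^ 2 * ((2 ^ k * c3 n) * (q / v)) := by
    calc _ ≤ 1 / q * (2 ^ k * (c3 n * v)) := by gcongr
      _ = _ := by field_simp
  have hfin : (X i₀ : ℝ) ^ 2 / q ^ 2 * (ε * (∑ P ∈ PP n X i₀ Δ, ∑ P' ∈ PP n X i₀ Δ,
        f1 i₀ P P') + 5 * (∑ P ∈ PP n X i₀ Δ, ∑ P' ∈ PP n X i₀ Δ, g1 i₀ w θ (X i₀) P P')) +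
        5 * ((T : ℝ) ^ 2 / q ^ 2 * (∑ P ∈ PP n X i₀ Δ, ∑ P' ∈ PP n X i₀ Δ, f2 i₀ P P') +
          (X i₀ : ℝ) ^ 2 / q ^ 2 * (∑ P ∈ PP n X i₀ Δ, ∑ P' ∈ PP n X i₀ Δ, f3 i₀ P P') +
          1 / q * (∑ P ∈ PP n X i₀ Δ, ∑ P' ∈ PP n X i₀ Δ, f4 P P')) ≤
      (v / q) ^ 2 * ((6 * Ca + 10 * c3 n ^ 2 + 5 * Cc + 5 * (2 ^ k * c3 n)) *
        (ε + Y + (T : ℝ) ^ 2 / Δ + (T : ℝ) ^ 2 / X i₀ + (X i₀ : ℝ) ^ 2 * Z / v + q / v)) := by
    have z1 : 0 ≤ (T : ℝ) ^ 2 / Δ := by positivity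
    have z2 : 0 ≤ (T : ℝ) ^ 2 / X i₀ := by positivity
    have z3 : 0 ≤ (X i₀ : ℝ) ^ 2 * Z / v := by positivity
    have z4 : 0 ≤ q / v := by positivity
    have c1 : 0 ≤ c3 n ^ 2 := by positivity
    have c2 : 0 ≤ (2 : ℝ) ^ k * c3 n := by positivity
    calc _ ≤ (v / q) ^ 2 * (6 * Ca * (ε + Y + (T : ℝ) ^ 2 / Δ)) +
          5 * ((v / q) ^ 2 * (2 * c3 n ^ 2 * ((T : ℝ) ^ 2 / X i₀)) +
            (v / q) ^ 2 * (Cc * ((X i₀ : ℝ) ^ 2 * Z / v)) +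
            (v / q) ^ 2 * ((2 ^ k * c3 n) * (q / v))) := by linarith
      _ = (v / q) ^ 2 * (6 * Ca * (ε + Y + (T : ℝ) ^ 2 / Δ) + 10 * c3 n ^ 2 * ((T : ℝ) ^ 2 / X i₀) +
            5 * Cc * ((X i₀ : ℝ) ^ 2 * Z / v) + 5 * (2 ^ k * c3 n) * (q / v)) := by ring
      _ ≤ _ := by
          apply mul_le_mul_of_nonneg_left _ hvq
          have hS1 : 0 ≤ ε + Y + (T : ℝ) ^ 2 / Δ := by positivity
          have h4 := four_le (6 * Ca) (10 * c3 n ^ 2) (5 * Cc) (5 * (2 ^ k * c3 n))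
            (ε + Y + (T : ℝ) ^ 2 / Δ) ((T : ℝ) ^ 2 / X i₀) ((X i₀ : ℝ) ^ 2 * Z / v) (q / v)
            (by positivity) (by positivity) (by positivity) (by positivity) hS1 z2 z3 z4
          exact h4
  calc _ ≤ (Cp * A) * ((v / q) ^ 2 * ((6 * Ca + 10 * c3 n ^ 2 + 5 * Cc + 5 * (2 ^ k * c3 n)) *
        (ε + Y + (T : ℝ) ^ 2 / Δ + (T : ℝ) ^ 2 / X i₀ + (X i₀ : ℝ) ^ 2 * Z / v + q / v))) :=
        mul_le_mul_of_nonneg_left hfin (by positivity)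
    _ = _ := by ring

/-- Integer root. -/
def rt (K H : ℕ) : ℕ := Nat.findGreatest (fun r => r ^ K ≤ H) H

theorem rt_pow_le (K H : ℕ) (hK : 1 ≤ K) : rt K H ^ K ≤ H := by
  have h0 : (0 : ℕ) ^ K ≤ H := by rw [zero_pow (by omega)]; exact Nat.zero_le _
  exact Nat.findGreatest_spec (P := fun r => r ^ K ≤ H) (Nat.zero_le H) h0

theorem lt_rt_succ (K H : ℕ) (hK : 1 ≤ K) : H < (rt K H + 1) ^ K := by
  by_contra hcon
  push Not at hcon
  have h1 : rt K H + 1 ≤ (rt K H + 1) ^ K := Nat.le_self_pow (by omega) _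
  have h2 : rt K H + 1 ≤ rt K H :=
    Nat.le_findGreatest (P := fun r => r ^ K ≤ H) (h1.trans hcon) hcon
  omega

theorem tendsto_rt (K : ℕ) (hK : 1 ≤ K) : Tendsto (fun H => rt K H) atTop atTop := by
  rw [tendsto_atTop]
  intro r
  filter_upwards [eventually_ge_atTop (r ^ K)] with H hH
  have h1 : r ≤ r ^ K := Nat.le_self_pow (by omega) _
  exact Nat.le_findGreatest (P := fun r => r ^ K ≤ H) (h1.trans hH) hH

theorem lt_two_pow (K H : ℕ) (hK : 1 ≤ K) (hr : 1 ≤ rt K H) :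
    (H : ℝ) ≤ 2 ^ K * (rt K H : ℝ) ^ K := by
  have h1 := lt_rt_succ K H hK
  have h2 : (rt K H + 1) ^ K ≤ (2 * rt K H) ^ K := Nat.pow_le_pow_left (by omega) _
  have h3 : (H : ℝ) ≤ (((2 * rt K H) ^ K : ℕ) : ℝ) := by exact_mod_cast (h1.le.trans h2)
  refine h3.trans (le_of_eq ?_)
  push_cast
  rw [mul_pow]

/-- The sizes of the blocks. -/
def XX {k : ℕ} (i₀ : Fin k) (b r : ℕ) (i : Fin k) : ℕ := if i = i₀ then r ^ (2 * b) else r ^ 4

theorem XX_self {k : ℕ} (i₀ : Fin k) (b r : ℕ) : XX i₀ b r i₀ = r ^ (2 * b) := by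
  unfold XX; rw [if_pos rfl]

theorem XX_ne {k : ℕ} (i₀ j : Fin k) (b r : ℕ) (hj : j ≠ i₀) : XX i₀ b r j = r ^ 4 := by
  unfold XX; rw [if_neg hj]

theorem one_le_XX {k : ℕ} (i₀ : Fin k) (b r : ℕ) (hr : 1 ≤ r) (i : Fin k) : 1 ≤ XX i₀ b r i := by
  unfold XX
  split_ifs
  · exact Nat.one_le_pow _ _ hr
  · exact Nat.one_le_pow _ _ hr

theorem prod_XX {k : ℕ} (i₀ : Fin k) (b r : ℕ) (d : Fin k → ℕ) :
    ∏ j ∈ univ.erase i₀, XX i₀ b r j ^ d j = r ^ (4 * ∑ j ∈ univ.erase i₀, d j) := by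
  rw [Finset.mul_sum, ← Finset.prod_pow_eq_pow_sum]
  apply Finset.prod_congr rfl
  intro j hj
  rw [XX_ne i₀ j b r (Finset.mem_erase.1 hj).1, ← pow_mul]

theorem Sz_XX {k : ℕ} (i₀ : Fin k) (b r : ℕ) (d : Fin k → ℕ) :
    Sz d (XX i₀ b r) = (r : ℝ) ^ (2 * b * d i₀ + 4 * ∑ j ∈ univ.erase i₀, d j) := by
  have h : ∏ i, XX i₀ b r i ^ d i = r ^ (2 * b * d i₀ + 4 * ∑ j ∈ univ.erase i₀, d j) := by
    rw [← Finset.mul_prod_erase univ (fun i => XX i₀ b r i ^ d i) (Finset.mem_univ i₀), prod_XX,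
      XX_self, ← pow_mul, ← pow_add]
  unfold Sz
  have h2 : ((∏ i, XX i₀ b r i ^ d i : ℕ) : ℝ) = ∏ i, (XX i₀ b r i : ℝ) ^ (d i) := by
    push_cast; rfl
  rw [← h2, h]
  push_cast; rfl

theorem VT_XX {k : ℕ} (i₀ : Fin k) (b r : ℕ) (n : Fin k → ℕ) :
    VT n (XX i₀ b r) i₀ = (r : ℝ) ^ (4 * ∑ j ∈ univ.erase i₀, (n j + 1)) := by
  have h := prod_XX i₀ b r (fun j => n j + 1)
  unfold VT
  have h2 : ((∏ j ∈ univ.erase i₀, XX i₀ b r j ^ (n j + 1) : ℕ) : ℝ) =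
      ∏ j ∈ univ.erase i₀, (XX i₀ b r j : ℝ) ^ (n j + 1) := by
    push_cast; rfl
  rw [← h2, h]
  push_cast; rfl

theorem NT_ge {k : ℕ} (i₀ : Fin k) (n : Fin k → ℕ) (hk : ∃ j, j ≠ i₀) (hn1 : ∀ i, 1 ≤ n i) :
    2 ≤ ∑ j ∈ univ.erase i₀, (n j + 1) := by
  obtain ⟨j, hj⟩ := hk
  have := Finset.single_le_sum (f := fun j => n j + 1) (fun i _ => Nat.zero_le _)
    (Finset.mem_erase.2 ⟨hj, Finset.mem_univ j⟩)
  have h2 := hn1 j
  beta_reduce at this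
  omega

/-- Real estimates for the error terms. -/
theorem err_est (r b n₀ d₀ D NT K : ℕ) (H : ℝ) (hr : 2 ≤ r) (hb : 12 ≤ b) (hn₀ : 2 ≤ n₀)
    (hd₀ : d₀ ≤ n₀) (hNT : 2 ≤ NT) (hK : K + 4 * D = 2 * (n₀ + 1 - d₀) * b + 5)
    (hH0 : 0 ≤ H) (hH : H ≤ 2 ^ K * (r : ℝ) ^ K) :
    (1 + Real.log (((r ^ 4 : ℕ) : ℝ))) / ((r ^ 4 : ℕ) : ℝ) ≤ 5 / r ∧
    ((r ^ 4 : ℕ) : ℝ) ^ 2 / ((r ^ (b - 1) : ℕ) : ℝ) ≤ 1 / r ∧
    ((r ^ 4 : ℕ) : ℝ) ^ 2 / ((r ^ (2 * b) : ℕ) : ℝ) ≤ 1 / r ∧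
    ((r ^ (2 * b) : ℕ) : ℝ) ^ 2 * ((1 + Real.log ((r ^ (2 * b) : ℕ) : ℝ)) *
      (((r ^ (2 * b) : ℕ) : ℝ) ^ (n₀ - 1) +
        (((r ^ (2 * b) : ℕ) : ℝ) / ((r ^ (b - 1) : ℕ) : ℝ)) ^ n₀)) /
      (((r ^ (2 * b) : ℕ) : ℝ) ^ (n₀ + 1) * (r : ℝ) ^ (4 * NT)) ≤ (2 * (2 * b + 1)) / r ∧
    (H * (r : ℝ) ^ (2 * b * d₀ + 4 * D)) /
      (((r ^ (2 * b) : ℕ) : ℝ) ^ (n₀ + 1) * (r : ℝ) ^ (4 * NT)) ≤ 2 ^ K / r := by
  push_cast
  have hr1 : (1 : ℝ) ≤ r := by exact_mod_cast (by omega : 1 ≤ r)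
  have hr0 : (0 : ℝ) < r := by linarith
  have hlog : Real.log r ≤ r := (Real.log_le_sub_one_of_pos hr0).trans (by linarith)
  have hlog0 : 0 ≤ Real.log r := Real.log_natCast_nonneg r
  have pl : ∀ a c : ℕ, a ≤ c → (r : ℝ) ^ a ≤ (r : ℝ) ^ c := fun a c h => pow_le_pow_right₀ hr1 h
  refine ⟨?_, ?_, ?_, ?_, ?_⟩
  · rw [Real.log_pow, div_le_div_iff₀ (by positivity) hr0]
    push_cast
    have h1 : 1 + 4 * Real.log r ≤ 5 * r := by linarith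
    calc (1 + 4 * Real.log r) * r ≤ (5 * r) * r := by gcongr
      _ = 5 * (r : ℝ) ^ 2 := by ring
      _ ≤ 5 * (r : ℝ) ^ 4 := by have := pl 2 4 (by norm_num); linarith
  · rw [div_le_div_iff₀ (by positivity) hr0, one_mul, ← pow_mul, ← pow_succ]
    exact pl _ _ (by omega)
  · rw [div_le_div_iff₀ (by positivity) hr0, one_mul, ← pow_mul, ← pow_succ]
    exact pl _ _ (by omega)
  · have e1 : ((r : ℝ) ^ (2 * b)) / (r : ℝ) ^ (b - 1) = (r : ℝ) ^ (b + 1) := by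
      rw [div_eq_iff (by positivity), ← pow_add]
      congr 1; omega
    rw [e1, Real.log_pow, div_le_div_iff₀ (by positivity) hr0]
    have h1 : 1 + ((2 * b : ℕ) : ℝ) * Real.log r ≤ (2 * b + 1) * r := by
      push_cast
      have : (2 * (b : ℝ)) * Real.log r ≤ (2 * b) * r := mul_le_mul_of_nonneg_left hlog (by positivity)
      linarith
    have h2 : ((r : ℝ) ^ (2 * b)) ^ 2 * (((r : ℝ) ^ (2 * b)) ^ (n₀ - 1) + ((r : ℝ) ^ (b + 1)) ^ n₀) ≤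
        2 * (r : ℝ) ^ (2 * b * (n₀ + 1) + 2) := by
      rw [mul_add, ← pow_mul, ← pow_mul, ← pow_mul, ← pow_add, ← pow_add]
      have a1 : (r : ℝ) ^ (2 * b * 2 + 2 * b * (n₀ - 1)) ≤ (r : ℝ) ^ (2 * b * (n₀ + 1) + 2) := by
        apply pl
        have : 2 * b * 2 + 2 * b * (n₀ - 1) = 2 * b * (n₀ + 1) := by
          rw [← mul_add]; congr 1; omega
        omega
      have a2 : (r : ℝ) ^ (2 * b * 2 + (b + 1) * n₀) ≤ (r : ℝ) ^ (2 * b * (n₀ + 1) + 2) := by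
        apply pl
        obtain ⟨t, rfl⟩ : ∃ t, n₀ = t + 2 := ⟨n₀ - 2, by omega⟩
        obtain ⟨u, rfl⟩ : ∃ u, b = u + 1 := ⟨b - 1, by omega⟩
        have hh : 2 * (u + 1) * (t + 2 + 1) + 2 = 2 * (u + 1) * 2 + (u + 1 + 1) * (t + 2) + u * t := by
          ring
        rw [hh]; exact Nat.le_add_right _ _
      linarith
    have h3 : (0 : ℝ) ≤ 1 + ((2 * b : ℕ) : ℝ) * Real.log r := by positivity
    calc ((r : ℝ) ^ (2 * b)) ^ 2 * ((1 + ((2 * b : ℕ) : ℝ) * Real.log r) *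
          (((r : ℝ) ^ (2 * b)) ^ (n₀ - 1) + ((r : ℝ) ^ (b + 1)) ^ n₀)) * r
        = (1 + ((2 * b : ℕ) : ℝ) * Real.log r) * (((r : ℝ) ^ (2 * b)) ^ 2 *
          (((r : ℝ) ^ (2 * b)) ^ (n₀ - 1) + ((r : ℝ) ^ (b + 1)) ^ n₀)) * r := by ring
      _ ≤ ((2 * b + 1) * r) * (2 * (r : ℝ) ^ (2 * b * (n₀ + 1) + 2)) * r := by gcongr
      _ = (2 * (2 * b + 1)) * (r : ℝ) ^ (2 * b * (n₀ + 1) + 4) := by ring
      _ ≤ (2 * (2 * b + 1)) * (r : ℝ) ^ (2 * b * (n₀ + 1) + 4 * NT) := by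
          apply mul_le_mul_of_nonneg_left _ (by positivity)
          exact pl _ _ (by omega)
      _ = _ := by rw [pow_add, pow_mul]
  · rw [div_le_div_iff₀ (by positivity) hr0]
    have hK2 : K + (2 * b * d₀ + 4 * D) = 2 * b * (n₀ + 1) + 5 := by
      obtain ⟨e, he⟩ : ∃ e, n₀ + 1 = d₀ + e := ⟨n₀ + 1 - d₀, by omega⟩
      have he' : n₀ + 1 - d₀ = e := by omega
      rw [he'] at hK
      rw [he]
      calc K + (2 * b * d₀ + 4 * D) = (K + 4 * D) + 2 * b * d₀ := by ring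
        _ = 2 * e * b + 5 + 2 * b * d₀ := by rw [hK]
        _ = _ := by ring
    calc H * (r : ℝ) ^ (2 * b * d₀ + 4 * D) * r
        ≤ (2 ^ K * (r : ℝ) ^ K) * (r : ℝ) ^ (2 * b * d₀ + 4 * D) * r := by gcongr
      _ = 2 ^ K * (r : ℝ) ^ (K + (2 * b * d₀ + 4 * D) + 1) := by ring
      _ = 2 ^ K * (r : ℝ) ^ (2 * b * (n₀ + 1) + 5 + 1) := by rw [hK2]
      _ ≤ 2 ^ K * (r : ℝ) ^ (2 * b * (n₀ + 1) + 4 * NT) := by
          apply mul_le_mul_of_nonneg_left _ (by positivity)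
          exact pl _ _ (by omega)
      _ = _ := by rw [pow_add, pow_mul]

theorem clause3 {k : ℕ} (n : Fin k → ℕ) (i₀ : Fin k) (hn : 2 ≤ n i₀) :
    ∃ C : ℝ, 0 < C ∧ ∀ b r : ℕ, 12 ≤ b → 2 ≤ r → ∀ F : Finset (Pt n ℤ),
    (∀ P ∈ F, Shell (XX i₀ b r) P ∧ (∀ i, Umod (P i)) ∧
      P ∉ PP n (XX i₀ b r) i₀ (r ^ (b - 1))) → (F.card : ℝ) ≤ C / r * Vol n (XX i₀ b r) := by
  classical
  obtain ⟨Cg, hCg, hg⟩ := goodcount (n i₀) (by omega)
  have hc3 := one_le_c3 n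
  refine ⟨Cg * c3 n, by positivity, ?_⟩
  intro b r hb hr F hF
  set X := XX i₀ b r with hX
  have hX1 : ∀ i, 1 ≤ X i := one_le_XX i₀ b r (by omega)
  let G : (i : Fin k) → Finset (Fin (n i + 1) → ℤ) := fun i =>
    (box (Fin (n i + 1)) (X i)).filter fun x =>
      i = i₀ → (X i < 2 * nrm x ∧ nrm x ≤ X i ∧ Umod x ∧ ¬ Sep (r ^ (b - 1)) x)
  have h1 : F ⊆ Fintype.piFinset G := by
    intro P hP
    obtain ⟨h1, h2, h3⟩ := hF P hP
    rw [Fintype.mem_piFinset]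
    intro i
    rw [Finset.mem_filter, mem_box]
    refine ⟨(nrm_le_iff _ _).1 (h1 i).2, ?_⟩
    rintro rfl
    refine ⟨(h1 i).1, (h1 i).2, h2 i, ?_⟩
    intro hs
    exact h3 ((mem_PP _ _ _ _ _).2 ⟨h1, h2, hs⟩)
  have h2 : (F.card : ℝ) ≤ ∏ i, ((G i).card : ℝ) := by
    have : F.card ≤ ∏ i, (G i).card := by
      rw [← Fintype.card_piFinset]
      exact Finset.card_le_card h1
    exact_mod_cast this
  have h3 : ∏ i, ((G i).card : ℝ) = ((G i₀).card : ℝ) * ∏ i ∈ univ.erase i₀, ((G i).card : ℝ) := by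
    rw [Finset.mul_prod_erase univ (fun i => ((G i).card : ℝ)) (Finset.mem_univ i₀)]
  have h4 : ((G i₀).card : ℝ) ≤ Cg * (X i₀ : ℝ) ^ 2 * ((r ^ (b - 1) : ℕ) : ℝ) ^ (n i₀) := by
    apply hg (X i₀) (r ^ (b - 1)) (Nat.one_le_pow _ _ (by omega))
    · rw [hX, XX_self]
      calc 2 * r ^ (b - 1) ≤ r * r ^ (b - 1) := Nat.mul_le_mul_right _ hr
        _ = r ^ (b - 1 + 1) := by rw [pow_succ]; ring
        _ ≤ r ^ (2 * b) := Nat.pow_le_pow_right (by omega) (by omega)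
    · intro x hx
      rw [Finset.mem_filter] at hx
      exact hx.2 rfl
  have h5 : ∏ i ∈ univ.erase i₀, ((G i).card : ℝ) ≤ c3 n * VT n X i₀ := by
    have h6 : ∀ i, ((G i).card : ℝ) ≤ (3 : ℝ) ^ (n i + 1) * (X i : ℝ) ^ (n i + 1) := by
      intro i
      have h7 : (G i).card ≤ (2 * X i + 1) ^ (n i + 1) := by
        refine (Finset.card_filter_le _ _).trans ?_
        rw [card_box, Fintype.card_fin]
      have h8 : (2 * X i + 1) ^ (n i + 1) ≤ (3 * X i) ^ (n i + 1) :=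
        Nat.pow_le_pow_left (by have := hX1 i; omega) _
      have h9 : ((G i).card : ℝ) ≤ (((3 * X i) ^ (n i + 1) : ℕ) : ℝ) := by
        exact_mod_cast h7.trans h8
      refine h9.trans (le_of_eq ?_)
      push_cast
      rw [mul_pow]
    calc ∏ i ∈ univ.erase i₀, ((G i).card : ℝ)
        ≤ ∏ i ∈ univ.erase i₀, ((3 : ℝ) ^ (n i + 1) * (X i : ℝ) ^ (n i + 1)) :=
          Finset.prod_le_prod (fun i _ => by positivity) (fun i _ => h6 i)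
      _ = (∏ i ∈ univ.erase i₀, (3 : ℝ) ^ (n i + 1)) * VT n X i₀ := by
          rw [Finset.prod_mul_distrib]; rfl
      _ ≤ c3 n * VT n X i₀ := by
          apply mul_le_mul_of_nonneg_right _ (VT_nonneg n X i₀)
          unfold c3
          have h : ∏ l ∈ univ.erase i₀, 3 ^ (n l + 1) ≤ ∏ l, 3 ^ (n l + 1) :=
            Finset.prod_le_prod_of_subset_of_one_le' (Finset.subset_univ _)
              (fun i _ _ => Nat.one_le_pow _ _ (by norm_num))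
          exact_mod_cast h
  have hr0 : (0 : ℝ) < r := by exact_mod_cast (by omega : 0 < r)
  have hr1 : (1 : ℝ) ≤ r := by exact_mod_cast (by omega : 1 ≤ r)
  have h6 : (X i₀ : ℝ) ^ 2 * ((r ^ (b - 1) : ℕ) : ℝ) ^ (n i₀) ≤ (1 / r) * (X i₀ : ℝ) ^ (n i₀ + 1) := by
    rw [hX, XX_self]
    push_cast
    rw [one_div, inv_mul_eq_div, le_div_iff₀ hr0, ← pow_mul, ← pow_mul, ← pow_mul, ← pow_add,
      ← pow_succ]
    apply pow_le_pow_right₀ hr1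
    obtain ⟨t, ht⟩ : ∃ t, n i₀ = t + 2 := ⟨n i₀ - 2, by omega⟩
    obtain ⟨u, rfl⟩ : ∃ u, b = u + 1 := ⟨b - 1, by omega⟩
    rw [ht]
    have : 2 * (u + 1) * (t + 2 + 1) = 2 * (u + 1) * 2 + (u + 1 - 1) * (t + 2) + 1 +
        (u * t + 2 * t + 1) := by
      simp only [Nat.add_sub_cancel]
      ring
    rw [this]
    exact Nat.le_add_right _ _
  calc (F.card : ℝ) ≤ ((G i₀).card : ℝ) * ∏ i ∈ univ.erase i₀, ((G i).card : ℝ) := h3 ▸ h2
    _ ≤ (Cg * (X i₀ : ℝ) ^ 2 * ((r ^ (b - 1) : ℕ) : ℝ) ^ (n i₀)) * (c3 n * VT n X i₀) := by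
        apply mul_le_mul h4 h5
        · exact Finset.prod_nonneg (fun i _ => by positivity)
        · positivity
    _ = Cg * c3 n * VT n X i₀ * ((X i₀ : ℝ) ^ 2 * ((r ^ (b - 1) : ℕ) : ℝ) ^ (n i₀)) := by ring
    _ ≤ Cg * c3 n * VT n X i₀ * ((1 / r) * (X i₀ : ℝ) ^ (n i₀ + 1)) := by
        apply mul_le_mul_of_nonneg_left h6
        have := VT_nonneg n X i₀
        positivity
    _ = _ := by rw [Vol_eq n X i₀]; ring

theorem span_ineq (r b : ℕ) (hr : 2 ≤ r) (hb : 12 ≤ b) :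
    ((r ^ (2 * b) : ℕ) : ℝ) * (((r ^ (2 * b) : ℕ) : ℝ) / ((r ^ (b - 1) : ℕ) : ℝ)) ^ (2 * b + 1) <
      ((r ^ (b + 2) : ℕ) : ℝ) ^ (2 * b + 1) := by
  have hr0 : (0 : ℝ) < r := by exact_mod_cast (by omega : 0 < r)
  push_cast
  have e1 : ((r : ℝ) ^ (2 * b)) / (r : ℝ) ^ (b - 1) = (r : ℝ) ^ (b + 1) := by
    rw [div_eq_iff (by positivity), ← pow_add]
    congr 1; omega
  rw [e1, ← pow_mul, ← pow_mul, ← pow_add]
  apply pow_lt_pow_right₀ (by exact_mod_cast (by omega : 1 < r))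
  have : (b + 2) * (2 * b + 1) = 2 * b + (b + 1) * (2 * b + 1) + 1 := by ring
  omega

end VB

theorem varB {k : ℕ} (n d : Fin k → ℕ) (i₀ : Fin k) (hk : ∃ j, j ≠ i₀) (hn1 : ∀ i, 1 ≤ n i)
    (hd1 : ∀ i, 1 ≤ d i) (hn : 2 ≤ n i₀) (hd : 2 ≤ d i₀) (hdn : d i₀ ≤ n i₀) :
    VarProp n d := by
  classical
  open VB in
  obtain ⟨c₆, hc₆, Ks, hKs, Cs, hCs, hst⟩ := static n d i₀ hn1 hd1 hn hd
  obtain ⟨Cc, hCc, hcv⟩ := cov2_blocks n d i₀ hd1
  obtain ⟨C3, hC3, hcl3⟩ := VB.clause3 n i₀ hn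
  set D := ∑ j ∈ univ.erase i₀, d j with hD
  set NT := ∑ j ∈ univ.erase i₀, (n j + 1) with hNT
  have hNT2 : 2 ≤ NT := VB.NT_ge i₀ n hk hn1
  set b := 4 * Cc + 4 * D + 12 with hb
  have hb12 : 12 ≤ b := by omega
  set e := n i₀ + 1 - d i₀ with he
  have he1 : 1 ≤ e := by omega
  have hbe : b ≤ e * b := Nat.le_mul_of_pos_left b he1
  set K := 2 * e * b + 5 - 4 * D with hKdef
  have heb : 2 * e * b = 2 * (e * b) := by ring
  have hK4 : K + 4 * D = 2 * e * b + 5 := by omega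
  have hK1 : 1 ≤ K := by omega
  have hKb : b + 4 * Cc + 17 ≤ K := by omega
  have hrt := VB.tendsto_rt K hK1
  refine ⟨fun H => VB.XX i₀ b (VB.rt K H), fun H => VB.PP n (VB.XX i₀ b (VB.rt K H)) i₀
    ((VB.rt K H) ^ (b - 1)), ?_, ?_, ?_, ?_⟩
  · intro i
    by_cases hi : i = i₀
    · subst hi
      simp only [VB.XX_self]
      exact (tendsto_pow_atTop (by omega)).comp hrt
    · simp only [VB.XX_ne i₀ i b _ hi]
      exact (tendsto_pow_atTop (by omega)).comp hrt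
  · intro H P hP
    have := (VB.mem_PP _ _ _ _ _).1 hP
    exact ⟨this.1, this.2.1⟩
  · intro ε hε
    filter_upwards [hrt.eventually_ge_atTop (max 2 ⌈C3 / ε⌉₊)] with H hH F hF
    have hr2 : 2 ≤ VB.rt K H := le_trans (le_max_left _ _) hH
    have hr3 : C3 / ε ≤ VB.rt K H := (Nat.le_ceil _).trans
      (by exact_mod_cast le_trans (le_max_right _ _) hH)
    refine (hcl3 b (VB.rt K H) hb12 hr2 F hF).trans ?_
    have hr0 : (0 : ℝ) < VB.rt K H := by exact_mod_cast (by omega : 0 < VB.rt K H)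
    have hV : 0 ≤ Vol n (VB.XX i₀ b (VB.rt K H)) := by
      unfold Vol
      exact Finset.prod_nonneg (fun i _ => by positivity)
    apply mul_le_mul_of_nonneg_right _ hV
    rw [div_le_iff₀ hr0]
    rw [div_le_iff₀ hε] at hr3
    linarith
  · intro ε hε
    set κ : ℝ := ε / (4 * Ks) with hκ
    have hκ0 : 0 < κ := by rw [hκ]; positivity
    set ε' : ℝ := min 1 κ with hε'
    have hε'0 : 0 < ε' := lt_min one_pos hκ0
    set θ : ℝ := min 1 κ with hθ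
    have hθ0 : 0 < θ := lt_min one_pos hκ0
    obtain ⟨δ₀, hδ₀, hgp⟩ := goodpair (Fintype.card (Exps n d)) ε' (c₆ * θ) hε'0 (by positivity)
    refine ⟨⌈1 / κ⌉₊ + 1, δ₀, hδ₀, ?_⟩
    set w := ⌈1 / κ⌉₊ + 1 with hw
    intro W hW hWd δ hδ hδ'
    obtain ⟨H₀, ρ₀, hρ₀, hgp'⟩ := hgp δ hδ hδ' W hW
    set cμ : ℕ := (n i₀ + 1) * (2 * (2 * b + 1) + 1) with hcμ
    set R₀ : ℝ := Cs + Cs * cμ ^ 2 + Cc * cμ / ρ₀ + Cc * cμ +
      (5 + 1 + 1 + 2 * (2 * b + 1) + 2 ^ K) / κ with hR₀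
    filter_upwards [hrt.eventually_ge_atTop (max 2 ⌈R₀⌉₊),
      eventually_ge_atTop (max H₀ ⌈(W : ℝ) / δ⌉₊), eventually_ge_atTop 1] with H hH1 hH2 hH3
    set r := VB.rt K H with hr
    have hr2 : 2 ≤ r := le_trans (le_max_left _ _) hH1
    have hrR : R₀ ≤ r := (Nat.le_ceil _).trans (by exact_mod_cast le_trans (le_max_right _ _) hH1)
    have hH₀ : H₀ ≤ H := le_trans (le_max_left _ _) hH2
    have hHW : (W : ℝ) / δ ≤ H := (Nat.le_ceil _).trans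
      (by exact_mod_cast le_trans (le_max_right _ _) hH2)
    have hrK : r ^ K ≤ H := VB.rt_pow_le K H hK1
    have hHr : (H : ℝ) ≤ 2 ^ K * (r : ℝ) ^ K := VB.lt_two_pow K H hK1 (by omega)
    have hr1 : (1 : ℝ) ≤ r := by exact_mod_cast (by omega : 1 ≤ r)
    have hr0 : (0 : ℝ) < r := by linarith
    have p1 : (0 : ℝ) ≤ Cs := by positivity
    have p2 : (0 : ℝ) ≤ Cs * cμ ^ 2 := by positivity
    have p3 : (0 : ℝ) ≤ Cc * cμ / ρ₀ := by positivity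
    have p4 : (0 : ℝ) ≤ (Cc : ℝ) * cμ := by positivity
    have p5 : (0 : ℝ) ≤ (5 + 1 + 1 + 2 * (2 * b + 1) + 2 ^ K) / κ := by positivity
    have r1 : (Cs : ℝ) ≤ r := by linarith
    have r2 : (Cs * cμ ^ 2 : ℝ) ≤ r := by linarith
    have r3 : Cc * cμ / ρ₀ ≤ r := by linarith
    have r4 : (Cc : ℝ) * cμ ≤ r := by linarith
    have r5 : (5 + 1 + 1 + 2 * (2 * b + 1) + 2 ^ K) / κ ≤ r := by linarith
    have r1' : Cs ≤ r := by exact_mod_cast r1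
    have r2' : Cs * cμ ^ 2 ≤ r := by exact_mod_cast r2
    have r4' : Cc * cμ ≤ r := by exact_mod_cast r4
    set m := r ^ (b + 2) with hm
    set μ := (n i₀ + 1) * (2 * (2 * b + 1) * m + 1) with hμ
    have hm1 : 1 ≤ m := Nat.one_le_pow _ _ (by omega)
    have hμ1 : 1 ≤ μ := Nat.one_le_iff_ne_zero.2 (by positivity)
    have hμ2 : μ ≤ cμ * r ^ (b + 2) := by
      calc μ = (n i₀ + 1) * (2 * (2 * b + 1) * m + 1) := hμ
        _ ≤ (n i₀ + 1) * (2 * (2 * b + 1) * m + m) :=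
            Nat.mul_le_mul_left _ (Nat.add_le_add_left hm1 _)
        _ = cμ * r ^ (b + 2) := by rw [hcμ, ← hm]; ring
    set X := VB.XX i₀ b r with hX
    have hX1 : ∀ i, 1 ≤ X i := VB.one_le_XX i₀ b r (by omega)
    set T := r ^ 4 with hT
    have hXT : ∀ j, j ≠ i₀ → X j = T := fun j hj => VB.XX_ne i₀ j b r hj
    have hT1 : 1 ≤ T := Nat.one_le_pow _ _ (by omega)
    set Δ := r ^ (b - 1) with hΔ
    have hΔ1 : 1 ≤ Δ := Nat.one_le_pow _ _ (by omega)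
    set ρ := Cc * T ^ Cc * μ with hρ
    have hρ1 : ρ ≤ Cc * cμ * r ^ (K - 1) := by
      rw [hρ]
      calc Cc * T ^ Cc * μ ≤ Cc * T ^ Cc * (cμ * r ^ (b + 2)) := Nat.mul_le_mul_left _ hμ2
        _ = Cc * cμ * r ^ (4 * Cc + (b + 2)) := by rw [hT, ← pow_mul, pow_add]; ring
        _ ≤ Cc * cμ * r ^ (K - 1) := by
            apply Nat.mul_le_mul_left
            exact Nat.pow_le_pow_right (by omega) (by omega)
    have hrK' : r * r ^ (K - 1) = r ^ K := by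
      rw [← pow_succ']; congr 1; omega
    have hρH : ρ ≤ H := by
      calc ρ ≤ Cc * cμ * r ^ (K - 1) := hρ1
        _ ≤ r * r ^ (K - 1) := Nat.mul_le_mul_right _ r4'
        _ = r ^ K := hrK'
        _ ≤ H := hrK
    have hρH' : (ρ : ℝ) ≤ ρ₀ * H := by
      have h1 : (ρ : ℝ) ≤ (Cc * cμ : ℝ) * (r : ℝ) ^ (K - 1) := by exact_mod_cast hρ1
      have h2 : (Cc * cμ : ℝ) ≤ ρ₀ * r := by
        rw [div_le_iff₀ hρ₀] at r3
        linarith
      have h3 : (r : ℝ) * (r : ℝ) ^ (K - 1) = (r : ℝ) ^ K := by exact_mod_cast hrK'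
      have h4 : (r : ℝ) ^ K ≤ H := by exact_mod_cast hrK
      calc (ρ : ℝ) ≤ (Cc * cμ : ℝ) * (r : ℝ) ^ (K - 1) := h1
        _ ≤ (ρ₀ * r) * (r : ℝ) ^ (K - 1) := mul_le_mul_of_nonneg_right h2 (by positivity)
        _ = ρ₀ * ((r : ℝ) * (r : ℝ) ^ (K - 1)) := by ring
        _ = ρ₀ * (r : ℝ) ^ K := by rw [h3]
        _ ≤ ρ₀ * H := mul_le_mul_of_nonneg_left h4 hρ₀.le
    have hS1 : 1 ≤ Sz d X := VB.Sz_pos d X hX1
    have hHr1 : (1 : ℝ) ≤ H := by exact_mod_cast hH3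
    have hWV : (W : ℝ) ≤ δ * H * Sz d X := by
      rw [div_le_iff₀ hδ] at hHW
      calc (W : ℝ) ≤ H * δ := hHW
        _ = (δ * H) * 1 := by ring
        _ ≤ (δ * H) * Sz d X := mul_le_mul_of_nonneg_left hS1 (by positivity)
    have hw1 : 1 ≤ w := by omega
    have hprod : ∏ j ∈ univ.erase i₀, X j ^ d j = r ^ (4 * D) := VB.prod_XX i₀ b r d
    have hspan : ∀ x ∈ VB.FF n X i₀ Δ i₀, GoodSpan μ x := by
      intro x hx
      have hx' := (VB.mem_FF n X i₀ Δ i₀ x).1 hx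
      apply goodspan_of_sep (n i₀) (2 * b + 1) m Δ (X i₀) (by omega) x hx'.1.2.2 hΔ1 (hx'.2 rfl)
        hx'.1.2.1 hm1
      rw [hX, VB.XX_self, hΔ, hm]
      exact VB.span_ineq r b hr2 hb12
    have hcov : ∀ P ∈ VB.PP n X i₀ Δ, ∀ P' ∈ VB.PP n X i₀ Δ,
        (∃ j, j ≠ i₀ ∧ wd (P j) (P' j) ≠ 0) →
        Cov2 ρ (fun s : Exps n d => mono s P) (fun s => mono s P') := by
      intro P hP P' hP' hj
      have a := (VB.mem_PP _ _ _ _ _).1 hP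
      have a' := (VB.mem_PP _ _ _ _ _).1 hP'
      refine hcv μ T P P' hμ1 hT1 ?_ a.2.1 a'.2.1 (hspan _ ?_) (hspan _ ?_) hj
      · intro i hi
        have h1 := (a.1 i).2
        have h2 := (a'.1 i).2
        rw [hXT i hi] at h1 h2
        exact ⟨h1, h2⟩
      · unfold VB.PP at hP
        rw [Fintype.mem_piFinset] at hP
        exact hP i₀
      · unfold VB.PP at hP'
        rw [Fintype.mem_piFinset] at hP'
        exact hP' i₀
    have hmain := hst X T Δ H μ ρ W w (δ * H * Sz d X) θ ε' hX1 hXT hT1 hΔ1 hH3 hμ1 hρH hW hWV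
      hw1 hθ0.le (min_le_left _ _) hε'0.le (min_le_left _ _)
      (by
        rw [hprod]
        calc Cs * r ^ (4 * D) ≤ r * r ^ (4 * D) := Nat.mul_le_mul_right _ r1'
          _ = r ^ (4 * D + 1) := by rw [pow_succ]; ring
          _ ≤ r ^ K := Nat.pow_le_pow_right (by omega) (by omega)
          _ ≤ H := hrK)
      (by
        rw [hprod]
        calc Cs * μ ^ 2 ≤ Cs * (cμ * r ^ (b + 2)) ^ 2 :=
              Nat.mul_le_mul_left _ (Nat.pow_le_pow_left hμ2 2)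
          _ = (Cs * cμ ^ 2) * r ^ (2 * b + 4) := by rw [mul_pow, ← pow_mul]; ring
          _ ≤ r * r ^ (2 * b + 4) := Nat.mul_le_mul_right _ r2'
          _ = r ^ (2 * b + 5) := by rw [← pow_succ']
          _ ≤ r ^ (K + 4 * D) := Nat.pow_le_pow_right (by omega) (by omega)
          _ = r ^ K * r ^ (4 * D) := pow_add _ _ _
          _ ≤ H * r ^ (4 * D) := Nat.mul_le_mul_right _ hrK)
      hspan hcov hWd
      (by
        intro m₁ m₂ s s' h1 h2 h3 h4 h5 h6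
        exact hgp' (Exps n d) rfl m₁ m₂ (Sz d X) H ρ s s' hS1 h1 h2 hH₀ hρH' h3 h4 h5 h6)
    refine hmain.trans ?_
    obtain ⟨t1, t2, t3, t4, t5⟩ := VB.err_est r b (n i₀) (d i₀) D NT K H hr2 hb12 hn hdn hNT2
      hK4 (by linarith) hHr
    have hVol : Vol n X = (((r ^ (2 * b) : ℕ) : ℝ) ^ (n i₀ + 1) * (r : ℝ) ^ (4 * NT)) := by
      rw [VB.Vol_eq n X i₀, hX, VB.XX_self, VB.VT_XX]
    have hX0 : ((X i₀ : ℕ) : ℝ) = ((r ^ (2 * b) : ℕ) : ℝ) := by rw [hX, VB.XX_self]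
    have hSz : Sz d X = (r : ℝ) ^ (2 * b * d i₀ + 4 * D) := VB.Sz_XX i₀ b r d
    rw [← hVol, ← hX0] at t4
    rw [← hVol, ← hSz] at t5
    rw [← hX0] at t3
    have hw' : 1 / (w : ℝ) ≤ κ := by
      have h1 : 1 / κ ≤ w := by
        refine (Nat.le_ceil _).trans ?_
        rw [hw]; push_cast; linarith
      have hw0 : (0 : ℝ) < w := by exact_mod_cast (by omega : 0 < w)
      rw [div_le_iff₀ hw0]
      rw [div_le_iff₀ hκ0] at h1
      linarith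
    have hsum : ε' + (1 / w + θ + (1 + Real.log T) / T) + (T : ℝ) ^ 2 / Δ + (T : ℝ) ^ 2 / X i₀ +
        (X i₀ : ℝ) ^ 2 * ((1 + Real.log (X i₀)) * ((X i₀ : ℝ) ^ (n i₀ - 1) +
          ((X i₀ : ℝ) / Δ) ^ n i₀)) / Vol n X + (H * Sz d X) / Vol n X ≤ 4 * κ := by
      have h1 : ε' ≤ κ := min_le_right _ _
      have h2 : θ ≤ κ := min_le_right _ _
      have h3 : 5 / (r : ℝ) + 1 / r + 1 / r + (2 * (2 * b + 1)) / r + 2 ^ K / r ≤ κ := by
        have : 5 / (r : ℝ) + 1 / r + 1 / r + (2 * (2 * b + 1)) / r + 2 ^ K / r =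
            (5 + 1 + 1 + 2 * (2 * b + 1) + 2 ^ K) / r := by ring
        rw [this, div_le_iff₀ hr0]
        rw [div_le_iff₀ hκ0] at r5
        linarith
      linarith
    have hq : 0 ≤ Ks * (2 * (H : ℝ) + 1) ^ Fintype.card (Exps n d) *
        (Vol n X / (H * Sz d X)) ^ 2 := by positivity
    calc _ ≤ Ks * (2 * (H : ℝ) + 1) ^ Fintype.card (Exps n d) *
        (Vol n X / (H * Sz d X)) ^ 2 * (4 * κ) := mul_le_mul_of_nonneg_left hsum hq
      _ = ε * EE n d X H ^ 2 * (2 * (H : ℝ) + 1) ^ Fintype.card (Exps n d) := by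
          rw [hκ]
          unfold EE
          field_simp

end Pool.Agent.HP
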