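import Pool.Agent.Lib.MP_fc0680_nt.VarA
import Pool.Agent.Lib.MP_fc0680_nt.VarB
import Pool.Agent.Lib.MP_fc0680_nt.LocE
import Pool.Agent.Lib.MP_fc0680_nt.ConicB
import Pool.Agent.Lib.MP_fc0680_nt.Transl

set_option autoImplicit false
open Finset Filter

namespace Pool.Agent.HP

theorem mono_smul_cast {k : ℕ} {n d : Fin k → ℕ} {R S : Type} [CommRing R] [CommRing S]
    (f : R →+* S) (s : Exps n d) (P : Pt n R) :
    f (mono s P) = mono s (fun i j => f (P i j)) := by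
  unfold mono bm
  rw [map_prod]
  refine Finset.prod_congr rfl fun i _ => ?_
  rw [map_prod]
  refine Finset.prod_congr rfl fun j _ => ?_
  rw [map_pow]

theorem evZ_cast {k : ℕ} {n d : Fin k → ℕ} {R S : Type} [CommRing R] [CommRing S]
    (f : R →+* S) (c : Exps n d → ℤ) (P : Pt n R) :
    f (evZ c P) = evZ c (fun i j => f (P i j)) := by
  unfold evZ ev
  rw [map_sum]
  refine Finset.sum_congr rfl fun s _ => ?_
  rw [map_mul, mono_smul_cast, map_intCast]

theorem umod_ne_zero {N : ℕ} (x : Fin N → ℤ) (h : Umod x) : ∃ j, x j ≠ 0 := by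
  by_contra hcon
  push Not at hcon
  obtain ⟨e, he⟩ := h
  simp [hcon] at he

theorem ratSol_of_int {k : ℕ} {n d : Fin k → ℕ} (c : Exps n d → ℤ) (P : Pt n ℤ)
    (hP : ∀ i, Umod (P i)) (h : evZ c P = (0 : ℤ)) : RatSol c := by
  refine ⟨fun i j => (P i j : ℚ), fun i => ?_, ?_⟩
  · obtain ⟨j, hj⟩ := umod_ne_zero (P i) (hP i)
    exact ⟨j, Int.cast_ne_zero.2 hj⟩
  · have := evZ_cast (Int.castRingHom ℚ) c P
    rw [h, map_zero] at this
    simpa using this.symm

theorem els_of_ratSol {k : ℕ} {n d : Fin k → ℕ} (c : Exps n d → ℤ) (h : RatSol c) : ELS c := by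
  obtain ⟨P, hP, h0⟩ := h
  refine ⟨⟨fun i j => (P i j : ℝ), fun i => ?_, ?_⟩, fun p hp => ⟨fun i j => (P i j : ℚ_[p]),
    fun i => ?_, ?_⟩⟩
  · obtain ⟨j, hj⟩ := hP i
    exact ⟨j, Rat.cast_ne_zero.2 hj⟩
  · have := evZ_cast (Rat.castHom ℝ) c P
    rw [h0, map_zero] at this
    simpa using this.symm
  · obtain ⟨j, hj⟩ := hP i
    exact ⟨j, Rat.cast_ne_zero.2 hj⟩
  · have := evZ_cast (Rat.castHom ℚ_[p]) c P
    rw [h0, map_zero] at this
    simpa using this.symm

open Classical in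
theorem nn_eq_zero {k : ℕ} {n d : Fin k → ℕ} (Ps : Finset (Pt n ℤ)) (c : Exps n d → ℤ)
    (hP : ∀ P ∈ Ps, ∀ i, Umod (P i)) (h : ¬ RatSol c) : Nn Ps c = 0 := by
  unfold Nn
  have : (Ps.filter fun P => evZ c P = (0 : ℤ)) = ∅ := by
    rw [Finset.filter_eq_empty_iff]
    intro P hPs h0
    exact h (ratSol_of_int c P (hP P hPs) h0)
  rw [this]
  simp

theorem cheb {k : ℕ} {n d : Fin k → ℕ} (Ps : Finset (Pt n ℤ)) (H W : ℕ) (V τ A : ℝ)
    (hvar : ∑ c ∈ box (Exps n d) H, (Nn Ps c - Nl Ps W V c) ^ 2 ≤ A) (hτ : 0 ≤ τ)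
    (F : Finset (Exps n d → ℤ)) (hF : F ⊆ box (Exps n d) H)
    (hF2 : ∀ c ∈ F, τ ≤ Nl Ps W V c ∧ Nn Ps c = 0) : (F.card : ℝ) * τ ^ 2 ≤ A := by
  refine le_trans ?_ hvar
  calc (F.card : ℝ) * τ ^ 2 = ∑ c ∈ F, τ ^ 2 := by simp
    _ ≤ ∑ c ∈ F, (Nn Ps c - Nl Ps W V c) ^ 2 := by
        refine Finset.sum_le_sum fun c hc => ?_
        obtain ⟨h1, h2⟩ := hF2 c hc
        rw [h2]
        nlinarith
    _ ≤ _ := Finset.sum_le_sum_of_subset_of_nonneg hF fun c _ _ => sq_nonneg _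

theorem EE_pos {k : ℕ} {n d : Fin k → ℕ} (X : Fin k → ℕ) (H : ℕ) (hX : ∀ i, 1 ≤ X i)
    (hH : 1 ≤ H) : 0 < EE n d X H := by
  unfold EE Vol Sz
  have h1 : ∀ i, (0 : ℝ) < (X i : ℝ) := fun i => by exact_mod_cast hX i
  have hH' : (0 : ℝ) < H := by exact_mod_cast hH
  have h2 : (0 : ℝ) < ∏ i, (X i : ℝ) ^ (n i + 1) := Finset.prod_pos fun i _ => pow_pos (h1 i) _
  have h3 : (0 : ℝ) < ∏ i, (X i : ℝ) ^ (d i) := Finset.prod_pos fun i _ => pow_pos (h1 i) _
  positivity

theorem tendsto_ratio (a b t : ℕ → ℝ) (c₄ : ℝ) (hc : 0 < c₄) (hb : ∀ᶠ H in atTop, c₄ * t H ≤ b H)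
    (ht : ∀ H, 0 < t H) (hab : ∀ H, a H ≤ b H)
    (h : ∀ η : ℝ, 0 < η → ∀ᶠ H in atTop, b H - a H ≤ η * t H) :
    Tendsto (fun H => a H / b H) atTop (nhds 1) := by
  rw [Metric.tendsto_atTop']
  intro ε hε
  have h2 := h (ε * c₄ / 2) (by positivity)
  obtain ⟨N, hN⟩ := (hb.and h2).exists_forall_of_atTop
  refine ⟨N, fun H hH => ?_⟩
  obtain ⟨h3, h4⟩ := hN H hH.le
  have hbp : 0 < b H := lt_of_lt_of_le (mul_pos hc (ht H)) h3
  rw [Real.dist_eq, abs_sub_comm, abs_of_nonneg]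
  · rw [sub_lt_iff_lt_add, ← sub_lt_iff_lt_add', lt_div_iff₀ hbp]
    have : ε * c₄ / 2 * t H ≤ ε / 2 * b H := by nlinarith
    nlinarith
  · rw [sub_nonneg, div_le_one hbp]
    exact hab H

open Classical in
theorem main_of_var {k : ℕ} (n d : Fin k → ℕ) (i₀ : Fin k) (hn : ∀ i, 1 ≤ n i)
    (hd : ∀ i, 1 ≤ d i) (hk : 3 ≤ n i₀ ∨ (2 ≤ n i₀ ∧ ∃ j, j ≠ i₀)) (hV : VarProp n d) :
    Tendsto (fun H : ℕ =>
      (((box (Exps n d) H).filter fun c => ELS c ∧ RatSol c).card : ℝ) /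
      (((box (Exps n d) H).filter fun c => ELS c).card : ℝ)) atTop (nhds 1) := by
  obtain ⟨X, Ps, hX, hP, hs, hvar⟩ := hV
  have hEpos : ∀ᶠ H : ℕ in atTop, 0 < EE n d (X H) H := by
    have h1 : ∀ᶠ H : ℕ in atTop, ∀ i, 1 ≤ X H i := by
      rw [Filter.eventually_all]
      exact fun i => (hX i).eventually_ge_atTop 1
    filter_upwards [h1, eventually_ge_atTop 1] with H h2 h3 using EE_pos (X H) H h2 h3
  obtain ⟨c₃, hc₃, κ, hκ, w₁, hw₁⟩ := local_pos n d i₀ hn hd hk X Ps hX hP hs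
  refine tendsto_ratio _ _ (fun H => (2 * (H : ℝ) + 1) ^ Fintype.card (Exps n d)) (c₃ / 2)
    (by positivity) ?_ (fun H => by positivity) (fun H => ?_) ?_
  · -- positive proportion
    obtain ⟨w, δ₀, hδ₀, hw⟩ := hvar (κ ^ 2 * c₃ / 2) (by positivity)
    obtain ⟨W, hW, hWd, δ₁, hδ₁, hl⟩ := hw₁ (max w w₁) (le_max_right _ _)
    have h1 := hw W hW (fun m hm hm' => hWd m hm (hm'.trans (le_max_left _ _))) (min δ₀ δ₁)
      (lt_min hδ₀ hδ₁) (min_le_left _ _)
    have h2 := hl (min δ₀ δ₁) (lt_min hδ₀ hδ₁) (min_le_right _ _)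
    filter_upwards [h1, h2, hEpos] with H h3 h4 h5
    obtain ⟨F, hFbox, hFl, hFc⟩ := h4
    set t : ℝ := (2 * (H : ℝ) + 1) ^ Fintype.card (Exps n d) with ht
    have htp : 0 < t := by positivity
    have h6 := cheb (Ps H) H W _ (κ * EE n d (X H) H) _ h3 (by positivity)
      (F.filter fun c => ¬ RatSol c) ((Finset.filter_subset _ _).trans hFbox) (fun c hc => by
        rw [Finset.mem_filter] at hc
        exact ⟨hFl c hc.1, nn_eq_zero (Ps H) c (fun P hPs => (hP H P hPs).2) hc.2⟩)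
    have h7 : ((F.filter fun c => ¬ RatSol c).card : ℝ) ≤ c₃ / 2 * t := by
      have h8 : ((F.filter fun c => ¬ RatSol c).card : ℝ) * (κ * EE n d (X H) H) ^ 2 ≤
        (c₃ / 2 * t) * (κ * EE n d (X H) H) ^ 2 := by
        refine h6.trans (le_of_eq ?_)
        ring
      exact le_of_mul_le_mul_right h8 (by positivity)
    have h8 : (F.filter fun c => RatSol c).card + (F.filter fun c => ¬ RatSol c).card = F.card :=
      Finset.card_filter_add_card_filter_not (s := F) (fun c => RatSol c)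
    have h9 : (F.filter fun c => RatSol c).card ≤
        ((box (Exps n d) H).filter fun c => ELS c).card := by
      refine Finset.card_le_card fun c hc => ?_
      rw [Finset.mem_filter] at hc ⊢
      exact ⟨hFbox hc.1, els_of_ratSol c hc.2⟩
    have h10 : (((F.filter fun c => RatSol c).card : ℝ)) +
        ((F.filter fun c => ¬ RatSol c).card : ℝ) = (F.card : ℝ) := by exact_mod_cast h8
    have h11 : (((F.filter fun c => RatSol c).card : ℝ)) ≤
        (((box (Exps n d) H).filter fun c => ELS c).card : ℝ) := by exact_mod_cast h9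
    linarith
  · have : ((box (Exps n d) H).filter fun c => ELS c ∧ RatSol c).card ≤
        ((box (Exps n d) H).filter fun c => ELS c).card := by
      refine Finset.card_le_card fun c hc => ?_
      rw [Finset.mem_filter] at hc ⊢
      exact ⟨hc.1, hc.2.1⟩
    exact_mod_cast this
  · intro η hη
    obtain ⟨κ', hκ', w₂, hw₂⟩ := local_main n d i₀ hn hd hk X Ps hX hP hs (η / 2) (by positivity)
    obtain ⟨w, δ₀, hδ₀, hw⟩ := hvar (κ' ^ 2 * η / 2) (by positivity)
    obtain ⟨W, hW, hWd, δ₁, hδ₁, hl⟩ := hw₂ (max w w₂) (le_max_right _ _)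
    have h1 := hw W hW (fun m hm hm' => hWd m hm (hm'.trans (le_max_left _ _))) (min δ₀ δ₁)
      (lt_min hδ₀ hδ₁) (min_le_left _ _)
    have h2 := hl (min δ₀ δ₁) (lt_min hδ₀ hδ₁) (min_le_right _ _)
    filter_upwards [h1, h2, hEpos] with H h3 h4 h5
    set t : ℝ := (2 * (H : ℝ) + 1) ^ Fintype.card (Exps n d) with ht
    set V := min δ₀ δ₁ * H * Sz d (X H) with hVdef
    have htp : 0 < t := by positivity
    set F1 := (box (Exps n d) H).filter fun c => ELS c ∧ Nl (Ps H) W V c < κ' * EE n d (X H) H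
      with hF1
    set F2 := (box (Exps n d) H).filter fun c => ¬ RatSol c ∧ κ' * EE n d (X H) H ≤ Nl (Ps H) W V c
      with hF2
    have h6 := h4 F1 (Finset.filter_subset _ _) (fun c hc => (Finset.mem_filter.1 hc).2)
    have h7 := cheb (Ps H) H W _ (κ' * EE n d (X H) H) _ h3 (by positivity)
      F2 (Finset.filter_subset _ _) (fun c hc => by
        have hc' := (Finset.mem_filter.1 hc).2
        exact ⟨hc'.2, nn_eq_zero (Ps H) c (fun P hPs => (hP H P hPs).2) hc'.1⟩)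
    have h8 : (F2.card : ℝ) ≤ η / 2 * t := by
      have h9 : (F2.card : ℝ) * (κ' * EE n d (X H) H) ^ 2 ≤
        (η / 2 * t) * (κ' * EE n d (X H) H) ^ 2 := by
        refine h7.trans (le_of_eq ?_)
        ring
      exact le_of_mul_le_mul_right h9 (by positivity)
    have h10 : ((box (Exps n d) H).filter fun c => ELS c) ⊆
        ((box (Exps n d) H).filter fun c => ELS c ∧ RatSol c) ∪ (F1 ∪ F2) := by
      intro c hc
      rw [Finset.mem_filter] at hc
      rw [Finset.mem_union, Finset.mem_union, Finset.mem_filter, hF1, hF2, Finset.mem_filter,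
        Finset.mem_filter]
      by_cases hr : RatSol c
      · exact Or.inl ⟨hc.1, hc.2, hr⟩
      · rcases lt_or_ge (Nl (Ps H) W V c) (κ' * EE n d (X H) H) with h | h
        · exact Or.inr (Or.inl ⟨hc.1, hc.2, h⟩)
        · exact Or.inr (Or.inr ⟨hc.1, hr, h⟩)
    have h11 := (Finset.card_le_card h10).trans ((Finset.card_union_le _ _).trans
      (Nat.add_le_add_left (Finset.card_union_le _ _) _))
    have h12 : ((((box (Exps n d) H).filter fun c => ELS c).card : ℕ) : ℝ) ≤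
        (((box (Exps n d) H).filter fun c => ELS c ∧ RatSol c).card : ℝ) +
        ((F1.card : ℝ) + (F2.card : ℝ)) := by exact_mod_cast h11
    linarith

open Classical in
theorem main_blocks' {k : ℕ} (n d : Fin k → ℕ) (i₀ : Fin k) (hn : ∀ i, 1 ≤ n i)
    (hd : ∀ i, 1 ≤ d i) (h2 : 2 ≤ d i₀) (hdn : d i₀ ≤ n i₀) (hk : 3 ≤ n i₀ ∨ ∃ j, j ≠ i₀) :
    Tendsto (fun H : ℕ =>
      (((box (Exps n d) H).filter fun c => ELS c ∧ RatSol c).card : ℝ) /
      (((box (Exps n d) H).filter fun c => ELS c).card : ℝ)) atTop (nhds 1) := by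
  by_cases hj : ∃ j, j ≠ i₀
  · exact main_of_var n d i₀ hn hd (Or.inr ⟨h2.trans hdn, hj⟩)
      (varB n d i₀ hj hn hd (h2.trans hdn) h2 hdn)
  · have h3 : 3 ≤ n i₀ := hk.resolve_right hj
    push Not at hj
    exact main_of_var n d i₀ hn hd (Or.inl h3) (varA n d i₀ hj h3 h2 hdn)

open Classical in
theorem ratio_of_eq {k : ℕ} (n d : Fin k → ℕ) (h : ∀ c : Exps n d → ℤ, ELS c → RatSol c) :
    Tendsto (fun H : ℕ =>
      (((box (Exps n d) H).filter fun c => ELS c ∧ RatSol c).card : ℝ) /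
      (((box (Exps n d) H).filter fun c => ELS c).card : ℝ)) atTop (nhds 1) := by
  have h1 : (fun H : ℕ =>
      (((box (Exps n d) H).filter fun c => ELS c ∧ RatSol c).card : ℝ) /
      (((box (Exps n d) H).filter fun c => ELS c).card : ℝ)) = fun _ => 1 := by
    funext H
    have h2 : ((box (Exps n d) H).filter fun c => ELS c ∧ RatSol c) =
        ((box (Exps n d) H).filter fun c => ELS c) := by
      refine Finset.filter_congr fun c _ => ?_
      exact ⟨fun h => h.1, fun h' => ⟨h', h c h'⟩⟩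
    rw [h2]
    refine div_self ?_
    have h3 : (0 : Exps n d → ℤ) ∈ (box (Exps n d) H).filter fun c => ELS c := by
      rw [Finset.mem_filter]
      refine ⟨?_, els_of_ratSol _ ⟨fun i j => 1, fun i => ⟨0, one_ne_zero⟩, ?_⟩⟩
      · unfold box
        rw [Fintype.mem_piFinset]
        intro s
        simp
      · simp [evZ, ev]
    have h4 : 0 < ((box (Exps n d) H).filter fun c => ELS c).card := Finset.card_pos.2 ⟨_, h3⟩
    exact_mod_cast h4.ne'
  rw [h1]
  exact tendsto_const_nhds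

open Classical in
/-- The full theorem for coefficient vectors, without excluded families. -/
theorem main_all {k : ℕ} (n d : Fin k → ℕ) (hn : ∀ i, 1 ≤ n i) (hd : ∀ i, 1 ≤ d i)
    (hex : ∃ i, d i < n i + 1) :
    Tendsto (fun H : ℕ =>
      (((box (Exps n d) H).filter fun c => ELS c ∧ RatSol c).card : ℝ) /
      (((box (Exps n d) H).filter fun c => ELS c).card : ℝ)) atTop (nhds 1) := by
  obtain ⟨i₀, hi₀⟩ := hex
  rcases Nat.lt_or_ge (d i₀) 2 with h1 | h2
  · have h3 : d i₀ = 1 := by have := hd i₀; omega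
    exact ratio_of_eq n d fun c _ => triv_block n d i₀ (hn i₀) h3 c
  · by_cases hk : 3 ≤ n i₀ ∨ ∃ j, j ≠ i₀
    · exact main_blocks' n d i₀ hn hd h2 (by omega) hk
    · push Not at hk
      exact ratio_of_eq n d fun c hc => conic_block n d i₀ hk.2 (by omega) (by omega) c hc

end Pool.Agent.HP
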