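import Pool.Agent.Lib.MP_fc0680_nt.Deriv

set_option autoImplicit false
open Finset Filter

namespace Pool.Agent.HP

/-- Replace the coordinates other than `v` by perturbed ones, and the coordinate `v` by `y`. -/
private noncomputable def pert {k : ℕ} {n : Fin k → ℕ} {R : Type} [CommRing R] (P : Pt n R)
    (q : R) (v : Σ i : Fin k, Fin (n i + 1)) (y : R)
    (u : {w : Σ i : Fin k, Fin (n i + 1) // w ≠ v} → R) : Pt n R := by
  classical
  exact fun i j => if h : (⟨i, j⟩ : Σ i : Fin k, Fin (n i + 1)) ≠ v then P i j + q * u ⟨⟨i, j⟩, h⟩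
    else y

private lemma pert_ne {k : ℕ} {n : Fin k → ℕ} {R : Type} [CommRing R] (P : Pt n R)
    (q : R) (v : Σ i : Fin k, Fin (n i + 1)) (y : R)
    (u : {w : Σ i : Fin k, Fin (n i + 1) // w ≠ v} → R) (i : Fin k) (j : Fin (n i + 1))
    (h : (⟨i, j⟩ : Σ i : Fin k, Fin (n i + 1)) ≠ v) :
    pert P q v y u i j = P i j + q * u ⟨⟨i, j⟩, h⟩ := by
  unfold pert
  simp [h]

private lemma pert_eq {k : ℕ} {n : Fin k → ℕ} {R : Type} [CommRing R] (P : Pt n R)
    (q : R) (i : Fin k) (j : Fin (n i + 1)) (y : R)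
    (u : {w : Σ i : Fin k, Fin (n i + 1) // w ≠ ⟨i, j⟩} → R) :
    pert P q ⟨i, j⟩ y u i j = y := by
  unfold pert
  simp

private lemma pert_update {k : ℕ} {n : Fin k → ℕ} {R : Type} [CommRing R] (P : Pt n R)
    (q : R) (i : Fin k) (j : Fin (n i + 1)) (y y' : R)
    (u : {w : Σ i : Fin k, Fin (n i + 1) // w ≠ ⟨i, j⟩} → R) :
    Function.update (pert P q ⟨i, j⟩ y u) i (Function.update (pert P q ⟨i, j⟩ y u i) j y') =
      pert P q ⟨i, j⟩ y' u := by
  funext a b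
  by_cases ha : a = i
  · subst ha
    rw [Function.update_self]
    by_cases hb : b = j
    · subst hb
      rw [Function.update_self, pert_eq]
    · rw [Function.update_of_ne hb]
      have h : (⟨a, b⟩ : Σ i : Fin k, Fin (n i + 1)) ≠ ⟨a, j⟩ := by
        intro h
        simp only [Sigma.mk.injEq, heq_eq_eq, true_and] at h
        exact hb h
      rw [pert_ne _ _ _ _ _ _ _ h, pert_ne _ _ _ _ _ _ _ h]
  · rw [Function.update_of_ne ha]
    have h : (⟨a, b⟩ : Σ i : Fin k, Fin (n i + 1)) ≠ ⟨i, j⟩ := by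
      intro h
      exact ha (congrArg Sigma.fst h)
    rw [pert_ne _ _ _ _ _ _ _ h, pert_ne _ _ _ _ _ _ _ h]

private lemma toZModPow_eq_zero_iff {p : ℕ} [Fact p.Prime] (m : ℕ) (x : ℤ_[p]) :
    PadicInt.toZModPow m x = 0 ↔ (p : ℤ_[p]) ^ m ∣ x := by
  rw [← RingHom.mem_ker, PadicInt.ker_toZModPow, Ideal.mem_span_singleton]

private lemma not_dvd_norm {p : ℕ} [Fact p.Prime] (m : ℕ) (x : ℤ_[p])
    (h : ¬ (p : ℤ_[p]) ^ (m + 1) ∣ x) : (p : ℝ) ^ (-(m : ℤ)) ≤ ‖x‖ := by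
  by_contra hlt
  push Not at hlt
  apply h
  rw [← Ideal.mem_span_singleton, ← PadicInt.norm_le_pow_iff_mem_span_pow,
    PadicInt.norm_le_pow_iff_norm_lt_pow_add_one]
  have : (-((m + 1 : ℕ) : ℤ) + 1) = -(m : ℤ) := by push_cast; ring
  rw [this]
  exact hlt

private lemma hensel_root {p : ℕ} [Fact p.Prime] (g : Polynomial ℤ_[p]) (a : ℤ_[p]) (e : ℕ)
    (h0 : (p : ℤ_[p]) ^ (2 * e + 1) ∣ g.eval a)
    (h1 : ¬ (p : ℤ_[p]) ^ (e + 1) ∣ (Polynomial.derivative g).eval a) :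
    ∃ z : ℤ_[p], g.eval z = 0 ∧ ‖z - a‖ < 1 := by
  have hp1 : (1 : ℝ) < p := by exact_mod_cast (Fact.out : p.Prime).one_lt
  have hp0 : (0 : ℝ) < p := by linarith
  have hn1 := not_dvd_norm e _ h1
  have hn0 : ‖g.eval a‖ ≤ (p : ℝ) ^ (-((2 * e + 1 : ℕ) : ℤ)) := by
    rw [PadicInt.norm_le_pow_iff_mem_span_pow, Ideal.mem_span_singleton]
    exact h0
  have hlt : ‖g.aeval a‖ < ‖(Polynomial.derivative g).aeval a‖ ^ 2 := by
    rw [Polynomial.coe_aeval_eq_eval]
    calc ‖g.eval a‖ ≤ (p : ℝ) ^ (-((2 * e + 1 : ℕ) : ℤ)) := hn0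
      _ < (p : ℝ) ^ (-((2 * e : ℕ) : ℤ)) := by
          apply zpow_lt_zpow_right₀ hp1
          push_cast
          linarith
      _ = ((p : ℝ) ^ (-(e : ℤ))) ^ 2 := by
          rw [← zpow_natCast, ← zpow_mul]
          congr 1
          push_cast
          ring
      _ ≤ _ := by
          have : (0 : ℝ) ≤ (p : ℝ) ^ (-(e : ℤ)) := by positivity
          gcongr
  obtain ⟨z, hz, hza, -, -⟩ := hensels_lemma hlt
  refine ⟨z, ?_, ?_⟩
  · rw [Polynomial.coe_aeval_eq_eval] at hz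
    exact hz
  · refine lt_of_lt_of_le hza (PadicInt.norm_le_one _)

private lemma isUnit_of_close {p : ℕ} [Fact p.Prime] (a b : ℤ_[p]) (ha : IsUnit a)
    (h : ‖b - a‖ < 1) : IsUnit b := by
  rw [PadicInt.isUnit_iff] at ha ⊢
  have h1 : ‖b - a‖ < ‖a‖ := by rw [ha]; exact h
  have := IsUltrametricDist.norm_add_eq_max_of_norm_ne_norm (x := b - a) (y := a) (ne_of_lt h1)
  rw [sub_add_cancel, max_eq_right h1.le, ha] at this
  exact this

private lemma line_pert {k : ℕ} {n d : Fin k → ℕ} {R : Type} [CommRing R] (c : Exps n d → R)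
    (P : Pt n R) (q : R) (i : Fin k) (j : Fin (n i + 1)) (y y' : R)
    (u : {w : Σ i : Fin k, Fin (n i + 1) // w ≠ ⟨i, j⟩} → R) :
    (line c (pert P q ⟨i, j⟩ y u) i j).eval y' = ev c (pert P q ⟨i, j⟩ y' u) := by
  rw [eval_line, pert_update]

theorem hens {k : ℕ} (n d : Fin k → ℕ) (p : ℕ) [Fact p.Prime] (e r : ℕ) (hr : 2 * e + 1 ≤ r)
    (c : Exps n d → ℤ) (P : Pt n ℤ_[p]) (hprim : ∀ i, ∃ j, IsUnit (P i j))
    (h0 : ((p : ℤ_[p]) ^ (2 * e + 1)) ∣ (evZ c P : ℤ_[p]))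
    (h1 : ∃ i j, ¬ ((p : ℤ_[p]) ^ (e + 1)) ∣ dev (fun s => (c s : ℤ_[p])) P i j) :
    haveI : NeZero (p ^ r) := ⟨pow_ne_zero _ (Fact.out : p.Prime).ne_zero⟩
    (p ^ (r - (2 * e + 1))) ^ (∑ i, (n i + 1) - 1) ≤
      (Zs (p ^ r) (fun s => (c s : ZMod (p ^ r)))).card := by
  classical
  have : NeZero (p ^ r) := ⟨pow_ne_zero _ (Fact.out : p.Prime).ne_zero⟩
  obtain ⟨i, j, hij⟩ := h1
  have hp : p.Prime := Fact.out
  set q : ℤ_[p] := (p : ℤ_[p]) ^ (2 * e + 1) with hq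
  set cc : Exps n d → ℤ_[p] := fun s => (c s : ℤ_[p]) with hcc
  let J := {w : Σ i : Fin k, Fin (n i + 1) // w ≠ ⟨i, j⟩}
  let U : (J → Fin (p ^ (r - (2 * e + 1)))) → J → ℤ_[p] := fun u w => ((u w : ℕ) : ℤ_[p])
  -- congruence of the perturbed point
  have hcong : ∀ u : J → ℤ_[p], ∀ i' j',
      PadicInt.toZModPow (p := p) (2 * e + 1) (pert P q ⟨i, j⟩ (P i j) u i' j') =
        PadicInt.toZModPow (2 * e + 1) (P i' j') := by
    intro u i' j'
    by_cases h : (⟨i', j'⟩ : Σ i : Fin k, Fin (n i + 1)) = ⟨i, j⟩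
    · obtain ⟨rfl, h2⟩ := Sigma.mk.inj_iff.1 h
      obtain rfl := eq_of_heq h2
      rw [pert_eq]
    · rw [pert_ne _ _ _ _ _ _ _ h, map_add, map_mul]
      have : PadicInt.toZModPow (p := p) (2 * e + 1) q = 0 := by
        rw [toZModPow_eq_zero_iff]
      rw [this, zero_mul, add_zero]
  have hev : ∀ u : J → ℤ_[p], q ∣ ev cc (pert P q ⟨i, j⟩ (P i j) u) := by
    intro u
    rw [hq, ← toZModPow_eq_zero_iff, map_ev]
    have : (fun i' j' => PadicInt.toZModPow (p := p) (2 * e + 1)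
        (pert P q ⟨i, j⟩ (P i j) u i' j')) =
        fun i' j' => PadicInt.toZModPow (2 * e + 1) (P i' j') := by
      funext i' j'
      exact hcong u i' j'
    rw [this, ← map_ev, toZModPow_eq_zero_iff]
    exact h0
  have hdev : ∀ u : J → ℤ_[p],
      ¬ (p : ℤ_[p]) ^ (e + 1) ∣ dev cc (pert P q ⟨i, j⟩ (P i j) u) i j := by
    intro u hdvd
    apply hij
    have h2 : q ∣ dev cc (pert P q ⟨i, j⟩ (P i j) u) i j - dev cc P i j := by
      rw [hq, ← toZModPow_eq_zero_iff, map_sub, map_dev, map_dev]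
      have : (fun i' j' => PadicInt.toZModPow (p := p) (2 * e + 1)
          (pert P q ⟨i, j⟩ (P i j) u i' j')) =
          fun i' j' => PadicInt.toZModPow (2 * e + 1) (P i' j') := by
        funext i' j'
        exact hcong u i' j'
      rw [this, sub_self]
    have h3 : (p : ℤ_[p]) ^ (e + 1) ∣ q := pow_dvd_pow _ (by omega)
    have h4 := dvd_sub hdvd (h3.trans h2)
    rwa [sub_sub_cancel] at h4
  have hroot : ∀ u : J → ℤ_[p], ∃ y : ℤ_[p], ev cc (pert P q ⟨i, j⟩ y u) = 0 ∧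
      ‖y - P i j‖ < 1 := by
    intro u
    have h2 : q ∣ (line cc (pert P q ⟨i, j⟩ (P i j) u) i j).eval (P i j) := by
      rw [line_pert]
      exact hev u
    have h3 : ¬ (p : ℤ_[p]) ^ (e + 1) ∣
        (Polynomial.derivative (line cc (pert P q ⟨i, j⟩ (P i j) u) i j)).eval (P i j) := by
      have h4 := hdev u
      unfold dev at h4
      rwa [pert_eq] at h4
    obtain ⟨z, hz, hz1⟩ := hensel_root _ _ e h2 h3
    rw [line_pert] at hz
    exact ⟨z, hz, hz1⟩
  choose Y hY0 hY1 using hroot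
  -- the points
  let Z : (J → Fin (p ^ (r - (2 * e + 1)))) → Pt n (ZMod (p ^ r)) := fun u i' j' =>
    PadicInt.toZModPow r (pert P q ⟨i, j⟩ (Y (U u)) (U u) i' j')
  have hclose : ∀ u : J → ℤ_[p], ∀ i' j',
      ‖pert P q ⟨i, j⟩ (Y u) u i' j' - P i' j'‖ < 1 := by
    intro u i' j'
    by_cases h : (⟨i', j'⟩ : Σ i : Fin k, Fin (n i + 1)) = ⟨i, j⟩
    · obtain ⟨rfl, h2⟩ := Sigma.mk.inj_iff.1 h
      obtain rfl := eq_of_heq h2
      rw [pert_eq]
      exact hY1 u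
    · rw [pert_ne _ _ _ _ _ _ _ h, add_sub_cancel_left, PadicInt.norm_lt_one_iff_dvd]
      exact Dvd.dvd.mul_right (dvd_pow_self _ (by omega)) _
  have hcardJ : Fintype.card J = ∑ i, (n i + 1) - 1 := by
    have h2 : Fintype.card J = Fintype.card (Σ i : Fin k, Fin (n i + 1)) - 1 := by
      simp only [J, ne_eq]
      rw [Fintype.card_subtype_compl, Fintype.card_subtype_eq]
    rw [h2, Fintype.card_sigma]
    simp
  have hmem : ∀ u, Z u ∈ Zs (p ^ r) (fun s => (c s : ZMod (p ^ r))) := by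
    intro u
    unfold Zs
    rw [mem_filter]
    refine ⟨mem_univ _, ?_, ?_⟩
    · intro i'
      obtain ⟨j', hj'⟩ := hprim i'
      have hu : IsUnit (pert P q ⟨i, j⟩ (Y (U u)) (U u) i' j') :=
        isUnit_of_close _ _ hj' (hclose (U u) i' j')
      have hu2 : IsUnit (Z u i' j') := hu.map (PadicInt.toZModPow r)
      obtain ⟨b, hb⟩ := hu2.exists_left_inv
      refine ⟨fun l => if l = j' then b else 0, ?_⟩
      rw [Finset.sum_eq_single j']
      · simp [hb]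
      · intro l _ hl
        simp [hl]
      · intro h
        exact absurd (mem_univ _) h
    · have h2 := congrArg (PadicInt.toZModPow (p := p) r) (hY0 (U u))
      rw [map_ev, map_zero] at h2
      have h3 : (fun s => PadicInt.toZModPow (p := p) r (cc s)) =
          fun s => ((c s : ℤ) : ZMod (p ^ r)) := by
        funext s
        simp [cc]
      rw [h3] at h2
      exact h2
  have hinj : Function.Injective Z := by
    intro u u' huu
    funext w
    obtain ⟨⟨i', j'⟩, hw⟩ := w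
    have h2 := congrFun (congrFun huu i') j'
    simp only [Z] at h2
    rw [pert_ne _ _ _ _ _ _ _ hw, pert_ne _ _ _ _ _ _ _ hw, ← sub_eq_zero, ← map_sub,
      toZModPow_eq_zero_iff] at h2
    have h3 : P i' j' + q * U u ⟨⟨i', j'⟩, hw⟩ - (P i' j' + q * U u' ⟨⟨i', j'⟩, hw⟩) =
        q * (U u ⟨⟨i', j'⟩, hw⟩ - U u' ⟨⟨i', j'⟩, hw⟩) := by ring
    rw [h3] at h2
    have h4 : (p : ℤ_[p]) ^ r = q * (p : ℤ_[p]) ^ (r - (2 * e + 1)) := by
      rw [hq, ← pow_add]
      congr 1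
      omega
    rw [h4] at h2
    have hq0 : q ≠ 0 := pow_ne_zero _ (by exact_mod_cast hp.ne_zero)
    have h5 := (mul_dvd_mul_iff_left hq0).1 h2
    set a := u ⟨⟨i', j'⟩, hw⟩ with ha
    set b := u' ⟨⟨i', j'⟩, hw⟩ with hb
    have h6 : U u ⟨⟨i', j'⟩, hw⟩ - U u' ⟨⟨i', j'⟩, hw⟩ =
        (((a : ℕ) : ℤ) - ((b : ℕ) : ℤ) : ℤ) := by
      simp only [U, ← ha, ← hb]
      push_cast
      rfl
    rw [h6, PadicInt.pow_p_dvd_int_iff] at h5
    apply Fin.ext
    have h7 : (a : ℕ) < p ^ (r - (2 * e + 1)) := a.2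
    have h8 : (b : ℕ) < p ^ (r - (2 * e + 1)) := b.2
    have h9 : ((p : ℤ)) ^ (r - (2 * e + 1)) = ((p ^ (r - (2 * e + 1)) : ℕ) : ℤ) := by
      push_cast
      rfl
    rw [h9] at h5
    have h10 := Int.eq_zero_of_abs_lt_dvd h5 (by
      rw [abs_lt]
      constructor <;> omega)
    omega
  calc (p ^ (r - (2 * e + 1))) ^ (∑ i, (n i + 1) - 1)
      = Fintype.card (J → Fin (p ^ (r - (2 * e + 1)))) := by
        rw [Fintype.card_fun, Fintype.card_fin, hcardJ]
    _ = (univ.image Z).card := by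
        rw [Finset.card_image_of_injective _ hinj, Finset.card_univ]
    _ ≤ _ := by
        apply Finset.card_le_card
        intro z hz
        obtain ⟨u, -, rfl⟩ := mem_image.1 hz
        exact hmem u

theorem psol_count {k : ℕ} (n d : Fin k → ℕ) (p : ℕ) [Fact p.Prime] (e r : ℕ)
    (hr : 2 * e + 1 ≤ r) (c : Exps n d → ℤ) (hc : PadicSol c p)
    (hs : ¬ SingMod (p ^ (e + 1)) (fun s => (c s : ZMod (p ^ (e + 1))))) :
    haveI : NeZero (p ^ r) := ⟨pow_ne_zero _ (Fact.out : p.Prime).ne_zero⟩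
    (p ^ (r - (2 * e + 1))) ^ (∑ i, (n i + 1) - 1) ≤
      (Zs (p ^ r) (fun s => (c s : ZMod (p ^ r)))).card := by
  obtain ⟨P, hP, hPc⟩ := hc
  have hmax : ∀ i, ∃ j, P i j ≠ 0 ∧ ∀ l, ‖P i l‖ ≤ ‖P i j‖ := by
    intro i
    obtain ⟨j, -, hj⟩ := Finset.exists_max_image (univ : Finset (Fin (n i + 1)))
      (fun j => ‖P i j‖) ⟨0, mem_univ _⟩
    refine ⟨j, ?_, fun l => hj l (mem_univ _)⟩
    intro h0
    obtain ⟨l, hl⟩ := hP i
    have := hj l (mem_univ _)
    rw [h0, norm_zero] at this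
    exact hl (norm_le_zero_iff.1 this)
  choose J hJ0 hJ using hmax
  let a : Fin k → ℚ_[p] := fun i => (P i (J i))⁻¹
  have hle : ∀ i j, ‖a i * P i j‖ ≤ 1 := by
    intro i j
    rw [norm_mul, norm_inv, ← div_eq_inv_mul]
    exact div_le_one_of_le₀ (hJ i j) (norm_nonneg _)
  let Q : Pt n ℤ_[p] := fun i j => ⟨a i * P i j, hle i j⟩
  have hQ1 : ∀ i, Q i (J i) = 1 := by
    intro i
    apply Subtype.ext
    show a i * P i (J i) = 1
    exact inv_mul_cancel₀ (hJ0 i)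
  have hQ0 : ev (fun s => (c s : ℤ_[p])) Q = 0 := by
    have h1 : ((ev (fun s => (c s : ℤ_[p])) Q : ℤ_[p]) : ℚ_[p]) = 0 := by
      have h2 := map_ev (PadicInt.Coe.ringHom (p := p)) (fun s => (c s : ℤ_[p])) Q
      have h3 : (PadicInt.Coe.ringHom (p := p)) (ev (fun s => (c s : ℤ_[p])) Q) =
          ((ev (fun s => (c s : ℤ_[p])) Q : ℤ_[p]) : ℚ_[p]) := rfl
      rw [← h3, h2]
      have h4 : (fun s => (PadicInt.Coe.ringHom (p := p)) ((c s : ℤ) : ℤ_[p])) =
          fun s => ((c s : ℤ) : ℚ_[p]) := by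
        funext s
        simp
      have h5 : (fun i j => (PadicInt.Coe.ringHom (p := p)) (Q i j)) =
          fun i j => a i * P i j := rfl
      rw [h4, h5, ev_smul]
      have h6 : ev (fun s => ((c s : ℤ) : ℚ_[p])) P = 0 := hPc
      rw [h6, mul_zero]
    exact Subtype.ext h1
  apply hens n d p e r hr c Q
  · intro i
    exact ⟨J i, by rw [hQ1]; exact isUnit_one⟩
  · have : (evZ c Q : ℤ_[p]) = 0 := hQ0
    rw [this]
    exact dvd_zero _
  · by_contra hcon
    push Not at hcon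
    apply hs
    refine ⟨fun i j => PadicInt.toZModPow (e + 1) (Q i j), ?_, ?_, ?_⟩
    · intro i
      exact ⟨J i, by simp only [hQ1, map_one]⟩
    · have h3 : (fun s => PadicInt.toZModPow (p := p) (e + 1) ((c s : ℤ) : ℤ_[p])) =
          fun s => ((c s : ℤ) : ZMod (p ^ (e + 1))) := by
        funext s
        simp
      have h2 := congrArg (PadicInt.toZModPow (p := p) (e + 1)) hQ0
      rw [map_ev, map_zero, h3] at h2
      exact h2
    · intro i j
      have h3 : (fun s => PadicInt.toZModPow (p := p) (e + 1) ((c s : ℤ) : ℤ_[p])) =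
          fun s => ((c s : ℤ) : ZMod (p ^ (e + 1))) := by
        funext s
        simp
      have h2 := (toZModPow_eq_zero_iff (e + 1) _).2 (hcon i j)
      rw [map_dev, h3] at h2
      exact h2

end Pool.Agent.HP
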