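import Pool.Agent.Lib.MP_fc0680_nt.Bez

set_option autoImplicit false
open Finset Filter

namespace Pool.Agent.HP

/-! ## LOSS -/

theorem ls_cls (W : ℕ) (hW : 0 < W) (T : Finset ℤ) (L : ℝ) (hL : 0 ≤ L)
    (h : ∀ y ∈ T, ∀ y' ∈ T, (W : ℤ) ∣ y - y' ∧ |((y - y' : ℤ) : ℝ)| ≤ L) :
    (T.card : ℝ) ≤ L / W + 1 := by
  have hWr : (0 : ℝ) < W := by exact_mod_cast hW
  rcases T.eq_empty_or_nonempty with hT | hT
  · subst hT
    simp only [Finset.card_empty, Nat.cast_zero]
    positivity
  · set y0 := T.min' hT with hy0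
    have hy0T : y0 ∈ T := T.min'_mem hT
    have hle : ∀ y ∈ T, y0 ≤ y := fun y hy => T.min'_le y hy
    have hcard : T.card ≤ (Finset.range (⌊L / W⌋₊ + 1)).card := by
      apply Finset.card_le_card_of_injOn (fun y => ((y - y0) / (W : ℤ)).toNat)
      · intro y hy
        have hy' : y ∈ T := hy
        simp only [Finset.coe_range, Set.mem_Iio]
        rw [Nat.lt_succ_iff]
        apply Nat.le_floor
        obtain ⟨q, hq⟩ := (h y hy' y0 hy0T).1
        have hq0 : 0 ≤ q := by
          have h1 : 0 ≤ (W : ℤ) * q := by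
            rw [← hq]
            linarith [hle y hy']
          have hWz : (0 : ℤ) < W := by exact_mod_cast hW
          exact nonneg_of_mul_nonneg_right h1 hWz
        have hWz : (W : ℤ) ≠ 0 := by
          have : (0 : ℤ) < W := by exact_mod_cast hW
          omega
        have h2 : (y - y0) / (W : ℤ) = q := by
          rw [hq, Int.mul_ediv_cancel_left _ hWz]
        rw [h2]
        have h3 : ((q.toNat : ℕ) : ℝ) = (q : ℝ) := by
          have : ((q.toNat : ℕ) : ℤ) = q := Int.toNat_of_nonneg hq0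
          exact_mod_cast this
        rw [h3, le_div_iff₀ hWr]
        have h4 := (h y hy' y0 hy0T).2
        rw [hq] at h4
        push_cast at h4
        have h5 := (abs_le.mp h4).2
        linarith
      · intro y hy y' hy' heq
        have hy1 : y ∈ T := hy
        have hy2 : y' ∈ T := hy'
        have hWz : (0 : ℤ) < W := by exact_mod_cast hW
        obtain ⟨q, hq⟩ := (h y hy1 y0 hy0T).1
        obtain ⟨q', hq'⟩ := (h y' hy2 y0 hy0T).1
        have hq0 : 0 ≤ q := by
          have h1 : 0 ≤ (W : ℤ) * q := by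
            rw [← hq]
            linarith [hle y hy1]
          exact nonneg_of_mul_nonneg_right h1 hWz
        have hq0' : 0 ≤ q' := by
          have h1 : 0 ≤ (W : ℤ) * q' := by
            rw [← hq']
            linarith [hle y' hy2]
          exact nonneg_of_mul_nonneg_right h1 hWz
        simp only at heq
        rw [hq, hq', Int.mul_ediv_cancel_left _ hWz.ne', Int.mul_ediv_cancel_left _ hWz.ne'] at heq
        have h2 : q = q' := by omega
        rw [h2, ← hq'] at hq
        linarith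
    rw [Finset.card_range] at hcard
    have h1 : (T.card : ℝ) ≤ (⌊L / W⌋₊ : ℝ) + 1 := by exact_mod_cast hcard
    have h2 : (⌊L / W⌋₊ : ℝ) ≤ L / W := Nat.floor_le (by positivity)
    linarith

/-- Integers of `[-H, H]` in a class. -/
theorem ls_Icc (W H : ℕ) (hW : 0 < W) (z : ZMod W) :
    ((((Finset.Icc (-(H : ℤ)) (H : ℤ)).filter fun y => ((y : ℤ) : ZMod W) = z).card : ℕ) : ℝ) ≤
      2 * H / W + 1 := by
  apply ls_cls W hW _ _ (by positivity)
  intro y hy y' hy'
  rw [Finset.mem_filter, Finset.mem_Icc] at hy hy'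
  constructor
  · rw [← ZMod.intCast_zmod_eq_zero_iff_dvd]
    · push_cast
      rw [hy.2, hy'.2, sub_self]
  · rw [abs_le]
    have h1 : y - y' ≤ 2 * (H : ℤ) := by omega
    have h2 : -(2 * (H : ℤ)) ≤ y - y' := by omega
    constructor
    · exact_mod_cast h2
    · exact_mod_cast h1

/-- Fibre bound: integer vectors in a class modulo `W` with `|⟨c, m⟩| ≤ V`. -/
theorem ls_fibre {ι : Type} [Fintype ι] [DecidableEq ι] (W H : ℕ) (hW : 0 < W) (m : ι → ℤ)
    (s₀ : ι) (V μ : ℝ) (hV : 0 ≤ V) (hμ : 0 < μ) (hm : μ ≤ |(m s₀ : ℝ)|) (κ : ι → ZMod W)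
    (G : Finset (ι → ℤ)) (hG : ∀ c ∈ G, c ∈ box ι H ∧ (∀ s, ((c s : ℤ) : ZMod W) = κ s) ∧
      |((∑ s, c s * m s : ℤ) : ℝ)| ≤ V) :
    (G.card : ℝ) ≤ (2 * H / W + 1) ^ (Fintype.card ι - 1) * (2 * V / μ / W + 1) := by
  have hWr : (0 : ℝ) < W := by exact_mod_cast hW
  set f : (ι → ℤ) → (ι → ℤ) := fun c => Function.update c s₀ 0 with hf
  set A : ι → Finset ℤ := fun s => if s = s₀ then {0} else
    (Finset.Icc (-(H : ℤ)) (H : ℤ)).filter (fun y => ((y : ℤ) : ZMod W) = κ s) with hA
  have himg : G.image f ⊆ Fintype.piFinset A := by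
    intro a ha
    rw [Finset.mem_image] at ha
    obtain ⟨c, hc, rfl⟩ := ha
    rw [Fintype.mem_piFinset]
    intro s
    rw [hA, hf]
    simp only
    by_cases hs : s = s₀
    · subst hs
      simp
    · rw [if_neg hs, Function.update_of_ne hs, Finset.mem_filter]
      refine ⟨?_, (hG c hc).2.1 s⟩
      exact Fintype.mem_piFinset.mp (hG c hc).1 s
  have hcardA : ((Fintype.piFinset A).card : ℝ) ≤ (2 * H / W + 1) ^ (Fintype.card ι - 1) := by
    rw [Fintype.card_piFinset]
    push_cast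
    rw [← Finset.mul_prod_erase univ _ (Finset.mem_univ s₀)]
    have h1 : ((A s₀).card : ℝ) = 1 := by
      rw [hA]
      simp
    rw [h1, one_mul]
    have h2 : ∏ s ∈ univ.erase s₀, ((A s).card : ℝ) ≤
        ∏ _s ∈ univ.erase s₀, (2 * (H : ℝ) / W + 1) := by
      apply Finset.prod_le_prod
      · intro s _
        positivity
      · intro s hs
        have hs' : s ≠ s₀ := Finset.ne_of_mem_erase hs
        rw [hA]
        simp only
        rw [if_neg hs']
        exact ls_Icc W H hW (κ s)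
    rw [Finset.prod_const, Finset.card_erase_of_mem (Finset.mem_univ s₀), Finset.card_univ] at h2
    exact h2
  have hfib : ∀ a ∈ G.image f, ((G.filter fun c => f c = a).card : ℝ) ≤ 2 * V / μ / W + 1 := by
    intro a _
    have hinj : Set.InjOn (fun c : ι → ℤ => c s₀) (G.filter fun c => f c = a : Finset _) := by
      intro c hc c' hc' heq
      rw [Finset.mem_coe, Finset.mem_filter] at hc hc'
      funext s
      by_cases hs : s = s₀
      · rw [hs]
        exact heq
      · have h1 := congrFun (hc.2.trans hc'.2.symm) s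
        rw [hf] at h1
        simp only at h1
        rwa [Function.update_of_ne hs, Function.update_of_ne hs] at h1
    rw [← Finset.card_image_of_injOn hinj]
    apply ls_cls W hW _ _ (by positivity)
    intro y hy y' hy'
    rw [Finset.mem_image] at hy hy'
    obtain ⟨c, hc, rfl⟩ := hy
    obtain ⟨c', hc', rfl⟩ := hy'
    rw [Finset.mem_filter] at hc hc'
    constructor
    · rw [← ZMod.intCast_zmod_eq_zero_iff_dvd]
      · push_cast
        rw [(hG c hc.1).2.1 s₀, (hG c' hc'.1).2.1 s₀, sub_self]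
    · have h1 : (∑ s, c s * m s) - (∑ s, c' s * m s) = (c s₀ - c' s₀) * m s₀ := by
        rw [← Finset.sum_sub_distrib, Finset.sum_eq_single s₀]
        · ring
        · intro s _ hs
          have h2 := congrFun (hc.2.trans hc'.2.symm) s
          rw [hf] at h2
          simp only at h2
          rw [Function.update_of_ne hs, Function.update_of_ne hs] at h2
          rw [h2, sub_self]
        · intro h
          exact absurd (Finset.mem_univ _) h
      have h2 := (hG c hc.1).2.2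
      have h3 := (hG c' hc'.1).2.2
      have h4 : |(((c s₀ - c' s₀) * m s₀ : ℤ) : ℝ)| ≤ 2 * V := by
        rw [← h1]
        push_cast
        push_cast at h2 h3
        have := abs_sub (∑ s, (c s : ℝ) * (m s : ℝ)) (∑ s, (c' s : ℝ) * (m s : ℝ))
        linarith
      rw [Int.cast_mul, abs_mul] at h4
      rw [le_div_iff₀ hμ]
      refine le_trans ?_ h4
      exact mul_le_mul_of_nonneg_left hm (abs_nonneg _)
  have hsum : (G.card : ℝ) = ∑ a ∈ G.image f, ((G.filter fun c => f c = a).card : ℝ) := by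
    rw [Finset.card_eq_sum_card_image f G]
    push_cast
    rfl
  rw [hsum]
  have h1 : ∑ a ∈ G.image f, ((G.filter fun c => f c = a).card : ℝ) ≤
      ((G.image f).card : ℝ) * (2 * V / μ / W + 1) := by
    have := Finset.sum_le_sum hfib
    rwa [Finset.sum_const, nsmul_eq_mul] at this
  have h2 : ((G.image f).card : ℝ) ≤ (2 * H / W + 1) ^ (Fintype.card ι - 1) := by
    refine le_trans ?_ hcardA
    exact_mod_cast Finset.card_le_card himg
  exact h1.trans (mul_le_mul_of_nonneg_right h2 (by positivity))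

/-- The number of classes killed by a unimodular vector. -/
theorem ls_ker {ι : Type} [Fintype ι] [DecidableEq ι] (W : ℕ) [NeZero W] (m b : ι → ZMod W)
    (hb : ∑ s, b s * m s = 1) :
    (univ.filter fun κ : ι → ZMod W => ∑ s, κ s * m s = 0).card * W ≤ W ^ Fintype.card ι := by
  have h1 : ((univ.filter fun κ : ι → ZMod W => ∑ s, κ s * m s = 0) ×ˢ
      (univ : Finset (ZMod W))).card ≤ (univ : Finset (ι → ZMod W)).card := by
    apply Finset.card_le_card_of_injOn (fun x => fun s => x.1 s + x.2 * b s)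
    · intro x _
      simp
    · rintro ⟨κ, t⟩ hx ⟨κ', t'⟩ hx' heq
      rw [Finset.mem_coe, Finset.mem_product, Finset.mem_filter] at hx hx'
      simp only at hx hx' heq
      have key : ∀ (κ : ι → ZMod W) (t : ZMod W), ∑ s, κ s * m s = 0 →
          ∑ s, (κ s + t * b s) * m s = t := by
        intro κ t hκ
        have : ∀ s, (κ s + t * b s) * m s = κ s * m s + t * (b s * m s) := by
          intro s; ring
        simp_rw [this]
        rw [Finset.sum_add_distrib, hκ, ← Finset.mul_sum, hb]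
        ring
      have e1 := key κ t hx.1.2
      have e2 := key κ' t' hx'.1.2
      have e3 : ∑ s, (κ s + t * b s) * m s = ∑ s, (κ' s + t' * b s) * m s := by
        apply Finset.sum_congr rfl
        intro s _
        rw [congrFun heq s]
      have ht : t = t' := by rw [← e1, ← e2, e3]
      subst ht
      have hκ : κ = κ' := by
        funext s
        have := congrFun heq s
        exact add_right_cancel this
      rw [hκ]
  rw [Finset.card_product, Finset.card_univ, ZMod.card, Finset.card_univ, Fintype.card_fun,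
    ZMod.card] at h1
  exact h1

/-- A pivot monomial. -/
theorem ls_pivot {k : ℕ} {n d : Fin k → ℕ} (X : Fin k → ℕ) (P : Pt n ℤ) (hP : Shell X P) :
    ∃ s₀ : Exps n d, Sz d X / 2 ^ (∑ i, d i) ≤ |((mono s₀ P : ℤ) : ℝ)| := by
  have hpiv : ∀ i, ∃ j, nrm (P i) = (P i j).natAbs := by
    intro i
    obtain ⟨j, _, hj⟩ := Finset.exists_mem_eq_sup (univ : Finset (Fin (n i + 1)))
      Finset.univ_nonempty (fun j => (P i j).natAbs)
    exact ⟨j, hj⟩
  choose piv hpiv using hpiv
  refine ⟨fun i => monOf (fun _ : Fin (d i) => piv i), ?_⟩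
  have h1 : (mono (fun i => monOf (fun _ : Fin (d i) => piv i)) P : ℤ) =
      ∏ i, P i (piv i) ^ d i := by
    unfold mono
    apply Finset.prod_congr rfl
    intro i _
    rw [bm_monOf, Finset.prod_const, Finset.card_univ, Fintype.card_fin]
  rw [h1]
  push_cast
  rw [Finset.abs_prod, ← Finset.prod_pow_eq_pow_sum]
  unfold Sz
  rw [← Finset.prod_div_distrib]
  apply Finset.prod_le_prod
  · intro i _
    positivity
  · intro i _
    rw [abs_pow, ← div_pow]
    apply pow_le_pow_left₀ (by positivity)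
    have h2 := (hP i).1
    rw [hpiv i] at h2
    have h3 : (X i : ℝ) < 2 * ((P i (piv i)).natAbs : ℝ) := by exact_mod_cast h2
    have h4 : (((P i (piv i)).natAbs : ℕ) : ℝ) = |(P i (piv i) : ℝ)| := by
      rw [Nat.cast_natAbs]
      push_cast
      rfl
    rw [h4] at h3
    linarith

theorem loss_count {k : ℕ} (n d : Fin k → ℕ) (hd : ∀ i, 1 ≤ d i) : ∃ C : ℝ, 0 < C ∧
    ∀ (W : ℕ) (δ : ℝ), 0 < W → 0 < δ → ∃ H₀ : ℕ, ∀ (X : Fin k → ℕ) (H : ℕ) (P : Pt n ℤ),
    (∀ i, 1 ≤ X i) → H₀ ≤ H → Shell X P → (∀ i, Umod (fun j => ((P i j : ℤ) : ZMod W))) →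
    (((box (Exps n d) H).filter fun c => (W : ℤ) ∣ (evZ c P : ℤ) ∧
      |((evZ c P : ℤ) : ℝ)| ≤ δ * H * Sz d X).card : ℝ) ≤
      C * (δ / W) * (2 * (H : ℝ) + 1) ^ Fintype.card (Exps n d) := by
  set D := ∑ i, d i with hD
  set M := Fintype.card (Exps n d) with hM
  refine ⟨2 ^ (M + D + 1), by positivity, ?_⟩
  intro W δ hW hδ
  haveI : NeZero W := ⟨hW.ne'⟩
  have hWr : (0 : ℝ) < W := by exact_mod_cast hW
  refine ⟨W + ⌈(W : ℝ) / δ⌉₊, ?_⟩
  intro X H P hX hH hP hU
  have hHW : (W : ℝ) ≤ H := by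
    have : W ≤ H := by omega
    exact_mod_cast this
  have hHδ : (W : ℝ) ≤ δ * H := by
    have h1 : ⌈(W : ℝ) / δ⌉₊ ≤ H := by omega
    have h2 : (W : ℝ) / δ ≤ H := (Nat.le_ceil _).trans (by exact_mod_cast h1)
    rw [div_le_iff₀ hδ] at h2
    linarith
  have hH0 : (0 : ℝ) < H := lt_of_lt_of_le hWr hHW
  obtain ⟨s₀, hs₀⟩ := ls_pivot (d := d) X P hP
  have hM1 : 1 ≤ M := by
    rw [hM]
    exact Fintype.card_pos_iff.mpr ⟨s₀⟩
  obtain ⟨b, hb⟩ := bez_one (n := n) (d := d) (fun i j => ((P i j : ℤ) : ZMod W)) hU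
  have hSz : 0 < Sz d X := by
    unfold Sz
    apply Finset.prod_pos
    intro i _
    have : (1 : ℝ) ≤ X i := by exact_mod_cast hX i
    positivity
  set m : Exps n d → ℤ := fun s => mono s P with hm
  set F := (box (Exps n d) H).filter fun c => (W : ℤ) ∣ (evZ c P : ℤ) ∧
      |((evZ c P : ℤ) : ℝ)| ≤ δ * H * Sz d X with hF
  have hev : ∀ c : Exps n d → ℤ, (evZ c P : ℤ) = ∑ s, c s * m s := by
    intro c
    unfold evZ ev
    simp [hm]
  have hmcast : ∀ s : Exps n d, ((m s : ℤ) : ZMod W) =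
      mono s (fun i j => ((P i j : ℤ) : ZMod W)) := by
    intro s
    rw [hm]
    simp only
    unfold mono bm
    push_cast
    rfl
  have hb' : ∑ s, b s * ((m s : ℤ) : ZMod W) = 1 := by
    rw [← hb]
    unfold ev
    apply Finset.sum_congr rfl
    intro s _
    rw [hmcast]
  set Ker := univ.filter fun κ : Exps n d → ZMod W => ∑ s, κ s * ((m s : ℤ) : ZMod W) = 0
    with hKer
  have hker : (Ker.card : ℝ) * W ≤ (W : ℝ) ^ M := by
    have := ls_ker W (fun s => ((m s : ℤ) : ZMod W)) b hb'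
    exact_mod_cast this
  have hmaps : ∀ c ∈ F, (fun s => ((c s : ℤ) : ZMod W)) ∈ Ker := by
    intro c hc
    rw [hF, Finset.mem_filter] at hc
    rw [hKer, Finset.mem_filter]
    refine ⟨Finset.mem_univ _, ?_⟩
    have h1 := hc.2.1
    rw [hev, ← ZMod.intCast_zmod_eq_zero_iff_dvd] at h1
    push_cast at h1
    exact h1
  have hcardF : (F.card : ℝ) = ∑ κ ∈ Ker,
      ((F.filter fun c => (fun s => ((c s : ℤ) : ZMod W)) = κ).card : ℝ) := by
    rw [Finset.card_eq_sum_card_fiberwise (f := fun c : Exps n d → ℤ =>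
      (fun s => ((c s : ℤ) : ZMod W))) (t := Ker) hmaps]
    push_cast
    rfl
  have hfib : ∀ κ ∈ Ker, ((F.filter fun c => (fun s => ((c s : ℤ) : ZMod W)) = κ).card : ℝ) ≤
      (2 * H / W + 1) ^ (M - 1) * (2 * (δ * H * Sz d X) / (Sz d X / 2 ^ D) / W + 1) := by
    intro κ _
    apply ls_fibre W H hW m s₀ (δ * H * Sz d X) (Sz d X / 2 ^ D) (by positivity) (by positivity)
      hs₀ κ
    intro c hc
    rw [Finset.mem_filter, hF, Finset.mem_filter] at hc
    refine ⟨hc.1.1, fun s => congrFun hc.2 s, ?_⟩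
    rw [← hev]
    exact hc.1.2.2
  have h1 : (F.card : ℝ) ≤ (Ker.card : ℝ) *
      ((2 * H / W + 1) ^ (M - 1) * (2 * (δ * H * Sz d X) / (Sz d X / 2 ^ D) / W + 1)) := by
    rw [hcardF]
    have := Finset.sum_le_sum hfib
    rwa [Finset.sum_const, nsmul_eq_mul] at this
  have h2 : 2 * (δ * H * Sz d X) / (Sz d X / 2 ^ D) / W + 1 ≤ 2 ^ (D + 2) * (δ * H / W) := by
    have e1 : 2 * (δ * H * Sz d X) / (Sz d X / 2 ^ D) / W = 2 ^ (D + 1) * (δ * H / W) := by
      field_simp
      ring
    have e2 : 1 ≤ δ * H / W := by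
      rw [le_div_iff₀ hWr]
      linarith
    have e3 : (1 : ℝ) ≤ 2 ^ (D + 1) := one_le_pow₀ (by norm_num)
    rw [e1, pow_succ (2 : ℝ) (D + 1)]
    nlinarith
  have h3 : (2 * (H : ℝ) / W + 1) ^ (M - 1) ≤ (2 * (2 * (H : ℝ) + 1) / W) ^ (M - 1) := by
    apply pow_le_pow_left₀ (by positivity)
    rw [div_add_one hWr.ne']
    apply div_le_div_of_nonneg_right _ hWr.le
    linarith
  have h4 : (Ker.card : ℝ) ≤ (W : ℝ) ^ (M - 1) := by
    have e1 : (W : ℝ) ^ M = (W : ℝ) ^ (M - 1) * W := by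
      rw [← pow_succ]
      congr 1
      omega
    rw [e1] at hker
    exact le_of_mul_le_mul_right hker hWr
  have h5 : (Ker.card : ℝ) *
      ((2 * H / W + 1) ^ (M - 1) * (2 * (δ * H * Sz d X) / (Sz d X / 2 ^ D) / W + 1)) ≤
      (W : ℝ) ^ (M - 1) * ((2 * (2 * (H : ℝ) + 1) / W) ^ (M - 1) *
        (2 ^ (D + 2) * (δ * H / W))) := by
    apply mul_le_mul h4 _ (by positivity) (by positivity)
    exact mul_le_mul h3 h2 (by positivity) (by positivity)
  refine h1.trans (h5.trans ?_)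
  have e1 : (W : ℝ) ^ (M - 1) * ((2 * (2 * (H : ℝ) + 1) / W) ^ (M - 1) *
        (2 ^ (D + 2) * (δ * H / W))) =
      2 ^ (M - 1) * (2 * (H : ℝ) + 1) ^ (M - 1) * 2 ^ (D + 2) * (δ / W) * H := by
    rw [div_pow, mul_pow]
    field_simp
  rw [e1]
  have e2 : (2 * (H : ℝ) + 1) ^ M = (2 * (H : ℝ) + 1) ^ (M - 1) * (2 * (H : ℝ) + 1) := by
    rw [← pow_succ]
    congr 1
    omega
  have e3 : (2 : ℝ) ^ (M + D + 1) = 2 ^ (M - 1) * 2 ^ (D + 2) := by
    rw [← pow_add]
    congr 1
    omega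
  rw [e2, e3]
  have e4 : 2 ^ (M - 1) * (2 * (H : ℝ) + 1) ^ (M - 1) * 2 ^ (D + 2) * (δ / W) * H ≤
      2 ^ (M - 1) * (2 * (H : ℝ) + 1) ^ (M - 1) * 2 ^ (D + 2) * (δ / W) * (2 * H + 1) := by
    apply mul_le_mul_of_nonneg_left _ (by positivity)
    linarith
  refine e4.trans (le_of_eq ?_)
  ring

/-- A non unimodular vector which is unimodular modulo `W` has a large common divisor. -/
theorem ls_gcd {N : ℕ} (x : Fin N → ℤ) (w W B : ℕ) (hdiv : ∀ m, 1 ≤ m → m ≤ w → m ∣ W)
    (h0 : 0 < nrm x) (hB : nrm x ≤ B) (hU : Umod (fun j => ((x j : ℤ) : ZMod W)))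
    (hx : ¬ Umod x) :
    ∃ g : ℕ, w < g ∧ g ≤ B ∧ ∀ j, (g : ℤ) ∣ x j := by
  classical
  obtain ⟨e, he⟩ := exists_gcd_comb x univ
  set g : ℕ := univ.gcd fun p => (x p).natAbs with hg
  have hgd : ∀ j, (g : ℤ) ∣ x j := by
    intro j
    rw [Int.natCast_dvd]
    exact Finset.gcd_dvd (f := fun p => (x p).natAbs) (Finset.mem_univ j)
  have hex : ∃ j, x j ≠ 0 := by
    by_contra hcon
    push Not at hcon
    have : nrm x ≤ 0 := by
      unfold nrm
      apply Finset.sup_le
      intro j _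
      rw [hcon j]
      simp
    omega
  obtain ⟨j, hj⟩ := hex
  have hg0 : g ≠ 0 := by
    intro h
    have := hgd j
    rw [h] at this
    simp at this
    exact hj this
  have hg1 : g ≠ 1 := by
    intro h
    apply hx
    refine ⟨e, ?_⟩
    rw [he, h]
    rfl
  have hgB : g ≤ B := by
    refine le_trans ?_ hB
    have h1 : g ≤ (x j).natAbs := by
      apply Nat.le_of_dvd (by omega)
      have := hgd j
      rwa [Int.natCast_dvd] at this
    exact h1.trans (Finset.le_sup (f := fun j => (x j).natAbs) (Finset.mem_univ j))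
  refine ⟨g, ?_, hgB, hgd⟩
  by_contra hlt
  push Not at hlt
  have hgW := hdiv g (by omega) hlt
  obtain ⟨u, hu⟩ := hU
  have h1 := congrArg (ZMod.castHom hgW (ZMod g)) hu
  rw [map_sum, map_one] at h1
  have h2 : ∑ j, (ZMod.castHom hgW (ZMod g)) (u j * ((x j : ℤ) : ZMod W)) = 0 := by
    apply Finset.sum_eq_zero
    intro j _
    rw [map_mul, map_intCast]
    have : ((x j : ℤ) : ZMod g) = 0 := by
      rw [ZMod.intCast_zmod_eq_zero_iff_dvd]
      exact hgd j
    rw [this, mul_zero]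
  rw [h2] at h1
  haveI : Nontrivial (ZMod g) := by
    haveI : Fact (1 < g) := ⟨by omega⟩
    infer_instance
  exact zero_ne_one h1

/-- Multiples of `g` in `[-X, X]`. -/
theorem ls_mult (X g : ℕ) (hg : 0 < g) (hgX : g ≤ X) :
    ((((Finset.Icc (-(X : ℤ)) (X : ℤ)).filter fun y => (g : ℤ) ∣ y).card : ℕ) : ℝ) ≤
      3 * X / g := by
  have hgr : (0 : ℝ) < g := by exact_mod_cast hg
  have h1 : ((((Finset.Icc (-(X : ℤ)) (X : ℤ)).filter fun y => (g : ℤ) ∣ y).card : ℕ) : ℝ) ≤
      2 * X / g + 1 := by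
    apply ls_cls g hg _ _ (by positivity)
    intro y hy y' hy'
    rw [Finset.mem_filter, Finset.mem_Icc] at hy hy'
    refine ⟨dvd_sub hy.2 hy'.2, ?_⟩
    rw [abs_le]
    have h1 : y - y' ≤ 2 * (X : ℤ) := by omega
    have h2 : -(2 * (X : ℤ)) ≤ y - y' := by omega
    constructor
    · exact_mod_cast h2
    · exact_mod_cast h1
  refine h1.trans ?_
  rw [div_add_one hgr.ne']
  apply div_le_div_of_nonneg_right _ hgr.le
  have : (g : ℝ) ≤ X := by exact_mod_cast hgX
  linarith

theorem nonprim_count {k : ℕ} (n : Fin k → ℕ) (hn : ∀ i, 1 ≤ n i) : ∃ C : ℝ, 0 < C ∧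
    ∀ (w W : ℕ) (X : Fin k → ℕ), 1 ≤ w → 0 < W → (∀ m, 1 ≤ m → m ≤ w → m ∣ W) →
    (∀ i, 1 ≤ X i) → ∀ F : Finset (Pt n ℤ),
    (∀ P ∈ F, Shell X P ∧ (∀ i, Umod (fun j => ((P i j : ℤ) : ZMod W))) ∧
      ¬ ∀ i, Umod (P i)) → (F.card : ℝ) ≤ C / w * Vol n X := by
  classical
  set Nv := ∑ i, (n i + 1) with hNv
  refine ⟨((k : ℝ) + 1) * 3 ^ Nv, by positivity, ?_⟩
  intro w W X hw hW hdiv hX F hF
  have hwr : (0 : ℝ) < w := by
    have : (1 : ℝ) ≤ w := by exact_mod_cast hw
    linarith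
  have hXr : ∀ i, (1 : ℝ) ≤ X i := fun i => by exact_mod_cast hX i
  set A : Fin k → ℕ → Fin k → Finset ℤ := fun i g i' => if i' = i then
    (Finset.Icc (-(X i' : ℤ)) (X i' : ℤ)).filter (fun y => (g : ℤ) ∣ y)
    else Finset.Icc (-(X i' : ℤ)) (X i' : ℤ) with hA
  set Bs : Fin k → ℕ → Finset (Pt n ℤ) := fun i g =>
    Fintype.piFinset fun i' => Fintype.piFinset fun _ => A i g i' with hBs
  have hsub : F ⊆ (univ : Finset (Fin k)).biUnion fun i =>
      (Finset.Ioc w (X i)).biUnion fun g => Bs i g := by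
    intro P hP
    obtain ⟨hS, hU, hnU⟩ := hF P hP
    push Not at hnU
    obtain ⟨i, hi⟩ := hnU
    have h0 : 0 < nrm (P i) := by
      have h1 := (hS i).1
      have h2 := hX i
      omega
    obtain ⟨g, hg1, hg2, hg3⟩ := ls_gcd (P i) w W (X i) hdiv h0 (hS i).2 (hU i) hi
    rw [Finset.mem_biUnion]
    refine ⟨i, Finset.mem_univ _, ?_⟩
    rw [Finset.mem_biUnion]
    refine ⟨g, Finset.mem_Ioc.mpr ⟨hg1, hg2⟩, ?_⟩
    rw [hBs]
    simp only
    rw [Fintype.mem_piFinset]
    intro i'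
    rw [Fintype.mem_piFinset]
    intro j
    have hb : P i' j ∈ Finset.Icc (-(X i' : ℤ)) (X i' : ℤ) := by
      have h1 : (P i' j).natAbs ≤ nrm (P i') :=
        Finset.le_sup (f := fun j => (P i' j).natAbs) (Finset.mem_univ j)
      have h2 := (hS i').2
      rw [Finset.mem_Icc]
      omega
    rw [hA]
    simp only
    by_cases hi' : i' = i
    · subst hi'
      rw [if_pos rfl, Finset.mem_filter]
      exact ⟨hb, hg3 j⟩
    · rw [if_neg hi']
      exact hb
  have hcardB : ∀ i, ∀ g ∈ Finset.Ioc w (X i), ((Bs i g).card : ℝ) ≤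
      3 ^ Nv * Vol n X * ((g : ℝ) ^ 2)⁻¹ := by
    intro i g hg
    rw [Finset.mem_Ioc] at hg
    have hg0 : 0 < g := by omega
    have hgr : (1 : ℝ) ≤ g := by exact_mod_cast hg0
    have hAc : ∀ i', ((A i g i').card : ℝ) ≤ 3 * X i' * (if i' = i then (g : ℝ)⁻¹ else 1) := by
      intro i'
      rw [hA]
      simp only
      by_cases hi' : i' = i
      · subst hi'
        rw [if_pos rfl, if_pos rfl, ← div_eq_mul_inv]
        exact ls_mult (X i') g hg0 hg.2
      · rw [if_neg hi', if_neg hi', Int.card_Icc]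
        have h1 : ((X i' : ℤ) + 1 - -(X i' : ℤ)).toNat = 2 * X i' + 1 := by omega
        rw [h1]
        push_cast
        linarith [hXr i']
    have h1 : ((Bs i g).card : ℝ) = ∏ i', ((A i g i').card : ℝ) ^ (n i' + 1) := by
      rw [hBs]
      simp only
      rw [Fintype.card_piFinset]
      push_cast
      apply Finset.prod_congr rfl
      intro i' _
      rw [Fintype.card_piFinset, Finset.prod_const, Finset.card_univ, Fintype.card_fin]
      push_cast
      rfl
    have h2 : ∏ i', ((A i g i').card : ℝ) ^ (n i' + 1) ≤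
        ∏ i', (3 * X i' * (if i' = i then (g : ℝ)⁻¹ else 1)) ^ (n i' + 1) := by
      apply Finset.prod_le_prod
      · intro i' _
        positivity
      · intro i' _
        exact pow_le_pow_left₀ (by positivity) (hAc i') _
    have h3 : ∏ i', (3 * X i' * (if i' = i then (g : ℝ)⁻¹ else 1)) ^ (n i' + 1) =
        3 ^ Nv * Vol n X * ((g : ℝ)⁻¹) ^ (n i + 1) := by
      simp_rw [mul_pow]
      rw [Finset.prod_mul_distrib, Finset.prod_mul_distrib, Finset.prod_pow_eq_pow_sum]
      have h4 : ∏ i', (if i' = i then (g : ℝ)⁻¹ else 1) ^ (n i' + 1) =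
          ((g : ℝ)⁻¹) ^ (n i + 1) := by
        rw [Finset.prod_eq_single i]
        · rw [if_pos rfl]
        · intro i' _ hi'
          rw [if_neg hi', one_pow]
        · intro h
          exact absurd (Finset.mem_univ _) h
      rw [h4]
      rfl
    rw [h1]
    refine h2.trans ?_
    rw [h3]
    have hVol : 0 ≤ Vol n X := by
      unfold Vol
      apply Finset.prod_nonneg
      intro i _
      positivity
    apply mul_le_mul_of_nonneg_left _ (by positivity)
    rw [← inv_pow]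
    apply pow_le_pow_of_le_one (by positivity)
    · exact inv_le_one_of_one_le₀ hgr
    · have := hn i
      omega
  have hVol : 0 ≤ Vol n X := by
    unfold Vol
    apply Finset.prod_nonneg
    intro i _
    positivity
  have hsumg : ∀ i, ∑ g ∈ Finset.Ioc w (X i), ((g : ℝ) ^ 2)⁻¹ ≤ (w : ℝ)⁻¹ := by
    intro i
    by_cases hwX : w ≤ X i
    · have h1 := sum_Ioc_inv_sq_le_sub (α := ℝ) (by omega : w ≠ 0) hwX
      have h2 : 0 ≤ ((X i : ℕ) : ℝ)⁻¹ := by positivity
      linarith
    · rw [Finset.Ioc_eq_empty (by omega)]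
      simp only [Finset.sum_empty]
      positivity
  have hcard : (F.card : ℝ) ≤ ∑ i : Fin k, ∑ g ∈ Finset.Ioc w (X i), ((Bs i g).card : ℝ) := by
    have h1 := Finset.card_le_card hsub
    have h2 : ((univ : Finset (Fin k)).biUnion fun i =>
      (Finset.Ioc w (X i)).biUnion fun g => Bs i g).card ≤
        ∑ i : Fin k, ∑ g ∈ Finset.Ioc w (X i), (Bs i g).card := by
      refine Finset.card_biUnion_le.trans ?_
      apply Finset.sum_le_sum
      intro i _
      exact Finset.card_biUnion_le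
    have h3 := h1.trans h2
    exact_mod_cast h3
  refine hcard.trans ?_
  have h1 : ∀ i ∈ (univ : Finset (Fin k)), ∑ g ∈ Finset.Ioc w (X i), ((Bs i g).card : ℝ) ≤
      3 ^ Nv * Vol n X * (w : ℝ)⁻¹ := by
    intro i _
    refine (Finset.sum_le_sum (hcardB i)).trans ?_
    rw [← Finset.mul_sum]
    exact mul_le_mul_of_nonneg_left (hsumg i) (by positivity)
  refine (Finset.sum_le_sum h1).trans ?_
  rw [Finset.sum_const, Finset.card_univ, Fintype.card_fin, nsmul_eq_mul]
  have h2 : ((k : ℝ) + 1) * 3 ^ Nv / w * Vol n X =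
      (k : ℝ) * (3 ^ Nv * Vol n X * (w : ℝ)⁻¹) + 3 ^ Nv * Vol n X * (w : ℝ)⁻¹ := by
    ring
  rw [h2]
  have h3 : 0 ≤ 3 ^ Nv * Vol n X * (w : ℝ)⁻¹ := by positivity
  linarith

end Pool.Agent.HP
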