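import Pool.Agent.Lib.MP_fc0680_nt.Tri

/-!
# MP_fc0680_nt : PSING

Forms which are singular modulo `N` are rare.
-/

set_option autoImplicit false
open Finset Filter

namespace Pool.Agent.HP

open Tri

/-- For a given normalised point, the number of forms singular at it. -/
theorem psing_core {k : ℕ} (n d : Fin k → ℕ) (hd : ∀ i, 1 ≤ d i) (N : ℕ)
    [NeZero N] (piv : (i : Fin k) → Fin (n i + 1)) (z : Pt n (ZMod N))
    (hz : ∀ i, z i (piv i) = 1) (G : Finset (Exps n d → ZMod N))
    (hG : ∀ c ∈ G, ev c z = 0 ∧ ∀ i j, dev c z i j = 0) :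
    G.card ≤ N ^ (Fintype.card (Exps n d) - (∑ i, n i + 1)) := by
  have hcard : Fintype.card ({s // s ∈ V hd piv} → ZMod N) =
      N ^ (Fintype.card (Exps n d) - (∑ i, n i + 1)) := by
    rw [Fintype.card_fun, ZMod.card, Fintype.card_coe, card_V]
  rw [← hcard, ← Finset.card_univ]
  refine Finset.card_le_card_of_injOn (fun c s => c s.1) (fun _ _ => Finset.mem_univ _) ?_
  intro c hc c' hc' hcc
  obtain ⟨h1, h2⟩ := hG c hc
  obtain ⟨h1', h2'⟩ := hG c' hc'
  have hV : ∀ s ∈ V hd piv, c s = c' s := fun s hs => congrFun hcc ⟨s, hs⟩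
  have ha : ∀ a : NP piv, c (u hd piv (some a)) = c' (u hd piv (some a)) := by
    intro a
    have e1 := dev_split hd piv z hz c a
    have e2 := dev_split hd piv z hz c' a
    rw [h2] at e1
    rw [h2'] at e2
    have e3 : ∑ s ∈ V hd piv, c s * dmono s z a.1 a.2.1 =
        ∑ s ∈ V hd piv, c' s * dmono s z a.1 a.2.1 :=
      Finset.sum_congr rfl fun s hs => by rw [hV s hs]
    rw [e3] at e1
    have e4 := e1.symm.trans e2
    exact add_right_cancel e4
  have h0 : c (u hd piv none) = c' (u hd piv none) := by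
    have e1 := ev_split hd piv z hz c
    have e2 := ev_split hd piv z hz c'
    rw [h1] at e1
    rw [h1'] at e2
    have e3 : ∑ s ∈ V hd piv, c s * mono s z = ∑ s ∈ V hd piv, c' s * mono s z :=
      Finset.sum_congr rfl fun s hs => by rw [hV s hs]
    have e5 : ∑ a, c (u hd piv (some a)) * mono (u hd piv (some a)) z =
        ∑ a, c' (u hd piv (some a)) * mono (u hd piv (some a)) z :=
      Finset.sum_congr rfl fun a _ => by rw [ha a]
    rw [e3, e5] at e1
    have e4 := e1.symm.trans e2
    exact add_right_cancel (add_right_cancel e4)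
  funext s
  by_cases hs : s ∈ V hd piv
  · exact hV s hs
  · obtain ⟨a, rfl⟩ := not_mem_V hd piv s hs
    cases a with
    | none => exact h0
    | some a => exact ha a

theorem psing {k : ℕ} (n d : Fin k → ℕ) (hn : ∀ i, 1 ≤ n i) (hd : ∀ i, 1 ≤ d i) (N : ℕ)
    [NeZero N] (F : Finset (Exps n d → ZMod N)) (hF : ∀ c ∈ F, SingMod N c) :
    F.card ≤ (∏ i, (n i + 1)) * N ^ (Fintype.card (Exps n d) - 1) := by
  classical
  set A : Finset (Σ piv : (i : Fin k) → Fin (n i + 1), NP piv → ZMod N) := univ with hA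
  set G : (Σ piv : (i : Fin k) → Fin (n i + 1), NP piv → ZMod N) → Finset (Exps n d → ZMod N) :=
    fun a => univ.filter fun c => ev c (pt a.1 a.2) = 0 ∧ ∀ i j, dev c (pt a.1 a.2) i j = 0
    with hGdef
  have hsub : F ⊆ A.biUnion G := by
    intro c hc
    obtain ⟨z, h1, h2, h3⟩ := hF c hc
    choose piv hpiv using h1
    rw [Finset.mem_biUnion]
    refine ⟨⟨piv, fun a => z a.1 a.2.1⟩, Finset.mem_univ _, ?_⟩
    rw [hGdef, Finset.mem_filter]
    dsimp only
    rw [← pt_eq piv z hpiv]
    exact ⟨Finset.mem_univ _, h2, h3⟩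
  have hcard : Fintype.card (Σ piv : (i : Fin k) → Fin (n i + 1), NP piv → ZMod N) =
      (∏ i, (n i + 1)) * N ^ (∑ i, n i) := by
    rw [Fintype.card_sigma]
    have h1 : ∀ piv : (i : Fin k) → Fin (n i + 1), Fintype.card (NP piv → ZMod N) =
        N ^ (∑ i, n i) := by
      intro piv
      rw [Fintype.card_fun, ZMod.card, card_NP]
    rw [Finset.sum_congr rfl fun piv _ => h1 piv, Finset.sum_const, Finset.card_univ,
      Fintype.card_pi, smul_eq_mul]
    simp
  calc F.card ≤ (A.biUnion G).card := Finset.card_le_card hsub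
    _ ≤ A.card * N ^ (Fintype.card (Exps n d) - (∑ i, n i + 1)) := by
        refine Finset.card_biUnion_le_card_mul _ _ _ fun a _ => ?_
        refine psing_core n d hd N a.1 (pt a.1 a.2) (pt_piv a.1 a.2) (G a) fun c hc => ?_
        exact (Finset.mem_filter.mp hc).2
    _ = (∏ i, (n i + 1)) * N ^ (Fintype.card (Exps n d) - 1) := by
        rw [hA, Finset.card_univ, hcard, mul_assoc, ← pow_add]
        congr 2
        have := card_le (n := n) hd
        omega

end Pool.Agent.HP
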