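import Pool.Agent.Lib.MP_fc0680_nt.Deriv

set_option autoImplicit false
open Finset Filter

namespace Pool.Agent.HP

/-! ## RCOUNT : integer points near a robust real zero -/

/-- Integers of an interval in a residue class. -/
noncomputable def rcInt (W : ℕ) (z : ZMod W) (α β : ℝ) : Finset ℤ :=
  (Finset.Icc ⌈α⌉ ⌊β⌋).filter (fun y => ((y : ℤ) : ZMod W) = z)

theorem mem_rcInt {W : ℕ} {z : ZMod W} {α β : ℝ} {y : ℤ} :
    y ∈ rcInt W z α β ↔ (α ≤ (y : ℝ) ∧ (y : ℝ) ≤ β) ∧ ((y : ℤ) : ZMod W) = z := by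
  unfold rcInt
  rw [Finset.mem_filter, Finset.mem_Icc, Int.ceil_le, Int.le_floor]

theorem card_rcInt (W : ℕ) [NeZero W] (z : ZMod W) (α β : ℝ) (h : 2 * (W : ℝ) ≤ β - α) :
    (β - α) / (2 * W) ≤ ((rcInt W z α β).card : ℝ) := by
  have hW : (0 : ℝ) < W := by
    have := NeZero.pos W
    exact_mod_cast this
  set m : ℕ := ⌊(β - α) / W⌋₊ with hm
  have hm1 : (β - α) / W - 1 < m := by
    have := Nat.lt_floor_add_one ((β - α) / W)
    rw [← hm] at this
    linarith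
  have hnn : 0 ≤ (β - α) / W := div_nonneg (by linarith) hW.le
  have hm2 : (m : ℝ) ≤ (β - α) / W := Nat.floor_le hnn
  set r : ℤ := ((z.val : ℤ) - ⌈α⌉) % (W : ℤ) with hr
  have hWZ : (0 : ℤ) < (W : ℤ) := by exact_mod_cast NeZero.pos W
  have hr0 : 0 ≤ r := Int.emod_nonneg _ hWZ.ne'
  have hr1 : r < W := Int.emod_lt_of_pos _ hWZ
  have hcard : m ≤ (rcInt W z α β).card := by
    have hinj : Set.InjOn (fun t : ℕ => ⌈α⌉ + r + (W : ℤ) * (t : ℤ)) (Finset.range m : Finset ℕ) := by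
      intro t _ t' _ htt
      have h1 : (W : ℤ) * (t : ℤ) = (W : ℤ) * (t' : ℤ) := by
        simpa using htt
      have h2 := mul_left_cancel₀ hWZ.ne' h1
      exact_mod_cast h2
    have hmaps : Set.MapsTo (fun t : ℕ => ⌈α⌉ + r + (W : ℤ) * (t : ℤ))
        (Finset.range m : Finset ℕ) (rcInt W z α β : Finset ℤ) := by
      intro t ht
      have ht' : t < m := by simpa using ht
      simp only [Finset.mem_coe]
      rw [mem_rcInt]
      refine ⟨⟨?_, ?_⟩, ?_⟩
      · push_cast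
        have h1 : α ≤ (⌈α⌉ : ℝ) := Int.le_ceil α
        have h2 : (0 : ℝ) ≤ (r : ℝ) := by exact_mod_cast hr0
        have h3 : (0 : ℝ) ≤ (W : ℝ) * (t : ℝ) := by positivity
        linarith
      · push_cast
        have h1 : (⌈α⌉ : ℝ) < α + 1 := Int.ceil_lt_add_one α
        have h2 : (r : ℝ) ≤ (W : ℝ) - 1 := by
          have : r ≤ (W : ℤ) - 1 := by omega
          exact_mod_cast this
        have h3 : (t : ℝ) ≤ (m : ℝ) - 1 := by
          have : (t : ℤ) ≤ (m : ℤ) - 1 := by omega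
          exact_mod_cast this
        have h4 : (W : ℝ) * (t : ℝ) ≤ (W : ℝ) * ((β - α) / W - 1) :=
          mul_le_mul_of_nonneg_left (by linarith) hW.le
        have h5 : (W : ℝ) * ((β - α) / W - 1) = β - α - W := by
          field_simp
        linarith
      · have h1 : ((r : ℤ) : ZMod W) = (((z.val : ℤ) - ⌈α⌉ : ℤ) : ZMod W) := by
          rw [ZMod.intCast_eq_intCast_iff]
          exact Int.mod_modEq _ _
        push_cast
        push_cast at h1
        rw [h1]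
        simp
    have := Finset.card_le_card_of_injOn _ hmaps hinj
    simpa using this
  have h1 : (m : ℝ) ≤ ((rcInt W z α β).card : ℝ) := by exact_mod_cast hcard
  have h2 : 1 ≤ (β - α) / (2 * W) := by
    rw [le_div_iff₀ (by positivity)]
    linarith
  have h3 : (β - α) / W = 2 * ((β - α) / (2 * W)) := by
    field_simp
  linarith

/-- Update of one coordinate of a point. -/
def rcUpd {k : ℕ} {n : Fin k → ℕ} {R : Type} (P : Pt n R) (i : Fin k) (j : Fin (n i + 1)) (y : R) :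
    Pt n R :=
  Function.update P i (Function.update (P i) j y)

theorem rcUpd_same {k : ℕ} {n : Fin k → ℕ} {R : Type} (P : Pt n R) (i : Fin k)
    (j : Fin (n i + 1)) (y : R) : rcUpd P i j y i j = y := by
  simp [rcUpd]

theorem rcUpd_block {k : ℕ} {n : Fin k → ℕ} {R : Type} (P : Pt n R) (i : Fin k)
    (j : Fin (n i + 1)) (y : R) (i' : Fin k) (h : i' ≠ i) : rcUpd P i j y i' = P i' := by
  simp [rcUpd, h]

theorem rcUpd_ne {k : ℕ} {n : Fin k → ℕ} {R : Type} (P : Pt n R) (i : Fin k)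
    (j : Fin (n i + 1)) (y : R) (j' : Fin (n i + 1)) (h : j' ≠ j) :
    rcUpd P i j y i j' = P i j' := by
  simp [rcUpd, h]

/-- The Lipschitz constants of `ev_lip`. -/
def RcLip {k : ℕ} (n d : Fin k → ℕ) (C : ℝ) : Prop :=
  ∀ (H : ℝ) (c : Exps n d → ℝ)
    (P Q : Pt n ℝ) (r : ℝ), 0 ≤ H → 0 ≤ r → (∀ s, |c s| ≤ H) → (∀ i j, |P i j| ≤ 1) →
    (∀ i j, |Q i j| ≤ 1) → (∀ i j, |P i j - Q i j| ≤ r) →
    |ev c P - ev c Q| ≤ C * H * r ∧ |ev c P| ≤ C * H ∧
    ∀ i j, |dev c P i j - dev c Q i j| ≤ C * H * r ∧ |dev c P i j| ≤ C * H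

theorem rc_root {k : ℕ} {n d : Fin k → ℕ} (C : ℝ) (hL : RcLip n d C)
    (H : ℝ) (hH : 0 < H) (c : Exps n d → ℝ) (hc : ∀ s, |c s| ≤ H) (a : Pt n ℝ)
    (ha : ∀ i j, |a i j| ≤ 3 / 4) (h0 : ev c a = 0)
    (i₁ : Fin k) (j₁ : Fin (n i₁ + 1)) (γ₁ : ℝ) (hγ : 0 < γ₁) (hd : γ₁ * H ≤ |dev c a i₁ j₁|)
    (ρ ρ' : ℝ) (hρ0 : 0 < ρ) (hρ : ρ ≤ 1 / 8) (hρ1 : 2 * C * ρ ≤ γ₁) (hρ'0 : 0 < ρ')
    (hρ' : ρ' ≤ ρ) (hρ'1 : 4 * C * ρ' ≤ γ₁ * ρ)
    (p : Pt n ℝ) (hp : ∀ i j, |p i j - a i j| ≤ ρ') (hpv : p i₁ j₁ = a i₁ j₁) :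
    ∃ y₁ : ℝ, |y₁ - a i₁ j₁| ≤ ρ / 2 ∧ ∀ y : ℝ, |y - y₁| ≤ ρ / 2 →
      (∀ i j, |(rcUpd p i₁ j₁ y) i j - a i j| ≤ ρ) ∧
        |ev c (rcUpd p i₁ j₁ y)| ≤ C * H * |y - y₁| := by
  have hclose : ∀ y : ℝ, |y - a i₁ j₁| ≤ ρ → ∀ i j, |(rcUpd p i₁ j₁ y) i j - a i j| ≤ ρ := by
    intro y hy i j
    by_cases hi : i = i₁
    · subst hi
      by_cases hj : j = j₁
      · subst hj
        rw [rcUpd_same]
        exact hy
      · rw [rcUpd_ne _ _ _ _ _ hj]
        exact (hp i j).trans hρ'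
    · rw [rcUpd_block _ _ _ _ _ hi]
      exact (hp i j).trans hρ'
  have hone : ∀ y : ℝ, |y - a i₁ j₁| ≤ ρ → ∀ i j, |(rcUpd p i₁ j₁ y) i j| ≤ 1 := by
    intro y hy i j
    have h1 := hclose y hy i j
    have h2 := ha i j
    rw [abs_le] at h1 h2 ⊢
    constructor <;> linarith [h1.1, h1.2, h2.1, h2.2]
  have ha1 : ∀ i j, |a i j| ≤ 1 := fun i j => (ha i j).trans (by norm_num)
  set q : Polynomial ℝ := line c p i₁ j₁ with hq
  have hqe : ∀ y, q.eval y = ev c (rcUpd p i₁ j₁ y) := fun y => eval_line c p i₁ j₁ y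
  have hqd : ∀ y, q.derivative.eval y = dev c (rcUpd p i₁ j₁ y) i₁ j₁ := by
    intro y
    unfold dev
    have h1 : line c (rcUpd p i₁ j₁ y) i₁ j₁ = q := line_update c p i₁ j₁ y
    rw [h1, rcUpd_same]
  set D : ℝ := dev c a i₁ j₁ with hD
  have hDpos : 0 < |D| := lt_of_lt_of_le (by positivity) hd
  have hD2 : D * D = |D| * |D| := (abs_mul_abs_self D).symm
  -- derivative is close to D
  have hder : ∀ y : ℝ, |y - a i₁ j₁| ≤ ρ → |q.derivative.eval y - D| ≤ |D| / 2 := by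
    intro y hy
    rw [hqd]
    have h1 := ((hL H c (rcUpd p i₁ j₁ y) a ρ hH.le hρ0.le hc (hone y hy) ha1
      (hclose y hy)).2.2 i₁ j₁).1
    refine h1.trans ?_
    have : 2 * (C * H * ρ) ≤ γ₁ * H := by nlinarith
    linarith
  have hderD : ∀ y : ℝ, |y - a i₁ j₁| ≤ ρ → |D| * |D| / 2 ≤ D * q.derivative.eval y := by
    intro y hy
    have h1 := hder y hy
    have h2 : D * q.derivative.eval y = D * D + D * (q.derivative.eval y - D) := by ring
    have h3 : |D * (q.derivative.eval y - D)| ≤ |D| * (|D| / 2) := by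
      rw [abs_mul]
      exact mul_le_mul_of_nonneg_left h1 (abs_nonneg _)
    have h4 := (abs_le.mp h3).1
    rw [h2, hD2]
    linarith
  -- value at the centre
  have hp0 : rcUpd p i₁ j₁ (a i₁ j₁) = p := by
    unfold rcUpd
    rw [← hpv]
    simp
  have hp1 : ∀ i j, |p i j| ≤ 1 := by
    intro i j
    have := hone (a i₁ j₁) (by simp [hρ0.le]) i j
    rwa [hp0] at this
  have hval : |q.eval (a i₁ j₁)| ≤ |D| * (ρ / 4) := by
    rw [hqe, hp0]
    have h1 := (hL H c p a ρ' hH.le hρ'0.le hc hp1 ha1 hp).1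
    rw [h0, sub_zero] at h1
    refine h1.trans ?_
    have h2 : 4 * (C * H * ρ') ≤ (γ₁ * H) * ρ := by nlinarith
    have h3 : (γ₁ * H) * ρ ≤ |D| * ρ := mul_le_mul_of_nonneg_right hd hρ0.le
    linarith
  have hvalD : |D * q.eval (a i₁ j₁)| ≤ |D| * |D| * (ρ / 4) := by
    rw [abs_mul]
    have := mul_le_mul_of_nonneg_left hval (abs_nonneg D)
    linarith
  -- mean value
  have hmvt : ∀ u v : ℝ, u < v → |u - a i₁ j₁| ≤ ρ → |v - a i₁ j₁| ≤ ρ →
      |D| * |D| / 2 * (v - u) ≤ D * q.eval v - D * q.eval u := by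
    intro u v huv hu hv
    obtain ⟨x, hx, hx2⟩ := exists_hasDerivAt_eq_slope (fun y => q.eval y)
      (fun y => q.derivative.eval y) huv q.continuous.continuousOn
      (fun y _ => q.hasDerivAt y)
    have hxc : |x - a i₁ j₁| ≤ ρ := by
      rw [abs_le] at hu hv ⊢
      constructor <;> linarith [hx.1, hx.2, hu.1, hu.2, hv.1, hv.2]
    have h1 := hderD x hxc
    have h2 : q.derivative.eval x * (v - u) = q.eval v - q.eval u := by
      rw [hx2, div_mul_cancel₀]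
      linarith
    have h3 : D * q.eval v - D * q.eval u = (D * q.derivative.eval x) * (v - u) := by
      rw [mul_assoc, h2]; ring
    rw [h3]
    exact mul_le_mul_of_nonneg_right h1 (by linarith)
  have hup : 0 ≤ D * q.eval (a i₁ j₁ + ρ / 2) := by
    have h1 := hmvt (a i₁ j₁) (a i₁ j₁ + ρ / 2) (by linarith) (by simp [hρ0.le])
      (by rw [add_sub_cancel_left, abs_of_nonneg (by linarith)]; linarith)
    have h2 := (abs_le.mp hvalD).1
    have h3 : |D| * |D| / 2 * (a i₁ j₁ + ρ / 2 - a i₁ j₁) = |D| * |D| * (ρ / 4) := by ring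
    linarith
  have hlo : D * q.eval (a i₁ j₁ - ρ / 2) ≤ 0 := by
    have h1 := hmvt (a i₁ j₁ - ρ / 2) (a i₁ j₁) (by linarith)
      (by rw [show a i₁ j₁ - ρ / 2 - a i₁ j₁ = -(ρ / 2) by ring, abs_neg,
            abs_of_nonneg (by linarith)]; linarith) (by simp [hρ0.le])
    have h2 := (abs_le.mp hvalD).2
    have h3 : |D| * |D| / 2 * (a i₁ j₁ - (a i₁ j₁ - ρ / 2)) = |D| * |D| * (ρ / 4) := by ring
    linarith
  have hcont : ContinuousOn (fun y => D * q.eval y)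
      (Set.Icc (a i₁ j₁ - ρ / 2) (a i₁ j₁ + ρ / 2)) :=
    (continuous_const.mul q.continuous).continuousOn
  have hivt := intermediate_value_Icc (show a i₁ j₁ - ρ / 2 ≤ a i₁ j₁ + ρ / 2 by linarith) hcont
  obtain ⟨y₁, hy₁, hy₂⟩ := hivt ⟨hlo, hup⟩
  have hy₁c : |y₁ - a i₁ j₁| ≤ ρ / 2 := by
    rw [abs_le]
    constructor <;> linarith [hy₁.1, hy₁.2]
  have hroot : ev c (rcUpd p i₁ j₁ y₁) = 0 := by
    rw [← hqe]
    have hD0 : D ≠ 0 := abs_pos.mp hDpos
    exact (mul_eq_zero.mp hy₂).resolve_left hD0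
  refine ⟨y₁, hy₁c, ?_⟩
  intro y hy
  have hyc : |y - a i₁ j₁| ≤ ρ := by
    have := abs_sub_le y y₁ (a i₁ j₁)
    linarith
  refine ⟨hclose y hyc, ?_⟩
  have h1 := (hL H c (rcUpd p i₁ j₁ y) (rcUpd p i₁ j₁ y₁) |y - y₁| hH.le (abs_nonneg _) hc
    (hone y hyc) (hone y₁ (hy₁c.trans (by linarith))) ?_).1
  · rwa [hroot, sub_zero] at h1
  · intro i j
    by_cases hi : i = i₁
    · subst hi
      by_cases hj : j = j₁
      · subst hj
        rw [rcUpd_same, rcUpd_same]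
      · rw [rcUpd_ne _ _ _ _ _ hj, rcUpd_ne _ _ _ _ _ hj]
        simp
    · rw [rcUpd_block _ _ _ _ _ hi, rcUpd_block _ _ _ _ _ hi]
      simp

theorem rc_prod {k : ℕ} {n : Fin k → ℕ} (g : Pt n ℝ) (i₁ : Fin k) (j₁ : Fin (n i₁ + 1)) :
    (∏ i, ∏ j, rcUpd g i₁ j₁ 1 i j) * g i₁ j₁ = ∏ i, ∏ j, g i j := by
  rw [← Finset.mul_prod_erase univ (fun i => ∏ j, rcUpd g i₁ j₁ 1 i j) (Finset.mem_univ i₁),
    ← Finset.mul_prod_erase univ (fun i => ∏ j, g i j) (Finset.mem_univ i₁)]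
  have h1 : ∏ i ∈ univ.erase i₁, ∏ j, rcUpd g i₁ j₁ 1 i j = ∏ i ∈ univ.erase i₁, ∏ j, g i j := by
    apply Finset.prod_congr rfl
    intro i hi
    rw [rcUpd_block _ _ _ _ _ (Finset.ne_of_mem_erase hi)]
  have h2 : (∏ j, rcUpd g i₁ j₁ 1 i₁ j) * g i₁ j₁ = ∏ j, g i₁ j := by
    rw [← Finset.mul_prod_erase univ (fun j => rcUpd g i₁ j₁ 1 i₁ j) (Finset.mem_univ j₁),
      ← Finset.mul_prod_erase univ (fun j => g i₁ j) (Finset.mem_univ j₁)]
    have h3 : ∏ j ∈ univ.erase j₁, rcUpd g i₁ j₁ 1 i₁ j = ∏ j ∈ univ.erase j₁, g i₁ j := by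
      apply Finset.prod_congr rfl
      intro j hj
      rw [rcUpd_ne _ _ _ _ _ (Finset.ne_of_mem_erase hj)]
    rw [h3, rcUpd_same]
    ring
  rw [h1, ← h2]
  ring

theorem rcUpd_rcUpd {k : ℕ} {n : Fin k → ℕ} {R : Type} (P : Pt n R) (i : Fin k)
    (j : Fin (n i + 1)) (y y' : R) : rcUpd (rcUpd P i j y) i j y' = rcUpd P i j y' := by
  simp [rcUpd]

theorem rc_cast {k : ℕ} {n d : Fin k → ℕ} (c : Exps n d → ℤ) (P : Pt n ℤ) (X : Fin k → ℕ)
    (N : Pt n ℝ) (hN : ∀ i j, (P i j : ℝ) = X i * N i j) :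
    ((evZ c P : ℤ) : ℝ) = Sz d X * ev (fun s => (c s : ℝ)) N := by
  have h1 := map_ev (Int.castRingHom ℝ) c P
  have h2 : (evZ c P : ℤ) = ev c P := by
    unfold evZ
    simp
  rw [h2]
  have h3 : ((ev c P : ℤ) : ℝ) = ev (fun s => (c s : ℝ)) (fun i j => (P i j : ℝ)) := h1
  rw [h3]
  have h4 : (fun i j => (P i j : ℝ) : Pt n ℝ) = fun i j => (X i : ℝ) * N i j := by
    funext i j
    exact hN i j
  rw [h4, ev_smul]
  rfl

theorem rc_mem_shell {k : ℕ} {n : Fin k → ℕ} (X : Fin k → ℕ) (P : Pt n ℤ)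
    (hP : ∀ i j, (P i j).natAbs ≤ X i) (hs : Shell X P) : P ∈ shell n X := by
  classical
  refine Finset.mem_filter.mpr ⟨?_, hs⟩
  refine Fintype.mem_piFinset.mpr ?_
  intro i
  refine Fintype.mem_piFinset.mpr ?_
  intro j
  rw [Finset.mem_Icc]
  have := hP i j
  omega

theorem rcount {k : ℕ} (n d : Fin k → ℕ) (hd : ∀ i, 1 ≤ d i) (γ : ℝ) (hγ : 0 < γ) :
    ∃ κ : ℝ, 0 < κ ∧ ∃ δ₁ : ℝ, 0 < δ₁ ∧ ∀ δ : ℝ, 0 < δ → δ ≤ δ₁ → ∀ (W : ℕ) [NeZero W],
    ∃ X₀ : ℕ, ∀ (X : Fin k → ℕ) (H : ℕ) (c : Exps n d → ℤ), (∀ i, X₀ ≤ X i) → 1 ≤ H →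
    c ∈ box (Exps n d) H → RobustReal γ H c → ∀ z : Pt n (ZMod W),
    κ * δ * Vol n X / (W : ℝ) ^ (∑ i, (n i + 1)) ≤
      (((shell n X).filter fun P => (∀ i j, ((P i j : ℤ) : ZMod W) = z i j) ∧
        |((evZ c P : ℤ) : ℝ)| ≤ δ * H * Sz d X).card : ℝ) := by
  obtain ⟨C, hC, hL⟩ := ev_lip n d
  set γ₁ : ℝ := (3 / 4 : ℝ) ^ (∑ i, d i) * γ with hγ₁
  have hγ₁0 : 0 < γ₁ := by positivity
  set ρ : ℝ := min (1 / 8) (γ₁ / (2 * C)) with hρdef
  have hρ0 : 0 < ρ := lt_min (by norm_num) (by positivity)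
  have hρ8 : ρ ≤ 1 / 8 := min_le_left _ _
  have hρ1 : 2 * C * ρ ≤ γ₁ := by
    have : ρ ≤ γ₁ / (2 * C) := min_le_right _ _
    rw [le_div_iff₀ (by positivity)] at this
    linarith
  set ρ' : ℝ := min ρ (γ₁ * ρ / (4 * C)) with hρ'def
  have hρ'0 : 0 < ρ' := lt_min hρ0 (by positivity)
  have hρ'ρ : ρ' ≤ ρ := min_le_left _ _
  have hρ'1 : 4 * C * ρ' ≤ γ₁ * ρ := by
    have : ρ' ≤ γ₁ * ρ / (4 * C) := min_le_right _ _
    rw [le_div_iff₀ (by positivity)] at this
    linarith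
  refine ⟨ρ' ^ (∑ i, (n i + 1)) / (C * ρ'), by positivity, C * ρ / 2, by positivity, ?_⟩
  intro δ hδ hδ₁ W _
  have hW : (0 : ℝ) < W := by
    have := NeZero.pos W
    exact_mod_cast this
  refine ⟨⌈(W : ℝ) / ρ' + C * W / δ⌉₊ + 1, ?_⟩
  intro X H c hX hH hc hR z
  have hXr : ∀ i, (W : ℝ) / ρ' + C * W / δ + 1 ≤ X i := by
    intro i
    have h1 : ((⌈(W : ℝ) / ρ' + C * W / δ⌉₊ + 1 : ℕ) : ℝ) ≤ X i := by exact_mod_cast hX i
    push_cast at h1
    have h2 := Nat.le_ceil ((W : ℝ) / ρ' + C * W / δ)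
    linarith
  have hWρ : 0 < (W : ℝ) / ρ' := by positivity
  have hWδ : 0 < C * (W : ℝ) / δ := by positivity
  have hX0 : ∀ i, (0 : ℝ) < X i := fun i => by linarith [hXr i]
  have hX1 : ∀ i, (W : ℝ) ≤ ρ' * X i := by
    intro i
    have h1 : (W : ℝ) / ρ' ≤ X i := by linarith [hXr i]
    rw [div_le_iff₀ hρ'0] at h1
    linarith
  have hX2 : ∀ i, C * (W : ℝ) ≤ δ * X i := by
    intro i
    have h1 : C * (W : ℝ) / δ ≤ X i := by linarith [hXr i]
    rw [div_le_iff₀ hδ] at h1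
    linarith
  obtain ⟨P0, piv, i₁, j₁, hP1, hPpiv, hP0, hj₁, hdev⟩ := hR
  have hHr : (0 : ℝ) < (H : ℝ) := by
    have : (1 : ℝ) ≤ H := by exact_mod_cast hH
    linarith
  have hcH : ∀ s, |((c s : ℤ) : ℝ)| ≤ (H : ℝ) := by
    intro s
    have h1 := Fintype.mem_piFinset.mp hc s
    rw [Finset.mem_Icc] at h1
    rw [abs_le]
    constructor
    · exact_mod_cast h1.1
    · exact_mod_cast h1.2
  set cr : Exps n d → ℝ := fun s => (c s : ℝ) with hcr
  set a : Pt n ℝ := fun i j => (3 / 4 : ℝ) * P0 i j with hadef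
  have haa : ∀ i j, |a i j| ≤ 3 / 4 := by
    intro i j
    rw [hadef]
    simp only
    rw [abs_mul, abs_of_nonneg (by norm_num : (0 : ℝ) ≤ 3 / 4)]
    have := hP1 i j
    linarith
  have ha0 : ev cr a = 0 := by
    have h1 := ev_smul cr P0 (fun _ => (3 / 4 : ℝ))
    have h2 : ev cr P0 = 0 := hP0
    rw [h2, mul_zero] at h1
    exact h1
  have hadev : γ₁ * H ≤ |dev cr a i₁ j₁| := by
    have h1 := dev_smul cr P0 (fun _ => (3 / 4 : ℝ)) i₁ j₁
    have h2 : ∏ i : Fin k, (3 / 4 : ℝ) ^ d i = (3 / 4 : ℝ) ^ (∑ i, d i) :=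
      Finset.prod_pow_eq_pow_sum _ _ _
    rw [h2] at h1
    have h3 : (3 / 4 : ℝ) * |dev cr a i₁ j₁| = (3 / 4 : ℝ) ^ (∑ i, d i) * |dev cr P0 i₁ j₁| := by
      have h4 := congrArg abs h1
      rw [abs_mul, abs_mul, abs_of_nonneg (by norm_num : (0 : ℝ) ≤ 3 / 4),
        abs_of_nonneg (by positivity : (0 : ℝ) ≤ (3 / 4 : ℝ) ^ (∑ i, d i))] at h4
      exact h4
    have h5 : (3 / 4 : ℝ) ^ (∑ i, d i) * (γ * H) ≤
        (3 / 4 : ℝ) ^ (∑ i, d i) * |dev cr P0 i₁ j₁| :=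
      mul_le_mul_of_nonneg_left hdev (by positivity)
    have h6 : 0 ≤ |dev cr a i₁ j₁| := abs_nonneg _
    rw [hγ₁]
    nlinarith
  -- normalised points with the centre at the special coordinate
  set pN : Pt n ℤ → Pt n ℝ := fun P' => rcUpd (fun i j => (P' i j : ℝ) / X i) i₁ j₁ (a i₁ j₁)
    with hpN
  set T : Pt n (Finset ℤ) := rcUpd (fun i j => rcInt W (z i j) (X i * (a i j - ρ'))
    (X i * (a i j + ρ'))) i₁ j₁ {0} with hT
  set Base : Finset (Pt n ℤ) := Fintype.piFinset fun i => Fintype.piFinset fun j => T i j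
    with hBase
  have hBT : ∀ P' ∈ Base, ∀ i j, P' i j ∈ T i j := by
    intro P' hP' i j
    exact Fintype.mem_piFinset.mp (Fintype.mem_piFinset.mp hP' i) j
  have hroot : ∀ P' : Pt n ℤ, ∃ y₁ : ℝ, P' ∈ Base → (|y₁ - a i₁ j₁| ≤ ρ / 2 ∧ ∀ y : ℝ,
      |y - y₁| ≤ ρ / 2 → (∀ i j, |(rcUpd (pN P') i₁ j₁ y) i j - a i j| ≤ ρ) ∧
        |ev cr (rcUpd (pN P') i₁ j₁ y)| ≤ C * H * |y - y₁|) := by
    intro P'
    by_cases hP' : P' ∈ Base
    · have hcp : ∀ i j, |pN P' i j - a i j| ≤ ρ' := by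
        have hin : ∀ i j, P' i j ∈ rcInt W (z i j) (X i * (a i j - ρ')) (X i * (a i j + ρ')) →
            |(P' i j : ℝ) / X i - a i j| ≤ ρ' := by
          intro i j hij
          rw [mem_rcInt] at hij
          have h1 : a i j - ρ' ≤ (P' i j : ℝ) / X i := by
            rw [le_div_iff₀ (hX0 i)]
            linarith [hij.1.1]
          have h2 : (P' i j : ℝ) / X i ≤ a i j + ρ' := by
            rw [div_le_iff₀ (hX0 i)]
            linarith [hij.1.2]
          rw [abs_le]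
          constructor <;> linarith
        intro i j
        have hij := hBT P' hP' i j
        by_cases hi : i = i₁
        · subst hi
          by_cases hj : j = j₁
          · subst hj
            rw [hpN]
            simp only
            rw [rcUpd_same]
            simp [hρ'0.le]
          · rw [hT, rcUpd_ne _ _ _ _ _ hj] at hij
            rw [hpN]
            simp only
            rw [rcUpd_ne _ _ _ _ _ hj]
            exact hin i j hij
        · rw [hT, rcUpd_block _ _ _ _ _ hi] at hij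
          rw [hpN]
          simp only
          rw [rcUpd_block _ _ _ _ _ hi]
          exact hin i j hij
      obtain ⟨y₁, h1, h2⟩ := rc_root C hL H hHr cr hcH a haa ha0 i₁ j₁ γ₁ hγ₁0 hadev ρ ρ' hρ0
        hρ8 hρ1 hρ'0 hρ'ρ hρ'1 (pN P') hcp (by rw [hpN]; exact rcUpd_same _ _ _ _)
      exact ⟨y₁, fun _ => ⟨h1, h2⟩⟩
    · exact ⟨0, fun h => absurd h hP'⟩
  choose y₁ hy₁ using hroot
  set Tv : Pt n ℤ → Finset ℤ := fun P' => rcInt W (z i₁ j₁) (X i₁ * (y₁ P' - δ / C))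
    (X i₁ * (y₁ P' + δ / C)) with hTv
  have hmaps : ∀ x ∈ Base.sigma Tv, rcUpd x.1 i₁ j₁ x.2 ∈
      ((shell n X).filter fun P => (∀ i j, ((P i j : ℤ) : ZMod W) = z i j) ∧
        |((evZ c P : ℤ) : ℝ)| ≤ δ * H * Sz d X) := by
    rintro ⟨P', y⟩ hx
    rw [Finset.mem_sigma] at hx
    obtain ⟨hP', hy⟩ := hx
    simp only at hP' hy ⊢
    obtain ⟨hyy, hyz⟩ := mem_rcInt.mp hy
    obtain ⟨hr1, hr2⟩ := hy₁ P' hP'
    have hyr : |(y : ℝ) / X i₁ - y₁ P'| ≤ δ / C := by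
      have h1 : y₁ P' - δ / C ≤ (y : ℝ) / X i₁ := by
        rw [le_div_iff₀ (hX0 i₁)]
        linarith [hyy.1]
      have h2 : (y : ℝ) / X i₁ ≤ y₁ P' + δ / C := by
        rw [div_le_iff₀ (hX0 i₁)]
        linarith [hyy.2]
      rw [abs_le]
      constructor <;> linarith
    have hδC : δ / C ≤ ρ / 2 := by
      rw [div_le_iff₀ hC]
      linarith
    obtain ⟨hcl, hval⟩ := hr2 ((y : ℝ) / X i₁) (hyr.trans hδC)
    set P : Pt n ℤ := rcUpd P' i₁ j₁ y with hP
    set N : Pt n ℝ := rcUpd (pN P') i₁ j₁ ((y : ℝ) / X i₁) with hN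
    have hPN : ∀ i j, (P i j : ℝ) = X i * N i j := by
      intro i j
      rw [hP, hN, hpN]
      simp only
      rw [rcUpd_rcUpd]
      by_cases hi : i = i₁
      · subst hi
        by_cases hj : j = j₁
        · subst hj
          rw [rcUpd_same, rcUpd_same]
          field_simp [(hX0 i).ne']
        · rw [rcUpd_ne _ _ _ _ _ hj, rcUpd_ne _ _ _ _ _ hj]
          field_simp [(hX0 i).ne']
      · rw [rcUpd_block _ _ _ _ _ hi, rcUpd_block _ _ _ _ _ hi]
        field_simp [(hX0 i).ne']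
    have hN1 : ∀ i j, |N i j| ≤ 7 / 8 := by
      intro i j
      have h1 := hcl i j
      have h2 := haa i j
      rw [abs_le] at h1 h2 ⊢
      constructor <;> linarith [h1.1, h1.2, h2.1, h2.2]
    have hPabs : ∀ i j, (P i j).natAbs ≤ X i := by
      intro i j
      have h1 : |(P i j : ℝ)| ≤ X i := by
        rw [hPN, abs_mul, abs_of_pos (hX0 i)]
        have := hN1 i j
        nlinarith [hX0 i]
      have h2 : (((P i j).natAbs : ℕ) : ℝ) = |(P i j : ℝ)| := by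
        rw [Nat.cast_natAbs]
        push_cast
        rfl
      rw [← h2] at h1
      exact_mod_cast h1
    have hnrm : ∀ i, nrm (P i) ≤ X i := by
      intro i
      exact Finset.sup_le fun j _ => hPabs i j
    have hshell : Shell X P := by
      intro i
      refine ⟨?_, hnrm i⟩
      have h1 : (P i (piv i)).natAbs ≤ nrm (P i) :=
        Finset.le_sup (f := fun j => (P i j).natAbs) (Finset.mem_univ (piv i))
      have h2 : (X i : ℝ) < 2 * |(P i (piv i) : ℝ)| := by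
        rw [hPN, abs_mul, abs_of_pos (hX0 i)]
        have h3 := (abs_le.mp (hcl i (piv i))).1
        have h4 : a i (piv i) = 3 / 4 := by
          rw [hadef]
          simp only
          rw [hPpiv i]
          ring
        rw [h4] at h3
        have h5 : (5 / 8 : ℝ) ≤ N i (piv i) := by linarith
        have h6 : (5 / 8 : ℝ) ≤ |N i (piv i)| := h5.trans (le_abs_self _)
        nlinarith [hX0 i]
      have h3 : (((P i (piv i)).natAbs : ℕ) : ℝ) = |(P i (piv i) : ℝ)| := by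
        rw [Nat.cast_natAbs]
        push_cast
        rfl
      rw [← h3] at h2
      have h4 : X i < 2 * (P i (piv i)).natAbs := by exact_mod_cast h2
      omega
    rw [Finset.mem_filter]
    refine ⟨?_, ?_, ?_⟩
    · exact rc_mem_shell X P hPabs hshell
    · intro i j
      have hij := hBT P' hP' i j
      by_cases hi : i = i₁
      · subst hi
        by_cases hj : j = j₁
        · subst hj
          rw [hP, rcUpd_same]
          exact hyz
        · rw [hT, rcUpd_ne _ _ _ _ _ hj] at hij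
          rw [hP, rcUpd_ne _ _ _ _ _ hj]
          exact (mem_rcInt.mp hij).2
      · rw [hT, rcUpd_block _ _ _ _ _ hi] at hij
        rw [hP, rcUpd_block _ _ _ _ _ hi]
        exact (mem_rcInt.mp hij).2
    · rw [rc_cast c P X N hPN]
      have hSz : 0 ≤ Sz d X := by
        unfold Sz
        exact Finset.prod_nonneg fun i _ => pow_nonneg (hX0 i).le _
      rw [abs_mul, abs_of_nonneg hSz]
      have h1 : |ev cr N| ≤ δ * H := by
        refine hval.trans ?_
        have h2 : C * H * |(y : ℝ) / X i₁ - y₁ P'| ≤ C * H * (δ / C) :=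
          mul_le_mul_of_nonneg_left hyr (by positivity)
        have h3 : C * H * (δ / C) = δ * H := by
          field_simp
        linarith
      have := mul_le_mul_of_nonneg_left h1 hSz
      linarith
  have hinj : Set.InjOn (fun x : (_ : Pt n ℤ) × ℤ => rcUpd x.1 i₁ j₁ x.2)
      (Base.sigma Tv : Finset ((_ : Pt n ℤ) × ℤ)) := by
    rintro ⟨P', y⟩ hx ⟨P'', y'⟩ hx' heq
    rw [Finset.mem_coe, Finset.mem_sigma] at hx hx'
    simp only at hx hx' heq
    have hyy : y = y' := by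
      have := congrFun (congrFun heq i₁) j₁
      rwa [rcUpd_same, rcUpd_same] at this
    have hPP : P' = P'' := by
      funext i j
      by_cases hi : i = i₁
      · subst hi
        by_cases hj : j = j₁
        · subst hj
          have h1 := hBT P' hx.1 i j
          have h2 := hBT P'' hx'.1 i j
          rw [hT, rcUpd_same, Finset.mem_singleton] at h1 h2
          rw [h1, h2]
        · have := congrFun (congrFun heq i) j
          rwa [rcUpd_ne _ _ _ _ _ hj, rcUpd_ne _ _ _ _ _ hj] at this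
      · have := congrFun heq i
        rw [rcUpd_block _ _ _ _ _ hi, rcUpd_block _ _ _ _ _ hi] at this
        rw [this]
    rw [hPP, hyy]
  have hcard := Finset.card_le_card_of_injOn _ hmaps hinj
  rw [Finset.card_sigma] at hcard
  have hcard' : ∑ P' ∈ Base, ((Tv P').card : ℝ) ≤
      (((shell n X).filter fun P => (∀ i j, ((P i j : ℤ) : ZMod W) = z i j) ∧
        |((evZ c P : ℤ) : ℝ)| ≤ δ * H * Sz d X).card : ℝ) := by
    exact_mod_cast hcard
  refine le_trans ?_ hcard'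
  have hfib : ∀ P' ∈ Base, δ * X i₁ / (C * W) ≤ ((Tv P').card : ℝ) := by
    intro P' _
    have h1 := card_rcInt W (z i₁ j₁) (X i₁ * (y₁ P' - δ / C)) (X i₁ * (y₁ P' + δ / C)) ?_
    · have h2 : (X i₁ * (y₁ P' + δ / C) - X i₁ * (y₁ P' - δ / C)) / (2 * W) =
          δ * X i₁ / (C * W) := by
        field_simp
        ring
      rw [h2] at h1
      exact h1
    · have h2 : X i₁ * (y₁ P' + δ / C) - X i₁ * (y₁ P' - δ / C) = 2 * (δ * X i₁ / C) := by
        ring
      rw [h2]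
      have h3 : (W : ℝ) ≤ δ * X i₁ / C := by
        rw [le_div_iff₀ hC]
        linarith [hX2 i₁]
      linarith
  have hsum : (Base.card : ℝ) * (δ * X i₁ / (C * W)) ≤ ∑ P' ∈ Base, ((Tv P').card : ℝ) := by
    have := Finset.sum_le_sum hfib
    rw [Finset.sum_const, nsmul_eq_mul] at this
    exact this
  refine le_trans ?_ hsum
  -- lower bound for the base
  set b : Pt n ℝ := fun i _ => ρ' * X i / W with hb
  have hb0 : ∀ i j, 0 ≤ b i j := by
    intro i j
    rw [hb]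
    have := (hX0 i).le
    positivity
  have hbT : ∀ i j, rcUpd b i₁ j₁ 1 i j ≤ ((T i j).card : ℝ) := by
    have hgen : ∀ i j, b i j ≤ ((rcInt W (z i j) (X i * (a i j - ρ'))
        (X i * (a i j + ρ'))).card : ℝ) := by
      intro i j
      have h1 := card_rcInt W (z i j) (X i * (a i j - ρ')) (X i * (a i j + ρ')) ?_
      · have h2 : (X i * (a i j + ρ') - X i * (a i j - ρ')) / (2 * W) = ρ' * X i / W := by
          field_simp
          ring
        rw [h2] at h1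
        exact h1
      · have h2 : X i * (a i j + ρ') - X i * (a i j - ρ') = 2 * (ρ' * X i) := by ring
        rw [h2]
        linarith [hX1 i]
    intro i j
    by_cases hi : i = i₁
    · subst hi
      by_cases hj : j = j₁
      · subst hj
        rw [hT, rcUpd_same, rcUpd_same]
        simp
      · rw [hT, rcUpd_ne _ _ _ _ _ hj, rcUpd_ne _ _ _ _ _ hj]
        exact hgen i j
    · rw [hT, rcUpd_block _ _ _ _ _ hi, rcUpd_block _ _ _ _ _ hi]
      exact hgen i j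
  have hub0 : ∀ i j, 0 ≤ rcUpd b i₁ j₁ 1 i j := by
    intro i j
    by_cases hi : i = i₁
    · subst hi
      by_cases hj : j = j₁
      · subst hj
        rw [rcUpd_same]
        norm_num
      · rw [rcUpd_ne _ _ _ _ _ hj]
        exact hb0 i j
    · rw [rcUpd_block _ _ _ _ _ hi]
      exact hb0 i j
  have hBcard : (Base.card : ℝ) = ∏ i, ∏ j, ((T i j).card : ℝ) := by
    rw [hBase, Fintype.card_piFinset]
    push_cast
    apply Finset.prod_congr rfl
    intro i _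
    rw [Fintype.card_piFinset]
    push_cast
    rfl
  have hBlow : ∏ i, ∏ j, rcUpd b i₁ j₁ 1 i j ≤ (Base.card : ℝ) := by
    rw [hBcard]
    apply Finset.prod_le_prod
    · intro i _
      exact Finset.prod_nonneg fun j _ => hub0 i j
    · intro i _
      exact Finset.prod_le_prod (fun j _ => hub0 i j) (fun j _ => hbT i j)
  have hprod : ∏ i, ∏ j, b i j = ρ' ^ (∑ i, (n i + 1)) * Vol n X / (W : ℝ) ^ (∑ i, (n i + 1)) := by
    rw [hb]
    simp only [Finset.prod_const, Finset.card_univ, Fintype.card_fin]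
    unfold Vol
    rw [← Finset.prod_pow_eq_pow_sum, ← Finset.prod_pow_eq_pow_sum, ← Finset.prod_mul_distrib,
      ← Finset.prod_div_distrib]
    apply Finset.prod_congr rfl
    intro i _
    rw [div_pow, mul_pow]
  have hkey : ρ' ^ (∑ i, (n i + 1)) * Vol n X / (W : ℝ) ^ (∑ i, (n i + 1)) ≤
      (Base.card : ℝ) * (ρ' * X i₁ / W) := by
    rw [← hprod, ← rc_prod b i₁ j₁]
    exact mul_le_mul_of_nonneg_right hBlow (hb0 i₁ j₁)
  have hfin : ρ' ^ (∑ i, (n i + 1)) / (C * ρ') * δ * Vol n X / (W : ℝ) ^ (∑ i, (n i + 1)) =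
      (ρ' ^ (∑ i, (n i + 1)) * Vol n X / (W : ℝ) ^ (∑ i, (n i + 1))) * (δ / (C * ρ')) := by
    ring
  rw [hfin]
  have hfin2 : ∀ B x : ℝ, B * (δ * x / (C * W)) = B * (ρ' * x / W) * (δ / (C * ρ')) := by
    clear_value ρ'
    intro B x
    field_simp
  rw [hfin2]
  exact mul_le_mul_of_nonneg_right hkey (by positivity)

end Pool.Agent.HP
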