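import Pool.Agent.Lib.MP_fc0680_nt.Tri
import Pool.Agent.Lib.MP_fc0680_nt.Deriv

/-!
# MP_fc0680_nt : RSING

Forms with a real zero but without a robust real zero are rare.
-/

set_option autoImplicit false
open Finset Filter

namespace Pool.Agent.HP

open Tri

/-- For a given normalised real point, the number of forms almost singular at it. -/
theorem rsing_core {k : ℕ} (n d : Fin k → ℕ) (hd : ∀ i, 1 ≤ d i) (H L : ℕ) (K : ℝ)
    (hL : K + 1 ≤ L) (piv : (i : Fin k) → Fin (n i + 1)) (Q : Pt n ℝ)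
    (hQ : ∀ i, Q i (piv i) = 1) (G : Finset (Exps n d → ℤ)) (hGb : G ⊆ box (Exps n d) H)
    (hG : ∀ c ∈ G, |evZ c Q| ≤ K ∧
      ∀ i j, j ≠ piv i → |dev (fun s => (c s : ℝ)) Q i j| ≤ K) :
    G.card ≤ (2 * L + 1) ^ (∑ i, n i + 1) *
      (2 * H + 1) ^ (Fintype.card (Exps n d) - (∑ i, n i + 1)) := by
  classical
  -- the shifts
  set r : (Exps n d → ℤ) → NP piv → ℝ := fun c a =>
    ∑ s ∈ V hd piv, (c s : ℝ) * dmono s Q a.1 a.2.1 with hr
  set r0 : (Exps n d → ℤ) → ℝ := fun c =>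
    ∑ a, (c (u hd piv (some a)) : ℝ) * mono (u hd piv (some a)) Q +
      ∑ s ∈ V hd piv, (c s : ℝ) * mono s Q with hr0
  set t : (Exps n d → ℤ) → Option (NP piv) → ℤ := fun c o =>
    Option.casesOn o (c (u hd piv none) + ⌊r0 c⌋) (fun a => c (u hd piv (some a)) + ⌊r c a⌋)
    with ht
  set T : Finset (({s // s ∈ V hd piv} → ℤ) × (Option (NP piv) → ℤ)) :=
    (Fintype.piFinset fun _ => Finset.Icc (-(H : ℤ)) H) ×ˢ
      (Fintype.piFinset fun _ => Finset.Icc (-(L : ℤ)) L) with hT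
  have hcard : T.card = (2 * L + 1) ^ (∑ i, n i + 1) *
      (2 * H + 1) ^ (Fintype.card (Exps n d) - (∑ i, n i + 1)) := by
    rw [hT, Finset.card_product, Fintype.card_piFinset, Fintype.card_piFinset]
    simp only [Finset.prod_const, Int.card_Icc, Finset.card_univ, Fintype.card_coe, card_V,
      Fintype.card_option, card_NP]
    rw [mul_comm]
    congr 2 <;> omega
  rw [← hcard]
  have hfl : ∀ (x : ℤ) (y z : ℝ), z = x + y → |z| ≤ K → x + ⌊y⌋ ∈ Finset.Icc (-(L : ℤ)) L := by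
    intro x y z hz hzK
    have h1 := Int.floor_le y
    have h2 := Int.sub_one_lt_floor y
    rw [abs_le] at hzK
    rw [Finset.mem_Icc]
    constructor
    · have : (-(L : ℤ) : ℝ) ≤ ((x + ⌊y⌋ : ℤ) : ℝ) := by
        push_cast
        linarith [hzK.1]
      exact_mod_cast this
    · have : ((x + ⌊y⌋ : ℤ) : ℝ) ≤ ((L : ℤ) : ℝ) := by
        push_cast
        linarith [hzK.2]
      exact_mod_cast this
  refine Finset.card_le_card_of_injOn (fun c => (fun s => c s.1, t c)) ?_ ?_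
  · intro c hc
    obtain ⟨h1, h2⟩ := hG c hc
    have hb := hGb hc
    unfold box at hb
    rw [Fintype.mem_piFinset] at hb
    simp only [hT, Finset.coe_product, Set.mem_prod, Finset.mem_coe, Fintype.mem_piFinset]
    refine ⟨fun s => hb s.1, fun o => ?_⟩
    cases o with
    | none =>
      refine hfl _ _ (evZ c Q) ?_ h1
      unfold evZ
      rw [ev_split hd piv Q hQ, hr0]
      ring
    | some a =>
      refine hfl _ _ _ ?_ (h2 a.1 a.2.1 a.2.2)
      rw [dev_split hd piv Q hQ]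
  · intro c hc c' hc' hcc
    have hcc1 := (Prod.mk.inj hcc).1
    have hcc2 := (Prod.mk.inj hcc).2
    have hV : ∀ s ∈ V hd piv, c s = c' s := fun s hs => congrFun hcc1 ⟨s, hs⟩
    have ha : ∀ a : NP piv, c (u hd piv (some a)) = c' (u hd piv (some a)) := by
      intro a
      have e1 : c (u hd piv (some a)) + ⌊r c a⌋ = c' (u hd piv (some a)) + ⌊r c' a⌋ :=
        congrFun hcc2 (some a)
      have e2 : r c a = r c' a := by
        rw [hr]
        exact Finset.sum_congr rfl fun s hs => by rw [hV s hs]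
      rw [e2] at e1
      exact add_right_cancel e1
    have h0 : c (u hd piv none) = c' (u hd piv none) := by
      have e1 : c (u hd piv none) + ⌊r0 c⌋ = c' (u hd piv none) + ⌊r0 c'⌋ :=
        congrFun hcc2 none
      have e2 : r0 c = r0 c' := by
        rw [hr0]
        dsimp only
        congr 1
        · exact Finset.sum_congr rfl fun a _ => by rw [ha a]
        · exact Finset.sum_congr rfl fun s hs => by rw [hV s hs]
      rw [e2] at e1
      exact add_right_cancel e1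
    funext s
    by_cases hs : s ∈ V hd piv
    · exact hV s hs
    · obtain ⟨a, rfl⟩ := not_mem_V hd piv s hs
      cases a with
      | none => exact h0
      | some a => exact ha a

/-- Normalisation of a real zero. -/
theorem real_normalise {k : ℕ} {n d : Fin k → ℕ} (c : Exps n d → ℤ) (hc : RealSol c) :
    ∃ (P : Pt n ℝ) (piv : (i : Fin k) → Fin (n i + 1)), (∀ i j, |P i j| ≤ 1) ∧
      (∀ i, P i (piv i) = 1) ∧ evZ c P = 0 := by
  obtain ⟨P, hP, h0⟩ := hc
  have hmax : ∀ i, ∃ p, ∀ j, |P i j| ≤ |P i p| := fun i => Finite.exists_max fun j => |P i j|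
  choose piv hpiv using hmax
  have hne : ∀ i, P i (piv i) ≠ 0 := by
    intro i hi
    obtain ⟨j, hj⟩ := hP i
    have := hpiv i j
    rw [hi, abs_zero] at this
    exact hj (abs_nonpos_iff.mp this)
  refine ⟨fun i j => (P i (piv i))⁻¹ * P i j, piv, ?_, ?_, ?_⟩
  · intro i j
    rw [abs_mul, abs_inv, ← div_eq_inv_mul]
    exact div_le_one_of_le₀ (hpiv i j) (abs_nonneg _)
  · intro i
    exact inv_mul_cancel₀ (hne i)
  · unfold evZ at h0 ⊢
    rw [ev_smul, h0, mul_zero]

theorem rsing {k : ℕ} (n d : Fin k → ℕ) (hn : ∀ i, 1 ≤ n i) (hd : ∀ i, 1 ≤ d i) :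
    ∃ C : ℝ, 0 < C ∧ ∀ (γ : ℝ) (H : ℕ), 0 < γ → γ ≤ 1 → 1 ≤ γ * H →
    ∀ F : Finset (Exps n d → ℤ), F ⊆ box (Exps n d) H →
    (∀ c ∈ F, RealSol c ∧ ¬ RobustReal γ H c) →
    (F.card : ℝ) ≤ C * γ * (2 * (H : ℝ) + 1) ^ Fintype.card (Exps n d) := by
  classical
  obtain ⟨C, hC, hlip⟩ := ev_lip n d
  set σ : ℕ := ∑ i, n i with hσ
  refine ⟨(∏ i, ((n i : ℝ) + 1)) * 5 ^ σ * (2 * C + 7) ^ (σ + 1), by positivity, ?_⟩
  intro γ H hγ hγ1 hγH F hFb hF
  set m : ℕ := ⌈1 / γ⌉₊ with hm
  have hm1 : 1 / γ ≤ m := Nat.le_ceil _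
  have hm2 : (m : ℝ) < 1 / γ + 1 := Nat.ceil_lt_add_one (by positivity)
  have h1γ : 1 ≤ 1 / γ := by rw [le_div_iff₀ hγ]; linarith
  have hm0 : (0 : ℝ) < m := by linarith
  set K : ℝ := (1 + C) * (γ * H) with hK
  set L : ℕ := ⌈K + 1⌉₊ with hL
  have hL1 : K + 1 ≤ L := Nat.le_ceil _
  have hK0 : 0 ≤ K := by positivity
  have hL2 : (L : ℝ) < K + 1 + 1 := Nat.ceil_lt_add_one (by positivity)
  set A : Finset (Σ piv : (i : Fin k) → Fin (n i + 1), NP piv → ℤ) :=
    univ.sigma fun piv => Fintype.piFinset fun _ => Finset.Icc (-(m : ℤ)) m with hA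
  set Q : (Σ piv : (i : Fin k) → Fin (n i + 1), NP piv → ℤ) → Pt n ℝ :=
    fun a => pt a.1 (fun b => (a.2 b : ℝ) / m) with hQ
  set G : (Σ piv : (i : Fin k) → Fin (n i + 1), NP piv → ℤ) → Finset (Exps n d → ℤ) :=
    fun a => (box (Exps n d) H).filter fun c => |evZ c (Q a)| ≤ K ∧
      ∀ i j, j ≠ a.1 i → |dev (fun s => (c s : ℝ)) (Q a) i j| ≤ K with hGdef
  have hsub : F ⊆ A.biUnion G := by
    intro c hc
    obtain ⟨h1, h2⟩ := hF c hc
    obtain ⟨P, piv, hP1, hP2, hP3⟩ := real_normalise c h1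
    have hdev : ∀ i j, j ≠ piv i → |dev (fun s => (c s : ℝ)) P i j| < γ * H := by
      intro i j hij
      by_contra hcon
      exact h2 ⟨P, piv, i, j, hP1, hP2, hP3, hij, not_lt.mp hcon⟩
    have hcb : ∀ s, |(c s : ℝ)| ≤ H := by
      intro s
      have hb := hFb hc
      unfold box at hb
      rw [Fintype.mem_piFinset] at hb
      have hb' := Finset.mem_Icc.mp (hb s)
      rw [abs_le]
      constructor
      · exact_mod_cast hb'.1
      · exact_mod_cast hb'.2
    set y : NP piv → ℤ := fun a => round ((m : ℝ) * P a.1 a.2.1) with hy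
    have hyb : ∀ a, y a ∈ Finset.Icc (-(m : ℤ)) m := by
      intro a
      have hab := abs_le.mp (hP1 a.1 a.2.1)
      have h3 : |(m : ℝ) * P a.1 a.2.1 - (y a : ℝ)| ≤ 1 / 2 := abs_sub_round _
      rw [abs_le] at h3
      rw [Finset.mem_Icc]
      constructor
      · have h4 : (-(m : ℤ) - 1 : ℝ) < (y a : ℝ) := by
          push_cast
          nlinarith [hab.1, h3.2]
        have h5 : -(m : ℤ) - 1 < y a := by exact_mod_cast h4
        omega
      · have h4 : (y a : ℝ) < ((m : ℤ) : ℝ) + 1 := by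
          push_cast
          nlinarith [hab.2, h3.1]
        have h5 : y a < (m : ℤ) + 1 := by exact_mod_cast h4
        omega
    rw [Finset.mem_biUnion]
    refine ⟨⟨piv, y⟩, ?_, ?_⟩
    · rw [hA, Finset.mem_sigma]
      exact ⟨Finset.mem_univ _, Fintype.mem_piFinset.mpr hyb⟩
    · have hclose : ∀ i j, |P i j - Q ⟨piv, y⟩ i j| ≤ γ := by
        intro i j
        rw [hQ]
        dsimp only
        unfold pt
        split_ifs with h
        · rw [h, hP2, sub_self, abs_zero]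
          exact hγ.le
        · have h3 : |(m : ℝ) * P i j - (y ⟨i, ⟨j, h⟩⟩ : ℝ)| ≤ 1 / 2 := abs_sub_round _
          have h4 : P i j - (y ⟨i, ⟨j, h⟩⟩ : ℝ) / m =
              ((m : ℝ) * P i j - (y ⟨i, ⟨j, h⟩⟩ : ℝ)) / m := by
            field_simp
          rw [h4, abs_div, abs_of_pos hm0, div_le_iff₀ hm0]
          have h5 : 1 ≤ γ * m := by
            rw [div_le_iff₀ hγ] at hm1
            linarith
          linarith
      have hQ1 : ∀ i j, |Q ⟨piv, y⟩ i j| ≤ 1 := by
        intro i j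
        rw [hQ]
        dsimp only
        unfold pt
        split_ifs with h
        · rw [abs_one]
        · rw [abs_div, abs_of_pos hm0, div_le_one hm0, abs_le]
          have := Finset.mem_Icc.mp (hyb ⟨i, ⟨j, h⟩⟩)
          exact ⟨by exact_mod_cast this.1, by exact_mod_cast this.2⟩
      obtain ⟨l1, _, l3⟩ := hlip H (fun s => (c s : ℝ)) P (Q ⟨piv, y⟩) γ (by positivity) hγ.le
        hcb hP1 hQ1 hclose
      rw [hGdef, Finset.mem_filter]
      refine ⟨hFb hc, ?_, ?_⟩
      · unfold evZ at hP3 ⊢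
        rw [hP3, zero_sub, abs_neg] at l1
        refine l1.trans ?_
        rw [hK]
        nlinarith [mul_nonneg hγ.le (Nat.cast_nonneg (α := ℝ) H)]
      · intro i j hij
        have l4 := (l3 i j).1
        have l5 := hdev i j hij
        have l6 : |dev (fun s => (c s : ℝ)) (Q ⟨piv, y⟩) i j| ≤
            |dev (fun s => (c s : ℝ)) P i j| +
            |dev (fun s => (c s : ℝ)) P i j - dev (fun s => (c s : ℝ)) (Q ⟨piv, y⟩) i j| := by
          have := abs_sub_abs_le_abs_sub (dev (fun s => (c s : ℝ)) (Q ⟨piv, y⟩) i j)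
            (dev (fun s => (c s : ℝ)) P i j)
          rw [abs_sub_comm] at this
          linarith
        rw [hK]
        nlinarith
  have hAcard : A.card = (∏ i, (n i + 1)) * (2 * m + 1) ^ σ := by
    rw [hA, Finset.card_sigma]
    have h1 : ∀ piv : (i : Fin k) → Fin (n i + 1),
        (Fintype.piFinset fun _ : NP piv => Finset.Icc (-(m : ℤ)) m).card = (2 * m + 1) ^ σ := by
      intro piv
      rw [Fintype.card_piFinset]
      simp only [Finset.prod_const, Int.card_Icc, Finset.card_univ, card_NP]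
      congr 1
      omega
    rw [Finset.sum_congr rfl fun piv _ => h1 piv, Finset.sum_const, Finset.card_univ,
      Fintype.card_pi, smul_eq_mul]
    simp
  have hmain : F.card ≤ A.card * ((2 * L + 1) ^ (σ + 1) *
      (2 * H + 1) ^ (Fintype.card (Exps n d) - (σ + 1))) := by
    refine (Finset.card_le_card hsub).trans ?_
    refine Finset.card_biUnion_le_card_mul _ _ _ fun a _ => ?_
    exact rsing_core n d hd H L K hL1 a.1 (Q a) (pt_piv _ _) (G a) (Finset.filter_subset _ _)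
      fun c hc => (Finset.mem_filter.mp hc).2
  rw [hAcard] at hmain
  have hcast : (F.card : ℝ) ≤ ((∏ i, ((n i : ℝ) + 1)) * (2 * m + 1) ^ σ) *
      ((2 * (L : ℝ) + 1) ^ (σ + 1) *
      (2 * (H : ℝ) + 1) ^ (Fintype.card (Exps n d) - (σ + 1))) := by
    exact_mod_cast hmain
  refine hcast.trans ?_
  have hm3 : 2 * (m : ℝ) + 1 ≤ 5 * (1 / γ) := by linarith
  have hL3 : 2 * (L : ℝ) + 1 ≤ (2 * C + 7) * (γ * (2 * H + 1)) := by
    have h1 : 1 ≤ γ * H := hγH
    have h2 : 2 * (L : ℝ) + 1 ≤ 2 * K + 5 := by linarith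
    rw [hK] at h2
    nlinarith [mul_pos hC hγ]
  have hM := card_le (n := n) hd
  calc ((∏ i, ((n i : ℝ) + 1)) * (2 * m + 1) ^ σ) *
      ((2 * (L : ℝ) + 1) ^ (σ + 1) *
      (2 * (H : ℝ) + 1) ^ (Fintype.card (Exps n d) - (σ + 1)))
      ≤ ((∏ i, ((n i : ℝ) + 1)) * (5 * (1 / γ)) ^ σ) *
      (((2 * C + 7) * (γ * (2 * H + 1))) ^ (σ + 1) *
      (2 * (H : ℝ) + 1) ^ (Fintype.card (Exps n d) - (σ + 1))) := by
        have : 0 ≤ ∏ i, ((n i : ℝ) + 1) := by positivity
        gcongr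
    _ = (∏ i, ((n i : ℝ) + 1)) * 5 ^ σ * (2 * C + 7) ^ (σ + 1) * γ *
      ((2 * (H : ℝ) + 1) ^ (σ + 1) *
        (2 * (H : ℝ) + 1) ^ (Fintype.card (Exps n d) - (σ + 1))) := by
        rw [mul_pow 5, mul_pow (2 * C + 7), mul_pow γ, one_div, inv_pow]
        have : γ ^ σ ≠ 0 := by positivity
        field_simp
        ring
    _ = _ := by
        rw [← pow_add]
        congr 2
        omega

end Pool.Agent.HP
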