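import Pool.Agent.Lib.MP_fc0680_nt.Defs
import Pool.Agent.Lib.MP_fc0680_nt.Bez

set_option autoImplicit false
open Finset Filter

namespace Pool.Agent.HP

/-- Preimages under an additive homomorphism of subsets of its range. -/
theorem tail_fib {A B : Type} [AddCommGroup A] [AddCommGroup B] [Fintype A] [DecidableEq B]
    (f : A →+ B) (S : Finset B) (hS : ∀ b ∈ S, ∃ a, f a = b) :
    (univ.filter fun a => f a ∈ S).card = (univ.filter fun a => f a = 0).card * S.card := by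
  classical
  have h1 : (univ.filter fun a => f a ∈ S).card =
      ∑ b ∈ S, ((univ.filter fun a => f a ∈ S).filter fun a => f a = b).card :=
    Finset.card_eq_sum_card_fiberwise (f := f) (fun a ha => by simpa using ha)
  rw [h1]
  have h2 : ∀ b ∈ S, ((univ.filter fun a => f a ∈ S).filter fun a => f a = b).card =
      (univ.filter fun a => f a = 0).card := by
    intro b hb
    obtain ⟨a0, ha0⟩ := hS b hb
    refine Finset.card_bij' (fun a _ => a - a0) (fun a _ => a + a0) ?_ ?_ ?_ ?_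
    · intro a ha
      simp only [mem_filter, mem_univ, true_and] at ha ⊢
      rw [map_sub, ha.2, ha0, sub_self]
    · intro a ha
      simp only [mem_filter, mem_univ, true_and] at ha ⊢
      rw [map_add, ha, ha0, zero_add]
      exact ⟨hb, rfl⟩
    · intro a _
      simp
    · intro a _
      simp
  rw [Finset.sum_congr rfl h2, Finset.sum_const, smul_eq_mul, mul_comm]

/-- Generators of the ideals of `ZMod W`. -/
theorem tail_ideal (W : ℕ) [NeZero W] (I : Ideal (ZMod W)) :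
    ∃ g : ℕ, g ∣ W ∧ (g : ZMod W) ∈ I ∧ ∀ x ∈ I, g ∣ x.val := by
  obtain ⟨a, ha⟩ := (IsPrincipalIdealRing.principal (I.comap (Int.castRingHom (ZMod W)))).principal
  have hmem : ∀ t : ℤ, (t : ZMod W) ∈ I ↔ a ∣ t := by
    intro t
    have h1 : t ∈ I.comap (Int.castRingHom (ZMod W)) ↔ (t : ZMod W) ∈ I := by
      rw [Ideal.mem_comap]
      rfl
    rw [← h1, ha]
    exact Ideal.mem_span_singleton
  refine ⟨a.natAbs, ?_, ?_, ?_⟩
  · have h1 := (hmem (W : ℤ)).mp (by simp)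
    exact Int.natAbs_dvd_natAbs.mpr h1 |>.trans (by simp)
  · have h1 := (hmem (a.natAbs : ℤ)).mpr (Int.dvd_natAbs.mpr dvd_rfl)
    simpa using h1
  · intro x hx
    have h1 := (hmem (x.val : ℤ)).mp (by simpa using hx)
    have h2 := Int.natAbs_dvd_natAbs.mpr h1
    rwa [Int.natAbs_natCast] at h2

/-- `ev` as an additive homomorphism in the coefficients. -/
def evHom {k : ℕ} (n d : Fin k → ℕ) {R : Type} [CommRing R] (P : Pt n R) :
    (Exps n d → R) →+ R where
  toFun c := ev c P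
  map_zero' := by simp [ev]
  map_add' c c' := by simp [ev, add_mul, Finset.sum_add_distrib]

theorem evHom_apply {k : ℕ} (n d : Fin k → ℕ) {R : Type} [CommRing R] (P : Pt n R)
    (c : Exps n d → R) : evHom n d P c = ev c P := rfl

theorem ev_mul_left {k : ℕ} {n d : Fin k → ℕ} {R : Type} [CommRing R] (P : Pt n R)
    (c : Exps n d → R) (r : R) : ev (fun s => r * c s) P = r * ev c P := by
  simp [ev, Finset.mul_sum, mul_assoc]

/-- Number of forms vanishing at a point. -/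
theorem tail_ker1 {k : ℕ} (n d : Fin k → ℕ) (W : ℕ) [NeZero W] (z : Pt n (ZMod W))
    (hz : ∀ i, Umod (z i)) :
    (univ.filter fun c : Exps n d → ZMod W => ev c z = 0).card * W =
      W ^ Fintype.card (Exps n d) := by
  classical
  obtain ⟨b, hb⟩ := bez_one (d := d) z hz
  have h := tail_fib (evHom n d z) univ (fun r _ => ⟨fun s => r * b s, by
    rw [evHom_apply, ev_mul_left, hb, mul_one]⟩)
  simp only [mem_univ, Finset.filter_true, evHom_apply] at h
  rw [Finset.card_univ, Finset.card_univ, ZMod.card, Fintype.card_fun, ZMod.card] at h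
  exact Eq.trans (by congr!) h.symm

/-- Number of forms vanishing at two points. -/
theorem tail_ker2 {k : ℕ} (n d : Fin k → ℕ) (hd : ∀ i, 1 ≤ d i) (W : ℕ) [NeZero W]
    (z z' : Pt n (ZMod W)) (hz : ∀ i, Umod (z i)) (hz' : ∀ i, Umod (z' i)) :
    ∃ g : ℕ, g ∣ W ∧ (∀ i a b, g ∣ (z i a * z' i b - z i b * z' i a).val) ∧
      (univ.filter fun c : Exps n d → ZMod W => ev c z = 0 ∧ ev c z' = 0).card * W ^ 2 ≤
        W ^ Fintype.card (Exps n d) * g := by
  classical
  let I : Ideal (ZMod W) :=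
    { carrier := {v | ∃ b : Exps n d → ZMod W, ev b z = 0 ∧ ev b z' = v}
      add_mem' := by
        rintro u v ⟨b, hb1, hb2⟩ ⟨b', hb1', hb2'⟩
        refine ⟨b + b', ?_, ?_⟩
        · rw [← evHom_apply, map_add, evHom_apply, evHom_apply, hb1, hb1', add_zero]
        · rw [← evHom_apply, map_add, evHom_apply, evHom_apply, hb2, hb2']
      zero_mem' := ⟨0, by rw [← evHom_apply, map_zero], by rw [← evHom_apply, map_zero]⟩
      smul_mem' := by
        rintro r v ⟨b, hb1, hb2⟩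
        refine ⟨fun s => r * b s, ?_, ?_⟩
        · rw [ev_mul_left, hb1, mul_zero]
        · rw [ev_mul_left, hb2]
          rfl }
  have hI : ∀ v, v ∈ I ↔ ∃ b : Exps n d → ZMod W, ev b z = 0 ∧ ev b z' = v := fun v => Iff.rfl
  obtain ⟨g, hgW, hgI, hg⟩ := tail_ideal W I
  have hWpos : 0 < W := Nat.pos_of_ne_zero (NeZero.ne W)
  have hgpos : 0 < g := Nat.pos_of_dvd_of_pos hgW hWpos
  refine ⟨g, hgW, ?_, ?_⟩
  · intro i a b
    apply hg
    rw [hI]
    obtain ⟨c, hc1, hc2⟩ := bez_lin (d := d) z z' hz' i (hd i)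
      (fun j => (if j = b then z i a else 0) - (if j = a then z i b else 0)) (by
        simp only [sub_mul, ite_mul, zero_mul, Finset.sum_sub_distrib, Finset.sum_ite_eq',
          mem_univ, if_true]
        ring)
    refine ⟨c, hc1, ?_⟩
    rw [hc2]
    simp only [sub_mul, ite_mul, zero_mul, Finset.sum_sub_distrib, Finset.sum_ite_eq',
      mem_univ, if_true]
  · obtain ⟨b1, hb1⟩ := bez_one (d := d) z hz
    obtain ⟨b2, hb2, hb2'⟩ := (hI _).mp hgI
    let f : (Exps n d → ZMod W) →+ ZMod W × ZMod W :=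
      AddMonoidHom.prod (evHom n d z) (evHom n d z')
    have hf : ∀ c, f c = (ev c z, ev c z') := fun c => rfl
    let e : ZMod W × Fin (W / g) → ZMod W × ZMod W :=
      fun p => (p.1, p.1 * ev b1 z' + (p.2 : ℕ) * g)
    have hinj : Function.Injective e := by
      rintro ⟨r, t⟩ ⟨r', t'⟩ h
      have h1 : r = r' := (Prod.ext_iff.mp h).1
      have h2 : r * ev b1 z' + (t : ℕ) * (g : ZMod W) = r' * ev b1 z' + (t' : ℕ) * (g : ZMod W) :=
        (Prod.ext_iff.mp h).2
      subst h1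
      have h3 : (((t : ℕ) * g : ℕ) : ZMod W) = (((t' : ℕ) * g : ℕ) : ZMod W) := by
        push_cast
        exact add_left_cancel h2
      have h4 : ∀ u : Fin (W / g), (u : ℕ) * g < W := by
        intro u
        calc (u : ℕ) * g < (W / g) * g := Nat.mul_lt_mul_of_pos_right u.2 hgpos
          _ = W := Nat.div_mul_cancel hgW
      have h5 : (t : ℕ) * g = (t' : ℕ) * g := by
        have := congrArg ZMod.val h3
        rwa [ZMod.val_natCast_of_lt (h4 t), ZMod.val_natCast_of_lt (h4 t')] at this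
      have h6 : (t : ℕ) = t' := Nat.eq_of_mul_eq_mul_right hgpos h5
      rw [Fin.ext h6]
    have h := tail_fib f (univ.image e) (by
      intro b hb
      obtain ⟨⟨r, t⟩, -, rfl⟩ := Finset.mem_image.mp hb
      refine ⟨(fun s => r * b1 s) + fun s => (t : ℕ) * b2 s, ?_⟩
      rw [map_add, hf, hf, ev_mul_left, ev_mul_left, ev_mul_left, ev_mul_left, hb1, hb2, hb2']
      simp only [e, mul_one, mul_zero, Prod.mk_add_mk, add_zero])
    have hcard : (univ.image e).card = W * (W / g) := by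
      rw [Finset.card_image_of_injective _ hinj, Finset.card_univ, Fintype.card_prod, ZMod.card,
        Fintype.card_fin]
    have hker : (univ.filter fun c => f c = 0) =
        univ.filter fun c : Exps n d → ZMod W => ev c z = 0 ∧ ev c z' = 0 := by
      ext c
      simp only [mem_filter, mem_univ, true_and, hf, Prod.mk_eq_zero]
    rw [hcard, hker] at h
    have hle : (univ.filter fun c => f c ∈ univ.image e).card ≤ W ^ Fintype.card (Exps n d) := by
      refine (Finset.card_filter_le _ _).trans ?_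
      rw [Finset.card_univ, Fintype.card_fun, ZMod.card]
    rw [h] at hle
    calc (univ.filter fun c : Exps n d → ZMod W => ev c z = 0 ∧ ev c z' = 0).card * W ^ 2
        = (univ.filter fun c : Exps n d → ZMod W => ev c z = 0 ∧ ev c z' = 0).card *
            (W * (W / g * g)) := by rw [Nat.div_mul_cancel hgW, sq]
      _ = (univ.filter fun c : Exps n d → ZMod W => ev c z = 0 ∧ ev c z' = 0).card *
            (W * (W / g)) * g := by ring
      _ ≤ W ^ Fintype.card (Exps n d) * g := Nat.mul_le_mul_right _ hle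

theorem cast_zero_iff {W g : ℕ} [NeZero W] (hg : g ∣ W) (x : ZMod W) :
    ZMod.castHom hg (ZMod g) x = 0 ↔ g ∣ x.val := by
  rw [ZMod.castHom_apply, ← ZMod.natCast_val, ZMod.natCast_eq_zero_iff]

theorem card_pt {k : ℕ} (n : Fin k → ℕ) (W : ℕ) [NeZero W] :
    Fintype.card (Pt n (ZMod W)) = W ^ (∑ i, (n i + 1)) := by
  rw [Fintype.card_pi]
  simp only [Fintype.card_fun, ZMod.card, Fintype.card_fin]
  exact Finset.prod_pow_eq_pow_sum _ _ _

/-- Reduction of points modulo `g`. -/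
noncomputable def redHom {k : ℕ} (n : Fin k → ℕ) {W g : ℕ} (hg : g ∣ W) :
    Pt n (ZMod W) →+ Pt n (ZMod g) where
  toFun z := fun i j => ZMod.castHom hg (ZMod g) (z i j)
  map_zero' := by
    funext i j
    simp
  map_add' z z' := by
    funext i j
    exact map_add (ZMod.castHom hg (ZMod g)) _ _

theorem redHom_apply {k : ℕ} (n : Fin k → ℕ) {W g : ℕ} (hg : g ∣ W) (z : Pt n (ZMod W))
    (i : Fin k) (j : Fin (n i + 1)) : redHom n hg z i j = ZMod.castHom hg (ZMod g) (z i j) := rfl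

theorem redHom_surj {k : ℕ} (n : Fin k → ℕ) {W g : ℕ} [NeZero W] (hg : g ∣ W)
    (y : Pt n (ZMod g)) : ∃ z, redHom n hg z = y := by
  have h := ZMod.castHom_surjective hg
  choose f hf using h
  refine ⟨fun i j => f (y i j), ?_⟩
  funext i j
  exact hf _

/-- Number of points proportional to a given one modulo `g`. -/
theorem tail_prop {k : ℕ} (n : Fin k → ℕ) (W g : ℕ) [NeZero W] (hg : g ∣ W)
    (z : Pt n (ZMod W)) (hz : ∀ i, Umod (z i)) (F : Finset (Pt n (ZMod W)))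
    (hF : ∀ z' ∈ F, ∀ i a b, g ∣ (z i a * z' i b - z i b * z' i a).val) :
    F.card * g ^ (∑ i, n i) ≤ W ^ (∑ i, (n i + 1)) := by
  classical
  have hWpos : 0 < W := Nat.pos_of_ne_zero (NeZero.ne W)
  have hgpos : 0 < g := Nat.pos_of_dvd_of_pos hg hWpos
  have : NeZero g := ⟨hgpos.ne'⟩
  let T : Finset (Pt n (ZMod g)) := univ.image fun l : Fin k → ZMod g =>
    (fun i j => l i * redHom n hg z i j : Pt n (ZMod g))
  have hT : T.card ≤ g ^ k := by
    refine Finset.card_image_le.trans ?_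
    rw [Finset.card_univ, Fintype.card_fun, ZMod.card, Fintype.card_fin]
  have hsub : F ⊆ univ.filter fun z' => redHom n hg z' ∈ T := by
    intro z' hz'
    rw [mem_filter]
    refine ⟨mem_univ _, ?_⟩
    choose e he using hz
    refine Finset.mem_image.mpr ⟨fun i => ZMod.castHom hg (ZMod g) (∑ a, e i a * z' i a),
      mem_univ _, ?_⟩
    funext i b
    rw [redHom_apply, redHom_apply, ← map_mul]
    have h1 : ∀ a, ZMod.castHom hg (ZMod g) (z i a * z' i b - z i b * z' i a) = 0 :=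
      fun a => (cast_zero_iff hg _).mpr (hF z' hz' i a b)
    have h2 : z' i b = (∑ a, e i a * z' i a) * z i b +
        ∑ a, e i a * (z i a * z' i b - z i b * z' i a) := by
      calc z' i b = (∑ a, e i a * z i a) * z' i b := by rw [he, one_mul]
        _ = _ := by
          rw [Finset.sum_mul, Finset.sum_mul, ← Finset.sum_add_distrib]
          exact Finset.sum_congr rfl fun a _ => by ring
    conv_rhs => rw [h2]
    rw [map_add, map_sum]
    have h3 : ∑ a, ZMod.castHom hg (ZMod g) (e i a * (z i a * z' i b - z i b * z' i a)) = 0 :=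
      Finset.sum_eq_zero fun a _ => by rw [map_mul, h1, mul_zero]
    rw [h3, add_zero]
  have h1 := tail_fib (redHom n hg) T (fun b _ => redHom_surj n hg b)
  have h2 := tail_fib (redHom n hg) univ (fun b _ => redHom_surj n hg b)
  simp only [mem_univ, Finset.filter_true] at h2
  rw [Finset.card_univ, Finset.card_univ, card_pt, card_pt] at h2
  have h3 : F.card * g ^ (∑ i, (n i + 1)) ≤ W ^ (∑ i, (n i + 1)) * g ^ k := by
    calc F.card * g ^ (∑ i, (n i + 1))
        ≤ (univ.filter fun z' => redHom n hg z' ∈ T).card * g ^ (∑ i, (n i + 1)) :=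
          Nat.mul_le_mul_right _ (Finset.card_le_card hsub)
      _ = W ^ (∑ i, (n i + 1)) * T.card := by rw [h1, h2]; ring
      _ ≤ _ := Nat.mul_le_mul_left _ hT
  have h4 : ∑ i, (n i + 1) = ∑ i, n i + k := by
    rw [Finset.sum_add_distrib]
    simp
  rw [h4, pow_add] at h3
  rw [h4]
  refine Nat.le_of_mul_le_mul_right ?_ (pow_pos hgpos k)
  calc F.card * g ^ (∑ i, n i) * g ^ k = F.card * (g ^ (∑ i, n i) * g ^ k) := by ring
    _ ≤ _ := h3

/-- Number of points with one block divisible by `g`. -/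
theorem tail_div {k : ℕ} (n : Fin k → ℕ) (W g : ℕ) [NeZero W] (hg : g ∣ W) (i : Fin k)
    (F : Finset (Pt n (ZMod W))) (hF : ∀ z ∈ F, ∀ j, g ∣ (z i j).val) :
    F.card * g ^ (n i + 1) ≤ W ^ (∑ i, (n i + 1)) := by
  classical
  have hWpos : 0 < W := Nat.pos_of_ne_zero (NeZero.ne W)
  have hgpos : 0 < g := Nat.pos_of_dvd_of_pos hg hWpos
  have : NeZero g := ⟨hgpos.ne'⟩
  let f : Pt n (ZMod W) →+ (Fin (n i + 1) → ZMod g) := (Pi.evalAddMonoidHom _ i).comp (redHom n hg)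
  have hf : ∀ z j, f z j = ZMod.castHom hg (ZMod g) (z i j) := fun z j => rfl
  have hs : ∀ y, ∃ z, f z = y := by
    intro y
    obtain ⟨z, hz⟩ := redHom_surj n hg (Function.update (0 : Pt n (ZMod g)) i y)
    refine ⟨z, ?_⟩
    have : f z = redHom n hg z i := rfl
    rw [this, hz, Function.update_self]
  have h2 := tail_fib f univ (fun b _ => hs b)
  simp only [mem_univ, Finset.filter_true] at h2
  rw [Finset.card_univ, Finset.card_univ, card_pt, Fintype.card_fun, ZMod.card,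
    Fintype.card_fin] at h2
  rw [h2]
  refine Nat.mul_le_mul_right _ (Finset.card_le_card ?_)
  intro z hz
  rw [mem_filter]
  refine ⟨mem_univ _, ?_⟩
  funext j
  rw [hf]
  exact (cast_zero_iff hg _).mpr (hF z hz j)

theorem tail_sq {D : Finset ℕ} {w₀ W : ℕ} (h0 : 1 ≤ w₀) (hW : 0 < W)
    (hD : ∀ g ∈ D, g ∣ W ∧ w₀ < g) : ∑ g ∈ D, ((g : ℝ) ^ 2)⁻¹ ≤ 1 / w₀ := by
  by_cases hw : w₀ ≤ W
  · have h1 : D ⊆ Ioc w₀ W := fun g hg =>
      Finset.mem_Ioc.mpr ⟨(hD g hg).2, Nat.le_of_dvd hW (hD g hg).1⟩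
    calc ∑ g ∈ D, ((g : ℝ) ^ 2)⁻¹ ≤ ∑ g ∈ Ioc w₀ W, ((g : ℝ) ^ 2)⁻¹ :=
          Finset.sum_le_sum_of_subset_of_nonneg h1 fun g _ _ => by positivity
      _ ≤ (w₀ : ℝ)⁻¹ - (W : ℝ)⁻¹ := sum_Ioc_inv_sq_le_sub (by omega) hw
      _ ≤ 1 / w₀ := by
        rw [one_div]
        have : (0 : ℝ) ≤ (W : ℝ)⁻¹ := by positivity
        linarith
  · have h1 : D = ∅ := by
      rw [Finset.eq_empty_iff_forall_notMem]
      intro g hg
      have := Nat.le_of_dvd hW (hD g hg).1
      have := (hD g hg).2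
      omega
    rw [h1, Finset.sum_empty]
    positivity

/-- Number of non-unimodular points. -/
theorem tail_nonprim {k : ℕ} (n : Fin k → ℕ) (hn : ∀ i, 1 ≤ n i) (w₀ W : ℕ) [NeZero W]
    (h0 : 1 ≤ w₀) (hp : ∀ g : ℕ, g ∣ W → g ≠ 1 → w₀ < g) (F : Finset (Pt n (ZMod W)))
    (hF : ∀ z ∈ F, ¬ ∀ i, Umod (z i)) :
    (F.card : ℝ) ≤ k / w₀ * (W : ℝ) ^ (∑ i, (n i + 1)) := by
  classical
  have hWpos : 0 < W := Nat.pos_of_ne_zero (NeZero.ne W)
  let D := W.divisors.filter fun g => g ≠ 1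
  have hD : ∀ g ∈ D, g ∣ W ∧ w₀ < g := by
    intro g hg
    obtain ⟨h1, h2⟩ := Finset.mem_filter.mp hg
    have h3 := Nat.dvd_of_mem_divisors h1
    exact ⟨h3, hp g h3 h2⟩
  have hcov : F ⊆ (univ ×ˢ D).biUnion fun p : Fin k × ℕ =>
      univ.filter fun z : Pt n (ZMod W) => ∀ j, p.2 ∣ (z p.1 j).val := by
    intro z hz
    have h1 := hF z hz
    push Not at h1
    obtain ⟨i, hi⟩ := h1
    obtain ⟨g, hg1, hg2, hg3⟩ := tail_ideal W (Ideal.span (Set.range (z i)))
    rw [Finset.mem_biUnion]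
    refine ⟨(i, g), ?_, ?_⟩
    · rw [Finset.mem_product]
      refine ⟨mem_univ _, ?_⟩
      refine Finset.mem_filter.mpr ⟨Nat.mem_divisors.mpr ⟨hg1, hWpos.ne'⟩, ?_⟩
      intro h
      simp only at h
      subst h
      apply hi
      rw [Nat.cast_one] at hg2
      obtain ⟨c, hc⟩ := (Ideal.mem_span_range_iff_exists_fun).mp hg2
      exact ⟨c, hc⟩
    · rw [mem_filter]
      exact ⟨mem_univ _, fun j => hg3 _ (Ideal.subset_span ⟨j, rfl⟩)⟩
  have h1 : (F.card : ℝ) ≤ ∑ p ∈ (univ : Finset (Fin k)) ×ˢ D,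
      (W : ℝ) ^ (∑ i, (n i + 1)) * ((p.2 : ℝ) ^ 2)⁻¹ := by
    calc (F.card : ℝ) ≤ (((univ ×ˢ D).biUnion fun p : Fin k × ℕ =>
          univ.filter fun z : Pt n (ZMod W) => ∀ j, p.2 ∣ (z p.1 j).val).card : ℝ) := by
          exact_mod_cast Finset.card_le_card hcov
      _ ≤ ∑ p ∈ (univ : Finset (Fin k)) ×ˢ D, ((univ.filter fun z : Pt n (ZMod W) =>
          ∀ j, p.2 ∣ (z p.1 j).val).card : ℝ) := by
          exact_mod_cast Finset.card_biUnion_le
      _ ≤ _ := by
          refine Finset.sum_le_sum fun p hp' => ?_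
          have h2 := (hD p.2 (Finset.mem_product.mp hp').2)
          have hg1 : 1 ≤ p.2 := by omega
          have h3 := tail_div n W p.2 h2.1 p.1 (univ.filter fun z : Pt n (ZMod W) =>
            ∀ j, p.2 ∣ (z p.1 j).val) (fun z hz => (Finset.mem_filter.mp hz).2)
          have h4 : (univ.filter fun z : Pt n (ZMod W) => ∀ j, p.2 ∣ (z p.1 j).val).card *
              p.2 ^ 2 ≤ W ^ (∑ i, (n i + 1)) := by
            refine le_trans (Nat.mul_le_mul_left _ (Nat.pow_le_pow_right hg1 ?_)) h3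
            have := hn p.1
            omega
          have hpos : (0 : ℝ) < (p.2 : ℝ) ^ 2 := by positivity
          rw [← div_eq_mul_inv, le_div_iff₀ hpos]
          exact_mod_cast h4
  refine h1.trans ?_
  rw [Finset.sum_product]
  simp only [← Finset.mul_sum, Finset.sum_const, Finset.card_univ, Fintype.card_fin, nsmul_eq_mul]
  have h5 := tail_sq h0 hWpos hD
  have h6 : (0 : ℝ) ≤ (W : ℝ) ^ (∑ i, (n i + 1)) := by positivity
  calc (W : ℝ) ^ (∑ i, (n i + 1)) * ((k : ℝ) * ∑ g ∈ D, ((g : ℝ) ^ 2)⁻¹)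
      ≤ (W : ℝ) ^ (∑ i, (n i + 1)) * ((k : ℝ) * (1 / w₀)) := by gcongr
    _ = k / w₀ * (W : ℝ) ^ (∑ i, (n i + 1)) := by ring

/-- Second moment of the number of unimodular zeros. -/
theorem tail_second {k : ℕ} (n d : Fin k → ℕ) (hd : ∀ i, 1 ≤ d i) (h3 : 3 ≤ ∑ i, n i)
    (w₀ W : ℕ) [NeZero W] (h0 : 1 ≤ w₀) (hp : ∀ g : ℕ, g ∣ W → g ≠ 1 → w₀ < g)
    (U : Finset (Pt n (ZMod W))) (hU : ∀ z ∈ U, ∀ i, Umod (z i)) :
    (∑ z ∈ U, ∑ z' ∈ U, ((univ.filter fun c : Exps n d → ZMod W =>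
      ev c z = 0 ∧ ev c z' = 0).card : ℝ)) * (W : ℝ) ^ 2 ≤
      (W : ℝ) ^ Fintype.card (Exps n d) *
        ((U.card : ℝ) ^ 2 + (W : ℝ) ^ (2 * ∑ i, (n i + 1)) / w₀) := by
  classical
  have hWpos : 0 < W := Nat.pos_of_ne_zero (NeZero.ne W)
  let D := W.divisors.filter fun g => g ≠ 1
  have hD : ∀ g ∈ D, g ∣ W ∧ w₀ < g := by
    intro g hg
    obtain ⟨h1, h2⟩ := Finset.mem_filter.mp hg
    have h3 := Nat.dvd_of_mem_divisors h1
    exact ⟨h3, hp g h3 h2⟩
  have hpair : ∀ z ∈ U, ∀ z' ∈ U, ((univ.filter fun c : Exps n d → ZMod W =>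
      ev c z = 0 ∧ ev c z' = 0).card : ℝ) * (W : ℝ) ^ 2 ≤
      (W : ℝ) ^ Fintype.card (Exps n d) * (1 + ∑ g ∈ D,
        if (∀ i a b, g ∣ (z i a * z' i b - z i b * z' i a).val) then (g : ℝ) else 0) := by
    intro z hz z' hz'
    obtain ⟨g, hg1, hg2, hg3⟩ := tail_ker2 n d hd W z z' (hU z hz) (hU z' hz')
    have h4 : ((univ.filter fun c : Exps n d → ZMod W =>
      ev c z = 0 ∧ ev c z' = 0).card : ℝ) * (W : ℝ) ^ 2 ≤
      (W : ℝ) ^ Fintype.card (Exps n d) * g := by exact_mod_cast hg3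
    refine h4.trans (mul_le_mul_of_nonneg_left ?_ (by positivity))
    have hnn : ∀ g' ∈ D, (0 : ℝ) ≤
        if (∀ i a b, g' ∣ (z i a * z' i b - z i b * z' i a).val) then (g' : ℝ) else 0 := by
      intro g' _
      split_ifs <;> positivity
    by_cases h1 : g = 1
    · rw [h1, Nat.cast_one]
      have := Finset.sum_nonneg hnn
      linarith
    · have hgD : g ∈ D := Finset.mem_filter.mpr ⟨Nat.mem_divisors.mpr ⟨hg1, hWpos.ne'⟩, h1⟩
      have h5 := Finset.single_le_sum hnn hgD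
      rw [if_pos hg2] at h5
      linarith
  have hcount : ∀ z ∈ U, ∀ g ∈ D, (∑ z' ∈ U,
      if (∀ i a b, g ∣ (z i a * z' i b - z i b * z' i a).val) then (g : ℝ) else 0) ≤
      (W : ℝ) ^ (∑ i, (n i + 1)) * ((g : ℝ) ^ 2)⁻¹ := by
    intro z hz g hg
    obtain ⟨hg1, hg2⟩ := hD g hg
    have hgpos : 0 < g := by omega
    have h4 := tail_prop n W g hg1 z (hU z hz)
      (U.filter fun z' => ∀ i a b, g ∣ (z i a * z' i b - z i b * z' i a).val)
      (fun z' hz' => (Finset.mem_filter.mp hz').2)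
    rw [← Finset.sum_filter, Finset.sum_const, nsmul_eq_mul, ← div_eq_mul_inv,
      le_div_iff₀ (by positivity)]
    have h5 : (U.filter fun z' => ∀ i a b, g ∣ (z i a * z' i b - z i b * z' i a).val).card *
        g * g ^ 2 ≤ W ^ (∑ i, (n i + 1)) := by
      refine le_trans ?_ h4
      rw [mul_assoc]
      refine Nat.mul_le_mul_left _ ?_
      calc g * g ^ 2 = g ^ 3 := by ring
        _ ≤ g ^ (∑ i, n i) := Nat.pow_le_pow_right hgpos h3
    exact_mod_cast h5
  have hUcard : (U.card : ℝ) ≤ (W : ℝ) ^ (∑ i, (n i + 1)) := by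
    have h4 : U.card ≤ W ^ (∑ i, (n i + 1)) := by
      rw [← card_pt n W]
      exact Finset.card_le_univ U
    exact_mod_cast h4
  have hsum : ∑ z ∈ U, ∑ z' ∈ U, (1 + ∑ g ∈ D,
      if (∀ i a b, g ∣ (z i a * z' i b - z i b * z' i a).val) then (g : ℝ) else 0) ≤
      (U.card : ℝ) ^ 2 + (W : ℝ) ^ (2 * ∑ i, (n i + 1)) / w₀ := by
    have h4 : ∀ z ∈ U, ∑ z' ∈ U, (1 + ∑ g ∈ D,
        if (∀ i a b, g ∣ (z i a * z' i b - z i b * z' i a).val) then (g : ℝ) else 0) ≤
        (U.card : ℝ) + (W : ℝ) ^ (∑ i, (n i + 1)) * (1 / w₀) := by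
      intro z hz
      rw [Finset.sum_add_distrib, Finset.sum_const, nsmul_eq_mul, mul_one, Finset.sum_comm]
      refine add_le_add le_rfl ?_
      calc _ ≤ ∑ g ∈ D, (W : ℝ) ^ (∑ i, (n i + 1)) * ((g : ℝ) ^ 2)⁻¹ :=
            Finset.sum_le_sum fun g hg => hcount z hz g hg
        _ = (W : ℝ) ^ (∑ i, (n i + 1)) * ∑ g ∈ D, ((g : ℝ) ^ 2)⁻¹ := by rw [Finset.mul_sum]
        _ ≤ _ := mul_le_mul_of_nonneg_left (tail_sq h0 hWpos hD) (by positivity)
    calc _ ≤ ∑ _z ∈ U, ((U.card : ℝ) + (W : ℝ) ^ (∑ i, (n i + 1)) * (1 / w₀)) :=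
          Finset.sum_le_sum h4
      _ = (U.card : ℝ) ^ 2 + U.card * ((W : ℝ) ^ (∑ i, (n i + 1)) * (1 / w₀)) := by
          rw [Finset.sum_const, nsmul_eq_mul]
          ring
      _ ≤ (U.card : ℝ) ^ 2 + (W : ℝ) ^ (∑ i, (n i + 1)) *
            ((W : ℝ) ^ (∑ i, (n i + 1)) * (1 / w₀)) := by gcongr
      _ = _ := by
          rw [two_mul, pow_add]
          ring
  calc _ = ∑ z ∈ U, ∑ z' ∈ U, ((univ.filter fun c : Exps n d → ZMod W =>
        ev c z = 0 ∧ ev c z' = 0).card : ℝ) * (W : ℝ) ^ 2 := by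
          rw [Finset.sum_mul]
          exact Finset.sum_congr rfl fun z _ => by rw [Finset.sum_mul]
    _ ≤ ∑ z ∈ U, ∑ z' ∈ U, (W : ℝ) ^ Fintype.card (Exps n d) * (1 + ∑ g ∈ D,
        if (∀ i a b, g ∣ (z i a * z' i b - z i b * z' i a).val) then (g : ℝ) else 0) :=
          Finset.sum_le_sum fun z hz => Finset.sum_le_sum fun z' hz' => hpair z hz z' hz'
    _ = (W : ℝ) ^ Fintype.card (Exps n d) * ∑ z ∈ U, ∑ z' ∈ U, (1 + ∑ g ∈ D,
        if (∀ i a b, g ∣ (z i a * z' i b - z i b * z' i a).val) then (g : ℝ) else 0) := by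
          rw [Finset.mul_sum]
          exact Finset.sum_congr rfl fun z _ => by rw [Finset.mul_sum]
    _ ≤ _ := mul_le_mul_of_nonneg_left hsum (by positivity)

theorem tail {k : ℕ} (n d : Fin k → ℕ) (i₀ : Fin k) (hn : ∀ i, 1 ≤ n i) (hd : ∀ i, 1 ≤ d i)
    (hk : 3 ≤ n i₀ ∨ (2 ≤ n i₀ ∧ ∃ j, j ≠ i₀)) : ∃ C : ℝ, 0 < C ∧ ∀ (w₀ W₁ : ℕ) [NeZero W₁],
    1 ≤ w₀ → (∀ p : ℕ, p.Prime → p ∣ W₁ → w₀ < p) →
    ∀ F : Finset (Exps n d → ZMod W₁),
    (∀ c ∈ F, 2 * W₁ * (Zs W₁ c).card < W₁ ^ (∑ i, (n i + 1))) →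
    (F.card : ℝ) ≤ C / w₀ * (W₁ : ℝ) ^ Fintype.card (Exps n d) := by
  classical
  refine ⟨16 + 4 * k, by positivity, ?_⟩
  intro w₀ W _ h0 hprime F hF
  have hWpos : 0 < W := Nat.pos_of_ne_zero (NeZero.ne W)
  have hw0 : (0 : ℝ) < w₀ := by exact_mod_cast h0
  have hp : ∀ g : ℕ, g ∣ W → g ≠ 1 → w₀ < g := by
    intro g hg h1
    have hgpos : 0 < g := Nat.pos_of_dvd_of_pos hg hWpos
    exact lt_of_lt_of_le (hprime _ (Nat.minFac_prime h1) ((Nat.minFac_dvd g).trans hg))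
      (Nat.minFac_le hgpos)
  have h3 : 3 ≤ ∑ i, n i := by
    rcases hk with hk | ⟨hk, j, hj⟩
    · exact hk.trans (Finset.single_le_sum (fun i _ => Nat.zero_le _) (mem_univ i₀))
    · have h4 : n i₀ + n j ≤ ∑ i, n i := by
        rw [← Finset.sum_pair (Ne.symm hj)]
        exact Finset.sum_le_sum_of_subset (Finset.subset_univ _)
      have := hn j
      omega
  have hFle : (F.card : ℝ) ≤ (W : ℝ) ^ Fintype.card (Exps n d) := by
    have h4 : F.card ≤ W ^ Fintype.card (Exps n d) := by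
      refine (Finset.card_le_univ F).trans ?_
      rw [Fintype.card_fun, ZMod.card]
    exact_mod_cast h4
  have hWM : (0 : ℝ) < (W : ℝ) ^ Fintype.card (Exps n d) := by positivity
  by_cases hsmall : (w₀ : ℝ) < 4 * k
  · refine hFle.trans ?_
    have h4 : (1 : ℝ) ≤ (16 + 4 * k) / w₀ := by
      rw [le_div_iff₀ hw0]
      linarith
    nlinarith
  push Not at hsmall
  let U : Finset (Pt n (ZMod W)) := univ.filter fun z => ∀ i, Umod (z i)
  have hU : ∀ z ∈ U, ∀ i, Umod (z i) := fun z hz => (Finset.mem_filter.mp hz).2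
  -- the number of unimodular points
  have hPr : (3 / 4 : ℝ) * (W : ℝ) ^ (∑ i, (n i + 1)) ≤ U.card := by
    have h4 := tail_nonprim n hn w₀ W h0 hp (univ.filter fun z => ¬ ∀ i, Umod (z i))
      (fun z hz => (Finset.mem_filter.mp hz).2)
    have h5 : U.card + (univ.filter fun z : Pt n (ZMod W) => ¬ ∀ i, Umod (z i)).card =
        W ^ (∑ i, (n i + 1)) := by
      rw [← card_pt n W, ← Finset.card_univ]
      exact Finset.card_filter_add_card_filter_not _
    have h6 : (U.card : ℝ) + ((univ.filter fun z : Pt n (ZMod W) =>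
        ¬ ∀ i, Umod (z i)).card : ℝ) = (W : ℝ) ^ (∑ i, (n i + 1)) := by exact_mod_cast h5
    have h7 : (k : ℝ) / w₀ ≤ 1 / 4 := by
      rw [div_le_iff₀ hw0]
      linarith
    have h8 : (k : ℝ) / w₀ * (W : ℝ) ^ (∑ i, (n i + 1)) ≤
        1 / 4 * (W : ℝ) ^ (∑ i, (n i + 1)) := by gcongr
    linarith
  have hZ : ∀ c : Exps n d → ZMod W, ((Zs W c).card : ℝ) =
      ∑ z ∈ U, if ev c z = 0 then (1 : ℝ) else 0 := by
    intro c
    rw [← Finset.sum_filter, Finset.sum_const, nsmul_eq_mul, mul_one, Finset.filter_filter]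
    congr 1
  have hS1 : (∑ c : Exps n d → ZMod W, ((Zs W c).card : ℝ)) * W =
      U.card * (W : ℝ) ^ Fintype.card (Exps n d) := by
    simp only [hZ]
    rw [Finset.sum_comm, Finset.sum_mul]
    have h4 : ∀ z ∈ U, (∑ c : Exps n d → ZMod W, if ev c z = 0 then (1 : ℝ) else 0) * W =
        (W : ℝ) ^ Fintype.card (Exps n d) := by
      intro z hz
      have h5 := tail_ker1 n d W z (hU z hz)
      rw [← Finset.sum_filter, Finset.sum_const, nsmul_eq_mul, mul_one]
      have h6 : (((univ.filter fun c : Exps n d → ZMod W => ev c z = 0).card * W : ℕ) : ℝ) =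
          ((W ^ Fintype.card (Exps n d) : ℕ) : ℝ) := by
        rw [← h5]
      rw [Nat.cast_mul, Nat.cast_pow] at h6
      exact h6
    rw [Finset.sum_congr rfl h4, Finset.sum_const, nsmul_eq_mul]
  have hS2 : (∑ c : Exps n d → ZMod W, ((Zs W c).card : ℝ) ^ 2) * (W : ℝ) ^ 2 ≤
      (W : ℝ) ^ Fintype.card (Exps n d) *
        ((U.card : ℝ) ^ 2 + (W : ℝ) ^ (2 * ∑ i, (n i + 1)) / w₀) := by
    refine le_trans (le_of_eq ?_) (tail_second n d hd h3 w₀ W h0 hp U hU)
    congr 1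
    simp only [hZ, sq, Finset.sum_mul_sum]
    rw [Finset.sum_comm]
    refine Finset.sum_congr rfl fun z _ => ?_
    rw [Finset.sum_comm]
    refine Finset.sum_congr rfl fun z' _ => ?_
    rw [Finset.card_filter, Nat.cast_sum]
    refine Finset.sum_congr rfl fun c _ => ?_
    by_cases h4 : ev c z = 0 <;> by_cases h5 : ev c z' = 0 <;> simp [h4, h5]
  have hcheb : ∑ c : Exps n d → ZMod W, ((W : ℝ) * (Zs W c).card - U.card) ^ 2 ≤
      (W : ℝ) ^ Fintype.card (Exps n d) * ((W : ℝ) ^ (2 * ∑ i, (n i + 1)) / w₀) := by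
    have h4 : ∀ c : Exps n d → ZMod W, ((W : ℝ) * (Zs W c).card - U.card) ^ 2 =
        ((Zs W c).card : ℝ) ^ 2 * (W : ℝ) ^ 2 - 2 * U.card * (((Zs W c).card : ℝ) * W) +
          (U.card : ℝ) ^ 2 := fun c => by ring
    have h5 : ∑ c : Exps n d → ZMod W, ((W : ℝ) * (Zs W c).card - U.card) ^ 2 =
        (∑ c : Exps n d → ZMod W, ((Zs W c).card : ℝ) ^ 2) * (W : ℝ) ^ 2 -
          2 * U.card * ((∑ c : Exps n d → ZMod W, ((Zs W c).card : ℝ)) * W) +
          (W : ℝ) ^ Fintype.card (Exps n d) * (U.card : ℝ) ^ 2 := by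
      simp only [h4, Finset.sum_add_distrib, Finset.sum_sub_distrib, ← Finset.sum_mul,
        ← Finset.mul_sum]
      rw [Finset.sum_const, Finset.card_univ, Fintype.card_fun, ZMod.card, nsmul_eq_mul,
        Nat.cast_pow]
    rw [h5, hS1]
    linarith [hS2]
  have hlow : (F.card : ℝ) * ((1 / 16 : ℝ) * (W : ℝ) ^ (2 * ∑ i, (n i + 1))) ≤
      ∑ c : Exps n d → ZMod W, ((W : ℝ) * (Zs W c).card - U.card) ^ 2 := by
    calc (F.card : ℝ) * ((1 / 16 : ℝ) * (W : ℝ) ^ (2 * ∑ i, (n i + 1)))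
        = ∑ _c ∈ F, ((1 / 16 : ℝ) * (W : ℝ) ^ (2 * ∑ i, (n i + 1))) := by
          rw [Finset.sum_const, nsmul_eq_mul]
      _ ≤ ∑ c ∈ F, ((W : ℝ) * (Zs W c).card - U.card) ^ 2 := by
          refine Finset.sum_le_sum fun c hc => ?_
          have h4 : (2 * (W : ℝ) * (Zs W c).card) < (W : ℝ) ^ (∑ i, (n i + 1)) := by
            exact_mod_cast hF c hc
          have h5 : (0 : ℝ) < (W : ℝ) ^ (∑ i, (n i + 1)) := by positivity
          have h6 : (W : ℝ) ^ (2 * ∑ i, (n i + 1)) = ((W : ℝ) ^ (∑ i, (n i + 1))) ^ 2 := by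
            rw [mul_comm, pow_mul]
          rw [h6]
          have h7 : (1 / 4 : ℝ) * (W : ℝ) ^ (∑ i, (n i + 1)) ≤
              U.card - (W : ℝ) * (Zs W c).card := by linarith
          nlinarith
      _ ≤ _ := Finset.sum_le_sum_of_subset_of_nonneg (Finset.subset_univ _)
          fun c _ _ => by positivity
  have hfin := hlow.trans hcheb
  have h5 : (0 : ℝ) < (W : ℝ) ^ (2 * ∑ i, (n i + 1)) := by positivity
  have h6 : (F.card : ℝ) ≤ 16 / w₀ * (W : ℝ) ^ Fintype.card (Exps n d) := by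
    have h7 : (F.card : ℝ) * (1 / 16) * (W : ℝ) ^ (2 * ∑ i, (n i + 1)) ≤
        ((W : ℝ) ^ Fintype.card (Exps n d) / w₀) * (W : ℝ) ^ (2 * ∑ i, (n i + 1)) := by
      calc _ = (F.card : ℝ) * ((1 / 16 : ℝ) * (W : ℝ) ^ (2 * ∑ i, (n i + 1))) := by ring
        _ ≤ _ := hfin
        _ = _ := by ring
    have h8 := le_of_mul_le_mul_right h7 h5
    have h9 : (16 : ℝ) / w₀ * (W : ℝ) ^ Fintype.card (Exps n d) =
        16 * ((W : ℝ) ^ Fintype.card (Exps n d) / w₀) := by ring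
    rw [h9]
    linarith
  refine h6.trans ?_
  have h7 : (16 : ℝ) / w₀ ≤ (16 + 4 * k) / w₀ := by
    gcongr
    have : (0 : ℝ) ≤ k := by positivity
    linarith
  exact mul_le_mul_of_nonneg_right h7 hWM.le

end Pool.Agent.HP
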