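import Pool.Agent.Lib.MP_fc0680_nt.Crtm
import Pool.Agent.Lib.MP_fc0680_nt.RCount
import Pool.Agent.Lib.MP_fc0680_nt.Loss
import Pool.Agent.Lib.MP_fc0680_nt.RSing
import Pool.Agent.Lib.MP_fc0680_nt.PSing
import Pool.Agent.Lib.MP_fc0680_nt.Hens
import Pool.Agent.Lib.MP_fc0680_nt.Tail

set_option autoImplicit false
open Finset Filter

namespace Pool.Agent.HP

/-- Normalised number of unimodular zeros modulo `N`. -/
noncomputable def sg {k : ℕ} {n d : Fin k → ℕ} (N : ℕ) [NeZero N] (c : Exps n d → ℤ) : ℝ :=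
  (N : ℝ) * ((Zs N (fun s => (c s : ZMod N))).card : ℝ) / (N : ℝ) ^ (∑ i, (n i + 1))

theorem sg_nonneg {k : ℕ} {n d : Fin k → ℕ} (N : ℕ) [NeZero N] (c : Exps n d → ℤ) :
    0 ≤ sg N c := by
  unfold sg; positivity

theorem sg_congr {k : ℕ} {n d : Fin k → ℕ} (N N' : ℕ) (hN : NeZero N) (hN' : NeZero N')
    (h : N = N') (c : Exps n d → ℤ) : @sg k n d N hN c = @sg k n d N' hN' c := by
  subst h
  rfl

theorem sg_mul {k : ℕ} {n d : Fin k → ℕ} (a b : ℕ) [NeZero a] [NeZero b] [NeZero (a * b)]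
    (hab : Nat.Coprime a b) (c : Exps n d → ℤ) : sg (a * b) c = sg a c * sg b c := by
  unfold sg
  rw [zs_mul n d a b hab c]
  push_cast
  rw [mul_pow]
  have ha : (a : ℝ) ≠ 0 := by exact_mod_cast NeZero.ne a
  have hb : (b : ℝ) ≠ 0 := by exact_mod_cast NeZero.ne b
  field_simp

theorem sg_prod {k : ℕ} {n d : Fin k → ℕ} (c : Exps n d → ℤ) (S : Finset ℕ)
    (hS : ∀ p ∈ S, p.Prime) (r : ℕ → ℕ) (κ : ℕ → ℝ) (hκ : ∀ p ∈ S, 0 ≤ κ p) (W1 : ℕ)
    [NeZero W1] (hW1 : ∀ p ∈ S, ¬ p ∣ W1)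
    (hp : ∀ p ∈ S, ∀ h : NeZero (p ^ r p), κ p ≤ sg (p ^ r p) c) (t : ℝ) (ht : 0 ≤ t)
    (hW1' : t ≤ sg W1 c) (h : NeZero ((∏ p ∈ S, p ^ r p) * W1)) :
    (∏ p ∈ S, κ p) * t ≤ sg ((∏ p ∈ S, p ^ r p) * W1) c := by
  classical
  induction S using Finset.induction_on with
  | empty =>
    simp only [Finset.prod_empty, one_mul]
    refine hW1'.trans (le_of_eq ?_)
    exact sg_congr _ _ _ _ (by simp) c
  | insert p S hpS ih =>
    have hprime : p.Prime := hS p (Finset.mem_insert_self _ _)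
    have h1 : NeZero (p ^ r p) := ⟨pow_ne_zero _ hprime.ne_zero⟩
    have h2 : NeZero ((∏ p ∈ S, p ^ r p) * W1) := by
      refine ⟨mul_ne_zero (Finset.prod_ne_zero_iff.2 fun q hq => pow_ne_zero _
        (hS q (Finset.mem_insert_of_mem hq)).ne_zero) (NeZero.ne W1)⟩
    have h3 := ih (fun q hq => hS q (Finset.mem_insert_of_mem hq))
      (fun q hq => hκ q (Finset.mem_insert_of_mem hq))
      (fun q hq => hW1 q (Finset.mem_insert_of_mem hq))
      (fun q hq => hp q (Finset.mem_insert_of_mem hq)) h2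
    have hcop : Nat.Coprime (p ^ r p) ((∏ p ∈ S, p ^ r p) * W1) := by
      refine Nat.Coprime.pow_left _ (Nat.Coprime.mul_right ?_ ?_)
      · refine Nat.Coprime.prod_right fun q hq => Nat.Coprime.pow_right _ ?_
        refine (Nat.coprime_primes hprime (hS q (Finset.mem_insert_of_mem hq))).2 ?_
        rintro rfl
        exact hpS hq
      · exact (Nat.Prime.coprime_iff_not_dvd hprime).2 (hW1 p (Finset.mem_insert_self _ _))
    have heq : (∏ q ∈ insert p S, q ^ r q) * W1 = p ^ r p * ((∏ p ∈ S, p ^ r p) * W1) := by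
      rw [Finset.prod_insert hpS, mul_assoc]
    have h4 : NeZero (p ^ r p * ((∏ p ∈ S, p ^ r p) * W1)) := by
      rw [← heq]; exact h
    rw [sg_congr _ _ h h4 heq c, sg_mul _ _ hcop, Finset.prod_insert hpS, mul_assoc]
    have h5 : κ p ≤ sg (p ^ r p) c := hp p (Finset.mem_insert_self _ _) h1
    have h6 : 0 ≤ κ p := hκ p (Finset.mem_insert_self _ _)
    have h7 : 0 ≤ (∏ p ∈ S, κ p) * t :=
      mul_nonneg (Finset.prod_nonneg fun q hq => hκ q (Finset.mem_insert_of_mem hq)) ht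
    exact mul_le_mul h5 h3 h7 (h6.trans h5)

/-- decomposition of `W` at the primes `≤ w0`. -/
theorem split_W (W w0 : ℕ) (hW : W ≠ 0) :
    ∃ W1 : ℕ, W1 ≠ 0 ∧ (∀ p : ℕ, p.Prime → p ∣ W1 → w0 < p) ∧
      (∏ p ∈ (Finset.range (w0 + 1)).filter Nat.Prime, p ^ W.factorization p) * W1 = W := by
  classical
  refine ⟨∏ p ∈ W.primeFactors.filter (fun p => w0 < p), p ^ W.factorization p, ?_, ?_, ?_⟩
  · refine Finset.prod_ne_zero_iff.2 fun p hp => pow_ne_zero _ ?_
    exact (Nat.prime_of_mem_primeFactors (Finset.mem_filter.1 hp).1).ne_zero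
  · intro p hp hdvd
    obtain ⟨q, hq, hpq⟩ := (Prime.dvd_finset_prod_iff hp.prime _).1 hdvd
    have h1 := hp.dvd_of_dvd_pow hpq
    have h2 := Finset.mem_filter.1 hq
    have h3 := (Nat.prime_dvd_prime_iff_eq hp (Nat.prime_of_mem_primeFactors h2.1)).1 h1
    rw [h3]
    exact h2.2
  · have h1 : ∏ p ∈ W.primeFactors, p ^ W.factorization p = W :=
      Nat.prod_factorization_pow_eq_self hW
    have h2 : ∏ p ∈ (Finset.range (w0 + 1)).filter Nat.Prime, p ^ W.factorization p =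
        ∏ p ∈ W.primeFactors.filter (fun p => ¬ w0 < p), p ^ W.factorization p := by
      symm
      refine Finset.prod_subset ?_ ?_
      · intro p hp
        rw [Finset.mem_filter] at hp ⊢
        exact ⟨Finset.mem_range.2 (by omega), Nat.prime_of_mem_primeFactors hp.1⟩
      · intro p hp hp'
        rw [Finset.mem_filter, Finset.mem_range] at hp
        rw [Finset.mem_filter, not_and] at hp'
        have : p ∉ W.primeFactors := fun h => hp' h (by omega)
        rw [Nat.mem_primeFactors, not_and] at this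
        have h3 : ¬ p ∣ W := fun h => this hp.2 ⟨h, hW⟩
        rw [Nat.factorization_eq_zero_of_not_dvd h3, pow_zero]
    rw [h2, mul_comm, Finset.prod_filter_mul_prod_filter_not]
    exact h1

/-! ### residue classes in boxes -/

theorem icc_mod (a b : ℤ) (N : ℕ) (hN : 0 < N) (hab : a ≤ b + 1) (v : ZMod N) :
    ((((Finset.Icc a b).filter fun x : ℤ => (x : ZMod N) = v).card : ℕ) : ℝ) ≤
      ((b : ℝ) - a + 1) / N + 1 ∧
    ((b : ℝ) - a + 1) / N - 1 ≤
      ((((Finset.Icc a b).filter fun x : ℤ => (x : ZMod N) = v).card : ℕ) : ℝ) := by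
  have : NeZero N := ⟨hN.ne'⟩
  obtain ⟨v', rfl⟩ := ZMod.intCast_surjective v
  have h1 : ((Finset.Icc a b).filter fun x : ℤ => (x : ZMod N) = ((v' : ℤ) : ZMod N)) =
      (Finset.Ioc (a - 1) b).filter fun x : ℤ => x ≡ v' [ZMOD (N : ℤ)] := by
    ext x
    simp only [Finset.mem_filter, Finset.mem_Icc, Finset.mem_Ioc]
    rw [ZMod.intCast_eq_intCast_iff]
    constructor
    · rintro ⟨⟨h1, h2⟩, h3⟩
      exact ⟨⟨by omega, h2⟩, h3⟩
    · rintro ⟨⟨h1, h2⟩, h3⟩
      exact ⟨⟨by omega, h2⟩, h3⟩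
  rw [h1]
  have h2 := Int.Ioc_filter_modEq_card (a - 1) b (r := (N : ℤ)) (by exact_mod_cast hN) v'
  have hN' : (0 : ℚ) < N := by exact_mod_cast hN
  have hf1 := Int.floor_le (((b : ℚ) - v') / ((N : ℤ) : ℚ))
  have hf2 := Int.lt_floor_add_one (((b : ℚ) - v') / ((N : ℤ) : ℚ))
  have hf3 := Int.floor_le ((((a - 1 : ℤ) : ℚ) - v') / ((N : ℤ) : ℚ))
  have hf4 := Int.lt_floor_add_one ((((a - 1 : ℤ) : ℚ) - v') / ((N : ℤ) : ℚ))
  set F1 := ⌊((b : ℚ) - v') / ((N : ℤ) : ℚ)⌋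
  set F2 := ⌊(((a - 1 : ℤ) : ℚ) - v') / ((N : ℤ) : ℚ)⌋
  have hq1 : ((b : ℚ) - v') / ((N : ℤ) : ℚ) - (((a - 1 : ℤ) : ℚ) - v') / ((N : ℤ) : ℚ) =
      ((b : ℚ) - a + 1) / N := by
    push_cast
    field_simp
    ring
  have hle : (0 : ℚ) ≤ ((b : ℚ) - a + 1) / N := by
    apply div_nonneg _ hN'.le
    have : (a : ℚ) ≤ b + 1 := by exact_mod_cast hab
    linarith
  have hu : (((#{x ∈ Finset.Ioc (a - 1) b | x ≡ v' [ZMOD (N : ℤ)]} : ℕ) : ℤ) : ℚ) ≤
      ((b : ℚ) - a + 1) / N + 1 := by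
    rw [h2]
    push_cast
    refine max_le ?_ (by linarith)
    linarith
  have hl : ((b : ℚ) - a + 1) / N - 1 ≤
      (((#{x ∈ Finset.Ioc (a - 1) b | x ≡ v' [ZMOD (N : ℤ)]} : ℕ) : ℤ) : ℚ) := by
    rw [h2]
    push_cast
    refine le_trans ?_ (le_max_left _ _)
    linarith
  constructor
  · have := hu
    have h5 : (((#{x ∈ Finset.Ioc (a - 1) b | x ≡ v' [ZMOD (N : ℤ)]} : ℕ) : ℚ) : ℝ) ≤
        ((((b : ℚ) - a + 1) / N + 1 : ℚ) : ℝ) := by exact_mod_cast this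
    push_cast at h5
    exact h5
  · have := hl
    have h5 : ((((b : ℚ) - a + 1) / N - 1 : ℚ) : ℝ) ≤
        (((#{x ∈ Finset.Ioc (a - 1) b | x ≡ v' [ZMOD (N : ℤ)]} : ℕ) : ℚ) : ℝ) := by
      exact_mod_cast this
    push_cast at h5
    exact h5

open Classical in
/-- Integer points of a product of intervals in a given residue class. -/
theorem pi_mod_card {ι : Type} [Fintype ι] [DecidableEq ι] (lo hi : ι → ℤ) (N : ℕ)
    (z : ι → ZMod N) :
    (((Fintype.piFinset fun i => Finset.Icc (lo i) (hi i)).filter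
      fun c : ι → ℤ => (fun i => (c i : ZMod N)) = z).card) =
      ∏ i, ((Finset.Icc (lo i) (hi i)).filter fun x : ℤ => (x : ZMod N) = z i).card := by
  rw [← Fintype.card_piFinset]
  congr 1
  ext c
  simp only [Finset.mem_filter, Fintype.mem_piFinset]
  constructor
  · rintro ⟨h1, h2⟩ i
    exact ⟨h1 i, congrFun h2 i⟩
  · intro h
    exact ⟨fun i => (h i).1, funext fun i => (h i).2⟩

open Classical in
theorem box_mod_upper {ι : Type} [Fintype ι] [DecidableEq ι] (N : ℕ) (hN : 0 < N) :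
    ∃ H₀ : ℕ, ∀ H : ℕ, H₀ ≤ H → ∀ (G : Finset (ι → ZMod N)) (F : Finset (ι → ℤ)),
    F ⊆ box ι H → (∀ c ∈ F, (fun i => (c i : ZMod N)) ∈ G) →
    (F.card : ℝ) ≤ 2 * G.card * ((2 * (H : ℝ) + 1) ^ Fintype.card ι / (N : ℝ) ^ Fintype.card ι) := by
  have hN' : (0 : ℝ) < N := by exact_mod_cast hN
  -- (1 + N/(2H+1))^M ≤ 2 eventually
  have h1 : Tendsto (fun H : ℕ => (1 + (N : ℝ) / (2 * (H : ℝ) + 1)) ^ Fintype.card ι) atTop
      (nhds ((1 + 0) ^ Fintype.card ι)) := by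
    refine Tendsto.pow (tendsto_const_nhds.add ?_) _
    refine Tendsto.div_atTop tendsto_const_nhds ?_
    refine Tendsto.atTop_add ?_ tendsto_const_nhds
    exact Tendsto.const_mul_atTop (by norm_num) tendsto_natCast_atTop_atTop
  have h2 : ∀ᶠ H : ℕ in atTop, (1 + (N : ℝ) / (2 * (H : ℝ) + 1)) ^ Fintype.card ι < 2 :=
    h1.eventually_lt_const (by simp)
  obtain ⟨H₀, hH₀⟩ := h2.exists_forall_of_atTop
  refine ⟨H₀, fun H hH G F hF hG => ?_⟩
  have h3 := (hH₀ H hH).le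
  have h4 : F ⊆ G.biUnion fun z => (box ι H).filter fun c => (fun i => (c i : ZMod N)) = z := by
    intro c hc
    rw [Finset.mem_biUnion]
    exact ⟨_, hG c hc, Finset.mem_filter.2 ⟨hF hc, rfl⟩⟩
  have h5 := (Finset.card_le_card h4).trans Finset.card_biUnion_le
  have h6 : ∀ z ∈ G, ((((box ι H).filter fun c => (fun i => (c i : ZMod N)) = z).card : ℕ) : ℝ) ≤
      2 * ((2 * (H : ℝ) + 1) ^ Fintype.card ι / (N : ℝ) ^ Fintype.card ι) := by
    intro z _
    unfold box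
    rw [pi_mod_card (fun _ => -(H : ℤ)) (fun _ => (H : ℤ)) N z]
    push_cast
    have h7 : ∀ i ∈ (Finset.univ : Finset ι),
        ((((Finset.Icc (-(H : ℤ)) (H : ℤ)).filter fun x : ℤ => (x : ZMod N) = z i).card : ℕ) : ℝ) ≤
        (2 * (H : ℝ) + 1) / N * (1 + (N : ℝ) / (2 * (H : ℝ) + 1)) := by
      intro i _
      have := (icc_mod (-(H : ℤ)) H N hN (by omega) (z i)).1
      refine this.trans (le_of_eq ?_)
      push_cast
      have : (2 * (H : ℝ) + 1) ≠ 0 := by positivity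
      field_simp
      ring
    have h8 := Finset.prod_le_prod (fun i _ => by positivity) h7
    refine h8.trans ?_
    rw [Finset.prod_const, Finset.card_univ, mul_pow, div_pow, mul_comm]
    exact mul_le_mul_of_nonneg_right h3 (by positivity)
  calc (F.card : ℝ) ≤ ((∑ z ∈ G, ((box ι H).filter
        fun c => (fun i => (c i : ZMod N)) = z).card : ℕ) : ℝ) := by exact_mod_cast h5
    _ = ∑ z ∈ G, ((((box ι H).filter fun c => (fun i => (c i : ZMod N)) = z).card : ℕ) : ℝ) := by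
        push_cast; rfl
    _ ≤ ∑ z ∈ G, 2 * ((2 * (H : ℝ) + 1) ^ Fintype.card ι / (N : ℝ) ^ Fintype.card ι) :=
        Finset.sum_le_sum h6
    _ = _ := by rw [Finset.sum_const, nsmul_eq_mul]; ring

end Pool.Agent.HP
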