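import Pool.Agent.Lib.MP_fc0680_nt.Window
import Pool.Agent.Lib.MP_fc0680_nt.LocA

set_option autoImplicit false
open Finset Filter

namespace Pool.Agent.HP

namespace GP

variable {ι : Type} [Fintype ι] [DecidableEq ι]

theorem mem_box (t : ℕ) (c : ι → ℤ) : c ∈ box ι t ↔ ∀ i, |c i| ≤ t := by
  unfold box
  rw [Fintype.mem_piFinset]
  refine forall_congr' fun i => ?_
  rw [Finset.mem_Icc, abs_le]

/-- number of vectors of the box with prescribed values -/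
noncomputable def Rk (m m' : ι → ℤ) (t : ℕ) (w w' : ℤ) : ℕ :=
  ((box ι t).filter fun c => ∑ i, c i * m i = w ∧ ∑ i, c i * m' i = w').card

theorem Rk_shift (m m' : ι → ℤ) (t h : ℕ) (w w' u u' : ℤ) (b : ι → ℤ) (hb : ∀ i, |b i| ≤ h)
    (h1 : ∑ i, b i * m i = u) (h2 : ∑ i, b i * m' i = u') :
    Rk m m' t w w' ≤ Rk m m' (t + h) (w + u) (w' + u') := by
  unfold Rk
  refine Finset.card_le_card_of_injOn (fun c => c + b) ?_ ?_
  · intro c hc
    rw [Finset.mem_coe, Finset.mem_filter, mem_box] at hc ⊢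
    obtain ⟨hc1, hc2, hc3⟩ := hc
    refine ⟨fun i => ?_, ?_, ?_⟩
    · have h3 := abs_add_le (c i) (b i)
      have h4 := hc1 i
      have h5 := hb i
      push_cast
      rw [Pi.add_apply]
      linarith
    · simp only [Pi.add_apply, add_mul, Finset.sum_add_distrib, hc2, h1]
    · simp only [Pi.add_apply, add_mul, Finset.sum_add_distrib, hc3, h2]
  · intro c _ c' _ h
    exact add_right_cancel h

/-- values of the lattice in the window -/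
noncomputable def LV (m m' : ι → ℤ) (v : ℕ) : Finset (ℤ × ℤ) := by
  classical
  exact ((Finset.Icc (-(v : ℤ)) v) ×ˢ (Finset.Icc (-(v : ℤ)) v)).filter
    fun w => ∃ c : ι → ℤ, ∑ i, c i * m i = w.1 ∧ ∑ i, c i * m' i = w.2

theorem mem_LV (m m' : ι → ℤ) (v : ℕ) (w : ℤ × ℤ) : w ∈ LV m m' v ↔
    (w.1 ∈ Finset.Icc (-(v : ℤ)) v ∧ w.2 ∈ Finset.Icc (-(v : ℤ)) v) ∧
    ∃ c : ι → ℤ, ∑ i, c i * m i = w.1 ∧ ∑ i, c i * m' i = w.2 := by
  classical
  unfold LV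
  rw [Finset.mem_filter, Finset.mem_product]

theorem abs_le_floor (V : ℝ) (hV : 0 ≤ V) (w : ℤ) :
    |(w : ℝ)| ≤ V ↔ w ∈ Finset.Icc (-((⌊V⌋₊ : ℕ) : ℤ)) ((⌊V⌋₊ : ℕ) : ℤ) := by
  rw [Finset.mem_Icc, ← abs_le]
  have h1 : |(w : ℝ)| = ((w.natAbs : ℕ) : ℝ) := by
    rw [Nat.cast_natAbs, Int.cast_abs]
  rw [h1, ← Nat.le_floor_iff hV, ← Int.natCast_natAbs, Nat.cast_le]

theorem window_card (m m' : ι → ℤ) (V : ℝ) (hV : 0 ≤ V) (t : ℕ) :
    ((box ι t).filter fun c => |((∑ i, c i * m i : ℤ) : ℝ)| ≤ V ∧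
        |((∑ i, c i * m' i : ℤ) : ℝ)| ≤ V).card =
      ∑ w ∈ LV m m' ⌊V⌋₊, Rk m m' t w.1 w.2 := by
  classical
  rw [Finset.card_eq_sum_card_fiberwise (t := LV m m' ⌊V⌋₊)
    (f := fun c : ι → ℤ => (∑ i, c i * m i, ∑ i, c i * m' i))]
  · refine Finset.sum_congr rfl fun w hw => ?_
    unfold Rk
    congr 1
    ext c
    rw [Finset.mem_filter, Finset.mem_filter, Finset.mem_filter]
    rw [mem_LV] at hw
    constructor
    · rintro ⟨⟨h1, _⟩, h2⟩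
      exact ⟨h1, (Prod.ext_iff.1 h2).1, (Prod.ext_iff.1 h2).2⟩
    · rintro ⟨h1, h2, h3⟩
      refine ⟨⟨h1, ?_, ?_⟩, Prod.ext h2 h3⟩
      · rw [h2, abs_le_floor V hV]; exact hw.1.1
      · rw [h3, abs_le_floor V hV]; exact hw.1.2
  · intro c hc
    rw [Finset.mem_coe, Finset.mem_filter] at hc
    rw [Finset.mem_coe]
    rw [mem_LV]
    exact ⟨⟨(abs_le_floor V hV _).1 hc.2.1, (abs_le_floor V hV _).1 hc.2.2⟩, c, rfl, rfl⟩

/-- short preimages -/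
def Short (m m' : ι → ℤ) (V : ℝ) (h : ℕ) : Prop :=
  ∀ w w' : ℤ, (∃ c : ι → ℤ, ∑ i, c i * m i = w ∧ ∑ i, c i * m' i = w') → |(w : ℝ)| ≤ V →
    |(w' : ℝ)| ≤ V → ∃ c : ι → ℤ, ∑ i, c i * m i = w ∧ ∑ i, c i * m' i = w' ∧ ∀ i, |c i| ≤ h

theorem Rk_lower (m m' : ι → ℤ) (V : ℝ) (h t : ℕ) (hS : Short m m' V h) (w w' : ℤ)
    (hw : ∃ c : ι → ℤ, ∑ i, c i * m i = w ∧ ∑ i, c i * m' i = w') (h1 : |(w : ℝ)| ≤ V)
    (h2 : |(w' : ℝ)| ≤ V) : Rk m m' t 0 0 ≤ Rk m m' (t + h) w w' := by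
  obtain ⟨c, hc1, hc2, hc3⟩ := hS w w' hw h1 h2
  have := Rk_shift m m' t h 0 0 w w' c hc3 hc1 hc2
  rwa [zero_add, zero_add] at this

theorem Rk_upper (m m' : ι → ℤ) (V : ℝ) (h t : ℕ) (hS : Short m m' V h) (w w' : ℤ)
    (hw : ∃ c : ι → ℤ, ∑ i, c i * m i = w ∧ ∑ i, c i * m' i = w') (h1 : |(w : ℝ)| ≤ V)
    (h2 : |(w' : ℝ)| ≤ V) : Rk m m' t w w' ≤ Rk m m' (t + h) 0 0 := by
  obtain ⟨c, hc1, hc2, hc3⟩ := hS w w' hw h1 h2
  have := Rk_shift m m' t h w w' (-w) (-w') (-c) (fun i => by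
    rw [Pi.neg_apply, abs_neg]; exact hc3 i) (by
    simp only [Pi.neg_apply, neg_mul, Finset.sum_neg_distrib, hc1]) (by
    simp only [Pi.neg_apply, neg_mul, Finset.sum_neg_distrib, hc2])
  rwa [add_neg_cancel, add_neg_cancel] at this

theorem compare (m m' : ι → ℤ) (S V lam : ℝ) (hS0 : 0 ≤ S) (hm : ∀ i, |(m i : ℝ)| ≤ S)
    (hm' : ∀ i, |(m' i : ℝ)| ≤ S) (H h : ℕ) (hH : 2 + 2 * h ≤ H) (hlam : 1 ≤ lam)
    (h1 : ((H + 2 * h : ℕ) : ℝ) + 1 ≤ lam * (((H - 2 * h : ℕ) : ℝ) - 1))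
    (h2 : V + Fintype.card ι * S ≤ lam * (V - Fintype.card ι * S))
    (h3 : Fintype.card ι * S < V) (hSh : Short m m' V h) :
    (Rk m m' (H + h) 0 0 : ℝ) ≤ lam ^ Fintype.card ι * (Rk m m' (H - h) 0 0 : ℝ) := by
  have hV : 0 ≤ V := le_trans (by positivity) h3.le
  have hw := window m m' S V lam hS0 hm hm' (H - 2 * h) (H + 2 * h) (by omega) hlam h1 h2 h3
  rw [window_card m m' V hV, window_card m m' V hV] at hw
  have hLV : ∀ w ∈ LV m m' ⌊V⌋₊, |(w.1 : ℝ)| ≤ V ∧ |(w.2 : ℝ)| ≤ V ∧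
      ∃ c : ι → ℤ, ∑ i, c i * m i = w.1 ∧ ∑ i, c i * m' i = w.2 := by
    intro w hw
    rw [mem_LV] at hw
    exact ⟨(abs_le_floor V hV _).2 hw.1.1, (abs_le_floor V hV _).2 hw.1.2, hw.2⟩
  have hL1 : (LV m m' ⌊V⌋₊).card * Rk m m' (H + h) 0 0 ≤
      ∑ w ∈ LV m m' ⌊V⌋₊, Rk m m' (H + 2 * h) w.1 w.2 := by
    rw [← smul_eq_mul, ← Finset.sum_const]
    refine Finset.sum_le_sum fun w hw => ?_
    obtain ⟨a, b, c⟩ := hLV w hw
    have := Rk_lower m m' V h (H + h) hSh w.1 w.2 c a b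
    have e : H + h + h = H + 2 * h := by omega
    rwa [e] at this
  have hL2 : ∑ w ∈ LV m m' ⌊V⌋₊, Rk m m' (H - 2 * h) w.1 w.2 ≤
      (LV m m' ⌊V⌋₊).card * Rk m m' (H - h) 0 0 := by
    rw [← smul_eq_mul (LV m m' ⌊V⌋₊).card, ← Finset.sum_const]
    refine Finset.sum_le_sum fun w hw => ?_
    obtain ⟨a, b, c⟩ := hLV w hw
    have := Rk_upper m m' V h (H - 2 * h) hSh w.1 w.2 c a b
    have e : H - 2 * h + h = H - h := by omega
    rwa [e] at this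
  have hpos : 0 < (LV m m' ⌊V⌋₊).card := by
    refine Finset.card_pos.2 ⟨(0, 0), ?_⟩
    rw [mem_LV]
    refine ⟨⟨?_, ?_⟩, 0, ?_, ?_⟩ <;> simp
  have hL1' : ((LV m m' ⌊V⌋₊).card : ℝ) * (Rk m m' (H + h) 0 0 : ℝ) ≤
      ((∑ w ∈ LV m m' ⌊V⌋₊, Rk m m' (H + 2 * h) w.1 w.2 : ℕ) : ℝ) := by exact_mod_cast hL1
  have hL2' : ((∑ w ∈ LV m m' ⌊V⌋₊, Rk m m' (H - 2 * h) w.1 w.2 : ℕ) : ℝ) ≤
      ((LV m m' ⌊V⌋₊).card : ℝ) * (Rk m m' (H - h) 0 0 : ℝ) := by exact_mod_cast hL2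
  have hpos' : (0 : ℝ) < ((LV m m' ⌊V⌋₊).card : ℝ) := by exact_mod_cast hpos
  have hlamp : 0 ≤ lam ^ Fintype.card ι := by positivity
  have h4 : ((LV m m' ⌊V⌋₊).card : ℝ) * (Rk m m' (H + h) 0 0 : ℝ) ≤
      ((LV m m' ⌊V⌋₊).card : ℝ) * (lam ^ Fintype.card ι * (Rk m m' (H - h) 0 0 : ℝ)) := by
    refine hL1'.trans (hw.trans ((mul_le_mul_of_nonneg_left hL2' hlamp).trans (le_of_eq ?_)))
    ring
  exact le_of_mul_le_mul_left h4 hpos'

/-- multiples of `W` in the window -/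
noncomputable def VW (W v : ℕ) : Finset ℤ := (Finset.Icc (-(v : ℤ)) v).filter fun w => (W : ℤ) ∣ w

theorem VW_card (W : ℕ) (hW : 0 < W) (V : ℝ) (hV : 0 ≤ V) :
    (2 * V - 1) / W - 1 ≤ ((VW W ⌊V⌋₊).card : ℝ) ∧ ((VW W ⌊V⌋₊).card : ℝ) ≤ (2 * V + 1) / W + 1 := by
  have hW' : (0 : ℝ) < W := by exact_mod_cast hW
  have h1 : VW W ⌊V⌋₊ = (Finset.Icc (-((⌊V⌋₊ : ℕ) : ℤ)) ((⌊V⌋₊ : ℕ) : ℤ)).filter
      fun x : ℤ => (x : ZMod W) = 0 := by
    unfold VW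
    refine Finset.filter_congr fun x _ => ?_
    rw [ZMod.intCast_zmod_eq_zero_iff_dvd]
  have h2 := icc_mod (-((⌊V⌋₊ : ℕ) : ℤ)) ((⌊V⌋₊ : ℕ) : ℤ) W hW (by omega) 0
  rw [h1]
  obtain ⟨h3, h4⟩ := h2
  have h5 := Nat.floor_le hV
  have h6 := Nat.lt_floor_add_one V
  push_cast at h3 h4
  constructor
  · refine le_trans ?_ h4
    have : (2 * V - 1) / W ≤ ((⌊V⌋₊ : ℝ) - -(⌊V⌋₊ : ℝ) + 1) / W :=
      div_le_div_of_nonneg_right (by linarith) hW'.le
    linarith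
  · refine h3.trans ?_
    have : ((⌊V⌋₊ : ℝ) - -(⌊V⌋₊ : ℝ) + 1) / W ≤ (2 * V + 1) / W :=
      div_le_div_of_nonneg_right (by linarith) hW'.le
    linarith

theorem E1_eq (m m' : ι → ℤ) (H : ℕ) : pairE1 H m m' = (Rk m m' H 0 0 : ℝ) := rfl

theorem Rk_comm (m m' : ι → ℤ) (t : ℕ) (w w' : ℤ) : Rk m m' t w w' = Rk m' m t w' w := by
  unfold Rk
  congr 1
  refine Finset.filter_congr fun c _ => ?_
  exact and_comm

theorem E2_eq (m m' : ι → ℤ) (H W : ℕ) (V : ℝ) (hV : 0 ≤ V) :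
    pairE2 H W V m m' = ((∑ v ∈ VW W ⌊V⌋₊, Rk m m' H 0 v : ℕ) : ℝ) := by
  classical
  unfold pairE2
  congr 1
  rw [Finset.card_eq_sum_card_fiberwise (t := VW W ⌊V⌋₊)
    (f := fun c : ι → ℤ => ∑ i, c i * m' i)]
  · refine Finset.sum_congr rfl fun w hw => ?_
    unfold Rk
    congr 1
    ext c
    rw [Finset.mem_filter, Finset.mem_filter, Finset.mem_filter]
    unfold VW at hw
    rw [Finset.mem_filter] at hw
    constructor
    · rintro ⟨⟨h1, h2, _⟩, h3⟩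
      exact ⟨h1, h2, h3⟩
    · rintro ⟨h1, h2, h3⟩
      refine ⟨⟨h1, h2, ?_, ?_⟩, h3⟩
      · rw [h3]; exact hw.2
      · rw [h3, abs_le_floor V hV]; exact hw.1
  · intro c hc
    rw [Finset.mem_coe, Finset.mem_filter] at hc
    rw [Finset.mem_coe]
    unfold VW
    rw [Finset.mem_filter]
    exact ⟨(abs_le_floor V hV _).1 hc.2.2.2, hc.2.2.1⟩

theorem E3_eq (m m' : ι → ℤ) (H W : ℕ) (V : ℝ) (hV : 0 ≤ V) :
    pairE3 H W V m m' =
      ((∑ v ∈ VW W ⌊V⌋₊ ×ˢ VW W ⌊V⌋₊, Rk m m' H v.1 v.2 : ℕ) : ℝ) := by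
  classical
  unfold pairE3
  congr 1
  rw [Finset.card_eq_sum_card_fiberwise (t := VW W ⌊V⌋₊ ×ˢ VW W ⌊V⌋₊)
    (f := fun c : ι → ℤ => (∑ i, c i * m i, ∑ i, c i * m' i))]
  · refine Finset.sum_congr rfl fun w hw => ?_
    unfold Rk
    congr 1
    ext c
    rw [Finset.mem_filter, Finset.mem_filter, Finset.mem_filter]
    unfold VW at hw
    rw [Finset.mem_product, Finset.mem_filter, Finset.mem_filter] at hw
    constructor
    · rintro ⟨⟨h1, _⟩, h3⟩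
      exact ⟨h1, (Prod.ext_iff.1 h3).1, (Prod.ext_iff.1 h3).2⟩
    · rintro ⟨h1, h2, h3⟩
      refine ⟨⟨h1, ⟨?_, ?_⟩, ?_, ?_⟩, Prod.ext h2 h3⟩
      · rw [h2]; exact hw.1.2
      · rw [h2, abs_le_floor V hV]; exact hw.1.1
      · rw [h3]; exact hw.2.2
      · rw [h3, abs_le_floor V hV]; exact hw.2.1
  · intro c hc
    rw [Finset.mem_coe, Finset.mem_filter] at hc
    rw [Finset.mem_coe]
    unfold VW
    rw [Finset.mem_product, Finset.mem_filter, Finset.mem_filter]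
    exact ⟨⟨(abs_le_floor V hV _).1 hc.2.1.2, hc.2.1.1⟩,
      ⟨(abs_le_floor V hV _).1 hc.2.2.2, hc.2.2.1⟩⟩

theorem short_of_cov (m m' : ι → ℤ) (S V θ : ℝ) (ρ h : ℕ) (s s' : ι) (hS1 : 0 < S) (hθ : 0 < θ)
    (hm : ∀ i, |(m i : ℝ)| ≤ S) (hm' : ∀ i, |(m' i : ℝ)| ≤ S) (hV : 0 ≤ V)
    (hΔ : θ * S ^ 2 ≤ |((m s * m' s' - m s' * m' s : ℤ) : ℝ)|) (hc : Cov2 ρ m m')
    (hh : 2 * V / (θ * S) + ρ ≤ h) : Short m m' V h := by
  intro w w' ⟨c, hc1, hc2⟩ hw hw'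
  set D : ℝ := ((m s * m' s' - m s' * m' s : ℤ) : ℝ) with hD
  have hDpos : 0 < |D| := lt_of_lt_of_le (by positivity) hΔ
  have hD0 : D ≠ 0 := abs_pos.1 hDpos
  have hss' : s ≠ s' := by
    rintro rfl
    apply hD0
    rw [hD]
    push_cast
    ring
  set a : ℝ := ((w : ℝ) * m' s' - w' * m s') / D with ha
  set b : ℝ := ((m s : ℝ) * w' - m' s * w) / D with hb
  have hbound : ∀ p q r t : ℝ, |p| ≤ V → |q| ≤ S → |r| ≤ V → |t| ≤ S →
      |(p * q - r * t) / D| ≤ 2 * V / (θ * S) := by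
    intro p q r t hp hq hr ht
    rw [abs_div, div_le_div_iff₀ hDpos (by positivity)]
    have h1 : |p * q - r * t| ≤ V * S + V * S := by
      refine (abs_sub _ _).trans ?_
      rw [abs_mul, abs_mul]
      exact add_le_add (mul_le_mul hp hq (abs_nonneg _) hV) (mul_le_mul hr ht (abs_nonneg _) hV)
    calc |p * q - r * t| * (θ * S) ≤ (V * S + V * S) * (θ * S) :=
          mul_le_mul_of_nonneg_right h1 (by positivity)
      _ = 2 * V * (θ * S ^ 2) := by ring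
      _ ≤ 2 * V * |D| := mul_le_mul_of_nonneg_left hΔ (by positivity)
  have hab : |a| ≤ 2 * V / (θ * S) := hbound _ _ _ _ hw (hm' s') hw' (hm s')
  have hbb : |b| ≤ 2 * V / (θ * S) := by
    have := hbound w' (m s) w (m' s) hw' (hm s) hw (hm' s)
    rw [hb]
    rwa [mul_comm (w' : ℝ), mul_comm (w : ℝ)] at this
  set y : ι → ℝ := fun i => if i = s then a else if i = s' then b else 0 with hy
  have hyb : ∀ i, |y i| ≤ 2 * V / (θ * S) := by
    intro i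
    simp only [hy]
    split_ifs
    · exact hab
    · exact hbb
    · rw [abs_zero]; positivity
  have hsum : ∀ f : ι → ℤ, ∑ i, y i * (f i : ℝ) = a * f s + b * f s' := by
    intro f
    have h1 : ∀ i, y i * (f i : ℝ) = (if i = s then a * f s else 0) +
        (if i = s' then b * f s' else 0) := by
      intro i
      simp only [hy]
      by_cases h1 : i = s
      · subst h1
        simp [hss']
      · by_cases h2 : i = s'
        · subst h2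
          simp [h1]
        · simp [h1, h2]
    simp only [h1, Finset.sum_add_distrib, Finset.sum_ite_eq', Finset.mem_univ, if_true]
  have hym : ∑ i, y i * (m i : ℝ) = w := by
    rw [hsum, ha, hb]
    field_simp
    rw [hD]
    push_cast
    ring
  have hym' : ∑ i, y i * (m' i : ℝ) = w' := by
    rw [hsum, ha, hb]
    field_simp
    rw [hD]
    push_cast
    ring
  have hc1' : ∑ i, (c i : ℝ) * (m i : ℝ) = w := by exact_mod_cast hc1
  have hc2' : ∑ i, (c i : ℝ) * (m' i : ℝ) = w' := by exact_mod_cast hc2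
  obtain ⟨z, hz1, hz2, hz3⟩ := hc (fun i => y i - c i)
    (by simp only [sub_mul, Finset.sum_sub_distrib, hym, hc1', sub_self])
    (by simp only [sub_mul, Finset.sum_sub_distrib, hym', hc2', sub_self])
  refine ⟨fun i => c i + z i, ?_, ?_, fun i => ?_⟩
  · simp only [add_mul, Finset.sum_add_distrib, hc1, hz1, add_zero]
  · simp only [add_mul, Finset.sum_add_distrib, hc2, hz2, add_zero]
  · have h1 := hz3 i
    have h2 := hyb i
    have h3 : |((c i + z i : ℤ) : ℝ)| ≤ h := by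
      push_cast
      have h4 : (c i : ℝ) + z i = y i - (y i - c i - z i) := by ring
      rw [h4]
      refine (abs_sub _ _).trans ?_
      linarith
    exact_mod_cast h3

theorem exists_mu (M : ℕ) (ε : ℝ) (hε : 0 < ε) : ∃ μ : ℝ, 0 < μ ∧ μ ≤ 1 ∧
    (1 + μ) ^ M * (1 + (1 + μ) ^ 2) - 2 * (1 - μ) ≤ ε := by
  have h1 : Tendsto (fun μ : ℝ => (1 + μ) ^ M * (1 + (1 + μ) ^ 2) - 2 * (1 - μ)) (nhds 0)
      (nhds ((1 + 0) ^ M * (1 + (1 + 0) ^ 2) - 2 * (1 - 0))) := by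
    apply Continuous.tendsto
    fun_prop
  have h2 : ∀ᶠ μ : ℝ in nhds 0, (1 + μ) ^ M * (1 + (1 + μ) ^ 2) - 2 * (1 - μ) < ε := by
    refine h1.eventually_lt_const ?_
    norm_num
    exact hε
  obtain ⟨r, hr, hr2⟩ := Metric.eventually_nhds_iff.1 h2
  refine ⟨min (r / 2) 1, by positivity, min_le_right _ _, (hr2 ?_).le⟩
  rw [Real.dist_eq, sub_zero, abs_of_pos (by positivity)]
  exact lt_of_le_of_lt (min_le_left _ _) (by linarith)

end GP

open GP in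
theorem goodpair (M : ℕ) (ε θ : ℝ) (hε : 0 < ε) (hθ : 0 < θ) :
    ∃ δ₀ : ℝ, 0 < δ₀ ∧ ∀ δ : ℝ, 0 < δ → δ ≤ δ₀ → ∀ W : ℕ, 0 < W →
    ∃ H₀ : ℕ, ∃ ρ₀ : ℝ, 0 < ρ₀ ∧ ∀ (ι : Type) [Fintype ι] [DecidableEq ι], Fintype.card ι = M →
    ∀ (m m' : ι → ℤ) (S : ℝ) (H ρ : ℕ) (s s' : ι), 1 ≤ S → (∀ i, |(m i : ℝ)| ≤ S) →
    (∀ i, |(m' i : ℝ)| ≤ S) → H₀ ≤ H → (ρ : ℝ) ≤ ρ₀ * H →
    θ * S ^ 2 ≤ |((m s * m' s' - m s' * m' s : ℤ) : ℝ)| → Cov2 ρ m m' →
    (∃ b : ι → ℤ, ∑ i, b i * m i = W ∧ ∑ i, b i * m' i = 0) →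
    (∃ b : ι → ℤ, ∑ i, b i * m i = 0 ∧ ∑ i, b i * m' i = W) →
    pairE1 H m m' - (W : ℝ) / (2 * (δ * H * S)) *
        (pairE2 H W (δ * H * S) m m' + pairE2 H W (δ * H * S) m' m) +
      ((W : ℝ) / (2 * (δ * H * S))) ^ 2 * pairE3 H W (δ * H * S) m m' ≤
      ε * pairE1 H m m' := by
  obtain ⟨μ, hμ, hμ1, hμ2⟩ := exists_mu M ε hε
  refine ⟨θ * (μ / 12) / 6, by positivity, fun δ hδ hδ0 W hW => ?_⟩
  have hW' : (0 : ℝ) < W := by exact_mod_cast hW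
  obtain ⟨H₀, hH₀⟩ := exists_nat_ge (6 / μ + 3 / (μ / 12) + 3 * (M + 1) / (μ * δ) + W / (μ * δ) + 3)
  refine ⟨H₀, μ / 12 / 3, by positivity, fun ι _ _ hM m m' S H ρ s s' hS hm hm' hH hρ hΔ hc h1 h2 => ?_⟩
  have hHr : 6 / μ + 3 / (μ / 12) + 3 * (M + 1) / (μ * δ) + W / (μ * δ) + 3 ≤ (H : ℝ) :=
    hH₀.trans (by exact_mod_cast hH)
  have p1 : 0 < 6 / μ := by positivity
  have p2 : 0 < 3 / (μ / 12) := by positivity
  have p3 : 0 < 3 * ((M : ℝ) + 1) / (μ * δ) := by positivity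
  have p4 : 0 < (W : ℝ) / (μ * δ) := by positivity
  have q1 : 6 ≤ μ * H := by
    have : 6 / μ ≤ (H : ℝ) := by linarith
    rw [div_le_iff₀ hμ] at this
    linarith
  have q2 : 1 ≤ μ / 12 * H / 3 := by
    have : 3 / (μ / 12) ≤ (H : ℝ) := by linarith
    rw [div_le_iff₀ (by positivity)] at this
    linarith
  have q3 : 3 * ((M : ℝ) + 1) ≤ μ * (δ * H) := by
    have : 3 * ((M : ℝ) + 1) / (μ * δ) ≤ (H : ℝ) := by linarith
    rw [div_le_iff₀ (by positivity)] at this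
    linarith
  have q4 : (W : ℝ) ≤ μ * (δ * H) := by
    have : (W : ℝ) / (μ * δ) ≤ (H : ℝ) := by linarith
    rw [div_le_iff₀ (by positivity)] at this
    linarith
  have hHpos : (0 : ℝ) < H := by linarith
  set V := δ * H * S with hV
  have hδH : 0 < δ * H := by positivity
  have hVpos : 0 < V := by positivity
  have hVge : δ * H ≤ V := by
    rw [hV]
    nlinarith
  set h : ℕ := ⌈2 * V / (θ * S)⌉₊ + ρ with hh
  have hSpos : 0 < S := by linarith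
  have hhle : 2 * V / (θ * S) + ρ ≤ (h : ℝ) := by
    rw [hh]
    push_cast
    linarith [Nat.le_ceil (2 * V / (θ * S))]
  have hhub : (h : ℝ) ≤ μ / 12 * H := by
    rw [hh]
    push_cast
    have e1 : 2 * V / (θ * S) = 2 * δ * H / θ := by
      rw [hV]
      field_simp
    have e2 : 2 * δ * H / θ ≤ μ / 12 * H / 3 := by
      rw [div_le_iff₀ hθ]
      nlinarith
    have e3 := (Nat.ceil_lt_add_one (by positivity : 0 ≤ 2 * V / (θ * S))).le
    rw [e1] at e3 ⊢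
    linarith
  have hSh : Short m m' V h := short_of_cov m m' S V θ ρ h s s' hSpos hθ hm hm' hVpos.le hΔ hc hhle
  have hMr : (Fintype.card ι : ℝ) = M := by exact_mod_cast hM
  have hH3 : (3 : ℝ) ≤ H := by linarith
  have hhH : 2 + 2 * h ≤ H := by
    have : (2 : ℝ) + 2 * h ≤ H := by nlinarith
    exact_mod_cast this
  have hcmp := compare m m' S V (1 + μ) hSpos.le hm hm' H h hhH (by linarith)
    (by
      rw [Nat.cast_sub (by omega)]
      push_cast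
      nlinarith)
    (by
      rw [hMr]
      have e1 : (3 * (M + 1)) * S ≤ μ * V := by
        rw [hV]
        nlinarith
      have e2 : 0 ≤ (M : ℝ) * S := by positivity
      have e3 : μ * ((M : ℝ) * S) ≤ 1 * ((M : ℝ) * S) := mul_le_mul_of_nonneg_right hμ1 e2
      have e4 : (1 + μ) * (V - M * S) = V - M * S + μ * V - μ * (M * S) := by ring
      rw [e4]
      linarith)
    (by
      rw [hMr]
      have : (3 * (M + 1)) * S ≤ μ * V := by
        rw [hV]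
        nlinarith
      nlinarith) hSh
  rw [hM] at hcmp
  -- abbreviations
  set A : ℝ := (Rk m m' (H - h) 0 0 : ℝ) with hA
  set B : ℝ := (Rk m m' (H + h) 0 0 : ℝ) with hB
  have hA0 : 0 ≤ A := by positivity
  have hB0 : 0 ≤ B := by positivity
  set n0 : ℝ := ((VW W ⌊V⌋₊).card : ℝ) with hn0
  have hn00 : 0 ≤ n0 := by positivity
  obtain ⟨hn1, hn2⟩ := VW_card W hW V hVpos.le
  rw [← hn0] at hn1 hn2
  set lw : ℝ := (W : ℝ) / (2 * V) with hlw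
  have hlw0 : 0 < lw := by positivity
  have hWμ : (W : ℝ) ≤ μ * V := q4.trans (mul_le_mul_of_nonneg_left hVge hμ.le)
  have hW1 : (1 : ℝ) ≤ W := by exact_mod_cast hW
  have hln1 : 1 - μ ≤ lw * n0 := by
    have e1 : lw * ((2 * V - 1) / W - 1) = 1 - (1 + W) / (2 * V) := by
      rw [hlw]
      field_simp
      ring
    have e2 : (1 + (W : ℝ)) / (2 * V) ≤ μ := by
      rw [div_le_iff₀ (by positivity)]
      linarith
    have e3 := mul_le_mul_of_nonneg_left hn1 hlw0.le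
    linarith
  have hln2 : lw * n0 ≤ 1 + μ := by
    have e1 : lw * ((2 * V + 1) / W + 1) = 1 + (1 + W) / (2 * V) := by
      rw [hlw]
      field_simp
      ring
    have e2 : (1 + (W : ℝ)) / (2 * V) ≤ μ := by
      rw [div_le_iff₀ (by positivity)]
      linarith
    have e3 := mul_le_mul_of_nonneg_left hn2 hlw0.le
    linarith
  -- all multiples of W are values
  obtain ⟨b1, hb1, hb1'⟩ := h1
  obtain ⟨b2, hb2, hb2'⟩ := h2
  have hval : ∀ v v' : ℤ, (W : ℤ) ∣ v → (W : ℤ) ∣ v' →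
      ∃ c : ι → ℤ, ∑ i, c i * m i = v ∧ ∑ i, c i * m' i = v' := by
    rintro v v' ⟨q, rfl⟩ ⟨q', rfl⟩
    refine ⟨fun i => q * b1 i + q' * b2 i, ?_, ?_⟩
    · simp only [add_mul, mul_assoc, Finset.sum_add_distrib, ← Finset.mul_sum, hb1, hb2]
      ring
    · simp only [add_mul, mul_assoc, Finset.sum_add_distrib, ← Finset.mul_sum, hb1', hb2']
      ring
  have hval0 : |((0 : ℤ) : ℝ)| ≤ V := by
    rw [Int.cast_zero, abs_zero]; exact hVpos.le
  have hE1u : pairE1 H m m' ≤ B := by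
    rw [E1_eq, hB]
    have := Rk_shift m m' H h 0 0 0 0 0 (fun i => by simp) (by simp) (by simp)
    simpa using this
  have hE1l : A ≤ pairE1 H m m' := by
    rw [E1_eq, hA]
    have := Rk_shift m m' (H - h) h 0 0 0 0 0 (fun i => by simp) (by simp) (by simp)
    rw [Nat.sub_add_cancel (by omega)] at this
    simpa using this
  have hE2a : n0 * A ≤ pairE2 H W V m m' := by
    rw [E2_eq m m' H W V hVpos.le, hn0, hA]
    have : (VW W ⌊V⌋₊).card * Rk m m' (H - h) 0 0 ≤ ∑ v ∈ VW W ⌊V⌋₊, Rk m m' H 0 v := by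
      rw [← smul_eq_mul, ← Finset.sum_const]
      refine Finset.sum_le_sum fun v hv => ?_
      unfold VW at hv
      rw [Finset.mem_filter] at hv
      have e := Rk_lower m m' V h (H - h) hSh 0 v (hval 0 v (dvd_zero _) hv.2) hval0
        ((abs_le_floor V hVpos.le v).2 hv.1)
      rwa [Nat.sub_add_cancel (by omega)] at e
    exact_mod_cast this
  have hE2b : n0 * A ≤ pairE2 H W V m' m := by
    rw [E2_eq m' m H W V hVpos.le, hn0, hA]
    have : (VW W ⌊V⌋₊).card * Rk m m' (H - h) 0 0 ≤ ∑ v ∈ VW W ⌊V⌋₊, Rk m' m H 0 v := by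
      rw [← smul_eq_mul, ← Finset.sum_const]
      refine Finset.sum_le_sum fun v hv => ?_
      unfold VW at hv
      rw [Finset.mem_filter] at hv
      have e := Rk_lower m m' V h (H - h) hSh v 0 (hval v 0 hv.2 (dvd_zero _))
        ((abs_le_floor V hVpos.le v).2 hv.1) hval0
      rw [Nat.sub_add_cancel (by omega)] at e
      rwa [Rk_comm m' m]
    exact_mod_cast this
  have hE3 : pairE3 H W V m m' ≤ n0 ^ 2 * B := by
    rw [E3_eq m m' H W V hVpos.le, hn0, hB]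
    have : ∑ v ∈ VW W ⌊V⌋₊ ×ˢ VW W ⌊V⌋₊, Rk m m' H v.1 v.2 ≤
        (VW W ⌊V⌋₊).card ^ 2 * Rk m m' (H + h) 0 0 := by
      rw [sq, ← Finset.card_product, ← smul_eq_mul, ← Finset.sum_const]
      refine Finset.sum_le_sum fun v hv => ?_
      unfold VW at hv
      rw [Finset.mem_product, Finset.mem_filter, Finset.mem_filter] at hv
      exact Rk_upper m m' V h H hSh v.1 v.2 (hval v.1 v.2 hv.1.2 hv.2.2)
        ((abs_le_floor V hVpos.le _).2 hv.1.1) ((abs_le_floor V hVpos.le _).2 hv.2.1)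
    exact_mod_cast this
  have t1 : lw * (2 * (n0 * A)) ≤ lw * (pairE2 H W V m m' + pairE2 H W V m' m) :=
    mul_le_mul_of_nonneg_left (by linarith) hlw0.le
  have t2 : lw ^ 2 * pairE3 H W V m m' ≤ lw ^ 2 * (n0 ^ 2 * B) :=
    mul_le_mul_of_nonneg_left hE3 (by positivity)
  have t3 : lw ^ 2 * (n0 ^ 2 * B) ≤ (1 + μ) ^ 2 * B := by
    have : (lw * n0) ^ 2 ≤ (1 + μ) ^ 2 := pow_le_pow_left₀ (by positivity) hln2 2
    calc lw ^ 2 * (n0 ^ 2 * B) = (lw * n0) ^ 2 * B := by ring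
      _ ≤ (1 + μ) ^ 2 * B := mul_le_mul_of_nonneg_right this hB0
  have t4 : 2 * (1 - μ) * A ≤ lw * (2 * (n0 * A)) := by
    calc 2 * (1 - μ) * A = 2 * ((1 - μ) * A) := by ring
      _ ≤ 2 * ((lw * n0) * A) := by
        have := mul_le_mul_of_nonneg_right hln1 hA0
        linarith
      _ = _ := by ring
  have t5 : (1 + (1 + μ) ^ 2) * B ≤ (1 + (1 + μ) ^ 2) * ((1 + μ) ^ M * A) :=
    mul_le_mul_of_nonneg_left hcmp (by positivity)
  calc pairE1 H m m' - lw * (pairE2 H W V m m' + pairE2 H W V m' m) +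
        lw ^ 2 * pairE3 H W V m m'
      ≤ B - 2 * (1 - μ) * A + (1 + μ) ^ 2 * B := by linarith
    _ ≤ ((1 + μ) ^ M * (1 + (1 + μ) ^ 2) - 2 * (1 - μ)) * A := by
        have : ((1 + μ) ^ M * (1 + (1 + μ) ^ 2) - 2 * (1 - μ)) * A =
          (1 + (1 + μ) ^ 2) * ((1 + μ) ^ M * A) - 2 * (1 - μ) * A := by ring
        rw [this]
        linarith
    _ ≤ ε * A := mul_le_mul_of_nonneg_right hμ2 hA0
    _ ≤ ε * pairE1 H m m' := mul_le_mul_of_nonneg_left hE1l hε.le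

end Pool.Agent.HP
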