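import Pool.Agent.Lib.MP_fc0680_nt.LocA

set_option autoImplicit false
open Finset Filter

namespace Pool.Agent.HP

theorem mono_ringHom {k : ℕ} {n d : Fin k → ℕ} {R S : Type} [CommRing R] [CommRing S]
    (f : R →+* S) (s : Exps n d) (P : Pt n R) :
    f (mono s P) = mono s (fun i j => f (P i j)) := by
  unfold mono bm
  rw [map_prod]
  refine Finset.prod_congr rfl fun i _ => ?_
  rw [map_prod]
  refine Finset.prod_congr rfl fun j _ => ?_
  rw [map_pow]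

theorem evZ_ringHom {k : ℕ} {n d : Fin k → ℕ} {R S : Type} [CommRing R] [CommRing S]
    (f : R →+* S) (c : Exps n d → ℤ) (P : Pt n R) :
    f (evZ c P) = evZ c (fun i j => f (P i j)) := by
  unfold evZ ev
  rw [map_sum]
  refine Finset.sum_congr rfl fun s _ => ?_
  rw [map_mul, mono_ringHom, map_intCast]

theorem Sz_pos {k : ℕ} (d : Fin k → ℕ) (X : Fin k → ℕ) (hX : ∀ i, 1 ≤ X i) : 0 < Sz d X := by
  unfold Sz
  exact Finset.prod_pos fun i _ => pow_pos (by exact_mod_cast hX i) _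

theorem Vol_nonneg {k : ℕ} (n : Fin k → ℕ) (X : Fin k → ℕ) : 0 ≤ Vol n X := by
  unfold Vol
  positivity

open Classical in
/-- The local model with all points of the shell that are unimodular modulo `W`. -/
noncomputable def Nall {k : ℕ} {n d : Fin k → ℕ} (X : Fin k → ℕ) (W : ℕ) (V : ℝ)
    (c : Exps n d → ℤ) : ℝ :=
  (W : ℝ) / (2 * V) * (((shell n X).filter fun P =>
    (∀ i, Umod (fun j => ((P i j : ℤ) : ZMod W))) ∧ (W : ℤ) ∣ (evZ c P : ℤ) ∧
    |((evZ c P : ℤ) : ℝ)| ≤ V).card : ℝ)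

open Classical in
theorem nall_lower {k : ℕ} (n d : Fin k → ℕ) (hd : ∀ i, 1 ≤ d i) (γ : ℝ) (hγ : 0 < γ) :
    ∃ κ : ℝ, 0 < κ ∧ ∃ δ₁ : ℝ, 0 < δ₁ ∧ ∀ δ : ℝ, 0 < δ → δ ≤ δ₁ → ∀ (W : ℕ) [NeZero W],
    ∃ X₀ : ℕ, ∀ (X : Fin k → ℕ) (H : ℕ) (c : Exps n d → ℤ), (∀ i, X₀ ≤ X i) → 1 ≤ H →
    c ∈ box (Exps n d) H → RobustReal γ H c →
    κ * sg W c * EE n d X H ≤ Nall X W (δ * H * Sz d X) c := by
  obtain ⟨κ, hκ, δ₁, hδ₁, h⟩ := rcount n d hd γ hγ
  refine ⟨κ / 2, by positivity, δ₁, hδ₁, fun δ hδ hδ' W hW => ?_⟩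
  obtain ⟨X₀, hX₀⟩ := h δ hδ hδ' W
  refine ⟨max X₀ 1, fun X H c hX hH hc hrob => ?_⟩
  have hX1 : ∀ i, 1 ≤ X i := fun i => (le_max_right _ _).trans (hX i)
  have hSz := Sz_pos d X hX1
  have hH' : (0 : ℝ) < H := by exact_mod_cast hH
  have hW' : (0 : ℝ) < W := by exact_mod_cast Nat.pos_of_ne_zero (NeZero.ne W)
  set c' : Exps n d → ZMod W := fun s => (c s : ZMod W) with hc'
  set V := δ * H * Sz d X with hV
  set A := (shell n X).filter fun P : Pt n ℤ =>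
    (∀ i, Umod (fun j => ((P i j : ℤ) : ZMod W))) ∧ (W : ℤ) ∣ (evZ c P : ℤ) ∧
    |((evZ c P : ℤ) : ℝ)| ≤ V with hA
  set B : Pt n (ZMod W) → Finset (Pt n ℤ) := fun z =>
    (shell n X).filter fun P => (∀ i j, ((P i j : ℤ) : ZMod W) = z i j) ∧
        |((evZ c P : ℤ) : ℝ)| ≤ V with hB
  have h1 : (Zs W c').biUnion B ⊆ A := by
    intro P hP
    rw [Finset.mem_biUnion] at hP
    obtain ⟨z, hz, hPz⟩ := hP
    rw [hB, Finset.mem_filter] at hPz
    obtain ⟨hP1, hP2, hP3⟩ := hPz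
    unfold Zs at hz
    rw [Finset.mem_filter] at hz
    obtain ⟨_, hz1, hz2⟩ := hz
    rw [hA, Finset.mem_filter]
    have hPz' : (fun i j => ((P i j : ℤ) : ZMod W)) = z := by
      funext i j; exact hP2 i j
    refine ⟨hP1, fun i => ?_, ?_, hP3⟩
    · have := congrFun hPz' i
      rw [this]
      exact hz1 i
    · have h2 := evZ_ringHom (Int.castRingHom (ZMod W)) c P
      rw [← ZMod.intCast_zmod_eq_zero_iff_dvd]
      rw [eq_intCast] at h2
      rw [h2]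
      have h3 : (fun (i : Fin k) (j : Fin (n i + 1)) => (Int.castRingHom (ZMod W)) (P i j)) = z := by
        funext i j
        rw [eq_intCast]
        exact hP2 i j
      rw [h3]
      exact hz2
  have h2 : ((Zs W c').biUnion B).card = ∑ z ∈ Zs W c', (B z).card := by
    refine Finset.card_biUnion fun z _ z' _ hzz' => ?_
    change Disjoint (B z) (B z')
    rw [Finset.disjoint_left]
    intro P hP hP'
    rw [hB, Finset.mem_filter] at hP hP'
    refine hzz' ?_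
    funext i j
    rw [← hP.2.1 i j, ← hP'.2.1 i j]
  have h3 : ((Zs W c').card : ℝ) * (κ * δ * Vol n X / (W : ℝ) ^ (∑ i, (n i + 1))) ≤ (A.card : ℝ) := by
    have h4 : (∑ z ∈ Zs W c', (B z).card : ℕ) ≤ A.card := h2 ▸ Finset.card_le_card h1
    calc ((Zs W c').card : ℝ) * (κ * δ * Vol n X / (W : ℝ) ^ (∑ i, (n i + 1)))
        = ∑ z ∈ Zs W c', (κ * δ * Vol n X / (W : ℝ) ^ (∑ i, (n i + 1))) := by
          rw [Finset.sum_const, nsmul_eq_mul]
      _ ≤ ∑ z ∈ Zs W c', ((B z).card : ℝ) := by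
          refine Finset.sum_le_sum fun z _ => ?_
          exact hX₀ X H c (fun i => (le_max_left _ _).trans (hX i)) hH hc hrob z
      _ ≤ (A.card : ℝ) := by exact_mod_cast h4
  have hVpos : 0 < V := by positivity
  calc κ / 2 * sg W c * EE n d X H
      = (W : ℝ) / (2 * V) *
        (((Zs W c').card : ℝ) * (κ * δ * Vol n X / (W : ℝ) ^ (∑ i, (n i + 1)))) := by
        unfold sg EE
        rw [← hc', hV]
        field_simp
    _ ≤ (W : ℝ) / (2 * V) * (A.card : ℝ) := mul_le_mul_of_nonneg_left h3 (by positivity)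
    _ = Nall X W V c := by
        unfold Nall
        rfl

open Classical in
theorem nl_le_nall {k : ℕ} {n d : Fin k → ℕ} (X : Fin k → ℕ) (Ps : Finset (Pt n ℤ))
    (hP : ∀ P ∈ Ps, Shell X P ∧ ∀ i, Umod (P i)) (W : ℕ) (V : ℝ) (c : Exps n d → ℤ) :
    Nall X W V c - Nl Ps W V c = (W : ℝ) / (2 * V) *
      ((((shell n X).filter fun P : Pt n ℤ => (∀ i, Umod (fun j => ((P i j : ℤ) : ZMod W))) ∧
        P ∉ Ps).filter fun P => (W : ℤ) ∣ (evZ c P : ℤ) ∧
      |((evZ c P : ℤ) : ℝ)| ≤ V).card : ℝ) := by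
  unfold Nall Nl
  rw [← mul_sub]
  congr 1
  have hshell : ∀ P ∈ Ps, P ∈ shell n X := by
    intro P hPs
    unfold shell
    rw [Finset.mem_filter, Fintype.mem_piFinset]
    refine ⟨fun i => ?_, (hP P hPs).1⟩
    unfold box
    rw [Fintype.mem_piFinset]
    intro j
    have h1 := ((hP P hPs).1 i).2
    have h2 : (P i j).natAbs ≤ nrm (P i) := by
      unfold nrm
      exact Finset.le_sup (f := fun j => (P i j).natAbs) (Finset.mem_univ j)
    rw [Finset.mem_Icc]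
    omega
  have humod : ∀ P ∈ Ps, ∀ i, Umod (fun j => ((P i j : ℤ) : ZMod W)) := by
    intro P hPs i
    obtain ⟨e, he⟩ := (hP P hPs).2 i
    refine ⟨fun j => (e j : ZMod W), ?_⟩
    have := congrArg (Int.cast : ℤ → ZMod W) he
    push_cast at this
    exact this
  have hsplit : ((shell n X).filter fun P : Pt n ℤ =>
      (∀ i, Umod (fun j => ((P i j : ℤ) : ZMod W))) ∧ (W : ℤ) ∣ (evZ c P : ℤ) ∧
      |((evZ c P : ℤ) : ℝ)| ≤ V) =
      (Ps.filter fun P => (W : ℤ) ∣ (evZ c P : ℤ) ∧ |((evZ c P : ℤ) : ℝ)| ≤ V) ∪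
      (((shell n X).filter fun P : Pt n ℤ => (∀ i, Umod (fun j => ((P i j : ℤ) : ZMod W))) ∧
        P ∉ Ps).filter fun P => (W : ℤ) ∣ (evZ c P : ℤ) ∧ |((evZ c P : ℤ) : ℝ)| ≤ V) := by
    ext P
    simp only [Finset.mem_filter, Finset.mem_union]
    constructor
    · rintro ⟨h1, h2, h3⟩
      by_cases h : P ∈ Ps
      · exact Or.inl ⟨h, h3⟩
      · exact Or.inr ⟨⟨h1, h2, h⟩, h3⟩
    · rintro (⟨h1, h2⟩ | ⟨⟨h1, h2, h3⟩, h4⟩)
      · exact ⟨hshell P h1, humod P h1, h2⟩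
      · exact ⟨h1, h2, h4⟩
  rw [hsplit, Finset.card_union_of_disjoint]
  · push_cast
    ring
  · rw [Finset.disjoint_left]
    intro P h1 h2
    rw [Finset.mem_filter] at h1 h2
    rw [Finset.mem_filter] at h2
    exact h2.1.2.2 h1.1

open Classical in
theorem loss_sum {k : ℕ} (n d : Fin k → ℕ) (hn : ∀ i, 1 ≤ n i) (hd : ∀ i, 1 ≤ d i) :
    ∃ C : ℝ, 0 < C ∧ ∀ (X : ℕ → Fin k → ℕ) (Ps : ℕ → Finset (Pt n ℤ)),
    (∀ i, Tendsto (fun H => X H i) atTop atTop) →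
    (∀ H, ∀ P ∈ Ps H, Shell (X H) P ∧ ∀ i, Umod (P i)) →
    (∀ ε : ℝ, 0 < ε → ∀ᶠ H : ℕ in atTop, ∀ F : Finset (Pt n ℤ),
      (∀ P ∈ F, Shell (X H) P ∧ (∀ i, Umod (P i)) ∧ P ∉ Ps H) →
      (F.card : ℝ) ≤ ε * Vol n (X H)) →
    ∀ (w W : ℕ) (δ : ℝ), 1 ≤ w → 0 < W → (∀ m, 1 ≤ m → m ≤ w → m ∣ W) → 0 < δ →
    ∀ᶠ H : ℕ in atTop,
      ∑ c ∈ box (Exps n d) H, (Nall (X H) W (δ * H * Sz d (X H)) c -
        Nl (Ps H) W (δ * H * Sz d (X H)) c) ≤
      C / w * EE n d (X H) H * (2 * (H : ℝ) + 1) ^ Fintype.card (Exps n d) := by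
  obtain ⟨C₁, hC₁, hloss⟩ := loss_count n d hd
  obtain ⟨C₂, hC₂, hnp⟩ := nonprim_count n hn
  refine ⟨C₁ * (C₂ + 1), by positivity, fun X Ps hX hP hs w W δ hw hW hWd hδ => ?_⟩
  obtain ⟨H₀, hH₀⟩ := hloss W δ hW hδ
  have hX1 : ∀ᶠ H : ℕ in atTop, ∀ i, 1 ≤ X H i := by
    rw [Filter.eventually_all]
    exact fun i => (hX i).eventually_ge_atTop 1
  have hw' : (0 : ℝ) < w := by exact_mod_cast hw
  have hW' : (0 : ℝ) < W := by exact_mod_cast hW
  filter_upwards [hX1, eventually_ge_atTop H₀, eventually_ge_atTop 1, hs (1 / w) (by positivity)]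
    with H hX1 hH hH1 hsH
  have hH1' : (0 : ℝ) < H := by exact_mod_cast hH1
  have hSz := Sz_pos d (X H) hX1
  set V := δ * H * Sz d (X H) with hV
  have hVpos : 0 < V := by positivity
  set Bad := (shell n (X H)).filter fun P : Pt n ℤ =>
    (∀ i, Umod (fun j => ((P i j : ℤ) : ZMod W))) ∧ P ∉ Ps H with hBad
  have hshellS : ∀ P ∈ shell n (X H), Shell (X H) P := by
    intro P hPs
    unfold shell at hPs
    exact (Finset.mem_filter.1 hPs).2
  -- size of Bad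
  have hBadcard : (Bad.card : ℝ) ≤ (C₂ + 1) / w * Vol n (X H) := by
    have h1 := hnp w W (X H) hw hW hWd hX1 (Bad.filter fun P => ¬ ∀ i, Umod (P i))
      (fun P hPB => by
        rw [Finset.mem_filter, hBad, Finset.mem_filter] at hPB
        exact ⟨hshellS P hPB.1.1, hPB.1.2.1, hPB.2⟩)
    have h2 := hsH (Bad.filter fun P => ∀ i, Umod (P i))
      (fun P hPB => by
        rw [Finset.mem_filter, hBad, Finset.mem_filter] at hPB
        exact ⟨hshellS P hPB.1.1, hPB.2, hPB.1.2.2⟩)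
    have h3 : (Bad.filter fun P => ∀ i, Umod (P i)).card +
        (Bad.filter fun P => ¬ ∀ i, Umod (P i)).card = Bad.card :=
      Finset.card_filter_add_card_filter_not (s := Bad) _
    have h4 : ((Bad.filter fun P => ∀ i, Umod (P i)).card : ℝ) +
        ((Bad.filter fun P => ¬ ∀ i, Umod (P i)).card : ℝ) = (Bad.card : ℝ) := by
      exact_mod_cast h3
    have h5 : (C₂ + 1) / w * Vol n (X H) = C₂ / w * Vol n (X H) + 1 / w * Vol n (X H) := by ring
    rw [h5, ← h4]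
    linarith
  have hsum : ∑ c ∈ box (Exps n d) H, (((Bad.filter fun P => (W : ℤ) ∣ (evZ c P : ℤ) ∧
      |((evZ c P : ℤ) : ℝ)| ≤ V).card : ℕ) : ℝ) ≤
      (Bad.card : ℝ) * (C₁ * (δ / W) * (2 * (H : ℝ) + 1) ^ Fintype.card (Exps n d)) := by
    have h1 : ∑ c ∈ box (Exps n d) H, (Bad.filter fun P => (W : ℤ) ∣ (evZ c P : ℤ) ∧
      |((evZ c P : ℤ) : ℝ)| ≤ V).card = ∑ P ∈ Bad, ((box (Exps n d) H).filter
        fun c => (W : ℤ) ∣ (evZ c P : ℤ) ∧ |((evZ c P : ℤ) : ℝ)| ≤ V).card := by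
      simp only [Finset.card_filter]
      exact Finset.sum_comm
    have h2 : ∑ c ∈ box (Exps n d) H, (((Bad.filter fun P => (W : ℤ) ∣ (evZ c P : ℤ) ∧
      |((evZ c P : ℤ) : ℝ)| ≤ V).card : ℕ) : ℝ) = ∑ P ∈ Bad, ((((box (Exps n d) H).filter
        fun c => (W : ℤ) ∣ (evZ c P : ℤ) ∧ |((evZ c P : ℤ) : ℝ)| ≤ V).card : ℕ) : ℝ) := by
      exact_mod_cast h1
    rw [h2]
    calc ∑ P ∈ Bad, ((((box (Exps n d) H).filter
        fun c => (W : ℤ) ∣ (evZ c P : ℤ) ∧ |((evZ c P : ℤ) : ℝ)| ≤ V).card : ℕ) : ℝ)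
        ≤ ∑ P ∈ Bad, (C₁ * (δ / W) * (2 * (H : ℝ) + 1) ^ Fintype.card (Exps n d)) := by
          refine Finset.sum_le_sum fun P hPB => ?_
          rw [hBad, Finset.mem_filter] at hPB
          have := hH₀ (X H) H P hX1 hH (hshellS P hPB.1) hPB.2.1
          refine le_trans (le_of_eq ?_) this
          congr 2
      _ = _ := by rw [Finset.sum_const, nsmul_eq_mul]
  have h6 : ∑ c ∈ box (Exps n d) H, (Nall (X H) W V c - Nl (Ps H) W V c) =
      (W : ℝ) / (2 * V) * ∑ c ∈ box (Exps n d) H, (((Bad.filter fun P => (W : ℤ) ∣ (evZ c P : ℤ) ∧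
      |((evZ c P : ℤ) : ℝ)| ≤ V).card : ℕ) : ℝ) := by
    rw [Finset.mul_sum]
    refine Finset.sum_congr rfl fun c _ => ?_
    rw [nl_le_nall (X H) (Ps H) (hP H) W V c]
  rw [h6]
  calc (W : ℝ) / (2 * V) * ∑ c ∈ box (Exps n d) H, (((Bad.filter fun P => (W : ℤ) ∣ (evZ c P : ℤ) ∧
      |((evZ c P : ℤ) : ℝ)| ≤ V).card : ℕ) : ℝ)
      ≤ (W : ℝ) / (2 * V) * (((C₂ + 1) / w * Vol n (X H)) *
        (C₁ * (δ / W) * (2 * (H : ℝ) + 1) ^ Fintype.card (Exps n d))) := by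
        refine mul_le_mul_of_nonneg_left (hsum.trans ?_) (by positivity)
        exact mul_le_mul_of_nonneg_right hBadcard (by positivity)
    _ = 1 / 2 * (C₁ * (C₂ + 1) / w * EE n d (X H) H *
        (2 * (H : ℝ) + 1) ^ Fintype.card (Exps n d)) := by
        unfold EE
        rw [hV]
        field_simp
    _ ≤ _ := by
        have : 0 ≤ C₁ * (C₂ + 1) / w * EE n d (X H) H *
          (2 * (H : ℝ) + 1) ^ Fintype.card (Exps n d) := by
          have := Vol_nonneg n (X H)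
          unfold EE
          positivity
        linarith

end Pool.Agent.HP
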