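import Pool.Agent.Lib.MP_fc0680_nt.LocB

set_option autoImplicit false
open Finset Filter

namespace Pool.Agent.HP

/-- the exponent vector `X_0^D` -/
def topMon (N D : ℕ) (hN : 0 < N) : Mon N D :=
  ⟨fun j => if j = ⟨0, hN⟩ then ⟨D, by omega⟩ else ⟨0, by omega⟩, by
    rw [Finset.sum_eq_single (⟨0, hN⟩ : Fin N)]
    · simp
    · intro b _ hb
      simp [hb]
    · simp⟩

theorem exps_nonempty {k : ℕ} (n d : Fin k → ℕ) : 1 ≤ Fintype.card (Exps n d) := by
  have : Nonempty (Exps n d) := ⟨fun i => topMon (n i + 1) (d i) (Nat.succ_pos _)⟩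
  exact Fintype.card_pos

/-- constant of the primes at most `w0` -/
noncomputable def kap0 {k : ℕ} (n : Fin k → ℕ) (w0 e : ℕ) : ℝ :=
  (∏ p ∈ (Finset.range (w0 + 1)).filter Nat.Prime,
    ((1 : ℝ) / p) ^ ((2 * e + 1) * (∑ i, (n i + 1) - 1))) * (1 / 2)

theorem kap0_pos {k : ℕ} (n : Fin k → ℕ) (w0 e : ℕ) : 0 < kap0 n w0 e := by
  unfold kap0
  refine mul_pos (Finset.prod_pos fun p hp => ?_) (by norm_num)
  have : 0 < p := (Finset.mem_filter.1 hp).2.pos
  positivity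

theorem sg_W_lower {k : ℕ} (n d : Fin k → ℕ) (i₀ : Fin k) (w0 e W W1 : ℕ) [hWn : NeZero W]
    [NeZero W1]
    (hW : ∀ p : ℕ, p.Prime → p ≤ w0 → 2 * e + 1 ≤ W.factorization p)
    (hW1 : ∀ p : ℕ, p.Prime → p ∣ W1 → w0 < p)
    (hWW1 : (∏ p ∈ (Finset.range (w0 + 1)).filter Nat.Prime, p ^ W.factorization p) * W1 = W)
    (c : Exps n d → ℤ)
    (hp : ∀ (p : ℕ) (_ : p.Prime) (_ : p ≤ w0) (_ : NeZero (p ^ W.factorization p)),
      (p ^ (W.factorization p - (2 * e + 1))) ^ (∑ i, (n i + 1) - 1) ≤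
        (Zs (p ^ W.factorization p) (fun s => (c s : ZMod (p ^ W.factorization p)))).card)
    (ht : ¬ 2 * W1 * (Zs W1 (fun s => (c s : ZMod W1))).card < W1 ^ (∑ i, (n i + 1))) :
    kap0 n w0 e ≤ sg W c := by
  have hNv : 1 ≤ ∑ i, (n i + 1) := by
    refine le_trans ?_ (Finset.single_le_sum (f := fun i => n i + 1) (fun i _ => Nat.zero_le _)
      (Finset.mem_univ i₀))
    omega
  obtain ⟨N', hN'⟩ : ∃ N', ∑ i, (n i + 1) = N' + 1 := ⟨_, (Nat.sub_add_cancel hNv).symm⟩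
  have h0 : NeZero ((∏ p ∈ (Finset.range (w0 + 1)).filter Nat.Prime, p ^ W.factorization p) * W1) := by
    rw [hWW1]; exact hWn
  have h1 := sg_prod c ((Finset.range (w0 + 1)).filter Nat.Prime)
    (fun p hp => (Finset.mem_filter.1 hp).2) (fun p => W.factorization p)
    (fun p => ((1 : ℝ) / p) ^ ((2 * e + 1) * (∑ i, (n i + 1) - 1))) (fun p _ => by positivity)
    W1 (fun p hp hdvd => by
      have := hW1 p (Finset.mem_filter.1 hp).2 hdvd
      have := Finset.mem_range.1 (Finset.mem_filter.1 hp).1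
      omega)
    (fun p hpm hne => ?_) (1 / 2) (by norm_num) ?_ h0
  · unfold kap0
    refine h1.trans (le_of_eq ?_)
    exact sg_congr _ _ _ _ hWW1 c
  · have hpp : p.Prime := (Finset.mem_filter.1 hpm).2
    have hple : p ≤ w0 := by
      have := Finset.mem_range.1 (Finset.mem_filter.1 hpm).1
      omega
    have h2 := hp p hpp hple hne
    have h3 := hW p hpp hple
    obtain ⟨a, ha⟩ : ∃ a, W.factorization p = a + (2 * e + 1) := ⟨_, (Nat.sub_add_cancel h3).symm⟩
    have hp0 : (0 : ℝ) < p := by exact_mod_cast hpp.pos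
    have hp1 : (0 : ℝ) < ((p ^ W.factorization p : ℕ) : ℝ) := by push_cast; positivity
    unfold sg
    rw [le_div_iff₀ (pow_pos hp1 _)]
    have h4 : (((p ^ (W.factorization p - (2 * e + 1))) ^ (∑ i, (n i + 1) - 1) : ℕ) : ℝ) ≤
        ((Zs (p ^ W.factorization p) (fun s => (c s : ZMod (p ^ W.factorization p)))).card : ℝ) := by
      exact_mod_cast h2
    refine le_trans (le_of_eq ?_) (mul_le_mul_of_nonneg_left h4 (by positivity))
    rw [hN', ha]
    simp only [Nat.add_sub_cancel]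
    push_cast
    rw [one_div, inv_pow]
    rw [inv_mul_eq_iff_eq_mul₀ (by positivity)]
    ring
  · unfold sg
    have hW1pos : (0 : ℝ) < W1 := by exact_mod_cast Nat.pos_of_ne_zero (NeZero.ne W1)
    rw [le_div_iff₀ (by positivity)]
    have h5 : W1 ^ (∑ i, (n i + 1)) ≤ 2 * W1 * (Zs W1 (fun s => (c s : ZMod W1))).card :=
      not_lt.1 ht
    have h6 : ((W1 : ℝ) ^ (∑ i, (n i + 1))) ≤ 2 * W1 * ((Zs W1 (fun s => (c s : ZMod W1))).card : ℝ) := by
      exact_mod_cast h5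
    linarith

open Classical in
/-- Markov step. -/
theorem markov_loss {k : ℕ} {n d : Fin k → ℕ} (X : Fin k → ℕ) (Ps : Finset (Pt n ℤ))
    (hP : ∀ P ∈ Ps, Shell X P ∧ ∀ i, Umod (P i)) (W H : ℕ) (V A τ : ℝ) (hV : 0 < V)
    (hsum : ∑ c ∈ box (Exps n d) H, (Nall X W V c - Nl Ps W V c) ≤ A) (hτ : 0 < τ)
    (F : Finset (Exps n d → ℤ)) (hF : F ⊆ box (Exps n d) H)
    (hF2 : ∀ c ∈ F, 2 * τ ≤ Nall X W V c ∧ Nl Ps W V c < τ) : (F.card : ℝ) * τ ≤ A := by
  refine le_trans ?_ hsum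
  calc (F.card : ℝ) * τ = ∑ c ∈ F, τ := by simp
    _ ≤ ∑ c ∈ F, (Nall X W V c - Nl Ps W V c) := by
        refine Finset.sum_le_sum fun c hc => ?_
        obtain ⟨h1, h2⟩ := hF2 c hc
        linarith
    _ ≤ _ := by
        refine Finset.sum_le_sum_of_subset_of_nonneg hF fun c _ _ => ?_
        rw [nl_le_nall X Ps hP W V c]
        positivity

theorem fact_pow_le (w r p : ℕ) (hp : p.Prime) (hpw : p ≤ w) :
    r ≤ (w.factorial ^ r).factorization p := by
  rw [Nat.factorization_pow, Finsupp.smul_apply, smul_eq_mul]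
  have h1 : 1 ≤ w.factorial.factorization p :=
    (hp.dvd_iff_one_le_factorization (Nat.factorial_ne_zero w)).1 ((hp.dvd_factorial).2 hpw)
  nlinarith

open Classical in
theorem local_main {k : ℕ} (n d : Fin k → ℕ) (i₀ : Fin k) (hn : ∀ i, 1 ≤ n i)
    (hd : ∀ i, 1 ≤ d i) (hk : 3 ≤ n i₀ ∨ (2 ≤ n i₀ ∧ ∃ j, j ≠ i₀))
    (X : ℕ → Fin k → ℕ) (Ps : ℕ → Finset (Pt n ℤ))
    (hX : ∀ i, Tendsto (fun H => X H i) atTop atTop)
    (hP : ∀ H, ∀ P ∈ Ps H, Shell (X H) P ∧ ∀ i, Umod (P i))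
    (hs : ∀ ε : ℝ, 0 < ε → ∀ᶠ H : ℕ in atTop, ∀ F : Finset (Pt n ℤ),
      (∀ P ∈ F, Shell (X H) P ∧ (∀ i, Umod (P i)) ∧ P ∉ Ps H) →
      (F.card : ℝ) ≤ ε * Vol n (X H)) (η : ℝ) (hη : 0 < η) :
    ∃ κ : ℝ, 0 < κ ∧ ∃ w₁ : ℕ, ∀ w : ℕ, w₁ ≤ w → ∃ W : ℕ, 0 < W ∧
      (∀ m, 1 ≤ m → m ≤ w → m ∣ W) ∧ ∃ δ₁ : ℝ, 0 < δ₁ ∧ ∀ δ : ℝ, 0 < δ → δ ≤ δ₁ →
      ∀ᶠ H : ℕ in atTop, ∀ F : Finset (Exps n d → ℤ), F ⊆ box (Exps n d) H →
      (∀ c ∈ F, ELS c ∧ Nl (Ps H) W (δ * H * Sz d (X H)) c < κ * EE n d (X H) H) →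
      (F.card : ℝ) ≤ η * (2 * (H : ℝ) + 1) ^ Fintype.card (Exps n d) := by
  obtain ⟨Cr, hCr, hrs⟩ := rsing n d hn hd
  obtain ⟨γ, hγ, hγ1, hγ2⟩ : ∃ γ : ℝ, 0 < γ ∧ γ ≤ 1 ∧ Cr * γ ≤ η / 4 :=
    ⟨min 1 (η / (4 * Cr)), by positivity, min_le_left _ _, by
      calc Cr * min 1 (η / (4 * Cr)) ≤ Cr * (η / (4 * Cr)) :=
            mul_le_mul_of_nonneg_left (min_le_right _ _) hCr.le
        _ = η / 4 := by field_simp⟩
  obtain ⟨κr, hκr, δr, hδr, hnall⟩ := nall_lower n d hd γ hγ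
  obtain ⟨Ct, hCt, htail⟩ := tail n d i₀ hn hd hk
  obtain ⟨w0, hw0⟩ := exists_nat_ge (8 * Ct / η + 1)
  have hw0' : (1 : ℝ) ≤ w0 := le_trans (by have : 0 < 8 * Ct / η := by positivity
                                           linarith) hw0
  have hw0n : 1 ≤ w0 := by exact_mod_cast hw0'
  have hw0p : (0 : ℝ) < w0 := by linarith
  have hCt2 : 2 * (Ct / w0) ≤ η / 4 := by
    have h1 : 8 * Ct / η ≤ w0 := by linarith
    rw [div_le_iff₀ hη] at h1
    rw [← mul_div_assoc, div_le_iff₀ hw0p]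
    linarith
  set Pn : ℕ := ∏ i, (n i + 1) with hPn
  obtain ⟨e, he⟩ : ∃ e : ℕ, 8 * (Pn : ℝ) * (w0 + 1) / η ≤ (2 : ℝ) ^ (e + 1) := by
    obtain ⟨e, he⟩ := pow_unbounded_of_one_lt (8 * (Pn : ℝ) * (w0 + 1) / η) (one_lt_two)
    refine ⟨e, he.le.trans ?_⟩
    exact pow_le_pow_right₀ (by norm_num) (Nat.le_succ e)
  set κ : ℝ := κr * kap0 n w0 e / 2 with hκ
  have hκpos : 0 < κ := by
    have := kap0_pos n w0 e
    positivity
  obtain ⟨Cl, hCl, hloss⟩ := loss_sum n d hn hd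
  obtain ⟨w2, hw2⟩ := exists_nat_ge (4 * Cl / (κ * η) + 1)
  refine ⟨κ, hκpos, max w0 w2, fun w hw => ?_⟩
  have hww0 : w0 ≤ w := (le_max_left _ _).trans hw
  have hww2 : w2 ≤ w := (le_max_right _ _).trans hw
  have hw1 : 1 ≤ w := hw0n.trans hww0
  have hwp : (0 : ℝ) < w := by exact_mod_cast hw1
  set W := w.factorial ^ (2 * e + 1) with hWdef
  have hWpos : 0 < W := pow_pos (Nat.factorial_pos _) _
  have hWne : NeZero W := ⟨hWpos.ne'⟩
  have hWd : ∀ m, 1 ≤ m → m ≤ w → m ∣ W := fun m hm hm' =>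
    (Nat.dvd_factorial hm hm').trans (dvd_pow_self _ (by omega))
  refine ⟨W, hWpos, hWd, δr, hδr, fun δ hδ hδ' => ?_⟩
  obtain ⟨X₀, hX₀⟩ := hnall δ hδ hδ' W
  obtain ⟨W1, hW1ne, hW1p, hWW1⟩ := split_W W w0 hWpos.ne'
  have hW1N : NeZero W1 := ⟨hW1ne⟩
  obtain ⟨H1, hH1⟩ := box_mod_upper (ι := Exps n d) W1 (Nat.pos_of_ne_zero hW1ne)
  have hpall : ∀ᶠ H : ℕ in atTop, ∀ p ∈ (Finset.range (w0 + 1)).filter Nat.Prime,
      ∀ (G : Finset (Exps n d → ZMod (p ^ (e + 1)))) (F : Finset (Exps n d → ℤ)),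
      F ⊆ box (Exps n d) H → (∀ c ∈ F, (fun i => (c i : ZMod (p ^ (e + 1)))) ∈ G) →
      (F.card : ℝ) ≤ 2 * G.card * ((2 * (H : ℝ) + 1) ^ Fintype.card (Exps n d) /
        ((p ^ (e + 1) : ℕ) : ℝ) ^ Fintype.card (Exps n d)) := by
    rw [Filter.eventually_all_finset]
    intro p hp
    obtain ⟨H2, hH2⟩ := box_mod_upper (ι := Exps n d) (p ^ (e + 1))
      (pow_pos (Finset.mem_filter.1 hp).2.pos _)
    filter_upwards [eventually_ge_atTop H2] with H hH using hH2 H hH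
  have hX1 : ∀ᶠ H : ℕ in atTop, ∀ i, max X₀ 1 ≤ X H i := by
    rw [Filter.eventually_all]
    exact fun i => (hX i).eventually_ge_atTop _
  obtain ⟨Hγ, hHγ⟩ := exists_nat_ge (1 / γ)
  filter_upwards [hpall, hX1, eventually_ge_atTop (max (max H1 1) Hγ),
    hloss X Ps hX hP hs w W δ hw1 hWpos hWd hδ] with H hpH hXH hH hlossH F hF hFc
  have hHH1 : H1 ≤ H := (le_max_left _ _).trans ((le_max_left _ _).trans hH)
  have hH11 : 1 ≤ H := (le_max_right _ _).trans ((le_max_left _ _).trans hH)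
  have hHHγ : Hγ ≤ H := (le_max_right _ _).trans hH
  have hHpos : (0 : ℝ) < H := by exact_mod_cast hH11
  have hγH : 1 ≤ γ * H := by
    have h1 : 1 / γ ≤ H := hHγ.trans (by exact_mod_cast hHHγ)
    rw [div_le_iff₀ hγ] at h1
    linarith
  have hXX0 : ∀ i, X₀ ≤ X H i := fun i => (le_max_left _ _).trans (hXH i)
  have hX11 : ∀ i, 1 ≤ X H i := fun i => (le_max_right _ _).trans (hXH i)
  set M := Fintype.card (Exps n d) with hM
  set t : ℝ := (2 * (H : ℝ) + 1) ^ M with ht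
  have htp : 0 < t := by positivity
  have hSz := Sz_pos d (X H) hX11
  set V := δ * H * Sz d (X H) with hV
  have hVpos : 0 < V := by positivity
  have hEpos : 0 < EE n d (X H) H := by
    unfold EE Vol
    have : ∀ i, (0 : ℝ) < (X H i : ℝ) := fun i => by exact_mod_cast hX11 i
    have h2 : (0 : ℝ) < ∏ i, (X H i : ℝ) ^ (n i + 1) := Finset.prod_pos fun i _ => pow_pos (this i) _
    positivity
  -- the four exceptional sets
  set Fa := F.filter fun c => ¬ RobustReal γ H c with hFa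
  set Fb := fun p : ℕ => F.filter fun c => SingMod (p ^ (e + 1))
    (fun s => (c s : ZMod (p ^ (e + 1)))) with hFb
  set Fcc := F.filter fun c => 2 * W1 * (Zs W1 (fun s => (c s : ZMod W1))).card <
    W1 ^ (∑ i, (n i + 1)) with hFcc
  set Fd := F.filter fun c => 2 * (κ * EE n d (X H) H) ≤ Nall (X H) W V c with hFd
  have hcover : F ⊆ Fa ∪ (((Finset.range (w0 + 1)).filter Nat.Prime).biUnion Fb ∪ (Fcc ∪ Fd)) := by
    intro c hc
    rw [Finset.mem_union, Finset.mem_union, Finset.mem_union, Finset.mem_biUnion]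
    by_cases hr : RobustReal γ H c
    swap
    · exact Or.inl (Finset.mem_filter.2 ⟨hc, hr⟩)
    by_cases hb : ∃ p ∈ (Finset.range (w0 + 1)).filter Nat.Prime, c ∈ Fb p
    · exact Or.inr (Or.inl hb)
    by_cases htl : 2 * W1 * (Zs W1 (fun s => (c s : ZMod W1))).card < W1 ^ (∑ i, (n i + 1))
    · exact Or.inr (Or.inr (Or.inl (Finset.mem_filter.2 ⟨hc, htl⟩)))
    refine Or.inr (Or.inr (Or.inr (Finset.mem_filter.2 ⟨hc, ?_⟩)))
    have hels := (hFc c hc).1
    have hsg : kap0 n w0 e ≤ sg W c := by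
      refine sg_W_lower n d i₀ w0 e W W1 (fun p hp hpw => fact_pow_le w (2 * e + 1) p hp
        (hpw.trans hww0)) hW1p hWW1 c (fun p hp hpw _ => ?_) htl
      have hfp : Fact p.Prime := ⟨hp⟩
      refine psol_count n d p e (W.factorization p) (fact_pow_le w (2 * e + 1) p hp
        (hpw.trans hww0)) c (hels.2 p hfp) (fun hsing => hb ⟨p, ?_, ?_⟩)
      · exact Finset.mem_filter.2 ⟨Finset.mem_range.2 (by omega), hp⟩
      · exact Finset.mem_filter.2 ⟨hc, hsing⟩
    have h1 := hX₀ (X H) H c hXX0 hH11 (hF hc) hr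
    refine le_trans ?_ h1
    have h2 : κr * kap0 n w0 e * EE n d (X H) H ≤ κr * sg W c * EE n d (X H) H := by
      refine mul_le_mul_of_nonneg_right ?_ hEpos.le
      exact mul_le_mul_of_nonneg_left hsg hκr.le
    refine le_trans (le_of_eq ?_) h2
    rw [hκ]
    ring
  have hA : (Fa.card : ℝ) ≤ η / 4 * t := by
    have h1 := hrs γ H hγ hγ1 hγH Fa ((Finset.filter_subset _ _).trans hF) (fun c hc => by
      rw [hFa, Finset.mem_filter] at hc
      exact ⟨((hFc c hc.1).1).1, hc.2⟩)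
    refine h1.trans ?_
    exact mul_le_mul_of_nonneg_right hγ2 htp.le
  have hM1 : 1 ≤ M := exps_nonempty n d
  obtain ⟨M', hM'⟩ : ∃ M', M = M' + 1 := ⟨_, (Nat.sub_add_cancel hM1).symm⟩
  have hB : ((((Finset.range (w0 + 1)).filter Nat.Prime).biUnion Fb).card : ℝ) ≤ η / 4 * t := by
    have h1 : ∀ p ∈ (Finset.range (w0 + 1)).filter Nat.Prime,
        ((Fb p).card : ℝ) ≤ η / (4 * (w0 + 1)) * t := by
      intro p hp
      have hpp := (Finset.mem_filter.1 hp).2
      have hne : NeZero (p ^ (e + 1)) := ⟨pow_ne_zero _ hpp.ne_zero⟩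
      set N := p ^ (e + 1) with hN
      have h2 := psing n d hn hd N (Finset.univ.filter fun c => SingMod N c)
        (fun c hc => (Finset.mem_filter.1 hc).2)
      have h3 := hpH p hp (Finset.univ.filter fun c => SingMod N c) (Fb p)
        ((Finset.filter_subset _ _).trans hF) (fun c hc => by
          rw [hFb] at hc
          exact Finset.mem_filter.2 ⟨Finset.mem_univ _, (Finset.mem_filter.1 hc).2⟩)
      have h4 : (((Finset.univ.filter fun c : Exps n d → ZMod N => SingMod N c).card : ℕ) : ℝ) ≤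
          (Pn : ℝ) * (N : ℝ) ^ M' := by
        have : Fintype.card (Exps n d) - 1 = M' := by omega
        rw [this] at h2
        exact_mod_cast h2
      have hNpos : (0 : ℝ) < N := by exact_mod_cast Nat.pos_of_ne_zero (NeZero.ne N)
      have hN2 : (2 : ℝ) ^ (e + 1) ≤ N := by
        rw [hN]
        push_cast
        exact pow_le_pow_left₀ (by norm_num) (by exact_mod_cast hpp.two_le) _
      refine h3.trans ?_
      calc 2 * (((Finset.univ.filter fun c : Exps n d → ZMod N => SingMod N c).card : ℕ) : ℝ) *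
            (t / (N : ℝ) ^ M)
          ≤ 2 * ((Pn : ℝ) * (N : ℝ) ^ M') * (t / (N : ℝ) ^ M) := by
            refine mul_le_mul_of_nonneg_right ?_ (by positivity)
            linarith
        _ = 2 * Pn / N * t := by
            rw [hM']
            field_simp
            ring
        _ ≤ η / (4 * (w0 + 1)) * t := by
            refine mul_le_mul_of_nonneg_right ?_ htp.le
            rw [div_le_div_iff₀ hNpos (by positivity)]
            have h5 : 8 * (Pn : ℝ) * (w0 + 1) / η ≤ N := he.trans hN2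
            rw [div_le_iff₀ hη] at h5
            linarith
    have h2 : ((((Finset.range (w0 + 1)).filter Nat.Prime).biUnion Fb).card : ℝ) ≤
        ∑ p ∈ (Finset.range (w0 + 1)).filter Nat.Prime, ((Fb p).card : ℝ) := by
      exact_mod_cast Finset.card_biUnion_le
    refine h2.trans ((Finset.sum_le_sum h1).trans ?_)
    rw [Finset.sum_const, nsmul_eq_mul]
    have h3 : (((Finset.range (w0 + 1)).filter Nat.Prime).card : ℝ) ≤ w0 + 1 := by
      have := Finset.card_filter_le (Finset.range (w0 + 1)) Nat.Prime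
      rw [Finset.card_range] at this
      exact_mod_cast this
    calc (((Finset.range (w0 + 1)).filter Nat.Prime).card : ℝ) * (η / (4 * (w0 + 1)) * t)
        ≤ (w0 + 1) * (η / (4 * (w0 + 1)) * t) := mul_le_mul_of_nonneg_right h3 (by positivity)
      _ = η / 4 * t := by field_simp
  have hC : (Fcc.card : ℝ) ≤ η / 4 * t := by
    set G := Finset.univ.filter fun c : Exps n d → ZMod W1 =>
      2 * W1 * (Zs W1 c).card < W1 ^ (∑ i, (n i + 1)) with hG
    have h1 := htail w0 W1 hw0n hW1p G (fun c hc => (Finset.mem_filter.1 hc).2)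
    have h2 := hH1 H hHH1 G Fcc ((Finset.filter_subset _ _).trans hF) (fun c hc => by
      rw [hFcc] at hc
      exact Finset.mem_filter.2 ⟨Finset.mem_univ _, (Finset.mem_filter.1 hc).2⟩)
    have hW1pos : (0 : ℝ) < W1 := by exact_mod_cast Nat.pos_of_ne_zero hW1ne
    refine h2.trans ?_
    calc 2 * (G.card : ℝ) * (t / (W1 : ℝ) ^ M)
        ≤ 2 * (Ct / w0 * (W1 : ℝ) ^ M) * (t / (W1 : ℝ) ^ M) := by
          refine mul_le_mul_of_nonneg_right ?_ (by positivity)
          linarith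
      _ = 2 * (Ct / w0) * t := by field_simp
      _ ≤ η / 4 * t := mul_le_mul_of_nonneg_right hCt2 htp.le
  have hD : (Fd.card : ℝ) ≤ η / 4 * t := by
    have h1 := markov_loss (X H) (Ps H) (hP H) W H V _ (κ * EE n d (X H) H) hVpos hlossH
      (by positivity) Fd ((Finset.filter_subset _ _).trans hF) (fun c hc => by
        rw [hFd, Finset.mem_filter] at hc
        exact ⟨hc.2, (hFc c hc.1).2⟩)
    have h2 : (Fd.card : ℝ) * (κ * EE n d (X H) H) ≤ (η / 4 * t) * (κ * EE n d (X H) H) := by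
      refine h1.trans ?_
      have h3 : Cl / w ≤ η / 4 * κ := by
        rw [div_le_iff₀ hwp]
        have h4 : 4 * Cl / (κ * η) ≤ w := by
          have : (w2 : ℝ) ≤ w := by exact_mod_cast hww2
          linarith
        rw [div_le_iff₀ (by positivity)] at h4
        linarith
      have h5 : Cl / w * EE n d (X H) H * t ≤ η / 4 * κ * EE n d (X H) H * t := by
        refine mul_le_mul_of_nonneg_right ?_ htp.le
        exact mul_le_mul_of_nonneg_right h3 hEpos.le
      refine h5.trans (le_of_eq ?_)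
      ring
    exact le_of_mul_le_mul_right h2 (by positivity)
  have hfin := (Finset.card_le_card hcover).trans ((Finset.card_union_le _ _).trans
    (Nat.add_le_add_left ((Finset.card_union_le _ _).trans
      (Nat.add_le_add_left (Finset.card_union_le _ _) _)) _))
  have hfin' : (F.card : ℝ) ≤ Fa.card +
      ((((Finset.range (w0 + 1)).filter Nat.Prime).biUnion Fb).card + (Fcc.card + Fd.card)) := by
    exact_mod_cast hfin
  linarith

end Pool.Agent.HP
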