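import Pool.Agent.Lib.MP_fc0680_nt.Defs

/-!
# MP_fc0680_nt : triangular structure of the value and the non-pivot derivatives

At a point normalised by `P i (piv i) = 1`, the value and the non-pivot partial derivatives
of a form are triangular in the coefficients of `u₀ = ∏ X_{i,piv}^{d_i}` and
`u_{ij} = u₀ X_{ij} / X_{i,piv}`.
-/

set_option autoImplicit false
open Finset

namespace Pool.Agent.HP

namespace Tri

/-- Coefficient of `c s` in `dev c P i j`. -/
def dmono {k : ℕ} {n d : Fin k → ℕ} {R : Type} [CommRing R] (s : Exps n d) (P : Pt n R)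
    (i : Fin k) (j : Fin (n i + 1)) : R :=
  (∏ l ∈ univ.erase j, P i l ^ ((s i).1 l : ℕ)) * (∏ i' ∈ univ.erase i, bm (s i') (P i')) *
    ((((s i).1 j : ℕ) : R) * P i j ^ (((s i).1 j : ℕ) - 1))

theorem dev_eq {k : ℕ} {n d : Fin k → ℕ} {R : Type} [CommRing R] (c : Exps n d → R)
    (P : Pt n R) (i : Fin k) (j : Fin (n i + 1)) :
    dev c P i j = ∑ s, c s * dmono s P i j := by
  unfold dev line
  rw [Polynomial.derivative_sum, Polynomial.eval_finsetSum]
  refine Finset.sum_congr rfl fun s _ => ?_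
  rw [Polynomial.derivative_C_mul_X_pow]
  simp only [Polynomial.eval_mul, Polynomial.eval_C, Polynomial.eval_pow, Polynomial.eval_X,
    dmono]
  ring

/-- The exponent vector `D e_p`. -/
def pw {N : ℕ} (D : ℕ) (p : Fin N) : Mon N D :=
  ⟨fun l => if l = p then Fin.last D else 0, by
    have h : ∀ l, ((if l = p then Fin.last D else 0 : Fin (D + 1)) : ℕ) = if l = p then D else 0 := by
      intro l
      split_ifs <;> simp
    simp only [h, Finset.sum_ite_eq', Finset.mem_univ, if_true]⟩

theorem pw_val {N D : ℕ} (p l : Fin N) : ((pw D p).1 l : ℕ) = if l = p then D else 0 := by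
  unfold pw
  dsimp only
  split_ifs <;> simp

/-- The exponent vector `(D - 1) e_p + e_j`. -/
def qw {N : ℕ} (D : ℕ) (hD : 1 ≤ D) (p j : Fin N) (hj : j ≠ p) : Mon N D :=
  ⟨fun l => ⟨if l = p then D - 1 else if l = j then 1 else 0, by split_ifs <;> omega⟩, by
    have h : ∀ l, (if l = p then D - 1 else if l = j then 1 else 0) =
        (if l = p then D - 1 else 0) + (if l = j then 1 else 0) := by
      intro l
      by_cases h1 : l = p
      · simp [h1]
        intro h3
        exact absurd h3.symm hj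
      · simp [h1]
    simp only [h, Finset.sum_add_distrib, Finset.sum_ite_eq', Finset.mem_univ, if_true]
    omega⟩

theorem qw_val {N D : ℕ} (hD : 1 ≤ D) (p j : Fin N) (hj : j ≠ p) (l : Fin N) :
    ((qw D hD p j hj).1 l : ℕ) = if l = p then D - 1 else if l = j then 1 else 0 := rfl

theorem bm_pw {N D : ℕ} {R : Type} [CommRing R] (p : Fin N) (x : Fin N → R) (hx : x p = 1) :
    bm (pw D p) x = 1 := by
  unfold bm
  refine Finset.prod_eq_one fun l _ => ?_
  rw [pw_val]
  by_cases h : l = p
  · rw [h, hx, one_pow]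
  · rw [if_neg h, pow_zero]

variable {k : ℕ} {n d : Fin k → ℕ}

/-- Non-pivot variables. -/
abbrev NP (piv : (i : Fin k) → Fin (n i + 1)) : Type :=
  Σ i : Fin k, {j : Fin (n i + 1) // j ≠ piv i}

/-- The distinguished exponents. -/
def u (hd : ∀ i, 1 ≤ d i) (piv : (i : Fin k) → Fin (n i + 1)) : Option (NP piv) → Exps n d
  | none => fun i => pw (d i) (piv i)
  | some a => Function.update (fun i => pw (d i) (piv i)) a.1
      (qw (d a.1) (hd a.1) (piv a.1) a.2.1 a.2.2)

theorem u_none_val (hd : ∀ i, 1 ≤ d i) (piv : (i : Fin k) → Fin (n i + 1)) (i : Fin k)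
    (j : Fin (n i + 1)) (hj : j ≠ piv i) : ((u hd piv none i).1 j : ℕ) = 0 := by
  change ((pw (d i) (piv i)).1 j : ℕ) = 0
  rw [pw_val, if_neg hj]

theorem u_some_self (hd : ∀ i, 1 ≤ d i) (piv : (i : Fin k) → Fin (n i + 1)) (a : NP piv) :
    u hd piv (some a) a.1 = qw (d a.1) (hd a.1) (piv a.1) a.2.1 a.2.2 := by
  simp only [u, Function.update_self]

theorem u_some_ne (hd : ∀ i, 1 ≤ d i) (piv : (i : Fin k) → Fin (n i + 1)) (a : NP piv)
    (i : Fin k) (hi : i ≠ a.1) : u hd piv (some a) i = pw (d i) (piv i) := by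
  simp only [u, Function.update_of_ne hi, ne_eq]

theorem u_some_val_self (hd : ∀ i, 1 ≤ d i) (piv : (i : Fin k) → Fin (n i + 1)) (a : NP piv) :
    ((u hd piv (some a) a.1).1 a.2.1 : ℕ) = 1 := by
  rw [u_some_self, qw_val, if_neg a.2.2, if_pos rfl]

theorem u_some_val_ne (hd : ∀ i, 1 ≤ d i) (piv : (i : Fin k) → Fin (n i + 1)) (a b : NP piv)
    (hab : b ≠ a) : ((u hd piv (some a) b.1).1 b.2.1 : ℕ) = 0 := by
  obtain ⟨i, j, hj⟩ := b
  by_cases h : i = a.1
  · subst h
    dsimp only
    rw [u_some_self, qw_val, if_neg hj, if_neg]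
    intro h2
    apply hab
    subst h2
    rfl
  · dsimp only
    rw [u_some_ne hd piv a i h, pw_val, if_neg hj]

theorem u_inj (hd : ∀ i, 1 ≤ d i) (piv : (i : Fin k) → Fin (n i + 1)) :
    Function.Injective (u hd piv) := by
  have key : ∀ (a : NP piv) (b : Option (NP piv)), u hd piv (some a) = u hd piv b →
      some a = b := by
    intro a b hab
    have h1 := u_some_val_self hd piv a
    rw [hab] at h1
    cases b with
    | none => rw [u_none_val hd piv _ _ a.2.2] at h1; omega
    | some b =>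
      by_contra hne
      have hne' : a ≠ b := fun h => hne (by rw [h])
      rw [u_some_val_ne hd piv b a hne'] at h1
      omega
  intro a b hab
  cases a with
  | some a => exact key a b hab
  | none =>
    cases b with
    | none => rfl
    | some b => exact (key b none hab.symm).symm

theorem mono_u_none {R : Type} [CommRing R] (hd : ∀ i, 1 ≤ d i)
    (piv : (i : Fin k) → Fin (n i + 1)) (P : Pt n R) (hP : ∀ i, P i (piv i) = 1) :
    mono (u hd piv none) P = 1 := by
  unfold mono
  exact Finset.prod_eq_one fun i _ => bm_pw (piv i) (P i) (hP i)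

theorem dmono_u_none {R : Type} [CommRing R] (hd : ∀ i, 1 ≤ d i)
    (piv : (i : Fin k) → Fin (n i + 1)) (P : Pt n R) (a : NP piv) :
    dmono (u hd piv none) P a.1 a.2.1 = 0 := by
  unfold dmono
  rw [u_none_val hd piv _ _ a.2.2]
  simp

theorem dmono_u_ne {R : Type} [CommRing R] (hd : ∀ i, 1 ≤ d i)
    (piv : (i : Fin k) → Fin (n i + 1)) (P : Pt n R) (a b : NP piv) (hab : b ≠ a) :
    dmono (u hd piv (some a)) P b.1 b.2.1 = 0 := by
  unfold dmono
  rw [u_some_val_ne hd piv a b hab]
  simp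

theorem dmono_u_self {R : Type} [CommRing R] (hd : ∀ i, 1 ≤ d i)
    (piv : (i : Fin k) → Fin (n i + 1)) (P : Pt n R) (hP : ∀ i, P i (piv i) = 1) (a : NP piv) :
    dmono (u hd piv (some a)) P a.1 a.2.1 = 1 := by
  unfold dmono
  rw [u_some_val_self hd piv a]
  have h1 : ∏ l ∈ univ.erase a.2.1, P a.1 l ^ ((u hd piv (some a) a.1).1 l : ℕ) = 1 := by
    refine Finset.prod_eq_one fun l hl => ?_
    rw [u_some_self, qw_val]
    by_cases h : l = piv a.1
    · rw [h, hP, one_pow]
    · rw [if_neg h, if_neg (Finset.ne_of_mem_erase hl), pow_zero]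
  have h2 : ∏ i' ∈ univ.erase a.1, bm (u hd piv (some a) i') (P i') = 1 := by
    refine Finset.prod_eq_one fun i hi => ?_
    rw [u_some_ne hd piv a i (Finset.ne_of_mem_erase hi)]
    exact bm_pw (piv i) (P i) (hP i)
  rw [h1, h2]
  simp

/-- The exponents which are not distinguished. -/
noncomputable def V (hd : ∀ i, 1 ≤ d i) (piv : (i : Fin k) → Fin (n i + 1)) :
    Finset (Exps n d) := (univ.image (u hd piv))ᶜ

theorem sum_split {R : Type} [CommRing R] (hd : ∀ i, 1 ≤ d i)
    (piv : (i : Fin k) → Fin (n i + 1)) (f : Exps n d → R) :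
    ∑ s, f s = f (u hd piv none) + ∑ a, f (u hd piv (some a)) + ∑ s ∈ V hd piv, f s := by
  rw [← Finset.sum_add_sum_compl (univ.image (u hd piv)) f,
    Finset.sum_image (fun a _ b _ h => u_inj hd piv h), Fintype.sum_option]
  rfl

theorem dev_split {R : Type} [CommRing R] (hd : ∀ i, 1 ≤ d i)
    (piv : (i : Fin k) → Fin (n i + 1)) (P : Pt n R) (hP : ∀ i, P i (piv i) = 1)
    (c : Exps n d → R) (a : NP piv) :
    dev c P a.1 a.2.1 = c (u hd piv (some a)) + ∑ s ∈ V hd piv, c s * dmono s P a.1 a.2.1 := by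
  rw [dev_eq, sum_split hd piv, dmono_u_none, mul_zero, zero_add, Finset.sum_eq_single a]
  · rw [dmono_u_self hd piv P hP, mul_one]
  · intro b _ hb
    rw [dmono_u_ne hd piv P b a hb.symm, mul_zero]
  · intro h
    exact absurd (Finset.mem_univ a) h

theorem ev_split {R : Type} [CommRing R] (hd : ∀ i, 1 ≤ d i)
    (piv : (i : Fin k) → Fin (n i + 1)) (P : Pt n R) (hP : ∀ i, P i (piv i) = 1)
    (c : Exps n d → R) :
    ev c P = c (u hd piv none) + ∑ a, c (u hd piv (some a)) * mono (u hd piv (some a)) P +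
      ∑ s ∈ V hd piv, c s * mono s P := by
  unfold ev
  rw [sum_split hd piv, mono_u_none hd piv P hP, mul_one]

theorem card_NP (piv : (i : Fin k) → Fin (n i + 1)) :
    Fintype.card (NP piv) = ∑ i, n i := by
  rw [Fintype.card_sigma]
  refine Finset.sum_congr rfl fun i _ => ?_
  rw [Fintype.card_subtype_compl]
  simp

theorem card_image (hd : ∀ i, 1 ≤ d i) (piv : (i : Fin k) → Fin (n i + 1)) :
    (univ.image (u hd piv)).card = ∑ i, n i + 1 := by
  rw [Finset.card_image_of_injective _ (u_inj hd piv), Finset.card_univ, Fintype.card_option,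
    card_NP]

theorem card_le (hd : ∀ i, 1 ≤ d i) :
    ∑ i, n i + 1 ≤ Fintype.card (Exps n d) := by
  rw [← card_image hd (fun _ => 0)]
  exact Finset.card_le_univ _

theorem card_V (hd : ∀ i, 1 ≤ d i) (piv : (i : Fin k) → Fin (n i + 1)) :
    (V hd piv).card = Fintype.card (Exps n d) - (∑ i, n i + 1) := by
  unfold V
  rw [Finset.card_compl, card_image]

theorem not_mem_V (hd : ∀ i, 1 ≤ d i) (piv : (i : Fin k) → Fin (n i + 1)) (s : Exps n d)
    (hs : s ∉ V hd piv) : ∃ a, s = u hd piv a := by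
  unfold V at hs
  rw [Finset.mem_compl, not_not, Finset.mem_image] at hs
  obtain ⟨a, _, ha⟩ := hs
  exact ⟨a, ha.symm⟩

theorem u_not_mem_V (hd : ∀ i, 1 ≤ d i) (piv : (i : Fin k) → Fin (n i + 1))
    (a : Option (NP piv)) : u hd piv a ∉ V hd piv := by
  unfold V
  rw [Finset.mem_compl, not_not]
  exact Finset.mem_image_of_mem _ (Finset.mem_univ a)

/-- The normalised point with given non-pivot entries. -/
def pt {R : Type} [CommRing R] (piv : (i : Fin k) → Fin (n i + 1)) (y : NP piv → R) : Pt n R :=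
  fun i j => if h : j = piv i then 1 else y ⟨i, ⟨j, h⟩⟩

theorem pt_piv {R : Type} [CommRing R] (piv : (i : Fin k) → Fin (n i + 1)) (y : NP piv → R)
    (i : Fin k) : pt piv y i (piv i) = 1 := by
  simp [pt]

theorem pt_eq {R : Type} [CommRing R] (piv : (i : Fin k) → Fin (n i + 1)) (z : Pt n R)
    (hz : ∀ i, z i (piv i) = 1) : z = pt piv (fun a => z a.1 a.2.1) := by
  funext i j
  unfold pt
  split_ifs with h
  · rw [h, hz]
  · rfl

end Tri

end Pool.Agent.HP
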