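import Pool.Agent.Lib.MP_fc0680_nt.LocC
import Pool.Agent.Lib.MP_fc0680_nt.Tri

set_option autoImplicit false
open Finset Filter

namespace Pool.Agent.HP

namespace LocPos

open Classical in
theorem pi_mod_lower {ι : Type} [Fintype ι] [DecidableEq ι] (lo hi : ι → ℤ) (N : ℕ) (hN : 0 < N)
    (G : Finset (ι → ZMod N)) (L : ℝ) (hL : 0 ≤ L) (hlh : ∀ i, lo i ≤ hi i + 1)
    (h : ∀ i, L ≤ ((hi i : ℝ) - lo i + 1) / N - 1) :
    (G.card : ℝ) * L ^ Fintype.card ι ≤
      (((Fintype.piFinset fun i => Finset.Icc (lo i) (hi i)).filter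
        fun c : ι → ℤ => (fun i => (c i : ZMod N)) ∈ G).card : ℝ) := by
  have h1 : (Fintype.piFinset fun i => Finset.Icc (lo i) (hi i)).filter
        (fun c : ι → ℤ => (fun i => (c i : ZMod N)) ∈ G) =
      G.biUnion fun z => (Fintype.piFinset fun i => Finset.Icc (lo i) (hi i)).filter
        fun c : ι → ℤ => (fun i => (c i : ZMod N)) = z := by
    ext c
    simp only [Finset.mem_filter, Finset.mem_biUnion]
    constructor
    · rintro ⟨h1, h2⟩
      exact ⟨_, h2, h1, rfl⟩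
    · rintro ⟨z, hz, h1, h2⟩
      exact ⟨h1, h2 ▸ hz⟩
  have h2 : (G.biUnion fun z => (Fintype.piFinset fun i => Finset.Icc (lo i) (hi i)).filter
        fun c : ι → ℤ => (fun i => (c i : ZMod N)) = z).card =
      ∑ z ∈ G, ((Fintype.piFinset fun i => Finset.Icc (lo i) (hi i)).filter
        fun c : ι → ℤ => (fun i => (c i : ZMod N)) = z).card := by
    refine Finset.card_biUnion fun z _ z' _ hzz' => ?_
    change Disjoint (Finset.filter _ _) (Finset.filter _ _)
    rw [Finset.disjoint_left]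
    intro c hc hc'
    rw [Finset.mem_filter] at hc hc'
    exact hzz' (hc.2.symm.trans hc'.2)
  rw [h1, h2]
  push_cast
  calc (G.card : ℝ) * L ^ Fintype.card ι = ∑ z ∈ G, L ^ Fintype.card ι := by
        rw [Finset.sum_const, nsmul_eq_mul]
    _ ≤ _ := by
        refine Finset.sum_le_sum fun z _ => ?_
        rw [pi_mod_card lo hi N z]
        push_cast
        rw [← Finset.card_univ, ← Finset.prod_const]
        exact Finset.prod_le_prod (fun i _ => hL) fun i _ =>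
          (h i).trans (icc_mod (lo i) (hi i) N hN (hlh i) (z i)).2

variable {k : ℕ} {n d : Fin k → ℕ}

theorem bm_qw {N D : ℕ} {R : Type} [CommRing R] (hD : 1 ≤ D) (p j : Fin N) (hj : j ≠ p)
    (x : Fin N → R) (hx : x p = 1) : bm (Tri.qw D hD p j hj) x = x j := by
  unfold bm
  rw [Finset.prod_eq_single j]
  · rw [Tri.qw_val, if_neg hj, if_pos rfl, pow_one]
  · intro l _ hl
    rw [Tri.qw_val]
    by_cases h : l = p
    · rw [h, hx, one_pow]
    · rw [if_neg h, if_neg hl, pow_zero]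
  · intro h
    exact absurd (Finset.mem_univ _) h

theorem mono_u_some {R : Type} [CommRing R] (hd : ∀ i, 1 ≤ d i)
    (piv : (i : Fin k) → Fin (n i + 1)) (P : Pt n R) (hP : ∀ i, P i (piv i) = 1)
    (a : Tri.NP piv) : mono (Tri.u hd piv (some a)) P = P a.1 a.2.1 := by
  unfold mono
  rw [Finset.prod_eq_single a.1]
  · rw [Tri.u_some_self]
    exact bm_qw (hd a.1) (piv a.1) a.2.1 a.2.2 (P a.1) (hP a.1)
  · intro i _ hi
    rw [Tri.u_some_ne hd piv a i hi]
    exact Tri.bm_pw (piv i) (P i) (hP i)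
  · intro h
    exact absurd (Finset.mem_univ _) h

/-- the base point -/
def P0 (R : Type) [CommRing R] (n : Fin k → ℕ) : Pt n R := fun _ j => if j = 0 then 1 else 0

/-- the line through the base point -/
def Py {R : Type} [CommRing R] (n : Fin k → ℕ) (i : Fin k) (j : Fin (n i + 1)) (y : R) :
    Pt n R := Function.update (P0 R n) i (Function.update (P0 R n i) j y)

theorem Py_piv {R : Type} [CommRing R] (n : Fin k → ℕ) (i : Fin k) (j : Fin (n i + 1))
    (hj : j ≠ 0) (y : R) (i' : Fin k) : Py n i j y i' 0 = 1 := by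
  unfold Py
  by_cases h : i' = i
  · subst h
    rw [Function.update_self, Function.update_of_ne (Ne.symm hj)]
    simp [P0]
  · rw [Function.update_of_ne h]
    simp [P0]

theorem Py_self {R : Type} [CommRing R] (n : Fin k → ℕ) (i : Fin k) (j : Fin (n i + 1))
    (y : R) : Py n i j y i j = y := by
  unfold Py
  rw [Function.update_self, Function.update_self]

theorem Py_abs (n : Fin k → ℕ) (i : Fin k) (j : Fin (n i + 1)) (y : ℝ) (hy : |y| ≤ 1)
    (i' : Fin k) (j' : Fin (n i' + 1)) : |Py n i j y i' j'| ≤ 1 := by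
  have h0 : ∀ (i' : Fin k) (j' : Fin (n i' + 1)), |P0 ℝ n i' j'| ≤ 1 := by
    intro i' j'
    unfold P0
    split_ifs <;> simp
  unfold Py
  by_cases h : i' = i
  · subst h
    rw [Function.update_self]
    by_cases h2 : j' = j
    · rw [h2, Function.update_self]; exact hy
    · rw [Function.update_of_ne h2]; exact h0 _ _
  · rw [Function.update_of_ne h]; exact h0 _ _

theorem abs_bm_le {N D : ℕ} (s : Mon N D) (x : Fin N → ℝ) (hx : ∀ j, |x j| ≤ 1) :
    |bm s x| ≤ 1 := by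
  unfold bm
  rw [Finset.abs_prod]
  refine Finset.prod_le_one (fun _ _ => abs_nonneg _) fun j _ => ?_
  rw [abs_pow]
  exact pow_le_one₀ (abs_nonneg _) (hx j)

theorem abs_mono_le (s : Exps n d) (P : Pt n ℝ) (hP : ∀ i j, |P i j| ≤ 1) : |mono s P| ≤ 1 := by
  unfold mono
  rw [Finset.abs_prod]
  exact Finset.prod_le_one (fun _ _ => abs_nonneg _) fun i _ => abs_bm_le (s i) (P i) (hP i)

theorem abs_dmono_le (s : Exps n d) (P : Pt n ℝ) (hP : ∀ i j, |P i j| ≤ 1) (i : Fin k)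
    (j : Fin (n i + 1)) : |Tri.dmono s P i j| ≤ d i := by
  unfold Tri.dmono
  rw [abs_mul, abs_mul]
  have h1 : |∏ l ∈ univ.erase j, P i l ^ ((s i).1 l : ℕ)| ≤ 1 := by
    rw [Finset.abs_prod]
    refine Finset.prod_le_one (fun _ _ => abs_nonneg _) fun l _ => ?_
    rw [abs_pow]
    exact pow_le_one₀ (abs_nonneg _) (hP i l)
  have h2 : |∏ i' ∈ univ.erase i, bm (s i') (P i')| ≤ 1 := by
    rw [Finset.abs_prod]
    exact Finset.prod_le_one (fun _ _ => abs_nonneg _) fun i _ => abs_bm_le (s i) (P i) (hP i)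
  have h3 : |(((s i).1 j : ℕ) : ℝ) * P i j ^ (((s i).1 j : ℕ) - 1)| ≤ d i := by
    rw [abs_mul, abs_pow]
    have h4 : |(((s i).1 j : ℕ) : ℝ)| ≤ d i := by
      rw [abs_of_nonneg (by positivity)]
      have := ((s i).1 j).2
      exact_mod_cast (by omega : ((s i).1 j : ℕ) ≤ d i)
    have h5 : |P i j| ^ (((s i).1 j : ℕ) - 1) ≤ 1 := pow_le_one₀ (abs_nonneg _) (hP i j)
    calc |(((s i).1 j : ℕ) : ℝ)| * |P i j| ^ (((s i).1 j : ℕ) - 1)
        ≤ (d i) * 1 := mul_le_mul h4 h5 (by positivity) (by positivity)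
      _ = d i := mul_one _
  calc |∏ l ∈ univ.erase j, P i l ^ ((s i).1 l : ℕ)| *
        |∏ i' ∈ univ.erase i, bm (s i') (P i')| *
        |(((s i).1 j : ℕ) : ℝ) * P i j ^ (((s i).1 j : ℕ) - 1)|
      ≤ 1 * 1 * (d i) := by
        refine mul_le_mul (mul_le_mul h1 h2 (abs_nonneg _) (by norm_num)) h3 (abs_nonneg _)
          (by norm_num)
    _ = d i := by ring

/-- forms dominated by the coefficient of `u1` are robustly soluble. -/
theorem robust (hd : ∀ i, 1 ≤ d i) (i₀ : Fin k) (j : Fin (n i₀ + 1)) (hj : j ≠ 0) (H : ℕ)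
    (hH : 1 ≤ H) (c : Exps n d → ℤ)
    (h1 : (H : ℝ) / 2 ≤ c (Tri.u hd (fun _ => 0) (some ⟨i₀, ⟨j, hj⟩⟩)))
    (h2 : ∀ s, s ≠ Tri.u hd (fun _ => 0) (some ⟨i₀, ⟨j, hj⟩⟩) →
      |(c s : ℝ)| ≤ H / (8 * Fintype.card (Exps n d) * d i₀)) :
    RobustReal (1 / 4) H c := by
  set u1 := Tri.u hd (fun _ => 0) (some ⟨i₀, ⟨j, hj⟩⟩) with hu1
  have hH' : (0 : ℝ) < H := by exact_mod_cast hH
  have hM : (0 : ℝ) < Fintype.card (Exps n d) := by exact_mod_cast exps_nonempty n d
  have hd0 : (1 : ℝ) ≤ d i₀ := by exact_mod_cast hd i₀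
  -- remainder bound
  have hrem : ∀ f : Exps n d → ℝ, (∀ s, |f s| ≤ d i₀) →
      |∑ s ∈ univ.erase u1, (c s : ℝ) * f s| ≤ H / 8 := by
    intro f hf
    refine (Finset.abs_sum_le_sum_abs _ _).trans ?_
    have h3 : ∀ s ∈ univ.erase u1, |(c s : ℝ) * f s| ≤ H / (8 * Fintype.card (Exps n d)) := by
      intro s hs
      rw [abs_mul]
      calc |(c s : ℝ)| * |f s| ≤ H / (8 * Fintype.card (Exps n d) * d i₀) * d i₀ :=
            mul_le_mul (h2 s (Finset.ne_of_mem_erase hs)) (hf s) (abs_nonneg _) (by positivity)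
        _ = H / (8 * Fintype.card (Exps n d)) := by field_simp
    refine (Finset.sum_le_sum h3).trans ?_
    rw [Finset.sum_const, nsmul_eq_mul]
    have h4 : ((univ.erase u1).card : ℝ) ≤ Fintype.card (Exps n d) := by
      exact_mod_cast Finset.card_le_univ _
    calc ((univ.erase u1).card : ℝ) * (H / (8 * Fintype.card (Exps n d)))
        ≤ (Fintype.card (Exps n d)) * (H / (8 * Fintype.card (Exps n d))) :=
          mul_le_mul_of_nonneg_right h4 (by positivity)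
      _ = H / 8 := by field_simp
  have hev : ∀ y : ℝ, |y| ≤ 1 → |ev (fun s => (c s : ℝ)) (Py n i₀ j y) - c u1 * y| ≤ H / 8 := by
    intro y hy
    have h3 : ev (fun s => (c s : ℝ)) (Py n i₀ j y) - c u1 * y =
        ∑ s ∈ univ.erase u1, (c s : ℝ) * mono s (Py n i₀ j y) := by
      unfold ev
      rw [← Finset.add_sum_erase _ _ (Finset.mem_univ u1)]
      have h4 := mono_u_some hd (fun _ => 0) (Py n i₀ j y) (Py_piv n i₀ j hj y) ⟨i₀, ⟨j, hj⟩⟩
      rw [← hu1] at h4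
      rw [h4]
      simp only [Py_self]
      ring
    rw [h3]
    refine hrem _ fun s => ?_
    exact (abs_mono_le s _ (Py_abs n i₀ j y hy)).trans hd0
  -- the polynomial in y
  have hpoly : ∀ y : ℝ, ev (fun s => (c s : ℝ)) (Py n i₀ j y) =
      (line (fun s => (c s : ℝ)) (P0 ℝ n) i₀ j).eval y := by
    intro y
    rw [eval_line]
    rfl
  have hcont : ContinuousOn (fun y : ℝ => ev (fun s => (c s : ℝ)) (Py n i₀ j y))
      (Set.Icc (-(1 / 2)) (1 / 2)) := by
    have : (fun y : ℝ => ev (fun s => (c s : ℝ)) (Py n i₀ j y)) =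
        fun y => (line (fun s => (c s : ℝ)) (P0 ℝ n) i₀ j).eval y := funext hpoly
    rw [this]
    exact (Polynomial.continuous _).continuousOn
  have hivt := intermediate_value_Icc (by norm_num : (-(1 / 2) : ℝ) ≤ 1 / 2) hcont
  have hmem : (0 : ℝ) ∈ Set.Icc (ev (fun s => (c s : ℝ)) (Py n i₀ j (-(1 / 2))))
      (ev (fun s => (c s : ℝ)) (Py n i₀ j (1 / 2))) := by
    have h3 := hev (-(1 / 2)) (by rw [abs_neg, abs_of_nonneg] <;> norm_num)
    have h4 := hev (1 / 2) (by rw [abs_of_nonneg] <;> norm_num)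
    rw [abs_le] at h3 h4
    constructor
    · linarith [h3.2]
    · linarith [h4.1]
  obtain ⟨y, hy, hy0⟩ := hivt hmem
  have hyabs : |y| ≤ 1 := by
    rw [abs_le]
    constructor <;> linarith [hy.1, hy.2]
  refine ⟨Py n i₀ j y, fun _ => 0, i₀, j, Py_abs n i₀ j y hyabs, Py_piv n i₀ j hj y, hy0, hj, ?_⟩
  have hdev : |dev (fun s => (c s : ℝ)) (Py n i₀ j y) i₀ j - c u1| ≤ H / 8 := by
    have h3 : dev (fun s => (c s : ℝ)) (Py n i₀ j y) i₀ j - c u1 =
        ∑ s ∈ univ.erase u1, (c s : ℝ) * Tri.dmono s (Py n i₀ j y) i₀ j := by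
      rw [Tri.dev_eq, ← Finset.add_sum_erase _ _ (Finset.mem_univ u1)]
      have h4 := Tri.dmono_u_self hd (fun _ => 0) (Py n i₀ j y) (Py_piv n i₀ j hj y)
        ⟨i₀, ⟨j, hj⟩⟩
      rw [← hu1] at h4
      simp only at h4
      rw [h4]
      ring
    rw [h3]
    exact hrem _ fun s => abs_dmono_le s _ (Py_abs n i₀ j y hyabs) i₀ j
  rw [abs_le] at hdev
  refine le_trans ?_ (le_abs_self _)
  linarith [hdev.1]

/-- forms congruent to the monomial `u1` modulo `p` have many zeros modulo `p ^ r`. -/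
theorem padic (hd : ∀ i, 1 ≤ d i) (i₀ : Fin k) (j : Fin (n i₀ + 1)) (hj : j ≠ 0) (p : ℕ)
    (hp : p.Prime) (r : ℕ) (hr : 1 ≤ r) (hne : NeZero (p ^ r)) (c : Exps n d → ℤ)
    (h1 : (p : ℤ) ∣ c (Tri.u hd (fun _ => 0) (some ⟨i₀, ⟨j, hj⟩⟩)) - 1)
    (h2 : ∀ s, s ≠ Tri.u hd (fun _ => 0) (some ⟨i₀, ⟨j, hj⟩⟩) → (p : ℤ) ∣ c s) :
    (p ^ (r - (2 * 0 + 1))) ^ (∑ i, (n i + 1) - 1) ≤
      (Zs (p ^ r) (fun s => (c s : ZMod (p ^ r)))).card := by
  have hfp : Fact p.Prime := ⟨hp⟩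
  set u1 := Tri.u hd (fun _ => 0) (some ⟨i₀, ⟨j, hj⟩⟩) with hu1
  have hcast : ∀ a : ℤ, (p : ℤ) ∣ a → ((p : ℤ_[p]) ∣ (a : ℤ_[p])) := by
    rintro a ⟨b, rfl⟩
    exact ⟨(b : ℤ_[p]), by push_cast; ring⟩
  refine hens n d p 0 r (by omega) c (Py n i₀ j (0 : ℤ_[p])) (fun i => ⟨0, ?_⟩) ?_
    ⟨i₀, j, ?_⟩
  · rw [Py_piv n i₀ j hj]
    exact isUnit_one
  · simp only [Nat.mul_zero, Nat.zero_add, pow_one]
    unfold evZ ev
    refine Finset.dvd_sum fun s _ => ?_
    by_cases hs : s = u1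
    · have h4 := mono_u_some hd (fun _ => 0) (Py n i₀ j (0 : ℤ_[p])) (Py_piv n i₀ j hj _)
        ⟨i₀, ⟨j, hj⟩⟩
      rw [← hu1] at h4
      rw [hs, h4]
      simp only [Py_self, mul_zero, dvd_zero]
    · exact dvd_mul_of_dvd_left (hcast _ (h2 s hs)) _
  · simp only [Nat.zero_add, pow_one]
    intro hdvd
    have h3 : (p : ℤ_[p]) ∣ dev (fun s => (c s : ℤ_[p])) (Py n i₀ j (0 : ℤ_[p])) i₀ j - 1 := by
      rw [Tri.dev_eq, ← Finset.add_sum_erase _ _ (Finset.mem_univ u1)]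
      have h4 := Tri.dmono_u_self hd (fun _ => 0) (Py n i₀ j (0 : ℤ_[p])) (Py_piv n i₀ j hj _)
        ⟨i₀, ⟨j, hj⟩⟩
      rw [← hu1] at h4
      simp only at h4
      rw [h4, mul_one, add_sub_right_comm]
      refine dvd_add ?_ (Finset.dvd_sum fun s hs => dvd_mul_of_dvd_left
        (hcast _ (h2 s (Finset.ne_of_mem_erase hs))) _)
      have := hcast _ h1
      push_cast at this
      exact this
    have h5 : (p : ℤ_[p]) ∣ 1 := by
      have := dvd_sub hdvd h3
      simpa using this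
    exact (PadicInt.prime_p (p := p)).not_unit (isUnit_of_dvd_one h5)

end LocPos

end Pool.Agent.HP
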