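import Pool.Agent.Lib.MP_fc0680_nt.SumX

/-!
# MP_fc0680_nt : SUMA

The double sum over separated points for one block.
-/

set_option autoImplicit false
open Finset Filter

namespace Pool.Agent.HP

namespace SumA

/-- Sum of `1 / g²` over `w < g ≤ G`. -/
theorem sum_inv_sq (w G : ℕ) (hw : 1 ≤ w) :
    ∑ g ∈ Finset.Ioc w G, ((g : ℝ) ^ 2)⁻¹ ≤ 1 / (w : ℝ) := by
  by_cases h : w ≤ G
  · have h1 := sum_Ioc_inv_sq_le_sub (α := ℝ) (k := w) (n := G) (by omega) h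
    have h2 : (0 : ℝ) ≤ ((G : ℝ))⁻¹ := by positivity
    rw [one_div]
    linarith
  · rw [Finset.Ioc_eq_empty (by omega)]
    simp only [Finset.sum_empty]
    positivity

theorem sum_inv_sq0 (G : ℕ) : ∑ g ∈ Finset.Ioc 0 G, ((g : ℝ) ^ 2)⁻¹ ≤ 2 := by
  by_cases h : 1 ≤ G
  · have h1 : Finset.Ioc 0 G = insert 1 (Finset.Ioc 1 G) := by
      ext g
      simp only [Finset.mem_Ioc, Finset.mem_insert]
      omega
    rw [h1, Finset.sum_insert (by simp)]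
    have h2 := sum_inv_sq 1 G le_rfl
    norm_num at h2 ⊢
    linarith
  · have h1 : G = 0 := by omega
    subst h1
    simp

theorem mem_box_of_nrm {n B : ℕ} {y : Fin (n + 1) → ℤ} (h : nrm y ≤ B) :
    y ∈ box (Fin (n + 1)) B := by
  unfold box
  rw [Fintype.mem_piFinset]
  intro j
  have h1 := (SX.nrm_le_iff y B).1 h j
  rw [Finset.mem_Icc]
  omega

theorem wd_le_sq {n B : ℕ} {x y : Fin (n + 1) → ℤ} (hx : nrm x ≤ B) (hy : nrm y ≤ B) :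
    wd x y ≤ 2 * B ^ 2 := by
  rw [SX.wd_le_iff]
  intro a b
  have h1 : ∀ i j, (x i * y j).natAbs ≤ B ^ 2 := by
    intro i j
    rw [Int.natAbs_mul, pow_two]
    exact Nat.mul_le_mul ((SX.nrm_le_iff x B).1 hx i) ((SX.nrm_le_iff y B).1 hy j)
  have h2 := h1 a b
  have h3 := h1 b a
  omega

theorem gd_mul_le {n Δ : ℕ} {x y : Fin (n + 1) → ℤ} (hx : Umod x) (hs : Sep Δ x)
    (h : wd x y ≠ 0) : gd x y * Δ ≤ wd x y := by
  obtain ⟨t, z, hz⟩ := SX.exists_decomp' x y hx (gd x y) dvd_rfl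
  have h1 := SX.wd_decomp x y z t (gd x y) hz
  rw [h1]
  refine Nat.mul_le_mul_left _ (hs z ?_)
  intro h2
  rw [h2, mul_zero] at h1
  exact h h1

/-- The inner sum. -/
theorem inner (n : ℕ) (hn : 3 ≤ n) (C : ℝ) (hC : 0 < C)
    (hsum : ∀ (B Δ g : ℕ) (Θ : ℝ)
      (x : Fin (n + 1) → ℤ), 1 ≤ Δ → 1 ≤ g → 0 ≤ Θ → B < 2 * nrm x → nrm x ≤ B → Umod x →
      Sep Δ x →
      ∑ y ∈ (box (Fin (n + 1)) B).filter (fun y => wd x y ≠ 0 ∧ g ∣ gd x y ∧ (wd x y : ℝ) ≤ Θ),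
        (1 / (wd x y : ℝ)) ≤ C / g * ((B : ℝ) / Δ + (Θ / (g * B)) ^ (n - 1)))
    (B Δ w : ℕ) (Θ s : ℝ) (x : Fin (n + 1) → ℤ) (hΔ : 1 ≤ Δ) (hΘ : 0 ≤ Θ) (hx1 : B < 2 * nrm x)
    (hx2 : nrm x ≤ B) (hx3 : Umod x) (hx4 : Sep Δ x)
    (hs : ∀ G : ℕ, ∑ g ∈ Finset.Ioc w G, ((g : ℝ) ^ 2)⁻¹ ≤ s)
    (S : Finset (Fin (n + 1) → ℤ))
    (hS : ∀ y ∈ S, nrm y ≤ B ∧ wd x y ≠ 0 ∧ w < gd x y ∧ (wd x y : ℝ) ≤ Θ) :
    ∑ y ∈ S, ((gd x y : ℝ) / (wd x y : ℝ)) ≤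
      C * (2 * (B : ℝ) ^ 3 / (Δ : ℝ) ^ 2 + (Θ / B) ^ (n - 1) * s) := by
  classical
  have hB : 1 ≤ B := by omega
  have hBR : (1 : ℝ) ≤ B := by exact_mod_cast hB
  have hΔR : (1 : ℝ) ≤ Δ := by exact_mod_cast hΔ
  set G : ℕ := 2 * B ^ 2 / Δ with hG
  have hGle : (G : ℝ) ≤ 2 * (B : ℝ) ^ 2 / Δ := by
    have h1 : ((2 * B ^ 2 / Δ : ℕ) : ℝ) ≤ ((2 * B ^ 2 : ℕ) : ℝ) / ((Δ : ℕ) : ℝ) := Nat.cast_div_le
    rw [hG]
    push_cast at h1 ⊢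
    exact h1
  have hmaps : ∀ y ∈ S, gd x y ∈ Finset.Ioc w G := by
    intro y hy
    obtain ⟨h1, h2, h3, h4⟩ := hS y hy
    rw [Finset.mem_Ioc]
    refine ⟨h3, ?_⟩
    rw [hG, Nat.le_div_iff_mul_le (by omega)]
    exact (gd_mul_le hx3 hx4 h2).trans (wd_le_sq hx2 h1)
  rw [← Finset.sum_fiberwise_of_maps_to hmaps]
  have hterm : ∀ g ∈ Finset.Ioc w G, ∑ y ∈ S.filter (fun y => gd x y = g),
      ((gd x y : ℝ) / (wd x y : ℝ)) ≤
      C * ((B : ℝ) / Δ + (Θ / B) ^ (n - 1) * ((g : ℝ) ^ 2)⁻¹) := by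
    intro g hg
    have hg1 : 1 ≤ g := by
      have := (Finset.mem_Ioc.1 hg).1
      omega
    have hgR : (1 : ℝ) ≤ g := by exact_mod_cast hg1
    have h1 : ∑ y ∈ S.filter (fun y => gd x y = g), ((gd x y : ℝ) / (wd x y : ℝ)) ≤
        g * ∑ y ∈ (box (Fin (n + 1)) B).filter
          (fun y => wd x y ≠ 0 ∧ g ∣ gd x y ∧ (wd x y : ℝ) ≤ Θ), (1 / (wd x y : ℝ)) := by
      rw [Finset.mul_sum]
      calc ∑ y ∈ S.filter (fun y => gd x y = g), ((gd x y : ℝ) / (wd x y : ℝ))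
          = ∑ y ∈ S.filter (fun y => gd x y = g), ((g : ℝ) * (1 / (wd x y : ℝ))) := by
            refine Finset.sum_congr rfl fun y hy => ?_
            rw [(Finset.mem_filter.1 hy).2]
            ring
        _ ≤ _ := by
            refine Finset.sum_le_sum_of_subset_of_nonneg ?_ (fun y _ _ => by positivity)
            intro y hy
            rw [Finset.mem_filter] at hy
            obtain ⟨h1, h2, h3, h4⟩ := hS y hy.1
            rw [Finset.mem_filter]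
            exact ⟨mem_box_of_nrm h1, h2, by rw [hy.2], h4⟩
    refine h1.trans ?_
    have h2 := hsum B Δ g Θ x hΔ hg1 hΘ hx1 hx2 hx3 hx4
    refine (mul_le_mul_of_nonneg_left h2 (by positivity)).trans ?_
    have h3 : (g : ℝ) * (C / g * ((B : ℝ) / Δ + (Θ / (g * B)) ^ (n - 1))) =
        C * ((B : ℝ) / Δ + (Θ / (g * B)) ^ (n - 1)) := by
      field_simp
    rw [h3]
    refine mul_le_mul_of_nonneg_left ?_ hC.le
    refine add_le_add le_rfl ?_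
    have h4 : Θ / ((g : ℝ) * B) = (Θ / B) * (g : ℝ)⁻¹ := by
      field_simp
    rw [h4, mul_pow]
    refine mul_le_mul_of_nonneg_left ?_ (by positivity)
    rw [inv_pow]
    refine inv_anti₀ (by positivity) ?_
    exact pow_le_pow_right₀ hgR (by omega)
  refine (Finset.sum_le_sum hterm).trans ?_
  rw [← Finset.mul_sum]
  refine mul_le_mul_of_nonneg_left ?_ hC.le
  rw [Finset.sum_add_distrib, ← Finset.mul_sum]
  refine add_le_add ?_ (mul_le_mul_of_nonneg_left (hs G) (by positivity))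
  rw [Finset.sum_const, nsmul_eq_mul, Nat.card_Ioc]
  have h5 : ((G - w : ℕ) : ℝ) ≤ 2 * (B : ℝ) ^ 2 / Δ :=
    le_trans (by exact_mod_cast Nat.sub_le G w) hGle
  calc ((G - w : ℕ) : ℝ) * ((B : ℝ) / Δ) ≤ (2 * (B : ℝ) ^ 2 / Δ) * ((B : ℝ) / Δ) :=
        mul_le_mul_of_nonneg_right h5 (by positivity)
    _ = 2 * (B : ℝ) ^ 3 / (Δ : ℝ) ^ 2 := by
        field_simp

/-- The outer sum. -/
theorem outer (n : ℕ) (hn : 3 ≤ n) (C : ℝ) (hC : 0 < C)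
    (hsum : ∀ (B Δ g : ℕ) (Θ : ℝ)
      (x : Fin (n + 1) → ℤ), 1 ≤ Δ → 1 ≤ g → 0 ≤ Θ → B < 2 * nrm x → nrm x ≤ B → Umod x →
      Sep Δ x →
      ∑ y ∈ (box (Fin (n + 1)) B).filter (fun y => wd x y ≠ 0 ∧ g ∣ gd x y ∧ (wd x y : ℝ) ≤ Θ),
        (1 / (wd x y : ℝ)) ≤ C / g * ((B : ℝ) / Δ + (Θ / (g * B)) ^ (n - 1)))
    (B Δ w : ℕ) (ϑ s : ℝ) (hΔ : 1 ≤ Δ) (hϑ : 0 ≤ ϑ) (hs0 : 0 ≤ s)
    (hs : ∀ G : ℕ, ∑ g ∈ Finset.Ioc w G, ((g : ℝ) ^ 2)⁻¹ ≤ s)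
    (F : Finset (Fin (n + 1) → ℤ))
    (hF : ∀ x ∈ F, B < 2 * nrm x ∧ nrm x ≤ B ∧ Umod x ∧ Sep Δ x)
    (Q : (Fin (n + 1) → ℤ) → (Fin (n + 1) → ℤ) → Prop) [∀ x y, Decidable (Q x y)]
    (hQ : ∀ x ∈ F, ∀ y ∈ F, Q x y → wd x y ≠ 0 ∧ w < gd x y ∧ (wd x y : ℝ) ≤ ϑ * (B : ℝ) ^ 2) :
    ∑ x ∈ F, ∑ y ∈ F.filter (fun y => Q x y), ((gd x y : ℝ) / (wd x y : ℝ)) ≤
      3 ^ (n + 1) * C * (2 * ((B : ℝ) ^ (n + 4) / (Δ : ℝ) ^ 2) +
        ϑ ^ (n - 1) * s * (B : ℝ) ^ (2 * n)) := by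
  classical
  by_cases hFe : F = ∅
  · subst hFe
    simp only [Finset.sum_empty]
    positivity
  obtain ⟨x₀, hx₀⟩ := Finset.nonempty_iff_ne_empty.2 hFe
  have hB : 1 ≤ B := by
    have := (hF x₀ hx₀).1
    have := (hF x₀ hx₀).2.1
    omega
  have hBR : (1 : ℝ) ≤ B := by exact_mod_cast hB
  have hcard : (F.card : ℝ) ≤ 3 ^ (n + 1) * (B : ℝ) ^ (n + 1) := by
    have h1 : F.card ≤ (box (Fin (n + 1)) B).card :=
      Finset.card_le_card fun x hx => mem_box_of_nrm (hF x hx).2.1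
    have h2 : (box (Fin (n + 1)) B).card = (2 * B + 1) ^ (n + 1) := by
      unfold box
      rw [Fintype.card_piFinset]
      simp only [Int.card_Icc, Finset.prod_const, Finset.card_univ, Fintype.card_fin]
      congr 1
      omega
    rw [h2] at h1
    have h3 : (2 * B + 1) ^ (n + 1) ≤ (3 * B) ^ (n + 1) := Nat.pow_le_pow_left (by omega) _
    have h4 : (F.card : ℝ) ≤ (((3 * B) ^ (n + 1) : ℕ) : ℝ) := by exact_mod_cast h1.trans h3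
    push_cast at h4
    rw [mul_pow] at h4
    exact h4
  have hin : ∀ x ∈ F, ∑ y ∈ F.filter (fun y => Q x y), ((gd x y : ℝ) / (wd x y : ℝ)) ≤
      C * (2 * (B : ℝ) ^ 3 / (Δ : ℝ) ^ 2 + (ϑ * (B : ℝ) ^ 2 / B) ^ (n - 1) * s) := by
    intro x hx
    obtain ⟨h1, h2, h3, h4⟩ := hF x hx
    refine inner n hn C hC hsum B Δ w (ϑ * (B : ℝ) ^ 2) s x hΔ (by positivity) h1 h2 h3 h4 hs _ ?_
    intro y hy
    rw [Finset.mem_filter] at hy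
    exact ⟨(hF y hy.1).2.1, hQ x hx y hy.1 hy.2⟩
  refine (Finset.sum_le_sum hin).trans ?_
  rw [Finset.sum_const, nsmul_eq_mul]
  refine (mul_le_mul_of_nonneg_right hcard (by positivity)).trans (le_of_eq ?_)
  have h5 : ϑ * (B : ℝ) ^ 2 / B = ϑ * B := by
    field_simp
  rw [h5, mul_pow]
  have h6 : (B : ℝ) ^ (n + 4) = (B : ℝ) ^ (n + 1) * (B : ℝ) ^ 3 := by
    rw [← pow_add]
  have h7 : (B : ℝ) ^ (2 * n) = (B : ℝ) ^ (n + 1) * (B : ℝ) ^ (n - 1) := by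
    rw [← pow_add]
    congr 1
    omega
  rw [h6, h7]
  ring

end SumA

open SumA

theorem suma (n : ℕ) (hn : 3 ≤ n) : ∃ C : ℝ, 0 < C ∧ ∀ (B Δ w : ℕ) (θ : ℝ)
    (F : Finset (Fin (n + 1) → ℤ)), 1 ≤ Δ → 1 ≤ w → 0 ≤ θ → θ ≤ 1 →
    (∀ x ∈ F, B < 2 * nrm x ∧ nrm x ≤ B ∧ Umod x ∧ Sep Δ x) →
    (∑ x ∈ F, ∑ y ∈ F.filter (fun y => wd x y ≠ 0), ((gd x y : ℝ) / (wd x y : ℝ)) ≤
      C * ((B : ℝ) ^ (2 * n) + (B : ℝ) ^ (n + 4) / (Δ : ℝ) ^ 2)) ∧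
    (∑ x ∈ F, ∑ y ∈ F.filter (fun y => wd x y ≠ 0 ∧ (w < gd x y ∨ (wd x y : ℝ) < θ * (B : ℝ) ^ 2)),
      ((gd x y : ℝ) / (wd x y : ℝ)) ≤
      C * ((B : ℝ) ^ (2 * n) * (1 / w + θ) + (B : ℝ) ^ (n + 4) / (Δ : ℝ) ^ 2)) := by
  classical
  obtain ⟨C, hC, hsum⟩ := sumx n (by omega)
  have h2n : (1 : ℝ) ≤ 2 ^ (n - 1) := one_le_pow₀ (by norm_num)
  refine ⟨3 ^ (n + 1) * C * (2 ^ (n - 1) * 4), by positivity, ?_⟩
  intro B Δ w θ F hΔ hw hθ hθ1 hF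
  set X : ℝ := (B : ℝ) ^ (n + 4) / (Δ : ℝ) ^ 2 with hX
  set Y : ℝ := (B : ℝ) ^ (2 * n) with hY
  have hX0 : 0 ≤ X := by positivity
  have hY0 : 0 ≤ Y := by positivity
  set K : ℝ := 3 ^ (n + 1) * C with hK
  have hK0 : 0 ≤ K := by positivity
  have hgdpos : ∀ x ∈ F, ∀ y ∈ F, wd x y ≠ 0 → 0 < gd x y := by
    intro x hx y hy hne
    by_contra hcon
    have h0 : gd x y = 0 := by omega
    apply hne
    apply Nat.eq_zero_of_le_zero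
    rw [SX.wd_le_iff]
    intro a b
    have h1 := SX.gd_dvd' x y a b
    rw [h0] at h1
    simp only [Nat.cast_zero, zero_dvd_iff] at h1
    rw [h1]
    simp
  have hwd2 : ∀ x ∈ F, ∀ y ∈ F, (wd x y : ℝ) ≤ 2 * (B : ℝ) ^ 2 := by
    intro x hx y hy
    exact_mod_cast wd_le_sq (hF x hx).2.1 (hF y hy).2.1
  constructor
  · have h1 := outer n hn C hC hsum B Δ 0 2 2 hΔ (by norm_num) (by norm_num) sum_inv_sq0 F hF
      (fun x y => wd x y ≠ 0) (fun x hx y hy h => ⟨h, hgdpos x hx y hy h, hwd2 x hx y hy⟩)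
    refine h1.trans ?_
    rw [← hX, ← hY, ← hK]
    have h3 : K * (2 * X + 2 ^ (n - 1) * 2 * Y) ≤ K * ((2 ^ (n - 1) * 4) * (Y + X)) := by
      refine mul_le_mul_of_nonneg_left ?_ hK0
      nlinarith [mul_le_mul_of_nonneg_right h2n hX0,
        mul_nonneg (by positivity : (0 : ℝ) ≤ 2 ^ (n - 1)) hY0]
    calc _ ≤ _ := h3
      _ = _ := by ring
  · have h1 := outer n hn C hC hsum B Δ w 2 (1 / w) hΔ (by norm_num) (by positivity)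
      (fun G => sum_inv_sq w G hw) F hF
      (fun x y => wd x y ≠ 0 ∧ w < gd x y) (fun x hx y hy h => ⟨h.1, h.2, hwd2 x hx y hy⟩)
    have h2 := outer n hn C hC hsum B Δ 0 θ 2 hΔ hθ (by norm_num) sum_inv_sq0 F hF
      (fun x y => wd x y ≠ 0 ∧ (wd x y : ℝ) < θ * (B : ℝ) ^ 2)
      (fun x hx y hy h => ⟨h.1, hgdpos x hx y hy h.1, h.2.le⟩)
    rw [← hX, ← hY, ← hK] at h1 h2
    have h3 : ∑ x ∈ F, ∑ y ∈ F.filter (fun y => wd x y ≠ 0 ∧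
        (w < gd x y ∨ (wd x y : ℝ) < θ * (B : ℝ) ^ 2)), ((gd x y : ℝ) / (wd x y : ℝ)) ≤
        ∑ x ∈ F, ∑ y ∈ F.filter (fun y => wd x y ≠ 0 ∧ w < gd x y),
          ((gd x y : ℝ) / (wd x y : ℝ)) +
        ∑ x ∈ F, ∑ y ∈ F.filter (fun y => wd x y ≠ 0 ∧ (wd x y : ℝ) < θ * (B : ℝ) ^ 2),
          ((gd x y : ℝ) / (wd x y : ℝ)) := by
      rw [← Finset.sum_add_distrib]
      refine Finset.sum_le_sum fun x _ => ?_
      rw [Finset.sum_filter, Finset.sum_filter, Finset.sum_filter, ← Finset.sum_add_distrib]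
      refine Finset.sum_le_sum fun y _ => ?_
      have h0 : (0 : ℝ) ≤ (gd x y : ℝ) / (wd x y : ℝ) := by positivity
      by_cases ha : wd x y ≠ 0 ∧ w < gd x y
      · by_cases hb : wd x y ≠ 0 ∧ (wd x y : ℝ) < θ * (B : ℝ) ^ 2
        · rw [if_pos ha, if_pos hb]
          split_ifs <;> linarith
        · rw [if_pos ha, if_neg hb]
          split_ifs <;> linarith
      · by_cases hb : wd x y ≠ 0 ∧ (wd x y : ℝ) < θ * (B : ℝ) ^ 2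
        · rw [if_neg ha, if_pos hb]
          split_ifs <;> linarith
        · rw [if_neg ha, if_neg hb, if_neg]
          · linarith
          · rintro ⟨h4, h5 | h5⟩
            · exact ha ⟨h4, h5⟩
            · exact hb ⟨h4, h5⟩
    have hθn : θ ^ (n - 1) ≤ θ := by
      calc θ ^ (n - 1) ≤ θ ^ 1 := pow_le_pow_of_le_one hθ hθ1 (by omega)
        _ = θ := pow_one θ
    have h4 : K * (2 * X + 2 ^ (n - 1) * (1 / w) * Y) + K * (2 * X + θ ^ (n - 1) * 2 * Y) ≤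
        K * ((2 ^ (n - 1) * 4) * (Y * (1 / w + θ) + X)) := by
      rw [← mul_add]
      refine mul_le_mul_of_nonneg_left ?_ hK0
      have e1 : X ≤ 2 ^ (n - 1) * X := by nlinarith
      have e2 : (0 : ℝ) ≤ 2 ^ (n - 1) * (1 / w) * Y := by positivity
      have e3 : θ ^ (n - 1) * 2 * Y ≤ θ * 2 * Y := by
        have := mul_le_mul_of_nonneg_right hθn hY0
        linarith
      have e4 : θ * Y ≤ 2 ^ (n - 1) * (θ * Y) := by
        have : 0 ≤ θ * Y := by positivity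
        nlinarith
      have e5 : 0 ≤ θ * Y := by positivity
      have e6 : 2 ^ (n - 1) * 4 * (Y * (1 / (w : ℝ) + θ) + X) =
        4 * (2 ^ (n - 1) * (1 / w) * Y) + 4 * (2 ^ (n - 1) * (θ * Y)) + 4 * (2 ^ (n - 1) * X) := by
        ring
      rw [e6]
      linarith
    calc _ ≤ _ := h3
      _ ≤ _ := add_le_add h1 h2
      _ ≤ _ := h4
      _ = _ := by ring

end Pool.Agent.HP
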