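import Mathlib
import Pool.Agent.Lib.MP_fc0680_nt.Defs

/-!
# Module SUMX: sum of `1 / |x ∧ y|` over `y` with `g ∣ gcd (x ∧ y)`

Common set-up of the section SUMS: the reduction `y = t x + g z` with `0 ≤ z i < Q`, and the
coordinates `(z i, ζ)` of `z`, where `x i * z l - x l * z i = ρ l + Q * ζ l`, `0 ≤ ρ l < Q`.
-/

set_option autoImplicit false

open Finset Filter

namespace Pool.Agent.HP

namespace SX

/-! ### Norms, minors -/

theorem natAbs_le_nrm {N : ℕ} (x : Fin N → ℤ) (j : Fin N) : (x j).natAbs ≤ nrm x :=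
  Finset.le_sup (f := fun j => (x j).natAbs) (Finset.mem_univ j)

theorem nrm_le_iff {N : ℕ} (x : Fin N → ℤ) (c : ℕ) : nrm x ≤ c ↔ ∀ j, (x j).natAbs ≤ c := by
  unfold nrm
  rw [Finset.sup_le_iff]
  simp

theorem exists_pivot {N : ℕ} (x : Fin (N + 1) → ℤ) : ∃ i, nrm x = (x i).natAbs := by
  obtain ⟨i, -, hi⟩ := Finset.exists_mem_eq_sup (Finset.univ : Finset (Fin (N + 1)))
    Finset.univ_nonempty (fun j => (x j).natAbs)
  exact ⟨i, hi⟩

theorem minor_le_wd {N : ℕ} (x y : Fin N → ℤ) (a b : Fin N) :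
    (x a * y b - x b * y a).natAbs ≤ wd x y :=
  Finset.le_sup (f := fun p : Fin N × Fin N => (x p.1 * y p.2 - x p.2 * y p.1).natAbs)
    (Finset.mem_univ (a, b))

theorem wd_le_iff {N : ℕ} (x y : Fin N → ℤ) (c : ℕ) :
    wd x y ≤ c ↔ ∀ a b, (x a * y b - x b * y a).natAbs ≤ c := by
  unfold wd
  rw [Finset.sup_le_iff]
  constructor
  · intro h a b
    exact h (a, b) (Finset.mem_univ _)
  · rintro h ⟨a, b⟩ _
    exact h a b

theorem exists_minor {N : ℕ} (x y : Fin (N + 1) → ℤ) :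
    ∃ a b, wd x y = (x a * y b - x b * y a).natAbs := by
  obtain ⟨p, -, hp⟩ := Finset.exists_mem_eq_sup
    (Finset.univ : Finset (Fin (N + 1) × Fin (N + 1))) Finset.univ_nonempty
    (fun p => (x p.1 * y p.2 - x p.2 * y p.1).natAbs)
  exact ⟨p.1, p.2, hp⟩

theorem gd_dvd' {N : ℕ} (x y : Fin N → ℤ) (i j : Fin N) :
    (gd x y : ℤ) ∣ x i * y j - x j * y i := by
  rw [Int.natCast_dvd]
  exact Finset.gcd_dvd (f := fun p : Fin N × Fin N => (x p.1 * y p.2 - x p.2 * y p.1).natAbs)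
    (Finset.mem_univ (i, j))

theorem exists_decomp' {N : ℕ} (x y : Fin N → ℤ) (hx : Umod x) (g : ℕ) (hg : g ∣ gd x y) :
    ∃ (t : ℤ) (z : Fin N → ℤ), ∀ j, y j = t * x j + g * z j := by
  obtain ⟨e, he⟩ := hx
  have h1 : ∀ j, (g : ℤ) ∣ y j - (∑ l, e l * y l) * x j := by
    intro j
    have h2 : y j - (∑ l, e l * y l) * x j = ∑ l, e l * (x l * y j - x j * y l) := by
      have h3 : y j = (∑ l, e l * x l) * y j := by rw [he, one_mul]
      conv_lhs => rw [h3]
      rw [Finset.sum_mul, Finset.sum_mul, ← Finset.sum_sub_distrib]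
      refine Finset.sum_congr rfl fun l _ => ?_
      ring
    rw [h2]
    refine Finset.dvd_sum fun l _ => Dvd.dvd.mul_left ?_ _
    exact (Int.natCast_dvd_natCast.mpr hg).trans (gd_dvd' x y l j)
  choose z hz using h1
  refine ⟨∑ l, e l * y l, z, fun j => ?_⟩
  rw [← hz j]
  ring

/-- The decomposition with a reduced second vector. -/
theorem exists_reduced {N : ℕ} (x y : Fin N → ℤ) (hx : Umod x) (g : ℕ) (hg : g ∣ gd x y)
    (i : Fin N) (hi : x i ≠ 0) :
    ∃ (t : ℤ) (z : Fin N → ℤ), (∀ j, y j = t * x j + g * z j) ∧ 0 ≤ z i ∧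
      z i < (x i).natAbs := by
  obtain ⟨t, z, hz⟩ := exists_decomp' x y hx g hg
  refine ⟨t + g * (z i / x i), fun j => z j - (z i / x i) * x j, fun j => ?_, ?_, ?_⟩
  · rw [hz j]
    ring
  · have h1 : z i - (z i / x i) * x i = z i % x i := by
      have := Int.emod_add_mul_ediv (z i) (x i)
      linarith
    show 0 ≤ z i - (z i / x i) * x i
    rw [h1]
    exact Int.emod_nonneg _ hi
  · have h1 : z i - (z i / x i) * x i = z i % x i := by
      have := Int.emod_add_mul_ediv (z i) (x i)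
      linarith
    show z i - (z i / x i) * x i < (x i).natAbs
    rw [h1, Int.natCast_natAbs]
    exact Int.emod_lt_abs _ hi

theorem wd_decomp {N : ℕ} (x y z : Fin (N + 1) → ℤ) (t : ℤ) (g : ℕ)
    (h : ∀ j, y j = t * x j + g * z j) : wd x y = g * wd x z := by
  have key : ∀ a b, (x a * y b - x b * y a).natAbs = g * (x a * z b - x b * z a).natAbs := by
    intro a b
    rw [h a, h b]
    have h1 : x a * (t * x b + g * z b) - x b * (t * x a + g * z a) =
        g * (x a * z b - x b * z a) := by ring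
    rw [h1, Int.natAbs_mul, Int.natAbs_natCast]
  apply le_antisymm
  · rw [wd_le_iff]
    intro a b
    rw [key]
    exact Nat.mul_le_mul_left g (minor_le_wd x z a b)
  · obtain ⟨a, b, hab⟩ := exists_minor x z
    rw [hab, ← key]
    exact minor_le_wd x y a b

/-- All minors are controlled by the minors with the pivot. -/
theorem wd_le_two_mul {N : ℕ} (x z : Fin N → ℤ) (i : Fin N) (hi : nrm x = (x i).natAbs)
    (h0 : x i ≠ 0) (c : ℕ) (h : ∀ l, (x i * z l - x l * z i).natAbs ≤ c) :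
    wd x z ≤ 2 * c := by
  rw [wd_le_iff]
  intro a b
  have h1 : x i * (x a * z b - x b * z a) =
      x a * (x i * z b - x b * z i) - x b * (x i * z a - x a * z i) := by ring
  have h2 : (x i).natAbs * (x a * z b - x b * z a).natAbs ≤ (x i).natAbs * (2 * c) := by
    rw [← Int.natAbs_mul, h1]
    refine (Int.natAbs_sub_le _ _).trans ?_
    rw [Int.natAbs_mul, Int.natAbs_mul]
    have h3 : (x a).natAbs ≤ (x i).natAbs := by rw [← hi]; exact natAbs_le_nrm x a
    have h4 : (x b).natAbs ≤ (x i).natAbs := by rw [← hi]; exact natAbs_le_nrm x b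
    have h5 := Nat.mul_le_mul h3 (h b)
    have h6 := Nat.mul_le_mul h4 (h a)
    calc (x a).natAbs * (x i * z b - x b * z i).natAbs +
          (x b).natAbs * (x i * z a - x a * z i).natAbs
        ≤ (x i).natAbs * c + (x i).natAbs * c := Nat.add_le_add h5 h6
      _ = (x i).natAbs * (2 * c) := by ring
  exact Nat.le_of_mul_le_mul_left h2 (Int.natAbs_pos.mpr h0)

/-! ### The coordinates `ζ` -/

/-- Quotients of the pivot minors by `Q`. -/
def zt {N : ℕ} (x : Fin N → ℤ) (i : Fin N) (z : Fin N → ℤ) : Fin N → ℤ :=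
  fun l => (x i * z l - x l * z i) / ((x i).natAbs : ℤ)

theorem zt_pivot {N : ℕ} (x : Fin N → ℤ) (i : Fin N) (z : Fin N → ℤ) : zt x i z i = 0 := by
  simp [zt]

theorem zt_inj {N : ℕ} (x : Fin N → ℤ) (i : Fin N) (h0 : x i ≠ 0) (z z' : Fin N → ℤ)
    (h1 : z i = z' i) (h2 : zt x i z = zt x i z') : z = z' := by
  funext l
  have h3 := congrFun h2 l
  simp only [zt] at h3
  have h4 : (x i * z l - x l * z i) % ((x i).natAbs : ℤ) =
      (x i * z' l - x l * z' i) % ((x i).natAbs : ℤ) := by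
    rw [h1]
    apply Int.emod_eq_emod_iff_emod_sub_eq_zero.mpr
    apply Int.emod_eq_zero_of_dvd
    have h5 : x i * z l - x l * z' i - (x i * z' l - x l * z' i) = x i * (z l - z' l) := by ring
    rw [h5]
    exact Dvd.dvd.mul_right (Int.natAbs_dvd.mpr (dvd_refl _)) _
  have h5 := Int.emod_add_mul_ediv (x i * z l - x l * z i) ((x i).natAbs : ℤ)
  have h6 := Int.emod_add_mul_ediv (x i * z' l - x l * z' i) ((x i).natAbs : ℤ)
  rw [h4, h3] at h5
  have h7 : x i * z l - x l * z i = x i * z' l - x l * z' i := h5.symm.trans h6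
  rw [h1] at h7
  have h8 : x i * z l = x i * z' l := by linarith
  exact mul_left_cancel₀ h0 h8

/-- Large `ζ` means large minors. -/
theorem zt_le {N : ℕ} (x : Fin N → ℤ) (i : Fin N) (h0 : x i ≠ 0) (z : Fin N → ℤ) (l : Fin N) :
    (x i).natAbs * (zt x i z l).natAbs ≤
      (x i * z l - x l * z i).natAbs + (x i).natAbs := by
  have hQ : (0 : ℤ) < ((x i).natAbs : ℤ) := by
    exact_mod_cast Int.natAbs_pos.mpr h0
  set Q : ℤ := ((x i).natAbs : ℤ) with hQd
  set r : ℤ := x i * z l - x l * z i with hr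
  have h1 : Q * (r / Q) ≤ r := Int.mul_ediv_self_le hQ.ne'
  have h2 : r < Q * (r / Q) + Q := by
    have := Int.lt_ediv_add_one_mul_self r hQ
    linarith
  have h3 : zt x i z l = r / Q := rfl
  rw [h3]
  have h4 : Q * |r / Q| ≤ |r| + Q := by
    rw [← abs_of_pos hQ, ← abs_mul, abs_of_pos hQ]
    rw [abs_le]
    constructor
    · have := neg_abs_le r
      linarith
    · have := le_abs_self r
      linarith
  have h5 : (((x i).natAbs * (r / Q).natAbs : ℕ) : ℤ) ≤ ((r.natAbs + (x i).natAbs : ℕ) : ℤ) := by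
    have e1 : (((r / Q).natAbs : ℕ) : ℤ) = |r / Q| := Int.natCast_natAbs _
    have e2 : ((r.natAbs : ℕ) : ℤ) = |r| := Int.natCast_natAbs _
    rw [Nat.cast_mul, Nat.cast_add, e1, e2]
    exact h4
  exact_mod_cast h5

/-- If `|ζ| = Z ≥ 2` then `Q Z ≤ 2 |x ∧ z|`. -/
theorem zt_nrm_le {N : ℕ} (x : Fin (N + 1) → ℤ) (i : Fin (N + 1)) (h0 : x i ≠ 0)
    (z : Fin (N + 1) → ℤ) (h2 : 2 ≤ nrm (zt x i z)) :
    (x i).natAbs * nrm (zt x i z) ≤ 2 * wd x z := by
  obtain ⟨l, hl⟩ := exists_pivot (zt x i z)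
  rw [hl] at h2 ⊢
  have h3 := zt_le x i h0 z l
  have h4 := minor_le_wd x z i l
  have h5 : 2 * (x i).natAbs ≤ (x i).natAbs * (zt x i z l).natAbs := by
    rw [mul_comm]
    exact Nat.mul_le_mul_left _ h2
  omega

/-! ### Counting `ζ` -/

/-- Vectors with vanishing `i`-th coordinate in a box. -/
noncomputable def bx {n : ℕ} (i : Fin (n + 1)) (R : ℕ) : Finset (Fin (n + 1) → ℤ) :=
  Fintype.piFinset fun l => if l = i then {0} else Finset.Icc (-(R : ℤ)) (R : ℤ)

theorem mem_bx {n : ℕ} (i : Fin (n + 1)) (R : ℕ) (ζ : Fin (n + 1) → ℤ) :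
    ζ ∈ bx i R ↔ ζ i = 0 ∧ nrm ζ ≤ R := by
  unfold bx
  rw [Fintype.mem_piFinset, nrm_le_iff]
  constructor
  · intro h
    have h0 : ζ i = 0 := by
      have := h i
      rw [if_pos rfl, Finset.mem_singleton] at this
      exact this
    refine ⟨h0, fun j => ?_⟩
    by_cases hj : j = i
    · rw [hj, h0]
      simp
    · have := h j
      rw [if_neg hj, Finset.mem_Icc] at this
      omega
  · rintro ⟨h0, h⟩ j
    by_cases hj : j = i
    · rw [if_pos hj, hj, h0]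
      simp
    · rw [if_neg hj, Finset.mem_Icc]
      have := h j
      omega

theorem card_bx {n : ℕ} (i : Fin (n + 1)) (R : ℕ) : (bx i R).card = (2 * R + 1) ^ n := by
  unfold bx
  rw [Fintype.card_piFinset, Fin.prod_univ_succAbove _ i, if_pos rfl, Finset.card_singleton,
    one_mul]
  have h : ∀ j : Fin n, (if i.succAbove j = i then ({0} : Finset ℤ)
      else Finset.Icc (-(R : ℤ)) (R : ℤ)).card = 2 * R + 1 := by
    intro j
    rw [if_neg (Fin.succAbove_ne i j), Int.card_Icc]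
    omega
  rw [Finset.prod_congr rfl fun j _ => h j, Finset.prod_const, Finset.card_univ, Fintype.card_fin]

theorem pow_sub_le (a : ℝ) (ha : 2 ≤ a) (n : ℕ) : a ^ n - (a - 2) ^ n ≤ 2 * n * a ^ (n - 1) := by
  induction n with
  | zero => simp
  | succ n ih =>
    rcases Nat.eq_zero_or_pos n with rfl | hn
    · simp
    · have h1 : a ^ (n + 1) - (a - 2) ^ (n + 1) =
          a * (a ^ n - (a - 2) ^ n) + 2 * (a - 2) ^ n := by ring
      have h2 : (a - 2) ^ n ≤ a ^ n := pow_le_pow_left₀ (by linarith) (by linarith) n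
      have h3 : a * (a ^ n - (a - 2) ^ n) ≤ a * (2 * n * a ^ (n - 1)) :=
        mul_le_mul_of_nonneg_left ih (by linarith)
      have h4 : a * (2 * n * a ^ (n - 1)) = 2 * n * a ^ n := by
        have : a ^ n = a * a ^ (n - 1) := by
          rw [← pow_succ']
          congr 1
          omega
        rw [this]
        ring
      rw [h1, Nat.add_sub_cancel]
      push_cast
      linarith

/-- Number of `ζ` of given norm. -/
theorem card_shell {n : ℕ} (i : Fin (n + 1)) (Z : ℕ) (hZ : 1 ≤ Z)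
    (s : Finset (Fin (n + 1) → ℤ)) (hs : ∀ ζ ∈ s, ζ i = 0 ∧ nrm ζ = Z) :
    (s.card : ℝ) ≤ 2 * n * 3 ^ (n - 1) * (Z : ℝ) ^ (n - 1) := by
  have h1 : s ⊆ bx i Z \ bx i (Z - 1) := by
    intro ζ hζ
    obtain ⟨h0, hZ'⟩ := hs ζ hζ
    rw [Finset.mem_sdiff, mem_bx, mem_bx]
    refine ⟨⟨h0, hZ'.le⟩, fun h => ?_⟩
    omega
  have h2 : bx i (Z - 1) ⊆ bx i Z := by
    intro ζ hζ
    rw [mem_bx] at hζ ⊢
    exact ⟨hζ.1, hζ.2.trans (Nat.sub_le _ _)⟩
  have h3 := Finset.card_le_card h1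
  rw [Finset.card_sdiff_of_subset h2, card_bx, card_bx] at h3
  have h4 : (s.card : ℝ) ≤ ((2 * Z + 1) ^ n : ℕ) - ((2 * (Z - 1) + 1) ^ n : ℕ) := by
    have h5 : (2 * (Z - 1) + 1) ^ n ≤ (2 * Z + 1) ^ n :=
      Nat.pow_le_pow_left (by omega) n
    rw [← Nat.cast_sub h5]
    exact_mod_cast h3
  refine h4.trans ?_
  have h6 : ((2 * (Z - 1) + 1 : ℕ) : ℝ) = ((2 * Z + 1 : ℕ) : ℝ) - 2 := by
    obtain ⟨m, rfl⟩ : ∃ m, Z = m + 1 := ⟨Z - 1, by omega⟩
    push_cast [Nat.add_sub_cancel]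
    ring
  rw [Nat.cast_pow, Nat.cast_pow, h6]
  have hZr : (1 : ℝ) ≤ Z := by exact_mod_cast hZ
  have h7 : ((2 * Z + 1 : ℕ) : ℝ) = 2 * Z + 1 := by push_cast; ring
  rw [h7]
  refine (pow_sub_le _ (by linarith) n).trans ?_
  rw [mul_assoc (2 * (n : ℝ)), ← mul_pow]
  refine mul_le_mul_of_nonneg_left ?_ (by positivity)
  exact pow_le_pow_left₀ (by positivity) (by linarith) _

/-- Sum over `ζ` of a function of the norm. -/
theorem sum_zeta_le {n : ℕ} (i : Fin (n + 1)) (R : ℕ) (s : Finset (Fin (n + 1) → ℤ))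
    (hs : ∀ ζ ∈ s, ζ i = 0 ∧ nrm ζ ≤ R ∧ 2 ≤ nrm ζ) (φ : ℕ → ℝ) (hφ : ∀ Z, 0 ≤ φ Z) :
    ∑ ζ ∈ s, φ (nrm ζ) ≤
      ∑ Z ∈ Finset.Icc 2 R, (2 * n * 3 ^ (n - 1) * (Z : ℝ) ^ (n - 1)) * φ Z := by
  classical
  have h1 : ∑ ζ ∈ s, φ (nrm ζ) =
      ∑ Z ∈ Finset.Icc 2 R, ∑ ζ ∈ s.filter (fun ζ => nrm ζ = Z), φ (nrm ζ) := by
    refine (Finset.sum_fiberwise_of_maps_to (fun ζ hζ => ?_) _).symm
    obtain ⟨_, h2, h3⟩ := hs ζ hζ
    exact Finset.mem_Icc.mpr ⟨h3, h2⟩
  rw [h1]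
  refine Finset.sum_le_sum fun Z hZ => ?_
  rw [Finset.mem_Icc] at hZ
  have h2 : ∑ ζ ∈ s.filter (fun ζ => nrm ζ = Z), φ (nrm ζ) =
      ((s.filter (fun ζ => nrm ζ = Z)).card : ℝ) * φ Z := by
    rw [Finset.sum_congr rfl (fun ζ hζ => by rw [(Finset.mem_filter.mp hζ).2]),
      Finset.sum_const, nsmul_eq_mul]
  rw [h2]
  refine mul_le_mul_of_nonneg_right ?_ (hφ Z)
  refine card_shell i Z (by omega) _ fun ζ hζ => ?_
  rw [Finset.mem_filter] at hζ
  exact ⟨(hs ζ hζ.1).1, hζ.2⟩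

/-! ### Sums over reduced vectors -/

/-- The number of reduced vectors with `|ζ| ≤ R`. -/
theorem card_reduced {n : ℕ} (x : Fin (n + 1) → ℤ) (i : Fin (n + 1)) (h0 : x i ≠ 0) (R : ℕ)
    (s : Finset (Fin (n + 1) → ℤ))
    (hs : ∀ z ∈ s, 0 ≤ z i ∧ z i < (x i).natAbs ∧ nrm (zt x i z) ≤ R) :
    s.card ≤ (x i).natAbs * (2 * R + 1) ^ n := by
  classical
  have h1 : s.card ≤ ((Finset.range (x i).natAbs) ×ˢ bx i R).card := by
    refine Finset.card_le_card_of_injOn (fun z => ((z i).toNat, zt x i z)) ?_ ?_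
    · intro z hz
      obtain ⟨a, b, c⟩ := hs z hz
      rw [Finset.mem_coe, Finset.mem_product, Finset.mem_range, mem_bx]
      exact ⟨by show (z i).toNat < _; omega, zt_pivot x i z, c⟩
    · intro z hz z' hz' h
      obtain ⟨a, b, _⟩ := hs z hz
      obtain ⟨a', b', _⟩ := hs z' hz'
      rw [Prod.mk.injEq] at h
      exact zt_inj x i h0 z z' (by omega) h.2
  rwa [Finset.card_product, Finset.card_range, card_bx] at h1

/-- Sum over the reduced vectors with `|ζ| ≥ 2`. -/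
theorem sum_reduced {n : ℕ} (x : Fin (n + 1) → ℤ) (i : Fin (n + 1)) (h0 : x i ≠ 0) (R : ℕ)
    (s : Finset (Fin (n + 1) → ℤ))
    (hs : ∀ z ∈ s, 0 ≤ z i ∧ z i < (x i).natAbs ∧ 2 ≤ nrm (zt x i z) ∧ nrm (zt x i z) ≤ R)
    (φ : ℕ → ℝ) (hφ : ∀ Z, 0 ≤ φ Z) :
    ∑ z ∈ s, φ (nrm (zt x i z)) ≤ (x i).natAbs *
      ∑ Z ∈ Finset.Icc 2 R, (2 * n * 3 ^ (n - 1) * (Z : ℝ) ^ (n - 1)) * φ Z := by
  classical
  set b : Finset (Fin (n + 1) → ℤ) := (bx i R).filter (fun ζ => 2 ≤ nrm ζ) with hb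
  have h1 : ∑ z ∈ s, φ (nrm (zt x i z)) ≤
      ∑ p ∈ (Finset.range (x i).natAbs) ×ˢ b, φ (nrm p.2) := by
    have h2 : ∑ z ∈ s, φ (nrm (zt x i z)) =
        ∑ p ∈ s.image (fun z => ((z i).toNat, zt x i z)), φ (nrm p.2) := by
      rw [Finset.sum_image]
      intro z hz z' hz' h
      obtain ⟨a, b, _⟩ := hs z hz
      obtain ⟨a', b', _⟩ := hs z' hz'
      rw [Prod.mk.injEq] at h
      exact zt_inj x i h0 z z' (by omega) h.2
    rw [h2]
    refine Finset.sum_le_sum_of_subset_of_nonneg ?_ (fun p _ _ => hφ _)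
    intro p hp
    obtain ⟨z, hz, rfl⟩ := Finset.mem_image.mp hp
    obtain ⟨a, b, c, d⟩ := hs z hz
    rw [Finset.mem_product, Finset.mem_range, hb, Finset.mem_filter, mem_bx]
    exact ⟨by show (z i).toNat < _; omega, ⟨zt_pivot x i z, d⟩, c⟩
  refine h1.trans ?_
  have h3 : ∑ p ∈ (Finset.range (x i).natAbs) ×ˢ b, φ (nrm p.2) =
      ((x i).natAbs : ℝ) * ∑ ζ ∈ b, φ (nrm ζ) := by
    rw [Finset.sum_product]
    show ∑ _c ∈ Finset.range (x i).natAbs, ∑ ζ ∈ b, φ (nrm ζ) = _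
    rw [Finset.sum_const, Finset.card_range, nsmul_eq_mul]
  rw [h3]
  refine mul_le_mul_of_nonneg_left ?_ (Nat.cast_nonneg _)
  refine sum_zeta_le i R b (fun ζ hζ => ?_) φ hφ
  rw [hb, Finset.mem_filter, mem_bx] at hζ
  exact ⟨hζ.1.1, hζ.1.2, hζ.2⟩

/-! ### From `y` to reduced vectors -/

theorem card_le_four (s : Finset ℤ) (h : ∀ a ∈ s, ∀ b ∈ s, a - b ≤ 3) : s.card ≤ 4 := by
  rcases s.eq_empty_or_nonempty with rfl | hne
  · simp
  · have h1 : s ⊆ Finset.Icc (s.min' hne) (s.min' hne + 3) := by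
      intro a ha
      rw [Finset.mem_Icc]
      refine ⟨Finset.min'_le s a ha, ?_⟩
      have := h a ha _ (Finset.min'_mem s hne)
      linarith
    have h2 := Finset.card_le_card h1
    rw [Int.card_Icc] at h2
    omega

/-- The set-up: a finite set of vectors `y` not proportional to `x` with `g ∣ gd x y` and
`|y i| ≤ B`, where `B < 2 |x i|`, is mapped at most `4` to `1` to reduced vectors `z` with
`wd x y = g * wd x z`. -/
theorem setup {n : ℕ} (x : Fin (n + 1) → ℤ) (hx : Umod x) (i : Fin (n + 1)) (h0 : x i ≠ 0)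
    (g B : ℕ) (hB : B < 2 * (x i).natAbs) (s : Finset (Fin (n + 1) → ℤ))
    (hs : ∀ y ∈ s, (y i).natAbs ≤ B ∧ g ∣ gd x y) :
    ∃ s' : Finset (Fin (n + 1) → ℤ),
      (∀ z ∈ s', 0 ≤ z i ∧ z i < (x i).natAbs ∧ ∃ y ∈ s, ∃ t : ℤ,
        (∀ j, y j = t * x j + g * z j) ∧ wd x y = g * wd x z) ∧
      ∀ φ : ℕ → ℝ, (∀ m, 0 ≤ φ m) →
        ∑ y ∈ s, φ (wd x y) ≤ 4 * ∑ z ∈ s', φ (g * wd x z) := by
  classical
  have h1 : ∀ y, ∃ (t : ℤ) (z : Fin (n + 1) → ℤ), y ∈ s → (∀ j, y j = t * x j + g * z j) ∧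
      0 ≤ z i ∧ z i < (x i).natAbs := by
    intro y
    by_cases hy : y ∈ s
    · obtain ⟨t, z, h⟩ := exists_reduced x y hx g (hs y hy).2 i h0
      exact ⟨t, z, fun _ => h⟩
    · exact ⟨0, 0, fun h => absurd h hy⟩
  choose t z h using h1
  refine ⟨s.image z, ?_, ?_⟩
  · intro v hv
    obtain ⟨y, hy, rfl⟩ := Finset.mem_image.mp hv
    obtain ⟨a, b, c⟩ := h y hy
    exact ⟨b, c, y, hy, t y, a, wd_decomp x y (z y) (t y) g a⟩
  · intro φ hφ
    have h2 : ∑ y ∈ s, φ (wd x y) = ∑ y ∈ s, φ (g * wd x (z y)) := by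
      refine Finset.sum_congr rfl fun y hy => ?_
      rw [wd_decomp x y (z y) (t y) g (h y hy).1]
    rw [h2, Finset.sum_comp (fun v => φ (g * wd x v)) z, Finset.mul_sum]
    refine Finset.sum_le_sum fun v hv => ?_
    rw [nsmul_eq_mul]
    refine mul_le_mul_of_nonneg_right ?_ (hφ _)
    have h3 : (s.filter (fun y => z y = v)).card ≤ 4 := by
      have h4 : (s.filter (fun y => z y = v)).card =
          ((s.filter (fun y => z y = v)).image t).card := by
        rw [Finset.card_image_of_injOn]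
        intro y hy y' hy' hyy
        rw [Finset.mem_coe, Finset.mem_filter] at hy hy'
        funext j
        rw [(h y hy.1).1 j, (h y' hy'.1).1 j, hy.2, hy'.2, hyy]
      rw [h4]
      refine card_le_four _ ?_
      intro a ha b hb
      obtain ⟨y, hy, rfl⟩ := Finset.mem_image.mp ha
      obtain ⟨y', hy', rfl⟩ := Finset.mem_image.mp hb
      rw [Finset.mem_filter] at hy hy'
      by_contra hcon
      push Not at hcon
      have e1 := (h y hy.1).1 i
      have e2 := (h y' hy'.1).1 i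
      rw [hy.2] at e1
      rw [hy'.2] at e2
      have e3 : (t y - t y') * x i = y i - y' i := by rw [e1, e2]; ring
      have e4 : ((t y - t y') * x i).natAbs ≤ 2 * B := by
        rw [e3]
        have := (hs y hy.1).1
        have := (hs y' hy'.1).1
        omega
      rw [Int.natAbs_mul] at e4
      have e5 : 4 ≤ (t y - t y').natAbs := by omega
      have e6 := Nat.mul_le_mul_right (x i).natAbs e5
      omega
    exact_mod_cast h3

end SX

open SX in
theorem sumx (n : ℕ) (hn : 2 ≤ n) : ∃ C : ℝ, 0 < C ∧ ∀ (B Δ g : ℕ) (Θ : ℝ)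
    (x : Fin (n + 1) → ℤ), 1 ≤ Δ → 1 ≤ g → 0 ≤ Θ → B < 2 * nrm x → nrm x ≤ B → Umod x →
    Sep Δ x →
    ∑ y ∈ (box (Fin (n + 1)) B).filter (fun y => wd x y ≠ 0 ∧ g ∣ gd x y ∧ (wd x y : ℝ) ≤ Θ),
      (1 / (wd x y : ℝ)) ≤ C / g * ((B : ℝ) / Δ + (Θ / (g * B)) ^ (n - 1)) := by
  classical
  set K : ℝ := 2 * n * 3 ^ (n - 1) with hK
  have hK0 : 0 ≤ K := by positivity
  refine ⟨4 * 3 ^ n + 8 * K * 4 ^ (n - 1), by positivity, ?_⟩
  intro B Δ g Θ x hΔ hg hΘ hB1 hB2 hx hsep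
  obtain ⟨i, hi⟩ := exists_pivot x
  rw [hi] at hB1 hB2
  have hQ : 0 < (x i).natAbs := by omega
  have h0 : x i ≠ 0 := Int.natAbs_pos.mp hQ
  have hBpos : 0 < B := by omega
  have hgr : (0 : ℝ) < g := by exact_mod_cast hg
  have hΔr : (0 : ℝ) < Δ := by exact_mod_cast hΔ
  have hBr : (0 : ℝ) < B := by exact_mod_cast hBpos
  have hQr : (0 : ℝ) < (x i).natAbs := by exact_mod_cast hQ
  have hQB : ((x i).natAbs : ℝ) ≤ B := by exact_mod_cast hB2
  have hBQ : (B : ℝ) ≤ 2 * (x i).natAbs := by exact_mod_cast hB1.le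
  obtain ⟨s', hs', hsum⟩ := setup x hx i h0 g B hB1
    ((box (Fin (n + 1)) B).filter (fun y => wd x y ≠ 0 ∧ g ∣ gd x y ∧ (wd x y : ℝ) ≤ Θ)) (by
      intro y hy
      rw [Finset.mem_filter] at hy
      refine ⟨?_, hy.2.2.1⟩
      have := Fintype.mem_piFinset.mp hy.1 i
      rw [Finset.mem_Icc] at this
      omega)
  have h1 := hsum (fun m => 1 / (m : ℝ)) (fun m => by positivity)
  refine h1.trans ?_
  -- facts on reduced vectors
  have hz : ∀ z ∈ s', 0 ≤ z i ∧ z i < (x i).natAbs ∧ Δ ≤ wd x z ∧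
      (g : ℝ) * wd x z ≤ Θ := by
    intro z hzs
    obtain ⟨a, b, y, hy, t, _, hyz⟩ := hs' z hzs
    rw [Finset.mem_filter] at hy
    have h2 : wd x z ≠ 0 := by
      intro h
      rw [h, mul_zero] at hyz
      exact hy.2.1 hyz
    refine ⟨a, b, hsep z h2, ?_⟩
    have h3 := hy.2.2.2
    rw [hyz] at h3
    push_cast at h3
    exact h3
  set R : ℕ := ⌊2 * Θ / (g * (x i).natAbs)⌋₊ with hR
  have hRle : (R : ℝ) ≤ 2 * Θ / (g * (x i).natAbs) := Nat.floor_le (by positivity)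
  -- split
  have hsplit : ∑ z ∈ s', (1 / ((g * wd x z : ℕ) : ℝ)) =
      (1 / g) * (∑ z ∈ s'.filter (fun z => nrm (zt x i z) ≤ 1), (1 / (wd x z : ℝ)) +
        ∑ z ∈ s'.filter (fun z => ¬ nrm (zt x i z) ≤ 1), (1 / (wd x z : ℝ))) := by
    rw [Finset.sum_filter_add_sum_filter_not, Finset.mul_sum]
    refine Finset.sum_congr rfl fun z _ => ?_
    push_cast
    rw [one_div_mul_one_div]
  -- small part
  have hsmall : ∑ z ∈ s'.filter (fun z => nrm (zt x i z) ≤ 1), (1 / (wd x z : ℝ)) ≤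
      3 ^ n * (B / Δ) := by
    have e1 : ∀ z ∈ s'.filter (fun z => nrm (zt x i z) ≤ 1), (1 / (wd x z : ℝ)) ≤ 1 / Δ := by
      intro z hzs
      obtain ⟨_, _, c, _⟩ := hz z (Finset.mem_filter.mp hzs).1
      have : (Δ : ℝ) ≤ wd x z := by exact_mod_cast c
      exact one_div_le_one_div_of_le hΔr this
    refine (Finset.sum_le_sum e1).trans ?_
    rw [Finset.sum_const, nsmul_eq_mul]
    have e2 := card_reduced x i h0 1 (s'.filter (fun z => nrm (zt x i z) ≤ 1)) (by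
      intro z hzs
      rw [Finset.mem_filter] at hzs
      obtain ⟨a, b, _, _⟩ := hz z hzs.1
      exact ⟨a, b, hzs.2⟩)
    have e3 : ((s'.filter (fun z => nrm (zt x i z) ≤ 1)).card : ℝ) ≤ B * 3 ^ n := by
      have e4 : ((s'.filter (fun z => nrm (zt x i z) ≤ 1)).card : ℝ) ≤
          (x i).natAbs * 3 ^ n := by exact_mod_cast e2
      exact e4.trans (mul_le_mul_of_nonneg_right hQB (by positivity))
    calc ((s'.filter (fun z => nrm (zt x i z) ≤ 1)).card : ℝ) * (1 / Δ)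
        ≤ (B * 3 ^ n) * (1 / Δ) := mul_le_mul_of_nonneg_right e3 (by positivity)
      _ = 3 ^ n * (B / Δ) := by ring
  -- large part
  have hlarge : ∑ z ∈ s'.filter (fun z => ¬ nrm (zt x i z) ≤ 1), (1 / (wd x z : ℝ)) ≤
      2 * K * 4 ^ (n - 1) * (Θ / (g * B)) ^ (n - 1) := by
    have e1 : ∀ z ∈ s'.filter (fun z => ¬ nrm (zt x i z) ≤ 1), (1 / (wd x z : ℝ)) ≤
        2 / ((x i).natAbs * (nrm (zt x i z) : ℝ)) := by
      intro z hzs
      rw [Finset.mem_filter] at hzs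
      have e2 : 2 ≤ nrm (zt x i z) := by omega
      have e3 := zt_nrm_le x i h0 z e2
      have e4 : ((x i).natAbs : ℝ) * nrm (zt x i z) ≤ 2 * wd x z := by exact_mod_cast e3
      obtain ⟨_, _, c, _⟩ := hz z hzs.1
      have e5 : (0 : ℝ) < wd x z := by
        have : 0 < wd x z := by omega
        exact_mod_cast this
      have e6 : (0 : ℝ) < nrm (zt x i z) := by
        have : 0 < nrm (zt x i z) := by omega
        exact_mod_cast this
      rw [div_le_div_iff₀ e5 (by positivity)]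
      linarith
    refine (Finset.sum_le_sum e1).trans ?_
    refine (sum_reduced x i h0 R _ (fun z hzs => ?_)
      (fun Z => 2 / ((x i).natAbs * (Z : ℝ))) (fun Z => by positivity)).trans ?_
    · rw [Finset.mem_filter] at hzs
      obtain ⟨a, b, _, d⟩ := hz z hzs.1
      have e2 : 2 ≤ nrm (zt x i z) := by omega
      refine ⟨a, b, e2, ?_⟩
      rw [hR]
      apply Nat.le_floor
      have e3 := zt_nrm_le x i h0 z e2
      have e4 : ((x i).natAbs : ℝ) * nrm (zt x i z) ≤ 2 * wd x z := by exact_mod_cast e3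
      rw [le_div_iff₀ (by positivity)]
      calc (nrm (zt x i z) : ℝ) * (g * (x i).natAbs)
          = g * ((x i).natAbs * nrm (zt x i z)) := by ring
        _ ≤ g * (2 * wd x z) := mul_le_mul_of_nonneg_left e4 hgr.le
        _ = 2 * (g * wd x z) := by ring
        _ ≤ 2 * Θ := by linarith
    · rw [← hK]
      have e2 : ∀ Z ∈ Finset.Icc 2 R, K * (Z : ℝ) ^ (n - 1) * (2 / ((x i).natAbs * (Z : ℝ))) ≤
          2 * K / (x i).natAbs * (R : ℝ) ^ (n - 2) := by
        intro Z hZ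
        rw [Finset.mem_Icc] at hZ
        have hZ0 : (0 : ℝ) < Z := by
          have : 0 < Z := by omega
          exact_mod_cast this
        have e3 : (Z : ℝ) ^ (n - 1) = Z ^ (n - 2) * Z := by
          rw [← pow_succ]
          congr 1
          omega
        have e4 : (Z : ℝ) ^ (n - 2) ≤ (R : ℝ) ^ (n - 2) :=
          pow_le_pow_left₀ hZ0.le (by exact_mod_cast hZ.2) _
        calc K * (Z : ℝ) ^ (n - 1) * (2 / ((x i).natAbs * (Z : ℝ)))
            = 2 * K / (x i).natAbs * (Z : ℝ) ^ (n - 2) := by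
              rw [e3]
              field_simp
          _ ≤ 2 * K / (x i).natAbs * (R : ℝ) ^ (n - 2) :=
              mul_le_mul_of_nonneg_left e4 (by positivity)
      have e5 := Finset.sum_le_sum e2
      rw [Finset.sum_const, nsmul_eq_mul] at e5
      have e6 : ((Finset.Icc 2 R).card : ℝ) ≤ R := by
        rw [Nat.card_Icc]
        exact_mod_cast (by omega : R + 1 - 2 ≤ R)
      have e7 : (R : ℝ) ^ (n - 1) ≤ (4 * (Θ / (g * B))) ^ (n - 1) := by
        refine pow_le_pow_left₀ (Nat.cast_nonneg _) (hRle.trans ?_) _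
        have e8 : 2 * Θ / (g * (x i).natAbs) ≤ 2 * Θ / (g * (B / 2)) := by
          apply div_le_div_of_nonneg_left (by positivity) (by positivity)
          apply mul_le_mul_of_nonneg_left _ hgr.le
          linarith
        refine e8.trans (le_of_eq ?_)
        field_simp
        ring
      have e9 : (R : ℝ) ^ (n - 1) = R * (R : ℝ) ^ (n - 2) := by
        rw [← pow_succ']
        congr 1
        omega
      calc ((x i).natAbs : ℝ) * ∑ Z ∈ Finset.Icc 2 R, K * (Z : ℝ) ^ (n - 1) *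
            (2 / ((x i).natAbs * (Z : ℝ)))
          ≤ (x i).natAbs * (((Finset.Icc 2 R).card : ℝ) *
            (2 * K / (x i).natAbs * (R : ℝ) ^ (n - 2))) :=
            mul_le_mul_of_nonneg_left e5 hQr.le
        _ ≤ (x i).natAbs * ((R : ℝ) * (2 * K / (x i).natAbs * (R : ℝ) ^ (n - 2))) := by
            refine mul_le_mul_of_nonneg_left ?_ hQr.le
            exact mul_le_mul_of_nonneg_right e6 (by positivity)
        _ = 2 * K * (R : ℝ) ^ (n - 1) := by
            rw [e9]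
            field_simp
        _ ≤ 2 * K * (4 * (Θ / (g * B))) ^ (n - 1) :=
            mul_le_mul_of_nonneg_left e7 (by positivity)
        _ = 2 * K * 4 ^ (n - 1) * (Θ / (g * B)) ^ (n - 1) := by
            rw [mul_pow]
            ring
  -- conclusion
  have hfin : 4 * ∑ z ∈ s', (1 / ((g * wd x z : ℕ) : ℝ)) ≤
      4 * ((1 / g) * (3 ^ n * (B / Δ) + 2 * K * 4 ^ (n - 1) * (Θ / (g * B)) ^ (n - 1))) := by
    rw [hsplit]
    refine mul_le_mul_of_nonneg_left ?_ (by norm_num)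
    refine mul_le_mul_of_nonneg_left (add_le_add hsmall hlarge) (by positivity)
  refine hfin.trans ?_
  have p1 : 0 ≤ (B : ℝ) / Δ := by positivity
  have p2 : 0 ≤ (Θ / (g * B)) ^ (n - 1) := by positivity
  have p3 : 0 ≤ (3 : ℝ) ^ n := by positivity
  have p4 : 0 ≤ K * 4 ^ (n - 1) := by positivity
  have e10 : (4 * 3 ^ n + 8 * K * 4 ^ (n - 1)) / (g : ℝ) * (B / Δ + (Θ / (g * B)) ^ (n - 1)) -
      4 * ((1 / g) * (3 ^ n * (B / Δ) + 2 * K * 4 ^ (n - 1) * (Θ / (g * B)) ^ (n - 1))) =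
      (1 / g) * (8 * (K * 4 ^ (n - 1)) * (B / Δ) + 4 * 3 ^ n * (Θ / (g * B)) ^ (n - 1)) := by
    ring
  have e11 : 0 ≤ (1 / (g : ℝ)) * (8 * (K * 4 ^ (n - 1)) * (B / Δ) +
      4 * 3 ^ n * (Θ / (g * B)) ^ (n - 1)) := by positivity
  linarith

end Pool.Agent.HP
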