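import Pool.Agent.Lib.MP_fc0680_nt.Minor
import Pool.Agent.Lib.MP_fc0680_nt.CovM
import Pool.Agent.Lib.MP_fc0680_nt.Fib
import Pool.Agent.Lib.MP_fc0680_nt.PbDiff
import Pool.Agent.Lib.MP_fc0680_nt.Bez
import Pool.Agent.Lib.MP_fc0680_nt.GoodPair
import Pool.Agent.Lib.MP_fc0680_nt.SumA
import Pool.Agent.Lib.MP_fc0680_nt.GoodCount
import Pool.Agent.Lib.MP_fc0680_nt.Fourier
import Pool.Agent.Lib.MP_fc0680_nt.VarBound

/-!
# MP_fc0680_nt : assembly of the variance estimate for one block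
-/

set_option autoImplicit false
open Finset Filter

namespace Pool.Agent.HP

namespace VarA

/-- Integer root. -/
noncomputable def rt (K H : ℕ) : ℕ := Nat.findGreatest (fun r => r ^ K ≤ H) H

theorem rt_pow_le (K H : ℕ) (hK : K ≠ 0) : rt K H ^ K ≤ H := by
  have := @Nat.findGreatest_spec 0 (fun r => r ^ K ≤ H) _ H (Nat.zero_le _) (by simp [hK])
  exact this

theorem le_rt (K H r : ℕ) (hK : K ≠ 0) (h : r ^ K ≤ H) : r ≤ rt K H := by
  exact Nat.le_findGreatest (P := fun r => r ^ K ≤ H) ((Nat.le_self_pow hK r).trans h) h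

theorem lt_rt_succ (K H : ℕ) (hK : K ≠ 0) : H < (rt K H + 1) ^ K := by
  by_contra h
  push Not at h
  have := le_rt K H _ hK h
  omega

theorem rt_tendsto (K : ℕ) (hK : K ≠ 0) : Tendsto (rt K) atTop atTop := by
  rw [tendsto_atTop]
  intro b
  filter_upwards [eventually_ge_atTop (b ^ K)] with H hH
  exact le_rt K H b hK hH

theorem natAbs_le_nrm {N : ℕ} (x : Fin N → ℤ) (j : Fin N) : (x j).natAbs ≤ nrm x :=
  Finset.le_sup (f := fun j => (x j).natAbs) (mem_univ j)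

theorem mem_box {ι : Type} [Fintype ι] [DecidableEq ι] (H : ℕ) (c : ι → ℤ) :
    c ∈ box ι H ↔ ∀ i, (c i).natAbs ≤ H := by
  unfold box
  rw [Fintype.mem_piFinset]
  constructor
  · intro h i
    have := mem_Icc.1 (h i)
    omega
  · intro h i
    rw [mem_Icc]
    have := h i
    omega

theorem card_box {N : ℕ} (H : ℕ) : (box (Fin N) H).card = (2 * H + 1) ^ N := by
  unfold box
  rw [Fintype.card_piFinset, prod_const, Int.card_Icc, card_univ, Fintype.card_fin]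
  congr 1
  omega

theorem mem_shell {k : ℕ} {n : Fin k → ℕ} (X : Fin k → ℕ) (P : Pt n ℤ) :
    P ∈ shell n X ↔ Shell X P := by
  classical
  unfold shell
  rw [mem_filter]
  constructor
  · exact fun h => h.2
  · intro h
    refine ⟨?_, h⟩
    rw [Fintype.mem_piFinset]
    intro i
    rw [mem_box]
    intro j
    exact (natAbs_le_nrm (P i) j).trans (h i).2

theorem abs_bm_le {N D B : ℕ} (s : Mon N D) (x : Fin N → ℤ) (h : nrm x ≤ B) :
    |((bm s x : ℤ) : ℝ)| ≤ (B : ℝ) ^ D := by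
  unfold bm
  push_cast
  rw [abs_prod]
  calc ∏ j, |(x j : ℝ) ^ (s.1 j : ℕ)| ≤ ∏ j, (B : ℝ) ^ (s.1 j : ℕ) := by
        apply Finset.prod_le_prod
        · intros; positivity
        · intro j _
          rw [abs_pow]
          apply pow_le_pow_left₀ (abs_nonneg _)
          have h1 := (natAbs_le_nrm x j).trans h
          have h2 : |(x j : ℝ)| = ((x j).natAbs : ℝ) := by
            rw [Nat.cast_natAbs]; push_cast; rfl
          rw [h2]
          exact_mod_cast h1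
    _ = (B : ℝ) ^ D := by rw [prod_pow_eq_pow_sum, s.2]

theorem abs_mono_le {k : ℕ} {n d : Fin k → ℕ} (X : Fin k → ℕ) (P : Pt n ℤ) (h : Shell X P)
    (s : Exps n d) : |((mono s P : ℤ) : ℝ)| ≤ Sz d X := by
  unfold mono Sz
  push_cast
  rw [abs_prod]
  exact Finset.prod_le_prod (fun _ _ => abs_nonneg _) (fun i _ => abs_bm_le (s i) (P i) (h i).2)

theorem gd_comm {N : ℕ} (x y : Fin N → ℤ) : gd x y = gd y x := by
  unfold gd
  apply Finset.gcd_congr rfl
  intro p _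
  rw [← Int.natAbs_neg]
  congr 1
  ring

theorem prod_one {k : ℕ} {M : Type} [CommMonoid M] (i₀ : Fin k) (hk : ∀ j, j = i₀)
    (f : Fin k → M) : ∏ i, f i = f i₀ :=
  Fintype.prod_eq_single i₀ (fun j hj => absurd (hk j) hj)

/-- Sum over pairs of points. -/
theorem pair_sum {N : ℕ} (F : Finset (Fin N → ℤ)) (a b ε' θB : ℝ) (w : ℕ) (ha : 0 ≤ a)
    (hb : 0 ≤ b) (hε : 0 ≤ ε') (hF : ∀ x ∈ F, Umod x) :
    ∑ x ∈ F, ∑ y ∈ F, (if wd x y ≠ 0 ∧ gd x y ≤ w ∧ θB ≤ (wd x y : ℝ) then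
        ε' * (if wd x y ≠ 0 then a * ((gd x y : ℝ) / wd x y) else b)
      else 5 * (if wd x y ≠ 0 then a * ((gd x y : ℝ) / wd x y) else b)) ≤
    ε' * a * (∑ x ∈ F, ∑ y ∈ F.filter (fun y => wd x y ≠ 0), ((gd x y : ℝ) / (wd x y : ℝ))) +
    5 * a * (∑ x ∈ F, ∑ y ∈ F.filter (fun y => wd x y ≠ 0 ∧ (w < gd x y ∨ (wd x y : ℝ) < θB)),
      ((gd x y : ℝ) / (wd x y : ℝ))) + 10 * b * F.card := by
  have key : ∀ x ∈ F, ∑ y ∈ F, (if wd x y ≠ 0 ∧ gd x y ≤ w ∧ θB ≤ (wd x y : ℝ) then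
        ε' * (if wd x y ≠ 0 then a * ((gd x y : ℝ) / wd x y) else b)
      else 5 * (if wd x y ≠ 0 then a * ((gd x y : ℝ) / wd x y) else b)) ≤
      ε' * a * (∑ y ∈ F.filter (fun y => wd x y ≠ 0), ((gd x y : ℝ) / (wd x y : ℝ))) +
      5 * a * (∑ y ∈ F.filter (fun y => wd x y ≠ 0 ∧ (w < gd x y ∨ (wd x y : ℝ) < θB)),
      ((gd x y : ℝ) / (wd x y : ℝ))) + 10 * b := by
    intro x hx
    have h3 : ∑ y ∈ F.filter (fun y => wd x y = 0), (5 * b) ≤ 10 * b := by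
      rw [sum_const, nsmul_eq_mul]
      have hc : (F.filter (fun y => wd x y = 0)).card ≤ 2 := by
        have hsub : F.filter (fun y => wd x y = 0) ⊆ {x, -x} := by
          intro y hy
          rw [mem_filter] at hy
          rw [mem_insert, mem_singleton]
          exact wd_eq_zero_of_prim x y (hF x hx) (hF y hy.1) hy.2
        exact (card_le_card hsub).trans card_le_two
      have hc' : ((F.filter (fun y => wd x y = 0)).card : ℝ) ≤ 2 := by exact_mod_cast hc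
      nlinarith
    calc _ ≤ ∑ y ∈ F, ((if wd x y ≠ 0 then ε' * a * ((gd x y : ℝ) / wd x y) else 0) +
          (if wd x y ≠ 0 ∧ (w < gd x y ∨ (wd x y : ℝ) < θB) then
            5 * a * ((gd x y : ℝ) / wd x y) else 0) +
          (if wd x y = 0 then 5 * b else 0)) := by
          apply sum_le_sum
          intro y _
          have hq : 0 ≤ (gd x y : ℝ) / wd x y := by positivity
          have h1 : 0 ≤ ε' * a * ((gd x y : ℝ) / wd x y) := by positivity
          have h2 : 0 ≤ 5 * a * ((gd x y : ℝ) / wd x y) := by positivity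
          by_cases h0 : wd x y = 0
          · simp [h0]
          · by_cases hg : gd x y ≤ w ∧ θB ≤ (wd x y : ℝ)
            · rw [if_pos ⟨h0, hg⟩, if_pos h0, if_pos h0, if_neg h0]
              split_ifs <;> nlinarith
            · have hg' : w < gd x y ∨ (wd x y : ℝ) < θB := by
                by_contra hcon
                push Not at hcon
                exact hg hcon
              rw [if_neg (fun h => hg h.2), if_pos h0, if_pos h0, if_pos ⟨h0, hg'⟩, if_neg h0]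
              nlinarith
      _ ≤ _ := by
          rw [sum_add_distrib, sum_add_distrib, ← sum_filter, ← sum_filter, ← sum_filter,
            ← mul_sum, ← mul_sum]
          linarith
  calc _ ≤ ∑ x ∈ F, (ε' * a * (∑ y ∈ F.filter (fun y => wd x y ≠ 0),
        ((gd x y : ℝ) / (wd x y : ℝ))) +
      5 * a * (∑ y ∈ F.filter (fun y => wd x y ≠ 0 ∧ (w < gd x y ∨ (wd x y : ℝ) < θB)),
      ((gd x y : ℝ) / (wd x y : ℝ))) + 10 * b) := sum_le_sum key
    _ = _ := by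
      rw [sum_add_distrib, sum_add_distrib, ← mul_sum, ← mul_sum, sum_const, nsmul_eq_mul]
      ring

theorem goodspan (n R : ℕ) (hn : 1 ≤ n) (hR : 2 ≤ R) (x : Fin (n + 1) → ℤ) (hx : Umod x)
    (hs : Sep (R ^ 11) x) (hB : nrm x ≤ R ^ 18) :
    GoodSpan ((n + 1) * (2 * 19 * R ^ 8 + 1)) x := by
  apply goodspan_of_sep n 19 (R ^ 8) (R ^ 11) (R ^ 18) hn x hx (Nat.one_le_pow _ _ (by omega)) hs
    hB (Nat.one_le_pow _ _ (by omega))
  have hR' : (2 : ℝ) ≤ R := by exact_mod_cast hR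
  have hR0 : (R : ℝ) ≠ 0 := by positivity
  push_cast
  have h1 : (R : ℝ) ^ 18 / (R : ℝ) ^ 11 = (R : ℝ) ^ 7 := by
    rw [div_eq_iff (by positivity)]; ring
  rw [h1, ← pow_mul, ← pow_mul, ← pow_add]
  exact pow_lt_pow_right₀ (by linarith) (by norm_num)

theorem inj_pt {k : ℕ} {n : Fin k → ℕ} (i₀ : Fin k) (hk : ∀ j, j = i₀) (F : Finset (Pt n ℤ)) :
    Set.InjOn (fun P : Pt n ℤ => P i₀) F := by
  intro P _ Q _ h
  funext i
  have hi := hk i
  subst hi
  exact h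

theorem clause3 {k : ℕ} (n : Fin k → ℕ) (i₀ : Fin k) (hk : ∀ j, j = i₀) (hn : 3 ≤ n i₀) (C : ℝ)
    (hC : 0 < C)
    (Hgood : ∀ (B Δ : ℕ), 1 ≤ Δ → 2 * Δ ≤ B →
      ∀ F : Finset (Fin (n i₀ + 1) → ℤ),
        (∀ x ∈ F, B < 2 * nrm x ∧ nrm x ≤ B ∧ Umod x ∧ ¬ Sep Δ x) →
      (F.card : ℝ) ≤ C * (B : ℝ) ^ 2 * (Δ : ℝ) ^ n i₀) (R : ℕ) (hR : 2 ≤ R) (ε : ℝ)
    (hε : C ≤ ε * R) (F : Finset (Pt n ℤ))
    (hF : ∀ P ∈ F, Shell (fun _ => R ^ 18) P ∧ (∀ i, Umod (P i)) ∧ ¬ Sep (R ^ 11) (P i₀)) :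
    (F.card : ℝ) ≤ ε * Vol n (fun _ => R ^ 18) := by
  classical
  have hR' : (2 : ℝ) ≤ R := by exact_mod_cast hR
  have hcard : (F.image fun P : Pt n ℤ => P i₀).card = F.card :=
    card_image_of_injOn (inj_pt i₀ hk F)
  have h1 := Hgood (R ^ 18) (R ^ 11) (Nat.one_le_pow _ _ (by omega)) (by
    calc 2 * R ^ 11 ≤ R ^ 7 * R ^ 11 := by
          apply Nat.mul_le_mul_right
          exact hR.trans (Nat.le_self_pow (by norm_num) R)
      _ = R ^ 18 := by ring) (F.image fun P : Pt n ℤ => P i₀) (by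
    intro x hx
    rw [mem_image] at hx
    obtain ⟨P, hP, rfl⟩ := hx
    have := hF P hP
    exact ⟨(this.1 i₀).1, (this.1 i₀).2, this.2.1 i₀, this.2.2⟩)
  rw [hcard] at h1
  unfold Vol
  rw [prod_one i₀ hk]
  refine h1.trans ?_
  push_cast
  have h0 : 0 ≤ ε * R := hC.le.trans hε
  calc C * ((R : ℝ) ^ 18) ^ 2 * ((R : ℝ) ^ 11) ^ n i₀
      ≤ (ε * R) * ((R : ℝ) ^ 18) ^ 2 * ((R : ℝ) ^ 11) ^ n i₀ := by gcongr
    _ = ε * (R : ℝ) ^ (37 + 11 * n i₀) := by
        rw [← pow_mul, ← pow_mul]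
        ring
    _ ≤ ε * ((R : ℝ) ^ 18) ^ (n i₀ + 1) := by
        have hε0 : 0 ≤ ε := by
          by_contra hcon
          push Not at hcon
          nlinarith
        apply mul_le_mul_of_nonneg_left _ hε0
        rw [← pow_mul]
        exact pow_le_pow_right₀ (by linarith) (by omega)

/-- Final arithmetic. -/
theorem arith (ε A D R w θ ε' : ℝ) (hA : 0 < A) (hε : 0 < ε) (hR : 1 ≤ R) (hw : 0 < w)
    (he : ε' = ε / (8 * A)) (hθ : θ ≤ ε / (20 * A)) (hw' : 20 * A / ε ≤ w)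
    (hR' : 4 * (5 * A + D) / ε ≤ R) :
    ε' * A * (1 + 1 / R) + 5 * A * (1 / w + θ + 1 / R) + D / R ≤ ε := by
  have hR0 : 0 < R := by linarith
  have h1 : ε' * A * (1 + 1 / R) ≤ ε / 4 := by
    have : 1 / R ≤ 1 := by rw [div_le_one hR0]; exact hR
    have h2 : ε' * A = ε / 8 := by rw [he]; field_simp
    rw [h2]
    nlinarith
  have h2 : 5 * A * (1 / w) ≤ ε / 4 := by
    rw [div_le_iff₀ hε] at hw'
    rw [mul_one_div, div_le_iff₀ hw]
    nlinarith
  have h3 : 5 * A * θ ≤ ε / 4 := by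
    calc 5 * A * θ ≤ 5 * A * (ε / (20 * A)) := by gcongr
      _ = ε / 4 := by field_simp; norm_num
  have h4 : 5 * A * (1 / R) + D / R ≤ ε / 4 := by
    rw [mul_one_div, ← add_div, div_le_iff₀ hR0]
    rw [div_le_iff₀ hε] at hR'
    nlinarith
  nlinarith

/-- Bound for the number of forms with prescribed values at two points. -/
theorem pair_bound {k : ℕ} (n d : Fin k → ℕ) (i₀ : Fin k) (hk : ∀ j, j = i₀) (hn : 3 ≤ n i₀)
    (hd : 2 ≤ d i₀) : ∃ Cp Cd C₃ : ℝ, 0 < Cp ∧ 0 < Cd ∧ 0 < C₃ ∧ ∀ (R H : ℕ), 2 ≤ R →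
    R ^ 17 ≤ H → C₃ ≤ R → ∀ P P' : Pt n ℤ,
    Shell (fun _ => R ^ 18) P → Shell (fun _ => R ^ 18) P' → (∀ i, Umod (P i)) →
    (∀ i, Umod (P' i)) → Sep (R ^ 11) (P i₀) → Sep (R ^ 11) (P' i₀) →
    (wd (P i₀) (P' i₀) ≠ 0 → ∃ ρ : ℕ, (ρ : ℝ) ≤ C₃ / R * H ∧
      Cov2 ρ (fun s : Exps n d => mono s P) (fun s => mono s P')) ∧
    ∀ w w' : ℤ, (((box (Exps n d) H).filter fun c => evZ c P = w ∧ evZ c P' = w').card : ℝ) ≤
      if wd (P i₀) (P' i₀) ≠ 0 then
        Cp * (2 * (H : ℝ) + 1) ^ Fintype.card (Exps n d) * ((R : ℝ) ^ 18) ^ 2 /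
          ((H : ℝ) ^ 2 * Sz d (fun _ => R ^ 18) ^ 2) *
          ((gd (P i₀) (P' i₀) : ℝ) / wd (P i₀) (P' i₀))
      else Cd * (2 * (H : ℝ) + 1) ^ Fintype.card (Exps n d) / (H * Sz d (fun _ => R ^ 18)) := by
  have hn1 : ∀ i, 1 ≤ n i := fun i => by rw [hk i]; omega
  have hd1 : ∀ i, 1 ≤ d i := fun i => by rw [hk i]; omega
  obtain ⟨Ccov, hCcov, Hcov⟩ := cov2_single n d i₀ hk hd
  obtain ⟨Cd, hCd, Hdiag⟩ := pb_diag n d i₀ hn1 hd1
  obtain ⟨Cp, hCp, Hdiff⟩ := pb_diff n d hn1 hd1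
  have hCcov' : (1 : ℝ) ≤ Ccov := by exact_mod_cast hCcov
  have hCd' : (1 : ℝ) ≤ Cd := by exact_mod_cast hCd
  refine ⟨Cp, Cd, Ccov * ((n i₀ + 1) * 39) ^ 2 * Cd, by exact_mod_cast hCp, by exact_mod_cast hCd,
    by positivity, ?_⟩
  intro R H hR hRH hC3 P P' hP hP' hU hU' hS hS'
  have hR' : (2 : ℝ) ≤ R := by exact_mod_cast hR
  have hRpos : (0 : ℝ) < R := by linarith
  have hRH' : (R : ℝ) ^ 17 ≤ H := by exact_mod_cast hRH
  have hR17 : (R : ℝ) ≤ (R : ℝ) ^ 17 := le_self_pow₀ (by linarith) (by norm_num)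
  have hH1 : 1 ≤ H := (Nat.one_le_pow _ _ (by omega)).trans hRH
  have hHpos : (0 : ℝ) < H := by exact_mod_cast hH1
  set μ : ℕ := (n i₀ + 1) * (2 * 19 * R ^ 8 + 1) with hμ
  have hμ1 : 1 ≤ μ := Nat.mul_pos (by omega) (by omega)
  have hμR : (μ : ℝ) ≤ (n i₀ + 1) * 39 * (R : ℝ) ^ 8 := by
    have h8 : (1 : ℝ) ≤ (R : ℝ) ^ 8 := one_le_pow₀ (by linarith)
    have hnn : (0 : ℝ) ≤ (n i₀ : ℝ) + 1 := by positivity
    rw [hμ]
    push_cast
    nlinarith
  have hG : GoodSpan μ (P i₀) := goodspan (n i₀) R (by omega) hR (P i₀) (hU i₀) hS (hP i₀).2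
  have hG' : GoodSpan μ (P' i₀) :=
    goodspan (n i₀) R (by omega) hR (P' i₀) (hU' i₀) hS' (hP' i₀).2
  have hρ : ((Ccov * μ ^ 2 : ℕ) : ℝ) ≤ Ccov * ((n i₀ + 1) * 39) ^ 2 * (R : ℝ) ^ 16 := by
    push_cast
    calc (Ccov : ℝ) * (μ : ℝ) ^ 2 ≤ Ccov * ((n i₀ + 1) * 39 * (R : ℝ) ^ 8) ^ 2 := by gcongr
      _ = _ := by ring
  have hρ2 : ((Ccov * μ ^ 2 : ℕ) : ℝ) ≤ Ccov * ((n i₀ + 1) * 39) ^ 2 * Cd / R * H := by
    refine hρ.trans ?_
    calc (Ccov : ℝ) * ((n i₀ + 1) * 39) ^ 2 * (R : ℝ) ^ 16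
        = Ccov * ((n i₀ + 1) * 39) ^ 2 * 1 / R * (R : ℝ) ^ 17 := by field_simp
      _ ≤ _ := by gcongr
  have hρH : Ccov * μ ^ 2 ≤ H := by
    have : ((Ccov * μ ^ 2 : ℕ) : ℝ) ≤ H := by
      refine hρ2.trans ?_
      calc _ ≤ (1 : ℝ) * H := by
            apply mul_le_mul_of_nonneg_right _ hHpos.le
            rw [div_le_one hRpos]
            exact hC3
        _ = H := one_mul _
    exact_mod_cast this
  have hC3' : (Cd : ℝ) ≤ R := by
    refine le_trans ?_ hC3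
    have : (1 : ℝ) ≤ Ccov * ((n i₀ + 1) * 39) ^ 2 := by
      have h1 : (1 : ℝ) ≤ ((n i₀ : ℝ) + 1) * 39 := by
        have : (0 : ℝ) ≤ n i₀ := by positivity
        linarith
      have h2 : (1 : ℝ) ≤ (((n i₀ : ℝ) + 1) * 39) ^ 2 := one_le_pow₀ h1
      nlinarith
    nlinarith
  have hprod : ∏ j ∈ univ.erase i₀, (R ^ 18) ^ d j = 1 := by
    apply prod_eq_one
    intro j hj
    exact absurd (hk j) (mem_erase.1 hj).1
  have hSpos : 0 < Sz d (fun _ => R ^ 18) := by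
    unfold Sz
    apply prod_pos
    intro i _
    positivity
  refine ⟨fun h0 => ⟨Ccov * μ ^ 2, hρ2, Hcov μ P P' hμ1 hG hG' h0⟩, ?_⟩
  intro w w'
  split_ifs with h0
  · have h1 := Hdiff (fun _ => R ^ 18) H (Ccov * μ ^ 2) (gd (P i₀) (P' i₀)) P P' w w' hH1 hρH
      ((gd_pos_iff _ _).2 h0) hP hP' hU (Hcov μ P P' hμ1 hG hG' h0) (by
        obtain ⟨l, hl1, hl2⟩ := exists_lin (P i₀) (P' i₀)
        obtain ⟨b, hb1, hb2⟩ := bez_lin (n := n) (d := d) P P' hU' i₀ (hd1 i₀) l hl1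
        exact ⟨b, hb1, hb2.trans hl2⟩) i₀
    have hwd : (0 : ℝ) < wd (P i₀) (P' i₀) := by
      have := Nat.pos_of_ne_zero h0
      exact_mod_cast this
    rw [div_mul_div_comm, le_div_iff₀ (by positivity)]
    push_cast at h1
    linarith
  · have h1 := Hdiag (fun _ => R ^ 18) H μ P w hH1 hμ1 hP hU hG (by
        rw [hprod, mul_one]
        have : (Cd : ℝ) ≤ H := hC3'.trans (hR17.trans hRH')
        exact_mod_cast this) (by
        rw [hprod, mul_one]
        have : ((Cd * μ : ℕ) : ℝ) ≤ H := by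
          push_cast
          refine le_trans ?_ hRH'
          have hμ2 : (μ : ℝ) ≤ (R : ℝ) ^ 16 := by
            have h39 : ((n i₀ : ℝ) + 1) * 39 ≤ R := by
              refine le_trans ?_ hC3
              have h1 : (1 : ℝ) ≤ ((n i₀ : ℝ) + 1) * 39 := by
                have : (0 : ℝ) ≤ n i₀ := by positivity
                linarith
              calc ((n i₀ : ℝ) + 1) * 39 = 1 * (((n i₀ : ℝ) + 1) * 39) ^ 1 * 1 := by ring
                _ ≤ Ccov * (((n i₀ : ℝ) + 1) * 39) ^ 2 * Cd := by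
                    gcongr
                    norm_num
            calc (μ : ℝ) ≤ (n i₀ + 1) * 39 * (R : ℝ) ^ 8 := hμR
              _ ≤ R * (R : ℝ) ^ 8 := by gcongr
              _ = (R : ℝ) ^ 9 := by ring
              _ ≤ (R : ℝ) ^ 16 := pow_le_pow_right₀ (by linarith) (by norm_num)
          calc (Cd : ℝ) * μ ≤ R * (R : ℝ) ^ 16 := by gcongr
            _ = (R : ℝ) ^ 17 := by ring
        exact_mod_cast this)
    rw [le_div_iff₀ (by positivity)]
    refine le_trans ?_ h1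
    gcongr
    exact fun hc => hc.1

/-- Real arithmetic of the main estimate. -/
theorem total (nn e dd K : ℕ) (hed : nn + 1 = e + dd) (hK : K + 1 = 18 * e) (hnn : 3 ≤ nn)
    (Cp Cd Ca R H L Fc ε' w θ S1 S2 : ℝ) (hCp : 0 < Cp) (hCd : 0 < Cd) (hCa : 0 < Ca)
    (hR : 2 ≤ R) (hHpos : 0 < H) (hH : H ≤ (2 * R) ^ K) (hL : 0 < L) (hε' : 0 ≤ ε')
    (hFc : Fc ≤ 3 ^ (nn + 1) * (R ^ 18) ^ (nn + 1))
    (hS1 : S1 ≤ Ca * ((R ^ 18) ^ (2 * nn) + (R ^ 18) ^ (nn + 4) / (R ^ 11) ^ 2))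
    (hS2 : S2 ≤ Ca * ((R ^ 18) ^ (2 * nn) * (1 / w + θ) + (R ^ 18) ^ (nn + 4) / (R ^ 11) ^ 2)) :
    ε' * (Cp * L * (R ^ 18) ^ 2 / (H ^ 2 * ((R ^ 18) ^ dd) ^ 2)) * S1 +
      5 * (Cp * L * (R ^ 18) ^ 2 / (H ^ 2 * ((R ^ 18) ^ dd) ^ 2)) * S2 +
      10 * (Cd * L / (H * (R ^ 18) ^ dd)) * Fc ≤
    (ε' * (Cp * Ca) * (1 + 1 / R) + 5 * (Cp * Ca) * (1 / w + θ + 1 / R) +
      (10 * 3 ^ (nn + 1) * Cd * 2 ^ K) / R) * ((R ^ 18) ^ (nn + 1) / (H * (R ^ 18) ^ dd)) ^ 2 *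
      L := by
  have hRpos : 0 < R := by linarith
  have hB : 0 < R ^ 18 := by positivity
  set B := R ^ 18 with hBdef
  set E := B ^ (nn + 1) / (H * B ^ dd) with hE
  have hEpos : 0 < E := by positivity
  -- the error term
  have herr : B ^ (nn + 4) / (R ^ 11) ^ 2 ≤ B ^ (2 * nn) * (1 / R) := by
    rw [mul_one_div, div_le_div_iff₀ (by positivity) hRpos, hBdef, ← pow_mul, ← pow_mul,
      ← pow_mul, ← pow_succ, ← pow_add]
    exact pow_le_pow_right₀ (by linarith) (by omega)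
  have haE : Cp * L * B ^ 2 / (H ^ 2 * (B ^ dd) ^ 2) * B ^ (2 * nn) = Cp * L * E ^ 2 := by
    rw [hE, div_pow, mul_pow]
    field_simp
    ring
  have ha : 0 < Cp * L * B ^ 2 / (H ^ 2 * (B ^ dd) ^ 2) := by positivity
  have hb : 0 < Cd * L / (H * B ^ dd) := by positivity
  set a := Cp * L * B ^ 2 / (H ^ 2 * (B ^ dd) ^ 2) with ha_def
  set b := Cd * L / (H * B ^ dd) with hb_def
  have h1 : ε' * a * S1 ≤ ε' * (Cp * Ca) * (1 + 1 / R) * E ^ 2 * L := by
    have : S1 ≤ Ca * (B ^ (2 * nn) * (1 + 1 / R)) := by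
      refine hS1.trans ?_
      apply mul_le_mul_of_nonneg_left _ hCa.le
      nlinarith
    calc ε' * a * S1 ≤ ε' * a * (Ca * (B ^ (2 * nn) * (1 + 1 / R))) :=
          mul_le_mul_of_nonneg_left this (by positivity)
      _ = ε' * Ca * (1 + 1 / R) * (a * B ^ (2 * nn)) := by ring
      _ = _ := by rw [haE]; ring
  have h2 : 5 * a * S2 ≤ 5 * (Cp * Ca) * (1 / w + θ + 1 / R) * E ^ 2 * L := by
    have : S2 ≤ Ca * (B ^ (2 * nn) * (1 / w + θ + 1 / R)) := by
      refine hS2.trans ?_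
      apply mul_le_mul_of_nonneg_left _ hCa.le
      nlinarith
    calc 5 * a * S2 ≤ 5 * a * (Ca * (B ^ (2 * nn) * (1 / w + θ + 1 / R))) :=
          mul_le_mul_of_nonneg_left this (by positivity)
      _ = 5 * Ca * (1 / w + θ + 1 / R) * (a * B ^ (2 * nn)) := by ring
      _ = _ := by rw [haE]; ring
  have hElow : R / 2 ^ K ≤ E := by
    rw [hE, hed, pow_add, div_le_div_iff₀ (by positivity) (by positivity)]
    have hBe : B ^ e = R ^ K * R := by rw [hBdef, ← pow_mul, ← pow_succ, hK]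
    rw [hBe]
    calc R * (H * B ^ dd) ≤ R * ((2 * R) ^ K * B ^ dd) := by gcongr
      _ = _ := by rw [mul_pow]; ring
  have h3 : 10 * b * Fc ≤ (10 * 3 ^ (nn + 1) * Cd * 2 ^ K) / R * E ^ 2 * L := by
    calc 10 * b * Fc ≤ 10 * b * (3 ^ (nn + 1) * B ^ (nn + 1)) :=
          mul_le_mul_of_nonneg_left hFc (by positivity)
      _ = 10 * 3 ^ (nn + 1) * Cd * L * E := by
          rw [hb_def, hE]
          field_simp
      _ = 10 * 3 ^ (nn + 1) * Cd * L * E * (2 ^ K / R * (R / 2 ^ K)) := by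
          field_simp
      _ ≤ 10 * 3 ^ (nn + 1) * Cd * L * E * (2 ^ K / R * E) := by gcongr
      _ = _ := by ring
  nlinarith

end VarA

theorem varA {k : ℕ} (n d : Fin k → ℕ) (i₀ : Fin k) (hk : ∀ j, j = i₀) (hn : 3 ≤ n i₀)
    (hd : 2 ≤ d i₀) (hdn : d i₀ ≤ n i₀) : VarProp n d := by
  classical
  have hn1 : ∀ i, 1 ≤ n i := fun i => by rw [hk i]; omega
  have hd1 : ∀ i, 1 ≤ d i := fun i => by rw [hk i]; omega
  obtain ⟨Cm, hCm, Hminor⟩ := minor_multi n d hd1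
  obtain ⟨Cp, Cd, C₃, hCp, hCd, hC₃, Hpair⟩ := VarA.pair_bound n d i₀ hk hn hd
  obtain ⟨Ca, hCa, Hsum⟩ := suma (n i₀) hn
  obtain ⟨Cg, hCg, Hgood⟩ := goodcount (n i₀) (by omega)
  set e := n i₀ + 1 - d i₀ with he
  set K := 18 * e - 1 with hK
  have hK17 : 17 ≤ K := by omega
  have hrt := VarA.rt_tendsto K (by omega)
  refine ⟨fun H _ => VarA.rt K H ^ 18, fun H => (shell n (fun _ => VarA.rt K H ^ 18)).filter
    (fun P => (∀ i, Umod (P i)) ∧ Sep (VarA.rt K H ^ 11) (P i₀)), ?_, ?_, ?_, ?_⟩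
  · intro i
    exact (tendsto_pow_atTop (by norm_num)).comp hrt
  · intro H P hP
    rw [mem_filter, VarA.mem_shell] at hP
    exact ⟨hP.1, hP.2.1⟩
  · intro ε hε
    filter_upwards [hrt.eventually_ge_atTop (max 2 ⌈Cg / ε⌉₊)] with H hH F hF
    apply VarA.clause3 n i₀ hk hn Cg hCg Hgood (VarA.rt K H) ((le_max_left _ _).trans hH) ε _ F
    · intro P hP
      obtain ⟨h1, h2, h3⟩ := hF P hP
      refine ⟨h1, h2, fun h4 => h3 ?_⟩
      rw [mem_filter, VarA.mem_shell]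
      exact ⟨h1, h2, h4⟩
    · have h1 : (⌈Cg / ε⌉₊ : ℝ) ≤ VarA.rt K H := by exact_mod_cast (le_max_right _ _).trans hH
      have h2 := (Nat.le_ceil (Cg / ε)).trans h1
      rw [div_le_iff₀ hε] at h2
      linarith
  · intro ε hε
    set A := Cp * Ca with hA
    have hApos : 0 < A := by positivity
    set D := 10 * 3 ^ (n i₀ + 1) * Cd * 2 ^ K with hD
    set ε' := ε / (8 * A) with hε'
    have hε'pos : 0 < ε' := by positivity
    set θ := min 1 (ε / (20 * A)) with hθ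
    have hθpos : 0 < θ := lt_min one_pos (by positivity)
    obtain ⟨δ₀, hδ₀, Hgp⟩ := goodpair (Fintype.card (Exps n d)) ε' (Cm * θ) hε'pos
      (by positivity)
    refine ⟨⌈20 * A / ε⌉₊ + 1, δ₀, hδ₀, ?_⟩
    intro W hW hWdvd δ hδ hδ'
    obtain ⟨H₀, ρ₀, hρ₀, Hgp'⟩ := Hgp δ hδ hδ' W hW
    filter_upwards [hrt.eventually_ge_atTop
      (max (max 2 ⌈C₃⌉₊) (max ⌈C₃ / ρ₀⌉₊ ⌈4 * (5 * A + D) / ε⌉₊)),
      eventually_ge_atTop (max (max 1 H₀) ⌈(W : ℝ) / δ⌉₊)] with H hHR hHH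
    set R := VarA.rt K H with hRdef
    set w := ⌈20 * A / ε⌉₊ + 1 with hw
    have hR2 : 2 ≤ R := ((le_max_left _ _).trans (le_max_left _ _)).trans hHR
    have hRC₃ : C₃ ≤ R := (Nat.le_ceil _).trans
      (by exact_mod_cast ((le_max_right _ _).trans (le_max_left _ _)).trans hHR)
    have hRρ : C₃ / ρ₀ ≤ R := (Nat.le_ceil _).trans
      (by exact_mod_cast ((le_max_left _ _).trans (le_max_right _ _)).trans hHR)
    have hRD : 4 * (5 * A + D) / ε ≤ R := (Nat.le_ceil _).trans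
      (by exact_mod_cast ((le_max_right _ _).trans (le_max_right _ _)).trans hHR)
    have hH1 : 1 ≤ H := ((le_max_left _ _).trans (le_max_left _ _)).trans hHH
    have hHH₀ : H₀ ≤ H := ((le_max_right _ _).trans (le_max_left _ _)).trans hHH
    have hHW : (W : ℝ) / δ ≤ H := (Nat.le_ceil _).trans
      (by exact_mod_cast (le_max_right _ _).trans hHH)
    have hR2' : (2 : ℝ) ≤ R := by exact_mod_cast hR2
    have hRpos : (0 : ℝ) < R := by linarith
    have hHpos : (0 : ℝ) < H := by exact_mod_cast hH1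
    have hRK : R ^ K ≤ H := VarA.rt_pow_le K H (by omega)
    have hR17 : R ^ 17 ≤ H := (Nat.pow_le_pow_right (by omega) hK17).trans hRK
    have hHR' : (H : ℝ) ≤ (2 * (R : ℝ)) ^ K := by
      have h1 := (VarA.lt_rt_succ K H (by omega)).le
      rw [← hRdef] at h1
      have h2 : (H : ℝ) ≤ ((R : ℝ) + 1) ^ K := by exact_mod_cast h1
      refine h2.trans ?_
      gcongr
      linarith
    have hSz : Sz d (fun _ => R ^ 18) = ((R : ℝ) ^ 18) ^ d i₀ := by
      unfold Sz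
      rw [VarA.prod_one i₀ hk]
      push_cast
      rfl
    have hVol : Vol n (fun _ => R ^ 18) = ((R : ℝ) ^ 18) ^ (n i₀ + 1) := by
      unfold Vol
      rw [VarA.prod_one i₀ hk]
      push_cast
      rfl
    have hS1 : 1 ≤ Sz d (fun _ => R ^ 18) := by
      rw [hSz]
      exact one_le_pow₀ (one_le_pow₀ (by linarith))
    have hWV : (W : ℝ) ≤ δ * H * Sz d (fun _ => R ^ 18) := by
      rw [div_le_iff₀ hδ] at hHW
      have : 0 < δ * H := by positivity
      nlinarith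
    set Ps := (shell n (fun _ => R ^ 18)).filter
      (fun P => (∀ i, Umod (P i)) ∧ Sep (R ^ 11) (P i₀)) with hPs
    have hmem : ∀ P ∈ Ps, Shell (fun _ => R ^ 18) P ∧ (∀ i, Umod (P i)) ∧
        Sep (R ^ 11) (P i₀) := by
      intro P hP
      rw [hPs, mem_filter, VarA.mem_shell] at hP
      exact hP
    set L := (2 * (H : ℝ) + 1) ^ Fintype.card (Exps n d) with hL
    have hLpos : 0 < L := by positivity
    set a := Cp * L * ((R : ℝ) ^ 18) ^ 2 / ((H : ℝ) ^ 2 * Sz d (fun _ => R ^ 18) ^ 2) with ha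
    set b := Cd * L / (H * Sz d (fun _ => R ^ 18)) with hb
    have hapos : 0 < a := by positivity
    have hbpos : 0 < b := by positivity
    have hvar := var_bound (n := n) (d := d) Ps H W (δ * H * Sz d (fun _ => R ^ 18)) ε' hW hWV
      hε'pos.le
      (fun P P' => if wd (P i₀) (P' i₀) ≠ 0 then
        a * ((gd (P i₀) (P' i₀) : ℝ) / wd (P i₀) (P' i₀)) else b)
      (fun P P' => wd (P i₀) (P' i₀) ≠ 0 ∧ gd (P i₀) (P' i₀) ≤ w ∧
        θ * (((R ^ 18 : ℕ) : ℝ)) ^ 2 ≤ (wd (P i₀) (P' i₀) : ℝ))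
      (fun P hP P' hP' v v' => by
        obtain ⟨h1, h2, h3⟩ := hmem P hP
        obtain ⟨h1', h2', h3'⟩ := hmem P' hP'
        exact (Hpair R H hR2 hR17 hRC₃ P P' h1 h1' h2 h2' h3 h3').2 v v')
      (fun P hP P' hP' hgood => by
        obtain ⟨h1, h2, h3⟩ := hmem P hP
        obtain ⟨h1', h2', h3'⟩ := hmem P' hP'
        obtain ⟨hg0, hg1, hg2⟩ := hgood
        obtain ⟨ρ, hρ1, hρ2⟩ := (Hpair R H hR2 hR17 hRC₃ P P' h1 h1' h2 h2' h3 h3').1 hg0
        obtain ⟨s, s', hss⟩ := Hminor (fun _ => R ^ 18) P P' h1 h1' i₀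
        have hgpos : 0 < gd (P i₀) (P' i₀) := (gd_pos_iff _ _).2 hg0
        obtain ⟨W', hW'⟩ := hWdvd (gd (P i₀) (P' i₀)) hgpos hg1
        refine Hgp' (Exps n d) rfl _ _ (Sz d (fun _ => R ^ 18)) H ρ s s' hS1
          (VarA.abs_mono_le _ P h1) (VarA.abs_mono_le _ P' h1') hHH₀ ?_ ?_ hρ2 ?_ ?_
        · refine hρ1.trans ?_
          apply mul_le_mul_of_nonneg_right _ hHpos.le
          rw [div_le_iff₀ hRpos]
          rw [div_le_iff₀ hρ₀] at hRρ
          linarith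
        · have hB : (0 : ℝ) < ((R ^ 18 : ℕ) : ℝ) ^ 2 := by push_cast; positivity
          have h5 : Cm * Sz d (fun _ => R ^ 18) ^ 2 * (θ * ((R ^ 18 : ℕ) : ℝ) ^ 2) ≤
              Cm * Sz d (fun _ => R ^ 18) ^ 2 * (wd (P i₀) (P' i₀) : ℝ) :=
            mul_le_mul_of_nonneg_left hg2 (by positivity)
          have h6 := h5.trans hss
          have h7 : ((R ^ 18 : ℕ) : ℝ) ^ 2 * (Cm * θ * Sz d (fun _ => R ^ 18) ^ 2) ≤
              ((R ^ 18 : ℕ) : ℝ) ^ 2 *
                |((mono s P * mono s' P' - mono s' P * mono s P' : ℤ) : ℝ)| := by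
            linarith
          exact le_of_mul_le_mul_left h7 hB
        · obtain ⟨l, hl1, hl2⟩ := exists_lin (P' i₀) (P i₀)
          obtain ⟨b, hb1, hb2⟩ := bez_lin (n := n) (d := d) P' P h2 i₀ (hd1 i₀) l hl1
          rw [hl2, VarA.gd_comm] at hb2
          refine ⟨fun s => W' * b s, ?_, ?_⟩
          · calc ∑ i, ((W' : ℤ) * b i) * mono i P = W' * ev b P := by
                  unfold ev
                  rw [mul_sum]
                  exact sum_congr rfl (fun _ _ => by ring)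
              _ = W := by rw [hb2, hW']; push_cast; ring
          · calc ∑ i, ((W' : ℤ) * b i) * mono i P' = W' * ev b P' := by
                  unfold ev
                  rw [mul_sum]
                  exact sum_congr rfl (fun _ _ => by ring)
              _ = 0 := by rw [hb1, mul_zero]
        · obtain ⟨l, hl1, hl2⟩ := exists_lin (P i₀) (P' i₀)
          obtain ⟨b, hb1, hb2⟩ := bez_lin (n := n) (d := d) P P' h2' i₀ (hd1 i₀) l hl1
          rw [hl2] at hb2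
          refine ⟨fun s => W' * b s, ?_, ?_⟩
          · calc ∑ i, ((W' : ℤ) * b i) * mono i P = W' * ev b P := by
                  unfold ev
                  rw [mul_sum]
                  exact sum_congr rfl (fun _ _ => by ring)
              _ = 0 := by rw [hb1, mul_zero]
          · calc ∑ i, ((W' : ℤ) * b i) * mono i P' = W' * ev b P' := by
                  unfold ev
                  rw [mul_sum]
                  exact sum_congr rfl (fun _ _ => by ring)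
              _ = W := by rw [hb2, hW']; push_cast; ring)
    refine hvar.trans ?_
    -- pass to the vectors
    set F := Ps.image (fun P : Pt n ℤ => P i₀) with hF
    have hinj := VarA.inj_pt i₀ hk Ps
    have hFmem : ∀ x ∈ F, R ^ 18 < 2 * nrm x ∧ nrm x ≤ R ^ 18 ∧ Umod x ∧ Sep (R ^ 11) x := by
      intro x hx
      rw [hF, mem_image] at hx
      obtain ⟨P, hP, rfl⟩ := hx
      obtain ⟨h1, h2, h3⟩ := hmem P hP
      exact ⟨(h1 i₀).1, (h1 i₀).2, h2 i₀, h3⟩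
    have hcardF : (F.card : ℝ) ≤ 3 ^ (n i₀ + 1) * ((R : ℝ) ^ 18) ^ (n i₀ + 1) := by
      have h1 : F ⊆ box (Fin (n i₀ + 1)) (R ^ 18) := by
        intro x hx
        rw [VarA.mem_box]
        intro j
        exact (VarA.natAbs_le_nrm x j).trans (hFmem x hx).2.1
      have h2 := card_le_card h1
      rw [VarA.card_box] at h2
      have h3 : (F.card : ℝ) ≤ (2 * (R : ℝ) ^ 18 + 1) ^ (n i₀ + 1) := by exact_mod_cast h2
      refine h3.trans ?_
      rw [← mul_pow]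
      gcongr
      have : (1 : ℝ) ≤ (R : ℝ) ^ 18 := one_le_pow₀ (by linarith)
      linarith
    have hRw : (∑ P ∈ Ps, ∑ P' ∈ Ps,
        (if wd (P i₀) (P' i₀) ≠ 0 ∧ gd (P i₀) (P' i₀) ≤ w ∧
            θ * (((R ^ 18 : ℕ) : ℝ)) ^ 2 ≤ (wd (P i₀) (P' i₀) : ℝ) then
          ε' * (if wd (P i₀) (P' i₀) ≠ 0 then
            a * ((gd (P i₀) (P' i₀) : ℝ) / wd (P i₀) (P' i₀)) else b)
        else 5 * (if wd (P i₀) (P' i₀) ≠ 0 then
            a * ((gd (P i₀) (P' i₀) : ℝ) / wd (P i₀) (P' i₀)) else b))) =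
        ∑ x ∈ F, ∑ y ∈ F, (if wd x y ≠ 0 ∧ gd x y ≤ w ∧
            θ * (((R ^ 18 : ℕ) : ℝ)) ^ 2 ≤ (wd x y : ℝ) then
        ε' * (if wd x y ≠ 0 then a * ((gd x y : ℝ) / wd x y) else b)
      else 5 * (if wd x y ≠ 0 then a * ((gd x y : ℝ) / wd x y) else b)) := by
      rw [hF, sum_image hinj]
      apply sum_congr rfl
      intro P _
      rw [sum_image hinj]
    refine (le_of_eq hRw).trans ?_
    refine (VarA.pair_sum F a b ε' (θ * (((R ^ 18 : ℕ) : ℝ)) ^ 2) w hapos.le hbpos.le hε'pos.le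
      (fun x hx => (hFmem x hx).2.2.1)).trans ?_
    obtain ⟨hsum1, hsum2⟩ := Hsum (R ^ 18) (R ^ 11) w θ F (Nat.one_le_pow _ _ (by omega))
      (by omega) hθpos.le (min_le_left _ _) hFmem
    have htot := VarA.total (n i₀) e (d i₀) K (by omega) (by omega) hn Cp Cd Ca R H L F.card ε'
      w θ _ _ hCp hCd hCa hR2' hHpos hHR' hLpos hε'pos.le hcardF
      (hsum1.trans (le_of_eq (by push_cast; rfl))) (hsum2.trans (le_of_eq (by push_cast; rfl)))
    rw [ha, hb, hSz]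
    refine htot.trans ?_
    have hEE : EE n d (fun _ => R ^ 18) H =
        ((R : ℝ) ^ 18) ^ (n i₀ + 1) / (H * ((R : ℝ) ^ 18) ^ d i₀) := by
      unfold EE
      rw [hVol, hSz]
    rw [hEE]
    have har := VarA.arith ε A D R w θ ε' hApos hε (by linarith) (by rw [hw]; positivity) rfl
      (min_le_right _ _) (by
        rw [hw]
        push_cast
        exact (Nat.le_ceil _).trans (by linarith)) hRD
    gcongr

end Pool.Agent.HP
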