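import Pool.Agent.Lib.MP_fc0680_nt.Defs

set_option autoImplicit false
open Finset Filter

namespace Pool.Agent.HP

namespace WindowAux

/-- the half open unit cube around an integer vector -/
def cube {ι : Type} (c : ι → ℤ) : Set (ι → ℝ) :=
  Set.pi Set.univ fun i => Set.Ico ((c i : ℝ) - 1 / 2) ((c i : ℝ) + 1 / 2)

theorem volume_cube {ι : Type} [Fintype ι] (c : ι → ℤ) :
    MeasureTheory.volume (cube c) = 1 := by
  unfold cube
  rw [Real.volume_pi_Ico]
  apply Finset.prod_eq_one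
  intro i _
  have : (c i : ℝ) + 1 / 2 - ((c i : ℝ) - 1 / 2) = 1 := by ring
  rw [this, ENNReal.ofReal_one]

theorem measurable_cube {ι : Type} [Fintype ι] (c : ι → ℤ) : MeasurableSet (cube c) :=
  MeasurableSet.univ_pi fun _ => measurableSet_Ico

theorem eq_of_mem_cube {ι : Type} {c c' : ι → ℤ} {y : ι → ℝ} (h : y ∈ cube c)
    (h' : y ∈ cube c') : c = c' := by
  funext i
  have h1 := h i (Set.mem_univ i)
  have h2 := h' i (Set.mem_univ i)
  rw [Set.mem_Ico] at h1 h2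
  have h3 : (c i : ℝ) < c' i + 1 := by linarith [h1.1, h2.2]
  have h4 : (c' i : ℝ) < c i + 1 := by linarith [h1.2, h2.1]
  have h5 : c i < c' i + 1 := by exact_mod_cast h3
  have h6 : c' i < c i + 1 := by exact_mod_cast h4
  omega

theorem mem_cube_floor {ι : Type} (y : ι → ℝ) : y ∈ cube (fun i => ⌊y i + 1 / 2⌋) := by
  intro i _
  rw [Set.mem_Ico]
  constructor
  · have := Int.floor_le (y i + 1 / 2)
    linarith
  · have := Int.lt_floor_add_one (y i + 1 / 2)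
    linarith

theorem abs_sub_le_of_mem_cube {ι : Type} {c : ι → ℤ} {y : ι → ℝ} (h : y ∈ cube c) (i : ι) :
    |y i - c i| ≤ 1 / 2 := by
  have h1 := h i (Set.mem_univ i)
  rw [Set.mem_Ico] at h1
  rw [abs_le]
  constructor <;> linarith [h1.1, h1.2]

theorem abs_form_sub_le {ι : Type} [Fintype ι] {c : ι → ℤ} {y : ι → ℝ} (h : y ∈ cube c)
    (m : ι → ℤ) (S : ℝ) (hm : ∀ i, |(m i : ℝ)| ≤ S) :
    |∑ i, y i * (m i : ℝ) - ((∑ i, c i * m i : ℤ) : ℝ)| ≤ Fintype.card ι * S / 2 := by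
  have h1 : ∑ i, y i * (m i : ℝ) - ((∑ i, c i * m i : ℤ) : ℝ) =
      ∑ i, (y i - c i) * (m i : ℝ) := by
    push_cast
    rw [← Finset.sum_sub_distrib]
    exact Finset.sum_congr rfl fun i _ => by ring
  rw [h1]
  calc |∑ i, (y i - c i) * (m i : ℝ)| ≤ ∑ i, |(y i - c i) * (m i : ℝ)| :=
        Finset.abs_sum_le_sum_abs _ _
    _ ≤ ∑ _i : ι, 1 / 2 * S := by
        apply Finset.sum_le_sum
        intro i _
        rw [abs_mul]
        exact mul_le_mul (abs_sub_le_of_mem_cube h i) (hm i) (abs_nonneg _) (by norm_num)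
    _ = Fintype.card ι * S / 2 := by
        rw [Finset.sum_const, Finset.card_univ, nsmul_eq_mul]
        ring

end WindowAux

open WindowAux Pointwise in
theorem window {ι : Type} [Fintype ι] [DecidableEq ι] (m m' : ι → ℤ) (S V lam : ℝ)
    (hS : 0 ≤ S) (hm : ∀ i, |(m i : ℝ)| ≤ S) (hm' : ∀ i, |(m' i : ℝ)| ≤ S) (H₁ H₂ : ℕ)
    (hH : 2 ≤ H₁) (hlam : 1 ≤ lam) (h1 : (H₂ : ℝ) + 1 ≤ lam * ((H₁ : ℝ) - 1))
    (h2 : V + Fintype.card ι * S ≤ lam * (V - Fintype.card ι * S))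
    (h3 : Fintype.card ι * S < V) :
    (((box ι H₂).filter fun c => |((∑ i, c i * m i : ℤ) : ℝ)| ≤ V ∧
        |((∑ i, c i * m' i : ℤ) : ℝ)| ≤ V).card : ℝ) ≤
      lam ^ Fintype.card ι * (((box ι H₁).filter fun c => |((∑ i, c i * m i : ℤ) : ℝ)| ≤ V ∧
        |((∑ i, c i * m' i : ℤ) : ℝ)| ≤ V).card : ℝ) := by
  classical
  set A₁ := (box ι H₁).filter fun c => |((∑ i, c i * m i : ℤ) : ℝ)| ≤ V ∧
        |((∑ i, c i * m' i : ℤ) : ℝ)| ≤ V with hA₁
  set A₂ := (box ι H₂).filter fun c => |((∑ i, c i * m i : ℤ) : ℝ)| ≤ V ∧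
        |((∑ i, c i * m' i : ℤ) : ℝ)| ≤ V with hA₂
  set K₁ : Set (ι → ℝ) := {y | (∀ i, |y i| ≤ (H₁ : ℝ) - 1 / 2) ∧
    |∑ i, y i * (m i : ℝ)| ≤ V - Fintype.card ι * S / 2 ∧
    |∑ i, y i * (m' i : ℝ)| ≤ V - Fintype.card ι * S / 2} with hK₁
  set K₂ : Set (ι → ℝ) := {y | (∀ i, |y i| ≤ (H₂ : ℝ) + 1 / 2) ∧
    |∑ i, y i * (m i : ℝ)| ≤ V + Fintype.card ι * S / 2 ∧
    |∑ i, y i * (m' i : ℝ)| ≤ V + Fintype.card ι * S / 2} with hK₂
  have hMS : 0 ≤ (Fintype.card ι : ℝ) * S := by positivity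
  have hlam0 : 0 < lam := by linarith
  have hcover : K₁ ⊆ ⋃ c ∈ A₁, cube c := by
    rintro y ⟨hy1, hy2, hy3⟩
    rw [Set.mem_iUnion₂]
    refine ⟨fun i => ⌊y i + 1 / 2⌋, ?_, mem_cube_floor y⟩
    have hc := mem_cube_floor y
    rw [hA₁, Finset.mem_filter]
    refine ⟨?_, ?_, ?_⟩
    · rw [box, Fintype.mem_piFinset]
      intro i
      rw [Finset.mem_Icc]
      have h4 := abs_sub_le_of_mem_cube hc i
      have h5 := hy1 i
      rw [abs_le] at h4 h5
      have h6 : ((⌊y i + 1 / 2⌋ : ℤ) : ℝ) ≤ (H₁ : ℝ) := by linarith [h4.1, h5.2]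
      have h7 : -(H₁ : ℝ) ≤ ((⌊y i + 1 / 2⌋ : ℤ) : ℝ) := by linarith [h4.2, h5.1]
      constructor
      · exact_mod_cast h7
      · exact_mod_cast h6
    · have h4 := abs_form_sub_le hc m S hm
      rw [abs_le] at h4 hy2 ⊢
      constructor <;> linarith [h4.1, h4.2, hy2.1, hy2.2]
    · have h4 := abs_form_sub_le hc m' S hm'
      rw [abs_le] at h4 hy3 ⊢
      constructor <;> linarith [h4.1, h4.2, hy3.1, hy3.2]
  have hpack : (⋃ c ∈ A₂, cube c) ⊆ K₂ := by
    intro y hy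
    rw [Set.mem_iUnion₂] at hy
    obtain ⟨c, hcA, hc⟩ := hy
    rw [hA₂, Finset.mem_filter, box, Fintype.mem_piFinset] at hcA
    obtain ⟨hc1, hc2, hc3⟩ := hcA
    refine ⟨fun i => ?_, ?_, ?_⟩
    · have h4 := abs_sub_le_of_mem_cube hc i
      have h5 := hc1 i
      rw [Finset.mem_Icc] at h5
      have h6 : (c i : ℝ) ≤ (H₂ : ℝ) := by exact_mod_cast h5.2
      have h7 : -(H₂ : ℝ) ≤ (c i : ℝ) := by exact_mod_cast h5.1
      rw [abs_le] at h4 ⊢
      constructor <;> linarith [h4.1, h4.2]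
    · have h4 := abs_form_sub_le hc m S hm
      rw [abs_le] at h4 hc2 ⊢
      constructor <;> linarith [h4.1, h4.2, hc2.1, hc2.2]
    · have h4 := abs_form_sub_le hc m' S hm'
      rw [abs_le] at h4 hc3 ⊢
      constructor <;> linarith [h4.1, h4.2, hc3.1, hc3.2]
  have hscale : K₂ ⊆ lam • K₁ := by
    rintro y ⟨hy1, hy2, hy3⟩
    rw [Set.mem_smul_set]
    refine ⟨lam⁻¹ • y, ⟨fun i => ?_, ?_, ?_⟩, smul_inv_smul₀ hlam0.ne' y⟩
    · rw [Pi.smul_apply, smul_eq_mul, abs_mul, abs_of_pos (inv_pos.mpr hlam0), inv_mul_le_iff₀ hlam0]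
      have := hy1 i
      nlinarith
    · have h4 : ∑ i, (lam⁻¹ • y) i * (m i : ℝ) = lam⁻¹ * ∑ i, y i * (m i : ℝ) := by
        rw [Finset.mul_sum]
        exact Finset.sum_congr rfl fun i _ => by rw [Pi.smul_apply, smul_eq_mul]; ring
      rw [h4, abs_mul, abs_of_pos (inv_pos.mpr hlam0), inv_mul_le_iff₀ hlam0]
      nlinarith
    · have h4 : ∑ i, (lam⁻¹ • y) i * (m' i : ℝ) = lam⁻¹ * ∑ i, y i * (m' i : ℝ) := by
        rw [Finset.mul_sum]
        exact Finset.sum_congr rfl fun i _ => by rw [Pi.smul_apply, smul_eq_mul]; ring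
      rw [h4, abs_mul, abs_of_pos (inv_pos.mpr hlam0), inv_mul_le_iff₀ hlam0]
      nlinarith
  have hvol2 : (A₂.card : ENNReal) ≤ MeasureTheory.volume K₂ := by
    refine le_trans (le_of_eq ?_) (MeasureTheory.measure_mono hpack)
    rw [MeasureTheory.measure_biUnion_finset]
    · simp_rw [volume_cube]
      rw [Finset.sum_const, nsmul_eq_mul, mul_one]
    · intro c _ c' _ hcc'
      rw [Function.onFun, Set.disjoint_left]
      intro y hy hy'
      exact hcc' (eq_of_mem_cube hy hy')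
    · exact fun c _ => measurable_cube c
  have hvol1 : MeasureTheory.volume K₁ ≤ (A₁.card : ENNReal) := by
    refine le_trans (MeasureTheory.measure_mono hcover) ?_
    refine le_trans (MeasureTheory.measure_biUnion_finset_le _ _) ?_
    simp_rw [volume_cube]
    rw [Finset.sum_const, nsmul_eq_mul, mul_one]
  have hvol : (A₂.card : ENNReal) ≤ ENNReal.ofReal (lam ^ Fintype.card ι) * (A₁.card : ENNReal) := by
    calc (A₂.card : ENNReal) ≤ MeasureTheory.volume K₂ := hvol2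
      _ ≤ MeasureTheory.volume (lam • K₁) := MeasureTheory.measure_mono hscale
      _ = ENNReal.ofReal (lam ^ Fintype.card ι) * MeasureTheory.volume K₁ := by
          rw [MeasureTheory.Measure.addHaar_smul, Module.finrank_fintype_fun_eq_card,
            abs_of_nonneg (by positivity)]
      _ ≤ _ := by gcongr
  have hfin : ENNReal.ofReal (lam ^ Fintype.card ι) * (A₁.card : ENNReal) =
      ENNReal.ofReal (lam ^ Fintype.card ι * (A₁.card : ℝ)) := by
    rw [ENNReal.ofReal_mul (by positivity), ENNReal.ofReal_natCast]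
  rw [hfin, ← ENNReal.ofReal_natCast] at hvol
  exact (ENNReal.ofReal_le_ofReal_iff (by positivity)).mp hvol

end Pool.Agent.HP
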